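import Mathlib
import Pool.Agent.CU.Stmts

set_option autoImplicit false

/-!
# CV: at most two prime factors for `n^κ ≤ m ≤ n^{1/3+ρ}` (MP_4011c3_nt, Q2), definitions

Level of distribution `1/2` of the tiles for `q` divisible by `d` (all prime factors of `d` larger
than `w`) and in a fixed class modulo a small `g`.
-/

namespace Pool.Agent.CV

open Finset Filter Pool.Agent.MT Pool.Agent.CH Pool.Agent.CU

/-- sum over a family of pairs of characters: primitive characters modulo `k`, `K < k ≤ 2K`,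
`(k, M) = 1`, and all characters modulo `M` -/
noncomputable def Fam (K M : ℕ)
    (f : (k : ℕ) → DirichletCharacter ℂ k → DirichletCharacter ℂ M → ℝ) : ℝ :=
  ∑ k ∈ (Ioc K (2 * K)).filter (fun k => k.Coprime M), ∑ χ ∈ prim k,
    ∑ ψ : DirichletCharacter ℂ M, f k χ ψ

/-- `∑ Λ(x) η(x/X) χ(x) ψ(x)` -/
noncomputable def PZ (η : ℝ → ℝ) (X : ℕ) {k M : ℕ} (χ : DirichletCharacter ℂ k)
    (ψ : DirichletCharacter ℂ M) : ℂ :=
  ∑ x ∈ range (X + 1), ((lam x * η ((x : ℝ) / X) : ℝ) : ℂ) * (χ (x : ZMod k) * ψ (x : ZMod M))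

/-- `∑ χ(j) ψ(j - m c)` over `n - m < j ≤ n`, `(j, k') = 1` -/
noncomputable def JZ (n m g c k' : ℕ) {k : ℕ} (χ : DirichletCharacter ℂ k)
    (ψ : DirichletCharacter ℂ (m * g)) : ℂ :=
  ∑ j ∈ (Ioc (n - m) n).filter (fun j => j.Coprime k'),
    χ (j : ZMod k) * ψ ((j : ZMod (m * g)) - ((m * c : ℕ) : ZMod (m * g)))

/-- primes in the tiles `q = c mod g`, `d ∣ q` -/
noncomputable def TZ (η : ℝ → ℝ) (N m n g c d : ℕ) : ℝ :=
  ∑ q ∈ (range (N + 1)).filter (fun q => q % g = c % g ∧ d ∣ q), tl η N m n q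

/-- the error -/
noncomputable def EZ (η : ℝ → ℝ) (N m n g c d : ℕ) : ℝ :=
  |TZ η N m n g c d - psi0 (etaR η) (m * N) / (g * d)|

/-- squarefree moduli, coprime to `M`, all prime factors larger than `w` -/
def ZD (M w F : ℕ) : Finset ℕ :=
  (Icc 1 F).filter (fun d => Squarefree d ∧ d.Coprime M ∧ ∀ l ∈ d.primeFactors, w < l)

/-- sum of `χ(x) conj χ(j)` over the primitive characters modulo `k` (for `k = 1` this is `1`) -/
noncomputable def Ps (k x j : ℕ) : ℂ :=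
  (if k = 1 then 1 else 0) + ∑ χ ∈ prim k, χ (x : ZMod k) * (starRingEnd ℂ) (χ (j : ZMod k))

/-- contribution of the primitive characters modulo `k` -/
noncomputable def TG (η : ℝ → ℝ) (N m n g c d k : ℕ) : ℂ :=
  ∑ q ∈ (range (N + 1)).filter (fun q => q % g = c % g), ((η ((q : ℝ) / N) : ℝ) : ℂ) *
    ∑ r ∈ (range m).filter (fun r => (n - m * q - r).Coprime d ∧ (n - r).Coprime d),
      ((lam (n - m * q - r) : ℝ) : ℂ) * Ps k (n - m * q - r) (n - r)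

/-- the part of `d` composed of primes up to `w` -/
def smp (w d : ℕ) : ℕ := ∏ p ∈ d.primeFactors.filter (fun p => p ≤ w), p

/-- classes removed: the primes `l ∣ m`, `w < l`, are left out -/
def OmZ (w m l : ℕ) : Finset ℕ := if w < l ∧ l ∣ m then ∅ else OmT w l

noncomputable def gZ (w m l : ℕ) : ℝ := ((OmZ w m l).card : ℝ) / l

/-- sifted sum -/
noncomputable def SSZ (η : ℝ → ℝ) (w z N m n : ℕ) : ℝ :=
  ∑ q ∈ (range (N + 1)).filter (fun q => ∀ l ∈ pr z, q % l ∉ OmZ w m l), tl η N m n q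

noncomputable def SSZp (η : ℝ → ℝ) (w z p N m n : ℕ) : ℝ :=
  ∑ q ∈ (range (N + 1)).filter (fun q => (∀ l ∈ pr z, q % l ∉ OmZ w m l) ∧ p ∣ q), tl η N m n q

/-- unit of measure -/
noncomputable def UZ (η : ℝ → ℝ) (δ : ℝ) (N m : ℕ) : ℝ :=
  (∫ t in (0 : ℝ)..1, η t) * (m * N) * VV (gZ (wN δ N) m) (zN N)

/-- `n^{1/3}` -/
noncomputable def y3 (n : ℕ) : ℕ := ⌊(n : ℝ) ^ (1 / 3 : ℝ)⌋₊

/-- pairs `(q, r)`, `q = p₁ p₂ p₃` in a class modulo `g`, `h ∣ n - m q - r` -/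
noncomputable def RB (η : ℝ → ℝ) (N z y m n g c h : ℕ) : ℝ :=
  ∑ q ∈ (range (N + 1)).filter (fun q => q % g = c % g), bt z y q * η ((q : ℝ) / N) *
    (((range m).filter (fun r => h ∣ n - m * q - r)).card : ℝ)

/-- `∑ χ(j)` over `n - m < j ≤ n`, `e ∣ j`, `(j, t) = 1` -/
noncomputable def JE (n m e t : ℕ) {k : ℕ} (χ : DirichletCharacter ℂ k) : ℂ :=
  ∑ j ∈ (Ioc (n - m) n).filter (fun j => e ∣ j ∧ j.Coprime t), χ (j : ZMod k)

/-- `∑ b(q) η(q/N) χ(q)` over `q = c mod g`, `(q, t) = 1` -/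
noncomputable def QB (η : ℝ → ℝ) (N z y g c t : ℕ) {k : ℕ} (χ : DirichletCharacter ℂ k) : ℂ :=
  ∑ q ∈ (range (N + 1)).filter (fun q => q % g = c % g ∧ q.Coprime t),
    ((bt z y q * η ((q : ℝ) / N) : ℝ) : ℂ) * χ (q : ZMod k)

/-- the switched sum -/
noncomputable def SBZ (η : ℝ → ℝ) (w z y y' N m n : ℕ) : ℝ :=
  ∑ q ∈ (range (N + 1)).filter (fun q => ∀ l ∈ pr w, (q ^ 2) % l ≠ 2 % l),
    bt z y q * η ((q : ℝ) / N) *
      (((range m).filter (fun r => ∀ l ∈ pr y', ¬ l ∣ n - m * q - r)).card : ℝ)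

end Pool.Agent.CV
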