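import Mathlib
import Pool.Agent.CV.Defs

set_option autoImplicit false

/-!
# CV: statements of the modules
-/

namespace Pool.Agent.CV

open Finset Filter Pool.Agent.MT Pool.Agent.CH Pool.Agent.CU

/-! ### Families of characters -/

/-- large sieve for the family -/
def St_LSF : Prop := ∃ C : ℝ, 0 < C ∧ ∀ K M u v : ℕ, 1 ≤ K → 1 ≤ M → u ≤ v → ∀ a : ℕ → ℂ,
  Fam K M (fun k χ ψ => ‖∑ x ∈ Ioc u v, a x * (χ (x : ZMod k) * ψ (x : ZMod M))‖ ^ 2) ≤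
    C * ((v : ℝ) - u + M * (K : ℝ) ^ 2) * ∑ x ∈ Ioc u v, ‖a x‖ ^ 2

/-- fourth moment of the sums over the interval `(n - m, n]` -/
def St_J4 : Prop := ∀ ε : ℝ, 0 < ε → ∃ C : ℝ, 0 < C ∧ ∀ n m g c k' K : ℕ, 1 ≤ m → m ≤ n → 1 ≤ g →
  1 ≤ K → Fam K (m * g) (fun _ χ ψ => ‖JZ n m g c k' χ ψ‖ ^ 4) ≤
    C * (n : ℝ) ^ ε * (m * g) * K * (m : ℝ) ^ 2 * (K + m)

/-- Polya-Vinogradov for the products -/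
def St_PVF : Prop := ∃ C : ℝ, 0 < C ∧ ∀ k M u v : ℕ, 2 ≤ k → 1 ≤ M → k.Coprime M →
  ∀ χ ∈ prim k, ∀ ψ : DirichletCharacter ℂ M,
  ‖∑ j ∈ Ioc u v, χ (j : ZMod k) * ψ (j : ZMod M)‖ ≤
    C * 2 ^ M.primeFactors.card * (Real.sqrt (k * M) * (1 + Real.log (k * M)))

/-- bilinear sums over the family, with a third factor in the fourth moment -/
def St_TIIF : Prop := ∀ η : ℝ → ℝ, IsWt η → ∀ ε : ℝ, 0 < ε → ∃ C : ℝ, 0 < C ∧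
  ∀ X K M V U : ℕ, 1 ≤ X → 1 ≤ K → 1 ≤ M → 1 ≤ U → U ≤ V → U * V ≤ X → ∀ a b : ℕ → ℂ,
  (∀ l, ‖a l‖ ≤ 1) → (∀ j, ‖b j‖ ≤ 1) →
  ∀ J : (k : ℕ) → DirichletCharacter ℂ k → DirichletCharacter ℂ M → ℝ, (∀ k χ ψ, 0 ≤ J k χ ψ) →
  Fam K M (fun k χ ψ => ‖∑ l ∈ Ioc V (2 * V), ∑ j ∈ Icc 1 (X / l), a l * b j *
      ((χ ((l * j : ℕ) : ZMod k) * ψ ((l * j : ℕ) : ZMod M)) *
        ((η (((l * j : ℕ) : ℝ) / X) : ℝ) : ℂ))‖ * J k χ ψ) ≤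
    C * (X : ℝ) ^ ε * (Fam K M (fun k χ ψ => J k χ ψ ^ 4)) ^ (1 / 4 : ℝ) *
      (X + X * (M * (K : ℝ) ^ 2) ^ (1 / 4 : ℝ) / Real.sqrt U +
        (X : ℝ) ^ (3 / 4 : ℝ) * (M * (K : ℝ) ^ 2) ^ (1 / 2 : ℝ) +
        (X : ℝ) ^ (1 / 2 : ℝ) * (M * (K : ℝ) ^ 2) ^ (3 / 4 : ℝ))

/-- the prime sums over the family -/
def St_PsiF : Prop := ∀ η : ℝ → ℝ, IsWt η → ∀ ε : ℝ, 0 < ε → ∃ C : ℝ, 0 < C ∧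
  ∀ X K M U : ℕ, 3 ≤ X → 1 ≤ K → 1 ≤ M → K * M ≤ X → 1 ≤ U → U ^ 2 ≤ X →
  ∀ J : (k : ℕ) → DirichletCharacter ℂ k → DirichletCharacter ℂ M → ℝ, (∀ k χ ψ, 0 ≤ J k χ ψ) →
  Fam K M (fun k χ ψ => ‖PZ η X χ ψ‖ * J k χ ψ) ≤
    C * (X : ℝ) ^ ε * (Fam K M (fun k χ ψ => J k χ ψ ^ 4)) ^ (1 / 4 : ℝ) *
      ((M * (K : ℝ) ^ 2) ^ (3 / 4 : ℝ) * (U : ℝ) ^ 2 * Real.sqrt (K * M) + X +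
        X * (M * (K : ℝ) ^ 2) ^ (1 / 4 : ℝ) / Real.sqrt U +
        (X : ℝ) ^ (3 / 4 : ℝ) * (M * (K : ℝ) ^ 2) ^ (1 / 2 : ℝ) +
        (X : ℝ) ^ (1 / 2 : ℝ) * (M * (K : ℝ) ^ 2) ^ (3 / 4 : ℝ))

/-- one dyadic block of conductors -/
def St_FamB : Prop := ∀ η : ℝ → ℝ, IsWt η → ∀ θ : ℝ, 0 < θ → θ < 1 / 2 →
  ∃ ρ σ c₂ : ℝ, 0 < ρ ∧ 0 < σ ∧ σ < 1 / 3 ∧ 0 < c₂ ∧ ∀ᶠ n : ℕ in atTop, ∀ m N g c k' K : ℕ,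
  Tile N m n → (m : ℝ) ≤ (n : ℝ) ^ (1 / 3 + ρ) → 1 ≤ g → (g : ℝ) ≤ (n : ℝ) ^ c₂ →
  (N : ℝ) ^ (1 / 3 - σ) ≤ 2 * K → (K : ℝ) ≤ (N : ℝ) ^ θ →
  Fam K (m * g) (fun _ χ ψ => ‖PZ (etaR η) (m * N) χ ψ‖ * ‖JZ n m g c k' χ ψ‖) ≤
    K * (m * g) * (n : ℝ) ^ (1 - c₂)

/-! ### Distribution -/

/-- level `1/3` with a power saving -/
def St_TBV3P : Prop := ∀ η : ℝ → ℝ, IsWt η → ∀ θ κ : ℝ, 0 < θ → θ < 1 / 3 → 0 < κ →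
  ∃ c₀ : ℝ, 0 < c₀ ∧ ∀ᶠ n : ℕ in atTop, ∀ m N : ℕ, Tile N m n → (n : ℝ) ^ κ ≤ m →
    (n : ℝ) ^ κ ≤ N → Lev η N m n θ 1 ((n : ℝ) ^ (1 - c₀))

/-- the same for `q` divisible by `d` in a class modulo `g` -/
def St_LevS : Prop := ∀ η : ℝ → ℝ, IsWt η → ∀ σ κ : ℝ, 0 < σ → σ < 1 / 3 → 0 < κ →
  ∃ c₂ : ℝ, 0 < c₂ ∧ ∀ᶠ n : ℕ in atTop, ∀ m N g c w : ℕ, Tile N m n → (n : ℝ) ^ κ ≤ m →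
    (n : ℝ) ^ κ ≤ N → 1 ≤ g → (g : ℝ) ≤ (n : ℝ) ^ c₂ → c < g →
    ∑ d ∈ ZD (m * g) w ⌊(N : ℝ) ^ (1 / 3 - σ)⌋₊, EZ η N m n g c d ≤ (n : ℝ) ^ (1 - c₂)

/-- primitive characters and congruences -/
def St_ZId : Prop :=
  (∀ d x j : ℕ, 1 ≤ d → x.Coprime d → j.Coprime d →
    ∑ k ∈ d.divisors, Ps k x j = if x % d = j % d then (d.totient : ℂ) else 0) ∧
  (∀ k x j : ℕ, 1 ≤ k → x.Coprime k → j.Coprime k →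
    Ps k x j = ∑ k₁ ∈ k.divisors, ((ArithmeticFunction.moebius (k / k₁) : ℤ) : ℂ) *
      if x % k₁ = j % k₁ then (k₁.totient : ℂ) else 0)

/-- detection of `d ∣ q` by characters -/
def St_ZA : Prop := ∀ η : ℝ → ℝ, IsWt η → ∃ C : ℝ, 0 < C ∧ ∀ N m n g c d w : ℕ, 16 ≤ N →
  Tile N m n → 1 ≤ g → g ≤ N → c < g → d ∈ ZD (m * g) w N →
  ‖((TZ η N m n g c d : ℝ) : ℂ) - 1 / (d.totient : ℂ) * ∑ k ∈ d.divisors, TG η N m n g c d k‖ ≤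
    C * (1 + Real.log n) ^ 2

/-- small conductors -/
def St_ZB : Prop := ∀ η : ℝ → ℝ, IsWt η → ∃ C : ℝ, 0 < C ∧ ∀ N m n g c d w k : ℕ, 16 ≤ N →
  Tile N m n → 1 ≤ w → 1 ≤ g → g ≤ N → c < g → d ∈ ZD (m * g) w N → k ∣ d →
  ‖TG η N m n g c d k - ((∑ k₁ ∈ k.divisors, ((ArithmeticFunction.moebius (k / k₁) : ℤ) : ℝ) *
      k₁.totient * TZ η N m n g c k₁ : ℝ) : ℂ)‖ ≤
    C * 2 ^ k.primeFactors.card * (1 + Real.log n) ^ 2 *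
      (((m : ℝ) / w + 1) * (n / (m * g) + k.totient))

/-- large conductors -/
def St_ZC : Prop := ∀ η : ℝ → ℝ, IsWt η → ∃ C : ℝ, 0 < C ∧ ∀ N m n g c d w k : ℕ, 16 ≤ N →
  Tile N m n → 1 ≤ g → g ≤ N → c < g → d ∈ ZD (m * g) w N → k ∣ d → k ≠ 1 →
  ‖TG η N m n g c d k‖ ≤ C * (1 + Real.log n) ^ 2 * (k.totient * m) +
    1 / ((m * g).totient : ℝ) * ∑ χ ∈ prim k, ∑ ψ : DirichletCharacter ℂ (m * g),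
      ‖PZ (etaR η) (m * N) χ ψ‖ * ‖JZ n m g c (d / k) χ ψ‖

/-- one modulus: small conductors, large conductors -/
def St_ZRed : Prop := ∀ η : ℝ → ℝ, IsWt η → ∃ C : ℝ, 0 < C ∧ ∀ N m n g c d w K₀ : ℕ, 16 ≤ N →
  Tile N m n → 1 ≤ w → 1 ≤ K₀ → 1 ≤ g → g ≤ N → c < g → d ∈ ZD (m * g) w N →
  EZ η N m n g c d ≤
    C * 4 ^ d.primeFactors.card * (1 + Real.log n) ^ 3 * (m +
      ((m : ℝ) / w + 1) * (n / (m * g * (d.totient : ℝ)) + 1) +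
      m * N / ((d.totient : ℝ) * K₀)) +
    2 ^ d.primeFactors.card / (d.totient : ℝ) *
      ∑ k ∈ d.divisors.filter (fun k => k ≤ K₀), (k.totient : ℝ) * EZ η N m n g c k +
    1 / ((d.totient : ℝ) * ((m * g).totient : ℝ)) *
      ∑ k ∈ d.divisors.filter (fun k => K₀ < k), ∑ χ ∈ prim k,
        ∑ ψ : DirichletCharacter ℂ (m * g),
          ‖PZ (etaR η) (m * N) χ ψ‖ * ‖JZ n m g c (d / k) χ ψ‖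

/-- level `1/2` for `q` divisible by `d` -/
def St_LevZ : Prop := ∀ η : ℝ → ℝ, IsWt η → ∀ θ : ℝ, 0 < θ → θ < 1 / 2 → ∃ ρ : ℝ, 0 < ρ ∧
  ∀ κ : ℝ, 0 < κ → ∃ c₁ : ℝ, 0 < c₁ ∧ ∀ δ : ℝ, 0 < δ → ∃ C : ℕ, ∀ᶠ n : ℕ in atTop,
  ∀ m N g c : ℕ, Tile N m n → (n : ℝ) ^ κ ≤ m → (m : ℝ) ≤ (n : ℝ) ^ (1 / 3 + ρ) → 1 ≤ g →
  (g : ℝ) ≤ (n : ℝ) ^ c₁ → c < g →
  ∑ d ∈ ZD (m * g) (wN δ N) ⌊(N : ℝ) ^ θ⌋₊, EZ η N m n g c d ≤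
    (n : ℝ) ^ (1 - 4 * c₁) + C * (1 + Real.log n) ^ C * n / (g * wN δ N)

/-! ### The linear sieve, small part of the moduli under control -/

def St_LRU (A0 : ℝ) : Prop := ∀ ε : ℝ, 0 < ε → ∃ δ₀ : ℝ, 0 < δ₀ ∧ ∀ δ : ℝ, 0 < δ → δ ≤ δ₀ →
  ∀ J : ℕ, ∀ᶠ X : ℕ in atTop, ∀ (z : ℕ) (D : ℝ),
  (X : ℝ) ^ (1 / 20 : ℝ) ≤ z → (z : ℝ) ≤ D → D ≤ (z : ℝ) ^ 3 → D ≤ X → ∀ g : ℕ → ℝ,
  DnsG ⌊(X : ℝ) ^ δ⌋₊ z J g → ∃ c : ℕ → ℝ,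
    (∀ d, c d ≠ 0 → Squarefree d ∧ (∀ p ∈ d.primeFactors, p ≤ z) ∧
      (d : ℝ) ≤ D * (X : ℝ) ^ ε ∧ (smp ⌊(X : ℝ) ^ δ⌋₊ d : ℝ) ≤ (X : ℝ) ^ ε) ∧
    (∀ d, |c d| ≤ 3) ∧
    (∑ d ∈ Icc 1 (X ^ 2), c d * ∏ p ∈ d.primeFactors, g p ≤
      VV g z * (A0 * Real.log z / Real.log D + ε)) ∧
    ∀ S : Finset ℕ, S ⊆ pr z → (if S = ∅ then (1 : ℝ) else 0) ≤
      ∑ T ∈ S.powerset, c (∏ l ∈ T, l)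

def St_LRL (A0 : ℝ) : Prop := ∀ ε : ℝ, 0 < ε → ∃ δ₀ : ℝ, 0 < δ₀ ∧ ∀ δ : ℝ, 0 < δ → δ ≤ δ₀ →
  ∀ J : ℕ, ∀ᶠ X : ℕ in atTop, ∀ (z : ℕ) (D : ℝ),
  (X : ℝ) ^ (1 / 20 : ℝ) ≤ z → (z : ℝ) ^ 2 ≤ D → D ≤ (z : ℝ) ^ 4 → D ≤ X → ∀ g : ℕ → ℝ,
  DnsG ⌊(X : ℝ) ^ δ⌋₊ z J g → ∃ c : ℕ → ℝ,
    (∀ d, c d ≠ 0 → Squarefree d ∧ (∀ p ∈ d.primeFactors, p ≤ z) ∧
      (d : ℝ) ≤ D * (X : ℝ) ^ ε ∧ (smp ⌊(X : ℝ) ^ δ⌋₊ d : ℝ) ≤ (X : ℝ) ^ ε) ∧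
    (∀ d, |c d| ≤ 3) ∧
    (VV g z * (A0 * (Real.log (Real.log D / Real.log z - 1) * Real.log z / Real.log D) - ε) ≤
      ∑ d ∈ Icc 1 (X ^ 2), c d * ∏ p ∈ d.primeFactors, g p) ∧
    ∀ S : Finset ℕ, S ⊆ pr z → ∑ T ∈ S.powerset, c (∏ l ∈ T, l) ≤
      (if S = ∅ then (1 : ℝ) else 0)

def St_LR : Prop := ∃ A0 : ℝ, 0 < A0 ∧ St_LRU A0 ∧ St_LRL A0

/-- evaluation of the sieve sum; `p = 1` or a prime `p > z` -/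
def St_GenZ : Prop := ∀ (η : ℝ → ℝ) (N m n w z F G p : ℕ) (c : ℕ → ℝ),
  (p = 1 ∨ (p.Prime ∧ z < p)) → w ≤ z →
  (∀ d, c d ≠ 0 → Squarefree d ∧ (∀ l ∈ d.primeFactors, l ≤ z) ∧ d ≤ F ∧ smp w d ≤ G) →
  (∀ d, |c d| ≤ 3) →
  |∑ q ∈ (range (N + 1)).filter (fun q => p ∣ q), tl η N m n q *
      ∑ T ∈ ((pr z).filter (fun l => q % l ∈ OmZ w m l)).powerset, c (∏ l ∈ T, l) -
    psi0 (etaR η) (m * N) / p * ∑ d ∈ Icc 1 F, c d * ∏ l ∈ d.primeFactors, gZ w m l| ≤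
    3 * ∑ g ∈ (Icc 1 G).filter Squarefree,
      ∑ a ∈ (range g).filter (fun a => ∀ l ∈ g.primeFactors, a % l ∈ OmT w l),
        ∑ d ∈ (ZD (m * g) w F).filter (fun d => ∀ l ∈ d.primeFactors, l ≤ z),
          EZ η N m n g a (p * d)

/-! ### The sums with `x` prime -/

def St_ZSA (A0 : ℝ) : Prop := ∀ η : ℝ → ℝ, IsWt η → ∀ ε : ℝ, 0 < ε → ∃ ρ : ℝ, 0 < ρ ∧
  ∀ κ : ℝ, 0 < κ → ∃ δ₁ : ℝ, 0 < δ₁ ∧ ∀ δ : ℝ, 0 < δ → δ ≤ δ₁ → ∀ᶠ n : ℕ in atTop,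
  ∀ m N : ℕ, Tile N m n → (n : ℝ) ^ κ ≤ m → (m : ℝ) ≤ (n : ℝ) ^ (1 / 3 + ρ) →
  (A0 * (Real.log 3 / 4) - ε) * UZ η δ N m ≤ SSZ η (wN δ N) (zN N) N m n

def St_ZSP (A0 : ℝ) : Prop := ∀ η : ℝ → ℝ, IsWt η → ∀ ε : ℝ, 0 < ε → ∃ ρ : ℝ, 0 < ρ ∧
  ∀ κ : ℝ, 0 < κ → ∃ δ₁ : ℝ, 0 < δ₁ ∧ ∀ δ : ℝ, 0 < δ → δ ≤ δ₁ → ∀ᶠ n : ℕ in atTop,
  ∀ m N : ℕ, Tile N m n → (n : ℝ) ^ κ ≤ m → (m : ℝ) ≤ (n : ℝ) ^ (1 / 3 + ρ) →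
  ∑ p ∈ (pr (yN N)).filter (fun p => zN N < p ∧ ¬ p ∣ m), SSZp η (wN δ N) (zN N) p N m n ≤
    (A0 * (Real.log 6 / 4) + ε) * UZ η δ N m

/-! ### The switched sum -/

/-- one modulus `h`, `e = (h, m)` -/
def St_RedB : Prop := ∀ η : ℝ → ℝ, IsWt η → ∃ C : ℝ, 0 < C ∧ ∀ N m n z y g c h e h' : ℕ,
  16 ≤ N → Tile N m n → 1 ≤ h → Squarefree h → e = Nat.gcd h m → h' = h / e →
  |RB η N z y m n g c h - (m : ℝ) / h * BAP η N z y g c| ≤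
    ∑ q ∈ (range (N + 1)).filter (fun q => ¬ q.Coprime h'), bt z y q * η ((q : ℝ) / N) *
      ((m : ℝ) / h + (((range m).filter (fun r => h ∣ n - m * q - r)).card : ℝ)) +
    C * 2 ^ h.primeFactors.card * N / (h'.totient : ℝ) +
    1 / (h'.totient : ℝ) * ∑ k ∈ h'.divisors.erase 1, ∑ χ ∈ prim k,
      ‖JE n m e (h' / k) χ‖ * ‖QB η N z y g c (h' / k) χ‖

/-- products `p₁ p₂ p₃` and the multiples of `h` in their tiles -/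
def St_LevB : Prop := ∀ η : ℝ → ℝ, IsWt η → ∀ θ κ : ℝ, 0 < θ → θ < 1 / 2 → 0 < κ →
  ∃ c₁ : ℝ, 0 < c₁ ∧ ∀ᶠ n : ℕ in atTop, ∀ m N z y g c : ℕ, Tile N m n → (n : ℝ) ^ κ ≤ m →
  (n : ℝ) ^ κ ≤ N → Par N z y → 1 ≤ g → c < g →
  ∑ h ∈ (Icc 1 ⌊(n : ℝ) ^ θ⌋₊).filter Squarefree,
    |RB η N z y m n g c h - (m : ℝ) / h * BAP η N z y g c| ≤ (n : ℝ) ^ (1 - 4 * c₁)

/-- evaluation of the sieve sum for the pairs `(q, x)` -/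
def St_GenB : Prop := ∀ η : ℝ → ℝ, IsWt η → ∀ (N m n w z y y' F G : ℕ) (c : ℕ → ℝ),
  w ≤ z → w ≤ y' →
  (∀ d, c d ≠ 0 → Squarefree d ∧ (∀ l ∈ d.primeFactors, l ≤ y') ∧ d ≤ F ∧ smp w d ≤ G) →
  (∀ d, |c d| ≤ 3) →
  |∑ q ∈ range (N + 1), bt z y q * η ((q : ℝ) / N) * ∑ r ∈ range m,
      ∑ T ∈ ((pr y').filter (fun l => (l ≤ w ∧ (q ^ 2) % l = 2 % l) ∨
        l ∣ n - m * q - r)).powerset, c (∏ l ∈ T, l) -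
    m * B0 η N z y * ∑ d ∈ Icc 1 F, c d * ∏ l ∈ d.primeFactors, gT w l| ≤
    3 * ∑ g ∈ (Icc 1 G).filter Squarefree,
      ∑ a ∈ (range g).filter (fun a => a.Coprime g ∧ (a ^ 2) % g = 2 % g),
        ((∑ h ∈ (Icc 1 F).filter Squarefree,
            |RB η N z y m n g a h - (m : ℝ) / h * BAP η N z y g a|) +
          m * (1 + Real.log F) * |BAP η N z y g a - B0 η N z y / (g.totient : ℝ)|)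

def St_ZSB (A0 : ℝ) : Prop := ∀ η : ℝ → ℝ, IsWt η → ∀ ε κ : ℝ, 0 < ε → 0 < κ →
  ∃ δ₁ : ℝ, 0 < δ₁ ∧ ∀ δ : ℝ, 0 < δ → δ ≤ δ₁ → ∀ᶠ n : ℕ in atTop,
  ∀ m N : ℕ, Tile N m n → (n : ℝ) ^ κ ≤ m → (m : ℝ) ≤ (n : ℝ) ^ (2 / 5 : ℝ) →
  SBZ η (wN δ N) (zN N) (yN N) (y3 n) N m n ≤
    (A0 * (cB / 4) + ε) * UT η δ N m (zN N) / Real.log n

/-- Mertens with a variable end point -/
def St_VRn : Prop := ∀ (δ ε : ℝ), 0 < δ → δ < 1 / 8 → 0 < ε → ∀ᶠ N : ℕ in atTop,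
  ∀ n : ℕ, N ≤ n → n ≤ N ^ 2 → ∀ g : ℕ → ℝ, DnsG ⌊(N : ℝ) ^ δ⌋₊ (y3 n) 0 g →
  VV g (y3 n) ≤ (3 / 8 * (Real.log N / Real.log n) + ε) * VV g (zN N)

/-- conclusion -/
def St_ZFin : Prop := ∃ ρ : ℝ, 0 < ρ ∧ ∀ κ : ℝ, 0 < κ → ∃ R : ℕ, ∀ᶠ n : ℕ in atTop, ∀ m N : ℕ,
  Tile N m n → (n : ℝ) ^ κ ≤ m → (m : ℝ) ≤ (n : ℝ) ^ (1 / 3 + ρ) →
  ∃ p : ℕ, p.Prime ∧ p < n ∧ 2 ≤ (n - p) / m ∧ Nat.IsAtMostAlmostPrime 2 ((n - p) / m) ∧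
    Nat.IsAtMostAlmostPrime R (((n - p) / m) ^ 2 - 2)

end Pool.Agent.CV
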