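import Mathlib
import Pool.Agent.CV.Stmts

set_option autoImplicit false

/-!
# CV: elementary lemmas on the sums `Fam`
-/

namespace Pool.Agent.CV

open Finset Filter Pool.Agent.MT Pool.Agent.CH Pool.Agent.CU

variable {K M : ℕ}

/-- the index set of `Fam` -/
noncomputable def FI (K M : ℕ) :
    Finset ((k : ℕ) × (DirichletCharacter ℂ k × DirichletCharacter ℂ M)) :=
  ((Ioc K (2 * K)).filter (fun k => k.Coprime M)).sigma (fun k => prim k ×ˢ Finset.univ)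

theorem fam_eq (f : (k : ℕ) → DirichletCharacter ℂ k → DirichletCharacter ℂ M → ℝ) :
    Fam K M f = ∑ i ∈ FI K M, f i.1 i.2.1 i.2.2 := by
  unfold Fam FI
  rw [Finset.sum_sigma]
  refine Finset.sum_congr rfl fun k _ => ?_
  rw [Finset.sum_product]

theorem fam_mem {i : (k : ℕ) × (DirichletCharacter ℂ k × DirichletCharacter ℂ M)}
    (hi : i ∈ FI K M) : K < i.1 ∧ i.1 ≤ 2 * K ∧ i.1.Coprime M ∧ i.2.1 ∈ prim i.1 := by
  unfold FI at hi
  rw [Finset.mem_sigma] at hi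
  obtain ⟨h1, h2⟩ := hi
  rw [Finset.mem_filter, Finset.mem_Ioc] at h1
  rw [Finset.mem_product] at h2
  exact ⟨h1.1.1, h1.1.2, h1.2, h2.1⟩

theorem fam_nonneg {f : (k : ℕ) → DirichletCharacter ℂ k → DirichletCharacter ℂ M → ℝ}
    (h : ∀ k χ ψ, 0 ≤ f k χ ψ) : 0 ≤ Fam K M f := by
  rw [fam_eq]
  exact Finset.sum_nonneg fun i _ => h _ _ _

theorem fam_mono {f g : (k : ℕ) → DirichletCharacter ℂ k → DirichletCharacter ℂ M → ℝ}
    (h : ∀ k, K < k → k ≤ 2 * K → k.Coprime M → ∀ χ ∈ prim k, ∀ ψ, f k χ ψ ≤ g k χ ψ) :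
    Fam K M f ≤ Fam K M g := by
  rw [fam_eq, fam_eq]
  refine Finset.sum_le_sum fun i hi => ?_
  obtain ⟨h1, h2, h3, h4⟩ := fam_mem hi
  exact h _ h1 h2 h3 _ h4 _

theorem fam_add (f g : (k : ℕ) → DirichletCharacter ℂ k → DirichletCharacter ℂ M → ℝ) :
    Fam K M (fun k χ ψ => f k χ ψ + g k χ ψ) = Fam K M f + Fam K M g := by
  rw [fam_eq, fam_eq, fam_eq, ← Finset.sum_add_distrib]

theorem fam_mul_left (c : ℝ)
    (f : (k : ℕ) → DirichletCharacter ℂ k → DirichletCharacter ℂ M → ℝ) :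
    Fam K M (fun k χ ψ => c * f k χ ψ) = c * Fam K M f := by
  rw [fam_eq, fam_eq, ← Finset.mul_sum]

theorem fam_sum {ι : Type*} (s : Finset ι)
    (f : ι → (k : ℕ) → DirichletCharacter ℂ k → DirichletCharacter ℂ M → ℝ) :
    Fam K M (fun k χ ψ => ∑ i ∈ s, f i k χ ψ) = ∑ i ∈ s, Fam K M (f i) := by
  rw [fam_eq, Finset.sum_comm]
  refine Finset.sum_congr rfl fun i _ => ?_
  rw [fam_eq]

/-- Cauchy-Schwarz -/
theorem fam_cs (f g : (k : ℕ) → DirichletCharacter ℂ k → DirichletCharacter ℂ M → ℝ) :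
    Fam K M (fun k χ ψ => f k χ ψ * g k χ ψ) ≤
      Real.sqrt (Fam K M (fun k χ ψ => f k χ ψ ^ 2)) *
        Real.sqrt (Fam K M (fun k χ ψ => g k χ ψ ^ 2)) := by
  rw [fam_eq, fam_eq, fam_eq]
  exact Real.sum_mul_le_sqrt_mul_sqrt _ _ _

/-- Hölder with the exponents `4, 4, 2` -/
theorem fam_holder {A B J : (k : ℕ) → DirichletCharacter ℂ k → DirichletCharacter ℂ M → ℝ}
    (hA : ∀ k χ ψ, 0 ≤ A k χ ψ) (hJ : ∀ k χ ψ, 0 ≤ J k χ ψ) :
    Fam K M (fun k χ ψ => A k χ ψ * B k χ ψ * J k χ ψ) ≤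
      (Fam K M (fun k χ ψ => A k χ ψ ^ 4)) ^ (1 / 4 : ℝ) *
        Real.sqrt (Fam K M (fun k χ ψ => B k χ ψ ^ 2)) *
        (Fam K M (fun k χ ψ => J k χ ψ ^ 4)) ^ (1 / 4 : ℝ) := by
  have h1 := fam_cs (K := K) (M := M) (fun k χ ψ => A k χ ψ * J k χ ψ) B
  have h2 := fam_cs (K := K) (M := M) (fun k χ ψ => A k χ ψ ^ 2) (fun k χ ψ => J k χ ψ ^ 2)
  have e1 : (fun k χ ψ => (A k χ ψ * J k χ ψ) * B k χ ψ) =
      (fun (k : ℕ) (χ : DirichletCharacter ℂ k) (ψ : DirichletCharacter ℂ M) =>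
        A k χ ψ * B k χ ψ * J k χ ψ) := by
    funext k χ ψ
    ring
  have e2 : (fun k χ ψ => (A k χ ψ * J k χ ψ) ^ 2) =
      (fun (k : ℕ) (χ : DirichletCharacter ℂ k) (ψ : DirichletCharacter ℂ M) =>
        A k χ ψ ^ 2 * J k χ ψ ^ 2) := by
    funext k χ ψ
    ring
  have e3 : (fun k χ ψ => (A k χ ψ ^ 2) ^ 2) =
      (fun (k : ℕ) (χ : DirichletCharacter ℂ k) (ψ : DirichletCharacter ℂ M) =>
        A k χ ψ ^ 4) := by
    funext k χ ψ
    ring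
  have e4 : (fun k χ ψ => (J k χ ψ ^ 2) ^ 2) =
      (fun (k : ℕ) (χ : DirichletCharacter ℂ k) (ψ : DirichletCharacter ℂ M) =>
        J k χ ψ ^ 4) := by
    funext k χ ψ
    ring
  rw [e1, e2] at h1
  rw [e3, e4] at h2
  have nA : 0 ≤ Fam K M (fun k χ ψ => A k χ ψ ^ 4) := fam_nonneg fun k χ ψ => by positivity
  have nJ : 0 ≤ Fam K M (fun k χ ψ => J k χ ψ ^ 4) := fam_nonneg fun k χ ψ => by positivity
  have hq : ∀ x : ℝ, 0 ≤ x → Real.sqrt (Real.sqrt x) = x ^ (1 / 4 : ℝ) := by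
    intro x hx
    rw [Real.sqrt_eq_rpow, Real.sqrt_eq_rpow, ← Real.rpow_mul hx]
    norm_num
  have h3 : Real.sqrt (Fam K M (fun k χ ψ => A k χ ψ ^ 2 * J k χ ψ ^ 2)) ≤
      (Fam K M (fun k χ ψ => A k χ ψ ^ 4)) ^ (1 / 4 : ℝ) *
        (Fam K M (fun k χ ψ => J k χ ψ ^ 4)) ^ (1 / 4 : ℝ) := by
    refine (Real.sqrt_le_sqrt h2).trans_eq ?_
    rw [Real.sqrt_mul (Real.sqrt_nonneg _), hq _ nA, hq _ nJ]
  have _ := hA
  have _ := hJ
  refine h1.trans ?_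
  calc _ ≤ ((Fam K M (fun k χ ψ => A k χ ψ ^ 4)) ^ (1 / 4 : ℝ) *
        (Fam K M (fun k χ ψ => J k χ ψ ^ 4)) ^ (1 / 4 : ℝ)) *
        Real.sqrt (Fam K M (fun k χ ψ => B k χ ψ ^ 2)) :=
        mul_le_mul_of_nonneg_right h3 (Real.sqrt_nonneg _)
    _ = _ := by ring

/-- number of characters modulo `k` -/
theorem fam_card_char (k : ℕ) [NeZero k] :
    Fintype.card (DirichletCharacter ℂ k) = k.totient := by
  rw [← Nat.card_eq_fintype_card]
  exact DirichletCharacter.card_eq_totient_of_hasEnoughRootsOfUnity ℂ k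

theorem fam_card (hM : 1 ≤ M) : Fam K M (fun _ _ _ => (1 : ℝ)) ≤ 2 * ((K : ℝ) ^ 2 * M) := by
  unfold Fam
  have : NeZero M := ⟨by omega⟩
  have h1 : ∀ k ∈ (Ioc K (2 * K)).filter (fun k => k.Coprime M),
      ∑ χ ∈ prim k, ∑ _ψ : DirichletCharacter ℂ M, (1 : ℝ) ≤ 2 * K * M := by
    intro k hk
    rw [Finset.mem_filter, Finset.mem_Ioc] at hk
    have : NeZero k := ⟨by omega⟩
    rw [Finset.sum_const, Finset.sum_const, nsmul_eq_mul, nsmul_eq_mul, mul_one,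
      Finset.card_univ, fam_card_char M]
    have h2 : (prim k).card ≤ k.totient := by
      rw [← fam_card_char k, ← Finset.card_univ]
      exact Finset.card_le_card (Finset.subset_univ _)
    have h3 : k.totient ≤ 2 * K := (Nat.totient_le k).trans hk.1.2
    have h4 : M.totient ≤ M := Nat.totient_le M
    have h5 : ((prim k).card : ℝ) ≤ 2 * K := by exact_mod_cast h2.trans h3
    have h6 : (M.totient : ℝ) ≤ M := by exact_mod_cast h4
    exact mul_le_mul h5 h6 (Nat.cast_nonneg _) (by positivity)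
  refine (Finset.sum_le_sum h1).trans ?_
  rw [Finset.sum_const, nsmul_eq_mul]
  have h7 : (((Ioc K (2 * K)).filter (fun k => k.Coprime M)).card : ℝ) ≤ K := by
    have : ((Ioc K (2 * K)).filter (fun k => k.Coprime M)).card ≤ K := by
      refine (Finset.card_filter_le _ _).trans ?_
      rw [Nat.card_Ioc]
      omega
    exact_mod_cast this
  calc _ ≤ (K : ℝ) * (2 * K * M) := mul_le_mul_of_nonneg_right h7 (by positivity)
    _ = _ := by ring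

/-- `∑ J ≤ (2 K² M)^{3/4} (∑ J⁴)^{1/4}` -/
theorem fam_one_holder {J : (k : ℕ) → DirichletCharacter ℂ k → DirichletCharacter ℂ M → ℝ}
    (hM : 1 ≤ M) (hJ : ∀ k χ ψ, 0 ≤ J k χ ψ) :
    Fam K M J ≤ (2 * ((K : ℝ) ^ 2 * M)) ^ (3 / 4 : ℝ) *
      (Fam K M (fun k χ ψ => J k χ ψ ^ 4)) ^ (1 / 4 : ℝ) := by
  have h1 := fam_holder (K := K) (M := M) (A := fun _ _ _ => 1) (B := fun _ _ _ => 1) (J := J)
    (fun _ _ _ => zero_le_one) hJ
  simp only [one_mul, one_pow] at h1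
  have h2 := fam_card (K := K) (M := M) hM
  have n1 : 0 ≤ Fam K M (fun _ _ _ => (1 : ℝ)) := fam_nonneg fun _ _ _ => zero_le_one
  have n2 : 0 ≤ (Fam K M (fun k χ ψ => J k χ ψ ^ 4)) ^ (1 / 4 : ℝ) :=
    Real.rpow_nonneg (fam_nonneg fun k χ ψ => by positivity) _
  refine h1.trans (mul_le_mul_of_nonneg_right ?_ n2)
  rw [Real.sqrt_eq_rpow, ← Real.rpow_add' n1 (by norm_num)]
  norm_num
  exact Real.rpow_le_rpow n1 h2 (by norm_num)

end Pool.Agent.CV
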