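import Mathlib
import Pool.Agent.CV.FamL
import Pool.Agent.CH.ABV

set_option autoImplicit false

/-!
# CV / FamB

One dyadic block of conductors: fourth moment of the sums over the interval and the bilinear
estimates.
-/

namespace Pool.Agent.CV

open Finset Filter Pool.Agent.MT Pool.Agent.CH Pool.Agent.CU

/-- sizes -/
theorem famB_size {P m N K s ρ : ℝ} (hP : 2 ≤ P ^ (1 / 10 : ℝ)) (hP1 : 1 ≤ P) (hm1 : 1 ≤ m)
    (hK1 : 1 ≤ K) (hmN : m * N ≤ P) (hmN2 : P ≤ 2 * (m * N)) (hm : m ≤ P ^ (1 / 3 + ρ))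
    (hρ : 0 < ρ) (hρ1 : ρ ≤ 1 / 200) (hρ2 : ρ ≤ s / 8) (hs : 0 < s) (hs2 : s < 1 / 2)
    (hK : N ^ (1 / 3 - 1 / 200 : ℝ) ≤ 2 * K) (hK2 : K ≤ N ^ (1 / 2 - s)) :
    P ^ (1 / 2 : ℝ) ≤ N ∧ m * K ^ 2 ≤ P ^ (1 - s) ∧ m ^ 2 * K ≤ P ^ (1 - 5 / 12 * s) ∧
      m ≤ K * (4 * P ^ (19 / 150 : ℝ)) ∧ P ^ (1 / 7 : ℝ) ≤ 2 * K := by
  have hP0 : 0 < P := by linarith
  have hm0 : 0 < m := by linarith
  have mono : ∀ a b : ℝ, a ≤ b → P ^ a ≤ P ^ b := fun a b h =>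
    Real.rpow_le_rpow_of_exponent_le hP1 h
  have add : ∀ a b : ℝ, P ^ a * P ^ b = P ^ (a + b) := fun a b => (Real.rpow_add hP0 a b).symm
  have hNP : P ^ (1 / 2 : ℝ) ≤ N := by
    have h1 : P ^ (1 / 3 + ρ) * P ^ (1 / 2 : ℝ) * 2 ≤ P := by
      have h2 : P ^ (1 / 3 + ρ) * P ^ (1 / 2 : ℝ) * P ^ (1 / 10 : ℝ) ≤ P ^ (1 : ℝ) := by
        rw [add, add]
        exact mono _ _ (by linarith)
      rw [Real.rpow_one] at h2
      refine le_trans (mul_le_mul_of_nonneg_left hP (by positivity)) h2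
    have h3 : m * P ^ (1 / 2 : ℝ) * 2 ≤ P := by
      refine le_trans ?_ h1
      exact mul_le_mul_of_nonneg_right (mul_le_mul_of_nonneg_right hm (by positivity))
        (by norm_num)
    have h4 : m * P ^ (1 / 2 : ℝ) ≤ m * N := by linarith
    exact le_of_mul_le_mul_left h4 hm0
  have hN0 : 0 < N := lt_of_lt_of_le (by positivity) hNP
  have hN1 : 1 ≤ N := (Real.one_le_rpow hP1 (by norm_num)).trans hNP
  -- `m K² ≤ P^{1-s}`
  have h1 : m * K ^ 2 ≤ P ^ (1 - s) := by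
    have h2 : K ^ 2 ≤ N * N ^ (-2 * s) := by
      have h3 : K ^ 2 ≤ (N ^ (1 / 2 - s)) ^ 2 := pow_le_pow_left₀ (by linarith) hK2 2
      refine h3.trans_eq ?_
      rw [← Real.rpow_natCast, ← Real.rpow_mul hN0.le]
      have : N * N ^ (-2 * s) = N ^ (1 : ℝ) * N ^ (-2 * s) := by rw [Real.rpow_one]
      rw [this, ← Real.rpow_add hN0]
      congr 1
      push_cast
      ring
    have h4 : N ^ (-2 * s) ≤ P ^ (-s) := by
      have h5 : N ^ (-2 * s) ≤ (P ^ (1 / 2 : ℝ)) ^ (-2 * s) :=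
        Real.rpow_le_rpow_of_nonpos (by positivity) hNP (by linarith)
      refine h5.trans_eq ?_
      rw [← Real.rpow_mul hP0.le]
      congr 1
      ring
    calc m * K ^ 2 ≤ m * (N * N ^ (-2 * s)) := mul_le_mul_of_nonneg_left h2 hm0.le
      _ = m * N * N ^ (-2 * s) := by ring
      _ ≤ P * P ^ (-s) := mul_le_mul hmN h4 (by positivity) hP0.le
      _ = P ^ (1 - s) := by
          have : P * P ^ (-s) = P ^ (1 : ℝ) * P ^ (-s) := by rw [Real.rpow_one]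
          rw [this, add]
          congr 1
  -- `m² K ≤ P^{1 - 5 s/12}`
  have h2 : m ^ 2 * K ≤ P ^ (1 - 5 / 12 * s) := by
    have h3 : N ≤ P / m := by
      rw [le_div_iff₀ hm0]
      linarith
    have h4 : K ≤ P ^ (1 / 2 - s) * m ^ (-(1 / 2 - s)) := by
      refine hK2.trans ?_
      have h5 : N ^ (1 / 2 - s) ≤ (P / m) ^ (1 / 2 - s) :=
        Real.rpow_le_rpow hN0.le h3 (by linarith)
      refine h5.trans_eq ?_
      rw [Real.div_rpow hP0.le hm0.le, Real.rpow_neg hm0.le, div_eq_mul_inv]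
    have h6 : m ^ 2 * m ^ (-(1 / 2 - s)) ≤ P ^ ((1 / 3 + ρ) * (3 / 2 + s)) := by
      have h7 : m ^ 2 * m ^ (-(1 / 2 - s)) = m ^ (3 / 2 + s) := by
        rw [← Real.rpow_natCast m 2, ← Real.rpow_add hm0]
        congr 1
        push_cast
        ring
      rw [h7, Real.rpow_mul hP0.le]
      exact Real.rpow_le_rpow hm0.le hm (by linarith)
    calc m ^ 2 * K ≤ m ^ 2 * (P ^ (1 / 2 - s) * m ^ (-(1 / 2 - s))) :=
          mul_le_mul_of_nonneg_left h4 (by positivity)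
      _ = P ^ (1 / 2 - s) * (m ^ 2 * m ^ (-(1 / 2 - s))) := by ring
      _ ≤ P ^ (1 / 2 - s) * P ^ ((1 / 3 + ρ) * (3 / 2 + s)) :=
          mul_le_mul_of_nonneg_left h6 (by positivity)
      _ = P ^ (1 / 2 - s + (1 / 3 + ρ) * (3 / 2 + s)) := add _ _
      _ ≤ P ^ (1 - 5 / 12 * s) := by
          apply mono
          nlinarith
  -- `m ≤ 4 K P^{19/150}`
  have h3 : m ≤ K * (4 * P ^ (19 / 150 : ℝ)) := by
    have e1 : P / (2 * m) ≤ N := by
      rw [div_le_iff₀ (by positivity)]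
      linarith
    have e2 : (P / (2 * m)) ^ (1 / 3 - 1 / 200 : ℝ) ≤ 2 * K :=
      (Real.rpow_le_rpow (by positivity) e1 (by norm_num)).trans hK
    have e3 : P ^ (1 / 3 - 1 / 200 : ℝ) ≤ 2 * K * (2 * m ^ (1 / 3 : ℝ)) := by
      rw [Real.div_rpow hP0.le (by positivity), div_le_iff₀ (by positivity)] at e2
      refine e2.trans (mul_le_mul_of_nonneg_left ?_ (by positivity))
      rw [Real.mul_rpow (by norm_num) hm0.le]
      have e4 : (2 : ℝ) ^ (1 / 3 - 1 / 200 : ℝ) ≤ 2 := by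
        have := Real.rpow_le_rpow_of_exponent_le (show (1 : ℝ) ≤ 2 by norm_num)
          (show (1 / 3 - 1 / 200 : ℝ) ≤ 1 by norm_num)
        rwa [Real.rpow_one] at this
      exact mul_le_mul e4 (Real.rpow_le_rpow_of_exponent_le hm1 (by norm_num)) (by positivity)
        (by norm_num)
    have e5 : m * m ^ (1 / 3 : ℝ) ≤ P ^ ((1 / 3 + ρ) * (4 / 3)) := by
      have e6 : m * m ^ (1 / 3 : ℝ) = m ^ (4 / 3 : ℝ) := by
        have : m * m ^ (1 / 3 : ℝ) = m ^ (1 : ℝ) * m ^ (1 / 3 : ℝ) := by rw [Real.rpow_one]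
        rw [this, ← Real.rpow_add hm0]
        congr 1
        norm_num
      rw [e6, Real.rpow_mul hP0.le]
      exact Real.rpow_le_rpow hm0.le hm (by norm_num)
    have e7 : P ^ ((1 / 3 + ρ) * (4 / 3)) ≤ P ^ (19 / 150 : ℝ) * P ^ (1 / 3 - 1 / 200 : ℝ) := by
      rw [add]
      apply mono
      linarith
    have e8 : m * P ^ (1 / 3 - 1 / 200 : ℝ) ≤
        K * (4 * P ^ (19 / 150 : ℝ)) * P ^ (1 / 3 - 1 / 200 : ℝ) := by
      calc m * P ^ (1 / 3 - 1 / 200 : ℝ) ≤ m * (2 * K * (2 * m ^ (1 / 3 : ℝ))) :=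
            mul_le_mul_of_nonneg_left e3 hm0.le
        _ = 4 * K * (m * m ^ (1 / 3 : ℝ)) := by ring
        _ ≤ 4 * K * (P ^ (19 / 150 : ℝ) * P ^ (1 / 3 - 1 / 200 : ℝ)) :=
            mul_le_mul_of_nonneg_left (e5.trans e7) (by positivity)
        _ = _ := by ring
    exact le_of_mul_le_mul_right e8 (by positivity)
  refine ⟨hNP, h1, h2, h3, ?_⟩
  refine le_trans ?_ hK
  have h4 : (P ^ (1 / 2 : ℝ)) ^ (1 / 3 - 1 / 200 : ℝ) ≤ N ^ (1 / 3 - 1 / 200 : ℝ) :=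
    Real.rpow_le_rpow (by positivity) hNP (by norm_num)
  refine le_trans ?_ h4
  rw [← Real.rpow_mul hP0.le]
  apply mono
  norm_num

/-- the five terms -/
theorem famB_num {P m N K g U s ρ c c₂ : ℝ} (hP : 2 ≤ P ^ (1 / 10 : ℝ)) (hP1 : 1 ≤ P)
    (hm1 : 1 ≤ m) (hK1 : 1 ≤ K) (hg1 : 1 ≤ g) (hU1 : 1 ≤ U) (hmN : m * N ≤ P)
    (hmN2 : P ≤ 2 * (m * N)) (hm : m ≤ P ^ (1 / 3 + ρ)) (hρ : 0 < ρ) (hρ1 : ρ ≤ 1 / 200)
    (hρ2 : ρ ≤ s / 8) (hs : 0 < s) (hs2 : s < 1 / 2)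
    (hK : N ^ (1 / 3 - 1 / 200 : ℝ) ≤ 2 * K) (hK2 : K ≤ N ^ (1 / 2 - s)) (hg : g ≤ P ^ c₂)
    (hU : U ≤ P ^ (1 / 15 : ℝ)) (hU2 : P ^ (1 / 15 : ℝ) ≤ 2 * U) (hc : 0 < c) (hc1 : c ≤ 1 / 1000)
    (hc2 : c ≤ s / 10) (hc3 : c₂ ≤ c) :
    P ^ 4 * (2 * m) ≤ m * K ^ 2 * (8 * P ^ (4 - 4 * c)) ∧
    m ^ 4 * g ^ 2 * K ^ 5 * (K + m) * U ^ 8 ≤ 2 * P ^ (4 - 4 * c) ∧
    P ^ 4 * (K + m) ≤ K * U ^ 2 * (20 * P ^ (4 - 4 * c)) ∧
    P ^ 3 * (m * K ^ 2 + m ^ 2 * K) ≤ 2 * P ^ (4 - 4 * c) ∧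
    P ^ 2 * (m ^ 2 * K ^ 4 + m ^ 3 * K ^ 3) ≤ 2 * P ^ (4 - 4 * c) := by
  obtain ⟨hNP, hmK2, hm2K, hmK, hPK⟩ := famB_size hP hP1 hm1 hK1 hmN hmN2 hm hρ hρ1 hρ2 hs hs2
    hK hK2
  have hP0 : 0 < P := by linarith
  have hm0 : 0 < m := by linarith
  have hK0 : 0 < K := by linarith
  have hg0 : 0 < g := by linarith
  have hU0 : 0 < U := by linarith
  have mono : ∀ a b : ℝ, a ≤ b → P ^ a ≤ P ^ b := fun a b h =>
    Real.rpow_le_rpow_of_exponent_le hP1 h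
  have add : ∀ a b : ℝ, P ^ a * P ^ b = P ^ (a + b) := fun a b => (Real.rpow_add hP0 a b).symm
  have nat : ∀ k : ℕ, P ^ k = P ^ (k : ℝ) := fun k => (Real.rpow_natCast P k).symm
  have powr : ∀ (a : ℝ) (k : ℕ), (P ^ a) ^ k = P ^ (a * k) := fun a k => by
    rw [← Real.rpow_natCast, ← Real.rpow_mul hP0.le]
  have hmK1 : m * K ^ 2 ≤ P ^ (1 : ℝ) := hmK2.trans (mono _ _ (by linarith))
  refine ⟨?_, ?_, ?_, ?_, ?_⟩
  · -- t0
    have h1 : P ^ (2 / 7 : ℝ) ≤ 4 * K ^ 2 := by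
      have h2 : (P ^ (1 / 7 : ℝ)) ^ 2 ≤ (2 * K) ^ 2 := pow_le_pow_left₀ (by positivity) hPK 2
      rw [powr] at h2
      have h3 : (1 / 7 : ℝ) * ((2 : ℕ) : ℝ) = 2 / 7 := by norm_num
      rw [h3] at h2
      linarith [h2]
    have h4 : P ^ 4 ≤ P ^ (2 / 7 : ℝ) * P ^ (4 - 4 * c) := by
      rw [nat, add]
      apply mono
      push_cast
      linarith
    have h5 : P ^ 4 ≤ 4 * K ^ 2 * P ^ (4 - 4 * c) :=
      h4.trans (mul_le_mul_of_nonneg_right h1 (by positivity))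
    calc P ^ 4 * (2 * m) ≤ (4 * K ^ 2 * P ^ (4 - 4 * c)) * (2 * m) :=
          mul_le_mul_of_nonneg_right h5 (by positivity)
      _ = _ := by ring
  · -- t1
    have hU8 : U ^ 8 ≤ P ^ (8 / 15 : ℝ) := by
      have := pow_le_pow_left₀ hU0.le hU 8
      rw [powr] at this
      refine this.trans_eq ?_
      congr 1
      norm_num
    have hg2 : g ^ 2 ≤ P ^ (2 * c) := by
      have := pow_le_pow_left₀ hg0.le (hg.trans (mono _ _ hc3)) 2
      rw [powr] at this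
      refine this.trans_eq ?_
      congr 1
      push_cast
      ring
    have hmr : m ≤ P ^ (1 / 3 + 1 / 200 : ℝ) := hm.trans (mono _ _ (by linarith))
    -- `m^4 K^6 ≤ P^{3 + 1/3 + 1/200}`
    have a1 : m ^ 4 * K ^ 6 ≤ P ^ (3 + (1 / 3 + 1 / 200) : ℝ) := by
      have h1 : (m * K ^ 2) ^ 3 ≤ P ^ (3 : ℝ) := by
        have := pow_le_pow_left₀ (by positivity) hmK1 3
        rw [powr] at this
        refine this.trans_eq ?_
        congr 1
        norm_num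
      calc m ^ 4 * K ^ 6 = (m * K ^ 2) ^ 3 * m := by ring
        _ ≤ P ^ (3 : ℝ) * P ^ (1 / 3 + 1 / 200 : ℝ) :=
            mul_le_mul h1 hmr hm0.le (by positivity)
        _ = _ := add _ _
    -- `(m^5 K^5)² ≤ P^{2 (5/2 + 5/2 (1/3 + 1/200))}`
    have a2 : m ^ 5 * K ^ 5 ≤ P ^ (5 / 2 + 5 / 2 * (1 / 3 + 1 / 200) : ℝ) := by
      have h1 : (m ^ 5 * K ^ 5) ^ 2 ≤ (P ^ (5 / 2 + 5 / 2 * (1 / 3 + 1 / 200) : ℝ)) ^ 2 := by
        have h2 : (m * K ^ 2) ^ 5 ≤ P ^ (5 : ℝ) := by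
          have := pow_le_pow_left₀ (by positivity) hmK1 5
          rw [powr] at this
          refine this.trans_eq ?_
          congr 1
          norm_num
        have h3 : m ^ 5 ≤ P ^ (5 * (1 / 3 + 1 / 200) : ℝ) := by
          have := pow_le_pow_left₀ hm0.le hmr 5
          rw [powr] at this
          refine this.trans_eq ?_
          congr 1
          push_cast
          ring
        calc (m ^ 5 * K ^ 5) ^ 2 = (m * K ^ 2) ^ 5 * m ^ 5 := by ring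
          _ ≤ P ^ (5 : ℝ) * P ^ (5 * (1 / 3 + 1 / 200) : ℝ) :=
              mul_le_mul h2 h3 (by positivity) (by positivity)
          _ = P ^ (5 + 5 * (1 / 3 + 1 / 200) : ℝ) := add _ _
          _ = _ := by
              rw [powr]
              congr 1
              push_cast
              ring
      exact (pow_le_pow_iff_left₀ (by positivity) (by positivity) (by norm_num)).1 h1
    have a3 : P ^ (3 + (1 / 3 + 1 / 200) : ℝ) ≤ P ^ (4 - 8 / 15 - 8 * c) := by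
      apply mono
      linarith
    have a4 : P ^ (5 / 2 + 5 / 2 * (1 / 3 + 1 / 200) : ℝ) ≤ P ^ (4 - 8 / 15 - 8 * c) := by
      apply mono
      linarith
    have a5 : m ^ 4 * K ^ 5 * (K + m) ≤ 2 * P ^ (4 - 8 / 15 - 8 * c) := by
      have : m ^ 4 * K ^ 5 * (K + m) = m ^ 4 * K ^ 6 + m ^ 5 * K ^ 5 := by ring
      rw [this]
      linarith
    calc m ^ 4 * g ^ 2 * K ^ 5 * (K + m) * U ^ 8
        = (m ^ 4 * K ^ 5 * (K + m)) * (g ^ 2 * U ^ 8) := by ring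
      _ ≤ (2 * P ^ (4 - 8 / 15 - 8 * c)) * (P ^ (2 * c) * P ^ (8 / 15 : ℝ)) :=
          mul_le_mul a5 (mul_le_mul hg2 hU8 (by positivity) (by positivity)) (by positivity)
            (by positivity)
      _ = 2 * P ^ (4 - 8 / 15 - 8 * c + (2 * c + 8 / 15)) := by
          rw [add, mul_assoc, add]
      _ ≤ 2 * P ^ (4 - 4 * c) := by
          apply mul_le_mul_of_nonneg_left _ (by norm_num)
          apply mono
          linarith
  · -- t2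
    have hU22 : P ^ (2 / 15 : ℝ) ≤ 4 * U ^ 2 := by
      have := pow_le_pow_left₀ (by positivity) hU2 2
      rw [powr] at this
      have h3 : (1 / 15 : ℝ) * ((2 : ℕ) : ℝ) = 2 / 15 := by norm_num
      rw [h3] at this
      linarith
    have h1 : K + m ≤ K * (5 * P ^ (19 / 150 : ℝ)) := by
      have h2 : (1 : ℝ) ≤ P ^ (19 / 150 : ℝ) := Real.one_le_rpow hP1 (by norm_num)
      have h3 : K ≤ K * P ^ (19 / 150 : ℝ) := le_mul_of_one_le_right hK0.le h2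
      linarith
    have h4 : P ^ 4 * P ^ (19 / 150 : ℝ) ≤ P ^ (2 / 15 : ℝ) * P ^ (4 - 4 * c) := by
      rw [nat, add, add]
      apply mono
      push_cast
      linarith
    calc P ^ 4 * (K + m) ≤ P ^ 4 * (K * (5 * P ^ (19 / 150 : ℝ))) :=
          mul_le_mul_of_nonneg_left h1 (by positivity)
      _ = 5 * K * (P ^ 4 * P ^ (19 / 150 : ℝ)) := by ring
      _ ≤ 5 * K * (P ^ (2 / 15 : ℝ) * P ^ (4 - 4 * c)) :=
          mul_le_mul_of_nonneg_left h4 (by positivity)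
      _ ≤ 5 * K * ((4 * U ^ 2) * P ^ (4 - 4 * c)) := by
          apply mul_le_mul_of_nonneg_left _ (by positivity)
          exact mul_le_mul_of_nonneg_right hU22 (by positivity)
      _ = _ := by ring
  · -- t3
    have h1 : m * K ^ 2 + m ^ 2 * K ≤ 2 * P ^ (1 - 5 / 12 * s) := by
      have : P ^ (1 - s) ≤ P ^ (1 - 5 / 12 * s) := mono _ _ (by linarith)
      linarith
    calc P ^ 3 * (m * K ^ 2 + m ^ 2 * K) ≤ P ^ 3 * (2 * P ^ (1 - 5 / 12 * s)) :=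
          mul_le_mul_of_nonneg_left h1 (by positivity)
      _ = 2 * (P ^ 3 * P ^ (1 - 5 / 12 * s)) := by ring
      _ ≤ 2 * P ^ (4 - 4 * c) := by
          apply mul_le_mul_of_nonneg_left _ (by norm_num)
          rw [nat, add]
          apply mono
          push_cast
          linarith
  · -- t4
    have h1 : m ^ 2 * K ^ 4 + m ^ 3 * K ^ 3 ≤ 2 * (P ^ (1 : ℝ) * P ^ (1 - 5 / 12 * s)) := by
      have e1 : m ^ 2 * K ^ 4 + m ^ 3 * K ^ 3 = (m * K ^ 2) * (m * K ^ 2 + m ^ 2 * K) := by ring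
      have e2 : m * K ^ 2 + m ^ 2 * K ≤ 2 * P ^ (1 - 5 / 12 * s) := by
        have : P ^ (1 - s) ≤ P ^ (1 - 5 / 12 * s) := mono _ _ (by linarith)
        linarith
      rw [e1]
      calc (m * K ^ 2) * (m * K ^ 2 + m ^ 2 * K) ≤ P ^ (1 : ℝ) * (2 * P ^ (1 - 5 / 12 * s)) :=
            mul_le_mul hmK1 e2 (by positivity) (by positivity)
        _ = _ := by ring
    calc P ^ 2 * (m ^ 2 * K ^ 4 + m ^ 3 * K ^ 3)
        ≤ P ^ 2 * (2 * (P ^ (1 : ℝ) * P ^ (1 - 5 / 12 * s))) :=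
          mul_le_mul_of_nonneg_left h1 (by positivity)
      _ = 2 * (P ^ 2 * (P ^ (1 : ℝ) * P ^ (1 - 5 / 12 * s))) := by ring
      _ ≤ 2 * P ^ (4 - 4 * c) := by
          apply mul_le_mul_of_nonneg_left _ (by norm_num)
          rw [nat, add, add]
          apply mono
          push_cast
          linarith

/-- one term: fourth powers -/
theorem famB_term {W₀ t Q P c : ℝ} (hP : 0 < P) (hW : 0 ≤ W₀) (ht : 0 ≤ t) (hQ : 0 ≤ Q)
    (h : W₀ * t ^ 4 ≤ Q ^ 4 * (20 * P ^ (4 - 4 * c))) :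
    W₀ ^ (1 / 4 : ℝ) * t ≤ Q * (3 * P ^ (1 - c)) := by
  have e1 : (W₀ ^ (1 / 4 : ℝ) * t) ^ 4 = W₀ * t ^ 4 := by
    rw [mul_pow, ← Real.rpow_natCast (W₀ ^ (1 / 4 : ℝ)) 4, ← Real.rpow_mul hW]
    norm_num
  have e2 : (Q * (3 * P ^ (1 - c))) ^ 4 = Q ^ 4 * (81 * P ^ (4 - 4 * c)) := by
    rw [mul_pow, mul_pow, ← Real.rpow_natCast (P ^ (1 - c)) 4, ← Real.rpow_mul hP.le]
    have : (1 - c) * ((4 : ℕ) : ℝ) = 4 - 4 * c := by
      push_cast
      ring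
    rw [this]
    norm_num
  have hW4 : 0 ≤ W₀ ^ (1 / 4 : ℝ) := Real.rpow_nonneg hW _
  refine (pow_le_pow_iff_left₀ (by positivity) (by positivity) (show (4 : ℕ) ≠ 0 by norm_num)).1 ?_
  rw [e1, e2]
  refine h.trans ?_
  have : 0 < P ^ (4 - 4 * c) := by positivity
  exact mul_le_mul_of_nonneg_left (by linarith) (by positivity)

theorem famB_q (x a : ℝ) (k : ℕ) (hx : 0 ≤ x) (ha : a * 4 = k) : (x ^ a) ^ 4 = x ^ k := by
  rw [← Real.rpow_natCast (x ^ a) 4, ← Real.rpow_mul hx, ← Real.rpow_natCast x k, ← ha]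
  norm_num

theorem famB_sqrt (x : ℝ) (hx : 0 ≤ x) : (Real.sqrt x) ^ 4 = x ^ 2 := by
  have : (Real.sqrt x) ^ 4 = ((Real.sqrt x) ^ 2) ^ 2 := by ring
  rw [this, Real.sq_sqrt hx]

/-- the sum of the five terms -/
theorem famB_sum {P m N K g U s ρ c c₂ : ℝ} (hP : 2 ≤ P ^ (1 / 10 : ℝ)) (hP1 : 1 ≤ P)
    (hm1 : 1 ≤ m) (hN0 : 0 ≤ N) (hK1 : 1 ≤ K) (hg1 : 1 ≤ g) (hU1 : 1 ≤ U) (hmN : m * N ≤ P)
    (hmN2 : P ≤ 2 * (m * N)) (hm : m ≤ P ^ (1 / 3 + ρ)) (hρ : 0 < ρ) (hρ1 : ρ ≤ 1 / 200)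
    (hρ2 : ρ ≤ s / 8) (hs : 0 < s) (hs2 : s < 1 / 2)
    (hK : N ^ (1 / 3 - 1 / 200 : ℝ) ≤ 2 * K) (hK2 : K ≤ N ^ (1 / 2 - s)) (hg : g ≤ P ^ c₂)
    (hU : U ≤ P ^ (1 / 15 : ℝ)) (hU2 : P ^ (1 / 15 : ℝ) ≤ 2 * U) (hc : 0 < c) (hc1 : c ≤ 1 / 1000)
    (hc2 : c ≤ s / 10) (hc3 : c₂ ≤ c) :
    (m * g * K * m ^ 2 * (K + m)) ^ (1 / 4 : ℝ) *
      ((m * g * K ^ 2) ^ (3 / 4 : ℝ) * U ^ 2 * Real.sqrt (K * (m * g)) + m * N +
        m * N * (m * g * K ^ 2) ^ (1 / 4 : ℝ) / Real.sqrt U +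
        (m * N) ^ (3 / 4 : ℝ) * (m * g * K ^ 2) ^ (1 / 2 : ℝ) +
        (m * N) ^ (1 / 2 : ℝ) * (m * g * K ^ 2) ^ (3 / 4 : ℝ)) ≤
      K * (m * g) * (15 * P ^ (1 - c)) := by
  obtain ⟨b0, b1, b2, b3, b4⟩ := famB_num hP hP1 hm1 hK1 hg1 hU1 hmN hmN2 hm hρ hρ1 hρ2 hs hs2
    hK hK2 hg hU hU2 hc hc1 hc2 hc3
  have hP0 : 0 < P := by linarith
  have hm0 : 0 < m := by linarith
  have hK0 : 0 < K := by linarith
  have hg0 : 0 < g := by linarith
  have hU0 : 0 < U := by linarith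
  have hX0 : 0 ≤ m * N := mul_nonneg hm0.le hN0
  set X := m * N with hX
  set R := P ^ (4 - 4 * c) with hR
  have hR0 : 0 < R := by positivity
  have hT0 : 0 ≤ m * g * K ^ 2 := by positivity
  have hW : 0 ≤ m * g * K * m ^ 2 * (K + m) := by positivity
  have hQ : 0 ≤ K * (m * g) := by positivity
  have hX4 : X ^ 4 ≤ P ^ 4 := pow_le_pow_left₀ hX0 hmN 4
  have hX3 : X ^ 3 ≤ P ^ 3 := pow_le_pow_left₀ hX0 hmN 3
  have hX2 : X ^ 2 ≤ P ^ 2 := pow_le_pow_left₀ hX0 hmN 2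
  have g24 : g ^ 2 ≤ g ^ 4 := pow_le_pow_right₀ hg1 (by norm_num)
  have g14 : g ≤ g ^ 4 := le_self_pow₀ hg1 (by norm_num)
  have g34 : g ^ 3 ≤ g ^ 4 := pow_le_pow_right₀ hg1 (by norm_num)
  -- the terms
  have r1 := famB_term (W₀ := m * g * K * m ^ 2 * (K + m))
    (t := (m * g * K ^ 2) ^ (3 / 4 : ℝ) * U ^ 2 * Real.sqrt (K * (m * g)))
    (Q := K * (m * g)) (c := c) hP0 hW (by positivity) hQ (by
      rw [mul_pow, mul_pow, famB_q _ _ 3 hT0 (by norm_num), famB_sqrt _ (by positivity)]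
      calc m * g * K * m ^ 2 * (K + m) * ((m * g * K ^ 2) ^ 3 * (U ^ 2) ^ 4 * (K * (m * g)) ^ 2)
          = (K * (m * g)) ^ 4 * (m ^ 4 * g ^ 2 * K ^ 5 * (K + m) * U ^ 8) := by ring
        _ ≤ (K * (m * g)) ^ 4 * (2 * R) := mul_le_mul_of_nonneg_left b1 (by positivity)
        _ ≤ (K * (m * g)) ^ 4 * (20 * R) :=
            mul_le_mul_of_nonneg_left (by linarith) (by positivity))
  have r0 := famB_term (W₀ := m * g * K * m ^ 2 * (K + m)) (t := X)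
    (Q := K * (m * g)) (c := c) hP0 hW hX0 hQ (by
      have e1 : K + m ≤ 2 * (K * m) := by nlinarith
      calc m * g * K * m ^ 2 * (K + m) * X ^ 4
          ≤ m * g * K * m ^ 2 * (2 * (K * m)) * P ^ 4 := by
            apply mul_le_mul _ hX4 (by positivity) (by positivity)
            exact mul_le_mul_of_nonneg_left e1 (by positivity)
        _ = m ^ 3 * g * K ^ 2 * (P ^ 4 * (2 * m)) := by ring
        _ ≤ m ^ 3 * g * K ^ 2 * (m * K ^ 2 * (8 * R)) :=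
            mul_le_mul_of_nonneg_left b0 (by positivity)
        _ = g * (K ^ 4 * m ^ 4 * (8 * R)) := by ring
        _ ≤ g ^ 4 * (K ^ 4 * m ^ 4 * (8 * R)) := mul_le_mul_of_nonneg_right g14 (by positivity)
        _ = (K * (m * g)) ^ 4 * (8 * R) := by ring
        _ ≤ (K * (m * g)) ^ 4 * (20 * R) :=
            mul_le_mul_of_nonneg_left (by linarith) (by positivity))
  have r2 := famB_term (W₀ := m * g * K * m ^ 2 * (K + m))
    (t := X * (m * g * K ^ 2) ^ (1 / 4 : ℝ) / Real.sqrt U)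
    (Q := K * (m * g)) (c := c) hP0 hW (by positivity) hQ (by
      rw [div_pow, mul_pow, famB_q _ _ 1 hT0 (by norm_num), famB_sqrt _ hU0.le, pow_one,
        ← mul_div_assoc, div_le_iff₀ (by positivity)]
      calc m * g * K * m ^ 2 * (K + m) * (X ^ 4 * (m * g * K ^ 2))
          = m ^ 4 * g ^ 2 * K ^ 3 * (X ^ 4 * (K + m)) := by ring
        _ ≤ m ^ 4 * g ^ 2 * K ^ 3 * (P ^ 4 * (K + m)) := by
            apply mul_le_mul_of_nonneg_left _ (by positivity)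
            exact mul_le_mul_of_nonneg_right hX4 (by positivity)
        _ ≤ m ^ 4 * g ^ 2 * K ^ 3 * (K * U ^ 2 * (20 * R)) :=
            mul_le_mul_of_nonneg_left b2 (by positivity)
        _ = g ^ 2 * (m ^ 4 * K ^ 4 * (U ^ 2 * (20 * R))) := by ring
        _ ≤ g ^ 4 * (m ^ 4 * K ^ 4 * (U ^ 2 * (20 * R))) :=
            mul_le_mul_of_nonneg_right g24 (by positivity)
        _ = (K * (m * g)) ^ 4 * (20 * R) * U ^ 2 := by ring)
  have r3 := famB_term (W₀ := m * g * K * m ^ 2 * (K + m))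
    (t := X ^ (3 / 4 : ℝ) * (m * g * K ^ 2) ^ (1 / 2 : ℝ))
    (Q := K * (m * g)) (c := c) hP0 hW (by positivity) hQ (by
      rw [mul_pow, famB_q _ _ 2 hT0 (by norm_num), famB_q _ _ 3 hX0 (by norm_num)]
      calc m * g * K * m ^ 2 * (K + m) * (X ^ 3 * (m * g * K ^ 2) ^ 2)
          = m ^ 4 * g ^ 3 * K ^ 4 * (X ^ 3 * (m * K ^ 2 + m ^ 2 * K)) := by ring
        _ ≤ m ^ 4 * g ^ 3 * K ^ 4 * (P ^ 3 * (m * K ^ 2 + m ^ 2 * K)) := by
            apply mul_le_mul_of_nonneg_left _ (by positivity)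
            exact mul_le_mul_of_nonneg_right hX3 (by positivity)
        _ ≤ m ^ 4 * g ^ 3 * K ^ 4 * (2 * R) := mul_le_mul_of_nonneg_left b3 (by positivity)
        _ = g ^ 3 * (m ^ 4 * K ^ 4 * (2 * R)) := by ring
        _ ≤ g ^ 4 * (m ^ 4 * K ^ 4 * (2 * R)) := mul_le_mul_of_nonneg_right g34 (by positivity)
        _ = (K * (m * g)) ^ 4 * (2 * R) := by ring
        _ ≤ (K * (m * g)) ^ 4 * (20 * R) :=
            mul_le_mul_of_nonneg_left (by linarith) (by positivity))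
  have r4 := famB_term (W₀ := m * g * K * m ^ 2 * (K + m))
    (t := X ^ (1 / 2 : ℝ) * (m * g * K ^ 2) ^ (3 / 4 : ℝ))
    (Q := K * (m * g)) (c := c) hP0 hW (by positivity) hQ (by
      rw [mul_pow, famB_q _ _ 3 hT0 (by norm_num), famB_q _ _ 2 hX0 (by norm_num)]
      calc m * g * K * m ^ 2 * (K + m) * (X ^ 2 * (m * g * K ^ 2) ^ 3)
          = (K * (m * g)) ^ 4 * (X ^ 2 * (m ^ 2 * K ^ 4 + m ^ 3 * K ^ 3)) := by ring
        _ ≤ (K * (m * g)) ^ 4 * (P ^ 2 * (m ^ 2 * K ^ 4 + m ^ 3 * K ^ 3)) := by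
            apply mul_le_mul_of_nonneg_left _ (by positivity)
            exact mul_le_mul_of_nonneg_right hX2 (by positivity)
        _ ≤ (K * (m * g)) ^ 4 * (2 * R) := mul_le_mul_of_nonneg_left b4 (by positivity)
        _ ≤ (K * (m * g)) ^ 4 * (20 * R) :=
            mul_le_mul_of_nonneg_left (by linarith) (by positivity))
  rw [mul_add, mul_add, mul_add, mul_add]
  linarith

/-- keep this signature -/
theorem thm_FamB (h1 : St_J4) (h2 : St_PsiF) : St_FamB := by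
  intro η hη θ hθ hθ2
  set s : ℝ := 1 / 2 - θ with hs
  have hs0 : 0 < s := by linarith
  have hs2 : s < 1 / 2 := by linarith
  set c : ℝ := min (1 / 1000) (s / 10) with hc
  have hc0 : 0 < c := lt_min (by norm_num) (by linarith)
  have hc1 : c ≤ 1 / 1000 := min_le_left _ _
  have hc2 : c ≤ s / 10 := min_le_right _ _
  obtain ⟨C1, hC1, h1⟩ := h1 (c / 4) (by linarith)
  obtain ⟨C2, hC2, h2⟩ := h2 (etaR η) (abv_wt η hη) (c / 4) (by linarith)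
  refine ⟨min (1 / 200) (s / 8), 1 / 200, c / 4, lt_min (by norm_num) (by linarith), by norm_num,
    by norm_num, by linarith, ?_⟩
  have ev : ∀ a b : ℝ, 0 < a → ∀ᶠ n : ℕ in atTop, b ≤ (n : ℝ) ^ a := fun a b ha =>
    ((tendsto_rpow_atTop ha).comp tendsto_natCast_atTop_atTop).eventually_ge_atTop b
  filter_upwards [ev (1 / 10) 2 (by norm_num), ev (1 / 15) 2 (by norm_num),
    ev (7 * c / 16) (15 * C2 * C1 ^ (1 / 4 : ℝ)) (by linarith), eventually_ge_atTop 8,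
    ev (1 - 2 / 15) 2 (by norm_num)]
    with n hP hP15 hPC hn8 hP2 m N g cc k' K htile hm hg1 hg hK hK2
  obtain ⟨hm1, hmN, hmN2⟩ := htile
  have hK2' : (K : ℝ) ≤ (N : ℝ) ^ (1 / 2 - s) := by
    have e : 1 / 2 - s = θ := by
      rw [hs]
      ring
    rw [e]
    exact hK2
  have hn8' : (8 : ℝ) ≤ n := by exact_mod_cast hn8
  have hn0 : (0 : ℝ) < n := by linarith
  have hn1 : (1 : ℝ) ≤ n := by linarith
  have hm1' : (1 : ℝ) ≤ m := by exact_mod_cast hm1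
  have hm0 : (0 : ℝ) < m := by linarith
  have hg1' : (1 : ℝ) ≤ g := by exact_mod_cast hg1
  have hmN' : (m : ℝ) * N ≤ n := by exact_mod_cast hmN
  have hmNlt : (n : ℝ) < m * (N + 1) := by exact_mod_cast hmN2
  set ρ : ℝ := min (1 / 200) (s / 8) with hρ
  have hρ0 : 0 < ρ := lt_min (by norm_num) (by linarith)
  have hρ1 : ρ ≤ 1 / 200 := min_le_left _ _
  have hρ2 : ρ ≤ s / 8 := min_le_right _ _
  -- `N ≥ 1`
  have hmlt : (m : ℝ) < n := by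
    have e1 : (n : ℝ) ^ (1 / 3 + ρ) < n := by
      have e2 : (n : ℝ) ^ (1 / 3 + ρ) * 2 ≤ (n : ℝ) ^ (1 : ℝ) := by
        calc (n : ℝ) ^ (1 / 3 + ρ) * 2 ≤ (n : ℝ) ^ (1 / 3 + ρ) * (n : ℝ) ^ (1 / 10 : ℝ) :=
              mul_le_mul_of_nonneg_left hP (by positivity)
          _ = (n : ℝ) ^ (1 / 3 + ρ + 1 / 10) := (Real.rpow_add hn0 _ _).symm
          _ ≤ _ := Real.rpow_le_rpow_of_exponent_le hn1 (by linarith)
      rw [Real.rpow_one] at e2
      have e3 : 0 < (n : ℝ) ^ (1 / 3 + ρ) := by positivity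
      linarith
    exact lt_of_le_of_lt hm e1
  have hN1 : 1 ≤ N := by
    by_contra hcon
    have hN0 : N = 0 := by omega
    rw [hN0] at hmNlt
    push_cast at hmNlt
    linarith
  have hN1' : (1 : ℝ) ≤ N := by exact_mod_cast hN1
  have hN0 : (0 : ℝ) < N := by linarith
  have hmN3 : (n : ℝ) ≤ 2 * (m * N) := by nlinarith
  have hKpos : 1 ≤ K := by
    by_contra hcon
    have hK0 : K = 0 := by omega
    rw [hK0] at hK
    push_cast at hK
    have : 0 < (N : ℝ) ^ (1 / 3 - 1 / 200 : ℝ) := by positivity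
    linarith
  have hK1' : (1 : ℝ) ≤ K := by exact_mod_cast hKpos
  have hmn : m ≤ n := by exact_mod_cast hmlt.le
  -- `U`
  set U : ℕ := ⌊(n : ℝ) ^ (1 / 15 : ℝ)⌋₊ with hU
  have hUle : (U : ℝ) ≤ (n : ℝ) ^ (1 / 15 : ℝ) := Nat.floor_le (by positivity)
  have hUge : (n : ℝ) ^ (1 / 15 : ℝ) ≤ 2 * U := by
    have h3 : (n : ℝ) ^ (1 / 15 : ℝ) < U + 1 := Nat.lt_floor_add_one _
    have h4 : 1 ≤ U := Nat.le_floor (by push_cast; linarith)
    have h5 : (1 : ℝ) ≤ U := by exact_mod_cast h4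
    linarith
  have hU1 : 1 ≤ U := Nat.le_floor (by push_cast; linarith)
  have hU1' : (1 : ℝ) ≤ U := by exact_mod_cast hU1
  have hU2X : U ^ 2 ≤ m * N := by
    have h3 : (U : ℝ) ^ 2 ≤ (n : ℝ) ^ (2 / 15 : ℝ) := by
      have h4 := pow_le_pow_left₀ (Nat.cast_nonneg U) hUle 2
      rw [← Real.rpow_natCast ((n : ℝ) ^ (1 / 15 : ℝ)) 2, ← Real.rpow_mul hn0.le] at h4
      refine h4.trans_eq ?_
      congr 1
      norm_num
    have h5 : (n : ℝ) ^ (2 / 15 : ℝ) * 2 ≤ n := by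
      calc (n : ℝ) ^ (2 / 15 : ℝ) * 2 ≤ (n : ℝ) ^ (2 / 15 : ℝ) * (n : ℝ) ^ (1 - 2 / 15 : ℝ) :=
            mul_le_mul_of_nonneg_left hP2 (by positivity)
        _ = (n : ℝ) ^ (1 : ℝ) := by
            rw [← Real.rpow_add hn0]
            congr 1
            norm_num
        _ = n := Real.rpow_one _
    have h6 : (U : ℝ) ^ 2 ≤ m * N := by linarith
    exact_mod_cast h6
  have hX3 : 3 ≤ m * N := by
    have : (3 : ℝ) ≤ m * N := by linarith
    exact_mod_cast this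
  obtain ⟨hNP, -, -, -, -⟩ := famB_size hP hn1 hm1' hK1' hmN' hmN3 hm hρ0 hρ1 hρ2 hs0 hs2 hK
    hK2'
  have hKM : K * (m * g) ≤ m * N := by
    have h3 : (K : ℝ) * g ≤ N := by
      have h4 : (g : ℝ) ≤ (N : ℝ) ^ (1 / 2 : ℝ) := by
        refine hg.trans ?_
        have h5 : (n : ℝ) ^ (c / 4) ≤ ((n : ℝ) ^ (1 / 2 : ℝ)) ^ (1 / 2 : ℝ) := by
          rw [← Real.rpow_mul hn0.le]
          exact Real.rpow_le_rpow_of_exponent_le hn1 (by linarith)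
        exact h5.trans (Real.rpow_le_rpow (by positivity) hNP (by norm_num))
      calc (K : ℝ) * g ≤ (N : ℝ) ^ θ * (N : ℝ) ^ (1 / 2 : ℝ) :=
            mul_le_mul hK2 h4 (by positivity) (by positivity)
        _ = (N : ℝ) ^ (θ + 1 / 2) := (Real.rpow_add hN0 _ _).symm
        _ ≤ (N : ℝ) ^ (1 : ℝ) := Real.rpow_le_rpow_of_exponent_le hN1' (by linarith)
        _ = N := Real.rpow_one _
    have h4 : (K : ℝ) * (m * g) ≤ m * N := by
      calc (K : ℝ) * (m * g) = m * (K * g) := by ring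
        _ ≤ m * N := mul_le_mul_of_nonneg_left h3 hm0.le
    exact_mod_cast h4
  -- the fourth moment
  have hW := h1 n m g cc k' K hm1 hmn hg1 hKpos
  have hF := h2 (m * N) K (m * g) U hX3 hKpos (Nat.mul_pos hm1 hg1) hKM hU1 hU2X
    (fun k χ ψ => ‖JZ n m g cc k' χ ψ‖) (fun k χ ψ => norm_nonneg _)
  refine hF.trans ?_
  set W := Fam K (m * g) (fun k χ ψ => ‖JZ n m g cc k' χ ψ‖ ^ 4) with hWdef
  have hW0 : 0 ≤ W := fam_nonneg fun k χ ψ => by positivity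
  have hS := famB_sum (P := n) (m := m) (N := N) (K := K) (g := g) (U := U) (s := s) (ρ := ρ)
    (c := c) (c₂ := c / 4) hP hn1 hm1' hN0.le hK1' hg1' hU1' hmN' hmN3 hm hρ0 hρ1 hρ2 hs0 hs2 hK
    hK2' hg hUle hUge hc0 hc1 hc2 (by linarith)
  push_cast
  set S : ℝ := ((m : ℝ) * g * (K : ℝ) ^ 2) ^ (3 / 4 : ℝ) * (U : ℝ) ^ 2 * Real.sqrt (K * (m * g)) +
    m * N + m * N * (m * g * (K : ℝ) ^ 2) ^ (1 / 4 : ℝ) / Real.sqrt U +
        ((m : ℝ) * N) ^ (3 / 4 : ℝ) * (m * g * (K : ℝ) ^ 2) ^ (1 / 2 : ℝ) +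
        ((m : ℝ) * N) ^ (1 / 2 : ℝ) * (m * g * (K : ℝ) ^ 2) ^ (3 / 4 : ℝ) with hSdef
  have hS0 : 0 ≤ S := by positivity
  have hW4 : W ^ (1 / 4 : ℝ) ≤ C1 ^ (1 / 4 : ℝ) * (n : ℝ) ^ (c / 16) *
      ((m : ℝ) * g * K * (m : ℝ) ^ 2 * (K + m)) ^ (1 / 4 : ℝ) := by
    have e1 : W ≤ C1 * (n : ℝ) ^ (c / 4) * ((m : ℝ) * g * K * (m : ℝ) ^ 2 * (K + m)) := by
      refine hW.trans_eq ?_
      ring
    refine (Real.rpow_le_rpow hW0 e1 (by norm_num)).trans_eq ?_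
    rw [Real.mul_rpow (by positivity) (by positivity), Real.mul_rpow hC1.le (by positivity),
      ← Real.rpow_mul hn0.le]
    congr 3
    ring
  have hXe : ((m : ℝ) * N) ^ (c / 4) ≤ (n : ℝ) ^ (c / 4) :=
    Real.rpow_le_rpow (by positivity) hmN' (by linarith)
  calc C2 * ((m : ℝ) * N) ^ (c / 4) * W ^ (1 / 4 : ℝ) * S
      ≤ C2 * (n : ℝ) ^ (c / 4) * (C1 ^ (1 / 4 : ℝ) * (n : ℝ) ^ (c / 16) *
        ((m : ℝ) * g * K * (m : ℝ) ^ 2 * (K + m)) ^ (1 / 4 : ℝ)) * S := by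
        apply mul_le_mul_of_nonneg_right _ hS0
        apply mul_le_mul _ hW4 (by positivity) (by positivity)
        exact mul_le_mul_of_nonneg_left hXe hC2.le
    _ = (C2 * C1 ^ (1 / 4 : ℝ)) * ((n : ℝ) ^ (c / 4) * (n : ℝ) ^ (c / 16)) *
        (((m : ℝ) * g * K * (m : ℝ) ^ 2 * (K + m)) ^ (1 / 4 : ℝ) * S) := by ring
    _ ≤ (C2 * C1 ^ (1 / 4 : ℝ)) * ((n : ℝ) ^ (c / 4) * (n : ℝ) ^ (c / 16)) *
        (K * (m * g) * (15 * (n : ℝ) ^ (1 - c))) :=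
        mul_le_mul_of_nonneg_left hS (by positivity)
    _ = (15 * C2 * C1 ^ (1 / 4 : ℝ)) * (K * (m * g)) *
        ((n : ℝ) ^ (c / 4) * (n : ℝ) ^ (c / 16) * (n : ℝ) ^ (1 - c)) := by ring
    _ ≤ (n : ℝ) ^ (7 * c / 16) * (K * (m * g)) *
        ((n : ℝ) ^ (c / 4) * (n : ℝ) ^ (c / 16) * (n : ℝ) ^ (1 - c)) := by
        apply mul_le_mul_of_nonneg_right _ (by positivity)
        exact mul_le_mul_of_nonneg_right hPC (by positivity)
    _ = K * (m * g) * ((n : ℝ) ^ (7 * c / 16) *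
        ((n : ℝ) ^ (c / 4) * (n : ℝ) ^ (c / 16) * (n : ℝ) ^ (1 - c))) := by ring
    _ = K * (m * g) * (n : ℝ) ^ (1 - c / 4) := by
        rw [← Real.rpow_add hn0, ← Real.rpow_add hn0, ← Real.rpow_add hn0]
        congr 2
        ring

end Pool.Agent.CV
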