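import Mathlib
import Pool.Agent.CV.Stmts
import Pool.Agent.CH.Gen
import Pool.Agent.GBQ.Crt
import Pool.Agent.CU.DensT

set_option autoImplicit false

/-!
# CV / GenB

Evaluation of the sieve sum for the pairs `(q, x)`.
-/

namespace Pool.Agent.CV

open Finset Filter Pool.Agent.MT Pool.Agent.CH Pool.Agent.CU

/-! ### Squarefree numbers -/

theorem genB_dvd {g x : ℕ} (hg : Squarefree g) : g ∣ x ↔ ∀ l ∈ g.primeFactors, l ∣ x := by
  constructor
  · intro h l hl
    exact (Nat.dvd_of_mem_primeFactors hl).trans h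
  · intro h
    rw [← Nat.prod_primeFactors_of_squarefree hg]
    exact Finset.prod_primes_dvd x (fun l hl => (Nat.prime_of_mem_primeFactors hl).prime) h

theorem genB_mod {g a b : ℕ} (hg : Squarefree g) :
    a % g = b % g ↔ ∀ l ∈ g.primeFactors, a % l = b % l := by
  have h1 : ∀ l : ℕ, a % l = b % l ↔ l ∣ ((b : ℤ) - a).natAbs := by
    intro l
    have h2 : a % l = b % l ↔ a ≡ b [MOD l] := Iff.rfl
    rw [h2, Nat.modEq_iff_dvd, Int.natCast_dvd]
  rw [h1, genB_dvd hg]
  exact forall₂_congr fun l _ => (h1 l).symm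

/-- powerset sum as a sum over squarefree numbers -/
theorem genB_powerset {c : ℕ → ℝ} {P S : Finset ℕ} {D : ℕ} (hP : ∀ l ∈ P, l.Prime)
    (hS : S ⊆ P) (hc : ∀ d, c d ≠ 0 → Squarefree d ∧ d.primeFactors ⊆ P ∧ d ≤ D) :
    ∑ T ∈ S.powerset, c (∏ l ∈ T, l) =
      ∑ d ∈ (Icc 1 D).filter (fun d => d.primeFactors ⊆ S), c d := by
  have hprimes : ∀ T ∈ S.powerset, ∀ l ∈ T, l.Prime := fun T hT l hl =>
    hP l (hS (mem_powerset.1 hT hl))
  refine Finset.sum_bij_ne_zero (fun T _ _ => ∏ l ∈ T, l) ?_ ?_ ?_ ?_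
  · intro T hT hne
    obtain ⟨h1, h2, h3⟩ := hc _ hne
    rw [mem_filter, mem_Icc]
    refine ⟨⟨Nat.one_le_iff_ne_zero.2 h1.ne_zero, h3⟩, ?_⟩
    rw [Nat.primeFactors_prod (hprimes T hT)]
    exact mem_powerset.1 hT
  · intro T hT _ T' hT' _ hEq
    have := congrArg Nat.primeFactors hEq
    rwa [Nat.primeFactors_prod (hprimes T hT), Nat.primeFactors_prod (hprimes T' hT')] at this
  · intro d hd hne
    rw [mem_filter] at hd
    obtain ⟨h1, h2, h3⟩ := hc _ hne
    refine ⟨d.primeFactors, mem_powerset.2 hd.2, ?_, Nat.prod_primeFactors_of_squarefree h1⟩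
    rwa [Nat.prod_primeFactors_of_squarefree h1]
  · intro T _ _
    rfl

/-! ### The expansion -/

theorem genB_prod (D : Finset ℕ) (P Q : ℕ → ℝ) :
    ∏ l ∈ D, (P l + Q l - P l * Q l) = ∑ A ∈ D.powerset, ∑ C ∈ A.powerset,
      (-1) ^ C.card * (∏ l ∈ A, P l) * ∏ l ∈ (D \ A) ∪ C, Q l := by
  have h1 : ∀ l ∈ D, P l + Q l - P l * Q l = P l * (1 + -Q l) + Q l := fun l _ => by ring
  rw [prod_congr rfl h1, Finset.prod_add]
  refine sum_congr rfl fun A hA => ?_
  rw [prod_mul_distrib, Finset.prod_one_add, mul_sum, sum_mul]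
  refine sum_congr rfl fun C hC => ?_
  have hdis : Disjoint (D \ A) C := by
    rw [Finset.disjoint_left]
    intro l hl hlC
    exact (Finset.mem_sdiff.1 hl).2 (mem_powerset.1 hC hlC)
  rw [prod_union hdis, Finset.prod_neg]
  ring

/-- the coefficients -/
noncomputable def genB_k (w : ℕ) (c : ℕ → ℝ) (g h : ℕ) : ℝ :=
  if (∀ l ∈ g.primeFactors, l ≤ w) then
    c (Nat.lcm g h) * (-1) ^ (g.primeFactors ∩ h.primeFactors).card else 0

theorem genB_k_abs (w : ℕ) (c : ℕ → ℝ) (hc : ∀ d, |c d| ≤ 3) (g h : ℕ) :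
    |genB_k w c g h| ≤ 3 := by
  unfold genB_k
  split_ifs
  · rw [abs_mul, abs_pow, abs_neg, abs_one, one_pow, mul_one]
    exact hc _
  · rw [abs_zero]; norm_num

theorem genB_lcm {g h : ℕ} (hg : g ≠ 0) (hh : h ≠ 0) :
    (Nat.lcm g h).primeFactors = g.primeFactors ∪ h.primeFactors := by
  ext p
  have h0 : Nat.lcm g h ≠ 0 := Nat.lcm_ne_zero hg hh
  rw [mem_union, Nat.mem_primeFactors, Nat.mem_primeFactors, Nat.mem_primeFactors]
  constructor
  · rintro ⟨hp, hd, _⟩
    have h1 : p ∣ g * h := hd.trans (Nat.lcm_dvd_mul g h)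
    rcases (Nat.Prime.dvd_mul hp).1 h1 with h2 | h2
    · exact Or.inl ⟨hp, h2, hg⟩
    · exact Or.inr ⟨hp, h2, hh⟩
  · rintro (⟨hp, hd, _⟩ | ⟨hp, hd, _⟩)
    · exact ⟨hp, hd.trans (Nat.dvd_lcm_left g h), h0⟩
    · exact ⟨hp, hd.trans (Nat.dvd_lcm_right g h), h0⟩

theorem genB_id (w F G : ℕ) (c : ℕ → ℝ)
    (hc : ∀ d, c d ≠ 0 → Squarefree d ∧ d ≤ F ∧ smp w d ≤ G) (P Q : ℕ → ℝ)
    (hP : ∀ l, w < l → P l = 0) :
    ∑ d ∈ Icc 1 F, c d * ∏ l ∈ d.primeFactors, (P l + Q l - P l * Q l) =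
      ∑ g ∈ (Icc 1 G).filter Squarefree, ∑ h ∈ (Icc 1 F).filter Squarefree,
        genB_k w c g h * ((∏ l ∈ g.primeFactors, P l) * ∏ l ∈ h.primeFactors, Q l) := by
  classical
  have hL : ∑ d ∈ Icc 1 F, c d * ∏ l ∈ d.primeFactors, (P l + Q l - P l * Q l) =
      ∑ x ∈ (Icc 1 F).sigma (fun d => d.primeFactors.powerset.sigma (fun A => A.powerset)),
        c x.1 * ((-1) ^ x.2.2.card * (∏ l ∈ x.2.1, P l) *
          ∏ l ∈ (x.1.primeFactors \ x.2.1) ∪ x.2.2, Q l) := by
    rw [Finset.sum_sigma]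
    refine sum_congr rfl fun d _ => ?_
    rw [genB_prod, mul_sum, Finset.sum_sigma]
    refine sum_congr rfl fun A _ => ?_
    rw [mul_sum]
  rw [hL, ← Finset.sum_product']
  refine Finset.sum_bij_ne_zero
    (fun x _ _ => (∏ l ∈ x.2.1, l, ∏ l ∈ (x.1.primeFactors \ x.2.1) ∪ x.2.2, l)) ?_ ?_ ?_ ?_
  · -- membership
    rintro ⟨d, A, C⟩ hx hne
    rw [mem_sigma, mem_sigma] at hx
    obtain ⟨hd, hA, hC⟩ := hx
    dsimp only at hd hA hC hne ⊢
    rw [mem_powerset] at hA hC
    have hcd : c d ≠ 0 := left_ne_zero_of_mul hne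
    obtain ⟨hsq, hdF, hdG⟩ := hc d hcd
    have hPA : ∏ l ∈ A, P l ≠ 0 :=
      right_ne_zero_of_mul (left_ne_zero_of_mul (right_ne_zero_of_mul hne))
    have hAw : ∀ l ∈ A, l ≤ w := by
      intro l hl
      by_contra hcon
      exact Finset.prod_ne_zero_iff.1 hPA l hl (hP l (not_le.1 hcon))
    have hBd : (d.primeFactors \ A) ∪ C ⊆ d.primeFactors :=
      union_subset sdiff_subset (hC.trans hA)
    have hdp : ∏ l ∈ d.primeFactors, l = d := Nat.prod_primeFactors_of_squarefree hsq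
    have h1 : ∏ l ∈ A, l ∣ d := by
      conv_rhs => rw [← hdp]
      exact prod_dvd_prod_of_subset _ _ _ hA
    have h2 : ∏ l ∈ (d.primeFactors \ A) ∪ C, l ∣ d := by
      conv_rhs => rw [← hdp]
      exact prod_dvd_prod_of_subset _ _ _ hBd
    have hd0 : 0 < d := Nat.pos_of_ne_zero hsq.ne_zero
    have h3 : ∏ l ∈ A, l ≤ smp w d := by
      unfold smp
      refine Nat.le_of_dvd ?_ (prod_dvd_prod_of_subset _ _ _ ?_)
      · exact prod_pos fun l hl => (Nat.prime_of_mem_primeFactors (mem_filter.1 hl).1).pos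
      · intro l hl
        exact mem_filter.2 ⟨hA hl, hAw l hl⟩
    rw [mem_product, mem_filter, mem_filter, mem_Icc, mem_Icc]
    exact ⟨⟨⟨Nat.pos_of_dvd_of_pos h1 hd0, h3.trans hdG⟩, hsq.squarefree_of_dvd h1⟩,
      ⟨Nat.pos_of_dvd_of_pos h2 hd0, (Nat.le_of_dvd hd0 h2).trans hdF⟩,
      hsq.squarefree_of_dvd h2⟩
  · -- injectivity
    rintro ⟨d, A, C⟩ hx hne ⟨d', A', C'⟩ hx' hne' heq
    rw [mem_sigma, mem_sigma] at hx hx'
    obtain ⟨hd, hA, hC⟩ := hx
    obtain ⟨hd', hA', hC'⟩ := hx'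
    dsimp only at hd hA hC hne hd' hA' hC' hne' heq
    rw [mem_powerset] at hA hC hA' hC'
    have hcd : c d ≠ 0 := left_ne_zero_of_mul hne
    have hcd' : c d' ≠ 0 := left_ne_zero_of_mul hne'
    have hsq := (hc d hcd).1
    have hsq' := (hc d' hcd').1
    have hBd : (d.primeFactors \ A) ∪ C ⊆ d.primeFactors :=
      union_subset sdiff_subset (hC.trans hA)
    have hBd' : (d'.primeFactors \ A') ∪ C' ⊆ d'.primeFactors :=
      union_subset sdiff_subset (hC'.trans hA')
    have e1 := congrArg (fun z => (Prod.fst z).primeFactors) heq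
    have e2 := congrArg (fun z => (Prod.snd z).primeFactors) heq
    dsimp only at e1 e2
    rw [Nat.primeFactors_prod (fun l hl => Nat.prime_of_mem_primeFactors (hA hl)),
      Nat.primeFactors_prod (fun l hl => Nat.prime_of_mem_primeFactors (hA' hl))] at e1
    rw [Nat.primeFactors_prod (fun l hl => Nat.prime_of_mem_primeFactors (hBd hl)),
      Nat.primeFactors_prod (fun l hl => Nat.prime_of_mem_primeFactors (hBd' hl))] at e2
    subst e1
    have e3 : d.primeFactors = d'.primeFactors := by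
      have h1 : ∀ (D : Finset ℕ) (C : Finset ℕ), A ⊆ D → C ⊆ A → A ∪ ((D \ A) ∪ C) = D := by
        intro D C h1 h2
        ext l
        simp only [mem_union, Finset.mem_sdiff]
        constructor
        · rintro (h | ⟨h, _⟩ | h)
          · exact h1 h
          · exact h
          · exact h1 (h2 h)
        · intro h
          by_cases hl : l ∈ A
          · exact Or.inl hl
          · exact Or.inr (Or.inl ⟨h, hl⟩)
      rw [← h1 d.primeFactors C hA hC, e2, h1 d'.primeFactors C' hA' hC']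
    have e4 : d = d' := by
      rw [← Nat.prod_primeFactors_of_squarefree hsq, e3,
        Nat.prod_primeFactors_of_squarefree hsq']
    subst e4
    have e5 : C = C' := by
      have h1 : ∀ (D : Finset ℕ) (C : Finset ℕ), C ⊆ A → A ∩ ((D \ A) ∪ C) = C := by
        intro D C h2
        ext l
        simp only [mem_inter, mem_union, Finset.mem_sdiff]
        constructor
        · rintro ⟨h3, ⟨_, h4⟩ | h4⟩
          · exact absurd h3 h4
          · exact h4
        · intro h
          exact ⟨h2 h, Or.inr h⟩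
      rw [← h1 d.primeFactors C hC, e2, h1 d.primeFactors C' hC']
    subst e5
    rfl
  · -- surjectivity
    rintro ⟨g, h⟩ hgh hne
    rw [mem_product, mem_filter, mem_filter, mem_Icc, mem_Icc] at hgh
    obtain ⟨⟨⟨hg1, _⟩, hgs⟩, ⟨hh1, _⟩, hhs⟩ := hgh
    dsimp only at hg1 hgs hh1 hhs hne
    have hg0 : g ≠ 0 := by omega
    have hh0 : h ≠ 0 := by omega
    have hk : genB_k w c g h ≠ 0 := left_ne_zero_of_mul hne
    have hw : ∀ l ∈ g.primeFactors, l ≤ w := by
      by_contra hcon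
      apply hk
      unfold genB_k
      rw [if_neg hcon]
    have hke : genB_k w c g h =
        c (Nat.lcm g h) * (-1) ^ (g.primeFactors ∩ h.primeFactors).card := by
      unfold genB_k
      rw [if_pos hw]
    have hcl : c (Nat.lcm g h) ≠ 0 := by
      rw [hke] at hk
      exact left_ne_zero_of_mul hk
    obtain ⟨hsq, hdF, hdG⟩ := hc _ hcl
    have hpf := genB_lcm hg0 hh0
    have hB : ((Nat.lcm g h).primeFactors \ g.primeFactors) ∪
        (g.primeFactors ∩ h.primeFactors) = h.primeFactors := by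
      rw [hpf]
      ext l
      simp only [mem_union, Finset.mem_sdiff, mem_inter]
      tauto
    refine ⟨⟨Nat.lcm g h, g.primeFactors, g.primeFactors ∩ h.primeFactors⟩, ?_, ?_, ?_⟩
    · rw [mem_sigma, mem_sigma, mem_Icc]
      refine ⟨⟨Nat.pos_of_ne_zero (Nat.lcm_ne_zero hg0 hh0), hdF⟩, ?_, ?_⟩
      · rw [mem_powerset, hpf]
        exact subset_union_left
      · rw [mem_powerset]
        exact inter_subset_left
    · dsimp only
      rw [hB]
      intro h0
      apply hne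
      rw [hke, ← h0]
      ring
    · dsimp only
      rw [hB, Nat.prod_primeFactors_of_squarefree hgs, Nat.prod_primeFactors_of_squarefree hhs]
  · -- values
    rintro ⟨d, A, C⟩ hx hne
    rw [mem_sigma, mem_sigma] at hx
    obtain ⟨hd, hA, hC⟩ := hx
    dsimp only at hd hA hC hne ⊢
    rw [mem_powerset] at hA hC
    have hcd : c d ≠ 0 := left_ne_zero_of_mul hne
    obtain ⟨hsq, hdF, hdG⟩ := hc d hcd
    have hPA : ∏ l ∈ A, P l ≠ 0 :=
      right_ne_zero_of_mul (left_ne_zero_of_mul (right_ne_zero_of_mul hne))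
    have hAw : ∀ l ∈ A, l ≤ w := by
      intro l hl
      by_contra hcon
      exact Finset.prod_ne_zero_iff.1 hPA l hl (hP l (not_le.1 hcon))
    have hBd : (d.primeFactors \ A) ∪ C ⊆ d.primeFactors :=
      union_subset sdiff_subset (hC.trans hA)
    have hdp : ∏ l ∈ d.primeFactors, l = d := Nat.prod_primeFactors_of_squarefree hsq
    have e1 : (∏ l ∈ A, l).primeFactors = A :=
      Nat.primeFactors_prod (fun l hl => Nat.prime_of_mem_primeFactors (hA hl))
    have e2 : (∏ l ∈ (d.primeFactors \ A) ∪ C, l).primeFactors = (d.primeFactors \ A) ∪ C :=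
      Nat.primeFactors_prod (fun l hl => Nat.prime_of_mem_primeFactors (hBd hl))
    have h1 : ∏ l ∈ A, l ∣ d := by
      conv_rhs => rw [← hdp]
      exact prod_dvd_prod_of_subset _ _ _ hA
    have h2 : ∏ l ∈ (d.primeFactors \ A) ∪ C, l ∣ d := by
      conv_rhs => rw [← hdp]
      exact prod_dvd_prod_of_subset _ _ _ hBd
    have hg0 : ∏ l ∈ A, l ≠ 0 := fun h0 => by
      rw [h0, zero_dvd_iff] at h1
      exact hsq.ne_zero h1
    have hh0 : ∏ l ∈ (d.primeFactors \ A) ∪ C, l ≠ 0 := fun h0 => by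
      rw [h0, zero_dvd_iff] at h2
      exact hsq.ne_zero h2
    have hlcm : Nat.lcm (∏ l ∈ A, l) (∏ l ∈ (d.primeFactors \ A) ∪ C, l) = d := by
      have h3 := genB_lcm hg0 hh0
      have h4 : Squarefree (Nat.lcm (∏ l ∈ A, l) (∏ l ∈ (d.primeFactors \ A) ∪ C, l)) :=
        hsq.squarefree_of_dvd (Nat.lcm_dvd h1 h2)
      rw [← Nat.prod_primeFactors_of_squarefree h4, h3, e1, e2]
      conv_rhs => rw [← hdp]
      congr 1
      ext l
      simp only [mem_union, Finset.mem_sdiff]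
      constructor
      · rintro (h | ⟨h, _⟩ | h)
        · exact hA h
        · exact h
        · exact hA (hC h)
      · intro h
        by_cases hl : l ∈ A
        · exact Or.inl hl
        · exact Or.inr (Or.inl ⟨h, hl⟩)
    have hint : A ∩ ((d.primeFactors \ A) ∪ C) = C := by
      ext l
      simp only [mem_inter, mem_union, Finset.mem_sdiff]
      constructor
      · rintro ⟨h3, ⟨_, h4⟩ | h4⟩
        · exact absurd h3 h4
        · exact h4
      · intro h
        exact ⟨hC h, Or.inr h⟩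
    unfold genB_k
    rw [e1, e2, hlcm, hint, if_pos hAw]
    ring

/-! ### Classes -/

/-- residue classes of the roots of two -/
def genB_Cl (g : ℕ) : Finset ℕ := (range g).filter (fun a => a.Coprime g ∧ (a ^ 2) % g = 2 % g)

theorem genB_cop {g q w z y : ℕ} (hw : ∀ l ∈ g.primeFactors, l ≤ w) (hwz : w ≤ z) (hg : g ≠ 0)
    (hq : bt z y q ≠ 0) : q.Coprime g := by
  classical
  have ht : Tri z y q := by
    by_contra hcon
    apply hq
    unfold bt
    rw [if_neg hcon]
  obtain ⟨p₁, p₂, p₃, h1, h2, h3, hz, h12, hy, h23, rfl⟩ := ht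
  have hp : ∀ p : ℕ, p.Prime → z < p → p.Coprime g := by
    intro p hp hzp
    rw [Nat.Prime.coprime_iff_not_dvd hp]
    intro hd
    have := hw p (Nat.mem_primeFactors.2 ⟨hp, hd, hg⟩)
    omega
  exact Nat.Coprime.mul_left (Nat.Coprime.mul_left (hp p₁ h1 hz) (hp p₂ h2 (by omega)))
    (hp p₃ h3 (by omega))

theorem genB_RB (η : ℝ → ℝ) (N m n : ℕ) {g h w z y : ℕ} (hw : ∀ l ∈ g.primeFactors, l ≤ w)
    (hwz : w ≤ z) (hg : g ≠ 0) :
    ∑ q ∈ (range (N + 1)).filter (fun q => (q ^ 2) % g = 2 % g), bt z y q * η ((q : ℝ) / N) *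
      (((range m).filter (fun r => h ∣ n - m * q - r)).card : ℝ) =
      ∑ a ∈ genB_Cl g, RB η N z y m n g a h := by
  classical
  unfold RB
  have hsq : ∀ q : ℕ, ((q % g) ^ 2) % g = (q ^ 2) % g := fun q => (Nat.pow_mod q 2 g).symm
  have hco : ∀ q : ℕ, (q % g).Coprime g ↔ q.Coprime g := fun q => by
    have h1 : (q % g).gcd g = q.gcd g := (Nat.mod_modEq q g).gcd_eq
    unfold Nat.Coprime
    rw [h1]
  have e1 : ∑ q ∈ (range (N + 1)).filter (fun q => (q ^ 2) % g = 2 % g),
      bt z y q * η ((q : ℝ) / N) *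
        (((range m).filter (fun r => h ∣ n - m * q - r)).card : ℝ) =
      ∑ q ∈ (range (N + 1)).filter (fun q => q.Coprime g ∧ (q ^ 2) % g = 2 % g),
        bt z y q * η ((q : ℝ) / N) *
          (((range m).filter (fun r => h ∣ n - m * q - r)).card : ℝ) := by
    symm
    apply sum_subset
    · intro q hq
      rw [mem_filter] at hq ⊢
      exact ⟨hq.1, hq.2.2⟩
    · intro q hq hq'
      rw [mem_filter] at hq hq'
      by_contra hne
      have h1 : bt z y q ≠ 0 := left_ne_zero_of_mul (left_ne_zero_of_mul hne)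
      exact hq' ⟨hq.1, genB_cop hw hwz hg h1, hq.2⟩
  rw [e1]
  have hmaps : ∀ q ∈ (range (N + 1)).filter (fun q => q.Coprime g ∧ (q ^ 2) % g = 2 % g),
      q % g ∈ genB_Cl g := by
    intro q hq
    rw [mem_filter] at hq
    unfold genB_Cl
    rw [mem_filter, mem_range, hco, hsq]
    exact ⟨Nat.mod_lt q (Nat.pos_of_ne_zero hg), hq.2⟩
  rw [← Finset.sum_fiberwise_of_maps_to hmaps]
  refine sum_congr rfl fun a ha => ?_
  unfold genB_Cl at ha
  rw [mem_filter, mem_range] at ha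
  refine sum_congr ?_ fun _ _ => rfl
  ext q
  simp only [mem_filter]
  constructor
  · rintro ⟨⟨h1, h2⟩, h3⟩
    exact ⟨h1, by rw [h3, Nat.mod_eq_of_lt ha.1]⟩
  · rintro ⟨h1, h3⟩
    rw [Nat.mod_eq_of_lt ha.1] at h3
    refine ⟨⟨h1, ?_, ?_⟩, h3⟩
    · rw [← hco, h3]; exact ha.2.1
    · rw [← hsq, h3]; exact ha.2.2

theorem genB_Clcard {g w : ℕ} (hgs : Squarefree g) (hw : ∀ l ∈ g.primeFactors, l ≤ w) :
    ((genB_Cl g).card : ℝ) = ∏ l ∈ g.primeFactors, sT w l := by
  have h := Pool.Agent.GBQ.thm_Crt g.primeFactors (fun l => densT_R w l)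
    (fun p hp => Nat.prime_of_mem_primeFactors hp) (fun p _ => filter_subset _ _)
  rw [Nat.prod_primeFactors_of_squarefree hgs] at h
  have h1 : genB_Cl g = (range g).filter (fun a => ∀ l ∈ g.primeFactors, a % l ∈ densT_R w l) := by
    ext a
    unfold genB_Cl
    rw [mem_filter, mem_filter]
    refine and_congr_right fun _ => ?_
    have h2 : a.Coprime g ↔ ∀ l ∈ g.primeFactors, ¬ l ∣ a := by
      conv_lhs => rw [← Nat.prod_primeFactors_of_squarefree hgs]
      rw [Nat.coprime_prod_right_iff]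
      refine forall₂_congr fun l hl => ?_
      rw [Nat.coprime_comm, Nat.Prime.coprime_iff_not_dvd (Nat.prime_of_mem_primeFactors hl)]
    rw [h2, genB_mod hgs, ← forall₂_and]
    refine forall₂_congr fun l hl => ?_
    unfold densT_R
    rw [mem_filter, mem_range]
    have h3 : a % l < l := Nat.mod_lt a (Nat.prime_of_mem_primeFactors hl).pos
    have h4 : ((a % l) ^ 2) % l = (a ^ 2) % l := (Nat.pow_mod a 2 l).symm
    rw [h4, Nat.dvd_iff_mod_eq_zero]
    constructor
    · rintro ⟨h5, h6⟩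
      exact ⟨h3, h5, hw l hl, h6⟩
    · rintro ⟨_, h5, _, h6⟩
      exact ⟨h5, h6⟩
  rw [h1, h]
  push_cast
  rfl

theorem genB_tot {g : ℕ} (hgs : Squarefree g) :
    (g.totient : ℝ) = ∏ l ∈ g.primeFactors, ((l : ℝ) - 1) := by
  have h := Nat.totient_mul_prod_primeFactors g
  rw [Nat.prod_primeFactors_of_squarefree hgs, mul_comm] at h
  have h1 := Nat.eq_of_mul_eq_mul_left (Nat.pos_of_ne_zero hgs.ne_zero) h
  rw [h1, Nat.cast_prod]
  refine prod_congr rfl fun l hl => ?_
  rw [Nat.cast_sub (Nat.prime_of_mem_primeFactors hl).one_lt.le, Nat.cast_one]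

theorem genB_inv {h : ℕ} (hs : Squarefree h) :
    ∏ l ∈ h.primeFactors, (1 / (l : ℝ)) = 1 / (h : ℝ) := by
  rw [prod_div_distrib, prod_const_one]
  congr 1
  have h1 := Nat.prod_primeFactors_of_squarefree hs
  conv_rhs => rw [← h1]
  push_cast
  rfl

theorem genB_harm (F : ℕ) :
    ∑ h ∈ (Icc 1 F).filter Squarefree, 1 / (h : ℝ) ≤ 1 + Real.log F := by
  have h1 := harmonic_le_one_add_log F
  refine le_trans ?_ h1
  unfold harmonic
  push_cast
  refine (sum_le_sum_of_subset_of_nonneg (filter_subset _ _) fun i _ _ => by positivity).trans ?_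
  have h2 : Icc 1 F = Ico 1 (F + 1) := by
    ext i
    simp only [mem_Icc, mem_Ico]
    omega
  rw [h2, Finset.sum_Ico_eq_sum_range, Nat.add_sub_cancel]
  refine le_of_eq (sum_congr rfl fun i _ => ?_)
  rw [one_div]
  push_cast
  rw [add_comm]

/-- keep this signature -/
theorem thm_GenB (_h4 : St_DensT) : St_GenB := by
  classical
  intro η hη N m n w z y y' F G c hwz hwy hc hc3
  have hcP : ∀ d, c d ≠ 0 → Squarefree d ∧ d.primeFactors ⊆ pr y' ∧ d ≤ F := by
    intro d hd
    obtain ⟨h1, h2, h3, _⟩ := hc d hd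
    refine ⟨h1, fun l hl => ?_, h3⟩
    unfold pr
    rw [mem_filter, mem_range]
    exact ⟨by have := h2 l hl; omega, Nat.prime_of_mem_primeFactors hl⟩
  have hcG : ∀ d, c d ≠ 0 → Squarefree d ∧ d ≤ F ∧ smp w d ≤ G := fun d hd =>
    ⟨(hc d hd).1, (hc d hd).2.2.1, (hc d hd).2.2.2⟩
  have hprP : ∀ l ∈ pr y', l.Prime := fun l hl => (mem_filter.1 hl).2
  -- one pair
  have hpair : ∀ q x : ℕ,
      ∑ T ∈ ((pr y').filter (fun l => (l ≤ w ∧ (q ^ 2) % l = 2 % l) ∨ l ∣ x)).powerset,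
        c (∏ l ∈ T, l) =
      ∑ g ∈ (Icc 1 G).filter Squarefree, ∑ h ∈ (Icc 1 F).filter Squarefree,
        genB_k w c g h * ((if (q ^ 2) % g = 2 % g then (1 : ℝ) else 0) *
          (if h ∣ x then (1 : ℝ) else 0)) := by
    intro q x
    rw [genB_powerset hprP (filter_subset _ _) hcP, sum_filter]
    have e1 : ∀ d ∈ Icc 1 F, (if d.primeFactors ⊆
        (pr y').filter (fun l => (l ≤ w ∧ (q ^ 2) % l = 2 % l) ∨ l ∣ x) then c d else 0) =
        c d * ∏ l ∈ d.primeFactors,
          ((if (l ≤ w ∧ (q ^ 2) % l = 2 % l) then (1 : ℝ) else 0) +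
            (if l ∣ x then (1 : ℝ) else 0) -
            (if (l ≤ w ∧ (q ^ 2) % l = 2 % l) then (1 : ℝ) else 0) *
            (if l ∣ x then (1 : ℝ) else 0)) := by
      intro d _
      by_cases hcd : c d = 0
      · rw [hcd]; simp
      have h2 := (hcP d hcd).2.1
      have h3 : ∀ l, ((if (l ≤ w ∧ (q ^ 2) % l = 2 % l) then (1 : ℝ) else 0) +
            (if l ∣ x then (1 : ℝ) else 0) -
            (if (l ≤ w ∧ (q ^ 2) % l = 2 % l) then (1 : ℝ) else 0) *
            (if l ∣ x then (1 : ℝ) else 0)) =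
            if (l ≤ w ∧ (q ^ 2) % l = 2 % l) ∨ l ∣ x then (1 : ℝ) else 0 := by
        intro l
        by_cases ha : l ≤ w ∧ (q ^ 2) % l = 2 % l <;> by_cases hb : l ∣ x <;> simp [ha, hb]
      simp only [h3]
      by_cases hall : d.primeFactors ⊆
        (pr y').filter (fun l => (l ≤ w ∧ (q ^ 2) % l = 2 % l) ∨ l ∣ x)
      · rw [if_pos hall, prod_congr rfl (fun l hl => if_pos (mem_filter.1 (hall hl)).2)]
        simp
      · rw [if_neg hall]
        obtain ⟨l, hl, hl2⟩ := not_subset.1 hall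
        have hl3 : ¬ ((l ≤ w ∧ (q ^ 2) % l = 2 % l) ∨ l ∣ x) := fun hcon =>
          hl2 (mem_filter.2 ⟨h2 hl, hcon⟩)
        rw [prod_eq_zero hl (if_neg hl3), mul_zero]
    rw [sum_congr rfl e1, genB_id w F G c hcG _ _ (fun l hl => by
      rw [if_neg]; rintro ⟨h5, _⟩; omega)]
    refine sum_congr rfl fun g hg => sum_congr rfl fun h hh => ?_
    rw [mem_filter] at hg hh
    by_cases hk : ∀ l ∈ g.primeFactors, l ≤ w
    · have e2 : ∏ l ∈ g.primeFactors, (if (l ≤ w ∧ (q ^ 2) % l = 2 % l) then (1 : ℝ) else 0) =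
          if (q ^ 2) % g = 2 % g then (1 : ℝ) else 0 := by
        by_cases hq : (q ^ 2) % g = 2 % g
        · rw [if_pos hq]
          refine prod_eq_one fun l hl => if_pos ⟨hk l hl, (genB_mod hg.2).1 hq l hl⟩
        · rw [if_neg hq]
          have h5 : ¬ ∀ l ∈ g.primeFactors, (q ^ 2) % l = 2 % l := fun h6 =>
            hq ((genB_mod hg.2).2 h6)
          push Not at h5
          obtain ⟨l, hl, hl2⟩ := h5
          exact prod_eq_zero hl (if_neg fun h6 => hl2 h6.2)
      have e3 : ∏ l ∈ h.primeFactors, (if l ∣ x then (1 : ℝ) else 0) =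
          if h ∣ x then (1 : ℝ) else 0 := by
        by_cases hq : h ∣ x
        · rw [if_pos hq]
          refine prod_eq_one fun l hl => if_pos ((genB_dvd hh.2).1 hq l hl)
        · rw [if_neg hq]
          have h5 : ¬ ∀ l ∈ h.primeFactors, l ∣ x := fun h6 => hq ((genB_dvd hh.2).2 h6)
          push Not at h5
          obtain ⟨l, hl, hl2⟩ := h5
          exact prod_eq_zero hl (if_neg hl2)
      rw [e2, e3]
    · have e2 : genB_k w c g h = 0 := by
        unfold genB_k
        rw [if_neg hk]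
      rw [e2, zero_mul, zero_mul]
  -- the sum
  have hS : ∑ q ∈ range (N + 1), bt z y q * η ((q : ℝ) / N) * ∑ r ∈ range m,
      ∑ T ∈ ((pr y').filter (fun l => (l ≤ w ∧ (q ^ 2) % l = 2 % l) ∨
        l ∣ n - m * q - r)).powerset, c (∏ l ∈ T, l) =
      ∑ g ∈ (Icc 1 G).filter Squarefree, ∑ h ∈ (Icc 1 F).filter Squarefree,
        genB_k w c g h * ∑ a ∈ genB_Cl g, RB η N z y m n g a h := by
    have e1 : ∀ q ∈ range (N + 1), bt z y q * η ((q : ℝ) / N) * ∑ r ∈ range m,
        ∑ T ∈ ((pr y').filter (fun l => (l ≤ w ∧ (q ^ 2) % l = 2 % l) ∨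
          l ∣ n - m * q - r)).powerset, c (∏ l ∈ T, l) =
        ∑ g ∈ (Icc 1 G).filter Squarefree, ∑ h ∈ (Icc 1 F).filter Squarefree,
          genB_k w c g h * (if (q ^ 2) % g = 2 % g then bt z y q * η ((q : ℝ) / N) *
            (((range m).filter (fun r => h ∣ n - m * q - r)).card : ℝ) else 0) := by
      intro q _
      simp only [hpair]
      rw [sum_comm, mul_sum]
      refine sum_congr rfl fun g _ => ?_
      rw [sum_comm, mul_sum]
      refine sum_congr rfl fun h _ => ?_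
      rw [← mul_sum, ← mul_sum, ← sum_filter, sum_const, nsmul_eq_mul, mul_one]
      split_ifs <;> ring
    rw [sum_congr rfl e1, sum_comm]
    refine sum_congr rfl fun g hg => ?_
    rw [sum_comm]
    refine sum_congr rfl fun h _ => ?_
    rw [← mul_sum]
    rw [mem_filter] at hg
    by_cases hk : ∀ l ∈ g.primeFactors, l ≤ w
    · rw [← sum_filter, genB_RB η N m n hk hwz hg.2.ne_zero]
    · have e2 : genB_k w c g h = 0 := by
        unfold genB_k
        rw [if_neg hk]
      rw [e2, zero_mul, zero_mul]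
  -- the main term
  have hM : (m : ℝ) * B0 η N z y * ∑ d ∈ Icc 1 F, c d * ∏ l ∈ d.primeFactors, gT w l =
      ∑ g ∈ (Icc 1 G).filter Squarefree, ∑ h ∈ (Icc 1 F).filter Squarefree,
        genB_k w c g h * ∑ _a ∈ genB_Cl g, (m : ℝ) / h * (B0 η N z y / (g.totient : ℝ)) := by
    have e1 : ∀ d ∈ Icc 1 F, c d * ∏ l ∈ d.primeFactors, gT w l =
        c d * ∏ l ∈ d.primeFactors, (sT w l / ((l : ℝ) - 1) + 1 / (l : ℝ) -
          sT w l / ((l : ℝ) - 1) * (1 / (l : ℝ))) := by
      intro d _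
      congr 1
      refine prod_congr rfl fun l hl => ?_
      have hlp := Nat.prime_of_mem_primeFactors hl
      have hl2 : (2 : ℝ) ≤ l := by exact_mod_cast hlp.two_le
      rw [densT_gT w l hlp]
      have h1 : (l : ℝ) - 1 ≠ 0 := by linarith
      have h2 : (l : ℝ) ≠ 0 := by linarith
      field_simp
      ring
    rw [sum_congr rfl e1, genB_id w F G c hcG _ _ (fun l hl => by
      rw [densT_sT, densT_large w l hl]; simp), mul_sum]
    refine sum_congr rfl fun g hg => ?_
    rw [mul_sum]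
    refine sum_congr rfl fun h hh => ?_
    rw [mem_filter] at hg hh
    by_cases hk : ∀ l ∈ g.primeFactors, l ≤ w
    · rw [sum_const, nsmul_eq_mul, genB_Clcard hg.2 hk, genB_tot hg.2, genB_inv hh.2,
        prod_div_distrib]
      ring
    · have e2 : genB_k w c g h = 0 := by
        unfold genB_k
        rw [if_neg hk]
      rw [e2]
      ring
  rw [hS, hM, ← sum_sub_distrib, mul_sum]
  refine (abs_sum_le_sum_abs _ _).trans (sum_le_sum fun g hg => ?_)
  rw [← sum_sub_distrib]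
  refine (abs_sum_le_sum_abs _ _).trans ?_
  -- one pair of moduli
  have hone : ∀ h ∈ (Icc 1 F).filter Squarefree,
      |genB_k w c g h * ∑ a ∈ genB_Cl g, RB η N z y m n g a h -
        genB_k w c g h * ∑ _a ∈ genB_Cl g, (m : ℝ) / h * (B0 η N z y / (g.totient : ℝ))| ≤
      ∑ a ∈ genB_Cl g, 3 * (|RB η N z y m n g a h - (m : ℝ) / h * BAP η N z y g a| +
        (m : ℝ) * (1 / (h : ℝ)) * |BAP η N z y g a - B0 η N z y / (g.totient : ℝ)|) := by
    intro h _
    rw [← mul_sub, ← sum_sub_distrib, abs_mul, ← mul_sum]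
    refine mul_le_mul (genB_k_abs w c hc3 g h) ?_ (abs_nonneg _) (by norm_num)
    refine (abs_sum_le_sum_abs _ _).trans (sum_le_sum fun a _ => ?_)
    have e1 : RB η N z y m n g a h - (m : ℝ) / h * (B0 η N z y / (g.totient : ℝ)) =
        (RB η N z y m n g a h - (m : ℝ) / h * BAP η N z y g a) +
        (m : ℝ) * (1 / (h : ℝ)) * (BAP η N z y g a - B0 η N z y / (g.totient : ℝ)) := by ring
    rw [e1]
    refine (abs_add_le _ _).trans (add_le_add le_rfl ?_)
    rw [abs_mul, abs_of_nonneg (by positivity : (0 : ℝ) ≤ (m : ℝ) * (1 / (h : ℝ)))]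
  refine (sum_le_sum hone).trans ?_
  rw [sum_comm, mul_sum]
  refine sum_le_sum fun a _ => ?_
  rw [← mul_sum, sum_add_distrib]
  refine mul_le_mul_of_nonneg_left (add_le_add le_rfl ?_) (by norm_num)
  rw [← sum_mul, ← mul_sum]
  refine mul_le_mul_of_nonneg_right ?_ (abs_nonneg _)
  exact mul_le_mul_of_nonneg_left (genB_harm F) (Nat.cast_nonneg m)

end Pool.Agent.CV
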