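import Mathlib
import Pool.Agent.CV.Stmts
import Pool.Agent.GBQ.Crt

set_option autoImplicit false

/-!
# CV / GenZ

The sieve sum is a sum over the squarefree `f`; `f = g d` where `g` is composed of primes up to `w`
and `d` of larger primes.  The `q` with `q % l ∈ OmZ w m l` for all `l ∣ f` are the multiples of `d`
in the classes modulo `g` given by `OmT w`, and there are none if `(d, m) > 1`.
-/

namespace Pool.Agent.CV

open Finset Filter Pool.Agent.MT Pool.Agent.CH Pool.Agent.CU

/-- the classes modulo `g` -/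
private def genZ_Cl (w g : ℕ) : Finset ℕ :=
  (range g).filter (fun a => ∀ l ∈ g.primeFactors, a % l ∈ OmT w l)

/-- the part composed of primes beyond `w` -/
private def genZ_big (w f : ℕ) : ℕ := ∏ p ∈ f.primeFactors.filter (fun p => ¬ p ≤ w), p

private lemma genZ_mul {w f : ℕ} (hf : Squarefree f) : smp w f * genZ_big w f = f := by
  unfold smp genZ_big
  rw [prod_filter_mul_prod_filter_not, Nat.prod_primeFactors_of_squarefree hf]

private lemma genZ_pf_smp (w f : ℕ) :
    (smp w f).primeFactors = f.primeFactors.filter (fun p => p ≤ w) := by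
  unfold smp
  exact Nat.primeFactors_prod fun p hp => Nat.prime_of_mem_primeFactors (mem_filter.1 hp).1

private lemma genZ_pf_big (w f : ℕ) :
    (genZ_big w f).primeFactors = f.primeFactors.filter (fun p => ¬ p ≤ w) := by
  unfold genZ_big
  exact Nat.primeFactors_prod fun p hp => Nat.prime_of_mem_primeFactors (mem_filter.1 hp).1

private lemma genZ_card_Cl {w g : ℕ} (hg : Squarefree g) :
    ((genZ_Cl w g).card : ℝ) = ∏ l ∈ g.primeFactors, ((OmT w l).card : ℝ) := by
  have h := Pool.Agent.GBQ.thm_Crt g.primeFactors (OmT w)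
    (fun p hp => Nat.prime_of_mem_primeFactors hp) (fun l _ => by
      unfold OmT
      exact filter_subset _ _)
  rw [Nat.prod_primeFactors_of_squarefree hg] at h
  unfold genZ_Cl
  rw [h]
  push_cast
  rfl

/-- powerset sum as a sum over squarefree numbers -/
private lemma genZ_powerset {c : ℕ → ℝ} {P S : Finset ℕ} {D : ℕ} (hP : ∀ l ∈ P, l.Prime)
    (hS : S ⊆ P) (hc : ∀ d, c d ≠ 0 → Squarefree d ∧ d ≤ D) :
    ∑ T ∈ S.powerset, c (∏ l ∈ T, l) =
      ∑ d ∈ (Icc 1 D).filter (fun d => d.primeFactors ⊆ S), c d := by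
  have hprimes : ∀ T ∈ S.powerset, ∀ l ∈ T, l.Prime := fun T hT l hl =>
    hP l (hS (mem_powerset.1 hT hl))
  refine Finset.sum_bij_ne_zero (fun T _ _ => ∏ l ∈ T, l) ?_ ?_ ?_ ?_
  · intro T hT hne
    obtain ⟨h1, h3⟩ := hc _ hne
    rw [mem_filter, mem_Icc]
    refine ⟨⟨Nat.one_le_iff_ne_zero.2 h1.ne_zero, h3⟩, ?_⟩
    rw [Nat.primeFactors_prod (hprimes T hT)]
    exact mem_powerset.1 hT
  · intro T hT _ T' hT' _ hEq
    have := congrArg Nat.primeFactors hEq
    rwa [Nat.primeFactors_prod (hprimes T hT), Nat.primeFactors_prod (hprimes T' hT')] at this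
  · intro d hd hne
    rw [mem_filter] at hd
    obtain ⟨h1, h3⟩ := hc _ hne
    refine ⟨d.primeFactors, mem_powerset.2 hd.2, ?_, Nat.prod_primeFactors_of_squarefree h1⟩
    rwa [Nat.prod_primeFactors_of_squarefree h1]
  · intro T _ _
    rfl

private lemma genZ_mem_large {w l q : ℕ} (hl : l.Prime) (hw : w < l) :
    q % l ∈ OmT w l ↔ l ∣ q := by
  unfold OmT
  rw [mem_filter, mem_range, Nat.dvd_iff_mod_eq_zero]
  constructor
  · rintro ⟨_, h | h⟩
    · exact h
    · omega
  · intro h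
    exact ⟨Nat.mod_lt _ hl.pos, Or.inl h⟩

private lemma genZ_card_large {w l : ℕ} (hl : l.Prime) (hw : w < l) : (OmT w l).card = 1 := by
  have h : OmT w l = {0} := by
    ext c
    unfold OmT
    rw [mem_filter, mem_range, mem_singleton]
    constructor
    · rintro ⟨_, h | h⟩
      · exact h
      · omega
    · intro h
      exact ⟨h ▸ hl.pos, Or.inl h⟩
  rw [h, card_singleton]

/-- the sum over the `q`, split by the class modulo `g` -/
private lemma genZ_split (η : ℝ → ℝ) (N m n w g d : ℕ) (hg : g ≠ 0) :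
    ∑ q ∈ (range (N + 1)).filter (fun q => (∀ l ∈ g.primeFactors, q % l ∈ OmT w l) ∧ d ∣ q),
      tl η N m n q = ∑ a ∈ genZ_Cl w g, TZ η N m n g a d := by
  have hmod : ∀ q : ℕ, ∀ l ∈ g.primeFactors, (q % g) % l = q % l := fun q l hl =>
    Nat.mod_mod_of_dvd q (Nat.dvd_of_mem_primeFactors hl)
  have hmaps : ∀ q ∈ (range (N + 1)).filter
      (fun q => (∀ l ∈ g.primeFactors, q % l ∈ OmT w l) ∧ d ∣ q), q % g ∈ genZ_Cl w g := by
    intro q hq
    rw [mem_filter] at hq
    unfold genZ_Cl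
    rw [mem_filter, mem_range]
    refine ⟨Nat.mod_lt q (Nat.pos_of_ne_zero hg), fun l hl => ?_⟩
    rw [hmod q l hl]
    exact hq.2.1 l hl
  rw [← Finset.sum_fiberwise_of_maps_to hmaps]
  refine Finset.sum_congr rfl fun a ha => ?_
  unfold TZ
  refine Finset.sum_congr ?_ fun _ _ => rfl
  ext q
  unfold genZ_Cl at ha
  rw [mem_filter, mem_range] at ha
  simp only [mem_filter]
  rw [Nat.mod_eq_of_lt ha.1]
  constructor
  · rintro ⟨⟨h1, _, h2⟩, h3⟩
    exact ⟨h1, h3, h2⟩
  · rintro ⟨h1, h3, h2⟩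
    refine ⟨⟨h1, fun l hl => ?_, h2⟩, h3⟩
    rw [← hmod q l hl, h3]
    exact ha.2 l hl

/-- the sum over the `q` for one squarefree number `f` -/
private lemma genZ_one (η : ℝ → ℝ) (N m n w z p f : ℕ) (hp : p = 1 ∨ (p.Prime ∧ z < p))
    (hf : Squarefree f) (hfz : ∀ l ∈ f.primeFactors, l ≤ z)
    (hm : ∀ l ∈ f.primeFactors, w < l → ¬ l ∣ m) :
    ∑ q ∈ (range (N + 1)).filter (fun q => p ∣ q ∧ ∀ l ∈ f.primeFactors, q % l ∈ OmZ w m l),
      tl η N m n q = ∑ a ∈ genZ_Cl w (smp w f), TZ η N m n (smp w f) a (p * genZ_big w f) := by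
  have hg : smp w f ≠ 0 := by
    intro h
    have h1 := genZ_mul (w := w) hf
    rw [h, zero_mul] at h1
    exact hf.ne_zero h1.symm
  rw [← genZ_split η N m n w (smp w f) (p * genZ_big w f) hg]
  refine sum_congr ?_ fun _ _ => rfl
  apply filter_congr
  intro q _
  have hcop : p.Coprime (genZ_big w f) := by
    rcases hp with hp | ⟨hp, hzp⟩
    · rw [hp]
      exact Nat.coprime_one_left _
    · rw [hp.coprime_iff_not_dvd]
      intro h
      have h0 : genZ_big w f ≠ 0 := by
        intro h0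
        have h1 := genZ_mul (w := w) hf
        rw [h0, mul_zero] at h1
        exact hf.ne_zero h1.symm
      have h1 : p ∈ (genZ_big w f).primeFactors := Nat.mem_primeFactors.2 ⟨hp, h, h0⟩
      rw [genZ_pf_big, mem_filter] at h1
      have := hfz p h1.1
      omega
  constructor
  · rintro ⟨h1, h2⟩
    refine ⟨?_, hcop.mul_dvd_of_dvd_of_dvd h1 ?_⟩
    · intro l hl
      rw [genZ_pf_smp, mem_filter] at hl
      have h3 := h2 l hl.1
      unfold OmZ at h3
      rwa [if_neg (by rintro ⟨h4, _⟩; omega)] at h3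
    · unfold genZ_big
      apply Finset.prod_primes_dvd
      · intro l hl
        exact (Nat.prime_of_mem_primeFactors (mem_filter.1 hl).1).prime
      · intro l hl
        rw [mem_filter] at hl
        have h3 := h2 l hl.1
        unfold OmZ at h3
        rw [if_neg (fun h4 => hm l hl.1 h4.1 h4.2)] at h3
        exact (genZ_mem_large (Nat.prime_of_mem_primeFactors hl.1) (by omega)).1 h3
  · rintro ⟨h1, h2⟩
    refine ⟨(dvd_mul_right p _).trans h2, ?_⟩
    intro l hl
    unfold OmZ
    rw [if_neg (fun h4 => hm l hl h4.1 h4.2)]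
    by_cases hlw : l ≤ w
    · exact h1 l (by rw [genZ_pf_smp, mem_filter]; exact ⟨hl, hlw⟩)
    · rw [genZ_mem_large (Nat.prime_of_mem_primeFactors hl) (by omega)]
      refine Dvd.dvd.trans ?_ ((dvd_mul_left _ p).trans h2)
      unfold genZ_big
      exact dvd_prod_of_mem (fun p => p) (mem_filter.2 ⟨hl, hlw⟩)

/-- the density for one squarefree number `f` -/
private lemma genZ_dens (w m f : ℕ) (hf : Squarefree f)
    (hm : ∀ l ∈ f.primeFactors, w < l → ¬ l ∣ m) :
    ∏ l ∈ f.primeFactors, gZ w m l =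
      ((genZ_Cl w (smp w f)).card : ℝ) / ((smp w f : ℝ) * (genZ_big w f : ℝ)) := by
  have hgs : Squarefree (smp w f) := by
    refine hf.squarefree_of_dvd ?_
    exact Dvd.intro _ (genZ_mul (w := w) hf)
  rw [genZ_card_Cl hgs, genZ_pf_smp]
  have h1 : ∏ l ∈ f.primeFactors, gZ w m l =
      (∏ l ∈ f.primeFactors.filter (fun p => p ≤ w), gZ w m l) *
        ∏ l ∈ f.primeFactors.filter (fun p => ¬ p ≤ w), gZ w m l := by
    rw [prod_filter_mul_prod_filter_not]
  have h2 : ∏ l ∈ f.primeFactors.filter (fun p => p ≤ w), gZ w m l =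
      (∏ l ∈ f.primeFactors.filter (fun p => p ≤ w), ((OmT w l).card : ℝ)) / (smp w f : ℝ) := by
    unfold smp
    rw [Nat.cast_prod, ← prod_div_distrib]
    refine prod_congr rfl fun l hl => ?_
    rw [mem_filter] at hl
    unfold gZ OmZ
    rw [if_neg (by rintro ⟨h4, _⟩; omega)]
  have h3 : ∏ l ∈ f.primeFactors.filter (fun p => ¬ p ≤ w), gZ w m l =
      1 / (genZ_big w f : ℝ) := by
    unfold genZ_big
    rw [Nat.cast_prod, one_div, ← prod_inv_distrib]
    refine prod_congr rfl fun l hl => ?_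
    rw [mem_filter] at hl
    unfold gZ OmZ
    rw [if_neg (fun h4 => hm l hl.1 h4.1 h4.2),
      genZ_card_large (Nat.prime_of_mem_primeFactors hl.1) (by omega), Nat.cast_one, one_div]
  rw [h1, h2, h3, div_mul_div_comm, mul_one]

/-- keep this signature -/
theorem thm_GenZ : St_GenZ := by
  classical
  intro η N m n w z F G p c hp hwz hc hc3
  have _ := hwz
  -- exchange
  have h1 : ∑ q ∈ (range (N + 1)).filter (fun q => p ∣ q), tl η N m n q *
      ∑ T ∈ ((pr z).filter (fun l => q % l ∈ OmZ w m l)).powerset, c (∏ l ∈ T, l) =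
      ∑ f ∈ Icc 1 F, c f * ∑ q ∈ (range (N + 1)).filter
        (fun q => p ∣ q ∧ ∀ l ∈ f.primeFactors, q % l ∈ OmZ w m l), tl η N m n q := by
    have hprime : ∀ l ∈ pr z, l.Prime := fun l hl => (mem_filter.1 hl).2
    have e1 : ∀ q ∈ (range (N + 1)).filter (fun q => p ∣ q), tl η N m n q *
        ∑ T ∈ ((pr z).filter (fun l => q % l ∈ OmZ w m l)).powerset, c (∏ l ∈ T, l) =
        ∑ f ∈ Icc 1 F, if (∀ l ∈ f.primeFactors, q % l ∈ OmZ w m l) then
          c f * tl η N m n q else 0 := by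
      intro q _
      rw [genZ_powerset hprime (filter_subset _ _) (D := F)
        (fun d hd => ⟨(hc d hd).1, (hc d hd).2.2.1⟩), mul_sum, sum_filter]
      refine sum_congr rfl fun d _ => ?_
      by_cases hcd : c d = 0
      · rw [hcd]
        simp
      · obtain ⟨_, h2, _⟩ := hc d hcd
        have : d.primeFactors ⊆ (pr z).filter (fun l => q % l ∈ OmZ w m l) ↔
            ∀ l ∈ d.primeFactors, q % l ∈ OmZ w m l := by
          constructor
          · intro h l hl
            exact (mem_filter.1 (h hl)).2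
          · intro h l hl
            refine mem_filter.2 ⟨?_, h l hl⟩
            unfold pr
            rw [mem_filter, mem_range]
            exact ⟨Nat.lt_succ_of_le (h2 l hl), Nat.prime_of_mem_primeFactors hl⟩
        simp only [this]
        split_ifs
        · ring
        · rfl
    rw [sum_congr rfl e1, sum_comm]
    refine sum_congr rfl fun d _ => ?_
    rw [← sum_filter, mul_sum, filter_filter]
  set X0 : ℝ := psi0 (etaR η) (m * N) with hX0
  rw [h1, mul_sum, ← sum_sub_distrib]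
  set Φ : ℕ → ℕ → ℝ := fun g d => ∑ a ∈ genZ_Cl w g, EZ η N m n g a (p * d) with hΦ
  have hΦ0 : ∀ g d, 0 ≤ Φ g d := fun g d => sum_nonneg fun a _ => abs_nonneg _
  -- one term
  have h2 : ∀ f ∈ Icc 1 F, |c f * ∑ q ∈ (range (N + 1)).filter
        (fun q => p ∣ q ∧ ∀ l ∈ f.primeFactors, q % l ∈ OmZ w m l), tl η N m n q -
        X0 / p * (c f * ∏ l ∈ f.primeFactors, gZ w m l)| ≤
      if c f ≠ 0 ∧ ∀ l ∈ f.primeFactors, w < l → ¬ l ∣ m then
        3 * Φ (smp w f) (genZ_big w f) else 0 := by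
    intro f _
    by_cases hcf : c f = 0
    · rw [hcf, if_neg (fun h => h.1 rfl)]
      simp
    obtain ⟨hsq, hfz, _, _⟩ := hc f hcf
    by_cases hm : ∀ l ∈ f.primeFactors, w < l → ¬ l ∣ m
    · rw [if_pos ⟨hcf, hm⟩, genZ_one η N m n w z p f hp hsq hfz hm, genZ_dens w m f hsq hm]
      have e2 : c f * ∑ a ∈ genZ_Cl w (smp w f), TZ η N m n (smp w f) a (p * genZ_big w f) -
          X0 / p * (c f * (((genZ_Cl w (smp w f)).card : ℝ) /
            ((smp w f : ℝ) * (genZ_big w f : ℝ)))) =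
          c f * ∑ a ∈ genZ_Cl w (smp w f), (TZ η N m n (smp w f) a (p * genZ_big w f) -
            X0 / ((smp w f : ℝ) * ((p * genZ_big w f : ℕ) : ℝ))) := by
        rw [sum_sub_distrib, sum_const, nsmul_eq_mul]
        push_cast
        rw [mul_sub]
        congr 1
        rw [div_mul_eq_mul_div, div_eq_mul_inv, div_eq_mul_inv, div_eq_mul_inv, mul_inv, mul_inv,
          mul_inv]
        ring
      rw [e2, abs_mul]
      refine mul_le_mul (hc3 f) ?_ (abs_nonneg _) (by norm_num)
      refine (abs_sum_le_sum_abs _ _).trans (sum_le_sum fun a _ => ?_)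
      unfold EZ
      exact le_refl _
    · rw [if_neg (fun h => hm h.2)]
      push Not at hm
      obtain ⟨l, hl, hwl, hlm⟩ := hm
      have hOm : OmZ w m l = ∅ := by
        unfold OmZ
        rw [if_pos ⟨hwl, hlm⟩]
      have e3 : (range (N + 1)).filter
          (fun q => p ∣ q ∧ ∀ l ∈ f.primeFactors, q % l ∈ OmZ w m l) = ∅ := by
        rw [filter_eq_empty_iff]
        intro q _ h
        have := h.2 l hl
        rw [hOm] at this
        exact absurd this (notMem_empty _)
      have e4 : ∏ l ∈ f.primeFactors, gZ w m l = 0 := by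
        apply prod_eq_zero hl
        unfold gZ
        rw [hOm, card_empty]
        simp
      rw [e3, e4]
      simp
  refine (abs_sum_le_sum_abs _ _).trans ((sum_le_sum h2).trans ?_)
  rw [← sum_filter, ← mul_sum]
  refine mul_le_mul_of_nonneg_left ?_ (by norm_num)
  have h3 : ∑ g ∈ (Icc 1 G).filter Squarefree,
      ∑ a ∈ (range g).filter (fun a => ∀ l ∈ g.primeFactors, a % l ∈ OmT w l),
        ∑ d ∈ (ZD (m * g) w F).filter (fun d => ∀ l ∈ d.primeFactors, l ≤ z),
          EZ η N m n g a (p * d) =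
      ∑ x ∈ ((Icc 1 G).filter Squarefree).sigma
        (fun g => (ZD (m * g) w F).filter (fun d => ∀ l ∈ d.primeFactors, l ≤ z)),
        Φ x.1 x.2 := by
    rw [sum_sigma]
    refine sum_congr rfl fun g _ => ?_
    rw [sum_comm]
    rfl
  rw [h3]
  have h4 : ∑ f ∈ (Icc 1 F).filter
      (fun f => c f ≠ 0 ∧ ∀ l ∈ f.primeFactors, w < l → ¬ l ∣ m),
        Φ (smp w f) (genZ_big w f) =
      ∑ x ∈ ((Icc 1 F).filter
      (fun f => c f ≠ 0 ∧ ∀ l ∈ f.primeFactors, w < l → ¬ l ∣ m)).image
        (fun f => (⟨smp w f, genZ_big w f⟩ : (_ : ℕ) × ℕ)), Φ x.1 x.2 := by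
    rw [sum_image]
    intro f hf f' hf' hff
    rw [mem_coe, mem_filter] at hf hf'
    have a1 := genZ_mul (w := w) (hc f hf.2.1).1
    have a2 := genZ_mul (w := w) (hc f' hf'.2.1).1
    simp only [Sigma.mk.injEq, heq_eq_eq] at hff
    rw [← a1, ← a2, hff.1, hff.2]
  rw [h4]
  refine sum_le_sum_of_subset_of_nonneg ?_ fun x _ _ => hΦ0 _ _
  intro x hx
  rw [mem_image] at hx
  obtain ⟨f, hf, rfl⟩ := hx
  rw [mem_filter, mem_Icc] at hf
  obtain ⟨⟨hf1, hfF⟩, hcf, hm⟩ := hf
  obtain ⟨hsq, hfz, _, hG⟩ := hc f hcf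
  have hmul := genZ_mul (w := w) hsq
  have hgd : smp w f ∣ f := Dvd.intro _ hmul
  have hbd : genZ_big w f ∣ f := Dvd.intro_left _ hmul
  have hg0 : smp w f ≠ 0 := fun h => hsq.ne_zero (by rw [← hmul, h, zero_mul])
  have hb0 : genZ_big w f ≠ 0 := fun h => hsq.ne_zero (by rw [← hmul, h, mul_zero])
  rw [mem_sigma]
  simp only
  refine ⟨?_, ?_⟩
  · rw [mem_filter, mem_Icc]
    exact ⟨⟨Nat.one_le_iff_ne_zero.2 hg0, hG⟩, hsq.squarefree_of_dvd hgd⟩
  · rw [mem_filter]
    unfold ZD
    rw [mem_filter, mem_Icc]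
    refine ⟨⟨⟨Nat.one_le_iff_ne_zero.2 hb0, (Nat.le_of_dvd (by omega) hbd).trans hfF⟩,
      hsq.squarefree_of_dvd hbd, ?_, ?_⟩, ?_⟩
    · refine Nat.Coprime.mul_right ?_ ?_
      · apply Nat.coprime_of_dvd
        intro l hl hlb hlm
        have a1 : l ∈ (genZ_big w f).primeFactors := Nat.mem_primeFactors.2 ⟨hl, hlb, hb0⟩
        rw [genZ_pf_big, mem_filter] at a1
        exact hm l a1.1 (by omega) hlm
      · have a1 : Squarefree (smp w f * genZ_big w f) := by rwa [hmul]
        exact (Nat.coprime_of_squarefree_mul a1).symm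
    · intro l hl
      rw [genZ_pf_big, mem_filter] at hl
      omega
    · intro l hl
      rw [genZ_pf_big, mem_filter] at hl
      exact hfz l hl.1

end Pool.Agent.CV
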