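import Mathlib
import Pool.Agent.CV.Stmts
import Pool.Agent.CV.FamL
import Pool.Agent.Helper88.MD.Div

set_option autoImplicit false

/-!
# CV / J4

Fourth moment of the character sums over an interval of length `m`: all characters modulo `k` and
modulo `m g`, orthogonality, and the divisor bound.  The congruence modulo `m` fixes the fourth
variable, the remaining factor is counted by the divisors of `j₁ j₂ - j₃ j₄`.
-/

namespace Pool.Agent.CV

open Finset Filter Pool.Agent.MT Pool.Agent.CH Pool.Agent.CU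

/-- orthogonality -/
private lemma j4_orth {q : ℕ} [NeZero q] (a b : ZMod q) :
    ∑ χ : DirichletCharacter ℂ q, χ b * (starRingEnd ℂ) (χ a) =
      if IsUnit a ∧ b = a then (q.totient : ℂ) else 0 := by
  by_cases ha : IsUnit a
  · have key : ∀ χ : DirichletCharacter ℂ q, χ b * (starRingEnd ℂ) (χ a) = χ a⁻¹ * χ b := by
      intro χ
      have e1 : (starRingEnd ℂ) (χ a) = χ a⁻¹ := by
        have h1 := MulChar.star_apply' χ a
        rw [starRingEnd_apply, h1]
        obtain ⟨u, rfl⟩ := ha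
        rw [MulChar.inv_apply, Ring.inverse_unit, ZMod.inv_coe_unit]
      rw [e1, mul_comm]
    rw [Finset.sum_congr rfl fun χ _ => key χ, DirichletCharacter.sum_char_inv_mul_char_eq ℂ ha b]
    by_cases h : a = b
    · rw [if_pos h, if_pos ⟨ha, h.symm⟩]
    · rw [if_neg h, if_neg (fun hh => h hh.2.symm)]
  · rw [if_neg (fun hh => ha hh.1)]
    refine Finset.sum_eq_zero fun χ _ => ?_
    rw [χ.map_nonunit ha, map_zero, mul_zero]

/-- second moment over all pairs of characters -/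
private lemma j4_moment {k M : ℕ} [NeZero k] [NeZero M] {ι : Type*} [DecidableEq ι]
    (P : Finset ι) (a : ι → ZMod k) (b : ι → ZMod M) :
    ∑ χ : DirichletCharacter ℂ k, ∑ ψ : DirichletCharacter ℂ M,
      ‖∑ p ∈ P, χ (a p) * ψ (b p)‖ ^ 2 =
      (k.totient : ℝ) * M.totient * (((P ×ˢ P).filter (fun x =>
        (IsUnit (a x.2) ∧ a x.1 = a x.2) ∧ (IsUnit (b x.2) ∧ b x.1 = b x.2))).card : ℝ) := by
  have e1 : ∀ (χ : DirichletCharacter ℂ k) (ψ : DirichletCharacter ℂ M),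
      (((‖∑ p ∈ P, χ (a p) * ψ (b p)‖ ^ 2 : ℝ)) : ℂ) =
      ∑ x ∈ P ×ˢ P, (χ (a x.1) * (starRingEnd ℂ) (χ (a x.2))) *
        (ψ (b x.1) * (starRingEnd ℂ) (ψ (b x.2))) := by
    intro χ ψ
    rw [Complex.ofReal_pow, ← Complex.mul_conj', map_sum, Finset.sum_mul_sum, Finset.sum_product]
    refine Finset.sum_congr rfl fun x _ => Finset.sum_congr rfl fun y _ => ?_
    rw [map_mul]
    ring
  have e2 : ((∑ χ : DirichletCharacter ℂ k, ∑ ψ : DirichletCharacter ℂ M,
      ‖∑ p ∈ P, χ (a p) * ψ (b p)‖ ^ 2 : ℝ) : ℂ) =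
      (((k.totient : ℝ) * M.totient * (((P ×ˢ P).filter (fun x =>
        (IsUnit (a x.2) ∧ a x.1 = a x.2) ∧
          (IsUnit (b x.2) ∧ b x.1 = b x.2))).card : ℝ) : ℝ) : ℂ) := by
    rw [Complex.ofReal_sum]
    have e3 : ∀ χ : DirichletCharacter ℂ k,
        (((∑ ψ : DirichletCharacter ℂ M, ‖∑ p ∈ P, χ (a p) * ψ (b p)‖ ^ 2 : ℝ)) : ℂ) =
        ∑ x ∈ P ×ˢ P, (χ (a x.1) * (starRingEnd ℂ) (χ (a x.2))) *
          (if IsUnit (b x.2) ∧ b x.1 = b x.2 then (M.totient : ℂ) else 0) := by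
      intro χ
      rw [Complex.ofReal_sum, Finset.sum_congr rfl fun ψ _ => e1 χ ψ, Finset.sum_comm]
      refine Finset.sum_congr rfl fun x _ => ?_
      rw [← Finset.mul_sum, j4_orth]
    rw [Finset.sum_congr rfl fun χ _ => e3 χ, Finset.sum_comm, Finset.card_filter]
    push_cast
    rw [Finset.mul_sum]
    refine Finset.sum_congr rfl fun x _ => ?_
    rw [← Finset.sum_mul, j4_orth]
    by_cases h1 : IsUnit (a x.2) ∧ a x.1 = a x.2
    · by_cases h2 : IsUnit (b x.2) ∧ b x.1 = b x.2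
      · have h3 : (IsUnit (a x.2) ∧ a x.1 = a x.2) ∧ (IsUnit (b x.2) ∧ b x.1 = b x.2) := ⟨h1, h2⟩
        simp only [if_pos h1, if_pos h2, if_pos h3, Complex.ofReal_one, mul_one]
      · have h3 : ¬((IsUnit (a x.2) ∧ a x.1 = a x.2) ∧ (IsUnit (b x.2) ∧ b x.1 = b x.2)) :=
          fun h => h2 h.2
        simp only [if_neg h2, if_neg h3, Complex.ofReal_zero, mul_zero]
    · have h3 : ¬((IsUnit (a x.2) ∧ a x.1 = a x.2) ∧ (IsUnit (b x.2) ∧ b x.1 = b x.2)) :=
        fun h => h1 h.1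
      simp only [if_neg h1, if_neg h3, Complex.ofReal_zero, mul_zero, zero_mul]
  exact_mod_cast e2

/-- the difference of the two products -/
private def j4_V (x : (ℕ × ℕ) × (ℕ × ℕ)) : ℤ :=
  (x.1.1 : ℤ) * x.1.2 - (x.2.1 : ℤ) * x.2.2

/-- quadruples in the interval with `m ∣ V` -/
private def j4_G (I : Finset ℕ) (m : ℕ) : Finset ((ℕ × ℕ) × (ℕ × ℕ)) :=
  ((I ×ˢ I) ×ˢ (I ×ˢ I)).filter (fun x => x.2.1.Coprime m ∧ (m : ℤ) ∣ j4_V x)

private lemma j4_G_card (n m : ℕ) (I : Finset ℕ) (hmn : m ≤ n) (hI : I ⊆ Ioc (n - m) n) :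
    (j4_G I m).card ≤ m ^ 3 := by
  have hIc : I.card ≤ m := by
    refine (Finset.card_le_card hI).trans ?_
    rw [Nat.card_Ioc]
    omega
  have h1 : (j4_G I m).card ≤ ((I ×ˢ I) ×ˢ I).card := by
    refine Finset.card_le_card_of_injOn (fun x => (x.1, x.2.1)) ?_ ?_
    · intro x hx
      have hx' := (Finset.mem_filter.mp (Finset.mem_coe.mp hx)).1
      rw [Finset.mem_product, Finset.mem_product, Finset.mem_product] at hx'
      rw [Finset.mem_coe, Finset.mem_product, Finset.mem_product]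
      exact ⟨hx'.1, hx'.2.1⟩
    · intro x hx y hy hxy
      obtain ⟨⟨x1, x2⟩, ⟨x3, x4⟩⟩ := x
      obtain ⟨⟨y1, y2⟩, ⟨y3, y4⟩⟩ := y
      simp only [Prod.mk.injEq] at hxy
      obtain ⟨⟨e1, e2⟩, e3⟩ := hxy
      subst e1
      subst e2
      subst e3
      obtain ⟨hx1, hx2, hx3⟩ := Finset.mem_filter.mp (Finset.mem_coe.mp hx)
      obtain ⟨hy1, hy2, hy3⟩ := Finset.mem_filter.mp (Finset.mem_coe.mp hy)
      rw [Finset.mem_product, Finset.mem_product, Finset.mem_product] at hx1 hy1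
      have ix := Finset.mem_Ioc.mp (hI hx1.2.2)
      have iy := Finset.mem_Ioc.mp (hI hy1.2.2)
      unfold j4_V at hx3 hy3
      simp only at hx2 hx3 hy3 ix iy
      have h2 : (m : ℤ) ∣ (x3 : ℤ) * ((x4 : ℤ) - y4) := by
        have h3 := dvd_sub hy3 hx3
        have e : ((x1 : ℤ) * x2 - (x3 : ℤ) * y4) - ((x1 : ℤ) * x2 - (x3 : ℤ) * x4) =
            (x3 : ℤ) * ((x4 : ℤ) - y4) := by ring
        rwa [e] at h3
      have h3 : IsCoprime (m : ℤ) (x3 : ℤ) := Nat.isCoprime_iff_coprime.mpr hx2.symm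
      have h4 : (m : ℤ) ∣ (x4 : ℤ) - y4 := h3.dvd_of_dvd_mul_left h2
      have h5 : (x4 : ℤ) - y4 = 0 := by
        refine Int.eq_zero_of_abs_lt_dvd h4 ?_
        rw [abs_lt]
        constructor <;> omega
      have h6 : x4 = y4 := by omega
      rw [h6]
  refine h1.trans ?_
  rw [Finset.card_product, Finset.card_product]
  calc I.card * I.card * I.card ≤ m * m * m := by gcongr
    _ = m ^ 3 := by ring

private lemma j4_zero_card (n m : ℕ) (I : Finset ℕ) (hmn : m ≤ n) (hI : I ⊆ Ioc (n - m) n)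
    (D : ℝ) (hD : 0 ≤ D) (hdiv : ∀ v : ℕ, 1 ≤ v → v ≤ n ^ 2 → (v.divisors.card : ℝ) ≤ D) :
    (((j4_G I m).filter (fun x => j4_V x = 0)).card : ℝ) ≤ (m : ℝ) ^ 2 * D := by
  have hIc : I.card ≤ m := by
    refine (Finset.card_le_card hI).trans ?_
    rw [Nat.card_Ioc]
    omega
  have h0 : ∀ i ∈ I, 1 ≤ i ∧ i ≤ n := by
    intro i hi
    have := Finset.mem_Ioc.mp (hI hi)
    omega
  have h1 : ((j4_G I m).filter (fun x => j4_V x = 0)).card ≤
      ∑ p ∈ I ×ˢ I, (p.1 * p.2).divisors.card := by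
    rw [← Finset.card_sigma]
    refine Finset.card_le_card_of_injOn (fun x => ⟨x.1, x.2.1⟩) ?_ ?_
    · intro x hx
      have hx' := Finset.mem_filter.mp (Finset.mem_coe.mp hx)
      have hx'' := (Finset.mem_filter.mp hx'.1).1
      rw [Finset.mem_product, Finset.mem_product, Finset.mem_product] at hx''
      rw [Finset.mem_coe, Finset.mem_sigma, Finset.mem_product]
      refine ⟨hx''.1, ?_⟩
      rw [Nat.mem_divisors]
      have hv := hx'.2
      unfold j4_V at hv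
      have hv' : x.1.1 * x.1.2 = x.2.1 * x.2.2 := by
        have : (x.1.1 : ℤ) * x.1.2 = (x.2.1 : ℤ) * x.2.2 := by linarith
        exact_mod_cast this
      refine ⟨⟨x.2.2, hv'⟩, ?_⟩
      have a1 := (h0 _ hx''.1.1).1
      have a2 := (h0 _ hx''.1.2).1
      have := Nat.mul_pos a1 a2
      exact this.ne'
    · intro x hx y hy hxy
      obtain ⟨⟨x1, x2⟩, ⟨x3, x4⟩⟩ := x
      obtain ⟨⟨y1, y2⟩, ⟨y3, y4⟩⟩ := y
      simp only [Sigma.mk.injEq, Prod.mk.injEq, heq_eq_eq] at hxy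
      obtain ⟨⟨e1, e2⟩, e3⟩ := hxy
      subst e1
      subst e2
      subst e3
      have hx' := Finset.mem_filter.mp (Finset.mem_coe.mp hx)
      have hy' := Finset.mem_filter.mp (Finset.mem_coe.mp hy)
      have hx'' := (Finset.mem_filter.mp hx'.1).1
      rw [Finset.mem_product, Finset.mem_product, Finset.mem_product] at hx''
      have hv := hx'.2
      have hw := hy'.2
      unfold j4_V at hv hw
      simp only at hv hw hx''
      have a1 := (h0 _ hx''.2.1).1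
      have h2 : (x3 : ℤ) * x4 = (x3 : ℤ) * y4 := by linarith
      have h3 : (x3 : ℤ) ≠ 0 := by
        have : 0 < x3 := a1
        exact_mod_cast this.ne'
      have h4 := mul_left_cancel₀ h3 h2
      have h6 : x4 = y4 := by exact_mod_cast h4
      rw [h6]
  have h2 : ((∑ p ∈ I ×ˢ I, (p.1 * p.2).divisors.card : ℕ) : ℝ) ≤
      ∑ _p ∈ I ×ˢ I, D := by
    push_cast
    refine Finset.sum_le_sum fun p hp => ?_
    rw [Finset.mem_product] at hp
    have b1 := h0 _ hp.1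
    have b2 := h0 _ hp.2
    refine hdiv _ (Nat.mul_pos b1.1 b2.1) ?_
    calc p.1 * p.2 ≤ n * n := Nat.mul_le_mul b1.2 b2.2
      _ = n ^ 2 := by ring
  have h3 : (((j4_G I m).filter (fun x => j4_V x = 0)).card : ℝ) ≤
      ((∑ p ∈ I ×ˢ I, (p.1 * p.2).divisors.card : ℕ) : ℝ) := by exact_mod_cast h1
  refine h3.trans (h2.trans ?_)
  rw [Finset.sum_const, nsmul_eq_mul, Finset.card_product]
  refine mul_le_mul_of_nonneg_right ?_ hD
  push_cast
  have hIr : (I.card : ℝ) ≤ m := by exact_mod_cast hIc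
  calc (I.card : ℝ) * I.card ≤ m * m := by gcongr
    _ = (m : ℝ) ^ 2 := by ring

/-- the number of values `k` which divide `V` -/
private lemma j4_k_card (n m : ℕ) (I : Finset ℕ) (hI : I ⊆ Ioc (n - m) n)
    (D : ℝ) (hdiv : ∀ v : ℕ, 1 ≤ v → v ≤ n ^ 2 → (v.divisors.card : ℝ) ≤ D)
    (S : Finset ℕ) (x : (ℕ × ℕ) × (ℕ × ℕ)) (hx : x ∈ j4_G I m) (hV : j4_V x ≠ 0) :
    ((S.filter (fun k : ℕ => (k : ℤ) ∣ j4_V x)).card : ℝ) ≤ D := by
  have h0 : ∀ i ∈ I, 1 ≤ i ∧ i ≤ n := by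
    intro i hi
    have := Finset.mem_Ioc.mp (hI hi)
    omega
  have hx'' := (Finset.mem_filter.mp hx).1
  rw [Finset.mem_product, Finset.mem_product, Finset.mem_product] at hx''
  have b1 := h0 _ hx''.1.1
  have b2 := h0 _ hx''.1.2
  have b3 := h0 _ hx''.2.1
  have b4 := h0 _ hx''.2.2
  have h1 : (j4_V x).natAbs ≤ n ^ 2 := by
    have c1 : x.1.1 * x.1.2 ≤ n ^ 2 := by
      calc x.1.1 * x.1.2 ≤ n * n := Nat.mul_le_mul b1.2 b2.2
        _ = n ^ 2 := by ring
    have c2 : x.2.1 * x.2.2 ≤ n ^ 2 := by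
      calc x.2.1 * x.2.2 ≤ n * n := Nat.mul_le_mul b3.2 b4.2
        _ = n ^ 2 := by ring
    have c3 : j4_V x = ((x.1.1 * x.1.2 : ℕ) : ℤ) - ((x.2.1 * x.2.2 : ℕ) : ℤ) := by
      unfold j4_V
      push_cast
      ring
    rw [c3]
    omega
  have h2 : 1 ≤ (j4_V x).natAbs := Int.natAbs_pos.mpr hV
  refine le_trans ?_ (hdiv _ h2 h1)
  have h3 : (S.filter (fun k : ℕ => (k : ℤ) ∣ j4_V x)) ⊆ (j4_V x).natAbs.divisors := by
    intro k hk
    rw [Nat.mem_divisors]
    exact ⟨Int.natCast_dvd.mp (Finset.mem_filter.mp hk).2, by omega⟩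
  exact_mod_cast Finset.card_le_card h3

/-- one value of `k` -/
private lemma j4_one (n m g c k' k : ℕ) (hm : 1 ≤ m) (hg : 1 ≤ g) (hk : 1 ≤ k) :
    ∑ χ ∈ prim k, ∑ ψ : DirichletCharacter ℂ (m * g), ‖JZ n m g c k' χ ψ‖ ^ 4 ≤
      (k.totient : ℝ) * (m * g).totient *
        (((j4_G ((Ioc (n - m) n).filter (fun j => j.Coprime k')) m).filter
          (fun x => (k : ℤ) ∣ j4_V x)).card : ℝ) := by
  have : NeZero k := ⟨by omega⟩
  have hmg : 0 < m * g := Nat.mul_pos hm hg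
  have : NeZero (m * g) := ⟨hmg.ne'⟩
  set I := (Ioc (n - m) n).filter (fun j => j.Coprime k') with hI
  set a : ℕ × ℕ → ZMod k := fun p => (p.1 : ZMod k) * (p.2 : ZMod k) with ha
  set b : ℕ × ℕ → ZMod (m * g) := fun p =>
    ((p.1 : ZMod (m * g)) - ((m * c : ℕ) : ZMod (m * g))) *
      ((p.2 : ZMod (m * g)) - ((m * c : ℕ) : ZMod (m * g))) with hb
  have e1 : ∀ (χ : DirichletCharacter ℂ k) (ψ : DirichletCharacter ℂ (m * g)),
      ‖JZ n m g c k' χ ψ‖ ^ 4 = ‖∑ p ∈ I ×ˢ I, χ (a p) * ψ (b p)‖ ^ 2 := by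
    intro χ ψ
    have e2 : ∑ p ∈ I ×ˢ I, χ (a p) * ψ (b p) = JZ n m g c k' χ ψ * JZ n m g c k' χ ψ := by
      unfold JZ
      rw [Finset.sum_mul_sum, Finset.sum_product]
      refine Finset.sum_congr rfl fun x _ => Finset.sum_congr rfl fun y _ => ?_
      simp only [ha, hb, map_mul]
      ring
    rw [e2, norm_mul]
    ring
  have h1 : ∑ χ ∈ prim k, ∑ ψ : DirichletCharacter ℂ (m * g), ‖JZ n m g c k' χ ψ‖ ^ 4 ≤
      ∑ χ : DirichletCharacter ℂ k, ∑ ψ : DirichletCharacter ℂ (m * g),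
        ‖∑ p ∈ I ×ˢ I, χ (a p) * ψ (b p)‖ ^ 2 := by
    refine (Finset.sum_le_sum_of_subset_of_nonneg (Finset.subset_univ _) ?_).trans_eq ?_
    · intro χ _ _
      exact Finset.sum_nonneg fun ψ _ => by positivity
    · exact Finset.sum_congr rfl fun χ _ => Finset.sum_congr rfl fun ψ _ => e1 χ ψ
  refine h1.trans ?_
  rw [j4_moment]
  refine mul_le_mul_of_nonneg_left ?_ (by positivity)
  have h2 : ((I ×ˢ I) ×ˢ (I ×ˢ I)).filter (fun x =>
        (IsUnit (a x.2) ∧ a x.1 = a x.2) ∧ (IsUnit (b x.2) ∧ b x.1 = b x.2)) ⊆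
      (j4_G I m).filter (fun x => (k : ℤ) ∣ j4_V x) := by
    intro x hx
    obtain ⟨hx1, ⟨_, hx3⟩, hx4, hx5⟩ := Finset.mem_filter.mp hx
    have f0 : ∀ p : ℕ × ℕ, (ZMod.castHom (dvd_mul_right m g) (ZMod m)) (b p) =
        (p.1 : ZMod m) * (p.2 : ZMod m) := by
      intro p
      simp only [hb, map_mul, map_sub, map_natCast]
      push_cast
      rw [ZMod.natCast_self]
      ring
    have hu : IsUnit ((x.2.1 : ZMod m) * (x.2.2 : ZMod m)) := by
      rw [← f0]
      exact hx4.map _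
    have hu1 : IsUnit (x.2.1 : ZMod m) := isUnit_of_mul_isUnit_left hu
    have hVm : (x.1.1 : ZMod m) * (x.1.2 : ZMod m) = (x.2.1 : ZMod m) * (x.2.2 : ZMod m) := by
      rw [← f0, ← f0, hx5]
    rw [Finset.mem_filter]
    refine ⟨Finset.mem_filter.mpr ⟨hx1, (ZMod.isUnit_iff_coprime _ _).mp hu1, ?_⟩, ?_⟩
    · rw [← ZMod.intCast_zmod_eq_zero_iff_dvd]
      unfold j4_V
      push_cast
      rw [hVm, sub_self]
    · rw [← ZMod.intCast_zmod_eq_zero_iff_dvd]
      unfold j4_V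
      push_cast
      have : (x.1.1 : ZMod k) * (x.1.2 : ZMod k) = (x.2.1 : ZMod k) * (x.2.2 : ZMod k) := hx3
      rw [this, sub_self]
  exact_mod_cast Finset.card_le_card h2

/-- keep this signature -/
theorem thm_J4 : St_J4 := by
  intro ε hε
  obtain ⟨C₀, hC₀⟩ := Pool.Agent.Helper88.MD.divisorBound (ε / 2) (by positivity)
  refine ⟨2 * max C₀ 1, by positivity, ?_⟩
  intro n m g c k' K hm hmn hg hK
  set C := max C₀ 1 with hC
  have hC1 : 1 ≤ C := le_max_right _ _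
  have hn : 1 ≤ n := hm.trans hmn
  have hn' : (1 : ℝ) ≤ n := by exact_mod_cast hn
  set D : ℝ := C * (n : ℝ) ^ ε with hD
  have hD0 : 0 ≤ D := by positivity
  have hdiv : ∀ v : ℕ, 1 ≤ v → v ≤ n ^ 2 → (v.divisors.card : ℝ) ≤ D := by
    intro v hv1 hv2
    have hv1' : (1 : ℝ) ≤ v := by exact_mod_cast hv1
    have hv2' : (v : ℝ) ≤ (n : ℝ) ^ 2 := by exact_mod_cast hv2
    have h1 : (v : ℝ) ^ (ε / 2) ≤ (n : ℝ) ^ ε := by
      calc (v : ℝ) ^ (ε / 2) ≤ ((n : ℝ) ^ 2) ^ (ε / 2) :=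
            Real.rpow_le_rpow (by positivity) hv2' (by positivity)
        _ = (n : ℝ) ^ ε := by
            rw [← Real.rpow_natCast, ← Real.rpow_mul (by positivity)]
            congr 1
            push_cast
            ring
    calc (v.divisors.card : ℝ) ≤ C₀ * (v : ℝ) ^ (ε / 2) := hC₀ v hv1
      _ ≤ C * (v : ℝ) ^ (ε / 2) := by
          refine mul_le_mul_of_nonneg_right (le_max_left _ _) (by positivity)
      _ ≤ C * (n : ℝ) ^ ε := by gcongr
  set I := (Ioc (n - m) n).filter (fun j => j.Coprime k') with hI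
  have hIs : I ⊆ Ioc (n - m) n := Finset.filter_subset _ _
  set S := (Ioc K (2 * K)).filter (fun k => k.Coprime (m * g)) with hS
  have hSc : (S.card : ℝ) ≤ K := by
    have : S.card ≤ K := by
      refine (Finset.card_filter_le _ _).trans ?_
      rw [Nat.card_Ioc]
      omega
    exact_mod_cast this
  have h1 : Fam K (m * g) (fun _ χ ψ => ‖JZ n m g c k' χ ψ‖ ^ 4) ≤
      ∑ k ∈ S, (2 * (K : ℝ) * (m * g)) *
        (((j4_G I m).filter (fun x => (k : ℤ) ∣ j4_V x)).card : ℝ) := by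
    unfold Fam
    refine Finset.sum_le_sum fun k hk => ?_
    have hk' := Finset.mem_Ioc.mp (Finset.mem_filter.mp hk).1
    refine (j4_one n m g c k' k hm hg (by omega)).trans ?_
    refine mul_le_mul_of_nonneg_right ?_ (Nat.cast_nonneg _)
    have a1 : (k.totient : ℝ) ≤ 2 * K := by exact_mod_cast (Nat.totient_le k).trans hk'.2
    have a2 : ((m * g).totient : ℝ) ≤ m * g := by exact_mod_cast Nat.totient_le (m * g)
    exact mul_le_mul a1 a2 (Nat.cast_nonneg _) (by positivity)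
  have h2 : ∑ k ∈ S, (((j4_G I m).filter (fun x => (k : ℤ) ∣ j4_V x)).card : ℝ) =
      ∑ x ∈ j4_G I m, ((S.filter (fun k : ℕ => (k : ℤ) ∣ j4_V x)).card : ℝ) := by
    have e : ∀ k ∈ S, (((j4_G I m).filter (fun x => (k : ℤ) ∣ j4_V x)).card : ℝ) =
        ∑ x ∈ j4_G I m, if (k : ℤ) ∣ j4_V x then (1 : ℝ) else 0 := by
      intro k _
      rw [Finset.card_filter]
      push_cast
      rfl
    rw [Finset.sum_congr rfl e, Finset.sum_comm]
    refine Finset.sum_congr rfl fun x _ => ?_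
    rw [Finset.card_filter]
    push_cast
    rfl
  have h3 : ∑ x ∈ j4_G I m, ((S.filter (fun k : ℕ => (k : ℤ) ∣ j4_V x)).card : ℝ) ≤
      (m : ℝ) ^ 2 * D * (K + m) := by
    rw [← Finset.sum_filter_add_sum_filter_not (j4_G I m) (fun x => j4_V x = 0)]
    have b1 : ∑ x ∈ (j4_G I m).filter (fun x => j4_V x = 0),
        ((S.filter (fun k : ℕ => (k : ℤ) ∣ j4_V x)).card : ℝ) ≤ ((m : ℝ) ^ 2 * D) * K := by
      calc _ ≤ ∑ _x ∈ (j4_G I m).filter (fun x => j4_V x = 0), (K : ℝ) := by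
            refine Finset.sum_le_sum fun x _ => ?_
            refine le_trans ?_ hSc
            exact_mod_cast Finset.card_filter_le _ _
        _ = (((j4_G I m).filter (fun x => j4_V x = 0)).card : ℝ) * K := by
            rw [Finset.sum_const, nsmul_eq_mul]
        _ ≤ _ := mul_le_mul_of_nonneg_right (j4_zero_card n m I hmn hIs D hD0 hdiv)
            (Nat.cast_nonneg _)
    have b2 : ∑ x ∈ (j4_G I m).filter (fun x => ¬ j4_V x = 0),
        ((S.filter (fun k : ℕ => (k : ℤ) ∣ j4_V x)).card : ℝ) ≤ (m : ℝ) ^ 3 * D := by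
      calc _ ≤ ∑ _x ∈ (j4_G I m).filter (fun x => ¬ j4_V x = 0), D := by
            refine Finset.sum_le_sum fun x hx => ?_
            obtain ⟨hx1, hx2⟩ := Finset.mem_filter.mp hx
            exact j4_k_card n m I hIs D hdiv S x hx1 hx2
        _ = (((j4_G I m).filter (fun x => ¬ j4_V x = 0)).card : ℝ) * D := by
            rw [Finset.sum_const, nsmul_eq_mul]
        _ ≤ _ := by
            refine mul_le_mul_of_nonneg_right ?_ hD0
            have := (Finset.card_filter_le (j4_G I m) (fun x => ¬ j4_V x = 0)).trans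
              (j4_G_card n m I hmn hIs)
            exact_mod_cast this
    calc _ ≤ ((m : ℝ) ^ 2 * D) * K + (m : ℝ) ^ 3 * D := add_le_add b1 b2
      _ = _ := by ring
  refine h1.trans ?_
  rw [← Finset.mul_sum, h2]
  calc (2 * (K : ℝ) * (m * g)) *
        ∑ x ∈ j4_G I m, ((S.filter (fun k : ℕ => (k : ℤ) ∣ j4_V x)).card : ℝ) ≤
      (2 * (K : ℝ) * (m * g)) * ((m : ℝ) ^ 2 * D * (K + m)) :=
        mul_le_mul_of_nonneg_left h3 (by positivity)
    _ = _ := by
        rw [hD]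
        ring

end Pool.Agent.CV
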