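import Mathlib
import Pool.Agent.CV.Stmts
import Pool.Agent.LIN.Asm
import Pool.Agent.CU.LinG

set_option autoImplicit false

/-!
# CV / LR

The linear sieve of LIN once more, with the additional information that the part of `d` composed of
the primes up to `w` is at most `X^ε`.
-/

namespace Pool.Agent.CV.LRx

open Finset Filter Topology Pool.Agent.LIN

/-- the part of `d` composed of the primes up to `w` -/
theorem lr_small {w z : ℕ} {φ ρ : Finset ℕ → ℝ} {A : ℝ}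
    (h1 : ∀ T, φ T ≠ 0 → ((∏ p ∈ T, p : ℕ) : ℝ) ≤ A) (d : ℕ) (hd : cc w z φ ρ d ≠ 0) :
    (smp w d : ℝ) ≤ A := by
  unfold cc at hd
  split_ifs at hd with hc
  · have e : d.primeFactors ∩ PP 2 (w + 1) = d.primeFactors.filter (fun p => p ≤ w) := by
      ext p
      rw [Finset.mem_inter, Finset.mem_filter]
      constructor
      · rintro ⟨h2, h3⟩
        unfold PP at h3
        rw [Finset.mem_filter, Finset.mem_Ico] at h3
        exact ⟨h2, by omega⟩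
      · rintro ⟨h2, h3⟩
        refine ⟨h2, ?_⟩
        have hp := Nat.prime_of_mem_primeFactors h2
        unfold PP
        rw [Finset.mem_filter, Finset.mem_Ico]
        exact ⟨⟨hp.two_le, by omega⟩, hp⟩
    have h4 := h1 _ (left_ne_zero_of_mul hd)
    rw [e] at h4
    unfold smp
    exact h4
  · exact absurd rfl hd

/-- the linear sieve with the additional information -/
def St_SVs (A₀ : ℝ) : Prop := ∀ ε : ℝ, 0 < ε → ∃ δ₀ : ℝ, 0 < δ₀ ∧ ∀ δ : ℝ, 0 < δ → δ ≤ δ₀ →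
  ∃ (η : ℝ) (X₀ : ℕ), 0 < η ∧
  ∀ X w z : ℕ, X₀ ≤ X → w = ⌊(X : ℝ) ^ δ⌋₊ → w ≤ z → z ≤ X →
  (∀ D : ℝ, (z : ℝ) ≤ D ^ 8 → D ≤ (z : ℝ) ^ 3 → 1 < D → D ≤ X → ∃ c : ℕ → ℝ,
    (IsWgt c z (D * (X : ℝ) ^ ε) ∧ ∀ d, c d ≠ 0 → (smp w d : ℝ) ≤ (X : ℝ) ^ ε) ∧
    (∀ S ⊆ pz z, (if S = ∅ then (1 : ℝ) else 0) ≤ ∑ T ∈ S.powerset, c (∏ p ∈ T, p)) ∧
    ∀ g : ℕ → ℝ, Dens g w z η →
      mainT c g z ≤ (∏ p ∈ pz z, (1 - g p)) * (A₀ * Real.log z / Real.log D + ε)) ∧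
  (∀ D : ℝ, (z : ℝ) ^ 2 ≤ D → D ≤ (z : ℝ) ^ 4 → D ≤ X → ∃ c : ℕ → ℝ,
    (IsWgt c z (D * (X : ℝ) ^ ε) ∧ ∀ d, c d ≠ 0 → (smp w d : ℝ) ≤ (X : ℝ) ^ ε) ∧
    (∀ S ⊆ pz z, ∑ T ∈ S.powerset, c (∏ p ∈ T, p) ≤ if S = ∅ then (1 : ℝ) else 0) ∧
    ∀ g : ℕ → ℝ, Dens g w z η →
      (∏ p ∈ pz z, (1 - g p)) * (A₀ * Real.log (Real.log D / Real.log z - 1) *
        (Real.log z / Real.log D) - ε) ≤ mainT c g z)

theorem lr_up (h2 : St_Rw2) (h6 : St_Cv1) {A₀ : ℝ} {F f : ℝ → ℝ} (hF : IsFf A₀ F f)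
    {ε κ η₁ ε₂ ε₃ ε₄ : ℝ} (hp : SvPar A₀ ε κ η₁ ε₂ ε₃ ε₄) {w z s : ℕ} {φ ψ : Finset ℕ → ℝ}
    (hfl : SvFl w s η₁ φ ψ) {Xe : ℝ} (hw : 3 ≤ w) (hwz : w ≤ z)
    (hXe : (((w + 1 : ℕ) : ℝ)) ^ s ≤ Xe)
    (hl : κ ≤ Real.log ((w + 1 : ℕ) : ℝ) / Real.log ((z + 1 : ℕ) : ℝ))
    (hlog : Real.log ((z + 1 : ℕ) : ℝ) ≤ (1 + ε₄) * Real.log z) {D : ℝ} (hD1 : 1 < D)
    (hD2 : (z : ℝ) ≤ D ^ 8) (hD3 : D ≤ (z : ℝ) ^ 3) {η : ℝ}
    (hLin : ∀ g, Dens g w z η → VV true g (w + 1) D (z + 1) ≤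
      Real.log ((w + 1 : ℕ) : ℝ) / Real.log ((z + 1 : ℕ) : ℝ) *
        F (Real.log D / Real.log ((z + 1 : ℕ) : ℝ)) + ε₂)
    (hVp : ∀ g, Dens g w z η → |∏ p ∈ PP (w + 1) (z + 1), (1 - g p) -
      Real.log ((w + 1 : ℕ) : ℝ) / Real.log ((z + 1 : ℕ) : ℝ)| ≤ ε₃) :
    ∃ c : ℕ → ℝ, (IsWgt c z (D * Xe) ∧ ∀ d, c d ≠ 0 → (smp w d : ℝ) ≤ Xe) ∧
    (∀ S ⊆ pz z, (if S = ∅ then (1 : ℝ) else 0) ≤ ∑ T ∈ S.powerset, c (∏ p ∈ T, p)) ∧
    ∀ g : ℕ → ℝ, Dens g w z η →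
      mainT c g z ≤ (∏ p ∈ pz z, (1 - g p)) * (A₀ * Real.log z / Real.log D + ε) := by
  obtain ⟨r1, r2, r3, r4, r5⟩ := h2
  obtain ⟨hz0, hz1, hzz⟩ := sv_log_pos hw hwz
  have hD0 : 0 < D := by linarith
  refine ⟨cc w z φ (lamR true D), ⟨⟨?_, ?_⟩, ?_⟩, ?_, ?_⟩
  · intro d hd
    obtain ⟨t1, t2, t3⟩ := sv_supp (A := (((w + 1 : ℕ) : ℝ)) ^ s) hwz hD0.le
      (fun T hT => (hfl.f2 T (Or.inl hT)).2)
      (fun T hT hT2 => (r2 D T hD1 (sv_prime_PP hT) hT2).le) d hd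
    exact ⟨t1, t2, t3.trans (mul_le_mul_of_nonneg_left hXe hD0.le)⟩
  · intro d
    exact (sv_abs (fun T => (hfl.f1 T).1) (r1 true D) d).trans (by norm_num)
  · intro d hd
    exact (lr_small (fun T hT => (hfl.f2 T (Or.inl hT)).2) d hd).trans hXe
  · intro S hS
    rw [sv_sum h6 (by omega) hwz φ _ hS]
    have g1 := (hfl.f3 (S ∩ PP 2 (w + 1)) Finset.inter_subset_right).1
    have g2 := r4 D (S ∩ PP (w + 1) (z + 1))
    have n1 : (0 : ℝ) ≤ if S ∩ PP 2 (w + 1) = ∅ then (1 : ℝ) else 0 := by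
      split_ifs <;> norm_num
    have n2 : (0 : ℝ) ≤ if S ∩ PP (w + 1) (z + 1) = ∅ then (1 : ℝ) else 0 := by
      split_ifs <;> norm_num
    by_cases hS0 : S = ∅
    · obtain ⟨e1, e2⟩ := (sv_empty hwz hS).mp hS0
      rw [if_pos e1] at g1
      rw [if_pos e2] at g2
      rw [if_pos hS0]
      nlinarith
    · rw [if_neg hS0]
      exact mul_nonneg (n1.trans g1) (n2.trans g2)
  · intro g hg
    have hg' : ∀ p : ℕ, p.Prime → 0 ≤ g p ∧ g p ≤ 3 / 4 ∧ g p ≤ 4 / p := fun p hp =>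
      ⟨hg.nonneg p hp, hg.le_three p hp, hg.le_four p hp⟩
    obtain ⟨a1, a2, a3⟩ := hfl.f4 g hg'
    have hV1 := sv_V_nonneg hg 2 (w + 1)
    have hV2 := (abs_le.mp (hVp g hg)).1
    rw [sv_mainT h6 (by omega) hwz, sv_prod hwz]
    have hlD : 0 < Real.log D := Real.log_pos hD1
    have hz3 : (3 : ℝ) ≤ z := by exact_mod_cast hw.trans hwz
    have hlD8 : Real.log z ≤ 8 * Real.log D := by
      have := Real.log_le_log (by linarith) hD2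
      rwa [Real.log_pow, Nat.cast_ofNat] at this
    have hsD : 0 < Real.log D / Real.log ((z + 1 : ℕ) : ℝ) := div_pos hlD hz1
    have hsD3 : Real.log D / Real.log ((z + 1 : ℕ) : ℝ) ≤ 3 := by
      rw [div_le_iff₀ hz1]
      have := Real.log_le_log hD0 hD3
      rw [Real.log_pow, Nat.cast_ofNat] at this
      linarith
    have hFx : F (Real.log D / Real.log ((z + 1 : ℕ) : ℝ)) =
        A₀ * Real.log ((z + 1 : ℕ) : ℝ) / Real.log D := by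
      rw [hF.F_small _ hsD hsD3]
      field_simp
    have hA := hF.pos
    refine sv_num_up (κ := κ) (η₁ := η₁) (ε₂ := ε₂) (ε₃ := ε₃) (ε₄ := ε₄)
      (lam := Real.log ((w + 1 : ℕ) : ℝ) / Real.log ((z + 1 : ℕ) : ℝ))
      (Fx := F (Real.log D / Real.log ((z + 1 : ℕ) : ℝ))) hp hl ?_ ?_ ?_ ?_ hV1
      (by linarith) (hV1.trans a1) a2 (hLin g hg)
    · positivity
    · rw [div_le_iff₀ hlD]
      nlinarith
    · rw [hFx]
      positivity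
    · rw [hFx, div_mul_eq_mul_div]
      apply div_le_div_of_nonneg_right _ hlD.le
      have := mul_le_mul_of_nonneg_left hlog hA.le
      linarith

theorem lr_lo (h2 : St_Rw2) (h6 : St_Cv1) {A₀ : ℝ} {F f : ℝ → ℝ} (hF : IsFf A₀ F f)
    {ε κ η₁ ε₂ ε₃ ε₄ : ℝ} (hp : SvPar A₀ ε κ η₁ ε₂ ε₃ ε₄) {w z s : ℕ} {φ ψ : Finset ℕ → ℝ}
    (hfl : SvFl w s η₁ φ ψ) {Xe : ℝ} (hw : 3 ≤ w) (hwz : w ≤ z)
    (hXe : (((w + 1 : ℕ) : ℝ)) ^ s ≤ Xe)
    (hl : κ ≤ Real.log ((w + 1 : ℕ) : ℝ) / Real.log ((z + 1 : ℕ) : ℝ))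
    (hlog : Real.log ((z + 1 : ℕ) : ℝ) ≤ (1 + ε₄) * Real.log z) {D : ℝ}
    (hD2 : (z : ℝ) ^ 2 ≤ D) (hD3 : D ≤ (z : ℝ) ^ 4) {η : ℝ}
    (hLin : ∀ g, Dens g w z η → VV true g (w + 1) D (z + 1) ≤
      Real.log ((w + 1 : ℕ) : ℝ) / Real.log ((z + 1 : ℕ) : ℝ) *
        F (Real.log D / Real.log ((z + 1 : ℕ) : ℝ)) + ε₂)
    (hLin2 : (((z + 1 : ℕ) : ℝ)) ^ 2 ≤ D → ∀ g, Dens g w z η →
      Real.log ((w + 1 : ℕ) : ℝ) / Real.log ((z + 1 : ℕ) : ℝ) *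
        f (Real.log D / Real.log ((z + 1 : ℕ) : ℝ)) - ε₂ ≤ VV false g (w + 1) D (z + 1))
    (hVp : ∀ g, Dens g w z η → |∏ p ∈ PP (w + 1) (z + 1), (1 - g p) -
      Real.log ((w + 1 : ℕ) : ℝ) / Real.log ((z + 1 : ℕ) : ℝ)| ≤ ε₃) :
    ∃ c : ℕ → ℝ, (IsWgt c z (D * Xe) ∧ ∀ d, c d ≠ 0 → (smp w d : ℝ) ≤ Xe) ∧
    (∀ S ⊆ pz z, ∑ T ∈ S.powerset, c (∏ p ∈ T, p) ≤ if S = ∅ then (1 : ℝ) else 0) ∧
    ∀ g : ℕ → ℝ, Dens g w z η →
      (∏ p ∈ pz z, (1 - g p)) * (A₀ * Real.log (Real.log D / Real.log z - 1) *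
        (Real.log z / Real.log D) - ε) ≤ mainT c g z := by
  obtain ⟨hz0, hz1, hzz⟩ := sv_log_pos hw hwz
  have hz3 : (3 : ℝ) ≤ z := by exact_mod_cast hw.trans hwz
  have hD1 : 1 < D := by nlinarith
  have hD0 : 0 < D := by linarith
  have hA := hF.pos
  have hlD : 0 < Real.log D := Real.log_pos hD1
  have hLD2 : 2 * Real.log z ≤ Real.log D := by
    have := Real.log_le_log (by positivity) hD2
    rwa [Real.log_pow, Nat.cast_ofNat] at this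
  have hLD4 : Real.log D ≤ 4 * Real.log z := by
    have := Real.log_le_log hD0 hD3
    rwa [Real.log_pow, Nat.cast_ofNat] at this
  by_cases hcase : (((z + 1 : ℕ) : ℝ)) ^ 2 ≤ D
  swap
  · push Not at hcase
    have hLD3 : Real.log D ≤ 2 * Real.log ((z + 1 : ℕ) : ℝ) := by
      have := Real.log_le_log hD0 hcase.le
      rwa [Real.log_pow, Nat.cast_ofNat] at this
    refine ⟨fun _ => 0, ⟨⟨fun d hd => absurd rfl hd, fun d => by norm_num⟩, fun d hd => absurd rfl hd⟩, ?_, ?_⟩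
    · intro S _
      rw [Finset.sum_const_zero]
      split_ifs <;> norm_num
    · intro g hg
      have e : mainT (fun _ => 0) g z = 0 := by
        unfold mainT
        simp
      rw [e, sv_prod hwz]
      have hV := mul_nonneg (sv_V_nonneg hg 2 (w + 1)) (sv_V_nonneg hg (w + 1) (z + 1))
      have hs := sv_small hA hz0 hp.d0.le hp.d2 hlog hLD2 hLD3 hp.hε
      exact mul_nonpos_of_nonneg_of_nonpos hV hs
  obtain ⟨r1, r2, r3, r4, r5⟩ := h2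
  have hzD : ∀ p ∈ PP (w + 1) (z + 1), (p : ℝ) < D := by
    intro p hp
    simp only [PP, Finset.mem_filter, Finset.mem_Ico] at hp
    have : (p : ℝ) ≤ z := by exact_mod_cast (by omega : p ≤ z)
    nlinarith
  have hadd : ∀ U : Finset ℕ, ∀ c₁ c₂ c₃ : ℕ → ℝ,
      ∑ T ∈ U.powerset, (c₁ (∏ p ∈ T, p) - c₂ (∏ p ∈ T, p) + c₃ (∏ p ∈ T, p)) =
      ∑ T ∈ U.powerset, c₁ (∏ p ∈ T, p) - ∑ T ∈ U.powerset, c₂ (∏ p ∈ T, p) +
        ∑ T ∈ U.powerset, c₃ (∏ p ∈ T, p) := by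
    intro U c₁ c₂ c₃
    rw [Finset.sum_add_distrib, Finset.sum_sub_distrib]
  refine ⟨fun d => cc w z φ (lamR false D) d - cc w z φ (lamR true D) d +
    cc w z ψ (lamR true D) d, ⟨⟨?_, ?_⟩, ?_⟩, ?_, ?_⟩
  · intro d hd
    have hXe' : ∀ {d : ℕ}, (d : ℝ) ≤ D * (((w + 1 : ℕ) : ℝ)) ^ s → (d : ℝ) ≤ D * Xe :=
      fun h => h.trans (mul_le_mul_of_nonneg_left hXe hD0.le)
    by_cases c1 : cc w z φ (lamR false D) d = 0
    · by_cases c2 : cc w z φ (lamR true D) d = 0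
      · have c3 : cc w z ψ (lamR true D) d ≠ 0 := by
          intro c3
          apply hd
          show cc w z φ (lamR false D) d - cc w z φ (lamR true D) d +
            cc w z ψ (lamR true D) d = 0
          rw [c1, c2, c3]
          ring
        obtain ⟨t1, t2, t3⟩ := sv_supp (A := (((w + 1 : ℕ) : ℝ)) ^ s) hwz hD0.le
          (fun T hT => (hfl.f2 T (Or.inr hT)).2)
          (fun T hT hT2 => (r2 D T hD1 (sv_prime_PP hT) hT2).le) d c3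
        exact ⟨t1, t2, hXe' t3⟩
      · obtain ⟨t1, t2, t3⟩ := sv_supp (A := (((w + 1 : ℕ) : ℝ)) ^ s) hwz hD0.le
          (fun T hT => (hfl.f2 T (Or.inl hT)).2)
          (fun T hT hT2 => (r2 D T hD1 (sv_prime_PP hT) hT2).le) d c2
        exact ⟨t1, t2, hXe' t3⟩
    · obtain ⟨t1, t2, t3⟩ := sv_supp (A := (((w + 1 : ℕ) : ℝ)) ^ s) hwz hD0.le
        (fun T hT => (hfl.f2 T (Or.inl hT)).2)
        (fun T hT hT2 => (r3 D T hD1 (fun p hp => ⟨sv_prime_PP hT p hp, hzD p (hT hp)⟩)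
          hT2).le) d c1
      exact ⟨t1, t2, hXe' t3⟩
  · intro d
    have b1 := sv_abs (z := z) (w := w) (fun T => (hfl.f1 T).1) (r1 false D) d
    have b2 := sv_abs (z := z) (w := w) (fun T => (hfl.f1 T).1) (r1 true D) d
    have b3 := sv_abs (z := z) (w := w) (fun T => (hfl.f1 T).2) (r1 true D) d
    rw [abs_le] at b1 b2 b3 ⊢
    constructor <;> linarith [b1.1, b1.2, b2.1, b2.2, b3.1, b3.2]
  · intro d hd
    by_cases c1 : cc w z φ (lamR false D) d = 0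
    · by_cases c2 : cc w z φ (lamR true D) d = 0
      · have c3 : cc w z ψ (lamR true D) d ≠ 0 := by
          intro c3
          apply hd
          show cc w z φ (lamR false D) d - cc w z φ (lamR true D) d +
            cc w z ψ (lamR true D) d = 0
          rw [c1, c2, c3]
          ring
        exact (lr_small (fun T hT => (hfl.f2 T (Or.inr hT)).2) d c3).trans hXe
      · exact (lr_small (fun T hT => (hfl.f2 T (Or.inl hT)).2) d c2).trans hXe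
    · exact (lr_small (fun T hT => (hfl.f2 T (Or.inl hT)).2) d c1).trans hXe
  · intro S hS
    rw [hadd, sv_sum h6 (by omega) hwz _ _ hS, sv_sum h6 (by omega) hwz _ _ hS,
      sv_sum h6 (by omega) hwz _ _ hS]
    obtain ⟨g1, g1'⟩ := hfl.f3 (S ∩ PP 2 (w + 1)) Finset.inter_subset_right
    have g2 := r4 D (S ∩ PP (w + 1) (z + 1))
    have g3 := r5 D (S ∩ PP (w + 1) (z + 1))
    have n1 : (0 : ℝ) ≤ if S ∩ PP 2 (w + 1) = ∅ then (1 : ℝ) else 0 := by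
      split_ifs <;> norm_num
    have n2 : (0 : ℝ) ≤ if S ∩ PP (w + 1) (z + 1) = ∅ then (1 : ℝ) else 0 := by
      split_ifs <;> norm_num
    refine (sv_ineq g1 g1' g2 g3 n1 n2).trans ?_
    by_cases hS0 : S = ∅
    · obtain ⟨e1, e2⟩ := (sv_empty hwz hS).mp hS0
      rw [if_pos e1, if_pos e2, if_pos hS0, mul_one]
    · rw [if_neg hS0]
      by_cases e1 : S ∩ PP 2 (w + 1) = ∅
      · have e2 : ¬ S ∩ PP (w + 1) (z + 1) = ∅ := fun e2 => hS0 ((sv_empty hwz hS).mpr ⟨e1, e2⟩)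
        rw [if_neg e2, mul_zero]
      · rw [if_neg e1, zero_mul]
  · intro g hg
    have hg' : ∀ p : ℕ, p.Prime → 0 ≤ g p ∧ g p ≤ 3 / 4 ∧ g p ≤ 4 / p := fun p hp =>
      ⟨hg.nonneg p hp, hg.le_three p hp, hg.le_four p hp⟩
    obtain ⟨a1, a2, a3⟩ := hfl.f4 g hg'
    have hV1 := sv_V_nonneg hg 2 (w + 1)
    obtain ⟨hV2, hV2'⟩ := abs_le.mp (hVp g hg)
    have hmain : mainT (fun d => cc w z φ (lamR false D) d - cc w z φ (lamR true D) d +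
        cc w z ψ (lamR true D) d) g z = mainT (cc w z φ (lamR false D)) g z -
        mainT (cc w z φ (lamR true D)) g z + mainT (cc w z ψ (lamR true D)) g z := by
      unfold mainT
      rw [← Finset.sum_sub_distrib, ← Finset.sum_add_distrib]
      apply Finset.sum_congr rfl
      intro T _
      ring
    rw [hmain, sv_mainT h6 (by omega) hwz, sv_mainT h6 (by omega) hwz,
      sv_mainT h6 (by omega) hwz, sv_prod hwz]
    have hVp0 : 0 ≤ VV true g (w + 1) D (z + 1) := by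
      apply sv_nonneg g (PP (w + 1) (z + 1))
      · intro p hp
        have := hg' p (Finset.mem_filter.mp hp).2
        exact ⟨this.1, by linarith [this.2.1]⟩
      · intro S _
        refine le_trans ?_ (r4 D S)
        split_ifs <;> norm_num
    -- the function `f`
    have hs2 : 2 ≤ Real.log D / Real.log z := by
      rw [le_div_iff₀ hz0]
      exact hLD2
    have hs4 : Real.log D / Real.log z ≤ 4 := by
      rw [div_le_iff₀ hz0]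
      exact hLD4
    have hfs : A₀ * Real.log (Real.log D / Real.log z - 1) * (Real.log z / Real.log D) =
        f (Real.log D / Real.log z) := by
      rw [hF.f_mid _ hs2 hs4]
      field_simp
    rw [hfs]
    have hLD2' : 2 * Real.log ((z + 1 : ℕ) : ℝ) ≤ Real.log D := by
      have := Real.log_le_log (by positivity) hcase
      rwa [Real.log_pow, Nat.cast_ofNat] at this
    have hsD1 : 1 ≤ Real.log D / Real.log ((z + 1 : ℕ) : ℝ) := by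
      rw [le_div_iff₀ hz1]
      linarith
    have hlip := hF.f_lip (Real.log D / Real.log z) (Real.log D / Real.log ((z + 1 : ℕ) : ℝ))
    have hdiff : |Real.log D / Real.log z - Real.log D / Real.log ((z + 1 : ℕ) : ℝ)| ≤
        4 * ε₄ := by
      have e1 : Real.log D / Real.log ((z + 1 : ℕ) : ℝ) ≤ Real.log D / Real.log z :=
        div_le_div_of_nonneg_left hlD.le hz0 hzz
      rw [abs_of_nonneg (by linarith)]
      have e2 : Real.log D / Real.log z - Real.log D / Real.log ((z + 1 : ℕ) : ℝ) =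
          (Real.log D / Real.log z) * ((Real.log ((z + 1 : ℕ) : ℝ) - Real.log z) /
            Real.log ((z + 1 : ℕ) : ℝ)) := by
        field_simp
      rw [e2]
      have e3 : (Real.log ((z + 1 : ℕ) : ℝ) - Real.log z) / Real.log ((z + 1 : ℕ) : ℝ) ≤ ε₄ := by
        rw [div_le_iff₀ hz1]
        have := mul_le_mul_of_nonneg_left hzz hp.d0.le
        linarith
      have e4 : 0 ≤ (Real.log ((z + 1 : ℕ) : ℝ) - Real.log z) / Real.log ((z + 1 : ℕ) : ℝ) :=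
        div_nonneg (by linarith) hz1.le
      exact mul_le_mul hs4 e3 e4 (by norm_num)
    have hff : f (Real.log D / Real.log z) - 4 * (A₀ * ε₄) ≤
        f (Real.log D / Real.log ((z + 1 : ℕ) : ℝ)) := by
      have e5 := (le_abs_self _).trans (hlip.trans (mul_le_mul_of_nonneg_left hdiff hA.le))
      linarith
    have hκlam : 0 < Real.log ((w + 1 : ℕ) : ℝ) / Real.log ((z + 1 : ℕ) : ℝ) :=
      lt_of_lt_of_le hp.hκ hl
    have hVpA : VV true g (w + 1) D (z + 1) ≤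
        Real.log ((w + 1 : ℕ) : ℝ) / Real.log ((z + 1 : ℕ) : ℝ) * A₀ + ε₂ := by
      have e6 := mul_le_mul_of_nonneg_left (hF.F_le _ hsD1) hκlam.le
      linarith [hLin g hg]
    exact sv_num_lo (κ := κ) (η₁ := η₁) (ε₂ := ε₂) (ε₃ := ε₃) (ε₄ := ε₄)
      (lam := Real.log ((w + 1 : ℕ) : ℝ) / Real.log ((z + 1 : ℕ) : ℝ)) hp hl
      (hF.f_le_one _) (hF.f_nonneg _) (hF.f_nonneg _) hff hV1 (by linarith) (by linarith)
      a1 a2 a3 hVp0 hVpA (hLin2 hcase g hg)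

theorem lr_SV (h1 : St_Rw1) (h2 : St_Rw2) (h3 : St_Lin) (h4 : St_Vp) (h5 : St_Fl) (h6 : St_Cv1) (A₀ : ℝ) (F f : ℝ → ℝ)
    (hF : IsFf A₀ F f) : St_SVs A₀ := by
  have _ := h1
  intro ε hε
  have hA := hF.pos
  obtain ⟨η₁, hη0, hη1, hη2⟩ := sv_eta hA hε
  obtain ⟨s, hs⟩ := h5 η₁ hη0
  refine ⟨ε / (2 * (s + 1)), by positivity, ?_⟩
  intro δ hδ hδ1
  obtain ⟨J, hJ⟩ : ∃ J : ℕ, 2 ≤ δ * J := by
    refine ⟨⌈2 / δ⌉₊, ?_⟩
    have := Nat.le_ceil (2 / δ)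
    rw [div_le_iff₀ hδ] at this
    linarith
  obtain ⟨ε₂, ε₃, ε₄, hpar⟩ := sv_par (κ := δ / 2) hA hε (by positivity) hη0 hη1 hη2
  obtain ⟨ηL, wL, hηL, hwL, hLin⟩ := h3 A₀ F f hF J ε₂ hpar.b0
  obtain ⟨ηV, wV, hηV, hwV, hVp⟩ := h4 J ε₃ hpar.c0
  -- the size of `w`
  obtain ⟨W, hW1, hW2, hW3, hW4, hW5, hW6⟩ : ∃ W : ℝ, (wL : ℝ) ≤ W ∧ (wV : ℝ) ≤ W ∧ 3 ≤ W ∧
      1 / ε₄ ≤ W ∧ 2 / ηL ≤ W ∧ 2 / ηV ≤ W := by
    have p1 : 0 < 1 / ε₄ := one_div_pos.mpr hpar.d0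
    have p2 : 0 < 2 / ηL := by positivity
    have p3 : 0 < 2 / ηV := by positivity
    have p4 : (0 : ℝ) ≤ wL := Nat.cast_nonneg _
    have p5 : (0 : ℝ) ≤ wV := Nat.cast_nonneg _
    refine ⟨wL + wV + 3 + 1 / ε₄ + 2 / ηL + 2 / ηV, ?_, ?_, ?_, ?_, ?_, ?_⟩ <;> linarith
  refine ⟨min ηL ηV / 2, max 2 ⌈(W + 1) ^ (1 / δ)⌉₊, by positivity, ?_⟩
  intro X w z hX hw hwz hzX
  have hX2 : 2 ≤ X := (le_max_left _ _).trans hX
  have hXW : W + 1 ≤ (X : ℝ) ^ δ := by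
    have e1 : (W + 1) ^ (1 / δ) ≤ (X : ℝ) := by
      refine (Nat.le_ceil _).trans ?_
      exact_mod_cast (le_max_right _ _).trans hX
    calc W + 1 = ((W + 1) ^ (1 / δ)) ^ δ := by
          rw [← Real.rpow_mul (by linarith), one_div_mul_cancel hδ.ne', Real.rpow_one]
      _ ≤ (X : ℝ) ^ δ := Real.rpow_le_rpow (by positivity) e1 hδ.le
  obtain ⟨hw3, hWw, hzJ, hXJ, hXe, hl, hlog⟩ :=
    sv_size hδ hδ1 hJ hpar.d0 hW3 hW4 hX2 hXW hw hwz hzX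
  obtain ⟨φ, ψ, f1, f2, f3, f4⟩ := hs (w + 1) (by omega)
  have hfl : SvFl w s η₁ φ ψ := ⟨f1, f2, f3, f4⟩
  have hw0 : (0 : ℝ) < w := by linarith
  -- Mertens
  have hMert : ∀ η' : ℝ, 0 < η' → min ηL ηV ≤ η' → 2 / η' ≤ W → ∀ g, Dens g w z (min ηL ηV / 2) →
      Mert g (w + 1) (z + 1) η' := by
    intro η' h0 hm h2 g hg
    apply sv_Mert hw3 _ hg
    have e1 : 1 / (w : ℝ) ≤ η' / 2 := by
      rw [div_le_iff₀ h0] at h2
      rw [div_le_iff₀ hw0]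
      nlinarith
    linarith
  have hwL' : wL ≤ w + 1 := by
    have : (wL : ℝ) ≤ w := hW1.trans hWw
    have : wL ≤ w := by exact_mod_cast this
    omega
  have hwV' : wV ≤ w + 1 := by
    have : (wV : ℝ) ≤ w := hW2.trans hWw
    have : wV ≤ w := by exact_mod_cast this
    omega
  have hlin : ∀ D : ℝ, 1 < D → D ≤ X → ∀ g, Dens g w z (min ηL ηV / 2) →
      VV true g (w + 1) D (z + 1) ≤
        Real.log ((w + 1 : ℕ) : ℝ) / Real.log ((z + 1 : ℕ) : ℝ) *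
          F (Real.log D / Real.log ((z + 1 : ℕ) : ℝ)) + ε₂ ∧
      ((((z + 1 : ℕ) : ℝ)) ^ 2 ≤ D →
        Real.log ((w + 1 : ℕ) : ℝ) / Real.log ((z + 1 : ℕ) : ℝ) *
          f (Real.log D / Real.log ((z + 1 : ℕ) : ℝ)) - ε₂ ≤ VV false g (w + 1) D (z + 1)) := by
    intro D hD1 hDX g hg
    exact hLin (w + 1) (z + 1) hwL' (by omega) hzJ g hg.nonneg
      (hMert ηL hηL (min_le_left _ _) hW5 g hg) D (z + 1) hD1 (hDX.trans hXJ) (by omega) le_rfl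
  have hvp : ∀ g, Dens g w z (min ηL ηV / 2) → |∏ p ∈ PP (w + 1) (z + 1), (1 - g p) -
      Real.log ((w + 1 : ℕ) : ℝ) / Real.log ((z + 1 : ℕ) : ℝ)| ≤ ε₃ := by
    intro g hg
    exact hVp (w + 1) (z + 1) hwV' (by omega) hzJ g
      (fun p hp => ⟨hg.nonneg p hp, hg.le_four p hp⟩)
      (hMert ηV hηV (min_le_right _ _) hW6 g hg)
  constructor
  · intro D hD2 hD3 hD1 hDX
    exact lr_up h2 h6 hF hpar hfl hw3 hwz hXe hl hlog hD1 hD2 hD3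
      (fun g hg => (hlin D hD1 hDX g hg).1) hvp
  · intro D hD2 hD3 hDX
    have hz3 : (3 : ℝ) ≤ z := by exact_mod_cast hw3.trans hwz
    have hD1 : 1 < D := by nlinarith
    exact lr_lo h2 h6 hF hpar hfl hw3 hwz hXe hl hlog hD2 hD3
      (fun g hg => (hlin D hD1 hDX g hg).1) (fun hc g hg => (hlin D hD1 hDX g hg).2 hc) hvp


end Pool.Agent.CV.LRx

namespace Pool.Agent.CV

open Finset Filter Pool.Agent.MT Pool.Agent.CH Pool.Agent.CU

theorem lr_U (A0 : ℝ) (h : LRx.St_SVs A0) : St_LRU A0 := by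
  intro ε hε
  obtain ⟨δ₀, hδ₀, h1⟩ := h (min ε (1 / 2)) (lt_min hε (by norm_num))
  set ε₁ := min ε (1 / 2) with hε₁
  have hε₁0 : 0 < ε₁ := lt_min hε (by norm_num)
  have hε₁1 : ε₁ ≤ ε := min_le_left _ _
  have hε₁2 : ε₁ ≤ 1 / 2 := min_le_right _ _
  refine ⟨min δ₀ (1 / 30), lt_min hδ₀ (by norm_num), fun δ hδ hδ1 J => ?_⟩
  obtain ⟨η, X₀, hη, h2⟩ := h1 δ hδ (hδ1.trans (min_le_left _ _))
  filter_upwards [ling_dens δ η hδ hη J, eventually_ge_atTop X₀, eventually_ge_atTop 2]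
    with X hD hX0 hX2 z D hz hzD hDz hDX g hg
  have hX1 : (1 : ℝ) ≤ X := by exact_mod_cast (by omega : 1 ≤ X)
  have hXp : (0 : ℝ) < X := by linarith
  obtain ⟨hwz, hz1⟩ := ling_rpow X hX2 δ (hδ1.trans (min_le_right _ _)) z hz
  have hzX : z ≤ X := by exact_mod_cast hzD.trans hDX
  have hD1 : 1 < D := lt_of_lt_of_le hz1 hzD
  have hD8 : (z : ℝ) ≤ D ^ 8 := hzD.trans (le_self_pow₀ hD1.le (by norm_num))
  obtain ⟨c, ⟨hc1, hc4⟩, hc2, hc3⟩ := (h2 X _ z hX0 rfl hwz hzX).1 D hD8 hDz hD1 hDX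
  have hpow : (X : ℝ) ^ ε₁ ≤ (X : ℝ) ^ ε := Real.rpow_le_rpow_of_exponent_le hX1 hε₁1
  refine ⟨c, fun d hd => ?_, hc1.bound, ?_, hc2⟩
  · obtain ⟨a1, a2, a3⟩ := hc1.supp d hd
    exact ⟨a1, a2, a3.trans (mul_le_mul_of_nonneg_left hpow (by linarith)),
      (hc4 d hd).trans hpow⟩
  · have hN : D * (X : ℝ) ^ ε₁ ≤ ((X ^ 2 : ℕ) : ℝ) := by
      have h5 : (X : ℝ) ^ ε₁ ≤ (X : ℝ) ^ (1 : ℝ) :=
        Real.rpow_le_rpow_of_exponent_le hX1 (by linarith)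
      rw [Real.rpow_one] at h5
      push_cast
      rw [pow_two]
      exact mul_le_mul hDX h5 (by positivity) hXp.le
    have h6 := (Pool.Agent.LIN.thm_Cv2 c z _ hc1).1 (X ^ 2) hN (fun T => ∏ p ∈ T, g p)
    rw [h6]
    have h7 := hc3 g (hD z g hzX hg)
    refine le_trans h7 ?_
    have hV := ling_VV_nonneg g z (fun l hl => (hg.1 l hl).2.1)
    exact mul_le_mul_of_nonneg_left (by linarith) hV

theorem lr_L (A0 : ℝ) (h : LRx.St_SVs A0) : St_LRL A0 := by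
  intro ε hε
  obtain ⟨δ₀, hδ₀, h1⟩ := h (min ε (1 / 2)) (lt_min hε (by norm_num))
  set ε₁ := min ε (1 / 2) with hε₁
  have hε₁0 : 0 < ε₁ := lt_min hε (by norm_num)
  have hε₁1 : ε₁ ≤ ε := min_le_left _ _
  have hε₁2 : ε₁ ≤ 1 / 2 := min_le_right _ _
  refine ⟨min δ₀ (1 / 30), lt_min hδ₀ (by norm_num), fun δ hδ hδ1 J => ?_⟩
  obtain ⟨η, X₀, hη, h2⟩ := h1 δ hδ (hδ1.trans (min_le_left _ _))
  filter_upwards [ling_dens δ η hδ hη J, eventually_ge_atTop X₀, eventually_ge_atTop 2]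
    with X hD hX0 hX2 z D hz hzD hDz hDX g hg
  have hX1 : (1 : ℝ) ≤ X := by exact_mod_cast (by omega : 1 ≤ X)
  have hXp : (0 : ℝ) < X := by linarith
  obtain ⟨hwz, hz1⟩ := ling_rpow X hX2 δ (hδ1.trans (min_le_right _ _)) z hz
  have hzD' : (z : ℝ) ≤ D := le_trans (le_self_pow₀ hz1.le (by norm_num)) hzD
  have hzX : z ≤ X := by exact_mod_cast hzD'.trans hDX
  have hD1 : 1 < D := lt_of_lt_of_le hz1 hzD'
  obtain ⟨c, ⟨hc1, hc4⟩, hc2, hc3⟩ := (h2 X _ z hX0 rfl hwz hzX).2 D hzD hDz hDX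
  have hpow : (X : ℝ) ^ ε₁ ≤ (X : ℝ) ^ ε := Real.rpow_le_rpow_of_exponent_le hX1 hε₁1
  refine ⟨c, fun d hd => ?_, hc1.bound, ?_, hc2⟩
  · obtain ⟨a1, a2, a3⟩ := hc1.supp d hd
    exact ⟨a1, a2, a3.trans (mul_le_mul_of_nonneg_left hpow (by linarith)),
      (hc4 d hd).trans hpow⟩
  · have hN : D * (X : ℝ) ^ ε₁ ≤ ((X ^ 2 : ℕ) : ℝ) := by
      have h5 : (X : ℝ) ^ ε₁ ≤ (X : ℝ) ^ (1 : ℝ) :=
        Real.rpow_le_rpow_of_exponent_le hX1 (by linarith)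
      rw [Real.rpow_one] at h5
      push_cast
      rw [pow_two]
      exact mul_le_mul hDX h5 (by positivity) hXp.le
    have h6 := (Pool.Agent.LIN.thm_Cv2 c z _ hc1).1 (X ^ 2) hN (fun T => ∏ p ∈ T, g p)
    rw [h6]
    have h7 := hc3 g (hD z g hzX hg)
    refine le_trans ?_ h7
    have hV := ling_VV_nonneg g z (fun l hl => (hg.1 l hl).2.1)
    refine mul_le_mul_of_nonneg_left ?_ hV
    have e : A0 * (Real.log (Real.log D / Real.log z - 1) * Real.log z / Real.log D) =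
        A0 * Real.log (Real.log D / Real.log z - 1) * (Real.log z / Real.log D) := by ring
    rw [e]
    linarith

/-- keep this signature -/
theorem thm_LR : St_LR := by
  obtain ⟨A₀, F, f, h⟩ := Pool.Agent.LIN.lf
  have hs := LRx.lr_SV Pool.Agent.LIN.thm_Rw1 Pool.Agent.LIN.thm_Rw2 Pool.Agent.LIN.lin
    Pool.Agent.LIN.thm_Vp Pool.Agent.LIN.fl Pool.Agent.LIN.thm_Cv1 A₀ F f h
  exact ⟨A₀, h.pos, lr_U A₀ hs, lr_L A₀ hs⟩

end Pool.Agent.CV
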