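import Mathlib
import Pool.Agent.CV.Stmts
import Pool.Agent.CV.FamL
import Pool.Agent.BVX.MulLS
import Pool.Agent.CU.LSm

set_option autoImplicit false

/-!
# CV / LSF

Sum over all psi mod M first: sum_psi |sum_x a_x chi(x) psi(x)|^2 = phi(M) sum_{u mod M, (u,M)=1} |sum_{x = u mod M} a_x chi(x)|^2.
For fixed u: x = M y - c, the classical large sieve.
-/

namespace Pool.Agent.CV

open Finset Filter Pool.Agent.MT Pool.Agent.CH Pool.Agent.CU

theorem lsf_reindex {β : Type*} [AddCommMonoid β] (M u v c : ℕ) (hM : 1 ≤ M) (hc : c < M)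
    (f : ℕ → β) :
    ∑ x ∈ (Ioc u v).filter (fun x => M ∣ x + c), f x =
      ∑ y ∈ Ioc ((u + c) / M) ((v + c) / M), f (M * y - c) := by
  refine Finset.sum_nbij' (fun x => (x + c) / M) (fun y => M * y - c) ?_ ?_ ?_ ?_ ?_
  · intro x hx
    rw [mem_filter, mem_Ioc] at hx
    obtain ⟨⟨h1, h2⟩, z, hz⟩ := hx
    rw [mem_Ioc, hz, Nat.mul_div_cancel_left _ (by omega)]
    constructor
    · rw [Nat.div_lt_iff_lt_mul (by omega)]
      rw [mul_comm z M, ← hz]
      omega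
    · rw [Nat.le_div_iff_mul_le (by omega)]
      rw [mul_comm z M, ← hz]
      omega
  · intro y hy
    rw [mem_Ioc] at hy
    obtain ⟨h1, h2⟩ := hy
    rw [Nat.div_lt_iff_lt_mul (by omega)] at h1
    rw [Nat.le_div_iff_mul_le (by omega)] at h2
    rw [mul_comm y M] at h1 h2
    rw [mem_filter, mem_Ioc]
    refine ⟨by omega, y, by omega⟩
  · intro x hx
    rw [mem_filter, mem_Ioc] at hx
    obtain ⟨⟨h1, h2⟩, z, hz⟩ := hx
    rw [hz, Nat.mul_div_cancel_left _ (by omega), ← hz]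
    omega
  · intro y hy
    rw [mem_Ioc] at hy
    obtain ⟨h1, h2⟩ := hy
    rw [Nat.div_lt_iff_lt_mul (by omega)] at h1
    rw [mul_comm y M] at h1
    rw [Nat.sub_add_cancel (by omega), Nat.mul_div_cancel_left _ (by omega)]
  · intro x hx
    rw [mem_filter, mem_Ioc] at hx
    obtain ⟨⟨h1, h2⟩, z, hz⟩ := hx
    rw [hz, Nat.mul_div_cancel_left _ (by omega), ← hz]
    congr 1
    omega

/-- reduced fractions times `M` with difference an integer are equal -/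
theorem lsf_ne {M q b q' b' : ℕ} (hq : 1 ≤ q) (hb : b < q) (hb' : b' < q')
    (hMq : q.Coprime M) (hMq' : q'.Coprime M)
    (hc : b.Coprime q) (hc' : b'.Coprime q') (hne : ¬ (q = q' ∧ b = b')) (m : ℤ) :
    (M : ℤ) * b * q' - (M : ℤ) * b' * q - m * (q * q') ≠ 0 := by
  intro h0
  apply hne
  have h1 : (q : ℤ) ∣ (q' : ℤ) := by
    have h2 : (q : ℤ) ∣ (M : ℤ) * (b * q') := by
      refine ⟨(M : ℤ) * b' + m * q', ?_⟩
      linear_combination h0
    have h3 : IsCoprime (q : ℤ) (b : ℤ) := (Nat.isCoprime_iff_coprime.mpr hc).symm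
    have h4 : IsCoprime (q : ℤ) (M : ℤ) := Nat.isCoprime_iff_coprime.mpr hMq
    exact h3.dvd_of_dvd_mul_left (h4.dvd_of_dvd_mul_left h2)
  have h1' : (q' : ℤ) ∣ (q : ℤ) := by
    have h2 : (q' : ℤ) ∣ (M : ℤ) * (b' * q) := by
      refine ⟨(M : ℤ) * b - m * q, ?_⟩
      linear_combination -h0
    have h3 : IsCoprime (q' : ℤ) (b' : ℤ) := (Nat.isCoprime_iff_coprime.mpr hc').symm
    have h4 : IsCoprime (q' : ℤ) (M : ℤ) := Nat.isCoprime_iff_coprime.mpr hMq'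
    exact h3.dvd_of_dvd_mul_left (h4.dvd_of_dvd_mul_left h2)
  have h4 : q = q' := Nat.dvd_antisymm (Int.natCast_dvd_natCast.mp h1)
    (Int.natCast_dvd_natCast.mp h1')
  refine ⟨h4, ?_⟩
  subst h4
  have h6 : (q : ℤ) ≠ 0 := by exact_mod_cast (by omega : q ≠ 0)
  have h5 : (M : ℤ) * ((b : ℤ) - b') = q * m := by
    apply mul_right_cancel₀ h6
    linear_combination h0
  have h7 : (q : ℤ) ∣ (b : ℤ) - b' := by
    have h4 : IsCoprime (q : ℤ) (M : ℤ) := Nat.isCoprime_iff_coprime.mpr hMq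
    exact h4.dvd_of_dvd_mul_left ⟨m, h5⟩
  have h8 : (b : ℤ) - b' = 0 := by
    apply Int.eq_zero_of_abs_lt_dvd h7
    rw [abs_lt]
    constructor <;> omega
  omega

/-- spacing -/
theorem lsf_spacing {M k b k' b' K : ℕ} (hk : 1 ≤ k) (hkK : k ≤ 2 * K) (hk' : 1 ≤ k')
    (hkK' : k' ≤ 2 * K) (hMk : k.Coprime M) (hMk' : k'.Coprime M) (hb : b < k) (hb' : b' < k')
    (hc : b.Coprime k) (hc' : b'.Coprime k') (hne : ¬ (k = k' ∧ b = b')) :
    1 / (4 * (K : ℝ) ^ 2) ≤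
      BVX.dd ((M : ℝ) * ((b : ℝ) / (k : ℝ)) - (M : ℝ) * ((b' : ℝ) / (k' : ℝ))) := by
  have hk0 : (0 : ℝ) < k := by exact_mod_cast hk
  have hk0' : (0 : ℝ) < k' := by exact_mod_cast hk'
  set m : ℤ := round ((M : ℝ) * ((b : ℝ) / (k : ℝ)) - (M : ℝ) * ((b' : ℝ) / (k' : ℝ))) with hm
  have e1 : ((M : ℝ) * ((b : ℝ) / (k : ℝ)) - (M : ℝ) * ((b' : ℝ) / (k' : ℝ))) - m =
      (((M : ℤ) * b * k' - (M : ℤ) * b' * k - m * (k * k') : ℤ) : ℝ) / (k * k') := by
    push_cast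
    field_simp
  have hnz := lsf_ne hk hb hb' hMk hMk' hc hc' hne m
  have h12 : (1 : ℝ) ≤ |(((M : ℤ) * b * k' - (M : ℤ) * b' * k - m * (k * k') : ℤ) : ℝ)| := by
    rw [← Int.cast_abs]
    exact_mod_cast Int.one_le_abs hnz
  unfold BVX.dd
  rw [← hm, e1, abs_div, abs_of_pos (mul_pos hk0 hk0')]
  have hR : (k : ℝ) * k' ≤ 4 * (K : ℝ) ^ 2 := by
    have e2 : (k : ℝ) ≤ 2 * K := by exact_mod_cast hkK
    have e3 : (k' : ℝ) ≤ 2 * K := by exact_mod_cast hkK'
    nlinarith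
  calc 1 / (4 * (K : ℝ) ^ 2) ≤ 1 / ((k : ℝ) * k') :=
        one_div_le_one_div_of_le (mul_pos hk0 hk0') hR
    _ ≤ _ := div_le_div_of_nonneg_right h12 (mul_pos hk0 hk0').le

theorem lsf_ee_add (x y : ℝ) : BVX.ee (x + y) = BVX.ee x * BVX.ee y := by
  unfold BVX.ee
  rw [← Complex.exp_add]
  congr 1
  push_cast
  ring

theorem lsf_ee_norm (x : ℝ) : ‖BVX.ee x‖ = 1 := by
  unfold BVX.ee
  rw [Complex.norm_exp_ofReal_mul_I]

/-- the large sieve for one class -/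
theorem lsf_class (K M u v c : ℕ) (hK : 1 ≤ K) (hM : 1 ≤ M) (hc : c < M) (huv : u ≤ v)
    (a : ℕ → ℂ) :
    ∑ k ∈ (Ioc K (2 * K)).filter (fun k => k.Coprime M), ∑ χ ∈ prim k,
      ‖∑ x ∈ (Ioc u v).filter (fun x => M ∣ x + c), a x * χ (x : ZMod k)‖ ^ 2 ≤
    16 * ((((v + c) / M : ℕ) : ℝ) - (((u + c) / M : ℕ) : ℝ) + 4 * (K : ℝ) ^ 2) *
      ∑ x ∈ (Ioc u v).filter (fun x => M ∣ x + c), ‖a x‖ ^ 2 := by
  classical
  have hK1 : (1 : ℝ) ≤ K := by exact_mod_cast hK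
  have hKK : (1 : ℝ) ≤ 4 * (K : ℝ) ^ 2 := by nlinarith
  set S : Finset (Σ _ : ℕ, ℕ) :=
    ((Ioc K (2 * K)).filter (fun k => k.Coprime M)).sigma
      (fun k => (range k).filter (fun b => b.Coprime k)) with hS
  have hmem : ∀ x ∈ S, 1 ≤ x.1 ∧ x.1 ≤ 2 * K ∧ x.1.Coprime M ∧ x.2 < x.1 ∧ x.2.Coprime x.1 := by
    intro x hx
    rw [hS, mem_sigma, mem_filter, mem_Ioc, mem_filter, mem_range] at hx
    exact ⟨by omega, hx.1.1.2, hx.1.2, hx.2.1, hx.2.2⟩
  have h1 := BVX.add_ls S (fun x => (M : ℝ) * ((x.2 : ℝ) / (x.1 : ℝ))) (1 / (4 * (K : ℝ) ^ 2))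
    (by positivity)
    (by
      rw [div_le_one (by positivity)]
      exact hKK)
    (fun y hy z hz hyz => by
      obtain ⟨y1, y2, y3, y4, y5⟩ := hmem y hy
      obtain ⟨z1, z2, z3, z4, z5⟩ := hmem z hz
      refine lsf_spacing y1 y2 z1 z2 y3 z3 y4 z4 y5 z5 ?_
      rintro ⟨e1, e2⟩
      apply hyz
      obtain ⟨y1, y2⟩ := y
      obtain ⟨z1, z2⟩ := z
      simp only at e1 e2
      subst e1
      subst e2
      rfl) ((u + c) / M) ((v + c) / M) (Nat.div_le_div_right (by omega)) (fun y => a (M * y - c))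
  rw [one_div_one_div, ← lsf_reindex M u v c hM hc (fun x => ‖a x‖ ^ 2)] at h1
  refine le_trans ?_ h1
  rw [hS, sum_sigma]
  refine sum_le_sum fun k hk => ?_
  rw [mem_filter, mem_Ioc] at hk
  have : NeZero k := ⟨by omega⟩
  refine (BVX.one_mod ((Ioc u v).filter (fun x => M ∣ x + c)) a).trans (le_of_eq ?_)
  refine sum_congr rfl fun b _ => ?_
  simp only
  congr 1
  rw [lsf_reindex M u v c hM hc (fun x => a x * BVX.ee (x * ((b : ℝ) / k)))]
  have h2 : ∀ y ∈ Ioc ((u + c) / M) ((v + c) / M),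
      a (M * y - c) * BVX.ee (((M * y - c : ℕ) : ℝ) * ((b : ℝ) / k)) =
      BVX.ee (-((c : ℝ) * ((b : ℝ) / k))) *
        (a (M * y - c) * BVX.ee (y * ((M : ℝ) * ((b : ℝ) / k)))) := by
    intro y hy
    rw [mem_Ioc] at hy
    obtain ⟨h1, h2⟩ := hy
    rw [Nat.div_lt_iff_lt_mul (by omega)] at h1
    rw [mul_comm y M] at h1
    have h3 : c ≤ M * y := by omega
    have h4 : (((M * y - c : ℕ) : ℝ) * ((b : ℝ) / k)) =
        -((c : ℝ) * ((b : ℝ) / k)) + (y * ((M : ℝ) * ((b : ℝ) / k))) := by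
      rw [Nat.cast_sub h3]
      push_cast
      ring
    rw [h4, lsf_ee_add]
    ring
  rw [sum_congr rfl h2, ← mul_sum, norm_mul, lsf_ee_norm, one_mul]

/-- sum over all characters modulo `M` -/
theorem lsf_allchars (M : ℕ) (hM : 1 ≤ M) (I : Finset ℕ) (g : ℕ → ℂ) :
    ∑ ψ : DirichletCharacter ℂ M, ‖∑ x ∈ I, g x * ψ (x : ZMod M)‖ ^ 2 ≤
      (M : ℝ) * ∑ c ∈ range M, ‖∑ x ∈ I.filter (fun x => M ∣ x + c), g x‖ ^ 2 := by
  classical
  have : NeZero M := ⟨by omega⟩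
  have h0 : ∑ ψ : DirichletCharacter ℂ M, ‖∑ x ∈ I, g x * ψ (x : ZMod M)‖ ^ 2 =
      ∑ ψ : DirichletCharacter ℂ M, ‖∑ b : ZMod M, ψ⁻¹ b *
        (fun b : ZMod M => ∑ x ∈ I.filter (fun x : ℕ => (x : ZMod M) = b), g x) b‖ ^ 2 := by
    rw [← Equiv.sum_comp (Equiv.inv (DirichletCharacter ℂ M))]
    refine sum_congr rfl fun ψ _ => ?_
    congr 2
    rw [← Finset.sum_fiberwise I (fun x : ℕ => (x : ZMod M))]
    refine sum_congr rfl fun b _ => ?_
    simp only [Equiv.inv_apply]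
    rw [mul_sum]
    refine sum_congr rfl fun x hx => ?_
    rw [mem_filter] at hx
    rw [hx.2, mul_comm]
  rw [h0, BVX.all_chars]
  apply mul_le_mul
  · exact_mod_cast Nat.totient_le M
  · have h1 : ∀ b : ZMod M, (if IsUnit b then
        ‖(fun b : ZMod M => ∑ x ∈ I.filter (fun x : ℕ => (x : ZMod M) = b), g x) b‖ ^ 2 else 0) ≤
        ‖∑ x ∈ I.filter (fun x : ℕ => (x : ZMod M) = b), g x‖ ^ 2 := by
      intro b
      split_ifs
      · exact le_rfl
      · exact sq_nonneg _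
    refine (sum_le_sum fun b _ => h1 b).trans (le_of_eq ?_)
    refine Finset.sum_nbij' (fun b => (-b).val) (fun c => -(c : ZMod M)) ?_ ?_ ?_ ?_ ?_
    · intro b _
      rw [mem_range]
      exact ZMod.val_lt _
    · intro c _
      exact mem_univ _
    · intro b _
      rw [ZMod.natCast_val, ZMod.cast_id, neg_neg]
    · intro c hc
      rw [mem_range] at hc
      rw [neg_neg, ZMod.val_natCast_of_lt hc]
    · intro b _
      congr 3
      ext x
      rw [mem_filter, mem_filter]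
      refine and_congr_right fun _ => ?_
      rw [← ZMod.natCast_eq_zero_iff]
      push_cast
      rw [ZMod.natCast_val, ZMod.cast_id, ← sub_eq_add_neg, sub_eq_zero]
  · exact sum_nonneg fun b _ => by
      split_ifs
      · exact sq_nonneg _
      · exact le_rfl
  · positivity

/-- keep this signature -/
theorem thm_LSF : St_LSF := by
  classical
  refine ⟨80, by norm_num, ?_⟩
  intro K M u v hK hM huv a
  have hK1 : (1 : ℝ) ≤ K := by exact_mod_cast hK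
  have hM1 : (1 : ℝ) ≤ M := by exact_mod_cast hM
  have huv' : (u : ℝ) ≤ v := by exact_mod_cast huv
  have h1 : Fam K M (fun k χ ψ =>
      ‖∑ x ∈ Ioc u v, a x * (χ (x : ZMod k) * ψ (x : ZMod M))‖ ^ 2) ≤
      (M : ℝ) * ∑ c ∈ range M, ∑ k ∈ (Ioc K (2 * K)).filter (fun k => k.Coprime M),
        ∑ χ ∈ prim k,
          ‖∑ x ∈ (Ioc u v).filter (fun x => M ∣ x + c), a x * χ (x : ZMod k)‖ ^ 2 := by
    rw [sum_comm, mul_sum]
    unfold Fam
    refine sum_le_sum fun k _ => ?_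
    have h5 : (M : ℝ) * ∑ c ∈ range M, ∑ χ ∈ prim k,
          ‖∑ x ∈ (Ioc u v).filter (fun x => M ∣ x + c), a x * χ (x : ZMod k)‖ ^ 2 =
        ∑ χ ∈ prim k, (M : ℝ) * ∑ c ∈ range M,
          ‖∑ x ∈ (Ioc u v).filter (fun x => M ∣ x + c), a x * χ (x : ZMod k)‖ ^ 2 := by
      rw [sum_comm, mul_sum]
    rw [h5]
    refine sum_le_sum fun χ _ => ?_
    refine le_trans (le_of_eq ?_) (lsf_allchars M hM (Ioc u v) (fun x => a x * χ (x : ZMod k)))
    refine sum_congr rfl fun ψ _ => ?_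
    change ‖∑ x ∈ Ioc u v, a x * (χ (x : ZMod k) * ψ (x : ZMod M))‖ ^ 2 =
      ‖∑ x ∈ Ioc u v, a x * χ (x : ZMod k) * ψ (x : ZMod M)‖ ^ 2
    have h6 : ∑ x ∈ Ioc u v, a x * (χ (x : ZMod k) * ψ (x : ZMod M)) =
        ∑ x ∈ Ioc u v, a x * χ (x : ZMod k) * ψ (x : ZMod M) :=
      sum_congr rfl fun x _ => by ring
    rw [h6]
  refine h1.trans ?_
  have h2 : ∀ c ∈ range M, ∑ k ∈ (Ioc K (2 * K)).filter (fun k => k.Coprime M), ∑ χ ∈ prim k,
      ‖∑ x ∈ (Ioc u v).filter (fun x => M ∣ x + c), a x * χ (x : ZMod k)‖ ^ 2 ≤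
      16 * (((v : ℝ) - u) / M + 1 + 4 * (K : ℝ) ^ 2) *
        ∑ x ∈ (Ioc u v).filter (fun x => M ∣ x + c), ‖a x‖ ^ 2 := by
    intro c hc
    rw [mem_range] at hc
    refine (lsf_class K M u v c hK hM hc huv a).trans ?_
    apply mul_le_mul_of_nonneg_right
    · have h3 : (((v + c) / M : ℕ) : ℝ) ≤ ((v : ℝ) + c) / M := by
        have := @Nat.cast_div_le ℝ _ _ _ (v + c) M
        push_cast at this
        exact this
      have h4 : ((u : ℝ) + c) / M ≤ (((u + c) / M : ℕ) : ℝ) + 1 := by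
        rw [div_le_iff₀ (by linarith)]
        have h5 : u + c < ((u + c) / M + 1) * M := by
          have h6 := Nat.div_add_mod (u + c) M
          have h7 := Nat.mod_lt (u + c) (show 0 < M by omega)
          rw [add_mul, mul_comm, one_mul]
          omega
        exact_mod_cast h5.le
      have h5 : ((v : ℝ) + c) / M - ((u : ℝ) + c) / M = ((v : ℝ) - u) / M := by
        ring
      linarith
    · exact sum_nonneg fun _ _ => sq_nonneg _
  have h3 : ∑ c ∈ range M, ∑ x ∈ (Ioc u v).filter (fun x => M ∣ x + c), ‖a x‖ ^ 2 =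
      ∑ x ∈ Ioc u v, ‖a x‖ ^ 2 := by
    have : NeZero M := ⟨by omega⟩
    rw [← Finset.sum_fiberwise_of_maps_to (s := Ioc u v) (t := range M)
      (g := fun x : ℕ => (-(x : ZMod M)).val) (fun x _ => by
        rw [mem_range]
        exact ZMod.val_lt _)]
    refine sum_congr rfl fun c hc => ?_
    rw [mem_range] at hc
    refine sum_congr ?_ fun _ _ => rfl
    ext x
    rw [mem_filter, mem_filter]
    refine and_congr_right fun _ => ?_
    rw [← ZMod.natCast_eq_zero_iff]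
    push_cast
    constructor
    · intro h
      have h6 : (c : ZMod M) = -(x : ZMod M) := by
        rw [eq_neg_iff_add_eq_zero, add_comm]
        exact h
      rw [← h6, ZMod.val_natCast_of_lt hc]
    · intro h
      rw [← h, ZMod.natCast_val, ZMod.cast_id]
      ring
  calc (M : ℝ) * ∑ c ∈ range M, ∑ k ∈ (Ioc K (2 * K)).filter (fun k => k.Coprime M),
        ∑ χ ∈ prim k,
          ‖∑ x ∈ (Ioc u v).filter (fun x => M ∣ x + c), a x * χ (x : ZMod k)‖ ^ 2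
      ≤ (M : ℝ) * ∑ c ∈ range M, (16 * (((v : ℝ) - u) / M + 1 + 4 * (K : ℝ) ^ 2) *
        ∑ x ∈ (Ioc u v).filter (fun x => M ∣ x + c), ‖a x‖ ^ 2) :=
        mul_le_mul_of_nonneg_left (sum_le_sum h2) (by linarith)
    _ = (16 * (((v : ℝ) - u) + M * (1 + 4 * (K : ℝ) ^ 2))) * ∑ x ∈ Ioc u v, ‖a x‖ ^ 2 := by
        rw [← mul_sum, h3]
        field_simp
        ring
    _ ≤ 80 * ((v : ℝ) - u + M * (K : ℝ) ^ 2) * ∑ x ∈ Ioc u v, ‖a x‖ ^ 2 := by
        apply mul_le_mul_of_nonneg_right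
        · have h4 : (1 : ℝ) ≤ (K : ℝ) ^ 2 := by nlinarith
          nlinarith
        · exact sum_nonneg fun _ _ => sq_nonneg _

end Pool.Agent.CV
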