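import Mathlib
import Pool.Agent.CV.Stmts
import Pool.Agent.CV.FamL
import Pool.Agent.CU.JB
import Pool.Agent.Helper88.MD.Div

set_option autoImplicit false

/-!
# CV / LevB

Level of distribution for the products `p₁ p₂ p₃` and the multiples of `h` in their tiles:
`St_RedB` summed over squarefree `h ≤ n^θ`; non coprime part by divisor bounds, small conductors
by the inequality of Pólya and Vinogradov, large ones by the large sieve.
-/

namespace Pool.Agent.CV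

open Finset Filter Pool.Agent.MT Pool.Agent.CH Pool.Agent.CU

/-! ### elementary lemmas -/

private theorem levb_div (ε : ℝ) (hε : 0 < ε) : ∃ C : ℝ, 1 ≤ C ∧ ∀ n x : ℕ, 1 ≤ x → x ≤ n →
    (x.divisors.card : ℝ) ≤ C * (n : ℝ) ^ ε := by
  obtain ⟨C, hC⟩ := Pool.Agent.Helper88.MD.divisorBound ε hε
  refine ⟨max C 1, le_max_right _ _, fun n x hx hxn => ?_⟩
  have hx0 : (0 : ℝ) < x := by exact_mod_cast hx
  have h1 : (x : ℝ) ^ ε ≤ (n : ℝ) ^ ε :=
    Real.rpow_le_rpow hx0.le (by exact_mod_cast hxn) hε.le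
  calc (x.divisors.card : ℝ) ≤ C * (x : ℝ) ^ ε := hC x hx
    _ ≤ max C 1 * (x : ℝ) ^ ε := mul_le_mul_of_nonneg_right (le_max_left _ _) (by positivity)
    _ ≤ max C 1 * (n : ℝ) ^ ε := mul_le_mul_of_nonneg_left h1 (by positivity)

private theorem levb_pf {x : ℕ} (hx : 1 ≤ x) : x.primeFactors.card ≤ x.divisors.card :=
  Finset.card_le_card fun _ hp => Nat.mem_divisors.2 ⟨Nat.dvd_of_mem_primeFactors hp, by omega⟩

private theorem levb_omega {x : ℕ} (hx : 1 ≤ x) :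
    (2 : ℝ) ^ x.primeFactors.card ≤ x.divisors.card := by
  have hx0 : x ≠ 0 := by omega
  have h1 : x.divisors.card = ∏ p ∈ x.primeFactors, (x.factorization p + 1) := Nat.card_divisors hx0
  have h2 : 2 ^ x.primeFactors.card ≤ ∏ p ∈ x.primeFactors, (x.factorization p + 1) := by
    rw [← Finset.prod_const]
    refine Finset.prod_le_prod' fun p hp => ?_
    have h3 := (Nat.prime_of_mem_primeFactors hp).factorization_pos_of_dvd hx0
      (Nat.dvd_of_mem_primeFactors hp)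
    omega
  rw [h1]
  exact_mod_cast h2

private theorem levb_tot {x : ℕ} (hx : 1 ≤ x) :
    1 / (x.totient : ℝ) ≤ x.divisors.card / x := by
  have h1 := Pool.Agent.Helper88.MD.le_totient_mul_divisors x hx
  have h2 : (x : ℝ) ≤ (x.totient : ℝ) * (x.divisors.card : ℝ) := by exact_mod_cast h1
  have h3 : 0 < x.totient := Nat.totient_pos.2 hx
  have h4 : (0 : ℝ) < x.totient := by exact_mod_cast h3
  have h5 : (0 : ℝ) < x := by exact_mod_cast hx
  rw [div_le_div_iff₀ h4 h5]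
  linarith

private theorem levb_harm {H n : ℕ} (hH : H ≤ n) :
    ∑ h ∈ Icc 1 H, 1 / (h : ℝ) ≤ 1 + Real.log n := by
  have h1 : ∑ h ∈ Icc 1 H, 1 / (h : ℝ) ≤ ∑ h ∈ Icc 1 n, 1 / (h : ℝ) := by
    refine Finset.sum_le_sum_of_subset_of_nonneg (Finset.Icc_subset_Icc le_rfl hH) ?_
    intro i _ _
    positivity
  have h2 := harmonic_le_one_add_log n
  rw [harmonic_eq_sum_Icc] at h2
  push_cast at h2
  refine h1.trans ?_
  simpa [one_div] using h2

/-- multiples of `l` in an interval -/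
private theorem levb_mult {n m l : ℕ} (hmn : m ≤ n) (hl : 1 ≤ l) :
    (((range m).filter (fun r => l ∣ n - r)).card : ℝ) ≤ (m : ℝ) / l + 1 := by
  have h1 : ((range m).filter (fun r => l ∣ n - r)).card ≤
      ((Ioc (n - m) n).filter (fun j => l ∣ j)).card := by
    refine Finset.card_le_card_of_injOn (fun r => n - r) ?_ ?_
    · intro r hr
      have hr' := Finset.mem_filter.1 (Finset.mem_coe.1 hr)
      rw [Finset.mem_range] at hr'
      rw [Finset.mem_coe, Finset.mem_filter, Finset.mem_Ioc]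
      refine ⟨⟨?_, Nat.sub_le _ _⟩, hr'.2⟩
      change n - m < n - r
      omega
    · intro a ha b hb hab
      have ha' := Finset.mem_filter.1 (Finset.mem_coe.1 ha)
      have hb' := Finset.mem_filter.1 (Finset.mem_coe.1 hb)
      rw [Finset.mem_range] at ha' hb'
      simp only at hab
      omega
  have h2 : ((Ioc (n - m) n).filter (fun j => l ∣ j)).card + (n - m) / l = n / l := by
    rw [← Nat.Ioc_filter_dvd_card_eq_div n l, ← Nat.Ioc_filter_dvd_card_eq_div (n - m) l,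
      ← Finset.card_union_of_disjoint]
    · congr 1
      ext j
      simp only [Finset.mem_union, Finset.mem_filter, Finset.mem_Ioc]
      constructor
      · rintro (⟨⟨h1, h2⟩, h3⟩ | ⟨⟨h1, h2⟩, h3⟩)
        · exact ⟨⟨by omega, by omega⟩, h3⟩
        · exact ⟨⟨by omega, by omega⟩, h3⟩
      · rintro ⟨⟨h1, h2⟩, h3⟩
        rcases Nat.lt_or_ge (n - m) j with h4 | h4
        · exact Or.inl ⟨⟨h4, h2⟩, h3⟩
        · exact Or.inr ⟨⟨h1, h4⟩, h3⟩
    · rw [Finset.disjoint_left]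
      intro j hj hj'
      rw [Finset.mem_filter, Finset.mem_Ioc] at hj hj'
      omega
  have hl0 : (0 : ℝ) < l := by exact_mod_cast hl
  have h3 : ((n / l : ℕ) : ℝ) ≤ (n : ℝ) / l := Nat.cast_div_le
  have h4 : ((n - m : ℕ) : ℝ) / l - 1 ≤ (((n - m) / l : ℕ) : ℝ) := by
    have h5 : n - m < l * ((n - m) / l + 1) := Nat.lt_mul_div_succ _ hl
    have h6 : ((n - m : ℕ) : ℝ) < l * ((((n - m) / l : ℕ) : ℝ) + 1) := by exact_mod_cast h5
    rw [sub_le_iff_le_add, div_le_iff₀ hl0]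
    linarith
  have h7 : (((Ioc (n - m) n).filter (fun j => l ∣ j)).card : ℝ) + (((n - m) / l : ℕ) : ℝ) =
      ((n / l : ℕ) : ℝ) := by exact_mod_cast h2
  have h8 : ((n - m : ℕ) : ℝ) = n - m := by rw [Nat.cast_sub hmn]
  have h9 : (((range m).filter (fun r => l ∣ n - r)).card : ℝ) ≤
      (((Ioc (n - m) n).filter (fun j => l ∣ j)).card : ℝ) := by exact_mod_cast h1
  rw [h8] at h4
  have h10 : ((n : ℝ) - m) / l = n / l - m / l := by ring
  rw [h10] at h4
  linarith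

/-! ### properties of `bt` -/

private theorem levb_bt {z y q : ℕ} : 0 ≤ bt z y q ∧ bt z y q ≤ 1 := by
  unfold bt
  split_ifs <;> norm_num

private theorem levb_bt_tri {z y q : ℕ} (h : bt z y q ≠ 0) : Tri z y q := by
  unfold bt at h
  by_contra hc
  rw [if_neg hc] at h
  exact h rfl

private theorem levb_bt_pos {z y q : ℕ} (h : bt z y q ≠ 0) : 1 ≤ q := by
  obtain ⟨p₁, p₂, p₃, h1, h2, h3, _, _, _, _, rfl⟩ := levb_bt_tri h
  exact Nat.mul_pos (Nat.mul_pos h1.pos h2.pos) h3.pos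

private theorem levb_bt_prime {z y q l : ℕ} (h : bt z y q ≠ 0) (hl : l.Prime) (hlq : l ∣ q) :
    z < l := by
  obtain ⟨p₁, p₂, p₃, h1, h2, h3, h4, h5, h6, h7, rfl⟩ := levb_bt_tri h
  rcases (Nat.Prime.dvd_mul hl).1 hlq with h8 | h8
  · rcases (Nat.Prime.dvd_mul hl).1 h8 with h9 | h9
    · rw [(Nat.prime_dvd_prime_iff_eq hl h1).1 h9]
      exact h4
    · rw [(Nat.prime_dvd_prime_iff_eq hl h2).1 h9]
      omega
  · rw [(Nat.prime_dvd_prime_iff_eq hl h3).1 h8]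
    omega

/-- the weights -/
private theorem levb_w {η : ℝ → ℝ} (hη : IsWt η) {N z y q : ℕ} :
    0 ≤ bt z y q * η ((q : ℝ) / N) ∧ bt z y q * η ((q : ℝ) / N) ≤ 1 := by
  constructor
  · exact mul_nonneg levb_bt.1 (hη.nonneg _)
  · exact mul_le_one₀ levb_bt.2 (hη.nonneg _) (hη.le_one _)

private theorem levb_w_ne {η : ℝ → ℝ} (hη : IsWt η) {N z y q m n r : ℕ} (hN : 1 ≤ N)
    (hT : Tile N m n) (h : bt z y q * η ((q : ℝ) / N) ≠ 0) (hr : r < m) :
    bt z y q ≠ 0 ∧ 1 ≤ n - m * q - r ∧ n - m * q - r ≤ n ∧ m * q + (n - m * q - r) = n - r := by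
  obtain ⟨h1, h2⟩ := mul_ne_zero_iff.1 h
  have h3 := (hη.supp _ h2).2
  have hN0 : (0 : ℝ) < N := by exact_mod_cast hN
  rw [div_lt_iff₀ hN0] at h3
  have h4 : (q : ℝ) < N := by linarith
  have h5 : q < N := by exact_mod_cast h4
  obtain ⟨h6, h7, _⟩ := hT
  have h8 : m * (q + 1) ≤ m * N := Nat.mul_le_mul_left m h5
  have h9 : m * q + m ≤ n := by
    calc m * q + m = m * (q + 1) := by ring
      _ ≤ m * N := h8
      _ ≤ n := h7
  refine ⟨h1, ?_, ?_, ?_⟩ <;> omega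

/-! ### the non coprime part -/

private theorem levb_S1a {η : ℝ → ℝ} (hη : IsWt η) {N z y n h f : ℕ} (D : ℝ)
    (hz : 1 ≤ z) (hh : 1 ≤ h) (hhn : h ≤ n) (hfh : f ∣ h)
    (hD : ∀ x : ℕ, 1 ≤ x → x ≤ n → (x.divisors.card : ℝ) ≤ D) :
    ∑ q ∈ (range (N + 1)).filter (fun q => ¬ q.Coprime f), bt z y q * η ((q : ℝ) / N) ≤
      D * (N / z) := by
  classical
  have hz0 : (0 : ℝ) < z := by exact_mod_cast hz
  set S : Finset ℕ := (h.primeFactors.filter (fun l => z < l)).biUnion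
    (fun l => (Ioc 0 N).filter (fun q => l ∣ q)) with hS
  have h1 : ∀ q ∈ (range (N + 1)).filter (fun q => ¬ q.Coprime f),
      bt z y q * η ((q : ℝ) / N) ≤ if q ∈ S then (1 : ℝ) else 0 := by
    intro q hq
    rw [Finset.mem_filter, Finset.mem_range] at hq
    by_cases hw : bt z y q * η ((q : ℝ) / N) = 0
    · rw [hw]
      split_ifs <;> norm_num
    · have hb := (mul_ne_zero_iff.1 hw).1
      have hqS : q ∈ S := by
        obtain ⟨l, hl, hlq, hlf⟩ := Nat.Prime.not_coprime_iff_dvd.1 hq.2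
        rw [hS, Finset.mem_biUnion]
        refine ⟨l, ?_, ?_⟩
        · rw [Finset.mem_filter, Nat.mem_primeFactors]
          exact ⟨⟨hl, hlf.trans hfh, by omega⟩, levb_bt_prime hb hl hlq⟩
        · rw [Finset.mem_filter, Finset.mem_Ioc]
          have := levb_bt_pos hb
          exact ⟨⟨by omega, by omega⟩, hlq⟩
      rw [if_pos hqS]
      exact (levb_w hη).2
  refine (Finset.sum_le_sum h1).trans ?_
  have h2 : ∑ q ∈ (range (N + 1)).filter (fun q => ¬ q.Coprime f),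
      (if q ∈ S then (1 : ℝ) else 0) ≤ (S.card : ℝ) := by
    rw [← Finset.sum_filter, Finset.sum_const, nsmul_eq_mul, mul_one]
    exact_mod_cast Finset.card_le_card fun q hq => (Finset.mem_filter.1 hq).2
  refine h2.trans ?_
  have h3 : (S.card : ℝ) ≤ ∑ l ∈ h.primeFactors.filter (fun l => z < l),
      (((Ioc 0 N).filter (fun q => l ∣ q)).card : ℝ) := by
    exact_mod_cast Finset.card_biUnion_le
  refine h3.trans ?_
  have h4 : ∀ l ∈ h.primeFactors.filter (fun l => z < l),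
      (((Ioc 0 N).filter (fun q => l ∣ q)).card : ℝ) ≤ (N : ℝ) / z := by
    intro l hl
    rw [Nat.Ioc_filter_dvd_card_eq_div]
    have hzl : (z : ℝ) ≤ l := by exact_mod_cast (Finset.mem_filter.1 hl).2.le
    exact (Nat.cast_div_le).trans (div_le_div_of_nonneg_left (Nat.cast_nonneg N) hz0 hzl)
  refine (Finset.sum_le_sum h4).trans ?_
  rw [Finset.sum_const, nsmul_eq_mul]
  refine mul_le_mul_of_nonneg_right ?_ (by positivity)
  refine le_trans ?_ (hD h hh hhn)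
  exact_mod_cast (Finset.card_filter_le _ _).trans (levb_pf hh)

private theorem levb_S1b {z m n : ℕ} (D : ℝ) (hz : 1 ≤ z) (hmn : m ≤ n)
    (hD1 : 1 ≤ D) (hD : ∀ x : ℕ, 1 ≤ x → x ≤ n → (x.divisors.card : ℝ) ≤ D) (q : ℕ)
    (hqn : q ≤ n) :
    ∑ r ∈ range m, (if 1 ≤ q ∧ ∃ l ∈ q.primeFactors, z < l ∧ l ∣ n - r then D else 0) ≤
      D ^ 2 * (m / z + 1) := by
  classical
  have hz0 : (0 : ℝ) < z := by exact_mod_cast hz
  rcases Nat.eq_zero_or_pos q with hq | hq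
  · rw [Finset.sum_eq_zero]
    · positivity
    · intro r _
      rw [if_neg]
      rintro ⟨h1, _⟩
      omega
  · rw [← Finset.sum_filter, Finset.sum_const, nsmul_eq_mul]
    have h1 : (range m).filter (fun r => 1 ≤ q ∧ ∃ l ∈ q.primeFactors, z < l ∧ l ∣ n - r) ⊆
        (q.primeFactors.filter (fun l => z < l)).biUnion
          (fun l => (range m).filter (fun r => l ∣ n - r)) := by
      intro r hr
      rw [Finset.mem_filter] at hr
      obtain ⟨hr1, _, l, hl, hzl, hln⟩ := hr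
      rw [Finset.mem_biUnion]
      exact ⟨l, Finset.mem_filter.2 ⟨hl, hzl⟩, Finset.mem_filter.2 ⟨hr1, hln⟩⟩
    have h2 : (((range m).filter
        (fun r => 1 ≤ q ∧ ∃ l ∈ q.primeFactors, z < l ∧ l ∣ n - r)).card : ℝ) ≤
        ∑ l ∈ q.primeFactors.filter (fun l => z < l),
          (((range m).filter (fun r => l ∣ n - r)).card : ℝ) := by
      exact_mod_cast (Finset.card_le_card h1).trans Finset.card_biUnion_le
    have h3 : ∀ l ∈ q.primeFactors.filter (fun l => z < l),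
        (((range m).filter (fun r => l ∣ n - r)).card : ℝ) ≤ (m : ℝ) / z + 1 := by
      intro l hl
      have hl' := Finset.mem_filter.1 hl
      have hzl : (z : ℝ) ≤ l := by exact_mod_cast hl'.2.le
      refine (levb_mult hmn (by omega)).trans ?_
      have := div_le_div_of_nonneg_left (Nat.cast_nonneg (α := ℝ) m) hz0 hzl
      linarith
    have h4 : (((range m).filter
        (fun r => 1 ≤ q ∧ ∃ l ∈ q.primeFactors, z < l ∧ l ∣ n - r)).card : ℝ) ≤
        D * ((m : ℝ) / z + 1) := by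
      refine h2.trans ((Finset.sum_le_sum h3).trans ?_)
      rw [Finset.sum_const, nsmul_eq_mul]
      refine mul_le_mul_of_nonneg_right ?_ (by positivity)
      refine le_trans ?_ (hD q hq hqn)
      exact_mod_cast (Finset.card_filter_le _ _).trans (levb_pf hq)
    calc _ ≤ D * ((m : ℝ) / z + 1) * D := mul_le_mul_of_nonneg_right h4 (by linarith)
      _ = _ := by ring

private theorem levb_S1 {η : ℝ → ℝ} (hη : IsWt η) {N z y m n H : ℕ} (D : ℝ) (hN : 1 ≤ N)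
    (hT : Tile N m n) (hz : 1 ≤ z) (hH : H ≤ n) (hD1 : 1 ≤ D)
    (hD : ∀ x : ℕ, 1 ≤ x → x ≤ n → (x.divisors.card : ℝ) ≤ D) (f : ℕ → ℕ) (hf : ∀ h, f h ∣ h) :
    ∑ h ∈ (Icc 1 H).filter Squarefree, ∑ q ∈ (range (N + 1)).filter (fun q => ¬ q.Coprime (f h)),
      bt z y q * η ((q : ℝ) / N) *
        ((m : ℝ) / h + (((range m).filter (fun r => h ∣ n - m * q - r)).card : ℝ)) ≤
    D * (1 + Real.log n) * (n / z) + D ^ 2 * (N + 1) * (m / z + 1) := by
  classical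
  obtain ⟨hm, hmN, hnm⟩ := hT
  have hNn : N ≤ n := le_trans (Nat.le_mul_of_pos_left N hm) hmN
  have hmn : m ≤ n := le_trans (Nat.le_mul_of_pos_right m hN) hmN
  have hz0 : (0 : ℝ) < z := by exact_mod_cast hz
  have hmNr : (m : ℝ) * N ≤ n := by exact_mod_cast hmN
  -- first part
  have hA : ∑ h ∈ (Icc 1 H).filter Squarefree,
      ∑ q ∈ (range (N + 1)).filter (fun q => ¬ q.Coprime (f h)),
        bt z y q * η ((q : ℝ) / N) * ((m : ℝ) / h) ≤ D * (1 + Real.log n) * (n / z) := by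
    have h1 : ∀ h ∈ (Icc 1 H).filter Squarefree,
        ∑ q ∈ (range (N + 1)).filter (fun q => ¬ q.Coprime (f h)),
          bt z y q * η ((q : ℝ) / N) * ((m : ℝ) / h) ≤ (D * (n / z)) * (1 / h) := by
      intro h hh
      rw [Finset.mem_filter, Finset.mem_Icc] at hh
      rw [← Finset.sum_mul]
      have h2 := levb_S1a (y := y) (N := N) hη D hz hh.1.1 (hh.1.2.trans hH) (hf h) hD
      have h3 : (0 : ℝ) ≤ (m : ℝ) / h := by positivity
      refine (mul_le_mul_of_nonneg_right h2 h3).trans ?_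
      have h4 : D * ((N : ℝ) / z) * (m / h) = D * ((m * N) / z) * (1 / h) := by ring
      rw [h4]
      refine mul_le_mul_of_nonneg_right ?_ (by positivity)
      refine mul_le_mul_of_nonneg_left ?_ (by linarith)
      exact div_le_div_of_nonneg_right hmNr hz0.le
    refine (Finset.sum_le_sum h1).trans ?_
    rw [← Finset.mul_sum]
    have h5 : ∑ h ∈ (Icc 1 H).filter Squarefree, 1 / (h : ℝ) ≤ 1 + Real.log n := by
      refine le_trans ?_ (levb_harm hH)
      refine Finset.sum_le_sum_of_subset_of_nonneg (Finset.filter_subset _ _) ?_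
      intro i _ _
      positivity
    calc D * ((n : ℝ) / z) * ∑ h ∈ (Icc 1 H).filter Squarefree, 1 / (h : ℝ) ≤
        D * ((n : ℝ) / z) * (1 + Real.log n) := mul_le_mul_of_nonneg_left h5 (by positivity)
      _ = _ := by ring
  -- second part
  have hB : ∑ h ∈ (Icc 1 H).filter Squarefree,
      ∑ q ∈ (range (N + 1)).filter (fun q => ¬ q.Coprime (f h)),
        bt z y q * η ((q : ℝ) / N) *
          (((range m).filter (fun r => h ∣ n - m * q - r)).card : ℝ) ≤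
      D ^ 2 * (N + 1) * (m / z + 1) := by
    have h1 : ∀ h ∈ (Icc 1 H).filter Squarefree,
        ∑ q ∈ (range (N + 1)).filter (fun q => ¬ q.Coprime (f h)),
          bt z y q * η ((q : ℝ) / N) *
            (((range m).filter (fun r => h ∣ n - m * q - r)).card : ℝ) ≤
        ∑ q ∈ range (N + 1), ∑ r ∈ range m,
          (if (1 ≤ q ∧ ∃ l ∈ q.primeFactors, z < l ∧ l ∣ n - r) ∧
            (h ∣ n - m * q - r ∧ 1 ≤ n - m * q - r ∧ n - m * q - r ≤ n) then (1 : ℝ) else 0) := by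
      intro h hh
      refine le_trans (Finset.sum_le_sum fun q hq => ?_)
        (Finset.sum_le_sum_of_subset_of_nonneg (Finset.filter_subset _ _) fun q _ _ =>
          Finset.sum_nonneg fun r _ => by split_ifs <;> norm_num)
      rw [Finset.mem_filter] at hq
      rw [Finset.card_filter]
      push_cast
      rw [Finset.mul_sum]
      refine Finset.sum_le_sum fun r hr => ?_
      rw [Finset.mem_range] at hr
      by_cases hw : bt z y q * η ((q : ℝ) / N) = 0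
      · rw [hw, zero_mul]
        split_ifs <;> norm_num
      · by_cases hx : h ∣ n - m * q - r
        · obtain ⟨hb, hx1, hx2, hx3⟩ := levb_w_ne hη hN ⟨hm, hmN, hnm⟩ hw hr
          obtain ⟨l, hl, hlq, hlf⟩ := Nat.Prime.not_coprime_iff_dvd.1 hq.2
          have hlx : l ∣ n - m * q - r := (hlf.trans (hf h)).trans hx
          have hln : l ∣ n - r := by
            rw [← hx3]
            exact Dvd.dvd.add (Dvd.dvd.mul_left hlq m) hlx
          have hq1 := levb_bt_pos hb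
          rw [if_pos hx, if_pos, mul_one]
          · exact (levb_w hη).2
          · exact ⟨⟨hq1, l, Nat.mem_primeFactors.2 ⟨hl, hlq, by omega⟩, levb_bt_prime hb hl hlq,
              hln⟩, hx, hx1, hx2⟩
        · rw [if_neg hx, mul_zero]
          split_ifs <;> norm_num
    refine (Finset.sum_le_sum h1).trans ?_
    rw [Finset.sum_comm]
    have h2 : ∀ q ∈ range (N + 1), ∑ h ∈ (Icc 1 H).filter Squarefree, ∑ r ∈ range m,
        (if (1 ≤ q ∧ ∃ l ∈ q.primeFactors, z < l ∧ l ∣ n - r) ∧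
          (h ∣ n - m * q - r ∧ 1 ≤ n - m * q - r ∧ n - m * q - r ≤ n) then (1 : ℝ) else 0) ≤
        D ^ 2 * (m / z + 1) := by
      intro q hq
      rw [Finset.mem_range] at hq
      rw [Finset.sum_comm]
      refine le_trans (Finset.sum_le_sum fun r hr => ?_)
        (levb_S1b D hz hmn hD1 hD q (by omega))
      by_cases hP : 1 ≤ q ∧ ∃ l ∈ q.primeFactors, z < l ∧ l ∣ n - r
      · rw [if_pos hP, ← Finset.sum_filter, Finset.sum_const, nsmul_eq_mul, mul_one]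
        by_cases hx : 1 ≤ n - m * q - r ∧ n - m * q - r ≤ n
        · refine le_trans ?_ (hD _ hx.1 hx.2)
          refine Nat.cast_le.2 (Finset.card_le_card fun h hh => ?_)
          rw [Finset.mem_filter] at hh
          exact Nat.mem_divisors.2 ⟨hh.2.2.1, by omega⟩
        · rw [Finset.filter_false_of_mem]
          · rw [Finset.card_empty, Nat.cast_zero]
            linarith
          · rintro h _ ⟨_, _, h3, h4⟩
            exact hx ⟨h3, h4⟩
      · rw [if_neg hP, Finset.sum_eq_zero]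
        intro h _
        rw [if_neg]
        rintro ⟨h3, _⟩
        exact hP h3
    refine (Finset.sum_le_sum h2).trans ?_
    rw [Finset.sum_const, nsmul_eq_mul, Finset.card_range]
    push_cast
    refine le_of_eq ?_
    ring
  calc _ = ∑ h ∈ (Icc 1 H).filter Squarefree,
      ∑ q ∈ (range (N + 1)).filter (fun q => ¬ q.Coprime (f h)),
        bt z y q * η ((q : ℝ) / N) * ((m : ℝ) / h) + ∑ h ∈ (Icc 1 H).filter Squarefree,
      ∑ q ∈ (range (N + 1)).filter (fun q => ¬ q.Coprime (f h)),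
        bt z y q * η ((q : ℝ) / N) *
          (((range m).filter (fun r => h ∣ n - m * q - r)).card : ℝ) := by
        rw [← Finset.sum_add_distrib]
        refine Finset.sum_congr rfl fun h _ => ?_
        rw [← Finset.sum_add_distrib]
        refine Finset.sum_congr rfl fun q _ => ?_
        ring
    _ ≤ _ := add_le_add hA hB

/-! ### reindexing -/

private theorem levb_reindex {m : ℕ} (hm : 1 ≤ m) (H : ℕ) (F : ℕ → ℕ → ℝ)
    (hF : ∀ e h, 0 ≤ F e h) :
    ∑ h ∈ (Icc 1 H).filter Squarefree, F (Nat.gcd h m) (h / Nat.gcd h m) ≤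
      ∑ e ∈ m.divisors, ∑ h ∈ Icc 1 H, F e h := by
  classical
  have h1 : ∑ h ∈ (Icc 1 H).filter Squarefree, F (Nat.gcd h m) (h / Nat.gcd h m) =
      ∑ x ∈ ((Icc 1 H).filter Squarefree).image (fun h => (Nat.gcd h m, h / Nat.gcd h m)),
        F x.1 x.2 := by
    rw [Finset.sum_image]
    intro a _ b _ hab
    simp only [Prod.mk.injEq] at hab
    rw [← Nat.mul_div_cancel' (Nat.gcd_dvd_left a m), ← Nat.mul_div_cancel' (Nat.gcd_dvd_left b m),
      hab.2, hab.1]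
  rw [h1, ← Finset.sum_product' m.divisors (Icc 1 H) F]
  refine Finset.sum_le_sum_of_subset_of_nonneg ?_ fun x _ _ => hF _ _
  intro x hx
  obtain ⟨h, hh, rfl⟩ := Finset.mem_image.1 hx
  rw [Finset.mem_filter, Finset.mem_Icc] at hh
  have hg : 0 < Nat.gcd h m := Nat.gcd_pos_of_pos_right h hm
  rw [Finset.mem_product, Nat.mem_divisors, Finset.mem_Icc]
  refine ⟨⟨Nat.gcd_dvd_right h m, by omega⟩, ?_, ?_⟩
  · exact Nat.div_pos (Nat.le_of_dvd (by omega) (Nat.gcd_dvd_left h m)) hg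
  · exact (Nat.div_le_self _ _).trans hh.1.2

private theorem levb_reindex2 (H : ℕ) (F : ℕ → ℕ → ℝ) (hF : ∀ k t, 0 ≤ F k t) :
    ∑ h ∈ Icc 1 H, ∑ k ∈ h.divisors.erase 1, F k (h / k) ≤
      ∑ t ∈ Icc 1 H, ∑ k ∈ Icc 2 H, F k t := by
  classical
  rw [Finset.sum_sigma']
  have h1 : ∑ x ∈ (Icc 1 H).sigma (fun h => h.divisors.erase 1), F x.2 (x.1 / x.2) =
      ∑ x ∈ ((Icc 1 H).sigma (fun h => h.divisors.erase 1)).image
        (fun x : (_ : ℕ) × ℕ => (x.1 / x.2, x.2)), F x.2 x.1 := by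
    rw [Finset.sum_image]
    rintro ⟨a, b⟩ hx ⟨a', b'⟩ hx' hab
    rw [Finset.mem_coe, Finset.mem_sigma, Finset.mem_erase, Nat.mem_divisors] at hx hx'
    simp only [Prod.mk.injEq] at hab
    simp only at hx hx'
    obtain ⟨h2, rfl⟩ := hab
    have h3 : a = a' := by
      rw [← Nat.mul_div_cancel' hx.2.2.1, ← Nat.mul_div_cancel' hx'.2.2.1, h2]
    rw [h3]
  rw [h1, ← Finset.sum_product' (Icc 1 H) (Icc 2 H) (fun t k => F k t)]
  refine Finset.sum_le_sum_of_subset_of_nonneg ?_ fun x _ _ => hF _ _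
  intro x hx
  obtain ⟨⟨h, k⟩, hh, rfl⟩ := Finset.mem_image.1 hx
  rw [Finset.mem_sigma, Finset.mem_erase, Nat.mem_divisors, Finset.mem_Icc] at hh
  simp only at hh
  obtain ⟨⟨h2, h3⟩, h4, h5, h6⟩ := hh
  have hk0 : 0 < k := Nat.pos_of_dvd_of_pos h5 (by omega)
  have hkh : k ≤ h := Nat.le_of_dvd (by omega) h5
  rw [Finset.mem_product, Finset.mem_Icc, Finset.mem_Icc]
  simp only
  refine ⟨⟨Nat.div_pos hkh hk0, (Nat.div_le_self _ _).trans h3⟩, by omega, by omega⟩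

private theorem levb_S2 {N m n H : ℕ} (C D : ℝ) (hC : 0 < C) (hm : 1 ≤ m) (hmn : m ≤ n)
    (hH : H ≤ n) (hD1 : 1 ≤ D)
    (hD : ∀ x : ℕ, 1 ≤ x → x ≤ n → (x.divisors.card : ℝ) ≤ D) :
    ∑ h ∈ (Icc 1 H).filter Squarefree,
      C * 2 ^ h.primeFactors.card * N / ((h / Nat.gcd h m).totient : ℝ) ≤
    C * N * D ^ 3 * (1 + Real.log n) := by
  have hlog : 0 ≤ 1 + Real.log n := by
    have : 0 ≤ Real.log n := Real.log_natCast_nonneg n
    linarith
  have h1 : ∀ h ∈ (Icc 1 H).filter Squarefree,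
      C * 2 ^ h.primeFactors.card * N / ((h / Nat.gcd h m).totient : ℝ) ≤
      C * N * D ^ 2 * (1 / ((h / Nat.gcd h m : ℕ) : ℝ)) := by
    intro h hh
    rw [Finset.mem_filter, Finset.mem_Icc] at hh
    have hg : 0 < Nat.gcd h m := Nat.gcd_pos_of_pos_right h hm
    have hh' : 1 ≤ h / Nat.gcd h m :=
      Nat.div_pos (Nat.le_of_dvd (by omega) (Nat.gcd_dvd_left h m)) hg
    have hh'' : h / Nat.gcd h m ≤ n := ((Nat.div_le_self _ _).trans hh.1.2).trans hH
    have h2 := (levb_omega hh.1.1).trans (hD h hh.1.1 (hh.1.2.trans hH))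
    have h3 := levb_tot hh'
    have h4 := hD _ hh' hh''
    have h5 : (0 : ℝ) < ((h / Nat.gcd h m : ℕ) : ℝ) := by exact_mod_cast hh'
    have h6 : 1 / ((h / Nat.gcd h m).totient : ℝ) ≤ D / ((h / Nat.gcd h m : ℕ) : ℝ) :=
      h3.trans (div_le_div_of_nonneg_right h4 h5.le)
    calc C * 2 ^ h.primeFactors.card * N / ((h / Nat.gcd h m).totient : ℝ) =
        C * N * (2 ^ h.primeFactors.card * (1 / ((h / Nat.gcd h m).totient : ℝ))) := by ring
      _ ≤ C * N * (D * (D / ((h / Nat.gcd h m : ℕ) : ℝ))) := by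
        refine mul_le_mul_of_nonneg_left ?_ (by positivity)
        exact mul_le_mul h2 h6 (by positivity) (by linarith)
      _ = _ := by ring
  refine (Finset.sum_le_sum h1).trans ?_
  rw [← Finset.mul_sum]
  have h7 := levb_reindex hm H (fun _ h => 1 / (h : ℝ)) (fun _ _ => by positivity)
  have h8 : ∑ e ∈ m.divisors, ∑ h ∈ Icc 1 H, 1 / (h : ℝ) ≤ D * (1 + Real.log n) := by
    rw [Finset.sum_const, nsmul_eq_mul]
    exact mul_le_mul (hD m hm hmn) (levb_harm hH) (Finset.sum_nonneg fun _ _ => by positivity)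
      (by linarith)
  calc C * N * D ^ 2 * ∑ h ∈ (Icc 1 H).filter Squarefree, 1 / ((h / Nat.gcd h m : ℕ) : ℝ) ≤
      C * N * D ^ 2 * (D * (1 + Real.log n)) :=
        mul_le_mul_of_nonneg_left (h7.trans h8) (by positivity)
    _ = _ := by ring

/-! ### character sums -/

private theorem levb_JE {n m e t k : ℕ} (he : 1 ≤ e) (ht : 1 ≤ t) (χ : DirichletCharacter ℂ k)
    (B : ℝ) (hB : ∀ u v : ℕ, ‖∑ j ∈ Ioc u v, χ (j : ZMod k)‖ ≤ B) :
    ‖JE n m e t χ‖ ≤ 2 ^ t.primeFactors.card * B := by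
  classical
  have hB0 : 0 ≤ B := (norm_nonneg _).trans (hB 0 0)
  by_cases hc : e.Coprime t
  · have e1 : (Ioc (n - m) n).filter (fun j => e ∣ j ∧ j.Coprime t) =
        ((Ioc ((n - m) / e) (n / e)).filter (fun j => ∀ p ∈ t.primeFactors, ¬ p ∣ j)).image
          (fun j => e * j) := by
      ext j
      simp only [Finset.mem_filter, Finset.mem_image, Finset.mem_Ioc]
      constructor
      · rintro ⟨⟨h1, h2⟩, ⟨i, rfl⟩, h3⟩
        refine ⟨i, ⟨⟨?_, ?_⟩, ?_⟩, rfl⟩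
        · rw [Nat.div_lt_iff_lt_mul he, mul_comm]
          exact h1
        · rw [Nat.le_div_iff_mul_le he, mul_comm]
          exact h2
        · intro p hp hpi
          have hpp := Nat.prime_of_mem_primeFactors hp
          have h4 := Nat.dvd_gcd (Dvd.dvd.mul_left hpi e) (Nat.dvd_of_mem_primeFactors hp)
          rw [h3] at h4
          exact hpp.one_lt.ne' (Nat.dvd_one.1 h4)
      · rintro ⟨i, ⟨⟨h1, h2⟩, h3⟩, rfl⟩
        rw [Nat.div_lt_iff_lt_mul he, mul_comm] at h1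
        rw [Nat.le_div_iff_mul_le he, mul_comm] at h2
        refine ⟨⟨h1, h2⟩, Dvd.intro i rfl, Nat.Coprime.mul_left hc ?_⟩
        apply Nat.coprime_of_dvd
        intro p hpp hpi hpt
        exact h3 p (Nat.mem_primeFactors.2 ⟨hpp, hpt, by omega⟩) hpi
    have e2 : JE n m e t χ = χ (e : ZMod k) *
        ∑ j ∈ (Ioc ((n - m) / e) (n / e)).filter (fun j => ∀ p ∈ t.primeFactors, ¬ p ∣ j),
          χ (j : ZMod k) := by
      unfold JE
      rw [e1, Finset.sum_image, Finset.mul_sum]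
      · refine Finset.sum_congr rfl fun j _ => ?_
        rw [Nat.cast_mul, map_mul]
      · intro a _ b _ hab
        exact Nat.eq_of_mul_eq_mul_left he hab
    rw [e2, norm_mul]
    have h5 := jb_sum χ B hB t.primeFactors (fun p hp => Nat.prime_of_mem_primeFactors hp)
      ((n - m) / e) (n / e)
    have h6 := DirichletCharacter.norm_le_one χ (e : ZMod k)
    calc _ ≤ 1 * (2 ^ t.primeFactors.card * B) :=
          mul_le_mul h6 h5 (norm_nonneg _) zero_le_one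
      _ = _ := one_mul _
  · have e1 : (Ioc (n - m) n).filter (fun j => e ∣ j ∧ j.Coprime t) = ∅ := by
      rw [Finset.filter_false_of_mem]
      rintro j _ ⟨h1, h2⟩
      exact hc (Nat.Coprime.coprime_dvd_left h1 h2)
    unfold JE
    rw [e1, Finset.sum_empty, norm_zero]
    positivity

private theorem levb_QB {η : ℝ → ℝ} (hη : IsWt η) {N z y g c t k : ℕ} (hN : 1 ≤ N)
    (χ : DirichletCharacter ℂ k) : ‖QB η N z y g c t χ‖ ≤ 2 * N := by
  unfold QB
  refine (norm_sum_le _ _).trans ?_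
  have h1 : ∀ q ∈ (range (N + 1)).filter (fun q => q % g = c % g ∧ q.Coprime t),
      ‖((bt z y q * η ((q : ℝ) / N) : ℝ) : ℂ) * χ (q : ZMod k)‖ ≤ 1 := by
    intro q _
    rw [norm_mul, Complex.norm_real, Real.norm_of_nonneg (levb_w hη).1]
    exact mul_le_one₀ (levb_w hη).2 (norm_nonneg _) (DirichletCharacter.norm_le_one χ _)
  refine (Finset.sum_le_sum h1).trans ?_
  rw [Finset.sum_const, nsmul_eq_mul, mul_one]
  have h2 : (((range (N + 1)).filter (fun q => q % g = c % g ∧ q.Coprime t)).card : ℝ) ≤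
      ((N + 1 : ℕ) : ℝ) := by
    exact_mod_cast (Finset.card_filter_le _ _).trans (by rw [Finset.card_range])
  refine h2.trans ?_
  push_cast
  have : (1 : ℝ) ≤ N := by exact_mod_cast hN
  linarith

private theorem levb_prim_card {k : ℕ} (hk : 1 ≤ k) : ((prim k).card : ℝ) ≤ k := by
  have : NeZero k := ⟨by omega⟩
  have h2 : (prim k).card ≤ k.totient := by
    rw [← fam_card_char k, ← Finset.card_univ]
    exact Finset.card_le_card (Finset.subset_univ _)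
  exact_mod_cast h2.trans (Nat.totient_le k)

private theorem levb_ls (C : ℝ) (hLS : ∀ e K u v : ℕ, 1 ≤ e → u ≤ v → ∀ a : ℕ → ℂ,
    ∑ k ∈ Icc 1 K, ∑ χ ∈ prim (e * k), ‖∑ n ∈ Ioc u v, a n * χ (n : ZMod (e * k))‖ ^ 2 ≤
    C * ((v : ℝ) - u + e * (K : ℝ) ^ 2) * ∑ n ∈ Ioc u v, ‖a n‖ ^ 2) (K u v : ℕ) (huv : u ≤ v)
    (a : ℕ → ℂ) :
    ∑ k ∈ Icc 1 K, ∑ χ ∈ prim k, ‖∑ n ∈ Ioc u v, a n * χ (n : ZMod k)‖ ^ 2 ≤
    C * ((v : ℝ) - u + (K : ℝ) ^ 2) * ∑ n ∈ Ioc u v, ‖a n‖ ^ 2 := by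
  have h1 := hLS 1 K u v le_rfl huv a
  have h2 : ∀ k : ℕ, ∑ χ ∈ prim (1 * k), ‖∑ n ∈ Ioc u v, a n * χ (n : ZMod (1 * k))‖ ^ 2 =
      ∑ χ ∈ prim k, ‖∑ n ∈ Ioc u v, a n * χ (n : ZMod k)‖ ^ 2 := by
    intro k
    rw [one_mul]
  rw [Finset.sum_congr rfl (fun k _ => h2 k)] at h1
  push_cast at h1
  rw [one_mul] at h1
  exact h1

/-- the inner sums -/
private noncomputable def levb_G (η : ℝ → ℝ) (N z y m n g c e k t : ℕ) : ℝ :=
  ∑ χ ∈ prim k, ‖JE n m e t χ‖ * ‖QB η N z y g c t χ‖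

private theorem levb_G_nonneg (η : ℝ → ℝ) (N z y m n g c e k t : ℕ) :
    0 ≤ levb_G η N z y m n g c e k t :=
  Finset.sum_nonneg fun _ _ => mul_nonneg (norm_nonneg _) (norm_nonneg _)

private theorem levb_G_small {η : ℝ → ℝ} (hη : IsWt η) {N z y m n g c e k t K : ℕ} (C D : ℝ)
    (hC : 0 < C) (hPV : ∀ q u v : ℕ, 1 ≤ q → ∀ χ ∈ prim q,
      ‖∑ j ∈ Ioc u v, χ (j : ZMod q)‖ ≤ C * (Real.sqrt q * (1 + Real.log q)))
    (hN : 1 ≤ N) (he : 1 ≤ e) (ht : 1 ≤ t) (htn : t ≤ n) (hk : 1 ≤ k) (hkn : k ≤ n) (hkK : k ≤ K)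
    (hD : ∀ x : ℕ, 1 ≤ x → x ≤ n → (x.divisors.card : ℝ) ≤ D) :
    (1 / (k : ℝ)) * levb_G η N z y m n g c e k t ≤
      2 * C * D * N * (1 + Real.log n) * Real.sqrt K := by
  have hk0 : (0 : ℝ) < k := by exact_mod_cast hk
  have hlogk : 0 ≤ Real.log k := Real.log_natCast_nonneg k
  have hlog : Real.log k ≤ Real.log n := Real.log_le_log hk0 (by exact_mod_cast hkn)
  have hsq : Real.sqrt k ≤ Real.sqrt K := Real.sqrt_le_sqrt (by exact_mod_cast hkK)
  have hω := (levb_omega ht).trans (hD t ht htn)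
  have hD0 : 0 ≤ D := le_trans (by positivity) hω
  have h1 : ∀ χ ∈ prim k, ‖JE n m e t χ‖ * ‖QB η N z y g c t χ‖ ≤
      D * (C * (Real.sqrt K * (1 + Real.log n))) * (2 * N) := by
    intro χ hχ
    have h2 := levb_JE (n := n) (m := m) he ht χ _ (fun u v => hPV k u v hk χ hχ)
    have h3 : C * (Real.sqrt k * (1 + Real.log k)) ≤ C * (Real.sqrt K * (1 + Real.log n)) := by
      refine mul_le_mul_of_nonneg_left ?_ hC.le
      exact mul_le_mul hsq (by linarith) (by positivity) (by positivity)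
    have h4 : ‖JE n m e t χ‖ ≤ D * (C * (Real.sqrt K * (1 + Real.log n))) :=
      h2.trans (mul_le_mul hω h3 (by positivity) hD0)
    exact mul_le_mul h4 (levb_QB hη hN χ) (norm_nonneg _) (le_trans (norm_nonneg _) h4)
  have h5 : levb_G η N z y m n g c e k t ≤
      k * (D * (C * (Real.sqrt K * (1 + Real.log n))) * (2 * N)) := by
    unfold levb_G
    refine (Finset.sum_le_sum h1).trans ?_
    rw [Finset.sum_const, nsmul_eq_mul]
    have : 0 ≤ Real.log n := Real.log_natCast_nonneg n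
    exact mul_le_mul_of_nonneg_right (levb_prim_card hk) (by positivity)
  calc (1 / (k : ℝ)) * levb_G η N z y m n g c e k t ≤
      (1 / (k : ℝ)) * (k * (D * (C * (Real.sqrt K * (1 + Real.log n))) * (2 * N))) :=
        mul_le_mul_of_nonneg_left h5 (by positivity)
    _ = _ := by
      field_simp

private theorem levb_JE_ioc {n m e t k : ℕ} (χ : DirichletCharacter ℂ k) :
    JE n m e t χ = ∑ j ∈ Ioc (n - m) n,
      (if e ∣ j ∧ j.Coprime t then (1 : ℂ) else 0) * χ (j : ZMod k) := by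
  unfold JE
  rw [Finset.sum_filter]
  refine Finset.sum_congr rfl fun j _ => ?_
  split_ifs
  · rw [one_mul]
  · rw [zero_mul]

private theorem levb_QB_ioc {η : ℝ → ℝ} {N z y g c t k : ℕ} (χ : DirichletCharacter ℂ k) :
    QB η N z y g c t χ = ∑ q ∈ Ioc 0 N,
      (if q % g = c % g ∧ q.Coprime t then ((bt z y q * η ((q : ℝ) / N) : ℝ) : ℂ) else 0) *
        χ (q : ZMod k) := by
  classical
  unfold QB
  rw [Finset.sum_filter]
  have e1 : range (N + 1) = insert 0 (Ioc 0 N) := by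
    ext j
    simp only [Finset.mem_range, Finset.mem_insert, Finset.mem_Ioc]
    omega
  rw [e1, Finset.sum_insert (by simp)]
  have h0 : bt z y 0 = 0 := by
    by_contra h
    have := levb_bt_pos h
    omega
  have h1 : (if 0 % g = c % g ∧ Nat.Coprime 0 t then
      ((bt z y 0 * η (((0 : ℕ) : ℝ) / N) : ℝ) : ℂ) * χ ((0 : ℕ) : ZMod k) else 0) = 0 := by
    rw [h0, zero_mul, Complex.ofReal_zero, zero_mul]
    split_ifs <;> rfl
  rw [h1, zero_add]
  refine Finset.sum_congr rfl fun j _ => ?_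
  split_ifs
  · rfl
  · rw [zero_mul]

private theorem levb_real {m N K n : ℝ} (hm : 0 ≤ m) (hN : 0 ≤ N) (hK : 0 < K) (hn : m * N ≤ n)
    (C : ℝ) (hC : 0 < C) :
    (1 / K) * (Real.sqrt (C * (m + (2 * K) ^ 2) * m) * Real.sqrt (C * (N + (2 * K) ^ 2) * N)) ≤
      C * Real.sqrt n * (Real.sqrt n / K + 2 * Real.sqrt m + 2 * Real.sqrt N + 4 * K) := by
  have hn0 : 0 ≤ n := le_trans (by positivity) hn
  have h1 : Real.sqrt (C * (m + (2 * K) ^ 2) * m) * Real.sqrt (C * (N + (2 * K) ^ 2) * N) =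
      C * (Real.sqrt (m * N) * Real.sqrt ((m + (2 * K) ^ 2) * (N + (2 * K) ^ 2))) := by
    rw [← Real.sqrt_mul (by positivity), ← Real.sqrt_mul (by positivity)]
    have e : C * (m + (2 * K) ^ 2) * m * (C * (N + (2 * K) ^ 2) * N) =
        C ^ 2 * (m * N * ((m + (2 * K) ^ 2) * (N + (2 * K) ^ 2))) := by ring
    rw [e, Real.sqrt_mul (by positivity), Real.sqrt_sq hC.le]
  have h2 : Real.sqrt (m * N) ≤ Real.sqrt n := Real.sqrt_le_sqrt hn
  have h3 : Real.sqrt ((m + (2 * K) ^ 2) * (N + (2 * K) ^ 2)) ≤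
      Real.sqrt n + 2 * K * Real.sqrt m + 2 * K * Real.sqrt N + 4 * K ^ 2 := by
    rw [Real.sqrt_le_left (by positivity)]
    have a1 := Real.sq_sqrt hn0
    have a2 := Real.sq_sqrt hm
    have a3 := Real.sq_sqrt hN
    have b1 := Real.sqrt_nonneg n
    have b2 := Real.sqrt_nonneg m
    have b3 := Real.sqrt_nonneg N
    set a := Real.sqrt n
    set b := Real.sqrt m
    set c := Real.sqrt N
    have c1 : 0 ≤ a * (2 * K * b) := by positivity
    have c2 : 0 ≤ a * (2 * K * c) := by positivity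
    have c3 : 0 ≤ a * (4 * K ^ 2) := by positivity
    have c4 : 0 ≤ (2 * K * b) * (2 * K * c) := by positivity
    have c5 : 0 ≤ (2 * K * b) * (4 * K ^ 2) := by positivity
    have c6 : 0 ≤ (2 * K * c) * (4 * K ^ 2) := by positivity
    have e1 : (m + (2 * K) ^ 2) * (N + (2 * K) ^ 2) =
        m * N + 4 * K ^ 2 * m + 4 * K ^ 2 * N + 16 * K ^ 4 := by ring
    rw [e1]
    have e2 : (a + 2 * K * b + 2 * K * c + 4 * K ^ 2) ^ 2 =
        a ^ 2 + 4 * K ^ 2 * b ^ 2 + 4 * K ^ 2 * c ^ 2 + 16 * K ^ 4 +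
        2 * (a * (2 * K * b)) + 2 * (a * (2 * K * c)) + 2 * (a * (4 * K ^ 2)) +
        2 * ((2 * K * b) * (2 * K * c)) + 2 * ((2 * K * b) * (4 * K ^ 2)) +
        2 * ((2 * K * c) * (4 * K ^ 2)) := by ring
    rw [e2, a1, a2, a3]
    linarith
  rw [h1]
  calc (1 / K) * (C * (Real.sqrt (m * N) * Real.sqrt ((m + (2 * K) ^ 2) * (N + (2 * K) ^ 2)))) ≤
      (1 / K) * (C * (Real.sqrt n *
        (Real.sqrt n + 2 * K * Real.sqrt m + 2 * K * Real.sqrt N + 4 * K ^ 2))) := by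
        refine mul_le_mul_of_nonneg_left ?_ (by positivity)
        refine mul_le_mul_of_nonneg_left ?_ hC.le
        exact mul_le_mul h2 h3 (Real.sqrt_nonneg _) (Real.sqrt_nonneg _)
    _ = _ := by
      field_simp

private theorem levb_block {η : ℝ → ℝ} (hη : IsWt η) {N z y m n g c e t K : ℕ} (C : ℝ)
    (hC : 0 < C) (hLS : ∀ e K u v : ℕ, 1 ≤ e → u ≤ v → ∀ a : ℕ → ℂ,
    ∑ k ∈ Icc 1 K, ∑ χ ∈ prim (e * k), ‖∑ n ∈ Ioc u v, a n * χ (n : ZMod (e * k))‖ ^ 2 ≤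
    C * ((v : ℝ) - u + e * (K : ℝ) ^ 2) * ∑ n ∈ Ioc u v, ‖a n‖ ^ 2)
    (hmn : m ≤ n) (hmN : m * N ≤ n) (hK : 1 ≤ K) :
    ∑ k ∈ Ioc K (2 * K), (1 / (k : ℝ)) * levb_G η N z y m n g c e k t ≤
      C * Real.sqrt n * (Real.sqrt n / K + 2 * Real.sqrt m + 2 * Real.sqrt N + 4 * K) := by
  classical
  have hK0 : (0 : ℝ) < K := by exact_mod_cast hK
  -- the two large sieves
  have hJ : ∑ k ∈ Ioc K (2 * K), ∑ χ ∈ prim k, ‖JE n m e t χ‖ ^ 2 ≤
      C * (m + (2 * K : ℝ) ^ 2) * m := by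
    have h1 := levb_ls C hLS (2 * K) (n - m) n (Nat.sub_le _ _)
      (fun j => if e ∣ j ∧ j.Coprime t then (1 : ℂ) else 0)
    have h2 : ∑ k ∈ Ioc K (2 * K), ∑ χ ∈ prim k, ‖JE n m e t χ‖ ^ 2 ≤
        ∑ k ∈ Icc 1 (2 * K), ∑ χ ∈ prim k, ‖∑ j ∈ Ioc (n - m) n,
          (if e ∣ j ∧ j.Coprime t then (1 : ℂ) else 0) * χ (j : ZMod k)‖ ^ 2 := by
      refine le_trans (le_of_eq ?_) (Finset.sum_le_sum_of_subset_of_nonneg
        (s := Ioc K (2 * K)) ?_ ?_)
      · refine Finset.sum_congr rfl fun k _ => Finset.sum_congr rfl fun χ _ => ?_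
        rw [levb_JE_ioc]
      · intro k hk
        rw [Finset.mem_Ioc] at hk
        rw [Finset.mem_Icc]
        omega
      · intro k _ _
        exact Finset.sum_nonneg fun _ _ => by positivity
    refine h2.trans (h1.trans ?_)
    have h3 : ((n : ℝ) - ((n - m : ℕ) : ℝ)) = m := by
      rw [Nat.cast_sub hmn]
      ring
    have h4 : ∑ j ∈ Ioc (n - m) n, ‖(if e ∣ j ∧ j.Coprime t then (1 : ℂ) else 0)‖ ^ 2 ≤
        (m : ℝ) := by
      have h5 : ∀ j ∈ Ioc (n - m) n,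
          ‖(if e ∣ j ∧ j.Coprime t then (1 : ℂ) else 0)‖ ^ 2 ≤ (1 : ℝ) := by
        intro j _
        split_ifs <;> simp
      refine (Finset.sum_le_sum h5).trans ?_
      rw [Finset.sum_const, nsmul_eq_mul, mul_one, Nat.card_Ioc]
      have : n - (n - m) = m := by omega
      rw [this]
    rw [h3]
    push_cast
    exact mul_le_mul_of_nonneg_left h4 (by positivity)
  have hQ : ∑ k ∈ Ioc K (2 * K), ∑ χ ∈ prim k, ‖QB η N z y g c t χ‖ ^ 2 ≤
      C * (N + (2 * K : ℝ) ^ 2) * N := by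
    have h1 := levb_ls C hLS (2 * K) 0 N (Nat.zero_le _)
      (fun q => if q % g = c % g ∧ q.Coprime t then
        ((bt z y q * η ((q : ℝ) / N) : ℝ) : ℂ) else 0)
    have h2 : ∑ k ∈ Ioc K (2 * K), ∑ χ ∈ prim k, ‖QB η N z y g c t χ‖ ^ 2 ≤
        ∑ k ∈ Icc 1 (2 * K), ∑ χ ∈ prim k, ‖∑ q ∈ Ioc 0 N,
          (if q % g = c % g ∧ q.Coprime t then
            ((bt z y q * η ((q : ℝ) / N) : ℝ) : ℂ) else 0) * χ (q : ZMod k)‖ ^ 2 := by
      refine le_trans (le_of_eq ?_) (Finset.sum_le_sum_of_subset_of_nonneg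
        (s := Ioc K (2 * K)) ?_ ?_)
      · refine Finset.sum_congr rfl fun k _ => Finset.sum_congr rfl fun χ _ => ?_
        rw [levb_QB_ioc]
      · intro k hk
        rw [Finset.mem_Ioc] at hk
        rw [Finset.mem_Icc]
        omega
      · intro k _ _
        exact Finset.sum_nonneg fun _ _ => by positivity
    refine h2.trans (h1.trans ?_)
    have h4 : ∑ q ∈ Ioc 0 N, ‖(if q % g = c % g ∧ q.Coprime t then
        ((bt z y q * η ((q : ℝ) / N) : ℝ) : ℂ) else 0)‖ ^ 2 ≤ (N : ℝ) := by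
      have h5 : ∀ q ∈ Ioc 0 N, ‖(if q % g = c % g ∧ q.Coprime t then
          ((bt z y q * η ((q : ℝ) / N) : ℝ) : ℂ) else 0)‖ ^ 2 ≤ (1 : ℝ) := by
        intro q _
        split_ifs
        · rw [Complex.norm_real, Real.norm_of_nonneg (levb_w hη).1]
          exact pow_le_one₀ (levb_w hη).1 (levb_w hη).2
        · simp
      refine (Finset.sum_le_sum h5).trans ?_
      rw [Finset.sum_const, nsmul_eq_mul, mul_one, Nat.card_Ioc, Nat.sub_zero]
    rw [Nat.cast_zero, sub_zero, Nat.cast_mul, Nat.cast_ofNat]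
    exact mul_le_mul_of_nonneg_left h4 (by positivity)
  -- Cauchy-Schwarz
  have hCS : ∑ k ∈ Ioc K (2 * K), levb_G η N z y m n g c e k t ≤
      Real.sqrt (C * (m + (2 * K : ℝ) ^ 2) * m) * Real.sqrt (C * (N + (2 * K : ℝ) ^ 2) * N) := by
    have h1 := Real.sum_mul_le_sqrt_mul_sqrt
      ((Ioc K (2 * K)).sigma (fun k => prim k))
      (fun x => ‖JE n m e t x.2‖) (fun x => ‖QB η N z y g c t x.2‖)
    rw [Finset.sum_sigma, Finset.sum_sigma, Finset.sum_sigma] at h1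
    refine h1.trans ?_
    exact mul_le_mul (Real.sqrt_le_sqrt hJ) (Real.sqrt_le_sqrt hQ) (Real.sqrt_nonneg _)
      (Real.sqrt_nonneg _)
  have hfin : ∑ k ∈ Ioc K (2 * K), (1 / (k : ℝ)) * levb_G η N z y m n g c e k t ≤
      (1 / (K : ℝ)) * ∑ k ∈ Ioc K (2 * K), levb_G η N z y m n g c e k t := by
    rw [Finset.mul_sum]
    refine Finset.sum_le_sum fun k hk => ?_
    rw [Finset.mem_Ioc] at hk
    refine mul_le_mul_of_nonneg_right ?_ (levb_G_nonneg _ _ _ _ _ _ _ _ _ _ _)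
    exact one_div_le_one_div_of_le hK0 (by exact_mod_cast hk.1.le)
  refine hfin.trans ?_
  have hmNr : (m : ℝ) * N ≤ n := by exact_mod_cast hmN
  refine le_trans (mul_le_mul_of_nonneg_left hCS (by positivity)) ?_
  exact levb_real (Nat.cast_nonneg m) (Nat.cast_nonneg N) hK0 hmNr C hC

/-- all conductors -/
private theorem levb_A {η : ℝ → ℝ} (hη : IsWt η) {N z y m n g c e t K L H : ℕ} (C₁ C D : ℝ)
    (hC₁ : 0 < C₁) (hPV : ∀ q u v : ℕ, 1 ≤ q → ∀ χ ∈ prim q,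
      ‖∑ j ∈ Ioc u v, χ (j : ZMod q)‖ ≤ C₁ * (Real.sqrt q * (1 + Real.log q)))
    (hC : 0 < C) (hLS : ∀ e K u v : ℕ, 1 ≤ e → u ≤ v → ∀ a : ℕ → ℂ,
    ∑ k ∈ Icc 1 K, ∑ χ ∈ prim (e * k), ‖∑ n ∈ Ioc u v, a n * χ (n : ZMod (e * k))‖ ^ 2 ≤
    C * ((v : ℝ) - u + e * (K : ℝ) ^ 2) * ∑ n ∈ Ioc u v, ‖a n‖ ^ 2)
    (hN : 1 ≤ N) (he : 1 ≤ e) (ht : 1 ≤ t) (htn : t ≤ n)
    (hmn : m ≤ n) (hmN : m * N ≤ n) (hK : 1 ≤ K) (hHn : H ≤ n) (hL : H ≤ 2 ^ L * K)
    (hD : ∀ x : ℕ, 1 ≤ x → x ≤ n → (x.divisors.card : ℝ) ≤ D) :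
    ∑ k ∈ Icc 2 H, (1 / (k : ℝ)) * levb_G η N z y m n g c e k t ≤
      K * (2 * C₁ * D * N * (1 + Real.log n) * Real.sqrt K) +
      L * (C * Real.sqrt n * (Real.sqrt n / K + 2 * Real.sqrt m + 2 * Real.sqrt N + 4 * H)) := by
  classical
  have hK0 : (0 : ℝ) < K := by exact_mod_cast hK
  have hG : ∀ k : ℕ, 0 ≤ (1 / (k : ℝ)) * levb_G η N z y m n g c e k t := fun k =>
    mul_nonneg (by positivity) (levb_G_nonneg _ _ _ _ _ _ _ _ _ _ _)
  set f : ℕ → ℝ := fun k => if k ≤ H then (1 / (k : ℝ)) * levb_G η N z y m n g c e k t else 0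
    with hf
  have hf0 : ∀ k, 0 ≤ f k := by
    intro k
    simp only [hf]
    split_ifs
    · exact hG k
    · exact le_rfl
  -- split
  have h1 : ∑ k ∈ Icc 2 H, (1 / (k : ℝ)) * levb_G η N z y m n g c e k t ≤
      ∑ k ∈ Icc 1 K, f k + ∑ k ∈ Ioc K (2 ^ L * K), f k := by
    have h2 : ∑ k ∈ Icc 2 H, (1 / (k : ℝ)) * levb_G η N z y m n g c e k t =
        ∑ k ∈ Icc 2 H, f k := by
      refine Finset.sum_congr rfl fun k hk => ?_
      simp only [hf]
      rw [if_pos (Finset.mem_Icc.1 hk).2]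
    rw [h2, ← Finset.sum_union]
    · refine Finset.sum_le_sum_of_subset_of_nonneg ?_ fun k _ _ => hf0 k
      intro k hk
      rw [Finset.mem_Icc] at hk
      rw [Finset.mem_union, Finset.mem_Icc, Finset.mem_Ioc]
      omega
    · rw [Finset.disjoint_left]
      intro k hk hk'
      rw [Finset.mem_Icc] at hk
      rw [Finset.mem_Ioc] at hk'
      omega
  -- small conductors
  have h2 : ∑ k ∈ Icc 1 K, f k ≤ K * (2 * C₁ * D * N * (1 + Real.log n) * Real.sqrt K) := by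
    have h3 : ∀ k ∈ Icc 1 K, f k ≤ 2 * C₁ * D * N * (1 + Real.log n) * Real.sqrt K := by
      intro k hk
      rw [Finset.mem_Icc] at hk
      have hD0 : 0 ≤ D := le_trans (by positivity) (hD t ht htn)
      have hlog : 0 ≤ Real.log n := Real.log_natCast_nonneg n
      simp only [hf]
      split_ifs with hkH
      · exact levb_G_small hη C₁ D hC₁ hPV hN he ht htn hk.1 (hkH.trans hHn) hk.2 hD
      · positivity
    refine (Finset.sum_le_sum h3).trans ?_
    rw [Finset.sum_const, nsmul_eq_mul, Nat.card_Icc, Nat.add_sub_cancel]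
  -- large conductors
  have h3 : ∀ M : ℕ, ∑ k ∈ Ioc K (2 ^ M * K), f k ≤
      M * (C * Real.sqrt n * (Real.sqrt n / K + 2 * Real.sqrt m + 2 * Real.sqrt N + 4 * H)) := by
    intro M
    induction M with
    | zero => simp
    | succ M ih =>
      have hle : K ≤ 2 ^ M * K := Nat.le_mul_of_pos_left K (by positivity)
      have hle2 : 2 ^ M * K ≤ 2 ^ (M + 1) * K :=
        Nat.mul_le_mul_right K (Nat.pow_le_pow_right (by norm_num) (Nat.le_succ M))
      have h4 : ∑ k ∈ Ioc K (2 ^ (M + 1) * K), f k =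
          ∑ k ∈ Ioc K (2 ^ M * K), f k + ∑ k ∈ Ioc (2 ^ M * K) (2 ^ (M + 1) * K), f k := by
        rw [Finset.sum_Ioc_consecutive f hle hle2]
      rw [h4]
      have h5 : ∑ k ∈ Ioc (2 ^ M * K) (2 ^ (M + 1) * K), f k ≤
          C * Real.sqrt n * (Real.sqrt n / K + 2 * Real.sqrt m + 2 * Real.sqrt N + 4 * H) := by
        rcases Nat.lt_or_ge (2 ^ M * K) H with hlt | hge
        · have h6 := levb_block (z := z) (y := y) (g := g) (c := c) (e := e) (t := t) hη C hC hLS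
            hmn hmN (K := 2 ^ M * K) (by omega)
          have h7 : ∑ k ∈ Ioc (2 ^ M * K) (2 ^ (M + 1) * K), f k ≤
              ∑ k ∈ Ioc (2 ^ M * K) (2 * (2 ^ M * K)),
                (1 / (k : ℝ)) * levb_G η N z y m n g c e k t := by
            have e : 2 ^ (M + 1) * K = 2 * (2 ^ M * K) := by ring
            rw [e]
            refine Finset.sum_le_sum fun k _ => ?_
            simp only [hf]
            split_ifs
            · exact le_rfl
            · exact hG k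
          refine h7.trans (h6.trans ?_)
          refine mul_le_mul_of_nonneg_left ?_ (by positivity)
          have h8 : Real.sqrt n / ((2 ^ M * K : ℕ) : ℝ) ≤ Real.sqrt n / K :=
            div_le_div_of_nonneg_left (Real.sqrt_nonneg _) hK0 (by exact_mod_cast hle)
          have h9 : ((2 ^ M * K : ℕ) : ℝ) ≤ H := by exact_mod_cast hlt.le
          linarith
        · rw [Finset.sum_eq_zero]
          · positivity
          · intro k hk
            rw [Finset.mem_Ioc] at hk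
            simp only [hf]
            rw [if_neg (by omega)]
      push_cast
      linarith
  exact h1.trans (add_le_add h2 (h3 L))

private theorem levb_S3 {η : ℝ → ℝ} {N z y m n g c H : ℕ} (D A : ℝ)
    (hm : 1 ≤ m) (hmn : m ≤ n) (hH : H ≤ n) (hD1 : 1 ≤ D) (hA : 0 ≤ A)
    (hD : ∀ x : ℕ, 1 ≤ x → x ≤ n → (x.divisors.card : ℝ) ≤ D)
    (hb : ∀ e t : ℕ, 1 ≤ e → 1 ≤ t → t ≤ n →
      ∑ k ∈ Icc 2 H, (1 / (k : ℝ)) * levb_G η N z y m n g c e k t ≤ A) :
    ∑ h ∈ (Icc 1 H).filter Squarefree,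
      1 / ((h / Nat.gcd h m).totient : ℝ) * ∑ k ∈ (h / Nat.gcd h m).divisors.erase 1,
        ∑ χ ∈ prim k, ‖JE n m (Nat.gcd h m) ((h / Nat.gcd h m) / k) χ‖ *
          ‖QB η N z y g c ((h / Nat.gcd h m) / k) χ‖ ≤
    D ^ 2 * (1 + Real.log n) * A := by
  classical
  set F : ℕ → ℕ → ℝ := fun e h => ∑ k ∈ h.divisors.erase 1,
    (1 / (((h / k : ℕ) : ℝ) * k)) * levb_G η N z y m n g c e k (h / k) with hF
  have hF0 : ∀ e h, 0 ≤ F e h := fun e h =>
    Finset.sum_nonneg fun k _ => mul_nonneg (by positivity) (levb_G_nonneg _ _ _ _ _ _ _ _ _ _ _)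
  have h1 : ∀ h ∈ (Icc 1 H).filter Squarefree,
      1 / ((h / Nat.gcd h m).totient : ℝ) * ∑ k ∈ (h / Nat.gcd h m).divisors.erase 1,
        ∑ χ ∈ prim k, ‖JE n m (Nat.gcd h m) ((h / Nat.gcd h m) / k) χ‖ *
          ‖QB η N z y g c ((h / Nat.gcd h m) / k) χ‖ ≤
      D * F (Nat.gcd h m) (h / Nat.gcd h m) := by
    intro h hh
    rw [Finset.mem_filter, Finset.mem_Icc] at hh
    have hg : 0 < Nat.gcd h m := Nat.gcd_pos_of_pos_right h hm
    have hh' : 1 ≤ h / Nat.gcd h m :=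
      Nat.div_pos (Nat.le_of_dvd (by omega) (Nat.gcd_dvd_left h m)) hg
    have hh'' : h / Nat.gcd h m ≤ n := ((Nat.div_le_self _ _).trans hh.1.2).trans hH
    set h' := h / Nat.gcd h m with hh'def
    have h5 : (0 : ℝ) < (h' : ℝ) := by exact_mod_cast hh'
    have h6 : 1 / (h'.totient : ℝ) ≤ D / (h' : ℝ) :=
      (levb_tot hh').trans (div_le_div_of_nonneg_right (hD _ hh' hh'') h5.le)
    have h7 : F (Nat.gcd h m) h' = (1 / (h' : ℝ)) * ∑ k ∈ h'.divisors.erase 1,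
        levb_G η N z y m n g c (Nat.gcd h m) k (h' / k) := by
      simp only [hF]
      rw [Finset.mul_sum]
      refine Finset.sum_congr rfl fun k hk => ?_
      have hkd := Nat.dvd_of_mem_divisors (Finset.mem_of_mem_erase hk)
      have h8 : ((h' / k : ℕ) : ℝ) * k = h' := by
        exact_mod_cast Nat.div_mul_cancel hkd
      rw [h8]
    rw [h7]
    have h9 : 0 ≤ ∑ k ∈ h'.divisors.erase 1,
        levb_G η N z y m n g c (Nat.gcd h m) k (h' / k) :=
      Finset.sum_nonneg fun k _ => levb_G_nonneg _ _ _ _ _ _ _ _ _ _ _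
    calc _ ≤ D / (h' : ℝ) * ∑ k ∈ h'.divisors.erase 1,
        levb_G η N z y m n g c (Nat.gcd h m) k (h' / k) := mul_le_mul_of_nonneg_right h6 h9
      _ = _ := by ring
  refine (Finset.sum_le_sum h1).trans ?_
  rw [← Finset.mul_sum]
  have h2 := levb_reindex hm H F hF0
  have h3 : ∀ e ∈ m.divisors, ∑ h ∈ Icc 1 H, F e h ≤ (1 + Real.log n) * A := by
    intro e he
    have he1 : 1 ≤ e := Nat.pos_of_mem_divisors he
    have h4 := levb_reindex2 H
      (fun k t => (1 / ((t : ℝ) * k)) * levb_G η N z y m n g c e k t)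
      (fun k t => mul_nonneg (by positivity) (levb_G_nonneg _ _ _ _ _ _ _ _ _ _ _))
    refine h4.trans ?_
    have h5 : ∀ t ∈ Icc 1 H, ∑ k ∈ Icc 2 H, (1 / ((t : ℝ) * k)) *
        levb_G η N z y m n g c e k t ≤ (1 / (t : ℝ)) * A := by
      intro t ht
      rw [Finset.mem_Icc] at ht
      have h6 := hb e t he1 ht.1 (ht.2.trans hH)
      have h7 : ∑ k ∈ Icc 2 H, (1 / ((t : ℝ) * k)) * levb_G η N z y m n g c e k t =
          (1 / (t : ℝ)) * ∑ k ∈ Icc 2 H, (1 / (k : ℝ)) * levb_G η N z y m n g c e k t := by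
        rw [Finset.mul_sum]
        refine Finset.sum_congr rfl fun k _ => ?_
        rw [← mul_assoc, one_div_mul_one_div]
      rw [h7]
      exact mul_le_mul_of_nonneg_left h6 (by positivity)
    refine (Finset.sum_le_sum h5).trans ?_
    rw [← Finset.sum_mul]
    exact mul_le_mul_of_nonneg_right (levb_harm hH) hA
  have hlog : 0 ≤ Real.log n := Real.log_natCast_nonneg n
  have h4 : ∑ e ∈ m.divisors, ∑ h ∈ Icc 1 H, F e h ≤ D * ((1 + Real.log n) * A) := by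
    refine (Finset.sum_le_sum h3).trans ?_
    rw [Finset.sum_const, nsmul_eq_mul]
    exact mul_le_mul_of_nonneg_right (hD m hm hmn) (by positivity)
  calc D * ∑ h ∈ (Icc 1 H).filter Squarefree, F (Nat.gcd h m) (h / Nat.gcd h m) ≤
      D * (D * ((1 + Real.log n) * A)) := mul_le_mul_of_nonneg_left (h2.trans h4) (by linarith)
    _ = _ := by ring

/-! ### assembly -/

/-- the sum for one `n`, in terms of `D`, `K`, `L` -/
private theorem levb_sum {η : ℝ → ℝ} (hη : IsWt η) {N z y m n g c K L H : ℕ} (C₀ C₁ C D : ℝ)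
    (hC₀ : 0 < C₀) (hRed : ∀ N m n z y g c h e h' : ℕ,
      16 ≤ N → Tile N m n → 1 ≤ h → Squarefree h → e = Nat.gcd h m → h' = h / e →
      |RB η N z y m n g c h - (m : ℝ) / h * BAP η N z y g c| ≤
        ∑ q ∈ (range (N + 1)).filter (fun q => ¬ q.Coprime h'), bt z y q * η ((q : ℝ) / N) *
          ((m : ℝ) / h + (((range m).filter (fun r => h ∣ n - m * q - r)).card : ℝ)) +
        C₀ * 2 ^ h.primeFactors.card * N / (h'.totient : ℝ) +
        1 / (h'.totient : ℝ) * ∑ k ∈ h'.divisors.erase 1, ∑ χ ∈ prim k,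
          ‖JE n m e (h' / k) χ‖ * ‖QB η N z y g c (h' / k) χ‖)
    (hC₁ : 0 < C₁) (hPV : ∀ q u v : ℕ, 1 ≤ q → ∀ χ ∈ prim q,
      ‖∑ j ∈ Ioc u v, χ (j : ZMod q)‖ ≤ C₁ * (Real.sqrt q * (1 + Real.log q)))
    (hC : 0 < C) (hLS : ∀ e K u v : ℕ, 1 ≤ e → u ≤ v → ∀ a : ℕ → ℂ,
    ∑ k ∈ Icc 1 K, ∑ χ ∈ prim (e * k), ‖∑ n ∈ Ioc u v, a n * χ (n : ZMod (e * k))‖ ^ 2 ≤
    C * ((v : ℝ) - u + e * (K : ℝ) ^ 2) * ∑ n ∈ Ioc u v, ‖a n‖ ^ 2)
    (hN : 16 ≤ N) (hT : Tile N m n) (hz : 1 ≤ z) (hK : 1 ≤ K) (hHn : H ≤ n)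
    (hL : H ≤ 2 ^ L * K) (hD1 : 1 ≤ D)
    (hD : ∀ x : ℕ, 1 ≤ x → x ≤ n → (x.divisors.card : ℝ) ≤ D) :
    ∑ h ∈ (Icc 1 H).filter Squarefree,
      |RB η N z y m n g c h - (m : ℝ) / h * BAP η N z y g c| ≤
    (D * (1 + Real.log n) * (n / z) + D ^ 2 * (N + 1) * (m / z + 1)) +
    C₀ * N * D ^ 3 * (1 + Real.log n) +
    D ^ 2 * (1 + Real.log n) *
      (K * (2 * C₁ * D * N * (1 + Real.log n) * Real.sqrt K) +
      L * (C * Real.sqrt n * (Real.sqrt n / K + 2 * Real.sqrt m + 2 * Real.sqrt N + 4 * H))) := by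
  have hT' := hT
  obtain ⟨hm, hmN, hnm⟩ := hT'
  have hmn : m ≤ n := le_trans (Nat.le_mul_of_pos_right m (by omega)) hmN
  have hlog : 0 ≤ Real.log n := Real.log_natCast_nonneg n
  have h1 : ∀ h ∈ (Icc 1 H).filter Squarefree,
      |RB η N z y m n g c h - (m : ℝ) / h * BAP η N z y g c| ≤
      ∑ q ∈ (range (N + 1)).filter (fun q => ¬ q.Coprime (h / Nat.gcd h m)),
        bt z y q * η ((q : ℝ) / N) *
          ((m : ℝ) / h + (((range m).filter (fun r => h ∣ n - m * q - r)).card : ℝ)) +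
        C₀ * 2 ^ h.primeFactors.card * N / ((h / Nat.gcd h m).totient : ℝ) +
        1 / ((h / Nat.gcd h m).totient : ℝ) * ∑ k ∈ (h / Nat.gcd h m).divisors.erase 1,
          ∑ χ ∈ prim k, ‖JE n m (Nat.gcd h m) ((h / Nat.gcd h m) / k) χ‖ *
            ‖QB η N z y g c ((h / Nat.gcd h m) / k) χ‖ := by
    intro h hh
    rw [Finset.mem_filter, Finset.mem_Icc] at hh
    exact hRed N m n z y g c h _ _ hN hT hh.1.1 hh.2 rfl rfl
  refine (Finset.sum_le_sum h1).trans ?_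
  rw [Finset.sum_add_distrib, Finset.sum_add_distrib]
  refine add_le_add (add_le_add ?_ ?_) ?_
  · exact levb_S1 hη D (by omega) hT hz hHn hD1 hD (fun h => h / Nat.gcd h m)
      (fun h => Nat.div_dvd_of_dvd (Nat.gcd_dvd_left h m))
  · exact levb_S2 C₀ D hC₀ hm hmn hHn hD1 hD
  · refine levb_S3 D _ hm hmn hHn hD1 (by positivity) hD fun e t he ht htn => ?_
    exact levb_A hη C₁ C D hC₁ hPV hC hLS (by omega) he ht htn hmn hmN hK hHn hL hD

/-- the powers -/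
private theorem levb_pow {κ θ ρ x m N z K H : ℝ} (hx : 1 ≤ x)
    (hρκ : ρ ≤ κ / 10) (hρθ : ρ ≤ 1 / 2 - θ) (hρ : 0 < ρ)
    (hm : x ^ κ ≤ m) (hN : x ^ κ ≤ N) (hmN : m * N ≤ x)
    (hz : N ^ (1 / 10 : ℝ) ≤ z) (hK1 : x ^ (κ / 4) / 2 ≤ K) (hK2 : K ≤ x ^ (κ / 4))
    (hH : H ≤ x ^ θ) :
    0 < z ∧ x / z ≤ x ^ (1 - ρ) ∧ N ≤ x ^ (1 - ρ) ∧ K * Real.sqrt K * N ≤ x ^ (1 - ρ) ∧
    Real.sqrt x * (Real.sqrt x / K + 2 * Real.sqrt m + 2 * Real.sqrt N + 4 * H) ≤
      10 * x ^ (1 - ρ) := by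
  have hx0 : 0 < x := by linarith
  have hp : ∀ a b : ℝ, a ≤ b → x ^ a ≤ x ^ b := fun a b h =>
    Real.rpow_le_rpow_of_exponent_le hx h
  have hxκ : 0 < x ^ κ := Real.rpow_pos_of_pos hx0 _
  have hm0 : 0 < m := by linarith
  have hN0 : 0 < N := by linarith
  have hxκ4 : 0 < x ^ (κ / 4) := Real.rpow_pos_of_pos hx0 _
  have hK0 : 0 < K := by linarith
  have hN1 : N ≤ x ^ (1 - κ) := by
    rw [Real.rpow_sub hx0, Real.rpow_one, le_div_iff₀ hxκ]
    calc N * x ^ κ ≤ N * m := mul_le_mul_of_nonneg_left hm hN0.le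
      _ = m * N := mul_comm _ _
      _ ≤ x := hmN
  have hm1 : m ≤ x ^ (1 - κ) := by
    rw [Real.rpow_sub hx0, Real.rpow_one, le_div_iff₀ hxκ]
    calc m * x ^ κ ≤ m * N := mul_le_mul_of_nonneg_left hN hm0.le
      _ ≤ x := hmN
  have hz1 : x ^ ρ ≤ z := by
    calc x ^ ρ ≤ x ^ (κ * (1 / 10)) := hp _ _ (by linarith)
      _ = (x ^ κ) ^ (1 / 10 : ℝ) := by rw [← Real.rpow_mul hx0.le]
      _ ≤ N ^ (1 / 10 : ℝ) := Real.rpow_le_rpow hxκ.le hN (by norm_num)
      _ ≤ z := hz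
  have hxρ : 0 < x ^ ρ := Real.rpow_pos_of_pos hx0 _
  have hz0 : 0 < z := lt_of_lt_of_le hxρ hz1
  have hsx : Real.sqrt x = x ^ (1 / 2 : ℝ) := Real.sqrt_eq_rpow x
  have hsm : Real.sqrt x * Real.sqrt m ≤ x ^ (1 - ρ) := by
    have h1 : Real.sqrt m ≤ x ^ ((1 - κ) * (1 / 2)) := by
      rw [Real.sqrt_eq_rpow, Real.rpow_mul hx0.le]
      exact Real.rpow_le_rpow hm0.le hm1 (by norm_num)
    calc Real.sqrt x * Real.sqrt m ≤ x ^ (1 / 2 : ℝ) * x ^ ((1 - κ) * (1 / 2)) := by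
          rw [hsx]
          exact mul_le_mul_of_nonneg_left h1 (by positivity)
      _ = x ^ (1 / 2 + (1 - κ) * (1 / 2)) := by rw [← Real.rpow_add hx0]
      _ ≤ x ^ (1 - ρ) := hp _ _ (by linarith)
  have hsN : Real.sqrt x * Real.sqrt N ≤ x ^ (1 - ρ) := by
    have h1 : Real.sqrt N ≤ x ^ ((1 - κ) * (1 / 2)) := by
      rw [Real.sqrt_eq_rpow, Real.rpow_mul hx0.le]
      exact Real.rpow_le_rpow hN0.le hN1 (by norm_num)
    calc Real.sqrt x * Real.sqrt N ≤ x ^ (1 / 2 : ℝ) * x ^ ((1 - κ) * (1 / 2)) := by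
          rw [hsx]
          exact mul_le_mul_of_nonneg_left h1 (by positivity)
      _ = x ^ (1 / 2 + (1 - κ) * (1 / 2)) := by rw [← Real.rpow_add hx0]
      _ ≤ x ^ (1 - ρ) := hp _ _ (by linarith)
  have hsH : Real.sqrt x * H ≤ x ^ (1 - ρ) := by
    calc Real.sqrt x * H ≤ x ^ (1 / 2 : ℝ) * x ^ θ := by
          rw [hsx]
          exact mul_le_mul_of_nonneg_left hH (by positivity)
      _ = x ^ (1 / 2 + θ) := by rw [← Real.rpow_add hx0]
      _ ≤ x ^ (1 - ρ) := hp _ _ (by linarith)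
  have hxK : Real.sqrt x * (Real.sqrt x / K) ≤ 2 * x ^ (1 - ρ) := by
    have h1 : Real.sqrt x * (Real.sqrt x / K) = x / K := by
      rw [← mul_div_assoc, Real.mul_self_sqrt hx0.le]
    rw [h1]
    calc x / K ≤ x / (x ^ (κ / 4) / 2) :=
          div_le_div_of_nonneg_left hx0.le (by positivity) hK1
      _ = 2 * (x / x ^ (κ / 4)) := by field_simp
      _ = 2 * x ^ (1 - κ / 4) := by rw [Real.rpow_sub hx0, Real.rpow_one]
      _ ≤ 2 * x ^ (1 - ρ) := mul_le_mul_of_nonneg_left (hp _ _ (by linarith)) (by norm_num)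
  refine ⟨hz0, ?_, ?_, ?_, ?_⟩
  · rw [Real.rpow_sub hx0, Real.rpow_one]
    exact div_le_div_of_nonneg_left hx0.le hxρ hz1
  · exact hN1.trans (hp _ _ (by linarith))
  · have h1 : Real.sqrt K ≤ x ^ (κ / 4 * (1 / 2)) := by
      rw [Real.sqrt_eq_rpow, Real.rpow_mul hx0.le]
      exact Real.rpow_le_rpow hK0.le hK2 (by norm_num)
    calc K * Real.sqrt K * N ≤ x ^ (κ / 4) * x ^ (κ / 4 * (1 / 2)) * x ^ (1 - κ) :=
          mul_le_mul (mul_le_mul hK2 h1 (Real.sqrt_nonneg _) hxκ4.le) hN1 hN0.le (by positivity)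
      _ = x ^ (κ / 4 + κ / 4 * (1 / 2) + (1 - κ)) := by
          rw [← Real.rpow_add hx0, ← Real.rpow_add hx0]
      _ ≤ x ^ (1 - ρ) := hp _ _ (by linarith)
  · calc Real.sqrt x * (Real.sqrt x / K + 2 * Real.sqrt m + 2 * Real.sqrt N + 4 * H) =
        Real.sqrt x * (Real.sqrt x / K) + 2 * (Real.sqrt x * Real.sqrt m) +
          2 * (Real.sqrt x * Real.sqrt N) + 4 * (Real.sqrt x * H) := by ring
      _ ≤ 10 * x ^ (1 - ρ) := by linarith

/-- the final inequality in reals -/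
private theorem levb_num {Cε C₀ C₁ C v w l x z m N K L S : ℝ} (hCε : 1 ≤ Cε) (hC₀ : 0 < C₀)
    (hC₁ : 0 < C₁) (hC : 0 < C) (hv : 1 ≤ v) (hw : 0 ≤ w) (hl0 : 0 ≤ l) (hl : l ≤ v)
    (hL0 : 0 ≤ L) (hL : L ≤ v) (hz : 0 < z) (hxz : x / z ≤ w) (hN0 : 1 ≤ N) (hN : N ≤ w)
    (hm : 0 ≤ m) (hmN : m * N ≤ x) (hK0 : 0 ≤ K) (hK : K * Real.sqrt K * N ≤ w)
    (hS0 : 0 ≤ S) (hS : Real.sqrt x * S ≤ 10 * w) :
    ((Cε * v) * l * (x / z) + (Cε * v) ^ 2 * (N + 1) * (m / z + 1)) +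
    C₀ * N * (Cε * v) ^ 3 * l + (Cε * v) ^ 2 * l *
      (K * (2 * C₁ * (Cε * v) * N * l * Real.sqrt K) + L * (C * Real.sqrt x * S)) ≤
    (5 * Cε ^ 2 + C₀ * Cε ^ 3 + Cε ^ 2 * (2 * C₁ * Cε + 10 * C)) * (v ^ 5 * w) := by
  have hv0 : 0 < v := by linarith
  have hCε0 : 0 < Cε := by linarith
  have hx0 : 0 ≤ x := le_trans (by positivity) hmN
  have hv2 : v ^ 2 ≤ v ^ 5 := pow_le_pow_right₀ hv (by norm_num)
  have hv4 : v ^ 4 ≤ v ^ 5 := pow_le_pow_right₀ hv (by norm_num)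
  have hvv : v ≤ v ^ 2 := by nlinarith
  have hCC : Cε ≤ Cε ^ 2 := by nlinarith
  -- S1
  have a1 : (Cε * v) * l * (x / z) ≤ Cε ^ 2 * (v ^ 5 * w) := by
    calc (Cε * v) * l * (x / z) ≤ (Cε * v) * v * w := by
          refine mul_le_mul (mul_le_mul_of_nonneg_left hl (by positivity)) hxz (by positivity)
            (by positivity)
      _ = Cε * (v ^ 2 * w) := by ring
      _ ≤ Cε ^ 2 * (v ^ 5 * w) := by
        refine mul_le_mul hCC ?_ (by positivity) (by positivity)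
        exact mul_le_mul_of_nonneg_right hv2 hw
  have a2 : (Cε * v) ^ 2 * (N + 1) * (m / z + 1) ≤ 4 * Cε ^ 2 * (v ^ 5 * w) := by
    have h1 : (N + 1) * (m / z + 1) ≤ 4 * w := by
      have h2 : (N + 1) * (m / z + 1) ≤ 2 * N * (m / z + 1) := by
        refine mul_le_mul_of_nonneg_right (by linarith) (by positivity)
      have h3 : 2 * N * (m / z + 1) = 2 * ((m * N) / z) + 2 * N := by ring
      have h4 : (m * N) / z ≤ x / z := div_le_div_of_nonneg_right hmN hz.le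
      linarith
    calc (Cε * v) ^ 2 * (N + 1) * (m / z + 1) = (Cε * v) ^ 2 * ((N + 1) * (m / z + 1)) := by ring
      _ ≤ (Cε * v) ^ 2 * (4 * w) := mul_le_mul_of_nonneg_left h1 (by positivity)
      _ = 4 * Cε ^ 2 * (v ^ 2 * w) := by ring
      _ ≤ 4 * Cε ^ 2 * (v ^ 5 * w) :=
        mul_le_mul_of_nonneg_left (mul_le_mul_of_nonneg_right hv2 hw) (by positivity)
  -- S2
  have a3 : C₀ * N * (Cε * v) ^ 3 * l ≤ C₀ * Cε ^ 3 * (v ^ 5 * w) := by
    calc C₀ * N * (Cε * v) ^ 3 * l ≤ C₀ * w * (Cε * v) ^ 3 * v := by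
          refine mul_le_mul ?_ hl hl0 (by positivity)
          refine mul_le_mul_of_nonneg_right ?_ (by positivity)
          exact mul_le_mul_of_nonneg_left hN hC₀.le
      _ = C₀ * Cε ^ 3 * (v ^ 4 * w) := by ring
      _ ≤ C₀ * Cε ^ 3 * (v ^ 5 * w) :=
        mul_le_mul_of_nonneg_left (mul_le_mul_of_nonneg_right hv4 hw) (by positivity)
  -- S3
  have a4 : K * (2 * C₁ * (Cε * v) * N * l * Real.sqrt K) ≤ 2 * C₁ * Cε * (v ^ 2 * w) := by
    calc K * (2 * C₁ * (Cε * v) * N * l * Real.sqrt K) =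
        (2 * C₁ * (Cε * v)) * (l * (K * Real.sqrt K * N)) := by ring
      _ ≤ (2 * C₁ * (Cε * v)) * (v * w) := by
        refine mul_le_mul_of_nonneg_left ?_ (by positivity)
        exact mul_le_mul hl hK (by positivity) hv0.le
      _ = _ := by ring
  have a5 : L * (C * Real.sqrt x * S) ≤ 10 * C * (v ^ 2 * w) := by
    calc L * (C * Real.sqrt x * S) = C * (L * (Real.sqrt x * S)) := by ring
      _ ≤ C * (v * (10 * w)) := by
        refine mul_le_mul_of_nonneg_left ?_ hC.le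
        exact mul_le_mul hL hS (by positivity) hv0.le
      _ = 10 * C * (v * w) := by ring
      _ ≤ 10 * C * (v ^ 2 * w) :=
        mul_le_mul_of_nonneg_left (mul_le_mul_of_nonneg_right hvv hw) (by positivity)
  have a6 : (Cε * v) ^ 2 * l *
      (K * (2 * C₁ * (Cε * v) * N * l * Real.sqrt K) + L * (C * Real.sqrt x * S)) ≤
      Cε ^ 2 * (2 * C₁ * Cε + 10 * C) * (v ^ 5 * w) := by
    calc _ ≤ (Cε * v) ^ 2 * v * (2 * C₁ * Cε * (v ^ 2 * w) + 10 * C * (v ^ 2 * w)) :=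
          mul_le_mul (mul_le_mul_of_nonneg_left hl (by positivity)) (add_le_add a4 a5)
            (by positivity) (by positivity)
      _ = _ := by ring
  calc _ ≤ (Cε ^ 2 * (v ^ 5 * w) + 4 * Cε ^ 2 * (v ^ 5 * w)) + C₀ * Cε ^ 3 * (v ^ 5 * w) +
      Cε ^ 2 * (2 * C₁ * Cε + 10 * C) * (v ^ 5 * w) :=
        add_le_add (add_le_add (add_le_add a1 a2) a3) a6
    _ = _ := by ring

/-- keep this signature -/
theorem thm_LevB (h1 : St_RedB) (h2 : St_PV) (h3 : St_LSm) : St_LevB := by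
  intro η hη θ κ hθ0 hθ hκ
  obtain ⟨C₀, hC₀, hRed⟩ := h1 η hη
  obtain ⟨C₁, hC₁, hPV⟩ := h2
  obtain ⟨C, hC, hLS⟩ := h3
  set ρ : ℝ := min (κ / 10) (1 / 2 - θ) with hρdef
  have hρ : 0 < ρ := lt_min (by linarith) (by linarith)
  have hρκ : ρ ≤ κ / 10 := min_le_left _ _
  have hρθ : ρ ≤ 1 / 2 - θ := min_le_right _ _
  set ε : ℝ := ρ / 12 with hεdef
  have hε : 0 < ε := by positivity
  obtain ⟨Cε, hCε, hdiv⟩ := levb_div ε hε
  set Ct : ℝ := 5 * Cε ^ 2 + C₀ * Cε ^ 3 + Cε ^ 2 * (2 * C₁ * Cε + 10 * C) with hCt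
  refine ⟨ρ / 8, by positivity, ?_⟩
  have hcast := tendsto_natCast_atTop_atTop (R := ℝ)
  have e1 : ∀ᶠ n : ℕ in atTop, (16 : ℝ) ≤ (n : ℝ) ^ κ :=
    hcast.eventually ((tendsto_rpow_atTop hκ).eventually_ge_atTop 16)
  have e2 : ∀ᶠ n : ℕ in atTop, ‖Real.log (n : ℝ)‖ ≤ 1 / 4 * ‖(n : ℝ) ^ ε‖ :=
    hcast.eventually ((isLittleO_log_rpow_atTop hε).bound (by norm_num))
  have e3 : ∀ᶠ n : ℕ in atTop, max 4 Ct ≤ (n : ℝ) ^ ε :=
    hcast.eventually ((tendsto_rpow_atTop hε).eventually_ge_atTop _)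
  filter_upwards [e1, e2, e3, eventually_ge_atTop 1] with n g1 g2 g3 g4
  intro m N z y g c hT hm hN hPar hg hcg
  have hx1 : (1 : ℝ) ≤ n := by exact_mod_cast g4
  have hx0 : (0 : ℝ) < n := by linarith
  have hlog : 0 ≤ Real.log n := Real.log_natCast_nonneg n
  have hv4 : (4 : ℝ) ≤ (n : ℝ) ^ ε := (le_max_left _ _).trans g3
  have hvC : Ct ≤ (n : ℝ) ^ ε := (le_max_right _ _).trans g3
  rw [Real.norm_of_nonneg hlog, Real.norm_of_nonneg (by positivity)] at g2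
  have hN16 : 16 ≤ N := by exact_mod_cast g1.trans hN
  obtain ⟨hm1, hmN, hnm⟩ := hT
  have hmNr : (m : ℝ) * N ≤ n := by exact_mod_cast hmN
  -- the cut
  set K : ℕ := ⌊(n : ℝ) ^ (κ / 4)⌋₊ with hK
  have hxK : (1 : ℝ) ≤ (n : ℝ) ^ (κ / 4) := Real.one_le_rpow hx1 (by positivity)
  have hK1 : 1 ≤ K := Nat.le_floor (by exact_mod_cast hxK)
  have hK2 : (K : ℝ) ≤ (n : ℝ) ^ (κ / 4) := Nat.floor_le (by positivity)
  have hK3 : (n : ℝ) ^ (κ / 4) / 2 ≤ K := by
    have h5 := Nat.lt_floor_add_one ((n : ℝ) ^ (κ / 4))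
    have h6 : (1 : ℝ) ≤ K := by exact_mod_cast hK1
    rw [← hK] at h5
    linarith
  set H : ℕ := ⌊(n : ℝ) ^ θ⌋₊ with hH
  have hH1 : (H : ℝ) ≤ (n : ℝ) ^ θ := Nat.floor_le (by positivity)
  have hHn : H ≤ n := by
    have h5 : (n : ℝ) ^ θ ≤ (n : ℝ) ^ (1 : ℝ) :=
      Real.rpow_le_rpow_of_exponent_le hx1 (by linarith)
    rw [Real.rpow_one] at h5
    exact_mod_cast hH1.trans h5
  set L : ℕ := Nat.log 2 n + 1 with hL
  have hLH : H ≤ 2 ^ L * K := by
    have h5 := Nat.lt_pow_succ_log_self (b := 2) (by norm_num) n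
    calc H ≤ n := hHn
      _ ≤ 2 ^ L := h5.le
      _ ≤ 2 ^ L * K := Nat.le_mul_of_pos_right _ hK1
  have hLr : (L : ℝ) ≤ (n : ℝ) ^ ε := by
    have h5 : 2 ^ (Nat.log 2 n) ≤ n := Nat.pow_log_le_self 2 (by omega)
    have h6 : ((2 : ℝ) ^ (Nat.log 2 n)) ≤ n := by exact_mod_cast h5
    have h7 := Real.log_le_log (by positivity) h6
    rw [Real.log_pow] at h7
    have h8 : (1 : ℝ) / 2 ≤ Real.log 2 := by
      have := Real.log_two_gt_d9
      linarith
    have h9 : ((Nat.log 2 n : ℕ) : ℝ) * (1 / 2) ≤ Real.log n :=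
      (mul_le_mul_of_nonneg_left h8 (Nat.cast_nonneg _)).trans h7
    rw [hL]
    push_cast
    linarith
  obtain ⟨hz0, p1, p2, p3, p4⟩ := levb_pow hx1 hρκ hρθ hρ hm hN hmNr hPar.1 hK3 hK2 hH1
  have hz1 : 1 ≤ z := by
    have : (0 : ℝ) < z := hz0
    exact_mod_cast this
  have hD1 : 1 ≤ Cε * (n : ℝ) ^ ε := by nlinarith
  have hsum := levb_sum (y := y) (g := g) (c := c) hη C₀ C₁ C (Cε * (n : ℝ) ^ ε) hC₀ hRed hC₁ hPV hC
    hLS hN16 ⟨hm1, hmN, hnm⟩ hz1 hK1 hHn hLH hD1 (fun x h5 h6 => hdiv n x h5 h6)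
  refine hsum.trans ?_
  have hN1 : (1 : ℝ) ≤ N := by exact_mod_cast (by omega : 1 ≤ N)
  have hfin := levb_num (l := 1 + Real.log n) (S := Real.sqrt n / K + 2 * Real.sqrt m +
    2 * Real.sqrt N + 4 * H) hCε hC₀ hC₁ hC (v := (n : ℝ) ^ ε) (w := (n : ℝ) ^ (1 - ρ))
    (by linarith) (by positivity) (by linarith) (by linarith) (Nat.cast_nonneg L) hLr hz0 p1
    hN1 p2 (Nat.cast_nonneg m) hmNr (Nat.cast_nonneg K) p3 (by positivity) p4
  refine hfin.trans ?_
  have h10 : ((n : ℝ) ^ ε) ^ 5 * (n : ℝ) ^ (1 - ρ) * (n : ℝ) ^ ε = (n : ℝ) ^ (1 - 4 * (ρ / 8)) := by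
    have h11 : ((n : ℝ) ^ ε) ^ 5 = (n : ℝ) ^ (ε * 5) := by
      rw [← Real.rpow_natCast, ← Real.rpow_mul hx0.le]
      norm_num
    rw [h11, ← Real.rpow_add hx0, ← Real.rpow_add hx0]
    congr 1
    rw [hεdef]
    ring
  calc Ct * (((n : ℝ) ^ ε) ^ 5 * (n : ℝ) ^ (1 - ρ)) ≤
      (n : ℝ) ^ ε * (((n : ℝ) ^ ε) ^ 5 * (n : ℝ) ^ (1 - ρ)) :=
        mul_le_mul_of_nonneg_right hvC (by positivity)
    _ = ((n : ℝ) ^ ε) ^ 5 * (n : ℝ) ^ (1 - ρ) * (n : ℝ) ^ ε := by ring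
    _ = (n : ℝ) ^ (1 - 4 * (ρ / 8)) := h10

end Pool.Agent.CV
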