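import Mathlib
import Pool.Agent.CV.Stmts

set_option autoImplicit false

/-!
# CV / LevS

`q % g = c % g` and `d ∣ q` is one class modulo `g d`.
-/

namespace Pool.Agent.CV

open Finset Filter Pool.Agent.MT Pool.Agent.CH Pool.Agent.CU

/-- the class modulo `g d` -/
theorem levS_class (η : ℝ → ℝ) (N m n g c d : ℕ) (hg : 1 ≤ g) (hd : 1 ≤ d)
    (hco : Nat.Coprime g d) : ∃ c' : ℕ, c' < g * d ∧
      TZ η N m n g c d = TAP η N m n (g * d) c' := by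
  refine ⟨(Nat.chineseRemainder hco c 0 : ℕ), Nat.chineseRemainder_lt_mul hco c 0 (by omega)
    (by omega), ?_⟩
  obtain ⟨h1, h2⟩ := (Nat.chineseRemainder hco c 0).2
  set c' : ℕ := (Nat.chineseRemainder hco c 0 : ℕ) with hc'
  unfold TZ TAP
  refine Finset.sum_congr ?_ (fun _ _ => rfl)
  ext q
  rw [Finset.mem_filter, Finset.mem_filter]
  refine and_congr_right fun _ => ?_
  have h3 : (q % (g * d) = c' % (g * d)) ↔ (q % g = c' % g ∧ q % d = c' % d) :=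
    (Nat.modEq_and_modEq_iff_modEq_mul (a := q) (b := c') hco).symm
  rw [h3]
  have h4 : c' % g = c % g := h1
  have h5 : c' % d = 0 := by
    have : c' % d = 0 % d := h2
    rw [this, Nat.zero_mod]
  rw [h4, h5]
  refine and_congr_right fun _ => ?_
  exact Nat.dvd_iff_mod_eq_zero

/-- keep this signature -/
theorem thm_LevS (h : St_TBV3P) : St_LevS := by
  intro η hη σ κ hσ hσ3 hκ
  obtain ⟨c₀, hc₀, h0⟩ := h η hη (1 / 3 - σ / 2) κ (by linarith) (by linarith) hκ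
  refine ⟨min c₀ (κ * σ / 2), lt_min hc₀ (by positivity), ?_⟩
  filter_upwards [h0, eventually_ge_atTop 1] with n h0 hn1 m N g c w htile hm hN hg hgn hc
  obtain ⟨E, hE0, hE1, hE2⟩ := h0 m N htile hm hN
  have hn1' : (1 : ℝ) ≤ n := by exact_mod_cast hn1
  have hn0 : (0 : ℝ) < n := by linarith
  have hN1 : (1 : ℝ) ≤ N := (Real.one_le_rpow hn1' hκ.le).trans hN
  have hN0 : (0 : ℝ) < N := by linarith
  have hg1 : (g : ℝ) ≤ (N : ℝ) ^ (σ / 2) := by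
    refine hgn.trans ?_
    have h1 : (n : ℝ) ^ (min c₀ (κ * σ / 2)) ≤ (n : ℝ) ^ (κ * (σ / 2)) :=
      Real.rpow_le_rpow_of_exponent_le hn1' ((min_le_right _ _).trans_eq (by ring))
    refine h1.trans ?_
    rw [Real.rpow_mul hn0.le]
    exact Real.rpow_le_rpow (by positivity) hN (by linarith)
  -- the moduli
  have hmod : ∀ d ∈ ZD (m * g) w ⌊(N : ℝ) ^ (1 / 3 - σ)⌋₊, 1 ≤ d ∧ Nat.Coprime g d ∧
      ((g * d : ℕ) : ℝ) ≤ (N : ℝ) ^ (1 / 3 - σ / 2) := by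
    intro d hd
    unfold ZD at hd
    rw [Finset.mem_filter, Finset.mem_Icc] at hd
    obtain ⟨⟨h1, h2⟩, -, h3, -⟩ := hd
    refine ⟨h1, (Nat.Coprime.coprime_mul_left_right h3).symm, ?_⟩
    have h4 : (d : ℝ) ≤ (N : ℝ) ^ (1 / 3 - σ) := by
      have := Nat.floor_le (Real.rpow_nonneg hN0.le (1 / 3 - σ))
      exact le_trans (by exact_mod_cast h2) this
    have h5 : (N : ℝ) ^ (1 / 3 - σ / 2) = (N : ℝ) ^ (σ / 2) * (N : ℝ) ^ (1 / 3 - σ) := by
      rw [← Real.rpow_add hN0]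
      congr 1
      ring
    rw [h5]
    push_cast
    exact mul_le_mul hg1 h4 (Nat.cast_nonneg _) (by positivity)
  have hterm : ∀ d ∈ ZD (m * g) w ⌊(N : ℝ) ^ (1 / 3 - σ)⌋₊,
      EZ η N m n g c d ≤ E (g * d) := by
    intro d hd
    obtain ⟨h1, h2, h3⟩ := hmod d hd
    obtain ⟨c', hc', e⟩ := levS_class η N m n g c d hg h1 h2
    have h4 := hE1 (g * d) c' (Nat.mul_pos hg h1) h3 hc'
    unfold EZ
    rw [e]
    push_cast at h4
    exact h4
  refine (Finset.sum_le_sum hterm).trans ?_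
  have himg : ∑ d ∈ ZD (m * g) w ⌊(N : ℝ) ^ (1 / 3 - σ)⌋₊, E (g * d) =
      ∑ f ∈ (ZD (m * g) w ⌊(N : ℝ) ^ (1 / 3 - σ)⌋₊).image (fun d => g * d), E f := by
    rw [Finset.sum_image]
    intro a _ b _ hab
    exact Nat.eq_of_mul_eq_mul_left hg hab
  have hsub : (ZD (m * g) w ⌊(N : ℝ) ^ (1 / 3 - σ)⌋₊).image (fun d => g * d) ⊆
      (Icc 1 N).filter (fun f : ℕ => (f : ℝ) ≤ (N : ℝ) ^ (1 / 3 - σ / 2)) := by
    intro f hf
    rw [Finset.mem_image] at hf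
    obtain ⟨d, hd, rfl⟩ := hf
    obtain ⟨h1, h2, h3⟩ := hmod d hd
    rw [Finset.mem_filter, Finset.mem_Icc]
    refine ⟨⟨Nat.mul_pos hg h1, ?_⟩, h3⟩
    have h4 : ((g * d : ℕ) : ℝ) ≤ (N : ℝ) ^ (1 : ℝ) :=
      h3.trans (Real.rpow_le_rpow_of_exponent_le hN1 (by linarith))
    rw [Real.rpow_one] at h4
    exact_mod_cast h4
  rw [himg]
  refine (Finset.sum_le_sum_of_subset_of_nonneg hsub (fun f _ _ => hE0 f)).trans ?_
  have e2 : ∑ f ∈ (Icc 1 N).filter (fun f : ℕ => (f : ℝ) ≤ (N : ℝ) ^ (1 / 3 - σ / 2)), E f =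
      ∑ f ∈ (Icc 1 N).filter (fun f : ℕ => (f : ℝ) ≤ (N : ℝ) ^ (1 / 3 - σ / 2)),
        ((1 : ℕ) : ℝ) ^ f.primeFactors.card * E f := by
    refine Finset.sum_congr rfl fun f _ => ?_
    rw [Nat.cast_one, one_pow, one_mul]
  rw [e2]
  refine hE2.trans ?_
  exact Real.rpow_le_rpow_of_exponent_le hn1' (by linarith [min_le_left c₀ (κ * σ / 2)])

end Pool.Agent.CV
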