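import Mathlib
import Pool.Agent.CV.Stmts
import Pool.Agent.CV.FamL
import Pool.Agent.GBQ.Div
import Pool.Agent.CU.TSum
import Pool.Agent.CH.ABV

set_option autoImplicit false

/-!
# CV / LevZ: level `1/2` for `q` divisible by `d`
-/

namespace Pool.Agent.CV

open Finset Filter Pool.Agent.MT Pool.Agent.CH Pool.Agent.CU

private lemma lz_tot (f : ℕ) (hf : 1 ≤ f) :
    1 / (f.totient : ℝ) ≤ 2 ^ f.primeFactors.card / f := by
  have h := tsum_tot 1 f le_rfl hf
  simpa using h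

private lemma lz_S (K D : ℕ) (hD : 1 ≤ D) (L : ℝ) (hL : 1 + Real.log D ≤ L) :
    ∑ d ∈ Icc 1 D, (K : ℝ) ^ d.primeFactors.card / (d.totient : ℝ) ≤ L ^ (2 * K) := by
  have h1 := Pool.Agent.GV.bvw_omega_sum D hD (2 * K)
  have hl : 0 ≤ Real.log D := Real.log_natCast_nonneg D
  calc ∑ d ∈ Icc 1 D, (K : ℝ) ^ d.primeFactors.card / (d.totient : ℝ)
      ≤ ∑ d ∈ Icc 1 D, ((2 * K : ℕ) : ℝ) ^ d.primeFactors.card / d := by
        refine sum_le_sum fun d hd => ?_
        rw [mem_Icc] at hd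
        have h2 := lz_tot d hd.1
        push_cast
        rw [mul_pow]
        calc (K : ℝ) ^ d.primeFactors.card / (d.totient : ℝ) =
              (K : ℝ) ^ d.primeFactors.card * (1 / (d.totient : ℝ)) := by ring
          _ ≤ (K : ℝ) ^ d.primeFactors.card * (2 ^ d.primeFactors.card / d) :=
              mul_le_mul_of_nonneg_left h2 (by positivity)
          _ = _ := by ring
    _ ≤ (1 + Real.log D) ^ (2 * K) := h1
    _ ≤ L ^ (2 * K) := pow_le_pow_left₀ (by linarith) hL _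

private lemma lz_mem {M w F d : ℕ} (h : d ∈ ZD M w F) :
    1 ≤ d ∧ d ≤ F ∧ Squarefree d ∧ d.Coprime M ∧ ∀ l ∈ d.primeFactors, w < l := by
  unfold ZD at h
  rw [mem_filter, mem_Icc] at h
  exact ⟨h.1.1, h.1.2, h.2.1, h.2.2.1, h.2.2.2⟩

private lemma lz_mk {M w F d : ℕ} (h1 : 1 ≤ d) (h2 : d ≤ F) (h3 : Squarefree d)
    (h4 : d.Coprime M) (h5 : ∀ l ∈ d.primeFactors, w < l) : d ∈ ZD M w F := by
  unfold ZD
  rw [mem_filter, mem_Icc]
  exact ⟨⟨h1, h2⟩, h3, h4, h5⟩

private lemma lz_dvd {M w F d k : ℕ} (h : d ∈ ZD M w F) (hk : k ∣ d) : k ∈ ZD M w F := by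
  obtain ⟨h1, h2, h3, h4, h5⟩ := lz_mem h
  have hk1 : 1 ≤ k := Nat.pos_of_dvd_of_pos hk h1
  exact lz_mk hk1 ((Nat.le_of_dvd h1 hk).trans h2) (h3.squarefree_of_dvd hk)
    (Nat.Coprime.coprime_dvd_left hk h4)
    (fun l hl => h5 l (Nat.primeFactors_mono hk (by omega) hl))

private lemma lz_split (d k : ℕ) (hd : Squarefree d) (hk : k ∣ d) :
    d.primeFactors.card = k.primeFactors.card + (d / k).primeFactors.card ∧
      d.totient = k.totient * (d / k).totient := by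
  obtain ⟨t, rfl⟩ := hk
  have h0 : k * t ≠ 0 := hd.ne_zero
  have hk0 : 0 < k := Nat.pos_of_ne_zero (by rintro rfl; simp at h0)
  rw [Nat.mul_div_cancel_left t hk0]
  have hc : k.Coprime t := (Nat.squarefree_mul_iff.1 hd).1
  refine ⟨?_, Nat.totient_mul hc⟩
  rw [hc.primeFactors_mul, card_union_of_disjoint hc.disjoint_primeFactors]

private lemma lz_swap (M w D : ℕ) (P : ℕ → Prop) [DecidablePred P] (F : ℕ → ℕ → ℝ)
    (hF : ∀ k t, 0 ≤ F k t) :
    ∑ d ∈ ZD M w D, ∑ k ∈ d.divisors.filter P, F k (d / k) ≤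
      ∑ t ∈ Icc 1 D, ∑ k ∈ (ZD M w D).filter P, F k t := by
  classical
  have h1 : ∀ d ∈ ZD M w D, ∑ k ∈ d.divisors.filter P, F k (d / k) ≤
      ∑ k ∈ (ZD M w D).filter P, ∑ t ∈ Icc 1 D, if k * t = d then F k t else 0 := by
    intro d hd
    have hd1 := lz_mem hd
    calc ∑ k ∈ d.divisors.filter P, F k (d / k) ≤
          ∑ k ∈ d.divisors.filter P, ∑ t ∈ Icc 1 D, if k * t = d then F k t else 0 := by
          refine sum_le_sum fun k hk => ?_
          rw [mem_filter, Nat.mem_divisors] at hk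
          have hk1 : 0 < k := Nat.pos_of_dvd_of_pos hk.1.1 hd1.1
          have h2 : k * (d / k) = d := Nat.mul_div_cancel' hk.1.1
          have h3 : d / k ∈ Icc 1 D := by
            rw [mem_Icc]
            exact ⟨Nat.div_pos (Nat.le_of_dvd hd1.1 hk.1.1) hk1,
              (Nat.div_le_self _ _).trans hd1.2.1⟩
          have h4 := single_le_sum (f := fun t => if k * t = d then F k t else 0) (fun t _ => by
            split_ifs
            · exact hF _ _
            · exact le_rfl) h3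
          simp only [h2, if_true] at h4
          exact h4
      _ ≤ _ := by
          refine sum_le_sum_of_subset_of_nonneg ?_ ?_
          · intro k hk
            rw [mem_filter, Nat.mem_divisors] at hk
            rw [mem_filter]
            exact ⟨lz_dvd hd hk.1.1, hk.2⟩
          · intro k _ _
            refine sum_nonneg fun t _ => ?_
            split_ifs
            · exact hF _ _
            · exact le_rfl
  refine (sum_le_sum h1).trans ?_
  rw [sum_comm]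
  have h5 : ∀ k, ∑ d ∈ ZD M w D, ∑ t ∈ Icc 1 D, (if k * t = d then F k t else 0) ≤
      ∑ t ∈ Icc 1 D, F k t := by
    intro k
    rw [sum_comm]
    refine sum_le_sum fun t _ => ?_
    rw [sum_ite_eq]
    split_ifs
    · exact le_rfl
    · exact hF _ _
  calc _ ≤ ∑ k ∈ (ZD M w D).filter P, ∑ t ∈ Icc 1 D, F k t := sum_le_sum fun k _ => h5 k
    _ = _ := sum_comm

private lemma lz_dyadic (M w D K0 : ℕ) (hK0 : 1 ≤ K0) (f : ℕ → ℝ) (hf : ∀ k, 0 ≤ f k) :
    ∑ k ∈ (ZD M w D).filter (fun k => K0 < k), f k ≤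
      ∑ i ∈ (range (Nat.log 2 D + 1)).filter (fun i => 2 ^ i * K0 ≤ D),
        ∑ k ∈ (Ioc (2 ^ i * K0) (2 * (2 ^ i * K0))).filter (fun k => k.Coprime M), f k := by
  classical
  have h1 : ∀ k ∈ (ZD M w D).filter (fun k => K0 < k), f k ≤
      ∑ i ∈ (range (Nat.log 2 D + 1)).filter (fun i => 2 ^ i * K0 ≤ D),
        if k ∈ (Ioc (2 ^ i * K0) (2 * (2 ^ i * K0))).filter (fun k => k.Coprime M)
          then f k else 0 := by
    intro k hk
    rw [mem_filter] at hk
    obtain ⟨hk1, hkD, _, hkM, _⟩ := lz_mem hk.1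
    have hlt := hk.2
    set i := Nat.log 2 ((k - 1) / K0) with hi
    have hq : 1 ≤ (k - 1) / K0 := Nat.div_pos (by omega) hK0
    have e1 : 2 ^ i ≤ (k - 1) / K0 := Nat.pow_log_le_self 2 (by omega)
    have e2 : (k - 1) / K0 < 2 ^ (i + 1) := Nat.lt_pow_succ_log_self (by omega) _
    have e3 : 2 ^ i * K0 ≤ k - 1 := (Nat.le_div_iff_mul_le hK0).1 e1
    have e4 : k - 1 < 2 ^ (i + 1) * K0 := (Nat.div_lt_iff_lt_mul hK0).1 e2
    have e5 : 2 ^ (i + 1) * K0 = 2 * (2 ^ i * K0) := by rw [pow_succ]; ring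
    have e6 : i < Nat.log 2 D + 1 := by
      have : i ≤ Nat.log 2 D := Nat.log_mono_right ((Nat.div_le_self _ _).trans (by omega))
      omega
    have hmem : i ∈ (range (Nat.log 2 D + 1)).filter (fun i => 2 ^ i * K0 ≤ D) := by
      rw [mem_filter, mem_range]
      exact ⟨e6, by omega⟩
    have h4 := single_le_sum (f := fun i =>
      if k ∈ (Ioc (2 ^ i * K0) (2 * (2 ^ i * K0))).filter (fun k => k.Coprime M)
        then f k else 0) (fun i _ => by
      split_ifs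
      · exact hf _
      · exact le_rfl) hmem
    have h5 : k ∈ (Ioc (2 ^ i * K0) (2 * (2 ^ i * K0))).filter (fun k => k.Coprime M) := by
      rw [mem_filter, mem_Ioc]
      exact ⟨⟨by omega, by omega⟩, hkM⟩
    simp only [if_pos h5] at h4
    exact h4
  refine (sum_le_sum h1).trans ?_
  rw [sum_comm]
  refine sum_le_sum fun i _ => ?_
  rw [← sum_filter]
  refine sum_le_sum_of_subset_of_nonneg ?_ fun k _ _ => hf k
  intro k hk
  exact (mem_filter.1 hk).2

/-- one dyadic block -/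
private lemma lz_block (n M K : ℕ) (Cω ε X : ℝ) (hCω : 0 < Cω) (hε : 0 < ε)
    (hω : ∀ k : ℕ, 1 ≤ k → (2 : ℝ) ^ k.primeFactors.card ≤ Cω * (k : ℝ) ^ ε) (hn : 1 ≤ n)
    (hM : 1 ≤ M) (hMn : M ≤ n ^ 2) (hK : 1 ≤ K) (hKn : 2 * K ≤ n)
    (f : (k : ℕ) → DirichletCharacter ℂ k → DirichletCharacter ℂ M → ℝ)
    (hf : ∀ k χ ψ, 0 ≤ f k χ ψ) (hX : Fam K M f ≤ K * M * X) :
    ∑ k ∈ (Ioc K (2 * K)).filter (fun k => k.Coprime M),
      1 / ((k.totient : ℝ) * (M.totient : ℝ)) *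
        ∑ χ ∈ prim k, ∑ ψ : DirichletCharacter ℂ M, f k χ ψ ≤
      Cω ^ 2 * (n : ℝ) ^ (3 * ε) * X := by
  have hn0 : (0 : ℝ) < n := by exact_mod_cast hn
  have hM0 : (0 : ℝ) < M := by exact_mod_cast hM
  have hK0 : (0 : ℝ) < K := by exact_mod_cast hK
  have hMt : 1 / (M.totient : ℝ) ≤ Cω * (n : ℝ) ^ (2 * ε) / M := by
    refine (lz_tot M hM).trans ?_
    refine div_le_div_of_nonneg_right ((hω M hM).trans ?_) hM0.le
    refine mul_le_mul_of_nonneg_left ?_ hCω.le
    have e1 : (n : ℝ) ^ (2 * ε) = ((n : ℝ) ^ 2) ^ ε := by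
      rw [← Real.rpow_natCast, ← Real.rpow_mul hn0.le]
      norm_num
    rw [e1]
    refine Real.rpow_le_rpow hM0.le ?_ hε.le
    exact_mod_cast hMn
  have hkt : ∀ k ∈ (Ioc K (2 * K)).filter (fun k => k.Coprime M),
      1 / (k.totient : ℝ) ≤ Cω * (n : ℝ) ^ ε / K := by
    intro k hk
    rw [mem_filter, mem_Ioc] at hk
    have hk1 : 1 ≤ k := by omega
    have hk0 : (0 : ℝ) < k := by exact_mod_cast hk1
    refine (lz_tot k hk1).trans ?_
    have e1 : (k : ℝ) ^ ε ≤ (n : ℝ) ^ ε := by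
      refine Real.rpow_le_rpow hk0.le ?_ hε.le
      exact_mod_cast hk.1.2.trans hKn
    calc (2 : ℝ) ^ k.primeFactors.card / k ≤ Cω * (n : ℝ) ^ ε / k := by
          refine div_le_div_of_nonneg_right ((hω k hk1).trans ?_) hk0.le
          exact mul_le_mul_of_nonneg_left e1 hCω.le
      _ ≤ Cω * (n : ℝ) ^ ε / K := by
          refine div_le_div_of_nonneg_left (by positivity) hK0 ?_
          exact_mod_cast hk.1.1.le
  have hs0 : ∀ k, 0 ≤ ∑ χ ∈ prim k, ∑ ψ : DirichletCharacter ℂ M, f k χ ψ := fun k =>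
    sum_nonneg fun χ _ => sum_nonneg fun ψ _ => hf k χ ψ
  calc ∑ k ∈ (Ioc K (2 * K)).filter (fun k => k.Coprime M),
        1 / ((k.totient : ℝ) * (M.totient : ℝ)) *
          ∑ χ ∈ prim k, ∑ ψ : DirichletCharacter ℂ M, f k χ ψ
      ≤ ∑ k ∈ (Ioc K (2 * K)).filter (fun k => k.Coprime M),
        (Cω * (n : ℝ) ^ ε / K) * (Cω * (n : ℝ) ^ (2 * ε) / M) *
          ∑ χ ∈ prim k, ∑ ψ : DirichletCharacter ℂ M, f k χ ψ := by
        refine sum_le_sum fun k hk => ?_
        refine mul_le_mul_of_nonneg_right ?_ (hs0 k)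
        rw [← one_div_mul_one_div]
        exact mul_le_mul (hkt k hk) hMt (by positivity) (by positivity)
    _ = (Cω * (n : ℝ) ^ ε / K) * (Cω * (n : ℝ) ^ (2 * ε) / M) * Fam K M f := by
        rw [← mul_sum]
        rfl
    _ ≤ (Cω * (n : ℝ) ^ ε / K) * (Cω * (n : ℝ) ^ (2 * ε) / M) * (K * M * X) :=
        mul_le_mul_of_nonneg_left hX (by positivity)
    _ = Cω ^ 2 * ((n : ℝ) ^ ε * (n : ℝ) ^ (2 * ε)) * X := by
        field_simp
    _ = _ := by
        rw [← Real.rpow_add hn0]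
        congr 3
        ring

/-- keep this signature -/
theorem thm_LevZ (h1 : St_ZRed) (h2 : St_LevS) (h3 : St_FamB) : St_LevZ := by
  classical
  intro η hη θ hθ0 hθ1
  obtain ⟨ρF, σ, cF, hρF, hσ0, hσ1, hcF, hFam⟩ := h3 η hη θ hθ0 hθ1
  obtain ⟨C1, hC1, hZ⟩ := h1 η hη
  refine ⟨min ρF (1 / 100), lt_min hρF (by norm_num), ?_⟩
  intro κ hκ
  obtain ⟨cS, hcS, hLev⟩ := h2 η hη σ (min κ (1 / 2)) hσ0 hσ1 (lt_min hκ (by norm_num))
  obtain ⟨c, hc0, hc1, hc2, hc3, hc4, hc5⟩ : ∃ c : ℝ, 0 < c ∧ c ≤ cF ∧ c ≤ cS ∧ c ≤ κ ∧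
      c ≤ (1 / 3 - σ) / 2 ∧ c ≤ 1 / 4 := by
    refine ⟨min (min cF cS) (min (min κ ((1 / 3 - σ) / 2)) (1 / 4)), ?_, ?_, ?_, ?_, ?_, ?_⟩
    · exact lt_min (lt_min hcF hcS) (lt_min (lt_min hκ (by linarith)) (by norm_num))
    · exact (min_le_left _ _).trans (min_le_left _ _)
    · exact (min_le_left _ _).trans (min_le_right _ _)
    · exact (min_le_right _ _).trans ((min_le_left _ _).trans (min_le_left _ _))
    · exact (min_le_right _ _).trans ((min_le_left _ _).trans (min_le_right _ _))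
    · exact (min_le_right _ _).trans (min_le_right _ _)
  obtain ⟨ε, hε⟩ : ∃ ε : ℝ, ε = c / 8 := ⟨_, rfl⟩
  have hε0 : 0 < ε := by rw [hε]; positivity
  obtain ⟨Cω, hCω, hω'⟩ := tsum_omega 1 ε hε0
  obtain ⟨C4, hC4, hω4'⟩ := tsum_omega 3 ε hε0
  have hω : ∀ k : ℕ, 1 ≤ k → (2 : ℝ) ^ k.primeFactors.card ≤ Cω * (k : ℝ) ^ ε := by
    intro k hk
    have := hω' k hk
    norm_num at this
    exact this
  have hω4 : ∀ k : ℕ, 1 ≤ k → (4 : ℝ) ^ k.primeFactors.card ≤ C4 * (k : ℝ) ^ ε := by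
    intro k hk
    have := hω4' k hk
    norm_num at this
    exact this
  refine ⟨c / 16, by positivity, ?_⟩
  intro δ hδ
  obtain ⟨CN, hCN⟩ : ∃ CN : ℕ, C1 ≤ CN := exists_nat_ge _
  refine ⟨CN + 11, ?_⟩
  set A : ℝ := 3 * C1 * C4 + 3 * C1 + Cω + 2 * Cω ^ 2 with hA
  have hA0 : 0 < A := by positivity
  have hev := abv_log_pow 11 (3 * c / 8) (A * 2 ^ 11) (by positivity) (by positivity)
  filter_upwards [hFam, hLev, hev, eventually_ge_atTop 1024] with n hFamn hLevn hevn hnbig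
  intro m N g c' hT hκm hmρ hg1 hgn hc'g
  obtain ⟨hm1, hT1, hT2⟩ := id hT
  set L : ℝ := 1 + Real.log n with hL
  have hn0 : (0 : ℝ) < n := by exact_mod_cast (by omega : 0 < n)
  have hn1 : (1 : ℝ) ≤ n := by exact_mod_cast (by omega : 1 ≤ n)
  have hn1024 : (1024 : ℝ) ≤ n := by exact_mod_cast hnbig
  have hln1 : 1 ≤ Real.log n := by
    rw [Real.le_log_iff_exp_le hn0]
    have := Real.exp_one_lt_d9
    linarith
  have hL1 : 1 ≤ L := by linarith
  have hL0 : 0 < L := by linarith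
  have hAL : A * L ^ 11 ≤ (n : ℝ) ^ (3 * c / 8) := by
    refine le_trans ?_ hevn
    have e1 : L ^ 11 ≤ (2 * Real.log n) ^ 11 := pow_le_pow_left₀ hL0.le (by linarith) _
    calc A * L ^ 11 ≤ A * (2 * Real.log n) ^ 11 := mul_le_mul_of_nonneg_left e1 hA0.le
      _ = _ := by rw [mul_pow]; ring
  have hm0 : (0 : ℝ) < m := by exact_mod_cast hm1
  have hg0 : (0 : ℝ) < g := by exact_mod_cast hg1
  have hmF : (m : ℝ) ≤ (n : ℝ) ^ (1 / 3 + ρF) :=
    hmρ.trans (Real.rpow_le_rpow_of_exponent_le hn1 (by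
      have := min_le_left ρF (1 / 100)
      linarith))
  have hm25 : (m : ℝ) ≤ (n : ℝ) ^ (2 / 5 : ℝ) :=
    hmρ.trans (Real.rpow_le_rpow_of_exponent_le hn1 (by
      have := min_le_right ρF (1 / 100)
      linarith))
  have hn10 : (2 : ℝ) ≤ (n : ℝ) ^ (1 / 10 : ℝ) := by
    have e1 : ((1024 : ℝ)) ^ (1 / 10 : ℝ) = 2 := by
      rw [show (1024 : ℝ) = 2 ^ (10 : ℝ) by norm_num, ← Real.rpow_mul (by norm_num)]
      norm_num
    rw [← e1]
    exact Real.rpow_le_rpow (by norm_num) hn1024 (by norm_num)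
  have hn12 : (32 : ℝ) ≤ (n : ℝ) ^ (1 / 2 : ℝ) := by
    have e1 : ((1024 : ℝ)) ^ (1 / 2 : ℝ) = 32 := by
      rw [show (1024 : ℝ) = 32 ^ (2 : ℝ) by norm_num, ← Real.rpow_mul (by norm_num)]
      norm_num
    rw [← e1]
    exact Real.rpow_le_rpow (by norm_num) hn1024 (by norm_num)
  -- size of `N`
  have hNq : (n : ℝ) ^ (1 / 2 : ℝ) ≤ N := by
    have e1 : (n : ℝ) < m * (N + 1) := by exact_mod_cast hT2
    have e2 : (n : ℝ) < (n : ℝ) ^ (2 / 5 : ℝ) * (N + 1) :=
      e1.trans_le (mul_le_mul_of_nonneg_right hm25 (by positivity))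
    have e3 : (n : ℝ) ^ (2 / 5 : ℝ) * ((n : ℝ) ^ (1 / 10 : ℝ) * (n : ℝ) ^ (1 / 2 : ℝ)) = n := by
      rw [← Real.rpow_add hn0, ← Real.rpow_add hn0]
      norm_num
    have e4 : (n : ℝ) ^ (1 / 10 : ℝ) * (n : ℝ) ^ (1 / 2 : ℝ) < N + 1 := by
      have e5 : (0 : ℝ) < (n : ℝ) ^ (2 / 5 : ℝ) := by positivity
      nth_rewrite 1 [← e3] at e2
      exact lt_of_mul_lt_mul_left e2 e5.le
    nlinarith
  have hN16R : (16 : ℝ) ≤ N := by linarith
  have hN16 : 16 ≤ N := by exact_mod_cast hN16R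
  have hN0 : (0 : ℝ) < N := by linarith
  have hN1 : (1 : ℝ) ≤ N := by linarith
  have hNn : N ≤ n := (Nat.le_mul_of_pos_left N hm1).trans hT1
  have hNnR : (N : ℝ) ≤ n := by exact_mod_cast hNn
  have hmn : m ≤ n := (Nat.le_mul_of_pos_right m (by omega : 0 < N)).trans hT1
  have hmN : (m : ℝ) * N ≤ n := by exact_mod_cast hT1
  have hgN : g ≤ N := by
    have e1 : (g : ℝ) ≤ N := by
      refine (hgn.trans ?_).trans hNq
      exact Real.rpow_le_rpow_of_exponent_le hn1 (by linarith)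
    exact_mod_cast e1
  have hgcF : (g : ℝ) ≤ (n : ℝ) ^ cF :=
    hgn.trans (Real.rpow_le_rpow_of_exponent_le hn1 (by linarith))
  have hgcS : (g : ℝ) ≤ (n : ℝ) ^ cS :=
    hgn.trans (Real.rpow_le_rpow_of_exponent_le hn1 (by linarith))
  set M := m * g with hM
  have hM1 : 1 ≤ M := Nat.mul_pos hm1 hg1
  have hMn : M ≤ n ^ 2 := by
    rw [hM, pow_two]
    exact Nat.mul_le_mul hmn (hgN.trans hNn)
  set w := wN δ N with hw
  have hw1 : 1 ≤ w := by
    rw [hw]
    unfold wN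
    exact Nat.le_floor (by simpa using Real.one_le_rpow hN1 hδ.le)
  have hw0 : (0 : ℝ) < w := by exact_mod_cast hw1
  have hw1R : (1 : ℝ) ≤ w := by exact_mod_cast hw1
  -- `D`
  set D := ⌊(N : ℝ) ^ θ⌋₊ with hD
  have hD1 : 1 ≤ D := Nat.le_floor (by simpa using Real.one_le_rpow hN1 hθ0.le)
  have hDθ : (D : ℝ) ≤ (N : ℝ) ^ θ := Nat.floor_le (by positivity)
  have hDh : (D : ℝ) ≤ (N : ℝ) ^ (1 / 2 : ℝ) :=
    hDθ.trans (Real.rpow_le_rpow_of_exponent_le hN1 hθ1.le)
  have hD2N : 2 * D ≤ N := by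
    have e1 : (N : ℝ) ^ (1 / 2 : ℝ) * (N : ℝ) ^ (1 / 2 : ℝ) = N := by
      rw [← Real.rpow_add hN0]
      norm_num
    have e2 : (4 : ℝ) ≤ (N : ℝ) ^ (1 / 2 : ℝ) := by
      by_contra hcon
      push Not at hcon
      have e3 : (0 : ℝ) ≤ (N : ℝ) ^ (1 / 2 : ℝ) := by positivity
      nlinarith
    have e4 : 2 * (D : ℝ) ≤ N := by nlinarith
    exact_mod_cast e4
  have hDN : D ≤ N := by omega
  have hDn : D ≤ n := hDN.trans hNn
  have hDL : 1 + Real.log D ≤ L := by
    have : Real.log D ≤ Real.log n :=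
      Real.log_le_log (by exact_mod_cast hD1) (by exact_mod_cast hDn)
    linarith
  -- `K0`
  have hσ' : 0 < 1 / 3 - σ := by linarith
  set K0 := ⌊(N : ℝ) ^ (1 / 3 - σ)⌋₊ with hK0
  have hK01 : 1 ≤ K0 := Nat.le_floor (by simpa using Real.one_le_rpow hN1 hσ'.le)
  have hK00 : (0 : ℝ) < K0 := by exact_mod_cast hK01
  have hK0lt : (N : ℝ) ^ (1 / 3 - σ) < K0 + 1 := Nat.lt_floor_add_one _
  have hK02 : (N : ℝ) ^ (1 / 3 - σ) ≤ 2 * K0 := by
    have : (1 : ℝ) ≤ K0 := by exact_mod_cast hK01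
    linarith
  -- the common bound
  set T : ℝ := (n : ℝ) ^ (1 - 5 * c / 8) with hTdef
  have hT0 : 0 < T := by positivity
  have hεn0 : 0 < (n : ℝ) ^ ε := by positivity
  have hDε : ∀ d ∈ Icc 1 D, (d : ℝ) ^ ε ≤ (n : ℝ) ^ ε := by
    intro d hd
    rw [mem_Icc] at hd
    refine Real.rpow_le_rpow (Nat.cast_nonneg d) ?_ hε0.le
    exact_mod_cast hd.2.trans hDn
  have hZsub : ZD M w D ⊆ Icc 1 D := by
    intro d hd
    have := lz_mem hd
    exact mem_Icc.2 ⟨this.1, this.2.1⟩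
  -- sums of `4^ω`
  have hs4 : ∑ d ∈ ZD M w D, (4 : ℝ) ^ d.primeFactors.card ≤ C4 * (n : ℝ) ^ ε * D := by
    calc ∑ d ∈ ZD M w D, (4 : ℝ) ^ d.primeFactors.card
        ≤ ∑ d ∈ Icc 1 D, (4 : ℝ) ^ d.primeFactors.card :=
          sum_le_sum_of_subset_of_nonneg hZsub fun _ _ _ => by positivity
      _ ≤ ∑ d ∈ Icc 1 D, C4 * (n : ℝ) ^ ε := by
          refine sum_le_sum fun d hd => ?_
          exact (hω4 d (mem_Icc.1 hd).1).trans (mul_le_mul_of_nonneg_left (hDε d hd) hC4.le)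
      _ = _ := by
          rw [sum_const, Nat.card_Icc, nsmul_eq_mul]
          simp
          ring
  have hs4t : ∑ d ∈ ZD M w D, (4 : ℝ) ^ d.primeFactors.card / (d.totient : ℝ) ≤ L ^ 8 := by
    have e1 := lz_S 4 D hD1 L hDL
    norm_num at e1
    refine le_trans (sum_le_sum_of_subset_of_nonneg hZsub fun _ _ _ => by positivity) e1
  have hmD : (m : ℝ) * D ≤ (n : ℝ) ^ (3 / 4 : ℝ) := by
    have e1 : (m : ℝ) * (N : ℝ) ^ (1 / 2 : ℝ) * (N : ℝ) ^ (1 / 2 : ℝ) ≤ n := by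
      rw [mul_assoc, ← Real.rpow_add hN0]
      norm_num
      exact hmN
    have e2 : (n : ℝ) ^ (1 / 4 : ℝ) ≤ (N : ℝ) ^ (1 / 2 : ℝ) := by
      have : (n : ℝ) ^ (1 / 4 : ℝ) = ((n : ℝ) ^ (1 / 2 : ℝ)) ^ (1 / 2 : ℝ) := by
        rw [← Real.rpow_mul hn0.le]
        norm_num
      rw [this]
      exact Real.rpow_le_rpow (by positivity) hNq (by norm_num)
    have e3 : (n : ℝ) ^ (3 / 4 : ℝ) * (n : ℝ) ^ (1 / 4 : ℝ) = n := by
      rw [← Real.rpow_add hn0]
      norm_num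
    have e4 : (0 : ℝ) < (n : ℝ) ^ (1 / 4 : ℝ) := by positivity
    have e5 : (m : ℝ) * D ≤ (m : ℝ) * (N : ℝ) ^ (1 / 2 : ℝ) :=
      mul_le_mul_of_nonneg_left hDh hm0.le
    have e6 : (m : ℝ) * (N : ℝ) ^ (1 / 2 : ℝ) * (n : ℝ) ^ (1 / 4 : ℝ) ≤
        (n : ℝ) ^ (3 / 4 : ℝ) * (n : ℝ) ^ (1 / 4 : ℝ) := by
      rw [e3]
      refine le_trans ?_ e1
      exact mul_le_mul_of_nonneg_left e2 (by positivity)
    exact e5.trans (le_of_mul_le_mul_right e6 e4)
  have hεT : (n : ℝ) ^ ε * (n : ℝ) ^ (3 / 4 : ℝ) ≤ T := by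
    rw [← Real.rpow_add hn0, hTdef]
    exact Real.rpow_le_rpow_of_exponent_le hn1 (by rw [hε]; linarith)
  have hnm : (n : ℝ) / (m * g) ≤ T := by
    have e1 : (n : ℝ) ≤ T * m := by
      calc (n : ℝ) = (n : ℝ) ^ (1 - κ) * (n : ℝ) ^ κ := by
            rw [← Real.rpow_add hn0]
            norm_num
        _ ≤ T * m := by
            refine mul_le_mul ?_ hκm (by positivity) hT0.le
            rw [hTdef]
            exact Real.rpow_le_rpow_of_exponent_le hn1 (by linarith)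
    rw [div_le_iff₀ (by positivity)]
    have hg1R : (1 : ℝ) ≤ g := by exact_mod_cast hg1
    calc (n : ℝ) ≤ T * m := e1
      _ ≤ T * (m * g) := mul_le_mul_of_nonneg_left (le_mul_of_one_le_right hm0.le hg1R) hT0.le
  have hnK : (m : ℝ) * N / K0 ≤ 2 * T := by
    rw [div_le_iff₀ hK00]
    have e1 : (n : ℝ) ^ c ≤ 2 * K0 := by
      refine le_trans ?_ hK02
      calc (n : ℝ) ^ c ≤ (n : ℝ) ^ ((1 / 3 - σ) / 2) :=
            Real.rpow_le_rpow_of_exponent_le hn1 hc4
        _ = ((n : ℝ) ^ (1 / 2 : ℝ)) ^ (1 / 3 - σ) := by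
            rw [← Real.rpow_mul hn0.le]
            congr 1
            ring
        _ ≤ _ := Real.rpow_le_rpow (by positivity) hNq hσ'.le
    calc (m : ℝ) * N ≤ n := hmN
      _ = (n : ℝ) ^ (1 - c) * (n : ℝ) ^ c := by
          rw [← Real.rpow_add hn0]
          norm_num
      _ ≤ T * (2 * K0) := by
          refine mul_le_mul ?_ e1 (by positivity) hT0.le
          rw [hTdef]
          exact Real.rpow_le_rpow_of_exponent_le hn1 (by linarith)
      _ = _ := by ring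
  -- the estimate for one modulus
  have hone : ∀ d ∈ ZD M w D, EZ η N m n g c' d ≤
      C1 * 4 ^ d.primeFactors.card * L ^ 3 * (m +
        ((m : ℝ) / w + 1) * (n / (m * g * (d.totient : ℝ)) + 1) +
        m * N / ((d.totient : ℝ) * K0)) +
      2 ^ d.primeFactors.card / (d.totient : ℝ) *
        ∑ k ∈ d.divisors.filter (fun k => k ≤ K0), (k.totient : ℝ) * EZ η N m n g c' k +
      1 / ((d.totient : ℝ) * (M.totient : ℝ)) *
        ∑ k ∈ d.divisors.filter (fun k => K0 < k), ∑ χ ∈ prim k,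
          ∑ ψ : DirichletCharacter ℂ M,
            ‖PZ (etaR η) (m * N) χ ψ‖ * ‖JZ n m g c' (d / k) χ ψ‖ := by
    intro d hd
    obtain ⟨q1, q2, q3, q4, q5⟩ := lz_mem hd
    exact hZ N m n g c' d w K0 hN16 hT hw1 hK01 hg1 hgN hc'g
      (lz_mk q1 (q2.trans hDN) q3 q4 q5)
  refine (sum_le_sum hone).trans ?_
  rw [sum_add_distrib, sum_add_distrib]
  -- first part
  have hP1 : ∑ d ∈ ZD M w D, C1 * 4 ^ d.primeFactors.card * L ^ 3 * (m +
        ((m : ℝ) / w + 1) * (n / (m * g * (d.totient : ℝ)) + 1) +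
        m * N / ((d.totient : ℝ) * K0)) ≤
      3 * C1 * C4 * L ^ 11 * T + 3 * C1 * L ^ 11 * T + C1 * L ^ 11 * (n / (g * w)) := by
    have e1 : ∀ d ∈ ZD M w D, C1 * 4 ^ d.primeFactors.card * L ^ 3 * (m +
        ((m : ℝ) / w + 1) * (n / (m * g * (d.totient : ℝ)) + 1) +
        m * N / ((d.totient : ℝ) * K0)) =
        C1 * L ^ 3 * (m + ((m : ℝ) / w + 1)) * 4 ^ d.primeFactors.card +
        C1 * L ^ 3 * (((m : ℝ) / w + 1) * (n / (m * g)) + m * N / K0) *
          (4 ^ d.primeFactors.card / (d.totient : ℝ)) := by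
      intro d _
      rw [div_mul_eq_div_div (n : ℝ) ((m : ℝ) * g) (d.totient : ℝ),
        mul_comm (d.totient : ℝ) (K0 : ℝ), div_mul_eq_div_div ((m : ℝ) * N) (K0 : ℝ)]
      ring
    rw [sum_congr rfl e1, sum_add_distrib, ← mul_sum, ← mul_sum]
    have hm1R : (1 : ℝ) ≤ m := by exact_mod_cast hm1
    have e2 : (m : ℝ) + ((m : ℝ) / w + 1) ≤ 3 * m := by
      have : (m : ℝ) / w ≤ m := div_le_self hm0.le hw1R
      linarith
    have e3 : ((m : ℝ) / w + 1) * (n / (m * g)) = n / (g * w) + n / (m * g) := by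
      field_simp
    have e4 : C1 * L ^ 3 * (m + ((m : ℝ) / w + 1)) * ∑ d ∈ ZD M w D,
        (4 : ℝ) ^ d.primeFactors.card ≤ 3 * C1 * C4 * L ^ 11 * T := by
      calc C1 * L ^ 3 * (m + ((m : ℝ) / w + 1)) * ∑ d ∈ ZD M w D,
          (4 : ℝ) ^ d.primeFactors.card
          ≤ C1 * L ^ 3 * (3 * m) * (C4 * (n : ℝ) ^ ε * D) := by
            refine mul_le_mul ?_ hs4 (sum_nonneg fun _ _ => by positivity) (by positivity)
            exact mul_le_mul_of_nonneg_left e2 (by positivity)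
        _ = 3 * C1 * C4 * L ^ 3 * ((n : ℝ) ^ ε * (m * D)) := by ring
        _ ≤ 3 * C1 * C4 * L ^ 3 * ((n : ℝ) ^ ε * (n : ℝ) ^ (3 / 4 : ℝ)) := by gcongr
        _ ≤ 3 * C1 * C4 * L ^ 3 * T := by gcongr
        _ ≤ 3 * C1 * C4 * L ^ 11 * T := by
            have e6 : L ^ 3 ≤ L ^ 11 := pow_le_pow_right₀ hL1 (by norm_num)
            gcongr
    have e5 : C1 * L ^ 3 * (((m : ℝ) / w + 1) * (n / (m * g)) + m * N / K0) *
        ∑ d ∈ ZD M w D, (4 : ℝ) ^ d.primeFactors.card / (d.totient : ℝ) ≤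
        3 * C1 * L ^ 11 * T + C1 * L ^ 11 * (n / (g * w)) := by
      rw [e3]
      calc C1 * L ^ 3 * ((n : ℝ) / (g * w) + n / (m * g) + m * N / K0) *
          ∑ d ∈ ZD M w D, (4 : ℝ) ^ d.primeFactors.card / (d.totient : ℝ)
          ≤ C1 * L ^ 3 * ((n : ℝ) / (g * w) + T + 2 * T) * L ^ 8 := by
            refine mul_le_mul ?_ hs4t (sum_nonneg fun _ _ => by positivity) (by positivity)
            refine mul_le_mul_of_nonneg_left ?_ (by positivity)
            exact add_le_add (add_le_add le_rfl hnm) hnK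
        _ = _ := by ring
    linarith
  -- second part
  have hP2 : ∑ d ∈ ZD M w D, 2 ^ d.primeFactors.card / (d.totient : ℝ) *
        ∑ k ∈ d.divisors.filter (fun k => k ≤ K0), (k.totient : ℝ) * EZ η N m n g c' k ≤
      Cω * L ^ 11 * T := by
    have hE0 : ∀ k, 0 ≤ EZ η N m n g c' k := fun k => abs_nonneg _
    set F : ℕ → ℕ → ℝ := fun k t => ((2 : ℝ) ^ k.primeFactors.card * EZ η N m n g c' k) *
            (2 ^ t.primeFactors.card / (t.totient : ℝ)) with hF
    have hF0 : ∀ k t, 0 ≤ F k t := by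
      intro k t
      simp only [hF]
      have := hE0 k
      positivity
    have e1 : ∀ d ∈ ZD M w D, 2 ^ d.primeFactors.card / (d.totient : ℝ) *
        ∑ k ∈ d.divisors.filter (fun k => k ≤ K0), (k.totient : ℝ) * EZ η N m n g c' k =
        ∑ k ∈ d.divisors.filter (fun k => k ≤ K0), F k (d / k) := by
      intro d hd
      rw [mul_sum]
      refine sum_congr rfl fun k hk => ?_
      rw [mem_filter, Nat.mem_divisors] at hk
      obtain ⟨q1, q2, q3, q4, q5⟩ := lz_mem hd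
      obtain ⟨r1, r2⟩ := lz_split d k q3 hk.1.1
      have hk1 : 0 < k := Nat.pos_of_dvd_of_pos hk.1.1 q1
      have hkt : (0 : ℝ) < k.totient := by exact_mod_cast Nat.totient_pos.2 hk1
      simp only [hF]
      rw [r1, r2]
      push_cast
      rw [pow_add]
      have hdt : (0 : ℝ) < (d / k).totient := by
        exact_mod_cast Nat.totient_pos.2 (Nat.div_pos (Nat.le_of_dvd q1 hk.1.1) hk1)
      field_simp
    rw [sum_congr rfl e1]
    refine (lz_swap M w D (fun k => k ≤ K0) F hF0).trans ?_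
    have e2 : ∑ t ∈ Icc 1 D, ∑ k ∈ (ZD M w D).filter (fun k => k ≤ K0), F k t =
        (∑ t ∈ Icc 1 D, 2 ^ t.primeFactors.card / (t.totient : ℝ)) *
          ∑ k ∈ (ZD M w D).filter (fun k => k ≤ K0),
            2 ^ k.primeFactors.card * EZ η N m n g c' k := by
      rw [sum_mul]
      refine sum_congr rfl fun t _ => ?_
      rw [mul_sum]
      refine sum_congr rfl fun k _ => ?_
      simp only [hF]
      ring
    rw [e2]
    have e3 : ∑ t ∈ Icc 1 D, (2 : ℝ) ^ t.primeFactors.card / (t.totient : ℝ) ≤ L ^ 4 := by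
      have := lz_S 2 D hD1 L hDL
      norm_num at this
      exact this
    have e4 : ∑ k ∈ (ZD M w D).filter (fun k => k ≤ K0),
        (2 : ℝ) ^ k.primeFactors.card * EZ η N m n g c' k ≤ Cω * T := by
      calc ∑ k ∈ (ZD M w D).filter (fun k => k ≤ K0),
            (2 : ℝ) ^ k.primeFactors.card * EZ η N m n g c' k
          ≤ ∑ k ∈ (ZD M w D).filter (fun k => k ≤ K0),
            Cω * (n : ℝ) ^ ε * EZ η N m n g c' k := by
            refine sum_le_sum fun k hk => ?_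
            rw [mem_filter] at hk
            obtain ⟨q1, q2, _⟩ := lz_mem hk.1
            refine mul_le_mul_of_nonneg_right ?_ (hE0 k)
            exact (hω k q1).trans
              (mul_le_mul_of_nonneg_left (hDε k (mem_Icc.2 ⟨q1, q2⟩)) hCω.le)
        _ = Cω * (n : ℝ) ^ ε *
            ∑ k ∈ (ZD M w D).filter (fun k => k ≤ K0), EZ η N m n g c' k := by rw [mul_sum]
        _ ≤ Cω * (n : ℝ) ^ ε * ∑ k ∈ ZD M w K0, EZ η N m n g c' k := by
            refine mul_le_mul_of_nonneg_left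
              (sum_le_sum_of_subset_of_nonneg ?_ fun k _ _ => hE0 k) (by positivity)
            intro k hk
            rw [mem_filter] at hk
            obtain ⟨q1, q2, q3, q4, q5⟩ := lz_mem hk.1
            exact lz_mk q1 hk.2 q3 q4 q5
        _ ≤ Cω * (n : ℝ) ^ ε * (n : ℝ) ^ (1 - cS) := by
            refine mul_le_mul_of_nonneg_left ?_ (by positivity)
            exact hLevn m N g c' w hT
              ((Real.rpow_le_rpow_of_exponent_le hn1 (min_le_left _ _)).trans hκm)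
              ((Real.rpow_le_rpow_of_exponent_le hn1 (min_le_right _ _)).trans hNq)
              hg1 hgcS hc'g
        _ ≤ Cω * T := by
            rw [mul_assoc, ← Real.rpow_add hn0]
            refine mul_le_mul_of_nonneg_left ?_ hCω.le
            exact Real.rpow_le_rpow_of_exponent_le hn1 (by rw [hε]; linarith)
    calc (∑ t ∈ Icc 1 D, 2 ^ t.primeFactors.card / (t.totient : ℝ)) *
          ∑ k ∈ (ZD M w D).filter (fun k => k ≤ K0),
            2 ^ k.primeFactors.card * EZ η N m n g c' k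
        ≤ L ^ 4 * (Cω * T) := by
          refine mul_le_mul e3 e4 (sum_nonneg fun k _ => ?_) (by positivity)
          have := hE0 k
          positivity
      _ ≤ L ^ 11 * (Cω * T) := by
          refine mul_le_mul_of_nonneg_right ?_ (by positivity)
          exact pow_le_pow_right₀ hL1 (by norm_num)
      _ = _ := by ring
  -- third part
  have hP3 : ∑ d ∈ ZD M w D, 1 / ((d.totient : ℝ) * (M.totient : ℝ)) *
        ∑ k ∈ d.divisors.filter (fun k => K0 < k), ∑ χ ∈ prim k,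
          ∑ ψ : DirichletCharacter ℂ M,
            ‖PZ (etaR η) (m * N) χ ψ‖ * ‖JZ n m g c' (d / k) χ ψ‖ ≤
      2 * Cω ^ 2 * L ^ 11 * T := by
    set Q : ℕ → ℕ → ℝ := fun k t => 1 / ((k.totient : ℝ) * (M.totient : ℝ)) *
      ∑ χ ∈ prim k, ∑ ψ : DirichletCharacter ℂ M,
        ‖PZ (etaR η) (m * N) χ ψ‖ * ‖JZ n m g c' t χ ψ‖ with hQ
    have hQ0 : ∀ k t, 0 ≤ Q k t := by
      intro k t
      simp only [hQ]
      have : 0 ≤ ∑ χ ∈ prim k, ∑ ψ : DirichletCharacter ℂ M,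
        ‖PZ (etaR η) (m * N) χ ψ‖ * ‖JZ n m g c' t χ ψ‖ :=
        sum_nonneg fun χ _ => sum_nonneg fun ψ _ => by positivity
      positivity
    set F : ℕ → ℕ → ℝ := fun k t => 1 / (t.totient : ℝ) * Q k t with hF
    have hF0 : ∀ k t, 0 ≤ F k t := by
      intro k t
      simp only [hF]
      have := hQ0 k t
      positivity
    have e1 : ∀ d ∈ ZD M w D, 1 / ((d.totient : ℝ) * (M.totient : ℝ)) *
        ∑ k ∈ d.divisors.filter (fun k => K0 < k), ∑ χ ∈ prim k,
          ∑ ψ : DirichletCharacter ℂ M,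
            ‖PZ (etaR η) (m * N) χ ψ‖ * ‖JZ n m g c' (d / k) χ ψ‖ =
        ∑ k ∈ d.divisors.filter (fun k => K0 < k), F k (d / k) := by
      intro d hd
      rw [mul_sum]
      refine sum_congr rfl fun k hk => ?_
      rw [mem_filter, Nat.mem_divisors] at hk
      obtain ⟨q1, q2, q3, q4, q5⟩ := lz_mem hd
      obtain ⟨r1, r2⟩ := lz_split d k q3 hk.1.1
      simp only [hF, hQ]
      rw [r2]
      push_cast
      rw [← mul_assoc]
      congr 1
      rw [one_div_mul_one_div]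
      congr 1
      ring
    rw [sum_congr rfl e1]
    refine (lz_swap M w D (fun k => K0 < k) F hF0).trans ?_
    have e2 : ∀ t, ∑ k ∈ (ZD M w D).filter (fun k => K0 < k), Q k t ≤
        (2 * L) * (Cω ^ 2 * T) := by
      intro t
      refine (lz_dyadic M w D K0 hK01 (fun k => Q k t) (fun k => hQ0 k t)).trans ?_
      have e3 : ∀ i ∈ (range (Nat.log 2 D + 1)).filter (fun i => 2 ^ i * K0 ≤ D),
          ∑ k ∈ (Ioc (2 ^ i * K0) (2 * (2 ^ i * K0))).filter (fun k => k.Coprime M), Q k t ≤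
            Cω ^ 2 * T := by
        intro i hi
        rw [mem_filter] at hi
        have hKi : 1 ≤ 2 ^ i * K0 := Nat.mul_pos (by positivity) hK01
        have hKD : (((2 ^ i * K0 : ℕ)) : ℝ) ≤ D := by exact_mod_cast hi.2
        have e4 := hFamn m N g c' t (2 ^ i * K0) hT hmF hg1 hgcF (by
          refine hK02.trans ?_
          have : (K0 : ℝ) ≤ ((2 ^ i * K0 : ℕ) : ℝ) := by
            exact_mod_cast Nat.le_mul_of_pos_left K0 (by positivity)
          linarith) (hKD.trans hDθ)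
        have hMc : (M : ℝ) = m * g := by rw [hM]; push_cast; ring
        have e5 := lz_block n M (2 ^ i * K0) Cω ε ((n : ℝ) ^ (1 - cF)) hCω hε0 hω (by omega)
          hM1 hMn hKi (by omega)
          (fun k χ ψ => ‖PZ (etaR η) (m * N) χ ψ‖ * ‖JZ n m g c' t χ ψ‖)
          (fun k χ ψ => by positivity) (by rw [hMc]; exact e4)
        refine e5.trans ?_
        rw [mul_assoc, ← Real.rpow_add hn0]
        refine mul_le_mul_of_nonneg_left ?_ (by positivity)
        exact Real.rpow_le_rpow_of_exponent_le hn1 (by rw [hε]; linarith)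
      refine (sum_le_sum e3).trans ?_
      rw [sum_const, nsmul_eq_mul]
      refine mul_le_mul_of_nonneg_right ?_ (by positivity)
      have e6 : (((range (Nat.log 2 D + 1)).filter (fun i => 2 ^ i * K0 ≤ D)).card : ℝ) ≤
          (Nat.log 2 D : ℝ) + 1 := by
        have := card_filter_le (range (Nat.log 2 D + 1)) (fun i => 2 ^ i * K0 ≤ D)
        rw [card_range] at this
        exact_mod_cast this
      refine e6.trans ?_
      have e7 : (Nat.log 2 D : ℝ) * Real.log 2 ≤ Real.log D := by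
        rw [← Real.log_pow]
        refine Real.log_le_log (by positivity) ?_
        exact_mod_cast Nat.pow_log_le_self 2 (by omega)
      have e8 : (0.69 : ℝ) < Real.log 2 := by
        have := Real.log_two_gt_d9
        linarith
      have e9 : (0 : ℝ) ≤ (Nat.log 2 D : ℝ) := Nat.cast_nonneg _
      nlinarith
    have e3 : ∑ t ∈ Icc 1 D, 1 / (t.totient : ℝ) ≤ L ^ 2 := by
      have := lz_S 1 D hD1 L hDL
      simpa using this
    calc ∑ t ∈ Icc 1 D, ∑ k ∈ (ZD M w D).filter (fun k => K0 < k), F k t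
        = ∑ t ∈ Icc 1 D, 1 / (t.totient : ℝ) *
            ∑ k ∈ (ZD M w D).filter (fun k => K0 < k), Q k t := by
          refine sum_congr rfl fun t _ => ?_
          rw [mul_sum]
      _ ≤ ∑ t ∈ Icc 1 D, 1 / (t.totient : ℝ) * ((2 * L) * (Cω ^ 2 * T)) := by
          refine sum_le_sum fun t _ => ?_
          exact mul_le_mul_of_nonneg_left (e2 t) (by positivity)
      _ = (∑ t ∈ Icc 1 D, 1 / (t.totient : ℝ)) * ((2 * L) * (Cω ^ 2 * T)) := by rw [sum_mul]
      _ ≤ L ^ 2 * ((2 * L) * (Cω ^ 2 * T)) :=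
          mul_le_mul_of_nonneg_right e3 (by positivity)
      _ = 2 * Cω ^ 2 * L ^ 3 * T := by ring
      _ ≤ 2 * Cω ^ 2 * L ^ 11 * T := by
          have e6 : L ^ 3 ≤ L ^ 11 := pow_le_pow_right₀ hL1 (by norm_num)
          gcongr
  -- conclusion
  have hfin1 : A * L ^ 11 * T ≤ (n : ℝ) ^ (1 - 4 * (c / 16)) := by
    calc A * L ^ 11 * T ≤ (n : ℝ) ^ (3 * c / 8) * T := mul_le_mul_of_nonneg_right hAL hT0.le
      _ = (n : ℝ) ^ (1 - 4 * (c / 16)) := by
          rw [hTdef, ← Real.rpow_add hn0]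
          congr 1
          ring
  have hfin2 : C1 * L ^ 11 * ((n : ℝ) / (g * w)) ≤
      ((CN + 11 : ℕ) : ℝ) * L ^ (CN + 11) * n / (g * w) := by
    rw [mul_div_assoc]
    refine mul_le_mul_of_nonneg_right ?_ (by positivity)
    refine mul_le_mul ?_ (pow_le_pow_right₀ hL1 (by omega)) (by positivity) (by positivity)
    push_cast
    linarith
  refine le_trans ?_ (add_le_add hfin1 hfin2)
  rw [hA]
  linarith

end Pool.Agent.CV
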