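import Mathlib
import Pool.Agent.CV.Stmts
import Pool.Agent.CU.JB

set_option autoImplicit false

/-!
# CV / PVF

`χ ψ` as a character modulo `k M`; it is induced by a primitive character `θ` modulo `r`, and
`k ∣ r` because the conductors of `χ`, `ψ` are coprime.  The remaining primes of `M` are removed by
`CU.jb_sum`.
-/

namespace Pool.Agent.CV

open Finset Filter Pool.Agent.MT Pool.Agent.CH Pool.Agent.CU

/-- keep this signature -/
theorem thm_PVF (h : St_PV) : St_PVF := by
  classical
  obtain ⟨C, hC, hPV⟩ := h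
  refine ⟨C, hC, ?_⟩
  intro k M u v hk hM hkM χ hχ ψ
  have hkM0 : k * M ≠ 0 := by positivity
  have : NeZero (k * M) := ⟨hkM0⟩
  have : NeZero k := ⟨by omega⟩
  have : NeZero M := ⟨by omega⟩
  set χ' := DirichletCharacter.changeLevel (Nat.dvd_mul_right k M) χ with hχ'
  set ψ' := DirichletCharacter.changeLevel (Nat.dvd_mul_left M k) ψ with hψ'
  set Θ := χ' * ψ' with hΘ
  set r := Θ.conductor with hr
  set θ := Θ.primitiveCharacter with hθ
  have hprim : χ.conductor = k := ((mem_prim χ).1 hχ).1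
  have hkr : k ∣ r := by
    have h1 : χ' = Θ * ψ'⁻¹ := by
      rw [hΘ, mul_assoc, mul_inv_cancel, mul_one]
    have h2 : χ'.conductor ∣ (Θ.conductor).lcm (ψ'⁻¹).conductor := by
      conv_lhs => rw [h1]
      exact DirichletCharacter.conductor_mul_dvd_lcm_conductor _ _
    rw [DirichletCharacter.conductor_changeLevel, hprim, DirichletCharacter.conductor_inv,
      DirichletCharacter.conductor_changeLevel] at h2
    have h3 : k ∣ r * ψ.conductor := h2.trans (Nat.lcm_dvd_mul _ _)
    have h4 : k.Coprime ψ.conductor := Nat.Coprime.coprime_dvd_right ψ.conductor_dvd_level hkM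
    exact h4.dvd_of_dvd_mul_right h3
  have hrkM : r ∣ k * M := Θ.conductor_dvd_level
  have hr1 : 1 ≤ r := Nat.pos_of_dvd_of_pos hrkM (Nat.pos_of_ne_zero hkM0)
  have : NeZero r := ⟨by omega⟩
  have hrne : r ≠ 1 := by
    intro h0
    rw [h0] at hkr
    have := Nat.dvd_one.1 hkr
    omega
  have hθp : θ ∈ prim r := by
    rw [mem_prim]
    refine ⟨Θ.primitiveCharacter_isPrimitive, ?_⟩
    intro h0
    apply hrne
    have h1 : Θ = 1 := by
      rw [← Θ.changeLevel_primitiveCharacter]
      have h' : Θ.primitiveCharacter = 1 := h0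
      rw [h', DirichletCharacter.changeLevel_one]
    rw [hr, h1, DirichletCharacter.conductor_one]
  have hval : ∀ j : ℕ, j.Coprime (k * M) → θ (j : ZMod r) = χ (j : ZMod k) * ψ (j : ZMod M) := by
    intro j hj
    have hc : IsCoprime (j : ℤ) ((k * M : ℕ) : ℤ) := Nat.isCoprime_iff_coprime.mpr hj
    have h1 := Θ.primitiveCharacter_apply_of_isCoprime (a := (j : ℤ)) hc
    have h2 := DirichletCharacter.changeLevel_eq_cast_of_dvd' χ (Nat.dvd_mul_right k M)
      (a := (j : ℤ)) hc
    have h3 := DirichletCharacter.changeLevel_eq_cast_of_dvd' ψ (Nat.dvd_mul_left M k)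
      (a := (j : ℤ)) hc
    rw [hΘ, MulChar.mul_apply, hχ', hψ', h2, h3] at h1
    simpa using h1
  set T : Finset ℕ := (k * M).primeFactors.filter (fun p => ¬ p ∣ r) with hTdef
  have hTp : ∀ p ∈ T, p.Prime := fun p hp =>
    Nat.prime_of_mem_primeFactors (Finset.mem_filter.1 hp).1
  set B : ℝ := C * (Real.sqrt r * (1 + Real.log r)) with hBdef
  have h1 := jb_sum θ B (fun u v => hPV r u v hr1 θ hθp) T hTp u v
  have e1 : ∑ j ∈ Ioc u v, χ (j : ZMod k) * ψ (j : ZMod M) =
      ∑ j ∈ (Ioc u v).filter (fun j => ∀ p ∈ T, ¬ p ∣ j), θ (j : ZMod r) := by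
    rw [Finset.sum_filter]
    refine Finset.sum_congr rfl fun j _ => ?_
    by_cases hj : j.Coprime (k * M)
    · have h2 : ∀ p ∈ T, ¬ p ∣ j := by
        intro p hp hpj
        have h2 : p ∣ k * M := Nat.dvd_of_mem_primeFactors (Finset.mem_filter.1 hp).1
        have h3 := Nat.dvd_gcd hpj h2
        rw [hj] at h3
        exact (hTp p hp).one_lt.ne' (Nat.dvd_one.1 h3)
      rw [if_pos h2, hval j hj]
    · have h0 : χ (j : ZMod k) * ψ (j : ZMod M) = 0 := by
        by_cases hjk : j.Coprime k
        · have hjM : ¬ j.Coprime M := fun hh => hj (Nat.Coprime.mul_right hjk hh)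
          rw [ψ.map_nonunit (fun hh => hjM ((ZMod.isUnit_iff_coprime j M).mp hh)), mul_zero]
        · rw [χ.map_nonunit (fun hh => hjk ((ZMod.isUnit_iff_coprime j k).mp hh)), zero_mul]
      rw [h0]
      by_cases h2 : ∀ p ∈ T, ¬ p ∣ j
      · rw [if_pos h2]
        symm
        apply MulChar.map_nonunit
        rw [ZMod.isUnit_iff_coprime]
        intro hcop
        apply hj
        apply Nat.coprime_of_dvd
        intro p hpp hpj hpm
        by_cases hpr : p ∣ r
        · have h3 := Nat.dvd_gcd hpj hpr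
          rw [hcop] at h3
          exact hpp.one_lt.ne' (Nat.dvd_one.1 h3)
        · exact h2 p (Finset.mem_filter.2 ⟨Nat.mem_primeFactors.2 ⟨hpp, hpm, hkM0⟩, hpr⟩) hpj
      · rw [if_neg h2]
  have hcard : T.card ≤ M.primeFactors.card := by
    refine Finset.card_le_card ?_
    intro p hp
    have hpp := hTp p hp
    have hpr : ¬ p ∣ r := (Finset.mem_filter.1 hp).2
    have hpmf : p ∣ k * M := Nat.dvd_of_mem_primeFactors (Finset.mem_filter.1 hp).1
    rcases (Nat.Prime.dvd_mul hpp).1 hpmf with h2 | h2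
    · exact absurd (h2.trans hkr) hpr
    · exact Nat.mem_primeFactors.2 ⟨hpp, h2, by omega⟩
  have hrle : (r : ℝ) ≤ k * M := by
    have := Nat.le_of_dvd (Nat.pos_of_ne_zero hkM0) hrkM
    exact_mod_cast this
  have hr1' : (1 : ℝ) ≤ r := by exact_mod_cast hr1
  have hlr : 0 ≤ Real.log r := Real.log_nonneg hr1'
  have hB1 : Real.sqrt r * (1 + Real.log r) ≤
      Real.sqrt (k * M) * (1 + Real.log (k * M)) := by
    have a1 : Real.sqrt r ≤ Real.sqrt (k * M) := Real.sqrt_le_sqrt hrle
    have a2 : Real.log r ≤ Real.log (k * M) := Real.log_le_log (by linarith) hrle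
    have a3 := Real.sqrt_nonneg (r : ℝ)
    exact mul_le_mul a1 (by linarith) (by linarith) (Real.sqrt_nonneg _)
  have hB0 : 0 ≤ Real.sqrt r * (1 + Real.log r) := by positivity
  rw [e1]
  refine h1.trans ?_
  rw [hBdef]
  calc (2 : ℝ) ^ T.card * (C * (Real.sqrt r * (1 + Real.log r))) ≤
      2 ^ M.primeFactors.card * (C * (Real.sqrt (k * M) * (1 + Real.log (k * M)))) := by
        gcongr
        norm_num
    _ = _ := by ring

end Pool.Agent.CV
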