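import Mathlib
import Pool.Agent.CV.Stmts
import Pool.Agent.CV.FamL
import Pool.Agent.MT.LargeCond
import Pool.Agent.MT.Wt
import Pool.Agent.Helper88.MD.Div

set_option autoImplicit false

/-!
# CV / PsiF

Prime sums over the family of the characters `χ ψ`: identity of Vaughan with `U = V`; the sums of
the first type by summation by parts from the inequality of Polya and Vinogradov, the bilinear sums
in dyadic blocks by `St_TIIF`.
-/

namespace Pool.Agent.CV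

open Finset Filter Pool.Agent.MT Pool.Agent.CH Pool.Agent.CU

theorem psf_abel_id (f : ℕ → ℂ) (g : ℕ → ℝ) (K : ℕ) (hK : 1 ≤ K) :
    ∑ k ∈ Icc 1 K, f k * ((g k : ℝ) : ℂ) = (∑ k ∈ Icc 1 K, f k) * ((g K : ℝ) : ℂ) -
      ∑ k ∈ Ico 1 K, (∑ j ∈ Icc 1 k, f j) * (((g (k + 1) - g k : ℝ)) : ℂ) := by
  induction K, hK using Nat.le_induction with
  | base => simp
  | succ K hK ih =>
    rw [sum_Icc_succ_top (by omega), sum_Icc_succ_top (by omega), sum_Ico_succ_top hK, ih]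
    push_cast
    ring

theorem psf_abel (f : ℕ → ℂ) (g : ℕ → ℝ) (B : ℝ) (hB : ∀ K, ‖∑ k ∈ Icc 1 K, f k‖ ≤ B)
    (K : ℕ) (hK : 1 ≤ K) :
    ‖∑ k ∈ Icc 1 K, f k * ((g k : ℝ) : ℂ)‖ ≤
      B * (|g K| + ∑ k ∈ Ico 1 K, |g (k + 1) - g k|) := by
  rw [psf_abel_id f g K hK]
  have hB0 : 0 ≤ B := (norm_nonneg _).trans (hB 0)
  calc _ ≤ ‖(∑ k ∈ Icc 1 K, f k) * ((g K : ℝ) : ℂ)‖ +
        ‖∑ k ∈ Ico 1 K, (∑ j ∈ Icc 1 k, f j) * (((g (k + 1) - g k : ℝ)) : ℂ)‖ := norm_sub_le _ _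
    _ ≤ B * |g K| + ∑ k ∈ Ico 1 K, B * |g (k + 1) - g k| := by
        apply add_le_add
        · rw [norm_mul, Complex.norm_real, Real.norm_eq_abs]
          exact mul_le_mul_of_nonneg_right (hB K) (abs_nonneg _)
        · refine (norm_sum_le _ _).trans (sum_le_sum fun k _ => ?_)
          rw [norm_mul, Complex.norm_real, Real.norm_eq_abs]
          exact mul_le_mul_of_nonneg_right (hB k) (abs_nonneg _)
    _ = _ := by rw [mul_add, mul_sum]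

theorem psf_lip (η : ℝ → ℝ) (hη : IsWt η) :
    ∃ L : ℝ, 0 ≤ L ∧ ∀ x y, |η x - η y| ≤ L * |x - y| := by
  have hc : HasCompactSupport η := by
    refine HasCompactSupport.intro (isCompact_Icc (a := (1 / 8 : ℝ)) (b := 7 / 8)) ?_
    intro x hx
    by_contra h
    obtain ⟨h1, h2⟩ := hη.supp x h
    exact hx ⟨h1.le, h2.le⟩
  obtain ⟨L, hL⟩ := hη.smooth.lipschitzWith_of_hasCompactSupport hc (by simp)
  refine ⟨L, L.2, fun x y => ?_⟩
  have := hL.dist_le_mul x y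
  rwa [Real.dist_eq, Real.dist_eq] at this

theorem psf_typeI (η : ℝ → ℝ) (hη : IsWt η) : ∃ C : ℝ, 0 < C ∧ ∀ (N : ℕ), 2 ≤ N → ∀ (χ : ℕ → ℂ) (B : ℝ), 0 ≤ B →
    (∀ J : ℕ, ‖∑ k ∈ Icc 1 J, χ k‖ ≤ B) → ∀ m : ℕ, 1 ≤ m →
    ‖∑ k ∈ Icc 1 (N / m), χ k * ((η (((m * k : ℕ) : ℝ) / N) : ℝ) : ℂ)‖ ≤ C * B ∧
    ‖∑ k ∈ Icc 1 (N / m), ((Real.log k : ℝ) : ℂ) *
      (χ k * ((η (((m * k : ℕ) : ℝ) / N) : ℝ) : ℂ))‖ ≤ C * B * Real.log N := by
  obtain ⟨L, hL0, hL⟩ := psf_lip η hη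
  refine ⟨L + 2, by linarith, fun N hN χ B hq0 hS m hm => ?_⟩
  have hN0 : (0 : ℝ) < N := by positivity
  have hm0 : (0 : ℝ) < m := by exact_mod_cast hm
  have hlogN : 0 ≤ Real.log N := Real.log_natCast_nonneg N
  set K := N / m with hK
  rcases Nat.eq_zero_or_pos K with h0 | hKpos
  · rw [h0]
    simp only [show Icc 1 0 = (∅ : Finset ℕ) from rfl, sum_empty, norm_zero]
    exact ⟨by positivity, by positivity⟩
  have hKm : (K : ℝ) * m ≤ N := by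
    have := Nat.div_mul_le_self N m
    exact_mod_cast this
  have hKN : (K : ℝ) ≤ N := by
    have := Nat.div_le_self N m
    exact_mod_cast this
  set g : ℕ → ℝ := fun k => η (((m * k : ℕ) : ℝ) / N) with hg
  have hg0 : ∀ k, 0 ≤ g k := fun k => hη.nonneg _
  have hg1 : ∀ k, g k ≤ 1 := fun k => hη.le_one _
  have hgd : ∀ k, |g (k + 1) - g k| ≤ L * (m / N) := by
    intro k
    refine (hL _ _).trans (mul_le_mul_of_nonneg_left ?_ hL0)
    have : ((m * (k + 1) : ℕ) : ℝ) / N - ((m * k : ℕ) : ℝ) / N = m / N := by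
      push_cast; ring
    rw [this, abs_of_nonneg (by positivity)]
  have hcard : ∑ _k ∈ Ico 1 K, L * ((m : ℝ) / N) ≤ L := by
    rw [sum_const, Nat.card_Ico, nsmul_eq_mul]
    have h1 : ((K - 1 : ℕ) : ℝ) ≤ K := by exact_mod_cast Nat.sub_le K 1
    have h2 : ((K - 1 : ℕ) : ℝ) * (m / N) ≤ 1 := by
      rw [← mul_div_assoc, div_le_one hN0]
      exact (mul_le_mul_of_nonneg_right h1 hm0.le).trans hKm
    calc ((K - 1 : ℕ) : ℝ) * (L * (m / N)) = L * (((K - 1 : ℕ) : ℝ) * (m / N)) := by ring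
      _ ≤ L * 1 := mul_le_mul_of_nonneg_left h2 hL0
      _ = L := mul_one L
  constructor
  · have h1 := psf_abel (fun k => χ k) g B hS K hKpos
    refine h1.trans ?_
    have h2 : ∑ k ∈ Ico 1 K, |g (k + 1) - g k| ≤ L := (sum_le_sum fun k _ => hgd k).trans hcard
    have h3 : |g K| ≤ 1 := by rw [abs_of_nonneg (hg0 K)]; exact hg1 K
    rw [mul_comm (L + 2) B]
    exact mul_le_mul_of_nonneg_left (by linarith) hq0
  · have h1 := psf_abel (fun k => χ k) (fun k => Real.log k * g k) B hS K hKpos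
    have h0 : ∑ k ∈ Icc 1 K, ((Real.log k : ℝ) : ℂ) *
        (χ k * ((η (((m * k : ℕ) : ℝ) / N) : ℝ) : ℂ)) =
        ∑ k ∈ Icc 1 K, χ k * (((Real.log k * g k : ℝ)) : ℂ) := by
      refine sum_congr rfl fun k _ => ?_
      rw [hg]; push_cast; ring
    rw [h0]
    refine h1.trans ?_
    have hlogK : Real.log K ≤ Real.log N :=
      Real.log_le_log (by exact_mod_cast hKpos) hKN
    have hlogK0 : 0 ≤ Real.log K := Real.log_natCast_nonneg K
    have h3 : |Real.log K * g K| ≤ Real.log N := by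
      rw [abs_of_nonneg (mul_nonneg hlogK0 (hg0 K))]
      calc Real.log K * g K ≤ Real.log K * 1 := mul_le_mul_of_nonneg_left (hg1 K) hlogK0
        _ ≤ Real.log N := by linarith
    have htel : ∑ k ∈ Ico 1 K, (Real.log ((k + 1 : ℕ) : ℝ) - Real.log (k : ℝ)) = Real.log K := by
      rw [sum_Ico_sub (fun k : ℕ => Real.log (k : ℝ)) hKpos]
      simp
    have h4 : ∑ k ∈ Ico 1 K, |Real.log ((k + 1 : ℕ) : ℝ) * g (k + 1) - Real.log k * g k| ≤
        Real.log N + L * Real.log N := by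
      have h5 : ∀ k ∈ Ico 1 K, |Real.log ((k + 1 : ℕ) : ℝ) * g (k + 1) - Real.log k * g k| ≤
          (Real.log ((k + 1 : ℕ) : ℝ) - Real.log (k : ℝ)) + Real.log N * (L * (m / N)) := by
        intro k hk
        rw [mem_Ico] at hk
        have hk0 : (0 : ℝ) < k := by exact_mod_cast hk.1
        have hk1 : (k : ℝ) ≤ ((k + 1 : ℕ) : ℝ) := by push_cast; linarith
        have hl : Real.log (k : ℝ) ≤ Real.log ((k + 1 : ℕ) : ℝ) := Real.log_le_log hk0 hk1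
        have hkK : (k : ℝ) ≤ N := by
          have : (k : ℝ) ≤ K := by exact_mod_cast hk.2.le
          exact this.trans hKN
        have hlk : Real.log (k : ℝ) ≤ Real.log N := Real.log_le_log hk0 hkK
        have hlk0 : 0 ≤ Real.log (k : ℝ) := Real.log_natCast_nonneg k
        have e : Real.log ((k + 1 : ℕ) : ℝ) * g (k + 1) - Real.log k * g k =
            (Real.log ((k + 1 : ℕ) : ℝ) - Real.log k) * g (k + 1) +
              Real.log k * (g (k + 1) - g k) := by ring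
        rw [e]
        refine (abs_add_le _ _).trans (add_le_add ?_ ?_)
        · rw [abs_of_nonneg (mul_nonneg (by linarith) (hg0 _))]
          calc _ ≤ (Real.log ((k + 1 : ℕ) : ℝ) - Real.log k) * 1 :=
                mul_le_mul_of_nonneg_left (hg1 _) (by linarith)
            _ = _ := mul_one _
        · rw [abs_mul, abs_of_nonneg hlk0]
          exact mul_le_mul hlk (hgd k) (abs_nonneg _) hlogN
      refine (sum_le_sum h5).trans ?_
      rw [sum_add_distrib, htel, ← mul_sum]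
      have h6 := mul_le_mul_of_nonneg_left hcard hlogN
      linarith
    have h7 : (L + 2) * B * Real.log N = B * (Real.log N + (Real.log N + L * Real.log N)) := by
      ring
    rw [h7]
    apply mul_le_mul_of_nonneg_left _ hq0
    exact add_le_add h3 h4



/-- the twisted weight -/
noncomputable def psf_F (η : ℝ → ℝ) (N : ℕ) (f : ℕ → ℂ) (n : ℕ) : ℂ :=
  f n * ((η ((n : ℝ) / N) : ℝ) : ℂ)

theorem psf_F_norm {η : ℝ → ℝ} (hη : IsWt η) (N : ℕ) {f : ℕ → ℂ} (hf : ∀ n, ‖f n‖ ≤ 1) (n : ℕ) :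
    ‖psf_F η N f n‖ ≤ 1 := by
  unfold psf_F
  rw [norm_mul]
  exact mul_le_one₀ (hf n) (norm_nonneg _) (lc_eta hη _)

/-- a dyadic block -/
noncomputable def psf_B (η : ℝ → ℝ) (N U M : ℕ) (f : ℕ → ℂ) : ℂ :=
  ∑ l ∈ Ioc M (2 * M), ∑ k ∈ Icc 1 (N / l), ((ArithmeticFunction.vonMangoldt l : ℝ) : ℂ) *
    (cU U k : ℂ) * (f (l * k) * ((η (((l * k : ℕ) : ℝ) / N) : ℝ) : ℂ))

theorem psf_single {η : ℝ → ℝ} (hη : IsWt η) {C B : ℝ} (_hC : 0 < C) (_hB : 0 ≤ B)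
    {N U J : ℕ} (hU : 1 ≤ U) (hUN : U ≤ N) (hJ : N ≤ U * 2 ^ J)
    (f : ℕ → ℂ) (hf : ∀ n, ‖f n‖ ≤ 1) (hm : ∀ a b, f (a * b) = f a * f b)
    (hI : ∀ m : ℕ, 1 ≤ m →
      ‖∑ k ∈ Icc 1 (N / m), f k * ((η (((m * k : ℕ) : ℝ) / N) : ℝ) : ℂ)‖ ≤ C * B ∧
      ‖∑ k ∈ Icc 1 (N / m), ((Real.log k : ℝ) : ℂ) *
        (f k * ((η (((m * k : ℕ) : ℝ) / N) : ℝ) : ℂ))‖ ≤ C * B * Real.log N) :
    ‖∑ n ∈ Icc 1 N, ((ArithmeticFunction.vonMangoldt n : ℝ) : ℂ) * psf_F η N f n‖ ≤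
      U * Real.log N + U * (C * B * Real.log N) + U * (U * (Real.log N * (C * B))) +
      ∑ i ∈ range J, ‖psf_B η N U (U * 2 ^ i) f‖ := by
  have hL : 0 ≤ Real.log N := Real.log_natCast_nonneg N
  rw [vaughan U U N]
  have t0 : ‖∑ n ∈ (Icc 1 N).filter (fun n => n ≤ U),
      ((ArithmeticFunction.vonMangoldt n : ℝ) : ℂ) * psf_F η N f n‖ ≤ U * Real.log N := by
    refine (norm_sum_le _ _).trans ?_
    have h1 : ∀ n ∈ (Icc 1 N).filter (fun n => n ≤ U),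
        ‖((ArithmeticFunction.vonMangoldt n : ℝ) : ℂ) * psf_F η N f n‖ ≤ Real.log N := by
      intro n hn
      rw [mem_filter, mem_Icc] at hn
      rw [norm_mul]
      calc _ ≤ Real.log N * 1 := mul_le_mul (lc_Lam hn.1.1 hn.1.2) (psf_F_norm hη N hf n)
            (norm_nonneg _) hL
        _ = Real.log N := mul_one _
    refine (sum_le_card_nsmul _ _ _ h1).trans ?_
    rw [nsmul_eq_mul]
    refine mul_le_mul_of_nonneg_right ?_ hL
    have h2 : ((Icc 1 N).filter (fun n => n ≤ U)).card ≤ (Icc 1 U).card := by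
      refine card_le_card fun n hn => ?_
      rw [mem_filter, mem_Icc] at hn
      rw [mem_Icc]
      omega
    rw [Nat.card_Icc] at h2
    exact_mod_cast h2.trans (by omega)
  have t1 : ‖∑ m ∈ Icc 1 U, (ArithmeticFunction.moebius m : ℂ) *
      ∑ k ∈ Icc 1 (N / m), ((Real.log k : ℝ) : ℂ) * psf_F η N f (m * k)‖ ≤
      U * (C * B * Real.log N) := by
    refine (norm_sum_le _ _).trans ?_
    have h1 : ∀ m ∈ Icc 1 U, ‖(ArithmeticFunction.moebius m : ℂ) *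
        ∑ k ∈ Icc 1 (N / m), ((Real.log k : ℝ) : ℂ) * psf_F η N f (m * k)‖ ≤
          C * B * Real.log N := by
      intro m hm'
      rw [mem_Icc] at hm'
      have e1 : ∑ k ∈ Icc 1 (N / m), ((Real.log k : ℝ) : ℂ) * psf_F η N f (m * k) =
          f m * ∑ k ∈ Icc 1 (N / m), ((Real.log k : ℝ) : ℂ) *
            (f k * ((η (((m * k : ℕ) : ℝ) / N) : ℝ) : ℂ)) := by
        rw [mul_sum]
        refine sum_congr rfl fun k _ => ?_
        unfold psf_F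
        rw [hm]
        ring
      rw [e1, norm_mul, norm_mul]
      have h2 := (hI m hm'.1).2
      calc _ ≤ 1 * (1 * (C * B * Real.log N)) := by
            refine mul_le_mul (lc_mu m) ?_ (by positivity) (by norm_num)
            exact mul_le_mul (hf _) h2 (norm_nonneg _) (by norm_num)
        _ = C * B * Real.log N := by ring
    refine (sum_le_card_nsmul _ _ _ h1).trans ?_
    rw [nsmul_eq_mul, Nat.card_Icc, Nat.add_sub_cancel]
  have t2 : ‖∑ m ∈ Icc 1 U, ∑ l ∈ Icc 1 U, (ArithmeticFunction.moebius m : ℂ) *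
      ((ArithmeticFunction.vonMangoldt l : ℝ) : ℂ) *
      ∑ k ∈ Icc 1 (N / (m * l)), psf_F η N f (m * l * k)‖ ≤ U * (U * (Real.log N * (C * B))) := by
    refine (norm_sum_le _ _).trans ?_
    have h1 : ∀ m ∈ Icc 1 U, ‖∑ l ∈ Icc 1 U, (ArithmeticFunction.moebius m : ℂ) *
        ((ArithmeticFunction.vonMangoldt l : ℝ) : ℂ) *
        ∑ k ∈ Icc 1 (N / (m * l)), psf_F η N f (m * l * k)‖ ≤ U * (Real.log N * (C * B)) := by
      intro m hm'
      rw [mem_Icc] at hm'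
      refine (norm_sum_le _ _).trans ?_
      have h2 : ∀ l ∈ Icc 1 U, ‖(ArithmeticFunction.moebius m : ℂ) *
          ((ArithmeticFunction.vonMangoldt l : ℝ) : ℂ) *
          ∑ k ∈ Icc 1 (N / (m * l)), psf_F η N f (m * l * k)‖ ≤ Real.log N * (C * B) := by
        intro l hl
        rw [mem_Icc] at hl
        have e1 : ∑ k ∈ Icc 1 (N / (m * l)), psf_F η N f (m * l * k) =
            f (m * l) * ∑ k ∈ Icc 1 (N / (m * l)),
              (f k * ((η (((m * l * k : ℕ) : ℝ) / N) : ℝ) : ℂ)) := by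
          rw [mul_sum]
          refine sum_congr rfl fun k _ => ?_
          unfold psf_F
          rw [hm (m * l) k]
          ring
        have h3 := (hI (m * l) (Nat.mul_pos hm'.1 hl.1)).1
        rw [e1, norm_mul, norm_mul, norm_mul]
        calc _ ≤ 1 * Real.log N * (1 * (C * B)) := by
              refine mul_le_mul ?_ ?_ (by positivity) (by positivity)
              · exact mul_le_mul (lc_mu m) (lc_Lam hl.1 (hl.2.trans hUN)) (norm_nonneg _)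
                  (by norm_num)
              · exact mul_le_mul (hf _) h3 (norm_nonneg _) (by norm_num)
          _ = Real.log N * (C * B) := by ring
      refine (sum_le_card_nsmul _ _ _ h2).trans ?_
      rw [nsmul_eq_mul, Nat.card_Icc, Nat.add_sub_cancel]
    refine (sum_le_card_nsmul _ _ _ h1).trans ?_
    rw [nsmul_eq_mul, Nat.card_Icc, Nat.add_sub_cancel]
  have t3 : ‖∑ l ∈ Ioc U N, ∑ k ∈ Icc 1 (N / l), ((ArithmeticFunction.vonMangoldt l : ℝ) : ℂ) *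
      (cU U k : ℂ) * psf_F η N f (l * k)‖ ≤ ∑ i ∈ range J, ‖psf_B η N U (U * 2 ^ i) f‖ := by
    have hsub : Ioc U N ⊆ Ioc U (U * 2 ^ J) := Ioc_subset_Ioc_right hJ
    rw [sum_subset hsub, lc_dyadic]
    · exact norm_sum_le _ _
    · intro l hl hl'
      rw [mem_Ioc] at hl hl'
      have h0 : N / l = 0 := Nat.div_eq_of_lt (by omega)
      rw [h0]
      simp
  calc _ ≤ ‖∑ n ∈ (Icc 1 N).filter (fun n => n ≤ U),
      ((ArithmeticFunction.vonMangoldt n : ℝ) : ℂ) * psf_F η N f n‖ +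
      ‖∑ m ∈ Icc 1 U, (ArithmeticFunction.moebius m : ℂ) *
        ∑ k ∈ Icc 1 (N / m), ((Real.log k : ℝ) : ℂ) * psf_F η N f (m * k)‖ +
      ‖∑ m ∈ Icc 1 U, ∑ l ∈ Icc 1 U, (ArithmeticFunction.moebius m : ℂ) *
        ((ArithmeticFunction.vonMangoldt l : ℝ) : ℂ) *
        ∑ k ∈ Icc 1 (N / (m * l)), psf_F η N f (m * l * k)‖ +
      ‖∑ l ∈ Ioc U N, ∑ k ∈ Icc 1 (N / l), ((ArithmeticFunction.vonMangoldt l : ℝ) : ℂ) *
        (cU U k : ℂ) * psf_F η N f (l * k)‖ := by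
        refine (norm_add_le _ _).trans (add_le_add_left ?_ _)
        refine (norm_sub_le _ _).trans (add_le_add_left ?_ _)
        exact norm_add_le _ _
    _ ≤ _ := by
        refine add_le_add (add_le_add (add_le_add t0 t1) t2) t3

/-- the product of the two characters -/
noncomputable def psf_f {k M : ℕ} (χ : DirichletCharacter ℂ k) (ψ : DirichletCharacter ℂ M)
    (n : ℕ) : ℂ := χ (n : ZMod k) * ψ (n : ZMod M)

theorem psf_f_norm {k M : ℕ} (χ : DirichletCharacter ℂ k) (ψ : DirichletCharacter ℂ M) (n : ℕ) :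
    ‖psf_f χ ψ n‖ ≤ 1 := by
  unfold psf_f
  rw [norm_mul]
  exact mul_le_one₀ (χ.norm_le_one _) (norm_nonneg _) (ψ.norm_le_one _)

theorem psf_f_mul {k M : ℕ} (χ : DirichletCharacter ℂ k) (ψ : DirichletCharacter ℂ M) (a b : ℕ) :
    psf_f χ ψ (a * b) = psf_f χ ψ a * psf_f χ ψ b := by
  unfold psf_f
  rw [Nat.cast_mul, Nat.cast_mul, map_mul, map_mul]
  ring

theorem psf_PZ (η : ℝ → ℝ) (X : ℕ) {k M : ℕ} (χ : DirichletCharacter ℂ k)
    (ψ : DirichletCharacter ℂ M) :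
    PZ η X χ ψ = ∑ n ∈ Icc 1 X, ((ArithmeticFunction.vonMangoldt n : ℝ) : ℂ) *
      psf_F η X (psf_f χ ψ) n := by
  unfold PZ
  have hsub : Icc 1 X ⊆ range (X + 1) := fun n hn => by
    rw [mem_Icc] at hn
    exact mem_range.2 (by omega)
  rw [← sum_subset hsub]
  · refine sum_congr rfl fun n _ => ?_
    unfold psf_F psf_f lam
    push_cast
    ring
  · intro n hn hn'
    have h0 : n = 0 := by
      rw [mem_range] at hn
      rw [mem_Icc] at hn'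
      omega
    subst h0
    unfold lam
    simp

theorem psf_omega (m : ℕ) (hm : 1 ≤ m) : (2 : ℝ) ^ m.primeFactors.card ≤ m.divisors.card := by
  have h : 2 ^ m.primeFactors.card ≤ m.divisors.card := by
    rw [Nat.card_divisors (by omega), ← Finset.prod_const]
    refine Finset.prod_le_prod' fun p hp => ?_
    have h1 : 0 < m.factorization p :=
      (Nat.prime_of_mem_primeFactors hp).factorization_pos_of_dvd (by omega)
        (Nat.dvd_of_mem_primeFactors hp)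
    omega
  exact_mod_cast h

/-- the coefficients of a block, normalised -/
noncomputable def psf_a (X : ℕ) (l : ℕ) : ℂ :=
  if l ≤ X then ((ArithmeticFunction.vonMangoldt l / Real.log X : ℝ) : ℂ) else 0

noncomputable def psf_b (X U : ℕ) (D : ℝ) (j : ℕ) : ℂ :=
  if 1 ≤ j ∧ j ≤ X then (((cU U j : ℝ) / D : ℝ) : ℂ) else 0

theorem psf_a_norm {X : ℕ} (hX : 3 ≤ X) (l : ℕ) : ‖psf_a X l‖ ≤ 1 := by
  unfold psf_a
  have hL : 0 < Real.log X := Real.log_pos (by exact_mod_cast (by omega : 1 < X))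
  split_ifs with h
  · rcases Nat.eq_zero_or_pos l with h0 | h0
    · subst h0
      simp
    · rw [Complex.norm_real, Real.norm_eq_abs, abs_of_nonneg
        (div_nonneg ArithmeticFunction.vonMangoldt_nonneg hL.le), div_le_one hL]
      refine ArithmeticFunction.vonMangoldt_le_log.trans ?_
      exact Real.log_le_log (by exact_mod_cast h0) (by exact_mod_cast h)
  · simp

theorem psf_b_norm {X U : ℕ} {D : ℝ} (hD : 0 < D)
    (hd : ∀ j : ℕ, 1 ≤ j → j ≤ X → (j.divisors.card : ℝ) ≤ D) (j : ℕ) : ‖psf_b X U D j‖ ≤ 1 := by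
  unfold psf_b
  split_ifs with h
  · rw [Complex.norm_real, Real.norm_eq_abs, abs_div, abs_of_pos hD, div_le_one hD]
    have h1 : |(cU U j : ℝ)| ≤ j.divisors.card := by
      have := cU_abs_le U j
      exact_mod_cast this
    exact h1.trans (hd j h.1 h.2)
  · simp

theorem psf_B_eq {η : ℝ → ℝ} {X U V : ℕ} (hX : 3 ≤ X) {D : ℝ} (hD : 0 < D) (f : ℕ → ℂ) :
    psf_B η X U V f = ((Real.log X * D : ℝ) : ℂ) * ∑ l ∈ Ioc V (2 * V), ∑ j ∈ Icc 1 (X / l),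
      psf_a X l * psf_b X U D j * (f (l * j) * ((η (((l * j : ℕ) : ℝ) / X) : ℝ) : ℂ)) := by
  unfold psf_B
  have hL : 0 < Real.log X := Real.log_pos (by exact_mod_cast (by omega : 1 < X))
  rw [mul_sum]
  refine sum_congr rfl fun l hl => ?_
  rw [mul_sum]
  refine sum_congr rfl fun j hj => ?_
  rw [mem_Ioc] at hl
  rw [mem_Icc] at hj
  have hlX : l ≤ X := by
    by_contra h
    have : X / l = 0 := Nat.div_eq_of_lt (by omega)
    omega
  have hjX : j ≤ X := hj.2.trans (Nat.div_le_self _ _)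
  unfold psf_a psf_b
  rw [if_pos hlX, if_pos ⟨hj.1, hjX⟩]
  have hLc : ((Real.log X : ℝ) : ℂ) ≠ 0 := by exact_mod_cast hL.ne'
  have hDc : ((D : ℝ) : ℂ) ≠ 0 := by exact_mod_cast hD.ne'
  generalize Real.log X = L at *
  push_cast
  field_simp

theorem psf_B_zero {η : ℝ → ℝ} {X U V : ℕ} (hV : 1 ≤ V) (h : X / V ≤ U) (f : ℕ → ℂ) :
    psf_B η X U V f = 0 := by
  unfold psf_B
  refine sum_eq_zero fun l hl => sum_eq_zero fun k hk => ?_
  rw [mem_Ioc] at hl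
  rw [mem_Icc] at hk
  have h1 : X / l ≤ X / V := Nat.div_le_div_left hl.1.le (by omega)
  rw [cU_eq_zero U k (by omega)]
  simp

theorem psf_log {X : ℕ} (hX : 3 ≤ X) {δ : ℝ} (hδ : 0 < δ) :
    1 ≤ Real.log X ∧ Real.log X ≤ (X : ℝ) ^ δ / δ ∧ 1 ≤ (X : ℝ) ^ δ := by
  refine ⟨?_, Real.log_le_rpow_div (Nat.cast_nonneg X) hδ, ?_⟩
  · rw [Real.le_log_iff_exp_le (by exact_mod_cast (by omega : 0 < X))]
    have h1 := Real.exp_one_lt_d9
    have h2 : (3 : ℝ) ≤ X := by exact_mod_cast hX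
    linarith
  · exact Real.one_le_rpow (by exact_mod_cast (by omega : 1 ≤ X)) hδ.le

/-- bound for the sum of the product over an interval -/
theorem psf_PV {CP CD Y L : ℝ} (hCP : 0 < CP) (hCD : 0 < CD) (hY : 1 ≤ Y) {X K M k : ℕ}
    (hX : 3 ≤ X) (hK : 1 ≤ K) (hM : 1 ≤ M) (hKM : K * M ≤ X) (hk : K < k) (hk2 : k ≤ 2 * K)
    (hL : L = Real.log X) (hL1 : 1 ≤ L)
    (hw : (2 : ℝ) ^ M.primeFactors.card ≤ CD * Y) :
    CP * 2 ^ M.primeFactors.card * (Real.sqrt (k * M) * (1 + Real.log (k * M))) ≤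
      6 * CP * CD * Y * Real.sqrt (K * M) * L := by
  have hK0 : (0 : ℝ) < K := by exact_mod_cast hK
  have hM0 : (0 : ℝ) < M := by exact_mod_cast hM
  have hX0 : (0 : ℝ) < X := by exact_mod_cast (by omega : 0 < X)
  have hk0 : (0 : ℝ) < k := by exact_mod_cast (by omega : 0 < k)
  have hk2' : (k : ℝ) ≤ 2 * K := by exact_mod_cast hk2
  have hKM' : (K : ℝ) * M ≤ X := by exact_mod_cast hKM
  have hkM : (k : ℝ) * M ≤ 2 * (K * M) := by
    calc (k : ℝ) * M ≤ 2 * K * M := mul_le_mul_of_nonneg_right hk2' hM0.le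
      _ = _ := by ring
  have hs : Real.sqrt (k * M) ≤ 2 * Real.sqrt (K * M) := by
    have h1 : Real.sqrt (k * M) ≤ Real.sqrt (4 * (K * M)) := by
      refine Real.sqrt_le_sqrt ?_
      have : 0 < (K : ℝ) * M := mul_pos hK0 hM0
      linarith
    refine h1.trans_eq ?_
    rw [Real.sqrt_mul (by norm_num)]
    congr 1
    rw [show (4 : ℝ) = 2 ^ 2 by norm_num, Real.sqrt_sq (by norm_num)]
  have hl : 1 + Real.log (k * M) ≤ 3 * L := by
    have h1 : Real.log (k * M) ≤ Real.log (2 * X) :=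
      Real.log_le_log (mul_pos hk0 hM0) (hkM.trans (by linarith))
    rw [Real.log_mul (by norm_num) hX0.ne'] at h1
    have h2 : Real.log 2 < 0.6931471808 := Real.log_two_lt_d9
    rw [hL] at hL1 ⊢
    linarith
  have hl0 : 0 ≤ 1 + Real.log (k * M) := by
    have h1 : (1 : ℝ) ≤ k * M := by
      have : 1 ≤ k * M := Nat.mul_pos (by omega) hM
      exact_mod_cast this
    have := Real.log_nonneg h1
    linarith
  have hS0 : 0 ≤ Real.sqrt (K * M) := Real.sqrt_nonneg _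
  calc _ ≤ CP * (CD * Y) * ((2 * Real.sqrt (K * M)) * (3 * L)) := by
        refine mul_le_mul (mul_le_mul_of_nonneg_left hw hCP.le) ?_
          (mul_nonneg (Real.sqrt_nonneg _) hl0) (by positivity)
        exact mul_le_mul hs hl hl0 (by positivity)
    _ = _ := by ring

/-- the terms of the first type -/
theorem psf_R1 {C1 CP CD Y L S B δ : ℝ} (hC1 : 0 < C1) (hCP : 0 < CP) (hCD : 0 < CD) (hY : 1 ≤ Y)
    (hδ : 0 < δ) (hL1 : 1 ≤ L) (hLY : L ≤ Y / δ) (hS : 1 ≤ S) {U : ℕ} (hU : 1 ≤ U)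
    (hB0 : 0 ≤ B) (hB : B ≤ 6 * CP * CD * Y * S * L) :
    U * L + U * (C1 * B * L) + U * (U * (L * (C1 * B))) ≤
      (1 + 12 * C1 * CP * CD) / δ ^ 2 * Y ^ 4 * ((U : ℝ) ^ 2 * S) := by
  have hU1 : (1 : ℝ) ≤ U := by exact_mod_cast hU
  have hU2 : (U : ℝ) ≤ (U : ℝ) ^ 2 := by nlinarith
  have hL0 : 0 ≤ L := by linarith
  have hY0 : 0 ≤ Y := by linarith
  have hS0 : 0 ≤ S := by linarith
  have hLL : L ≤ L ^ 2 := by nlinarith
  have hL2 : L ^ 2 ≤ Y ^ 2 / δ ^ 2 := by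
    rw [← div_pow]
    exact pow_le_pow_left₀ hL0 hLY 2
  have e1 : (U : ℝ) * L ≤ (U : ℝ) ^ 2 * S * (Y * L ^ 2) := by
    have h1 : (U : ℝ) * 1 ≤ (U : ℝ) ^ 2 * S := mul_le_mul hU2 hS zero_le_one (by positivity)
    have h2 : 1 * L ≤ Y * L ^ 2 := mul_le_mul hY hLL hL0 hY0
    calc (U : ℝ) * L = (U * 1) * (1 * L) := by ring
      _ ≤ _ := mul_le_mul h1 h2 (by linarith) (by positivity)
  have e2 : (U : ℝ) * (C1 * B * L) ≤ (U : ℝ) ^ 2 * S * (6 * C1 * CP * CD * (Y * L ^ 2)) := by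
    calc (U : ℝ) * (C1 * B * L) ≤ (U : ℝ) ^ 2 * (C1 * (6 * CP * CD * Y * S * L) * L) := by
          refine mul_le_mul hU2 ?_ (by positivity) (by positivity)
          exact mul_le_mul_of_nonneg_right (mul_le_mul_of_nonneg_left hB hC1.le) hL0
      _ = _ := by ring
  have e3 : (U : ℝ) * (U * (L * (C1 * B))) ≤
      (U : ℝ) ^ 2 * S * (6 * C1 * CP * CD * (Y * L ^ 2)) := by
    calc (U : ℝ) * (U * (L * (C1 * B))) = (U : ℝ) ^ 2 * (L * (C1 * B)) := by ring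
      _ ≤ (U : ℝ) ^ 2 * (L * (C1 * (6 * CP * CD * Y * S * L))) := by
          refine mul_le_mul_of_nonneg_left ?_ (by positivity)
          exact mul_le_mul_of_nonneg_left (mul_le_mul_of_nonneg_left hB hC1.le) hL0
      _ = _ := by ring
  have e4 : Y * L ^ 2 ≤ Y ^ 4 / δ ^ 2 := by
    calc Y * L ^ 2 ≤ Y * (Y ^ 2 / δ ^ 2) := mul_le_mul_of_nonneg_left hL2 hY0
      _ = Y ^ 3 / δ ^ 2 := by ring
      _ ≤ Y ^ 4 / δ ^ 2 := by
          refine div_le_div_of_nonneg_right ?_ (by positivity)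
          exact pow_le_pow_right₀ hY (by norm_num)
  calc _ ≤ (U : ℝ) ^ 2 * S * ((1 + 12 * C1 * CP * CD) * (Y * L ^ 2)) := by
        refine (add_le_add (add_le_add e1 e2) e3).trans_eq ?_
        ring
    _ ≤ (U : ℝ) ^ 2 * S * ((1 + 12 * C1 * CP * CD) * (Y ^ 4 / δ ^ 2)) := by
        refine mul_le_mul_of_nonneg_left ?_ (by positivity)
        exact mul_le_mul_of_nonneg_left e4 (by positivity)
    _ = _ := by ring

/-- `∑ J` -/
theorem psf_J {K M : ℕ} (hM : 1 ≤ M)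
    {J : (k : ℕ) → DirichletCharacter ℂ k → DirichletCharacter ℂ M → ℝ}
    (hJ : ∀ k χ ψ, 0 ≤ J k χ ψ) :
    Fam K M J ≤ 2 * (M * (K : ℝ) ^ 2) ^ (3 / 4 : ℝ) *
      (Fam K M (fun k χ ψ => J k χ ψ ^ 4)) ^ (1 / 4 : ℝ) := by
  refine (fam_one_holder hM hJ).trans ?_
  refine mul_le_mul_of_nonneg_right ?_
    (Real.rpow_nonneg (fam_nonneg fun k χ ψ => by positivity) _)
  have h0 : (0 : ℝ) ≤ (K : ℝ) ^ 2 * M := by positivity
  rw [Real.mul_rpow (by norm_num) h0, mul_comm ((K : ℝ) ^ 2) (M : ℝ)]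
  refine mul_le_mul_of_nonneg_right ?_ (Real.rpow_nonneg (by positivity) _)
  calc (2 : ℝ) ^ (3 / 4 : ℝ) ≤ 2 ^ (1 : ℝ) :=
        Real.rpow_le_rpow_of_exponent_le (by norm_num) (by norm_num)
    _ = 2 := Real.rpow_one 2

/-- one block -/
theorem psf_block {η : ℝ → ℝ} {CT Y D : ℝ} (hCT : 0 < CT) (hY : 1 ≤ Y) (hD : 0 < D)
    {X K M U V : ℕ} (hX : 3 ≤ X) (hU : 1 ≤ U) (hUV : U ≤ V)
    (hd : ∀ j : ℕ, 1 ≤ j → j ≤ X → (j.divisors.card : ℝ) ≤ D)
    (J : (k : ℕ) → DirichletCharacter ℂ k → DirichletCharacter ℂ M → ℝ)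
    {E W : ℝ} (hE : 0 ≤ E) (hW : 0 ≤ W)
    (hII : U * V ≤ X → ∀ a b : ℕ → ℂ, (∀ l, ‖a l‖ ≤ 1) → (∀ j, ‖b j‖ ≤ 1) →
      Fam K M (fun k χ ψ => ‖∑ l ∈ Ioc V (2 * V), ∑ j ∈ Icc 1 (X / l), a l * b j *
        ((χ ((l * j : ℕ) : ZMod k) * ψ ((l * j : ℕ) : ZMod M)) *
          ((η (((l * j : ℕ) : ℝ) / X) : ℝ) : ℂ))‖ * J k χ ψ) ≤ CT * Y * W * E) :
    Fam K M (fun _ χ ψ => ‖psf_B η X U V (psf_f χ ψ)‖ * J _ χ ψ) ≤
      Real.log X * D * (CT * Y * W * E) := by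
  have hL : 0 < Real.log X := Real.log_pos (by exact_mod_cast (by omega : 1 < X))
  have hY0 : 0 < Y := by linarith
  rcases Nat.lt_or_ge U (X / V) with hlt | hge
  · have hUX : U * V ≤ X := by
      calc U * V ≤ X / V * V := Nat.mul_le_mul_right V hlt.le
        _ ≤ X := Nat.div_mul_le_self X V
    have h1 := hII hUX (psf_a X) (psf_b X U D) (psf_a_norm hX) (psf_b_norm hD hd)
    have h2 : Fam K M (fun _ χ ψ => ‖psf_B η X U V (psf_f χ ψ)‖ * J _ χ ψ) =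
        Real.log X * D * Fam K M (fun k χ ψ => ‖∑ l ∈ Ioc V (2 * V), ∑ j ∈ Icc 1 (X / l),
          psf_a X l * psf_b X U D j *
          ((χ ((l * j : ℕ) : ZMod k) * ψ ((l * j : ℕ) : ZMod M)) *
            ((η (((l * j : ℕ) : ℝ) / X) : ℝ) : ℂ))‖ * J k χ ψ) := by
      rw [← fam_mul_left]
      congr 1
      funext k χ ψ
      rw [psf_B_eq hX hD, norm_mul, Complex.norm_real, Real.norm_eq_abs,
        abs_of_pos (mul_pos hL hD), mul_assoc]
      rfl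
    rw [h2]
    exact mul_le_mul_of_nonneg_left h1 (mul_pos hL hD).le
  · have h2 : Fam K M (fun _ χ ψ => ‖psf_B η X U V (psf_f χ ψ)‖ * J _ χ ψ) =
        Fam K M (fun _ _ _ => (0 : ℝ)) := by
      congr 1
      funext k χ ψ
      rw [psf_B_zero (hU.trans hUV) hge, norm_zero, zero_mul]
    rw [h2]
    have h3 : Fam K M (fun _ _ _ => (0 : ℝ)) = 0 := by
      unfold Fam
      simp
    rw [h3]
    positivity

theorem psf_char {η : ℝ → ℝ} (hη : IsWt η) {C1 CP CD Y δ : ℝ} (hC1 : 0 < C1) (hCP : 0 < CP)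
    (hCD : 0 < CD) (hδ : 0 < δ)
    (hI : ∀ (N : ℕ), 2 ≤ N → ∀ (χ : ℕ → ℂ) (B : ℝ), 0 ≤ B →
      (∀ J : ℕ, ‖∑ k ∈ Icc 1 J, χ k‖ ≤ B) → ∀ m : ℕ, 1 ≤ m →
      ‖∑ k ∈ Icc 1 (N / m), χ k * ((η (((m * k : ℕ) : ℝ) / N) : ℝ) : ℂ)‖ ≤ C1 * B ∧
      ‖∑ k ∈ Icc 1 (N / m), ((Real.log k : ℝ) : ℂ) *
        (χ k * ((η (((m * k : ℕ) : ℝ) / N) : ℝ) : ℂ))‖ ≤ C1 * B * Real.log N)
    {X K M U nb k : ℕ} (hX : 3 ≤ X) (hK : 1 ≤ K) (hM : 1 ≤ M) (hKM : K * M ≤ X) (hU : 1 ≤ U)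
    (hUX : U ≤ X) (hnb : X ≤ U * 2 ^ nb) (hY : Y = (X : ℝ) ^ δ)
    (hk : K < k) (hk2 : k ≤ 2 * K) (χ : DirichletCharacter ℂ k) (ψ : DirichletCharacter ℂ M)
    (hPV : ∀ u v : ℕ, ‖∑ j ∈ Ioc u v, χ (j : ZMod k) * ψ (j : ZMod M)‖ ≤
      CP * 2 ^ M.primeFactors.card * (Real.sqrt (k * M) * (1 + Real.log (k * M))))
    (hw : (2 : ℝ) ^ M.primeFactors.card ≤ CD * Y) :
    ‖PZ η X χ ψ‖ ≤ (1 + 12 * C1 * CP * CD) / δ ^ 2 * Y ^ 4 *
      ((U : ℝ) ^ 2 * Real.sqrt (K * M)) +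
      ∑ i ∈ range nb, ‖psf_B η X U (U * 2 ^ i) (psf_f χ ψ)‖ := by
  obtain ⟨hL1, hLY, hY1⟩ := psf_log hX hδ
  rw [← hY] at hLY hY1
  set B := CP * 2 ^ M.primeFactors.card * (Real.sqrt (k * M) * (1 + Real.log (k * M))) with hB
  have hB0 : 0 ≤ B := (norm_nonneg _).trans (hPV 0 0)
  have hB1 : B ≤ 6 * CP * CD * Y * Real.sqrt (K * M) * Real.log X :=
    psf_PV hCP hCD hY1 hX hK hM hKM hk hk2 rfl hL1 hw
  have hS : 1 ≤ Real.sqrt (K * M) := by
    rw [Real.one_le_sqrt]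
    have : 1 ≤ K * M := Nat.mul_pos hK hM
    exact_mod_cast this
  have h1 := psf_R1 hC1 hCP hCD hY1 hδ hL1 hLY hS hU hB0 hB1
  rw [psf_PZ]
  have h2 : ∀ J : ℕ, ‖∑ j ∈ Icc 1 J, psf_f χ ψ j‖ ≤ B := by
    intro J
    have e : Icc 1 J = Ioc 0 J := by
      ext x
      rw [mem_Icc, mem_Ioc]
      omega
    rw [e]
    exact hPV 0 J
  have h3 := psf_single hη hC1 hB0 hU hUX hnb (psf_f χ ψ) (psf_f_norm χ ψ) (psf_f_mul χ ψ)
    (fun m hm => hI X (by omega) (psf_f χ ψ) B hB0 h2 m hm)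
  exact h3.trans (add_le_add_left h1 _)

/-- keep this signature -/
theorem thm_PsiF (h1 : St_PVF) (h2 : St_TIIF) : St_PsiF := by
  intro η hη ε hε
  obtain ⟨δ, hδ, hδε⟩ : ∃ δ : ℝ, 0 < δ ∧ δ * 4 = ε := ⟨ε / 4, by positivity, by ring⟩
  obtain ⟨C1, hC1, hI⟩ := psf_typeI η hη
  obtain ⟨CP, hCP, hPV⟩ := h1
  obtain ⟨CT, hCT, hII⟩ := h2 η hη δ hδ
  obtain ⟨CD, hCD, hdiv⟩ : ∃ CD : ℝ, 0 < CD ∧ ∀ n : ℕ, 1 ≤ n →
      (n.divisors.card : ℝ) ≤ CD * (n : ℝ) ^ δ := by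
    obtain ⟨C, hC⟩ := Pool.Agent.Helper88.MD.divisorBound δ hδ
    refine ⟨max C 1, by positivity, fun n hn => (hC n hn).trans ?_⟩
    exact mul_le_mul_of_nonneg_right (le_max_left _ _) (by positivity)
  refine ⟨2 * ((1 + 12 * C1 * CP * CD) / δ ^ 2) + 3 * CD * CT / δ ^ 2, by positivity, ?_⟩
  intro X K M U hX hK hM hKM hU hUX J hJ
  obtain ⟨hL1, hLY, hY1⟩ := psf_log hX hδ
  have hX0 : (0 : ℝ) ≤ X := Nat.cast_nonneg X
  have hYε : ((X : ℝ) ^ δ) ^ 4 = (X : ℝ) ^ ε := by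
    rw [← hδε, Real.rpow_mul hX0]
    norm_cast
  obtain ⟨Y, hY⟩ : ∃ Y : ℝ, Y = (X : ℝ) ^ δ := ⟨_, rfl⟩
  rw [← hY] at hLY hY1 hYε
  obtain ⟨nb, hnb, hnbL⟩ := lc_J X hX hL1
  have hnb' : X ≤ U * 2 ^ nb := hnb.trans (Nat.le_mul_of_pos_left _ hU)
  have hUX' : U ≤ X := (Nat.le_self_pow (by norm_num) U).trans hUX
  have hY0 : 0 < Y := by linarith
  have hd : ∀ j : ℕ, 1 ≤ j → j ≤ X → (j.divisors.card : ℝ) ≤ CD * Y := by
    intro j hj hjX
    refine (hdiv j hj).trans (mul_le_mul_of_nonneg_left ?_ hCD.le)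
    rw [hY]
    exact Real.rpow_le_rpow (Nat.cast_nonneg j) (by exact_mod_cast hjX) hδ.le
  have hMX : M ≤ X := (Nat.le_mul_of_pos_left M hK).trans hKM
  have hw : (2 : ℝ) ^ M.primeFactors.card ≤ CD * Y := (psf_omega M hM).trans (hd M hM hMX)
  obtain ⟨W, hW⟩ : ∃ W : ℝ, W = (Fam K M (fun k χ ψ => J k χ ψ ^ 4)) ^ (1 / 4 : ℝ) := ⟨_, rfl⟩
  have hW0 : 0 ≤ W := by
    rw [hW]
    exact Real.rpow_nonneg (fam_nonneg fun k χ ψ => by positivity) _
  obtain ⟨E, hE⟩ : ∃ E : ℝ, E = X + X * (M * (K : ℝ) ^ 2) ^ (1 / 4 : ℝ) / Real.sqrt U +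
        (X : ℝ) ^ (3 / 4 : ℝ) * (M * (K : ℝ) ^ 2) ^ (1 / 2 : ℝ) +
        (X : ℝ) ^ (1 / 2 : ℝ) * (M * (K : ℝ) ^ 2) ^ (3 / 4 : ℝ) := ⟨_, rfl⟩
  have hE0 : 0 ≤ E := by
    rw [hE]
    positivity
  obtain ⟨R, hR⟩ : ∃ R : ℝ, R = (1 + 12 * C1 * CP * CD) / δ ^ 2 * Y ^ 4 *
      ((U : ℝ) ^ 2 * Real.sqrt (K * M)) := ⟨_, rfl⟩
  have hR0 : 0 ≤ R := by
    rw [hR]
    positivity
  have s1 : Fam K M (fun k χ ψ => ‖PZ η X χ ψ‖ * J k χ ψ) ≤
      Fam K M (fun k χ ψ => R * J k χ ψ +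
        ∑ i ∈ range nb, ‖psf_B η X U (U * 2 ^ i) (psf_f χ ψ)‖ * J k χ ψ) := by
    refine fam_mono fun k hk hk2 hkM χ hχ ψ => ?_
    rw [← Finset.sum_mul, ← add_mul]
    refine mul_le_mul_of_nonneg_right ?_ (hJ k χ ψ)
    rw [hR]
    exact psf_char hη hC1 hCP hCD hδ hI hX hK hM hKM hU hUX' hnb' hY hk hk2 χ ψ
      (fun u v => hPV k M u v (by omega) hM hkM χ hχ ψ) hw
  have s2 : ∀ i ∈ range nb, Fam K M (fun k χ ψ =>
      ‖psf_B η X U (U * 2 ^ i) (psf_f χ ψ)‖ * J k χ ψ) ≤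
        Real.log X * (CD * Y) * (CT * Y * W * E) := by
    intro i _
    have hUV : U ≤ U * 2 ^ i := Nat.le_mul_of_pos_right _ (by positivity)
    refine psf_block hCT hY1 (mul_pos hCD hY0) hX hU hUV hd J hE0 hW0 ?_
    intro hUVX a b ha hb
    have h3 := hII X K M (U * 2 ^ i) U (by omega) hK hM hU hUV hUVX a b ha hb J hJ
    rw [← hY, ← hW, ← hE] at h3
    exact h3
  have s3 : Fam K M J ≤ 2 * (M * (K : ℝ) ^ 2) ^ (3 / 4 : ℝ) * W := by
    rw [hW]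
    exact psf_J hM hJ
  rw [fam_add, fam_mul_left, fam_sum (range nb)
    (fun i k χ ψ => ‖psf_B η X U (U * 2 ^ i) (psf_f χ ψ)‖ * J k χ ψ)] at s1
  have s4 : ∑ i ∈ range nb, Fam K M (fun k χ ψ =>
      ‖psf_B η X U (U * 2 ^ i) (psf_f χ ψ)‖ * J k χ ψ) ≤
        3 * CD * CT / δ ^ 2 * Y ^ 4 * W * E := by
    refine (sum_le_card_nsmul _ _ _ s2).trans ?_
    rw [nsmul_eq_mul, card_range]
    have hL0 : 0 ≤ Real.log X := by linarith
    have hL2 : Real.log X * Real.log X ≤ Y / δ * (Y / δ) := mul_le_mul hLY hLY hL0 (by positivity)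
    calc (nb : ℝ) * (Real.log X * (CD * Y) * (CT * Y * W * E)) ≤
        (3 * Real.log X) * (Real.log X * (CD * Y) * (CT * Y * W * E)) :=
          mul_le_mul_of_nonneg_right hnbL (by positivity)
      _ = (Real.log X * Real.log X) * (3 * CD * CT * Y ^ 2 * W * E) := by ring
      _ ≤ (Y / δ * (Y / δ)) * (3 * CD * CT * Y ^ 2 * W * E) :=
          mul_le_mul_of_nonneg_right hL2 (by positivity)
      _ = _ := by ring
  have s5 : R * Fam K M J ≤ 2 * ((1 + 12 * C1 * CP * CD) / δ ^ 2) * Y ^ 4 * W *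
      ((M * (K : ℝ) ^ 2) ^ (3 / 4 : ℝ) * (U : ℝ) ^ 2 * Real.sqrt (K * M)) := by
    refine (mul_le_mul_of_nonneg_left s3 hR0).trans_eq ?_
    rw [hR]
    ring
  obtain ⟨A, hA⟩ : ∃ A : ℝ, A = (M * (K : ℝ) ^ 2) ^ (3 / 4 : ℝ) * (U : ℝ) ^ 2 *
      Real.sqrt (K * M) := ⟨_, rfl⟩
  have hA0 : 0 ≤ A := by
    rw [hA]
    positivity
  rw [← hA] at s5
  rw [← hYε, ← hW, ← hA]
  have e1 : A + X + X * (M * (K : ℝ) ^ 2) ^ (1 / 4 : ℝ) / Real.sqrt U +
        (X : ℝ) ^ (3 / 4 : ℝ) * (M * (K : ℝ) ^ 2) ^ (1 / 2 : ℝ) +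
        (X : ℝ) ^ (1 / 2 : ℝ) * (M * (K : ℝ) ^ 2) ^ (3 / 4 : ℝ) = A + E := by
    rw [hE]
    ring
  rw [e1]
  obtain ⟨c1, hc1⟩ : ∃ c1 : ℝ, c1 = 2 * ((1 + 12 * C1 * CP * CD) / δ ^ 2) := ⟨_, rfl⟩
  obtain ⟨c2, hc2⟩ : ∃ c2 : ℝ, c2 = 3 * CD * CT / δ ^ 2 := ⟨_, rfl⟩
  have hc10 : 0 ≤ c1 := by
    rw [hc1]
    positivity
  have hc20 : 0 ≤ c2 := by
    rw [hc2]
    positivity
  rw [← hc1] at s5 ⊢
  rw [← hc2] at s4 ⊢
  have n1 : 0 ≤ c1 * Y ^ 4 * W * E := by positivity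
  have n2 : 0 ≤ c2 * Y ^ 4 * W * A := by positivity
  calc _ ≤ c1 * Y ^ 4 * W * A + c2 * Y ^ 4 * W * E := s1.trans (add_le_add s5 s4)
    _ ≤ c1 * Y ^ 4 * W * A + c2 * Y ^ 4 * W * E + (c1 * Y ^ 4 * W * E + c2 * Y ^ 4 * W * A) := by
        linarith
    _ = _ := by ring

end Pool.Agent.CV
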