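import Mathlib
import Pool.Agent.CV.Stmts
import Pool.Agent.CU.TRed

set_option autoImplicit false

/-!
# CV / RedB

With `j = n - r` the condition `h ∣ n - m q - r` is `e ∣ j` and `j = m q` modulo `h'`; for `q` coprime
to `h'` it is detected by the characters modulo `h'`, and each of them is replaced by the primitive
character inducing it.
-/

namespace Pool.Agent.CV

open Finset Filter Pool.Agent.MT Pool.Agent.CH Pool.Agent.CU

/-- the weight -/
private noncomputable def redB_W (η : ℝ → ℝ) (N z y q : ℕ) : ℝ := bt z y q * η ((q : ℝ) / N)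

private theorem redB_W_nonneg {η : ℝ → ℝ} (hη : IsWt η) (N z y q : ℕ) : 0 ≤ redB_W η N z y q := by
  unfold redB_W bt
  split_ifs
  · rw [one_mul]
    exact hη.nonneg _
  · rw [zero_mul]

private theorem redB_W_le {η : ℝ → ℝ} (hη : IsWt η) (N z y q : ℕ) : redB_W η N z y q ≤ 1 := by
  unfold redB_W bt
  split_ifs
  · rw [one_mul]
    exact hη.le_one _
  · rw [zero_mul]
    exact zero_le_one

private theorem redB_W_lt {η : ℝ → ℝ} (hη : IsWt η) (N z y q : ℕ) (hN : 1 ≤ N)
    (h : redB_W η N z y q ≠ 0) : q < N := by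
  unfold redB_W at h
  have h1 : η ((q : ℝ) / N) ≠ 0 := right_ne_zero_of_mul h
  have h2 := (hη.supp _ h1).2
  have hN' : (0 : ℝ) < N := by exact_mod_cast hN
  rw [div_lt_iff₀ hN'] at h2
  have h3 : (q : ℝ) < N := by linarith
  exact_mod_cast h3

/-- orthogonality -/
private lemma redB_orth {q : ℕ} [NeZero q] (a b : ZMod q) (ha : IsUnit a) :
    ∑ χ : DirichletCharacter ℂ q, χ b * (starRingEnd ℂ) (χ a) =
      if b = a then (q.totient : ℂ) else 0 := by
  have key : ∀ χ : DirichletCharacter ℂ q, χ b * (starRingEnd ℂ) (χ a) = χ a⁻¹ * χ b := by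
    intro χ
    have e1 : (starRingEnd ℂ) (χ a) = χ a⁻¹ := by
      have h1 := MulChar.star_apply' χ a
      rw [starRingEnd_apply, h1]
      obtain ⟨u, rfl⟩ := ha
      rw [MulChar.inv_apply, Ring.inverse_unit, ZMod.inv_coe_unit]
    rw [e1, mul_comm]
  rw [Finset.sum_congr rfl fun χ _ => key χ, DirichletCharacter.sum_char_inv_mul_char_eq ℂ ha b]
  by_cases h : a = b
  · rw [if_pos h, if_pos h.symm]
  · rw [if_neg h, if_neg (fun hh => h hh.symm)]

/-- the numbers `r` in terms of `j = n - r` -/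
private lemma redB_bij (m n q e h' : ℕ) (hmq : m * q + m ≤ n) (hem : e ∣ m) (hc : e.Coprime h') :
    ((range m).filter (fun r => e * h' ∣ n - m * q - r)).card =
      ((Ioc (n - m) n).filter (fun j => e ∣ j ∧ (j : ZMod h') = ((m * q : ℕ) : ZMod h'))).card := by
  have key : ∀ j : ℕ, m * q ≤ j → (e * h' ∣ j - m * q ↔
      e ∣ j ∧ (j : ZMod h') = ((m * q : ℕ) : ZMod h')) := by
    intro j hj
    have h1 : e ∣ j - m * q ↔ e ∣ j := by
      have h2 : j = (j - m * q) + m * q := by omega
      conv_rhs => rw [h2]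
      exact (Nat.dvd_add_left (hem.mul_right q)).symm
    have h3 : h' ∣ j - m * q ↔ (j : ZMod h') = ((m * q : ℕ) : ZMod h') := by
      rw [eq_comm, ZMod.natCast_eq_natCast_iff, Nat.modEq_iff_dvd' hj]
    rw [← h1, ← h3]
    constructor
    · intro h
      exact ⟨(dvd_mul_right e h').trans h, (dvd_mul_left h' e).trans h⟩
    · rintro ⟨h4, h5⟩
      exact hc.mul_dvd_of_dvd_of_dvd h4 h5
  refine Finset.card_bij' (fun r _ => n - r) (fun j _ => n - j) ?_ ?_ ?_ ?_
  · intro r hr
    rw [mem_filter, mem_range] at hr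
    rw [mem_filter, mem_Ioc]
    refine ⟨by omega, (key _ (by omega)).1 ?_⟩
    have e1 : n - r - m * q = n - m * q - r := by omega
    rw [e1]
    exact hr.2
  · intro j hj
    rw [mem_filter, mem_Ioc] at hj
    rw [mem_filter, mem_range]
    refine ⟨by omega, ?_⟩
    have e1 : n - m * q - (n - j) = j - m * q := by omega
    rw [e1]
    exact (key _ (by omega)).2 hj.2
  · intro r hr
    rw [mem_filter, mem_range] at hr
    omega
  · intro j hj
    rw [mem_filter, mem_Ioc] at hj
    omega

/-- the number of `j` for the principal character -/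
private lemma redB_count (m n e h' : ℕ) (he : 1 ≤ e) (hh : 1 ≤ h') (hmn : m ≤ n) (hem : e ∣ m)
    (hc : e.Coprime h') :
    |(((Ioc (n - m) n).filter (fun j => e ∣ j ∧ j.Coprime h')).card : ℝ) -
      (m : ℝ) / e * ((h'.totient : ℝ) / h')| ≤ 2 * 2 ^ h'.primeFactors.card := by
  have h1 : ((Ioc (n - m) n).filter (fun j => e ∣ j ∧ j.Coprime h')).card =
      ((Ioc ((n - m) / e) ((n - m) / e + m / e)).filter (fun i => i.Coprime h')).card := by
    symm
    have hdiv : (n - m) / e + m / e = n / e := by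
      obtain ⟨t, rfl⟩ := hem
      rw [Nat.mul_div_cancel_left _ (by omega)]
      have h2 : n = (n - e * t) + e * t := by omega
      conv_rhs => rw [h2]
      rw [Nat.add_mul_div_left _ _ (by omega)]
    rw [hdiv]
    apply card_bij (fun i _ => e * i)
    · intro i hi
      rw [mem_filter, mem_Ioc] at hi ⊢
      obtain ⟨⟨h3, h4⟩, h5⟩ := hi
      refine ⟨⟨?_, ?_⟩, dvd_mul_right e i, ?_⟩
      · rw [Nat.div_lt_iff_lt_mul (by omega)] at h3
        rwa [mul_comm]
      · rw [Nat.le_div_iff_mul_le (by omega)] at h4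
        rwa [mul_comm]
      · exact Nat.Coprime.mul_left hc h5
    · intro i _ j _ hij
      exact Nat.eq_of_mul_eq_mul_left (by omega) hij
    · intro j hj
      rw [mem_filter, mem_Ioc] at hj
      obtain ⟨⟨h3, h4⟩, ⟨i, rfl⟩, h5⟩ := hj
      refine ⟨i, ?_, rfl⟩
      rw [mem_filter, mem_Ioc]
      refine ⟨⟨?_, ?_⟩, Nat.Coprime.coprime_mul_left h5⟩
      · rw [Nat.div_lt_iff_lt_mul (by omega), mul_comm]
        exact h3
      · rw [Nat.le_div_iff_mul_le (by omega), mul_comm]
        exact h4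
  have h2 := TRed_cop h' ((n - m) / e) (m / e) hh
  rw [← h1] at h2
  rwa [Nat.cast_div hem (by exact_mod_cast (by omega : e ≠ 0))] at h2

/-- the `j`-sum of a character modulo `h'` -/
private lemma redB_J (n m e h' : ℕ) (χ : DirichletCharacter ℂ h') :
    ∑ j ∈ (Ioc (n - m) n).filter (fun j => e ∣ j), χ (j : ZMod h') =
      JE n m e (h' / χ.conductor) χ.primitiveCharacter := by
  unfold JE
  rw [sum_filter, sum_filter]
  refine sum_congr rfl fun j _ => ?_
  have hk : χ.conductor * (h' / χ.conductor) = h' := Nat.mul_div_cancel' χ.conductor_dvd_level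
  by_cases hej : e ∣ j
  · rw [if_pos hej]
    by_cases hj : j.Coprime h'
    · have h1 := χ.primitiveCharacter_apply_of_isCoprime (a := (j : ℤ))
        (by exact_mod_cast Nat.isCoprime_iff_coprime.mpr hj)
      have h2 : χ.primitiveCharacter (j : ZMod χ.conductor) = χ (j : ZMod h') := by
        simpa using h1
      have h3 : j.Coprime (h' / χ.conductor) := by
        refine Nat.Coprime.coprime_dvd_right ?_ hj
        exact Dvd.intro_left _ hk
      rw [if_pos ⟨hej, h3⟩, h2]
    · rw [χ.map_nonunit fun h => hj ((ZMod.isUnit_iff_coprime j h').mp h)]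
      by_cases h3 : j.Coprime (h' / χ.conductor)
      · rw [if_pos ⟨hej, h3⟩]
        symm
        apply MulChar.map_nonunit
        rw [ZMod.isUnit_iff_coprime]
        intro h4
        apply hj
        rw [← hk]
        exact Nat.Coprime.mul_right h4 h3
      · rw [if_neg fun h => h3 h.2]
  · rw [if_neg hej, if_neg fun h => hej h.1]

/-- the `q`-sum of a character modulo `h'` -/
private lemma redB_Q (η : ℝ → ℝ) (N z y g c h' : ℕ) (χ : DirichletCharacter ℂ h') :
    ∑ q ∈ (range (N + 1)).filter (fun q => q % g = c % g ∧ q.Coprime h'),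
      ((redB_W η N z y q : ℝ) : ℂ) * χ (q : ZMod h') =
      QB η N z y g c (h' / χ.conductor) χ.primitiveCharacter := by
  unfold QB redB_W
  rw [sum_filter, sum_filter]
  refine sum_congr rfl fun j _ => ?_
  have hk : χ.conductor * (h' / χ.conductor) = h' := Nat.mul_div_cancel' χ.conductor_dvd_level
  by_cases hej : j % g = c % g
  · by_cases hj : j.Coprime h'
    · have h1 := χ.primitiveCharacter_apply_of_isCoprime (a := (j : ℤ))
        (by exact_mod_cast Nat.isCoprime_iff_coprime.mpr hj)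
      have h2 : χ.primitiveCharacter (j : ZMod χ.conductor) = χ (j : ZMod h') := by
        simpa using h1
      have h3 : j.Coprime (h' / χ.conductor) := by
        refine Nat.Coprime.coprime_dvd_right ?_ hj
        exact Dvd.intro_left _ hk
      rw [if_pos ⟨hej, hj⟩, if_pos ⟨hej, h3⟩, h2]
    · rw [if_neg fun h => hj h.2]
      by_cases h3 : j.Coprime (h' / χ.conductor)
      · rw [if_pos ⟨hej, h3⟩]
        symm
        have : χ.primitiveCharacter (j : ZMod χ.conductor) = 0 := by
          apply MulChar.map_nonunit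
          rw [ZMod.isUnit_iff_coprime]
          intro h4
          apply hj
          rw [← hk]
          exact Nat.Coprime.mul_right h4 h3
        rw [this, mul_zero]
      · rw [if_neg fun h => h3 h.2]
  · rw [if_neg fun h => hej h.1, if_neg fun h => hej h.1]

/-- the sum over the `q` coprime to `h'` -/
private lemma redB_main {η : ℝ → ℝ} (hη : IsWt η) (N m n z y g c e h' : ℕ) (hN : 1 ≤ N)
    (hmn : m ≤ n) (he : 1 ≤ e) (hh : 1 ≤ h') (hem : e ∣ m) (hc : e.Coprime h')
    (hmh : m.Coprime h') :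
    (h'.totient : ℝ) * |∑ q ∈ (range (N + 1)).filter (fun q => q % g = c % g ∧ q.Coprime h'),
      redB_W η N z y q * ((((Ioc (n - m) n).filter (fun j => e ∣ j ∧
        (j : ZMod h') = ((m * q : ℕ) : ZMod h'))).card : ℝ) - (m : ℝ) / (e * h'))| ≤
      2 * 2 ^ h'.primeFactors.card * (2 * N) +
      ∑ k ∈ h'.divisors.erase 1, ∑ χ ∈ prim k,
        ‖JE n m e (h' / k) χ‖ * ‖QB η N z y g c (h' / k) χ‖ := by
  classical
  have : NeZero h' := ⟨by omega⟩
  set Q1 := (range (N + 1)).filter (fun q => q % g = c % g ∧ q.Coprime h') with hQ1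
  set Js := (Ioc (n - m) n).filter (fun j => e ∣ j) with hJs
  set S : DirichletCharacter ℂ h' → ℂ := fun χ => ∑ j ∈ Js, χ (j : ZMod h') with hS
  set T : DirichletCharacter ℂ h' → ℂ := fun χ =>
    ∑ q ∈ Q1, ((redB_W η N z y q : ℝ) : ℂ) * χ (q : ZMod h') with hT
  have hcop : ∀ q ∈ Q1, q.Coprime h' := fun q hq => (mem_filter.1 hq).2.2
  have hum : IsUnit (m : ZMod h') := (ZMod.isUnit_iff_coprime m h').mpr hmh
  -- orthogonality
  have e1 : (h'.totient : ℂ) * ((∑ q ∈ Q1, redB_W η N z y q *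
      (((Ioc (n - m) n).filter (fun j => e ∣ j ∧
        (j : ZMod h') = ((m * q : ℕ) : ZMod h'))).card : ℝ) : ℝ) : ℂ) =
      ∑ χ : DirichletCharacter ℂ h', S χ * (starRingEnd ℂ) (χ (m : ZMod h') * T χ) := by
    have e2 : ∀ χ : DirichletCharacter ℂ h', S χ * (starRingEnd ℂ) (χ (m : ZMod h') * T χ) =
        ∑ q ∈ Q1, ∑ j ∈ Js, ((redB_W η N z y q : ℝ) : ℂ) *
          (χ (j : ZMod h') * (starRingEnd ℂ) (χ ((m * q : ℕ) : ZMod h'))) := by
      intro χ
      simp only [hS, hT]
      rw [map_mul, map_sum, mul_sum, mul_sum]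
      refine sum_congr rfl fun q _ => ?_
      rw [sum_mul]
      refine sum_congr rfl fun j _ => ?_
      rw [Nat.cast_mul, map_mul χ, map_mul, map_mul, Complex.conj_ofReal]
      ring
    rw [sum_congr rfl fun χ _ => e2 χ, sum_comm, Complex.ofReal_sum, mul_sum]
    refine sum_congr rfl fun q hq => ?_
    rw [sum_comm]
    have hu : IsUnit ((m * q : ℕ) : ZMod h') :=
      (ZMod.isUnit_iff_coprime _ _).mpr (Nat.Coprime.mul_left hmh (hcop q hq))
    have e3 : ∀ j ∈ Js, ∑ χ : DirichletCharacter ℂ h', ((redB_W η N z y q : ℝ) : ℂ) *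
          (χ (j : ZMod h') * (starRingEnd ℂ) (χ ((m * q : ℕ) : ZMod h'))) =
        ((redB_W η N z y q : ℝ) : ℂ) *
          (if (j : ZMod h') = ((m * q : ℕ) : ZMod h') then (h'.totient : ℂ) else 0) := by
      intro j _
      rw [← mul_sum, redB_orth _ _ hu]
    rw [sum_congr rfl e3, ← mul_sum, ← sum_filter, sum_const, nsmul_eq_mul, hJs, filter_filter]
    push_cast
    ring
  -- the principal character
  have e4 : S 1 = ((((Ioc (n - m) n).filter (fun j => e ∣ j ∧ j.Coprime h')).card : ℝ) : ℂ) := by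
    simp only [hS]
    have h1 : ∀ j ∈ Js, (1 : DirichletCharacter ℂ h') (j : ZMod h') =
        if j.Coprime h' then 1 else 0 := by
      intro j _
      by_cases hj : j.Coprime h'
      · rw [if_pos hj, MulChar.one_apply ((ZMod.isUnit_iff_coprime j h').mpr hj)]
      · rw [if_neg hj, MulChar.map_nonunit _ fun h => hj ((ZMod.isUnit_iff_coprime j h').mp h)]
    rw [sum_congr rfl h1, ← sum_filter, hJs, filter_filter, sum_const, nsmul_eq_mul, mul_one]
    push_cast
    rfl
  have e5 : (1 : DirichletCharacter ℂ h') (m : ZMod h') * T 1 =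
      ((∑ q ∈ Q1, redB_W η N z y q : ℝ) : ℂ) := by
    rw [MulChar.one_apply hum, one_mul]
    simp only [hT]
    rw [Complex.ofReal_sum]
    refine sum_congr rfl fun q hq => ?_
    rw [MulChar.one_apply ((ZMod.isUnit_iff_coprime q h').mpr (hcop q hq)), mul_one]
  set J0 : ℝ := (((Ioc (n - m) n).filter (fun j => e ∣ j ∧ j.Coprime h')).card : ℝ) with hJ0
  set W0 : ℝ := ∑ q ∈ Q1, redB_W η N z y q with hW0
  have hW0n : 0 ≤ W0 := sum_nonneg fun q _ => redB_W_nonneg hη N z y q
  have hW0le : W0 ≤ 2 * N := by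
    have h1 : W0 ≤ ∑ q ∈ Q1, (1 : ℝ) := sum_le_sum fun q _ => redB_W_le hη N z y q
    rw [sum_const, nsmul_eq_mul, mul_one] at h1
    have h2 : Q1.card ≤ N + 1 := (card_filter_le _ _).trans (by rw [card_range])
    have h3 : (Q1.card : ℝ) ≤ N + 1 := by exact_mod_cast h2
    have h4 : (1 : ℝ) ≤ N := by exact_mod_cast hN
    linarith
  have hφ : 0 < (h'.totient : ℝ) := by
    exact_mod_cast Nat.totient_pos.mpr (by omega)
  have heR : (0 : ℝ) < e := by exact_mod_cast he
  have hhR : (0 : ℝ) < h' := by exact_mod_cast hh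
  have e6 : (((h'.totient : ℝ) * ∑ q ∈ Q1, redB_W η N z y q * ((((Ioc (n - m) n).filter (fun j =>
      e ∣ j ∧ (j : ZMod h') = ((m * q : ℕ) : ZMod h'))).card : ℝ) - (m : ℝ) / (e * h')) : ℝ) : ℂ) =
      (((J0 - (m : ℝ) / e * ((h'.totient : ℝ) / h')) * W0 : ℝ) : ℂ) +
      ∑ χ ∈ (univ : Finset (DirichletCharacter ℂ h')).erase 1,
        S χ * (starRingEnd ℂ) (χ (m : ZMod h') * T χ) := by
    have h1 : ∑ q ∈ Q1, redB_W η N z y q * ((((Ioc (n - m) n).filter (fun j =>
      e ∣ j ∧ (j : ZMod h') = ((m * q : ℕ) : ZMod h'))).card : ℝ) - (m : ℝ) / (e * h')) =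
        (∑ q ∈ Q1, redB_W η N z y q * (((Ioc (n - m) n).filter (fun j =>
          e ∣ j ∧ (j : ZMod h') = ((m * q : ℕ) : ZMod h'))).card : ℝ)) -
          (m : ℝ) / (e * h') * W0 := by
      rw [hW0, mul_sum, ← sum_sub_distrib]
      refine sum_congr rfl fun q _ => ?_
      ring
    rw [h1, mul_sub, Complex.ofReal_sub, Complex.ofReal_mul, Complex.ofReal_natCast, e1,
      ← add_sum_erase univ _ (mem_univ (1 : DirichletCharacter ℂ h')), e4, e5,
      Complex.conj_ofReal]
    have h2 : (h'.totient : ℝ) * ((m : ℝ) / (e * h') * W0) =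
        (m : ℝ) / e * ((h'.totient : ℝ) / h') * W0 := by
      field_simp
    rw [h2]
    push_cast
    ring
  have e7 : (h'.totient : ℝ) * |∑ q ∈ Q1, redB_W η N z y q * ((((Ioc (n - m) n).filter (fun j =>
      e ∣ j ∧ (j : ZMod h') = ((m * q : ℕ) : ZMod h'))).card : ℝ) - (m : ℝ) / (e * h'))| =
      ‖(((J0 - (m : ℝ) / e * ((h'.totient : ℝ) / h')) * W0 : ℝ) : ℂ) +
      ∑ χ ∈ (univ : Finset (DirichletCharacter ℂ h')).erase 1,
        S χ * (starRingEnd ℂ) (χ (m : ZMod h') * T χ)‖ := by
    rw [← e6, Complex.norm_real, Real.norm_eq_abs, abs_mul, abs_of_pos hφ]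
  rw [e7]
  have h1 : ‖(((J0 - (m : ℝ) / e * ((h'.totient : ℝ) / h')) * W0 : ℝ) : ℂ)‖ ≤
      2 * 2 ^ h'.primeFactors.card * (2 * N) := by
    rw [Complex.norm_real, Real.norm_eq_abs, abs_mul, abs_of_nonneg hW0n]
    exact mul_le_mul (redB_count m n e h' he hh hmn hem hc) hW0le hW0n (by positivity)
  have h2 : ∀ χ : DirichletCharacter ℂ h', ‖S χ * (starRingEnd ℂ) (χ (m : ZMod h') * T χ)‖ ≤
      ‖JE n m e (h' / χ.conductor) χ.primitiveCharacter‖ *
        ‖QB η N z y g c (h' / χ.conductor) χ.primitiveCharacter‖ := by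
    intro χ
    rw [norm_mul, RCLike.norm_conj, norm_mul]
    have a1 : S χ = JE n m e (h' / χ.conductor) χ.primitiveCharacter := redB_J n m e h' χ
    have a2 : T χ = QB η N z y g c (h' / χ.conductor) χ.primitiveCharacter :=
      redB_Q η N z y g c h' χ
    rw [a1, a2]
    refine mul_le_mul_of_nonneg_left ?_ (norm_nonneg _)
    exact mul_le_of_le_one_left (norm_nonneg _) (χ.norm_le_one _)
  have h3 := TRed_prim_sum (fun k χ => ‖JE n m e (h' / k) χ‖ * ‖QB η N z y g c (h' / k) χ‖)
    (fun k χ => by positivity) h' hh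
  refine (norm_add_le _ _).trans (add_le_add h1 ?_)
  refine (norm_sum_le _ _).trans ((sum_le_sum fun χ _ => h2 χ).trans h3)

/-- keep this signature -/
theorem thm_RedB : St_RedB := by
  classical
  intro η hη
  refine ⟨4, by norm_num, ?_⟩
  intro N m n z y g c h e h' hN hT hh hsq he hh'
  obtain ⟨hm, hmN, hnm⟩ := hT
  have hmn : m ≤ n := (Nat.le_mul_of_pos_right m (by omega)).trans hmN
  have heh : e ∣ h := he ▸ Nat.gcd_dvd_left h m
  have hem : e ∣ m := he ▸ Nat.gcd_dvd_right h m
  have he1 : 1 ≤ e := Nat.pos_of_dvd_of_pos heh (by omega)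
  have heq : h = e * h' := by
    rw [hh']
    exact (Nat.mul_div_cancel' heh).symm
  have hh'1 : 1 ≤ h' := by
    rcases Nat.eq_zero_or_pos h' with h0 | h0
    · rw [h0, mul_zero] at heq
      omega
    · exact h0
  have hc : e.Coprime h' := by
    rw [heq] at hsq
    exact Nat.coprime_of_squarefree_mul hsq
  have hmh : m.Coprime h' := by
    apply Nat.coprime_of_dvd
    intro p hp hpm hph
    have h1 : p ∣ e := by
      rw [he]
      refine Nat.dvd_gcd ?_ hpm
      rw [heq]
      exact hph.mul_left e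
    have h2 := Nat.dvd_gcd h1 hph
    rw [hc] at h2
    exact hp.one_lt.ne' (Nat.dvd_one.1 h2)
  have hφ : 0 < (h'.totient : ℝ) := by
    exact_mod_cast Nat.totient_pos.mpr (by omega)
  have hhR : (h : ℝ) = e * h' := by
    rw [heq]
    push_cast
    ring
  have hdec : RB η N z y m n g c h - (m : ℝ) / h * BAP η N z y g c =
      ∑ q ∈ (range (N + 1)).filter (fun q => q % g = c % g), redB_W η N z y q *
        ((((range m).filter (fun r => h ∣ n - m * q - r)).card : ℝ) - (m : ℝ) / h) := by
    unfold RB BAP redB_W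
    rw [mul_sum, ← sum_sub_distrib]
    refine sum_congr rfl fun q _ => ?_
    ring
  rw [hdec, ← sum_filter_add_sum_filter_not ((range (N + 1)).filter (fun q => q % g = c % g))
    (fun q => q.Coprime h'), filter_filter, filter_filter]
  have h1 : |∑ q ∈ (range (N + 1)).filter (fun q => q % g = c % g ∧ ¬ q.Coprime h'),
      redB_W η N z y q *
        ((((range m).filter (fun r => h ∣ n - m * q - r)).card : ℝ) - (m : ℝ) / h)| ≤
      ∑ q ∈ (range (N + 1)).filter (fun q => ¬ q.Coprime h'), bt z y q * η ((q : ℝ) / N) *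
      ((m : ℝ) / h + (((range m).filter (fun r => h ∣ n - m * q - r)).card : ℝ)) := by
    refine (abs_sum_le_sum_abs _ _).trans ?_
    have a1 : ∀ q ∈ (range (N + 1)).filter (fun q => q % g = c % g ∧ ¬ q.Coprime h'),
        |redB_W η N z y q *
        ((((range m).filter (fun r => h ∣ n - m * q - r)).card : ℝ) - (m : ℝ) / h)| ≤
        bt z y q * η ((q : ℝ) / N) *
      ((m : ℝ) / h + (((range m).filter (fun r => h ∣ n - m * q - r)).card : ℝ)) := by
      intro q _
      rw [abs_mul, abs_of_nonneg (redB_W_nonneg hη N z y q)]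
      refine mul_le_mul_of_nonneg_left ?_ (redB_W_nonneg hη N z y q)
      have b1 : (0 : ℝ) ≤ (((range m).filter (fun r => h ∣ n - m * q - r)).card : ℝ) :=
        Nat.cast_nonneg _
      have b2 : (0 : ℝ) ≤ (m : ℝ) / h := by positivity
      rw [abs_le]
      constructor <;> linarith
    refine (sum_le_sum a1).trans ?_
    refine sum_le_sum_of_subset_of_nonneg ?_ ?_
    · intro q hq
      rw [mem_filter] at hq ⊢
      exact ⟨hq.1, hq.2.2⟩
    · intro q _ _
      exact mul_nonneg (redB_W_nonneg hη N z y q) (add_nonneg (by positivity) (Nat.cast_nonneg _))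
  have h2 : |∑ q ∈ (range (N + 1)).filter (fun q => q % g = c % g ∧ q.Coprime h'),
      redB_W η N z y q *
        ((((range m).filter (fun r => h ∣ n - m * q - r)).card : ℝ) - (m : ℝ) / h)| ≤
      4 * 2 ^ h.primeFactors.card * N / (h'.totient : ℝ) +
    1 / (h'.totient : ℝ) * ∑ k ∈ h'.divisors.erase 1, ∑ χ ∈ prim k,
      ‖JE n m e (h' / k) χ‖ * ‖QB η N z y g c (h' / k) χ‖ := by
    have a1 : ∑ q ∈ (range (N + 1)).filter (fun q => q % g = c % g ∧ q.Coprime h'),
      redB_W η N z y q *
        ((((range m).filter (fun r => h ∣ n - m * q - r)).card : ℝ) - (m : ℝ) / h) =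
        ∑ q ∈ (range (N + 1)).filter (fun q => q % g = c % g ∧ q.Coprime h'),
      redB_W η N z y q * ((((Ioc (n - m) n).filter (fun j => e ∣ j ∧
        (j : ZMod h') = ((m * q : ℕ) : ZMod h'))).card : ℝ) - (m : ℝ) / (e * h')) := by
      refine sum_congr rfl fun q _ => ?_
      by_cases hw : redB_W η N z y q = 0
      · rw [hw, zero_mul, zero_mul]
      · have hq := redB_W_lt hη N z y q (by omega) hw
        have hmq : m * q + m ≤ n := by
          refine le_trans ?_ hmN
          rw [← Nat.mul_succ]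
          exact Nat.mul_le_mul_left m hq
        have b1 := redB_bij m n q e h' hmq hem hc
        rw [← heq] at b1
        rw [b1, hhR]
    rw [a1]
    have a2 := redB_main hη N m n z y g c e h' (by omega) hmn he1 hh'1 hem hc hmh
    have a3 : (2 : ℝ) ^ h'.primeFactors.card ≤ 2 ^ h.primeFactors.card := by
      refine pow_le_pow_right₀ (by norm_num) (Finset.card_le_card ?_)
      exact Nat.primeFactors_mono (heq ▸ dvd_mul_left h' e) (by omega)
    rw [← mul_le_mul_iff_right₀ hφ]
    refine a2.trans ?_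
    have a4 : (h'.totient : ℝ) * (4 * 2 ^ h.primeFactors.card * N / (h'.totient : ℝ) +
    1 / (h'.totient : ℝ) * ∑ k ∈ h'.divisors.erase 1, ∑ χ ∈ prim k,
      ‖JE n m e (h' / k) χ‖ * ‖QB η N z y g c (h' / k) χ‖) =
        4 * 2 ^ h.primeFactors.card * N + ∑ k ∈ h'.divisors.erase 1, ∑ χ ∈ prim k,
      ‖JE n m e (h' / k) χ‖ * ‖QB η N z y g c (h' / k) χ‖ := by
      rw [mul_add, mul_div_cancel₀ _ hφ.ne', ← mul_assoc, mul_one_div_cancel hφ.ne', one_mul]
    rw [a4]
    have a5 : (2 : ℝ) * 2 ^ h'.primeFactors.card * (2 * N) ≤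
        4 * 2 ^ h.primeFactors.card * N := by
      calc (2 : ℝ) * 2 ^ h'.primeFactors.card * (2 * N) = (4 * N) * 2 ^ h'.primeFactors.card := by
            ring
        _ ≤ (4 * N) * 2 ^ h.primeFactors.card := mul_le_mul_of_nonneg_left a3 (by positivity)
        _ = _ := by ring
    linarith
  refine (abs_add_le _ _).trans ?_
  linarith

end Pool.Agent.CV
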