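import Mathlib
import Pool.Agent.CV.Stmts
import Pool.Agent.CH.ABV
import Pool.Agent.GBQ.Div
import Pool.Agent.Helper88.MD.Div

set_option autoImplicit false

/-!
# CV / TBV3P

Copy of Pool/Agent/CU/TBV3.lean with `K = 1` and powers of `n` instead of powers of `log n`.
-/

namespace Pool.Agent.CV

open Finset Filter Pool.Agent.MT Pool.Agent.CH Pool.Agent.CU

/-! ### Elementary sums -/

private theorem tbv3p_dyad (F : ℕ) (β : ℝ) (hβ : β ≤ 0) (hβ' : -1 ≤ β) (a : ℕ → ℝ)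
    (ha : ∀ k, 0 ≤ a k) :
    ∑ k ∈ Icc 1 F, (k : ℝ) ^ β * a k ≤
      ∑ i ∈ range (Nat.log 2 F + 2), 2 * ((2 : ℝ) ^ i) ^ β * ∑ k ∈ Icc 1 (2 ^ i), a k := by
  classical
  have h1 : ∀ k ∈ Icc 1 F, (k : ℝ) ^ β * a k ≤
      ∑ i ∈ range (Nat.log 2 F + 2),
        (if k ∈ Icc 1 (2 ^ i) then 2 * ((2 : ℝ) ^ i) ^ β * a k else 0) := by
    intro k hk
    rw [mem_Icc] at hk
    set i := Nat.log 2 k + 1 with hi
    have hi1 : i ∈ range (Nat.log 2 F + 2) := by
      rw [mem_range]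
      have := Nat.log_mono_right (b := 2) hk.2
      omega
    have hk2 : k < 2 ^ i := Nat.lt_pow_succ_log_self (by norm_num) k
    have hk3 : 2 ^ (i - 1) ≤ k := by
      have : i - 1 = Nat.log 2 k := by omega
      rw [this]
      exact Nat.pow_log_le_self 2 (by omega)
    have hk4 : ((2 : ℝ) ^ i) / 2 ≤ k := by
      have h2 : ((2 ^ (i - 1) : ℕ) : ℝ) ≤ k := by exact_mod_cast hk3
      have h3 : (2 : ℝ) ^ i = 2 ^ (i - 1) * 2 := by
        rw [← pow_succ]
        congr 1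
      rw [h3]
      push_cast at h2
      linarith
    have hin : k ∈ Icc 1 (2 ^ i) := by
      rw [mem_Icc]
      exact ⟨hk.1, hk2.le⟩
    have h5 : (k : ℝ) ^ β ≤ 2 * ((2 : ℝ) ^ i) ^ β := by
      have h6 : (k : ℝ) ^ β ≤ (((2 : ℝ) ^ i) / 2) ^ β :=
        Real.rpow_le_rpow_of_nonpos (by positivity) hk4 hβ
      have h7 : (((2 : ℝ) ^ i) / 2) ^ β = ((2 : ℝ) ^ i) ^ β * (2 : ℝ) ^ (-β) := by
        rw [Real.div_rpow (by positivity) (by norm_num), Real.rpow_neg (by norm_num),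
          div_eq_mul_inv]
      have h8 : (2 : ℝ) ^ (-β) ≤ 2 := by
        calc (2 : ℝ) ^ (-β) ≤ (2 : ℝ) ^ (1 : ℝ) :=
              Real.rpow_le_rpow_of_exponent_le (by norm_num) (by linarith)
          _ = 2 := Real.rpow_one 2
      have h9 : 0 ≤ ((2 : ℝ) ^ i) ^ β := by positivity
      calc (k : ℝ) ^ β ≤ _ := h6
        _ = ((2 : ℝ) ^ i) ^ β * (2 : ℝ) ^ (-β) := h7
        _ ≤ ((2 : ℝ) ^ i) ^ β * 2 := mul_le_mul_of_nonneg_left h8 h9
        _ = _ := by ring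
    calc (k : ℝ) ^ β * a k ≤ 2 * ((2 : ℝ) ^ i) ^ β * a k := mul_le_mul_of_nonneg_right h5 (ha k)
      _ = (if k ∈ Icc 1 (2 ^ i) then 2 * ((2 : ℝ) ^ i) ^ β * a k else 0) := by rw [if_pos hin]
      _ ≤ _ := by
        apply single_le_sum (f := fun i => (if k ∈ Icc 1 (2 ^ i) then
          2 * ((2 : ℝ) ^ i) ^ β * a k else 0)) _ hi1
        intro j _
        have := ha k
        split_ifs <;> positivity
  refine (sum_le_sum h1).trans ?_
  rw [sum_comm]
  refine sum_le_sum fun i _ => ?_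
  rw [← sum_filter, mul_sum]
  apply sum_le_sum_of_subset_of_nonneg
  · intro k hk
    exact (mem_filter.mp hk).2
  · intro k _ _
    have := ha k
    positivity

private theorem tbv3p_omega (m : ℕ) (hm : 1 ≤ m) :
    (2 : ℝ) ^ m.primeFactors.card ≤ m.divisors.card := by
  have h := Pool.Agent.GV.bvw_omega_step 1 m (by omega)
  norm_num at h
  exact h

private theorem tbv3p_div1 (m : ℕ) (hm : 1 ≤ m) :
    ∑ e ∈ m.divisors, (2 : ℝ) ^ (m / e).primeFactors.card / m * e ≤ (1 + Real.log m) ^ 2 := by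
  have hm0 : (0 : ℝ) < m := by exact_mod_cast hm
  have h1 : ∑ e ∈ m.divisors, (2 : ℝ) ^ (m / e).primeFactors.card / m * e =
      ∑ e ∈ m.divisors, (2 : ℝ) ^ (m / e).primeFactors.card / ((m / e : ℕ) : ℝ) := by
    refine sum_congr rfl fun e he => ?_
    have hd := Nat.dvd_of_mem_divisors he
    have he0 : (e : ℝ) ≠ 0 := by
      have := Nat.pos_of_mem_divisors he
      positivity
    rw [Nat.cast_div hd he0]
    field_simp
  rw [h1, Nat.sum_div_divisors m (fun g => (2 : ℝ) ^ g.primeFactors.card / (g : ℝ))]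
  have h2 := Pool.Agent.GV.bvw_omega_sum m hm 2
  push_cast at h2
  refine le_trans ?_ h2
  apply sum_le_sum_of_subset_of_nonneg
  · intro g hg
    rw [mem_Icc]
    exact ⟨Nat.pos_of_mem_divisors hg, Nat.divisor_le hg⟩
  · intro g _ _
    positivity

private theorem tbv3p_div2 : ∃ C : ℝ, 1 ≤ C ∧ (∀ m : ℕ, 1 ≤ m →
    ∑ e ∈ m.divisors, (2 : ℝ) ^ (m / e).primeFactors.card / m * Real.sqrt e ≤
      C * (m : ℝ) ^ (-(1 / 4) : ℝ)) ∧
    (∀ m : ℕ, 1 ≤ m → (2 : ℝ) ^ m.primeFactors.card / m.totient ≤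
      C * (m : ℝ) ^ (-(1 / 4) : ℝ)) := by
  obtain ⟨D, hD⟩ := Pool.Agent.Helper88.MD.divisorBound (1 / 8) (by norm_num)
  set C := max D 1 with hC
  have hC1 : 1 ≤ C := le_max_right _ _
  have hC2 : ∀ m : ℕ, 1 ≤ m → (m.divisors.card : ℝ) ≤ C * (m : ℝ) ^ (1 / 8 : ℝ) := by
    intro m hm
    refine (hD m hm).trans ?_
    exact mul_le_mul_of_nonneg_right (le_max_left _ _) (by positivity)
  refine ⟨C ^ 2, by nlinarith, fun m hm => ?_, fun m hm => ?_⟩
  · have hm0 : (0 : ℝ) < m := by exact_mod_cast hm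
    have h1 : ∀ e ∈ m.divisors, (2 : ℝ) ^ (m / e).primeFactors.card / m * Real.sqrt e ≤
        (C * (m : ℝ) ^ (1 / 8 : ℝ)) * (m : ℝ) ^ (-(1 / 2) : ℝ) := by
      intro e he
      have hd := Nat.dvd_of_mem_divisors he
      have hle := Nat.divisor_le he
      have hpos := Nat.pos_of_mem_divisors he
      have h2 : (2 : ℝ) ^ (m / e).primeFactors.card ≤ C * (m : ℝ) ^ (1 / 8 : ℝ) := by
        have h3 : (2 : ℝ) ^ (m / e).primeFactors.card ≤ (2 : ℝ) ^ m.primeFactors.card := by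
          apply pow_le_pow_right₀ (by norm_num)
          exact card_le_card (Nat.primeFactors_mono (Nat.div_dvd_of_dvd hd) (by omega))
        exact h3.trans ((tbv3p_omega m hm).trans (hC2 m hm))
      have h4 : Real.sqrt e / m ≤ (m : ℝ) ^ (-(1 / 2) : ℝ) := by
        rw [Real.rpow_neg hm0.le, ← Real.sqrt_eq_rpow, div_le_iff₀ hm0]
        have h5 : Real.sqrt e ≤ Real.sqrt m := Real.sqrt_le_sqrt (by exact_mod_cast hle)
        have h6 : (Real.sqrt m)⁻¹ * m = Real.sqrt m := by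
          have h7 : Real.sqrt m ≠ 0 := (Real.sqrt_pos.mpr hm0).ne'
          have h8 : Real.sqrt m * Real.sqrt m = m := Real.mul_self_sqrt hm0.le
          field_simp
          linarith
        rw [h6]
        exact h5
      calc (2 : ℝ) ^ (m / e).primeFactors.card / m * Real.sqrt e
          = (2 : ℝ) ^ (m / e).primeFactors.card * (Real.sqrt e / m) := by ring
        _ ≤ _ := mul_le_mul h2 h4 (by positivity) (by positivity)
    calc _ ≤ ∑ e ∈ m.divisors, (C * (m : ℝ) ^ (1 / 8 : ℝ)) * (m : ℝ) ^ (-(1 / 2) : ℝ) :=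
          sum_le_sum h1
      _ = (m.divisors.card : ℝ) * ((C * (m : ℝ) ^ (1 / 8 : ℝ)) * (m : ℝ) ^ (-(1 / 2) : ℝ)) := by
          rw [sum_const, nsmul_eq_mul]
      _ ≤ (C * (m : ℝ) ^ (1 / 8 : ℝ)) *
          ((C * (m : ℝ) ^ (1 / 8 : ℝ)) * (m : ℝ) ^ (-(1 / 2) : ℝ)) :=
          mul_le_mul_of_nonneg_right (hC2 m hm) (by positivity)
      _ = C ^ 2 * ((m : ℝ) ^ (1 / 8 : ℝ) * (m : ℝ) ^ (1 / 8 : ℝ) * (m : ℝ) ^ (-(1 / 2) : ℝ)) := by
          ring
      _ = _ := by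
          rw [← Real.rpow_add hm0, ← Real.rpow_add hm0]
          norm_num
  · have hm0 : (0 : ℝ) < m := by exact_mod_cast hm
    have hm1 : (1 : ℝ) ≤ m := by exact_mod_cast hm
    have h1 := Pool.Agent.GV.bvw_totient m hm
    have h2 := (tbv3p_omega m hm).trans (hC2 m hm)
    calc (2 : ℝ) ^ m.primeFactors.card / m.totient
        = (2 : ℝ) ^ m.primeFactors.card * (1 / (m.totient : ℝ)) := by ring
      _ ≤ (2 : ℝ) ^ m.primeFactors.card * ((2 : ℝ) ^ m.primeFactors.card / m) :=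
          mul_le_mul_of_nonneg_left h1 (by positivity)
      _ = ((2 : ℝ) ^ m.primeFactors.card * (2 : ℝ) ^ m.primeFactors.card) / m := by ring
      _ ≤ ((C * (m : ℝ) ^ (1 / 8 : ℝ)) * (C * (m : ℝ) ^ (1 / 8 : ℝ))) / m := by
          apply div_le_div_of_nonneg_right _ hm0.le
          exact mul_le_mul h2 h2 (by positivity) (by positivity)
      _ = C ^ 2 * ((m : ℝ) ^ (1 / 8 : ℝ) * (m : ℝ) ^ (1 / 8 : ℝ) * (m : ℝ) ^ (-1 : ℝ)) := by
          rw [Real.rpow_neg_one]; ring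
      _ = C ^ 2 * (m : ℝ) ^ (-(3 / 4) : ℝ) := by
          rw [← Real.rpow_add hm0, ← Real.rpow_add hm0]
          norm_num
      _ ≤ _ := by
          apply mul_le_mul_of_nonneg_left _ (by positivity)
          exact Real.rpow_le_rpow_of_exponent_le hm1 (by norm_num)

private theorem tbv3p_pow (N F U : ℕ) (θ ε c0 : ℝ) (hN : 8 ≤ N) (hθ : θ < 1 / 3)
    (hε0 : 0 < ε) (hε1 : ε ≤ 1 / 4) (hεθ : ε * θ ≤ c0) (hc0 : c0 = (1 - 3 * θ) / 12)
    (hF : (F : ℝ) ≤ (N : ℝ) ^ θ) (hU1 : (N : ℝ) ^ (1 / 3 : ℝ) / 2 ≤ U)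
    (hU2 : (U : ℝ) ≤ (N : ℝ) ^ (1 / 3 : ℝ)) :
    (2 * F : ℝ) ^ (1 / 2 + ε) / Real.sqrt U + (2 * F : ℝ) ^ (3 / 2 + ε) / Real.sqrt N +
      U * (2 * F : ℝ) ^ (2 + ε) / N ≤ 16 * (N : ℝ) ^ (-c0) := by
  have hN0 : (0 : ℝ) < N := by
    have : (8 : ℝ) ≤ N := by exact_mod_cast hN
    linarith
  have hN1 : (1 : ℝ) ≤ N := by
    have : (8 : ℝ) ≤ N := by exact_mod_cast hN
    linarith
  have hF0 : (0 : ℝ) ≤ F := Nat.cast_nonneg F
  -- powers of 2F
  have key : ∀ (s : ℝ) (c : ℕ), 0 ≤ s → s ≤ c → (2 * F : ℝ) ^ s ≤ 2 ^ c * (N : ℝ) ^ (θ * s) := by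
    intro s c hs hsc
    rw [Real.mul_rpow (by norm_num) hF0, Real.rpow_mul hN0.le]
    apply mul_le_mul
    · calc (2 : ℝ) ^ s ≤ (2 : ℝ) ^ (c : ℝ) := Real.rpow_le_rpow_of_exponent_le (by norm_num) hsc
        _ = 2 ^ c := Real.rpow_natCast 2 c
    · exact Real.rpow_le_rpow hF0 hF hs
    · positivity
    · positivity
  have hmono : ∀ s : ℝ, s ≤ -c0 → (N : ℝ) ^ s ≤ (N : ℝ) ^ (-c0) := fun s hs =>
    Real.rpow_le_rpow_of_exponent_le hN1 hs
  have hX : 0 ≤ (N : ℝ) ^ (-c0) := by positivity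
  -- first term
  have t1 : (2 * F : ℝ) ^ (1 / 2 + ε) / Real.sqrt U ≤ 4 * (N : ℝ) ^ (-c0) := by
    have hUs : (N : ℝ) ^ (1 / 6 : ℝ) / 2 ≤ Real.sqrt U := by
      apply Real.le_sqrt_of_sq_le
      have h1 : ((N : ℝ) ^ (1 / 6 : ℝ) / 2) ^ 2 = (N : ℝ) ^ (1 / 3 : ℝ) / 4 := by
        rw [div_pow, ← Real.rpow_natCast ((N : ℝ) ^ (1 / 6 : ℝ)) 2, ← Real.rpow_mul hN0.le]
        norm_num
      rw [h1]
      have : 0 ≤ (N : ℝ) ^ (1 / 3 : ℝ) := by positivity
      linarith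
    have hpos : 0 < (N : ℝ) ^ (1 / 6 : ℝ) / 2 := by positivity
    have h2 := key (1 / 2 + ε) 1 (by linarith) (by norm_num; linarith)
    calc (2 * F : ℝ) ^ (1 / 2 + ε) / Real.sqrt U
        ≤ (2 ^ 1 * (N : ℝ) ^ (θ * (1 / 2 + ε))) / ((N : ℝ) ^ (1 / 6 : ℝ) / 2) :=
          div_le_div₀ (by positivity) h2 hpos hUs
      _ = 4 * (N : ℝ) ^ (θ * (1 / 2 + ε) - 1 / 6) := by
          rw [Real.rpow_sub hN0]
          field_simp
          norm_num
      _ ≤ _ := by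
          apply mul_le_mul_of_nonneg_left _ (by norm_num)
          apply hmono
          nlinarith
  have t2 : (2 * F : ℝ) ^ (3 / 2 + ε) / Real.sqrt N ≤ 4 * (N : ℝ) ^ (-c0) := by
    have h2 := key (3 / 2 + ε) 2 (by linarith) (by norm_num; linarith)
    calc (2 * F : ℝ) ^ (3 / 2 + ε) / Real.sqrt N
        ≤ (2 ^ 2 * (N : ℝ) ^ (θ * (3 / 2 + ε))) / Real.sqrt N :=
          div_le_div_of_nonneg_right h2 (Real.sqrt_nonneg _)
      _ = 4 * (N : ℝ) ^ (θ * (3 / 2 + ε) - 1 / 2) := by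
          rw [Real.rpow_sub hN0, Real.sqrt_eq_rpow]
          ring
      _ ≤ _ := by
          apply mul_le_mul_of_nonneg_left _ (by norm_num)
          apply hmono
          nlinarith
  have t3 : U * (2 * F : ℝ) ^ (2 + ε) / N ≤ 8 * (N : ℝ) ^ (-c0) := by
    have h2 := key (2 + ε) 3 (by linarith) (by norm_num; linarith)
    calc U * (2 * F : ℝ) ^ (2 + ε) / N
        ≤ ((N : ℝ) ^ (1 / 3 : ℝ) * (2 ^ 3 * (N : ℝ) ^ (θ * (2 + ε)))) / N := by
          apply div_le_div_of_nonneg_right _ hN0.le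
          exact mul_le_mul hU2 h2 (by positivity) (by positivity)
      _ = 8 * (N : ℝ) ^ (1 / 3 + θ * (2 + ε) - 1) := by
          rw [Real.rpow_sub hN0, Real.rpow_add hN0, Real.rpow_one]
          ring
      _ ≤ _ := by
          apply mul_le_mul_of_nonneg_left _ (by norm_num)
          apply hmono
          nlinarith
  linarith

/-- the hypothesis on the character sums for one weight -/
private def Tbv3pH (η' : ℝ → ℝ) (C0 : ℕ) : Prop :=
  ∀ X e K U : ℕ, 3 ≤ X → 1 ≤ e → 1 ≤ K →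
    1 ≤ U → U ^ 3 ≤ X → ∑ k ∈ Icc 1 K, ∑ χ ∈ prim (e * k), ‖psiChi η' X χ‖ ≤
      C0 * Real.log X ^ C0 * (1 + Real.log (e * K)) * (X + X * Real.sqrt (e * K ^ 2 / U) +
        e * K ^ 2 * Real.sqrt X + e * K ^ 2 * U * Real.sqrt (e * K))

private theorem tbv3p_K (η' : ℝ → ℝ) (C0 : ℕ) (h4 : Tbv3pH η' C0) (N m n F U e K : ℕ) (ε : ℝ)
    (hN : 8 ≤ N) (hm : 1 ≤ m) (hmn : m * N ≤ n) (hL : 1 ≤ Real.log n) (hFN : F ≤ N)
    (he1 : 1 ≤ e) (hem : e ≤ m) (hε0 : 0 < ε) (hε1 : ε ≤ 1 / 4) (hU1 : 1 ≤ U)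
    (hU3 : U ^ 3 ≤ N) (hK1 : 1 ≤ K) (hK2 : K ≤ 2 * F) :
    (K : ℝ) ^ (-1 / 2 + ε) * ∑ k ∈ Icc 1 K, ∑ χ ∈ prim (e * k), ‖psiChi η' (m * N) χ‖ ≤
      3 * C0 * Real.log n ^ (C0 + 1) * ((m * N : ℝ) +
        m * N * Real.sqrt e * ((2 * F : ℝ) ^ (1 / 2 + ε) / Real.sqrt U) +
        e * Real.sqrt (m * N) * (2 * F : ℝ) ^ (3 / 2 + ε) +
        e * Real.sqrt e * (U * (2 * F : ℝ) ^ (2 + ε))) := by
  have hNr : (8 : ℝ) ≤ N := by exact_mod_cast hN
  have hmr : (1 : ℝ) ≤ m := by exact_mod_cast hm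
  have her : (1 : ℝ) ≤ e := by exact_mod_cast he1
  have hKr : (1 : ℝ) ≤ K := by exact_mod_cast hK1
  have hK0 : (0 : ℝ) < K := by linarith
  have hUr : (1 : ℝ) ≤ U := by exact_mod_cast hU1
  have hKF : (K : ℝ) ≤ 2 * F := by exact_mod_cast hK2
  have hmnr : (m : ℝ) * N ≤ n := by exact_mod_cast hmn
  have hX3 : 3 ≤ m * N := by nlinarith
  have hUX : U ^ 3 ≤ m * N := hU3.trans (by nlinarith)
  have h := h4 (m * N) e K U hX3 he1 hK1 hU1 hUX
  push_cast at h
  have hX0 : (0 : ℝ) < m * N := by positivity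
  have hX1 : (1 : ℝ) ≤ m * N := by nlinarith
  have hlX : Real.log (m * N) ≤ Real.log n := Real.log_le_log hX0 hmnr
  have hlX0 : 0 ≤ Real.log (m * N) := Real.log_nonneg hX1
  have heK : (e : ℝ) * K ≤ 2 * n := by
    have h1 : (e : ℝ) ≤ m := by exact_mod_cast hem
    have h2 : (F : ℝ) ≤ N := by exact_mod_cast hFN
    calc (e : ℝ) * K ≤ m * (2 * N) := by
          apply mul_le_mul h1 (by linarith) (by positivity) (by positivity)
      _ ≤ _ := by nlinarith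
  have hn0 : (0 : ℝ) < n := by linarith
  have hleK : 1 + Real.log (e * K) ≤ 3 * Real.log n := by
    have h1 : Real.log (e * K) ≤ Real.log (2 * n) := Real.log_le_log (by positivity) heK
    rw [Real.log_mul (by norm_num) hn0.ne'] at h1
    have h2 : Real.log 2 ≤ 1 := by
      have := Real.log_two_lt_d9
      linarith
    linarith
  have hleK0 : 0 ≤ 1 + Real.log (e * K) := by
    have : 0 ≤ Real.log (e * K) := Real.log_nonneg (by nlinarith)
    linarith
  -- the four terms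
  have hs1 : Real.sqrt (e * K ^ 2 / U) = Real.sqrt e * K / Real.sqrt U := by
    rw [Real.sqrt_div (by positivity), Real.sqrt_mul (by positivity), Real.sqrt_sq hK0.le]
  have hs2 : Real.sqrt (e * K) = Real.sqrt e * (K : ℝ) ^ (1 / 2 : ℝ) := by
    rw [Real.sqrt_mul (by positivity), Real.sqrt_eq_rpow K]
  have hmono : ∀ s : ℝ, 0 ≤ s → (K : ℝ) ^ s ≤ (2 * F : ℝ) ^ s := fun s hs =>
    Real.rpow_le_rpow hK0.le hKF hs
  have p0 : (K : ℝ) ^ (-1 / 2 + ε) ≤ 1 := by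
    apply Real.rpow_le_one_of_one_le_of_nonpos hKr
    linarith
  have p1 : (K : ℝ) ^ (-1 / 2 + ε) * K = (K : ℝ) ^ (1 / 2 + ε) := by
    have : (1 / 2 + ε) = (-1 / 2 + ε) + 1 := by ring
    rw [this, Real.rpow_add hK0 (-1 / 2 + ε) 1, Real.rpow_one]
  have p2 : (K : ℝ) ^ (-1 / 2 + ε) * (K : ℝ) ^ 2 = (K : ℝ) ^ (3 / 2 + ε) := by
    have : (3 / 2 + ε) = (-1 / 2 + ε) + 2 := by ring
    rw [this, Real.rpow_add hK0 (-1 / 2 + ε) 2, Real.rpow_two]
  have p3 : (K : ℝ) ^ (-1 / 2 + ε) * ((K : ℝ) ^ 2 * (K : ℝ) ^ (1 / 2 : ℝ)) =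
      (K : ℝ) ^ (2 + ε) := by
    have : (2 + ε) = (-1 / 2 + ε) + (2 + 1 / 2) := by ring
    rw [this, Real.rpow_add hK0 (-1 / 2 + ε) (2 + 1 / 2), Real.rpow_add hK0 2 (1 / 2),
      Real.rpow_two]
  set P0 := (K : ℝ) ^ (-1 / 2 + ε) with hP0
  have hP0' : 0 ≤ P0 := by positivity
  have hsum : P0 * ((m : ℝ) * N + m * N * Real.sqrt (e * K ^ 2 / U) +
        e * K ^ 2 * Real.sqrt (m * N) + e * K ^ 2 * U * Real.sqrt (e * K)) ≤
      ((m * N : ℝ) +
        m * N * Real.sqrt e * ((2 * F : ℝ) ^ (1 / 2 + ε) / Real.sqrt U) +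
        e * Real.sqrt (m * N) * (2 * F : ℝ) ^ (3 / 2 + ε) +
        e * Real.sqrt e * (U * (2 * F : ℝ) ^ (2 + ε))) := by
    rw [hs1, hs2]
    have e1 : P0 * ((m : ℝ) * N + m * N * (Real.sqrt e * K / Real.sqrt U) +
        e * K ^ 2 * Real.sqrt (m * N) + e * K ^ 2 * U * (Real.sqrt e * (K : ℝ) ^ (1 / 2 : ℝ))) =
        P0 * (m * N) + m * N * Real.sqrt e * ((P0 * K) / Real.sqrt U) +
        e * Real.sqrt (m * N) * (P0 * (K : ℝ) ^ 2) +
        e * Real.sqrt e * (U * (P0 * ((K : ℝ) ^ 2 * (K : ℝ) ^ (1 / 2 : ℝ)))) := by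
      ring
    rw [e1, p1, p2, p3]
    have q0 : P0 * (m * N) ≤ m * N := by nlinarith
    have q1 : m * N * Real.sqrt e * ((K : ℝ) ^ (1 / 2 + ε) / Real.sqrt U) ≤
        m * N * Real.sqrt e * ((2 * F : ℝ) ^ (1 / 2 + ε) / Real.sqrt U) := by
      apply mul_le_mul_of_nonneg_left _ (by positivity)
      exact div_le_div_of_nonneg_right (hmono _ (by linarith)) (Real.sqrt_nonneg _)
    have q2 : e * Real.sqrt (m * N) * (K : ℝ) ^ (3 / 2 + ε) ≤
        e * Real.sqrt (m * N) * (2 * F : ℝ) ^ (3 / 2 + ε) :=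
      mul_le_mul_of_nonneg_left (hmono _ (by linarith)) (by positivity)
    have q3 : e * Real.sqrt e * (U * (K : ℝ) ^ (2 + ε)) ≤
        e * Real.sqrt e * (U * (2 * F : ℝ) ^ (2 + ε)) := by
      apply mul_le_mul_of_nonneg_left _ (by positivity)
      exact mul_le_mul_of_nonneg_left (hmono _ (by linarith)) (by positivity)
    linarith
  set B := ((m * N : ℝ) +
        m * N * Real.sqrt e * ((2 * F : ℝ) ^ (1 / 2 + ε) / Real.sqrt U) +
        e * Real.sqrt (m * N) * (2 * F : ℝ) ^ (3 / 2 + ε) +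
        e * Real.sqrt e * (U * (2 * F : ℝ) ^ (2 + ε))) with hB
  have hB0 : 0 ≤ B := by positivity
  have hl1 : Real.log (m * N) ^ C0 ≤ Real.log n ^ C0 := pow_le_pow_left₀ hlX0 hlX C0
  have hn1 : 0 ≤ Real.log n := by linarith
  calc P0 * ∑ k ∈ Icc 1 K, ∑ χ ∈ prim (e * k), ‖psiChi η' (m * N) χ‖
      ≤ P0 * (C0 * Real.log (m * N) ^ C0 * (1 + Real.log (e * K)) *
          (m * N + m * N * Real.sqrt (e * K ^ 2 / U) +
        e * K ^ 2 * Real.sqrt (m * N) + e * K ^ 2 * U * Real.sqrt (e * K))) :=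
        mul_le_mul_of_nonneg_left h hP0'
    _ = (C0 * (Real.log (m * N) ^ C0 * (1 + Real.log (e * K)))) * (P0 *
          (m * N + m * N * Real.sqrt (e * K ^ 2 / U) +
        e * K ^ 2 * Real.sqrt (m * N) + e * K ^ 2 * U * Real.sqrt (e * K))) := by ring
    _ ≤ (C0 * (Real.log n ^ C0 * (3 * Real.log n))) * B := by
        apply mul_le_mul _ hsum (by positivity) (by positivity)
        apply mul_le_mul_of_nonneg_left _ (Nat.cast_nonneg _)
        exact mul_le_mul hl1 hleK hleK0 (by positivity)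
    _ = _ := by ring

private theorem tbv3p_one (η' : ℝ → ℝ) (C0 : ℕ) (h4 : Tbv3pH η' C0) (C2 : ℝ) (hC2 : 0 < C2)
    (N m n F U e : ℕ) (ε : ℝ)
    (hN : 8 ≤ N) (hm : 1 ≤ m) (hmn : m * N ≤ n) (hL : 1 ≤ Real.log n) (hF1 : 1 ≤ F)
    (hFN : F ≤ N) (he1 : 1 ≤ e) (hem : e ≤ m) (hε0 : 0 < ε) (hε1 : ε ≤ 1 / 4) (hU1 : 1 ≤ U)
    (hU3 : U ^ 3 ≤ N) :
    ∑ k ∈ Icc 1 F, (k : ℝ) ^ (-1 + ε) * (C2 * (Real.sqrt ((e * k : ℕ) : ℝ) *
        (1 + Real.log ((e * k : ℕ) : ℝ))) * ∑ χ ∈ prim (e * k), ‖psiChi η' (m * N) χ‖) ≤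
      48 * C2 * C0 * Real.log n ^ (C0 + 3) * (m * N) * (Real.sqrt e + e *
        ((2 * F : ℝ) ^ (1 / 2 + ε) / Real.sqrt U + (2 * F : ℝ) ^ (3 / 2 + ε) / Real.sqrt N +
          U * (2 * F : ℝ) ^ (2 + ε) / N)) := by
  have hNr : (8 : ℝ) ≤ N := by exact_mod_cast hN
  have hN0 : (0 : ℝ) < N := by linarith
  have hmr : (1 : ℝ) ≤ m := by exact_mod_cast hm
  have hm0 : (0 : ℝ) < m := by linarith
  have her : (1 : ℝ) ≤ e := by exact_mod_cast he1
  have her0 : (0 : ℝ) < e := by linarith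
  have hemr : (e : ℝ) ≤ m := by exact_mod_cast hem
  have hFr : (1 : ℝ) ≤ F := by exact_mod_cast hF1
  have hFNr : (F : ℝ) ≤ N := by exact_mod_cast hFN
  have hmnr : (m : ℝ) * N ≤ n := by exact_mod_cast hmn
  have hn0 : (0 : ℝ) < n := lt_of_lt_of_le (by positivity) hmnr
  set Ln := Real.log n with hLn
  have hLn0 : 0 ≤ Ln := by linarith
  set a : ℕ → ℝ := fun k => ∑ χ ∈ prim (e * k), ‖psiChi η' (m * N) χ‖ with ha
  have ha0 : ∀ k, 0 ≤ a k := fun k => sum_nonneg fun _ _ => norm_nonneg _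
  -- step 1
  have s1 : ∀ k ∈ Icc 1 F, (k : ℝ) ^ (-1 + ε) * (C2 * (Real.sqrt ((e * k : ℕ) : ℝ) *
        (1 + Real.log ((e * k : ℕ) : ℝ))) * a k) ≤
      (C2 * (2 * Ln) * Real.sqrt e) * ((k : ℝ) ^ (-1 / 2 + ε) * a k) := by
    intro k hk
    rw [mem_Icc] at hk
    have hk1 : (1 : ℝ) ≤ k := by exact_mod_cast hk.1
    have hk0 : (0 : ℝ) < k := by linarith
    have hkF : (k : ℝ) ≤ F := by exact_mod_cast hk.2
    push_cast
    have h1 : Real.sqrt (e * k) = Real.sqrt e * (k : ℝ) ^ (1 / 2 : ℝ) := by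
      rw [Real.sqrt_mul (by positivity), Real.sqrt_eq_rpow (k : ℝ)]
    have h2 : (k : ℝ) ^ (-1 + ε) * (k : ℝ) ^ (1 / 2 : ℝ) = (k : ℝ) ^ (-1 / 2 + ε) := by
      rw [← Real.rpow_add hk0]
      congr 1
      ring
    have h3 : 1 + Real.log (e * k) ≤ 2 * Ln := by
      have h4 : (e : ℝ) * k ≤ n := by
        calc (e : ℝ) * k ≤ m * N := mul_le_mul hemr (by linarith) hk0.le hm0.le
          _ ≤ _ := hmnr
      have h5 : Real.log (e * k) ≤ Ln := Real.log_le_log (by positivity) h4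
      linarith
    have h6 : 0 ≤ (k : ℝ) ^ (-1 / 2 + ε) := by positivity
    calc (k : ℝ) ^ (-1 + ε) * (C2 * (Real.sqrt (e * k) * (1 + Real.log (e * k))) * a k)
        = (C2 * Real.sqrt e * (((k : ℝ) ^ (-1 + ε) * (k : ℝ) ^ (1 / 2 : ℝ)) * a k)) *
            (1 + Real.log (e * k)) := by
          rw [h1]; ring
      _ = (C2 * Real.sqrt e * ((k : ℝ) ^ (-1 / 2 + ε) * a k)) * (1 + Real.log (e * k)) := by
          rw [h2]
      _ ≤ (C2 * Real.sqrt e * ((k : ℝ) ^ (-1 / 2 + ε) * a k)) * (2 * Ln) := by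
          apply mul_le_mul_of_nonneg_left h3
          have := ha0 k
          positivity
      _ = _ := by ring
  -- step 2
  have s2 := tbv3p_dyad F (-1 / 2 + ε) (by linarith) (by linarith) a ha0
  -- step 3
  set B := ((m * N : ℝ) +
        m * N * Real.sqrt e * ((2 * F : ℝ) ^ (1 / 2 + ε) / Real.sqrt U) +
        e * Real.sqrt (m * N) * (2 * F : ℝ) ^ (3 / 2 + ε) +
        e * Real.sqrt e * (U * (2 * F : ℝ) ^ (2 + ε))) with hB
  have hB0 : 0 ≤ B := by positivity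
  have s3 : ∀ i ∈ range (Nat.log 2 F + 2),
      2 * ((2 : ℝ) ^ i) ^ (-1 / 2 + ε) * ∑ k ∈ Icc 1 (2 ^ i), a k ≤
        2 * (3 * C0 * Ln ^ (C0 + 1) * B) := by
    intro i hi
    rw [mem_range] at hi
    have hi2 : 2 ^ i ≤ 2 * F := by
      calc 2 ^ i ≤ 2 ^ (Nat.log 2 F + 1) := Nat.pow_le_pow_right (by norm_num) (by omega)
        _ = 2 * 2 ^ Nat.log 2 F := by rw [pow_succ]; ring
        _ ≤ 2 * F := Nat.mul_le_mul_left 2 (Nat.pow_log_le_self 2 (by omega))
    have h := tbv3p_K η' C0 h4 N m n F U e (2 ^ i) ε hN hm hmn hL hFN he1 hem hε0 hε1 hU1 hU3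
      Nat.one_le_two_pow hi2
    rw [← hLn, ← hB] at h
    push_cast at h
    rw [mul_assoc]
    exact mul_le_mul_of_nonneg_left h (by norm_num)
  have s4 : ((Nat.log 2 F + 2 : ℕ) : ℝ) ≤ 4 * Ln := by
    have h1 : (2 : ℝ) ^ Nat.log 2 F ≤ F := by
      exact_mod_cast Nat.pow_log_le_self 2 (by omega : F ≠ 0)
    have h2 : (F : ℝ) ≤ n := by nlinarith
    have h3 := Real.log_le_log (by positivity) (h1.trans h2)
    rw [Real.log_pow, ← hLn] at h3
    have h4 : (0.69 : ℝ) < Real.log 2 := by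
      have := Real.log_two_gt_d9; linarith
    push_cast
    have h5 : (0 : ℝ) ≤ (Nat.log 2 F : ℝ) := Nat.cast_nonneg _
    nlinarith
  have s5 : Real.sqrt e * B ≤ (m * N) * (Real.sqrt e + e *
        ((2 * F : ℝ) ^ (1 / 2 + ε) / Real.sqrt U + (2 * F : ℝ) ^ (3 / 2 + ε) / Real.sqrt N +
          U * (2 * F : ℝ) ^ (2 + ε) / N)) := by
    have he2 : Real.sqrt e * Real.sqrt e = e := Real.mul_self_sqrt her0.le
    have hN2 : Real.sqrt N * Real.sqrt N = N := Real.mul_self_sqrt hN0.le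
    have hNs : 0 < Real.sqrt N := Real.sqrt_pos.mpr hN0
    have h1 : Real.sqrt e * Real.sqrt (m * N) ≤ m * N / Real.sqrt N := by
      rw [← Real.sqrt_mul her0.le, le_div_iff₀ hNs, ← Real.sqrt_mul (by positivity)]
      apply Real.sqrt_le_iff.mpr
      refine ⟨by positivity, ?_⟩
      calc (e : ℝ) * (m * N) * N ≤ m * (m * N) * N := by
            apply mul_le_mul_of_nonneg_right _ hN0.le
            exact mul_le_mul_of_nonneg_right hemr (by positivity)
        _ = _ := by ring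
    have h2 : (e : ℝ) * e ≤ e * (m * N / N) := by
      have : (m : ℝ) * N / N = m := by field_simp
      rw [this]
      exact mul_le_mul_of_nonneg_left hemr her0.le
    have e1 : Real.sqrt e * B = m * N * Real.sqrt e +
        m * N * (Real.sqrt e * Real.sqrt e) * ((2 * F : ℝ) ^ (1 / 2 + ε) / Real.sqrt U) +
        e * (Real.sqrt e * Real.sqrt (m * N)) * (2 * F : ℝ) ^ (3 / 2 + ε) +
        (e * (Real.sqrt e * Real.sqrt e)) * (U * (2 * F : ℝ) ^ (2 + ε)) := by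
      rw [hB]; ring
    rw [e1, he2]
    have q2 : e * (Real.sqrt e * Real.sqrt (m * N)) * (2 * F : ℝ) ^ (3 / 2 + ε) ≤
        e * (m * N / Real.sqrt N) * (2 * F : ℝ) ^ (3 / 2 + ε) := by
      apply mul_le_mul_of_nonneg_right _ (by positivity)
      exact mul_le_mul_of_nonneg_left h1 her0.le
    have q3 : (e * e) * (U * (2 * F : ℝ) ^ (2 + ε)) ≤
        (e * (m * N / N)) * (U * (2 * F : ℝ) ^ (2 + ε)) :=
      mul_le_mul_of_nonneg_right h2 (by positivity)
    calc _ ≤ m * N * Real.sqrt e +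
        m * N * e * ((2 * F : ℝ) ^ (1 / 2 + ε) / Real.sqrt U) +
        e * (m * N / Real.sqrt N) * (2 * F : ℝ) ^ (3 / 2 + ε) +
        (e * (m * N / N)) * (U * (2 * F : ℝ) ^ (2 + ε)) := by linarith
      _ = _ := by ring
  calc ∑ k ∈ Icc 1 F, (k : ℝ) ^ (-1 + ε) * (C2 * (Real.sqrt ((e * k : ℕ) : ℝ) *
        (1 + Real.log ((e * k : ℕ) : ℝ))) * a k)
      ≤ ∑ k ∈ Icc 1 F, (C2 * (2 * Ln) * Real.sqrt e) * ((k : ℝ) ^ (-1 / 2 + ε) * a k) :=
        sum_le_sum s1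
    _ = (C2 * (2 * Ln) * Real.sqrt e) * ∑ k ∈ Icc 1 F, (k : ℝ) ^ (-1 / 2 + ε) * a k := by
        rw [mul_sum]
    _ ≤ (C2 * (2 * Ln) * Real.sqrt e) * ∑ i ∈ range (Nat.log 2 F + 2),
          2 * ((2 : ℝ) ^ i) ^ (-1 / 2 + ε) * ∑ k ∈ Icc 1 (2 ^ i), a k :=
        mul_le_mul_of_nonneg_left s2 (by positivity)
    _ ≤ (C2 * (2 * Ln) * Real.sqrt e) * ∑ i ∈ range (Nat.log 2 F + 2),
          2 * (3 * C0 * Ln ^ (C0 + 1) * B) :=
        mul_le_mul_of_nonneg_left (sum_le_sum s3) (by positivity)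
    _ = (C2 * (2 * Ln) * Real.sqrt e) * (((Nat.log 2 F + 2 : ℕ) : ℝ) *
          (2 * (3 * C0 * Ln ^ (C0 + 1) * B))) := by
        rw [sum_const, card_range, nsmul_eq_mul]
    _ ≤ (C2 * (2 * Ln) * Real.sqrt e) * ((4 * Ln) * (2 * (3 * C0 * Ln ^ (C0 + 1) * B))) := by
        apply mul_le_mul_of_nonneg_left _ (by positivity)
        exact mul_le_mul_of_nonneg_right s4 (by positivity)
    _ = (48 * C2 * C0 * Ln ^ (C0 + 3)) * (Real.sqrt e * B) := by ring
    _ ≤ (48 * C2 * C0 * Ln ^ (C0 + 3)) * ((m * N) * (Real.sqrt e + e *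
        ((2 * F : ℝ) ^ (1 / 2 + ε) / Real.sqrt U + (2 * F : ℝ) ^ (3 / 2 + ε) / Real.sqrt N +
          U * (2 * F : ℝ) ^ (2 + ε) / N))) :=
        mul_le_mul_of_nonneg_left s5 (by positivity)
    _ = _ := by ring

/-! ### Assembly -/

private noncomputable def tbv3p_G (η : ℝ → ℝ) (C2 : ℝ) (X : ℕ) (r : ℕ) : ℝ :=
  C2 * (Real.sqrt r * (1 + Real.log r)) * ∑ χ ∈ prim r, ‖psiChi (etaR η) X χ‖

private noncomputable def tbv3p_E (η : ℝ → ℝ) (C1 C2 L : ℝ) (N m f : ℕ) : ℝ :=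
  C1 * (m * (1 + L) ^ 2 + m * N * 2 ^ (m * f).primeFactors.card / ((m * f).totient : ℝ)) +
    1 / ((m * f).totient : ℝ) * ∑ r ∈ (m * f).divisors.erase 1,
      2 ^ ((m / Nat.gcd r m).primeFactors.card + f.primeFactors.card) * tbv3p_G η C2 (m * N) r

private theorem tbv3p_G_nonneg (η : ℝ → ℝ) (C2 : ℝ) (hC2 : 0 < C2) (X r : ℕ) :
    0 ≤ tbv3p_G η C2 X r := by
  unfold tbv3p_G
  have h1 : 0 ≤ Real.log r := Real.log_natCast_nonneg r
  have h2 : 0 ≤ ∑ χ ∈ prim r, ‖psiChi (etaR η) X χ‖ := sum_nonneg fun _ _ => norm_nonneg _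
  positivity

private theorem tbv3p_E_nonneg (η : ℝ → ℝ) (C1 C2 L : ℝ) (hC1 : 0 < C1) (hC2 : 0 < C2)
    (N m f : ℕ) : 0 ≤ tbv3p_E η C1 C2 L N m f := by
  unfold tbv3p_E
  have h2 : 0 ≤ ∑ r ∈ (m * f).divisors.erase 1,
      2 ^ ((m / Nat.gcd r m).primeFactors.card + f.primeFactors.card) *
        tbv3p_G η C2 (m * N) r := by
    apply sum_nonneg
    intro r _
    have := tbv3p_G_nonneg η C2 hC2 (m * N) r
    positivity
  positivity

/-- the sum of the error terms of `St_TRed` -/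
private theorem tbv3p_ab (C1 Cd : ℝ) (hC1 : 0 < C1) (hCd : 1 ≤ Cd)
    (d2 : ∀ m : ℕ, 1 ≤ m → (2 : ℝ) ^ m.primeFactors.card / m.totient ≤
      Cd * (m : ℝ) ^ (-(1 / 4) : ℝ)) (θ c0 : ℝ) (hθ : θ < 1 / 3) (hc0 : c0 = (1 - 3 * θ) / 12)
    (K N m n F : ℕ) (hN : 8 ≤ N) (hm : 1 ≤ m) (hmn : m * N ≤ n) (hL : 1 ≤ Real.log n)
    (hF1 : 1 ≤ F) (hFN : F ≤ N) (hF : (F : ℝ) ≤ (N : ℝ) ^ θ) :
    ∑ f ∈ Icc 1 F, (K : ℝ) ^ f.primeFactors.card *
      (C1 * (m * (1 + Real.log n) ^ 2 +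
        m * N * 2 ^ (m * f).primeFactors.card / ((m * f).totient : ℝ))) ≤
    C1 * 2 ^ (K + 2) * Real.log n ^ (K + 2) * (m * N) * (N : ℝ) ^ (-c0) +
      C1 * Cd * 2 ^ (4 * K) * Real.log n ^ (4 * K) * (m * N) * (m : ℝ) ^ (-(1 / 4) : ℝ) := by
  have hNr : (8 : ℝ) ≤ N := by exact_mod_cast hN
  have hN0 : (0 : ℝ) < N := by linarith
  have hN1 : (1 : ℝ) ≤ N := by linarith
  have hmr : (1 : ℝ) ≤ m := by exact_mod_cast hm
  have hm0 : (0 : ℝ) < m := by linarith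
  have hFr : (1 : ℝ) ≤ F := by exact_mod_cast hF1
  have hF0 : (0 : ℝ) < F := by linarith
  have hFNr : (F : ℝ) ≤ N := by exact_mod_cast hFN
  have hmnr : (m : ℝ) * N ≤ n := by exact_mod_cast hmn
  have hn0 : (0 : ℝ) < n := lt_of_lt_of_le (by positivity) hmnr
  set Ln := Real.log n with hLn
  have hLn0 : 0 ≤ Ln := by linarith
  have hlF : 1 + Real.log F ≤ 2 * Ln := by
    have h1 : (F : ℝ) ≤ n := by nlinarith
    have h2 : Real.log F ≤ Ln := Real.log_le_log hF0 h1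
    linarith
  have hlF0 : 0 ≤ 1 + Real.log F := by
    have := Real.log_nonneg hFr
    linarith
  have ha : ∑ f ∈ Icc 1 F, (K : ℝ) ^ f.primeFactors.card ≤ F * (2 * Ln) ^ K := by
    have h1 : ∀ f ∈ Icc 1 F, (K : ℝ) ^ f.primeFactors.card ≤
        F * ((K : ℝ) ^ f.primeFactors.card / f) := by
      intro f hf
      rw [mem_Icc] at hf
      have hf0 : (0 : ℝ) < f := by exact_mod_cast hf.1
      have hfF : (f : ℝ) ≤ F := by exact_mod_cast hf.2
      have h2 : 0 ≤ (K : ℝ) ^ f.primeFactors.card := by positivity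
      calc (K : ℝ) ^ f.primeFactors.card = f * ((K : ℝ) ^ f.primeFactors.card / f) := by
            field_simp
        _ ≤ _ := mul_le_mul_of_nonneg_right hfF (by positivity)
    calc _ ≤ ∑ f ∈ Icc 1 F, F * ((K : ℝ) ^ f.primeFactors.card / f) := sum_le_sum h1
      _ = F * ∑ f ∈ Icc 1 F, (K : ℝ) ^ f.primeFactors.card / f := by rw [mul_sum]
      _ ≤ F * (1 + Real.log F) ^ K :=
          mul_le_mul_of_nonneg_left (Pool.Agent.GV.bvw_omega_sum F hF1 K) hF0.le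
      _ ≤ _ := mul_le_mul_of_nonneg_left (pow_le_pow_left₀ hlF0 hlF K) hF0.le
  have hFc : (F : ℝ) ≤ N * (N : ℝ) ^ (-c0) := by
    calc (F : ℝ) ≤ (N : ℝ) ^ θ := hF
      _ ≤ (N : ℝ) ^ (1 + -c0) := Real.rpow_le_rpow_of_exponent_le hN1 (by linarith)
      _ = _ := by rw [Real.rpow_add hN0, Real.rpow_one]
  have hb : ∀ f ∈ Icc 1 F, (K : ℝ) ^ f.primeFactors.card *
      (2 ^ (m * f).primeFactors.card / ((m * f).totient : ℝ)) ≤
      (Cd * (m : ℝ) ^ (-(1 / 4) : ℝ)) * (((4 * K : ℕ) : ℝ) ^ f.primeFactors.card / f) := by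
    intro f hf
    rw [mem_Icc] at hf
    have hf0 : (0 : ℝ) < f := by exact_mod_cast hf.1
    have hφm : (0 : ℝ) < m.totient := by exact_mod_cast Nat.totient_pos.mpr hm
    have hφf : (0 : ℝ) < f.totient := by exact_mod_cast Nat.totient_pos.mpr hf.1
    have h1 : (2 : ℝ) ^ (m * f).primeFactors.card ≤
        2 ^ m.primeFactors.card * 2 ^ f.primeFactors.card := by
      rw [← pow_add]
      apply pow_le_pow_right₀ (by norm_num)
      rw [Nat.primeFactors_mul (by omega) (by omega)]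
      exact card_union_le _ _
    have h2 : (m.totient : ℝ) * f.totient ≤ (m * f).totient := by
      exact_mod_cast Nat.totient_super_multiplicative m f
    have h3 : (2 : ℝ) ^ (m * f).primeFactors.card / ((m * f).totient : ℝ) ≤
        (2 ^ m.primeFactors.card / (m.totient : ℝ)) *
          (2 ^ f.primeFactors.card * (1 / (f.totient : ℝ))) := by
      calc (2 : ℝ) ^ (m * f).primeFactors.card / ((m * f).totient : ℝ)
          ≤ (2 ^ m.primeFactors.card * 2 ^ f.primeFactors.card) /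
            ((m.totient : ℝ) * f.totient) :=
            div_le_div₀ (by positivity) h1 (by positivity) h2
        _ = _ := by
            field_simp
    have h4 := Pool.Agent.GV.bvw_totient f hf.1
    calc (K : ℝ) ^ f.primeFactors.card *
      (2 ^ (m * f).primeFactors.card / ((m * f).totient : ℝ))
        ≤ (K : ℝ) ^ f.primeFactors.card * ((2 ^ m.primeFactors.card / (m.totient : ℝ)) *
          (2 ^ f.primeFactors.card * (1 / (f.totient : ℝ)))) :=
          mul_le_mul_of_nonneg_left h3 (by positivity)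
      _ ≤ (K : ℝ) ^ f.primeFactors.card * ((Cd * (m : ℝ) ^ (-(1 / 4) : ℝ)) *
          (2 ^ f.primeFactors.card * (2 ^ f.primeFactors.card / f))) := by
          apply mul_le_mul_of_nonneg_left _ (by positivity)
          apply mul_le_mul (d2 m hm) _ (by positivity) (by positivity)
          exact mul_le_mul_of_nonneg_left h4 (by positivity)
      _ = _ := by
          push_cast
          rw [mul_pow]
          have : (4 : ℝ) ^ f.primeFactors.card =
              2 ^ f.primeFactors.card * 2 ^ f.primeFactors.card := by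
            rw [← mul_pow]; norm_num
          rw [this]
          ring
  have hb2 : ∑ f ∈ Icc 1 F, (K : ℝ) ^ f.primeFactors.card *
      (2 ^ (m * f).primeFactors.card / ((m * f).totient : ℝ)) ≤
      (Cd * (m : ℝ) ^ (-(1 / 4) : ℝ)) * (2 * Ln) ^ (4 * K) := by
    calc _ ≤ ∑ f ∈ Icc 1 F, (Cd * (m : ℝ) ^ (-(1 / 4) : ℝ)) *
          (((4 * K : ℕ) : ℝ) ^ f.primeFactors.card / f) := sum_le_sum hb
      _ = (Cd * (m : ℝ) ^ (-(1 / 4) : ℝ)) *
          ∑ f ∈ Icc 1 F, ((4 * K : ℕ) : ℝ) ^ f.primeFactors.card / f := by rw [mul_sum]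
      _ ≤ (Cd * (m : ℝ) ^ (-(1 / 4) : ℝ)) * (1 + Real.log F) ^ (4 * K) :=
          mul_le_mul_of_nonneg_left (Pool.Agent.GV.bvw_omega_sum F hF1 (4 * K)) (by positivity)
      _ ≤ _ := mul_le_mul_of_nonneg_left (pow_le_pow_left₀ hlF0 hlF _) (by positivity)
  have e1 : ∑ f ∈ Icc 1 F, (K : ℝ) ^ f.primeFactors.card *
      (C1 * (m * (1 + Ln) ^ 2 +
        m * N * 2 ^ (m * f).primeFactors.card / ((m * f).totient : ℝ))) =
      C1 * (m * (1 + Ln) ^ 2) * ∑ f ∈ Icc 1 F, (K : ℝ) ^ f.primeFactors.card +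
      C1 * (m * N) * ∑ f ∈ Icc 1 F, (K : ℝ) ^ f.primeFactors.card *
        (2 ^ (m * f).primeFactors.card / ((m * f).totient : ℝ)) := by
    rw [mul_sum, mul_sum, ← sum_add_distrib]
    refine sum_congr rfl fun f _ => ?_
    ring
  rw [e1]
  have hX0 : 0 < (N : ℝ) ^ (-c0) := by positivity
  apply add_le_add
  · calc C1 * (m * (1 + Ln) ^ 2) * ∑ f ∈ Icc 1 F, (K : ℝ) ^ f.primeFactors.card
        ≤ C1 * (m * (2 * Ln) ^ 2) * ((N * (N : ℝ) ^ (-c0)) * (2 * Ln) ^ K) := by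
          apply mul_le_mul
          · apply mul_le_mul_of_nonneg_left _ hC1.le
            apply mul_le_mul_of_nonneg_left _ hm0.le
            apply pow_le_pow_left₀ (by linarith)
            linarith
          · exact ha.trans (mul_le_mul_of_nonneg_right hFc (by positivity))
          · positivity
          · positivity
      _ = _ := by
          rw [mul_pow, mul_pow]
          ring
  · calc C1 * (m * N) * ∑ f ∈ Icc 1 F, (K : ℝ) ^ f.primeFactors.card *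
        (2 ^ (m * f).primeFactors.card / ((m * f).totient : ℝ))
        ≤ C1 * (m * N) * ((Cd * (m : ℝ) ^ (-(1 / 4) : ℝ)) * (2 * Ln) ^ (4 * K)) :=
          mul_le_mul_of_nonneg_left hb2 (by positivity)
      _ = _ := by
          rw [mul_pow]
          ring

private theorem tbv3p_small (L B : ℝ) (x s t : ℝ) (k : ℕ) (hL : 1 ≤ L) (hB : L ^ B ≤ x)
    (hs : 0 < s) (hst : s ≤ t) (hk : (k : ℝ) ≤ B * s) (hB0 : 0 ≤ B) :
    x ^ (-t) ≤ 1 / L ^ k := by
  have hL0 : 0 < L := by linarith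
  have hx1 : 1 ≤ x := by
    refine le_trans ?_ hB
    exact Real.one_le_rpow hL hB0
  have hx0 : 0 < x := by linarith
  calc x ^ (-t) ≤ x ^ (-s) := Real.rpow_le_rpow_of_exponent_le hx1 (by linarith)
    _ ≤ (L ^ B) ^ (-s) := Real.rpow_le_rpow_of_nonpos (by positivity) hB (by linarith)
    _ = L ^ (-(B * s)) := by
        rw [← Real.rpow_mul hL0.le]
        congr 1
        ring
    _ ≤ L ^ (-(k : ℝ)) := Real.rpow_le_rpow_of_exponent_le hL (by linarith)
    _ = 1 / L ^ k := by rw [Real.rpow_neg hL0.le, Real.rpow_natCast, one_div]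

/-- keep this signature -/
theorem thm_TBV3P (h1 : St_TRed) (h2 : St_JB) (h3 : St_TSum) (h4 : St_LCm) : St_TBV3P := by
  intro η hη θ κ hθ0 hθ hκ
  set K : ℕ := 1 with hK
  obtain ⟨C1, hC1, h1'⟩ := h1 η hη
  obtain ⟨C2, hC2, h2'⟩ := h2
  obtain ⟨C0, h4'⟩ := h4 (etaR η) (abv_wt η hη)
  obtain ⟨Cd, hCd, d1, d2⟩ := tbv3p_div2
  set c0 : ℝ := (1 - 3 * θ) / 12 with hc0
  have hc0pos : 0 < c0 := by rw [hc0]; linarith
  set ε : ℝ := min (1 / 4) (c0 / θ) with hε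
  have hε0 : 0 < ε := lt_min (by norm_num) (by positivity)
  have hε1 : ε ≤ 1 / 4 := min_le_left _ _
  have hεθ : ε * θ ≤ c0 := by
    have h : ε ≤ c0 / θ := min_le_right _ _
    rwa [le_div_iff₀ hθ0] at h
  obtain ⟨C3, h3'⟩ := h3 K ε hε0
  set c1 : ℝ := min (κ * c0) (κ / 4) / 2 with hc1
  have hc1pos : 0 < c1 := by
    have h5 : 0 < min (κ * c0) (κ / 4) := lt_min (by positivity) (by positivity)
    rw [hc1]; linarith
  have hc1a : 2 * c1 ≤ κ * c0 := by
    have h5 : min (κ * c0) (κ / 4) ≤ κ * c0 := min_le_left _ _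
    rw [hc1]; linarith
  have hc1b : 2 * c1 ≤ κ / 4 := by
    have h5 : min (κ * c0) (κ / 4) ≤ κ / 4 := min_le_right _ _
    rw [hc1]; linarith
  set k : ℕ := C3 + C0 + 5 * K + 10 with hk
  set P : ℝ := C1 * 2 ^ (K + 2) + C1 * Cd * 2 ^ (4 * K) +
    C3 * 2 ^ C3 * (48 * C2 * C0) * (Cd + 64) with hP
  have hP0 : 0 ≤ P := by positivity
  refine ⟨c1, hc1pos, ?_⟩
  have htend : Tendsto (fun n : ℕ => Real.log (n : ℝ)) atTop atTop :=
    Real.tendsto_log_atTop.comp tendsto_natCast_atTop_atTop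
  filter_upwards [htend.eventually_ge_atTop 8, abv_log_pow k c1 (P + 1) hc1pos (by positivity),
    abv_log_pow 0 κ 8 hκ (by norm_num)] with n hL8 hlogp hn8 m N hT hBm hBN
  obtain ⟨hm, hmn, hnm⟩ := hT
  have hL : 1 ≤ Real.log n := by linarith
  have hL0 : 0 < Real.log n := by linarith
  have hNr : (8 : ℝ) ≤ N := by
    refine le_trans ?_ hBN
    simpa using hn8
  have hN : 8 ≤ N := by exact_mod_cast hNr
  have hN0 : (0 : ℝ) < N := by linarith
  have hN1 : (1 : ℝ) ≤ N := by linarith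
  have hmr : (1 : ℝ) ≤ m := by exact_mod_cast hm
  have hm0 : (0 : ℝ) < m := by linarith
  have hmnr : (m : ℝ) * N ≤ n := by exact_mod_cast hmn
  set F : ℕ := ⌊(N : ℝ) ^ θ⌋₊ with hFdef
  have hNθ1 : 1 ≤ (N : ℝ) ^ θ := Real.one_le_rpow hN1 hθ0.le
  have hNθN : (N : ℝ) ^ θ ≤ N := by
    calc (N : ℝ) ^ θ ≤ (N : ℝ) ^ (1 : ℝ) := Real.rpow_le_rpow_of_exponent_le hN1 (by linarith)
      _ = N := Real.rpow_one _
  have hF1 : 1 ≤ F := (Nat.one_le_floor_iff _).mpr hNθ1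
  have hF : (F : ℝ) ≤ (N : ℝ) ^ θ := Nat.floor_le (by positivity)
  have hFN : F ≤ N := by exact_mod_cast hF.trans hNθN
  set U : ℕ := ⌊(N : ℝ) ^ (1 / 3 : ℝ)⌋₊ with hUdef
  have hN3 : ((N : ℝ) ^ (1 / 3 : ℝ)) ^ 3 = N := by
    rw [← Real.rpow_natCast, ← Real.rpow_mul hN0.le]
    norm_num
  have hN32 : 2 ≤ (N : ℝ) ^ (1 / 3 : ℝ) := by
    by_contra hcon
    push Not at hcon
    have h5 : ((N : ℝ) ^ (1 / 3 : ℝ)) ^ 3 < 2 ^ 3 :=
      pow_lt_pow_left₀ hcon (by positivity) (by norm_num)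
    rw [hN3] at h5
    norm_num at h5
    linarith
  have hU2 : (U : ℝ) ≤ (N : ℝ) ^ (1 / 3 : ℝ) := Nat.floor_le (by positivity)
  have hU1' : (N : ℝ) ^ (1 / 3 : ℝ) / 2 ≤ U := by
    have := Nat.lt_floor_add_one ((N : ℝ) ^ (1 / 3 : ℝ))
    rw [← hUdef] at this
    linarith
  have hU1 : 1 ≤ U := (Nat.one_le_floor_iff _).mpr (by linarith)
  have hU3 : U ^ 3 ≤ N := by
    have h5 : (U : ℝ) ^ 3 ≤ N := by
      rw [← hN3]
      exact pow_le_pow_left₀ (by positivity) hU2 3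
    exact_mod_cast h5
  refine ⟨tbv3p_E η C1 C2 (Real.log n) N m, tbv3p_E_nonneg η C1 C2 _ hC1 hC2 N m, ?_, ?_⟩
  · intro f c hf hfN hc
    have hfN' : f ≤ N := by exact_mod_cast hfN.trans hNθN
    refine (h1' N m n f c hN ⟨hm, hmn, hnm⟩ hf hfN' hc).trans ?_
    unfold tbv3p_E
    apply add_le_add le_rfl
    apply mul_le_mul_of_nonneg_left _ (by positivity)
    refine sum_le_sum fun r hr => ?_
    have hrd : r ∣ m * f := Nat.dvd_of_mem_divisors (mem_of_mem_erase hr)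
    unfold tbv3p_G
    rw [mul_sum, mul_sum]
    refine sum_le_sum fun χ hχ => ?_
    have h5 := h2' m f r (n - m * c - m) m hm hf hrd χ hχ
    calc ‖JJ (m * f) (n - m * c - m) m χ‖ * ‖psiChi (etaR η) (m * N) χ‖
        ≤ (C2 * 2 ^ ((m / Nat.gcd r m).primeFactors.card + f.primeFactors.card) *
          (Real.sqrt r * (1 + Real.log r))) * ‖psiChi (etaR η) (m * N) χ‖ :=
          mul_le_mul_of_nonneg_right h5 (norm_nonneg _)
      _ = _ := by ring
  · -- the sum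
    have hsub : (Icc 1 N).filter (fun f : ℕ => (f : ℝ) ≤ (N : ℝ) ^ θ) ⊆ Icc 1 F := by
      intro f hf
      rw [mem_filter, mem_Icc] at hf
      rw [mem_Icc]
      exact ⟨hf.1.1, Nat.le_floor hf.2⟩
    refine (sum_le_sum_of_subset_of_nonneg hsub fun f _ _ => by
      have := tbv3p_E_nonneg η C1 C2 (Real.log n) hC1 hC2 N m f
      positivity).trans ?_
    have e1 : ∑ f ∈ Icc 1 F, (K : ℝ) ^ f.primeFactors.card *
        tbv3p_E η C1 C2 (Real.log n) N m f =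
        ∑ f ∈ Icc 1 F, (K : ℝ) ^ f.primeFactors.card *
      (C1 * (m * (1 + Real.log n) ^ 2 +
        m * N * 2 ^ (m * f).primeFactors.card / ((m * f).totient : ℝ))) +
        ∑ f ∈ Icc 1 F, (K : ℝ) ^ f.primeFactors.card * (1 / ((m * f).totient : ℝ) *
    ∑ r ∈ (m * f).divisors.erase 1,
      2 ^ ((m / Nat.gcd r m).primeFactors.card + f.primeFactors.card) *
        tbv3p_G η C2 (m * N) r) := by
      rw [← sum_add_distrib]
      refine sum_congr rfl fun f _ => ?_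
      unfold tbv3p_E
      ring
    rw [e1]
    have hab := tbv3p_ab C1 Cd hC1 hCd d2 θ c0 hθ hc0 K N m n F hN hm hmn hL hF1 hFN hF
    have hc := h3' m F (tbv3p_G η C2 (m * N)) hm hF1 (tbv3p_G_nonneg η C2 hC2 (m * N))
    set D : ℝ := (2 * F : ℝ) ^ (1 / 2 + ε) / Real.sqrt U +
      (2 * F : ℝ) ^ (3 / 2 + ε) / Real.sqrt N + U * (2 * F : ℝ) ^ (2 + ε) / N with hD
    have hD0 : 0 ≤ D := by positivity
    have hDle : D ≤ 16 * (N : ℝ) ^ (-c0) :=
      tbv3p_pow N F U θ ε c0 hN hθ hε0 hε1 hεθ hc0 hF hU1' hU2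
    have hone : ∀ e ∈ m.divisors, ∑ k ∈ Icc 1 F, (k : ℝ) ^ (-1 + ε) *
        tbv3p_G η C2 (m * N) (e * k) ≤
        48 * C2 * C0 * Real.log n ^ (C0 + 3) * (m * N) * (Real.sqrt e + e * D) := by
      intro e he
      exact tbv3p_one (etaR η) C0 h4' C2 hC2 N m n F U e ε hN hm hmn hL hF1 hFN
        (Nat.pos_of_mem_divisors he) (Nat.divisor_le he) hε0 hε1 hU1 hU3
    have hlm : 1 + Real.log m ≤ 2 * Real.log n := by
      have h5 : (m : ℝ) ≤ n := (le_mul_of_one_le_right hm0.le hN1).trans hmnr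
      have h6 := Real.log_le_log hm0 h5
      linarith only [h6, hL]
    have hlm0 : 0 ≤ 1 + Real.log m := by
      have := Real.log_nonneg hmr
      linarith only [this]
    have hlmF : 1 + Real.log (m * F) ≤ 2 * Real.log n := by
      have hF0 : (0 : ℝ) < F := by exact_mod_cast hF1
      have hFNr : (F : ℝ) ≤ N := by exact_mod_cast hFN
      have h5 : (m : ℝ) * F ≤ n := (mul_le_mul_of_nonneg_left hFNr hm0.le).trans hmnr
      have h6 := Real.log_le_log (by positivity) h5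
      linarith only [h6, hL]
    have hlmF0 : 0 ≤ 1 + Real.log (m * F) := by
      have hF0 : (1 : ℝ) ≤ F := by exact_mod_cast hF1
      have : 0 ≤ Real.log (m * F) :=
        Real.log_nonneg (one_le_mul_of_one_le_of_one_le hmr hF0)
      linarith only [this]
    have hmNr : (1 : ℝ) ≤ (m : ℝ) * N := one_le_mul_of_one_le_of_one_le hmr hN1
    have hn1 : (1 : ℝ) ≤ n := hmNr.trans hmnr
    have hn0 : (0 : ℝ) < n := by linarith
    set ρ : ℝ := (n : ℝ) ^ (-(2 * c1)) with hρ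
    have hρ0 : 0 < ρ := by positivity
    have hNρ : (N : ℝ) ^ (-c0) ≤ ρ := by
      calc (N : ℝ) ^ (-c0) ≤ ((n : ℝ) ^ κ) ^ (-c0) :=
            Real.rpow_le_rpow_of_nonpos (by positivity) hBN (by linarith)
        _ = (n : ℝ) ^ (-(κ * c0)) := by
            rw [← Real.rpow_mul hn0.le]
            congr 1
            ring
        _ ≤ _ := Real.rpow_le_rpow_of_exponent_le hn1 (by linarith)
    have hmρ : (m : ℝ) ^ (-(1 / 4) : ℝ) ≤ ρ := by
      calc (m : ℝ) ^ (-(1 / 4) : ℝ) ≤ ((n : ℝ) ^ κ) ^ (-(1 / 4) : ℝ) :=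
            Real.rpow_le_rpow_of_nonpos (by positivity) hBm (by norm_num)
        _ = (n : ℝ) ^ (-(κ / 4)) := by
            rw [← Real.rpow_mul hn0.le]
            congr 1
            ring
        _ ≤ _ := Real.rpow_le_rpow_of_exponent_le hn1 (by linarith)
    have hc2 : ∑ e ∈ m.divisors, (2 : ℝ) ^ (m / e).primeFactors.card / m *
        ∑ k ∈ Icc 1 F, (k : ℝ) ^ (-1 + ε) * tbv3p_G η C2 (m * N) (e * k) ≤
        48 * C2 * C0 * Real.log n ^ (C0 + 3) * (m * N) *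
          ((Cd + 64) * Real.log n ^ 2 * ρ) := by
      have hs1 := d1 m hm
      have hs2 := tbv3p_div1 m hm
      have hsum : ∑ e ∈ m.divisors, (2 : ℝ) ^ (m / e).primeFactors.card / m *
          (Real.sqrt e + e * D) ≤ (Cd + 64) * Real.log n ^ 2 * ρ := by
        have e2 : ∑ e ∈ m.divisors, (2 : ℝ) ^ (m / e).primeFactors.card / m *
          (Real.sqrt e + e * D) =
          ∑ e ∈ m.divisors, (2 : ℝ) ^ (m / e).primeFactors.card / m * Real.sqrt e +
          D * ∑ e ∈ m.divisors, (2 : ℝ) ^ (m / e).primeFactors.card / m * e := by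
          rw [mul_sum, ← sum_add_distrib]
          refine sum_congr rfl fun e _ => ?_
          ring
        rw [e2]
        have h5 : D * ∑ e ∈ m.divisors, (2 : ℝ) ^ (m / e).primeFactors.card / m * e ≤
            (16 * ρ) * (2 * Real.log n) ^ 2 := by
          apply mul_le_mul _ _ _ (by positivity)
          · exact hDle.trans (mul_le_mul_of_nonneg_left hNρ (by norm_num))
          · exact hs2.trans (pow_le_pow_left₀ hlm0 hlm 2)
          · exact sum_nonneg fun _ _ => by positivity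
        have h6 : ∑ e ∈ m.divisors, (2 : ℝ) ^ (m / e).primeFactors.card / m * Real.sqrt e ≤
            Cd * ρ := hs1.trans (mul_le_mul_of_nonneg_left hmρ (by linarith))
        have h7 : 1 ≤ Real.log n ^ 2 := one_le_pow₀ hL
        have h8 : Cd * ρ ≤ Cd * ρ * Real.log n ^ 2 := by
          have : 0 ≤ Cd * ρ := by positivity
          exact le_mul_of_one_le_right this h7
        calc _ ≤ Cd * ρ * Real.log n ^ 2 + (16 * ρ) * (2 * Real.log n) ^ 2 :=
              add_le_add (h6.trans h8) h5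
          _ = _ := by ring
      calc _ ≤ ∑ e ∈ m.divisors, (2 : ℝ) ^ (m / e).primeFactors.card / m *
            (48 * C2 * C0 * Real.log n ^ (C0 + 3) * (m * N) * (Real.sqrt e + e * D)) := by
            refine sum_le_sum fun e he => ?_
            exact mul_le_mul_of_nonneg_left (hone e he) (by positivity)
        _ = 48 * C2 * C0 * Real.log n ^ (C0 + 3) * (m * N) *
            ∑ e ∈ m.divisors, (2 : ℝ) ^ (m / e).primeFactors.card / m *
              (Real.sqrt e + e * D) := by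
            rw [mul_sum]
            refine sum_congr rfl fun e _ => ?_
            ring
        _ ≤ _ := mul_le_mul_of_nonneg_left hsum (by positivity)
    have hc3 : C3 * (1 + Real.log (m * F)) ^ C3 *
        ∑ e ∈ m.divisors, (2 : ℝ) ^ (m / e).primeFactors.card / m *
        ∑ k ∈ Icc 1 F, (k : ℝ) ^ (-1 + ε) * tbv3p_G η C2 (m * N) (e * k) ≤
        (C3 * 2 ^ C3 * (48 * C2 * C0) * (Cd + 64)) * Real.log n ^ (C3 + C0 + 5) *
          ((m * N) * ρ) := by
      calc _ ≤ C3 * (2 * Real.log n) ^ C3 * (48 * C2 * C0 * Real.log n ^ (C0 + 3) * (m * N) *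
          ((Cd + 64) * Real.log n ^ 2 * ρ)) := by
            apply mul_le_mul _ hc2 _ (by positivity)
            · apply mul_le_mul_of_nonneg_left _ (Nat.cast_nonneg _)
              exact pow_le_pow_left₀ hlmF0 hlmF C3
            · apply sum_nonneg
              intro e _
              apply mul_nonneg (by positivity)
              apply sum_nonneg
              intro j _
              have := tbv3p_G_nonneg η C2 hC2 (m * N) (e * j)
              positivity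
        _ = _ := by
            rw [mul_pow]
            ring
    have hpw : ∀ j : ℕ, j ≤ k → Real.log n ^ j ≤ Real.log n ^ k := fun j hj =>
      pow_le_pow_right₀ hL hj
    have hX0 : 0 < (m : ℝ) * N := by positivity
    have hfinal : (C1 * 2 ^ (K + 2) * Real.log n ^ (K + 2) * (m * N) * (N : ℝ) ^ (-c0) +
      C1 * Cd * 2 ^ (4 * K) * Real.log n ^ (4 * K) * (m * N) * (m : ℝ) ^ (-(1 / 4) : ℝ)) +
      (C3 * 2 ^ C3 * (48 * C2 * C0) * (Cd + 64)) * Real.log n ^ (C3 + C0 + 5) *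
          ((m * N) * ρ) ≤ P * Real.log n ^ k * ((m * N) * ρ) := by
      have g1 : C1 * 2 ^ (K + 2) * Real.log n ^ (K + 2) * (m * N) * (N : ℝ) ^ (-c0) ≤
          C1 * 2 ^ (K + 2) * Real.log n ^ k * ((m * N) * ρ) := by
        calc _ = (C1 * 2 ^ (K + 2) * (m * N)) * (Real.log n ^ (K + 2) * (N : ℝ) ^ (-c0)) := by
              ring
          _ ≤ (C1 * 2 ^ (K + 2) * (m * N)) * (Real.log n ^ k * ρ) := by
              apply mul_le_mul_of_nonneg_left _ (by positivity)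
              exact mul_le_mul (hpw _ (by omega)) hNρ (by positivity) (by positivity)
          _ = _ := by ring
      have g2 : C1 * Cd * 2 ^ (4 * K) * Real.log n ^ (4 * K) * (m * N) *
          (m : ℝ) ^ (-(1 / 4) : ℝ) ≤
          C1 * Cd * 2 ^ (4 * K) * Real.log n ^ k * ((m * N) * ρ) := by
        calc _ = (C1 * Cd * 2 ^ (4 * K) * (m * N)) *
              (Real.log n ^ (4 * K) * (m : ℝ) ^ (-(1 / 4) : ℝ)) := by ring
          _ ≤ (C1 * Cd * 2 ^ (4 * K) * (m * N)) * (Real.log n ^ k * ρ) := by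
              apply mul_le_mul_of_nonneg_left _ (by positivity)
              exact mul_le_mul (hpw _ (by omega)) hmρ (by positivity) (by positivity)
          _ = _ := by ring
      have g3 : (C3 * 2 ^ C3 * (48 * C2 * C0) * (Cd + 64)) * Real.log n ^ (C3 + C0 + 5) *
          ((m * N) * ρ) ≤ (C3 * 2 ^ C3 * (48 * C2 * C0) * (Cd + 64)) * Real.log n ^ k *
          ((m * N) * ρ) := by
        apply mul_le_mul_of_nonneg_right _ (by positivity)
        exact mul_le_mul_of_nonneg_left (hpw _ (by omega)) (by positivity)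
      calc _ ≤ C1 * 2 ^ (K + 2) * Real.log n ^ k * ((m * N) * ρ) +
          C1 * Cd * 2 ^ (4 * K) * Real.log n ^ k * ((m * N) * ρ) +
          (C3 * 2 ^ C3 * (48 * C2 * C0) * (Cd + 64)) * Real.log n ^ k *
          ((m * N) * ρ) := add_le_add (add_le_add g1 g2) g3
        _ = _ := by rw [hP]; ring
    calc _ ≤ (C1 * 2 ^ (K + 2) * Real.log n ^ (K + 2) * (m * N) * (N : ℝ) ^ (-c0) +
      C1 * Cd * 2 ^ (4 * K) * Real.log n ^ (4 * K) * (m * N) * (m : ℝ) ^ (-(1 / 4) : ℝ)) +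
      (C3 * 2 ^ C3 * (48 * C2 * C0) * (Cd + 64)) * Real.log n ^ (C3 + C0 + 5) *
          ((m * N) * ρ) := add_le_add hab (hc.trans hc3)
      _ ≤ P * Real.log n ^ k * ((m * N) * ρ) := hfinal
      _ ≤ (n : ℝ) ^ c1 * (n * ρ) := by
          have h5 : P * Real.log n ^ k ≤ (n : ℝ) ^ c1 := by
            refine le_trans ?_ hlogp
            exact mul_le_mul_of_nonneg_right (by linarith) (by positivity)
          exact mul_le_mul h5 (mul_le_mul_of_nonneg_right hmnr hρ0.le) (by positivity)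
            (by positivity)
      _ = (n : ℝ) ^ (1 - c1) := by
          rw [hρ]
          nth_rewrite 2 [← Real.rpow_one (n : ℝ)]
          rw [← Real.rpow_add hn0, ← Real.rpow_add hn0]
          congr 1
          ring

end Pool.Agent.CV
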