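import Mathlib
import Pool.Agent.CV.Stmts
import Pool.Agent.CV.FamL
import Pool.Agent.Helper88.MD.Div

set_option autoImplicit false

/-!
# CV / TIIF: bilinear sums over the family
-/

namespace Pool.Agent.CV

open Finset Filter MeasureTheory Pool.Agent.MT Pool.Agent.CH Pool.Agent.CU
open scoped ContDiff FourierTransform SchwartzMap

/-- separation of variables -/
private theorem tiif_sep (η : ℝ → ℝ) (hη : IsWt η) : ∃ g : ℝ → ℂ, Integrable g ∧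
    ∀ x : ℝ, 0 < x → ((η x : ℝ) : ℂ) =
      ∫ ξ : ℝ, Complex.exp (((2 * Real.pi * (ξ * Real.log x) : ℝ) : ℂ) * Complex.I) * g ξ := by
  set h : ℝ → ℂ := fun u => ((η (Real.exp u) : ℝ) : ℂ) with hh
  have h1 : ContDiff ℝ ∞ h :=
    Complex.ofRealCLM.contDiff.comp (hη.smooth.comp Real.contDiff_exp)
  have h2 : HasCompactSupport h := by
    refine HasCompactSupport.of_support_subset_isCompact
      (isCompact_Icc (a := Real.log (1 / 8)) (b := Real.log (7 / 8))) ?_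
    intro u hu
    have h3 : η (Real.exp u) ≠ 0 := by
      intro h0
      apply hu
      simp [hh, h0]
    obtain ⟨h4, h5⟩ := hη.supp _ h3
    constructor
    · exact ((Real.log_lt_iff_lt_exp (by norm_num)).2 h4).le
    · exact ((Real.lt_log_iff_exp_lt (by norm_num)).2 h5).le
  set H : 𝓢(ℝ, ℂ) := h2.toSchwartzMap h1 with hH
  have hHc : (H : ℝ → ℂ) = h := rfl
  have hFi : Integrable (𝓕 h) := by
    have := (𝓕 H : 𝓢(ℝ, ℂ)).integrable (μ := volume)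
    rw [SchwartzMap.fourier_coe, hHc] at this
    exact this
  have hi : Integrable h := by
    have := H.integrable (μ := volume)
    rwa [hHc] at this
  refine ⟨𝓕 h, hFi, fun x hx => ?_⟩
  have hinv := hi.fourierInv_fourier_eq hFi (v := Real.log x) h1.continuous.continuousAt
  have e1 : h (Real.log x) = ((η x : ℝ) : ℂ) := by simp only [hh, Real.exp_log hx]
  rw [← e1, ← hinv, Real.fourierInv_eq']
  refine integral_congr_ae (Filter.Eventually.of_forall fun ξ => ?_)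
  simp only [smul_eq_mul]
  congr 3
  simp [mul_comm]

/-- the additive character -/
private noncomputable def tiif_e (ξ y : ℝ) : ℂ :=
  Complex.exp (((2 * Real.pi * (ξ * y) : ℝ) : ℂ) * Complex.I)

private theorem tiif_e_norm (ξ y : ℝ) : ‖tiif_e ξ y‖ = 1 := Complex.norm_exp_ofReal_mul_I _

private theorem tiif_e_add (ξ x y : ℝ) :
    tiif_e ξ (x + y) = tiif_e ξ x * tiif_e ξ y := by
  rw [tiif_e, tiif_e, tiif_e, ← Complex.exp_add]
  congr 1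
  push_cast
  ring

private theorem tiif_e_cont (y : ℝ) : Continuous fun ξ => tiif_e ξ y := by
  unfold tiif_e
  fun_prop

private theorem tiif_int {g : ℝ → ℂ} (hg : Integrable g) (y : ℝ) :
    Integrable fun ξ => tiif_e ξ y * g ξ := by
  refine hg.mono ((tiif_e_cont y).aestronglyMeasurable.mul hg.1) ?_
  refine Filter.Eventually.of_forall fun ξ => ?_
  rw [norm_mul, tiif_e_norm, one_mul]

/-- large sieve with the constant `C0` -/
private def TiifLS (C0 : ℝ) : Prop := ∀ K M u v : ℕ, 1 ≤ K → 1 ≤ M → u ≤ v → ∀ a : ℕ → ℂ,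
  Fam K M (fun k χ ψ => ‖∑ x ∈ Ioc u v, a x * (χ (x : ZMod k) * ψ (x : ZMod M))‖ ^ 2) ≤
    C0 * ((v : ℝ) - u + M * (K : ℝ) ^ 2) * ∑ x ∈ Ioc u v, ‖a x‖ ^ 2

/-- fourth moment -/
private theorem tiif_fourth {C0 D : ℝ} (hC0 : 0 < C0) (hLS : TiifLS C0) {X S K M u v : ℕ}
    (hK : 1 ≤ K) (hM : 1 ≤ M) (hv : v ≤ 2 * S) (hSX : S * S ≤ X)
    (hD : ∀ y, 1 ≤ y → y ≤ 4 * X → (y.divisors.card : ℝ) ≤ D) (hD0 : 0 ≤ D) (p : ℕ → ℂ)
    (hp : ∀ x, ‖p x‖ ≤ 1) :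
    Fam K M (fun k χ ψ => ‖∑ x ∈ Ioc u v, p x * (χ (x : ZMod k) * ψ (x : ZMod M))‖ ^ 4) ≤
      C0 * (4 * (S : ℝ) ^ 2 + M * (K : ℝ) ^ 2) * (D * (4 * (S : ℝ) ^ 2)) := by
  classical
  set I := Ioc u v ×ˢ Ioc u v with hI
  set c : ℕ → ℂ := fun y => ∑ i ∈ I.filter (fun i => i.1 * i.2 = y), p i.1 * p i.2 with hc
  have hmaps : ∀ i ∈ I, i.1 * i.2 ∈ Ioc 0 (4 * (S * S)) := by
    intro i hi
    rw [hI, Finset.mem_product, Finset.mem_Ioc, Finset.mem_Ioc] at hi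
    obtain ⟨⟨h1, h2⟩, h3, h4⟩ := hi
    rw [Finset.mem_Ioc]
    refine ⟨Nat.mul_pos (by omega) (by omega), ?_⟩
    calc i.1 * i.2 ≤ (2 * S) * (2 * S) := Nat.mul_le_mul (h2.trans hv) (h4.trans hv)
      _ = 4 * (S * S) := by ring
  have hsq : ∀ (k : ℕ) (χ : DirichletCharacter ℂ k) (ψ : DirichletCharacter ℂ M),
      (∑ x ∈ Ioc u v, p x * (χ (x : ZMod k) * ψ (x : ZMod M))) ^ 2 =
        ∑ y ∈ Ioc 0 (4 * (S * S)), c y * (χ (y : ZMod k) * ψ (y : ZMod M)) := by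
    intro k χ ψ
    rw [sq, Finset.sum_mul_sum, ← Finset.sum_product', ← Finset.sum_fiberwise_of_maps_to hmaps]
    refine Finset.sum_congr rfl fun y _ => ?_
    simp only [hc]
    rw [Finset.sum_mul]
    refine Finset.sum_congr rfl fun i hi => ?_
    rw [← (Finset.mem_filter.1 hi).2, Nat.cast_mul, Nat.cast_mul, map_mul, map_mul]
    ring
  have hcn : ∀ y, ‖c y‖ ≤ ((I.filter (fun i => i.1 * i.2 = y)).card : ℝ) := by
    intro y
    simp only [hc]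
    refine (norm_sum_le _ _).trans ?_
    rw [Finset.card_eq_sum_ones, Nat.cast_sum]
    refine Finset.sum_le_sum fun i _ => ?_
    rw [norm_mul, Nat.cast_one]
    exact mul_le_one₀ (hp _) (norm_nonneg _) (hp _)
  have hcard : ∀ y ∈ Ioc 0 (4 * (S * S)),
      ((I.filter (fun i => i.1 * i.2 = y)).card : ℝ) ≤ D := by
    intro y hy
    rw [Finset.mem_Ioc] at hy
    refine le_trans ?_ (hD y (by omega) (by omega))
    norm_cast
    refine Finset.card_le_card_of_injOn (fun i => i.1) ?_ ?_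
    · intro i hi
      rw [Finset.mem_coe, Finset.mem_filter] at hi
      rw [Finset.mem_coe, Nat.mem_divisors]
      exact ⟨⟨i.2, hi.2.symm⟩, by omega⟩
    · intro i hi j hj hij
      rw [Finset.mem_coe, Finset.mem_filter] at hi hj
      simp only at hij
      have h1 : i.1 * i.2 = i.1 * j.2 := by rw [hi.2, hij, hj.2]
      have h2 : 0 < i.1 := by
        rcases Nat.eq_zero_or_pos i.1 with h | h
        · rw [h, zero_mul] at hi
          omega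
        · exact h
      exact Prod.ext hij (Nat.eq_of_mul_eq_mul_left h2 h1)
  have hsum : ∑ y ∈ Ioc 0 (4 * (S * S)), ‖c y‖ ^ 2 ≤ D * (4 * (S : ℝ) ^ 2) := by
    have h1 : ∑ y ∈ Ioc 0 (4 * (S * S)), ‖c y‖ ^ 2 ≤
        ∑ y ∈ Ioc 0 (4 * (S * S)), D * ((I.filter (fun i => i.1 * i.2 = y)).card : ℝ) := by
      refine Finset.sum_le_sum fun y hy => ?_
      rw [sq]
      exact mul_le_mul ((hcn y).trans (hcard y hy)) (hcn y) (norm_nonneg _) hD0
    refine h1.trans ?_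
    rw [← Finset.mul_sum]
    refine mul_le_mul_of_nonneg_left ?_ hD0
    have h2 : I.card = ∑ y ∈ Ioc 0 (4 * (S * S)), (I.filter (fun i => i.1 * i.2 = y)).card :=
      Finset.card_eq_sum_card_fiberwise hmaps
    rw [← Nat.cast_sum, ← h2, hI, Finset.card_product, Nat.card_Ioc]
    have h3 : v - u ≤ 2 * S := by omega
    have h4 : (v - u) * (v - u) ≤ (2 * S) * (2 * S) := Nat.mul_le_mul h3 h3
    have h5 : (((v - u) * (v - u) : ℕ) : ℝ) ≤ ((2 * S * (2 * S) : ℕ) : ℝ) := by exact_mod_cast h4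
    refine h5.trans_eq ?_
    push_cast
    ring
  have h := hLS K M 0 (4 * (S * S)) hK hM (Nat.zero_le _) c
  have e : (fun (k : ℕ) (χ : DirichletCharacter ℂ k) (ψ : DirichletCharacter ℂ M) =>
      ‖∑ x ∈ Ioc u v, p x * (χ (x : ZMod k) * ψ (x : ZMod M))‖ ^ 4) = fun k χ ψ =>
      ‖∑ y ∈ Ioc 0 (4 * (S * S)), c y * (χ (y : ZMod k) * ψ (y : ZMod M))‖ ^ 2 := by
    funext k χ ψ
    rw [← hsq, norm_pow]
    ring
  rw [e]
  refine h.trans ?_
  have h6 : C0 * (((4 * (S * S) : ℕ) : ℝ) - ((0 : ℕ) : ℝ) + M * (K : ℝ) ^ 2) =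
      C0 * (4 * (S : ℝ) ^ 2 + M * (K : ℝ) ^ 2) := by
    push_cast
    ring
  rw [h6]
  exact mul_le_mul_of_nonneg_left hsum (by positivity)

/-- second moment -/
private theorem tiif_second {C0 : ℝ} (hC0 : 0 < C0) (hLS : TiifLS C0) {L K M u v : ℕ}
    (hK : 1 ≤ K) (hM : 1 ≤ M) (huv : u ≤ v) (hv : v ≤ u + L) (p : ℕ → ℂ)
    (hp : ∀ x, ‖p x‖ ≤ 1) :
    Fam K M (fun k χ ψ => ‖∑ x ∈ Ioc u v, p x * (χ (x : ZMod k) * ψ (x : ZMod M))‖ ^ 2) ≤
      C0 * ((L : ℝ) + M * (K : ℝ) ^ 2) * L := by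
  have h := hLS K M u v hK hM huv p
  refine h.trans ?_
  have hv' : (v : ℝ) ≤ u + L := by exact_mod_cast hv
  have huv' : (u : ℝ) ≤ v := by exact_mod_cast huv
  have h1 : ∑ x ∈ Ioc u v, ‖p x‖ ^ 2 ≤ L := by
    calc ∑ x ∈ Ioc u v, ‖p x‖ ^ 2 ≤ ∑ x ∈ Ioc u v, (1 : ℝ) :=
          Finset.sum_le_sum fun x _ => pow_le_one₀ (norm_nonneg _) (hp x)
      _ = ((v - u : ℕ) : ℝ) := by rw [Finset.sum_const, Nat.card_Ioc, nsmul_eq_mul, mul_one]
      _ ≤ L := by exact_mod_cast (by omega : v - u ≤ L)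
  refine mul_le_mul ?_ h1 (Finset.sum_nonneg fun x _ => by positivity) (by positivity)
  refine mul_le_mul_of_nonneg_left ?_ hC0.le
  linarith

private theorem tiif_real {s l t x y r : ℝ} (hs : 0 ≤ s) (hl : 0 ≤ l) (ht : 0 ≤ t) (hx : 0 ≤ x)
    (hr : 0 < r) (h1 : s * l ≤ x) (h2 : s ≤ y) (h3 : r * l ≤ x) :
    ((s + t) * s) * ((l + t ^ 2) * l) ≤ x * x + x * x * t / r + (x * y) * t ^ 2 + x * t ^ 3 := by
  have e : ((s + t) * s) * ((l + t ^ 2) * l) =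
      (s * l) * (s * l) + (s * l) * (t * l) + (s * l) * (s * t ^ 2) + (s * l) * t ^ 3 := by ring
  have hsl : 0 ≤ s * l := mul_nonneg hs hl
  have h4 : l ≤ x / r := by
    rw [le_div_iff₀ hr]
    linarith
  have i1 : (s * l) * (s * l) ≤ x * x := mul_le_mul h1 h1 hsl hx
  have i2 : (s * l) * (t * l) ≤ x * (t * (x / r)) :=
    mul_le_mul h1 (mul_le_mul_of_nonneg_left h4 ht) (mul_nonneg ht hl) hx
  have i3 : (s * l) * (s * t ^ 2) ≤ x * (y * t ^ 2) :=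
    mul_le_mul h1 (mul_le_mul_of_nonneg_right h2 (by positivity)) (by positivity) hx
  have i4 : (s * l) * t ^ 3 ≤ x * t ^ 3 := mul_le_mul_of_nonneg_right h1 (by positivity)
  have e2 : x * (t * (x / r)) = x * x * t / r := by ring
  rw [e]
  rw [e2] at i2
  linarith [i1, i2, i3, i4, mul_assoc x y (t ^ 2)]

/-- the bound for one frequency -/
private theorem tiif_core {C0 D : ℝ} (hC0 : 0 < C0) (hLS : TiifLS C0)
    {X S L U K M u v u' v' : ℕ} (hK : 1 ≤ K) (hM : 1 ≤ M) (hU : 1 ≤ U) (hSL : S ≤ L)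
    (hSLX : S * L ≤ X) (hUL : U * L ≤ X) (hv : v ≤ 2 * S) (huv' : u' ≤ v') (hv' : v' ≤ u' + L)
    (hD : ∀ y, 1 ≤ y → y ≤ 4 * X → (y.divisors.card : ℝ) ≤ D) (hD0 : 0 ≤ D) (p q : ℕ → ℂ)
    (hp : ∀ x, ‖p x‖ ≤ 1) (hq : ∀ x, ‖q x‖ ≤ 1)
    (J : (k : ℕ) → DirichletCharacter ℂ k → DirichletCharacter ℂ M → ℝ)
    (hJ : ∀ k χ ψ, 0 ≤ J k χ ψ) :
    Fam K M (fun k χ ψ => ‖∑ x ∈ Ioc u v, p x * (χ (x : ZMod k) * ψ (x : ZMod M))‖ *
      ‖∑ x ∈ Ioc u' v', q x * (χ (x : ZMod k) * ψ (x : ZMod M))‖ * J k χ ψ) ≤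
    2 * C0 ^ (1 / 4 : ℝ) * Real.sqrt C0 * D ^ (1 / 4 : ℝ) *
      (Fam K M (fun k χ ψ => J k χ ψ ^ 4)) ^ (1 / 4 : ℝ) *
      (X + X * (M * (K : ℝ) ^ 2) ^ (1 / 4 : ℝ) / Real.sqrt U +
        (X : ℝ) ^ (3 / 4 : ℝ) * (M * (K : ℝ) ^ 2) ^ (1 / 2 : ℝ) +
        (X : ℝ) ^ (1 / 2 : ℝ) * (M * (K : ℝ) ^ 2) ^ (3 / 4 : ℝ)) := by
  have hSX : S * S ≤ X := (Nat.mul_le_mul_left S hSL).trans hSLX
  have f4 := tiif_fourth hC0 hLS (u := u) hK hM hv hSX hD hD0 p hp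
  have f2 := tiif_second hC0 hLS hK hM huv' hv' q hq
  have hh := fam_holder (K := K) (M := M)
    (A := fun k χ ψ => ‖∑ x ∈ Ioc u v, p x * (χ (x : ZMod k) * ψ (x : ZMod M))‖)
    (B := fun k χ ψ => ‖∑ x ∈ Ioc u' v', q x * (χ (x : ZMod k) * ψ (x : ZMod M))‖)
    (J := J) (fun k χ ψ => norm_nonneg _) hJ
  refine hh.trans ?_
  set W := (Fam K M (fun k χ ψ => J k χ ψ ^ 4)) ^ (1 / 4 : ℝ) with hW
  have hW0 : 0 ≤ W := Real.rpow_nonneg (fam_nonneg fun k χ ψ => by positivity) _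
  set T : ℝ := M * (K : ℝ) ^ 2 with hT
  have hT0 : 0 ≤ T := by positivity
  obtain ⟨t, ht⟩ : ∃ t : ℝ, t = T ^ (1 / 4 : ℝ) := ⟨_, rfl⟩
  have ht0 : 0 ≤ t := by rw [ht]; positivity
  have hTt : T = t ^ 4 := by
    rw [ht, ← Real.rpow_natCast, ← Real.rpow_mul hT0]
    norm_num
  have hT2 : T ^ (1 / 2 : ℝ) = t ^ 2 := by
    rw [ht, ← Real.rpow_natCast, ← Real.rpow_mul hT0]
    norm_num
  have hT3 : T ^ (3 / 4 : ℝ) = t ^ 3 := by
    rw [ht, ← Real.rpow_natCast, ← Real.rpow_mul hT0]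
    norm_num
  obtain ⟨s, hs⟩ : ∃ s : ℝ, s = Real.sqrt S := ⟨_, rfl⟩
  obtain ⟨l, hl⟩ : ∃ l : ℝ, l = Real.sqrt L := ⟨_, rfl⟩
  obtain ⟨x, hx⟩ : ∃ x : ℝ, x = Real.sqrt X := ⟨_, rfl⟩
  obtain ⟨y, hy⟩ : ∃ y : ℝ, y = Real.sqrt x := ⟨_, rfl⟩
  have hs0 : 0 ≤ s := by rw [hs]; positivity
  have hl0 : 0 ≤ l := by rw [hl]; positivity
  have hx0 : 0 ≤ x := by rw [hx]; positivity
  have hs2 : (S : ℝ) = s ^ 2 := by rw [hs, Real.sq_sqrt (Nat.cast_nonneg _)]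
  have hl2 : (L : ℝ) = l ^ 2 := by rw [hl, Real.sq_sqrt (Nat.cast_nonneg _)]
  have hx2 : (X : ℝ) = x * x := by rw [hx, Real.mul_self_sqrt (Nat.cast_nonneg _)]
  have hr : 0 < Real.sqrt U := Real.sqrt_pos.2 (by exact_mod_cast hU)
  have i1 : s * l ≤ x := by
    rw [hs, hl, hx, ← Real.sqrt_mul (Nat.cast_nonneg _)]
    exact Real.sqrt_le_sqrt (by exact_mod_cast hSLX)
  have i2 : s ≤ y := by
    rw [hs, hy]
    refine Real.sqrt_le_sqrt ?_
    rw [hx]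
    refine Real.le_sqrt_of_sq_le ?_
    rw [sq]
    exact_mod_cast hSX
  have i3 : Real.sqrt U * l ≤ x := by
    rw [hl, hx, ← Real.sqrt_mul (Nat.cast_nonneg _)]
    exact Real.sqrt_le_sqrt (by exact_mod_cast hUL)
  have hX34 : (X : ℝ) ^ (3 / 4 : ℝ) = x * y := by
    rw [hy, hx, Real.sqrt_eq_rpow, Real.sqrt_eq_rpow, ← Real.rpow_mul (Nat.cast_nonneg _),
      ← Real.rpow_add' (Nat.cast_nonneg _) (by norm_num)]
    norm_num
  have hX12 : (X : ℝ) ^ (1 / 2 : ℝ) = x := by rw [hx, Real.sqrt_eq_rpow]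
  have hreal := tiif_real hs0 hl0 ht0 hx0 hr i1 i2 i3
  rw [hT2, hT3, ← ht, hX34, hX12, hx2]
  have n4 : 0 ≤ Fam K M (fun k χ ψ =>
      ‖∑ x ∈ Ioc u v, p x * (χ (x : ZMod k) * ψ (x : ZMod M))‖ ^ 4) :=
    fam_nonneg fun k χ ψ => by positivity
  have g4 : (Fam K M (fun k χ ψ =>
      ‖∑ x ∈ Ioc u v, p x * (χ (x : ZMod k) * ψ (x : ZMod M))‖ ^ 4)) ^ (1 / 4 : ℝ) ≤
      2 * C0 ^ (1 / 4 : ℝ) * D ^ (1 / 4 : ℝ) * ((s + t) * s) := by
    refine (Real.rpow_le_rpow n4 f4 (by norm_num)).trans ?_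
    have e1 : C0 * (4 * (S : ℝ) ^ 2 + M * (K : ℝ) ^ 2) * (D * (4 * (S : ℝ) ^ 2)) ≤
        C0 * D * (2 * ((s + t) * s)) ^ 4 := by
      rw [← hT, hTt, hs2]
      have e2 : 4 * (s ^ 2) ^ 2 + t ^ 4 ≤ 4 * (s + t) ^ 4 := by
        have : (s + t) ^ 4 = s ^ 4 + t ^ 4 + (4 * s ^ 3 * t + 6 * s ^ 2 * t ^ 2 + 4 * s * t ^ 3) := by
          ring
        have h5 : 0 ≤ 4 * s ^ 3 * t + 6 * s ^ 2 * t ^ 2 + 4 * s * t ^ 3 := by positivity
        have h6 : 0 ≤ t ^ 4 := by positivity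
        nlinarith
      calc C0 * (4 * (s ^ 2) ^ 2 + t ^ 4) * (D * (4 * (s ^ 2) ^ 2))
          ≤ C0 * (4 * (s + t) ^ 4) * (D * (4 * (s ^ 2) ^ 2)) := by gcongr
        _ = C0 * D * (2 * ((s + t) * s)) ^ 4 := by ring
    have n5 : (0 : ℝ) ≤ C0 * (4 * (S : ℝ) ^ 2 + M * (K : ℝ) ^ 2) * (D * (4 * (S : ℝ) ^ 2)) := by
      positivity
    refine (Real.rpow_le_rpow n5 e1 (by norm_num)).trans_eq ?_
    rw [Real.mul_rpow (by positivity) (by positivity), Real.mul_rpow hC0.le hD0,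
      ← Real.rpow_natCast, ← Real.rpow_mul (by positivity)]
    norm_num
    ring
  have g2 : Real.sqrt (Fam K M (fun k χ ψ =>
      ‖∑ x ∈ Ioc u' v', q x * (χ (x : ZMod k) * ψ (x : ZMod M))‖ ^ 2)) ≤
      Real.sqrt C0 * ((l + t ^ 2) * l) := by
    refine (Real.sqrt_le_sqrt f2).trans ?_
    rw [hTt, hl2]
    have e1 : C0 * (l ^ 2 + t ^ 4) * l ^ 2 ≤ C0 * ((l + t ^ 2) * l) ^ 2 := by
      have e2 : l ^ 2 + t ^ 4 ≤ (l + t ^ 2) ^ 2 := by
        have : 0 ≤ 2 * l * t ^ 2 := by positivity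
        nlinarith
      calc C0 * (l ^ 2 + t ^ 4) * l ^ 2 ≤ C0 * (l + t ^ 2) ^ 2 * l ^ 2 := by gcongr
        _ = C0 * ((l + t ^ 2) * l) ^ 2 := by ring
    refine (Real.sqrt_le_sqrt e1).trans_eq ?_
    rw [Real.sqrt_mul hC0.le, Real.sqrt_sq (by positivity)]
  have hc4 : 0 ≤ C0 ^ (1 / 4 : ℝ) := Real.rpow_nonneg hC0.le _
  have hd4 : 0 ≤ D ^ (1 / 4 : ℝ) := Real.rpow_nonneg hD0 _
  calc _ ≤ (2 * C0 ^ (1 / 4 : ℝ) * D ^ (1 / 4 : ℝ) * ((s + t) * s)) *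
        (Real.sqrt C0 * ((l + t ^ 2) * l)) * W := by
        refine mul_le_mul_of_nonneg_right ?_ hW0
        exact mul_le_mul g4 g2 (Real.sqrt_nonneg _) (by positivity)
    _ = 2 * C0 ^ (1 / 4 : ℝ) * Real.sqrt C0 * D ^ (1 / 4 : ℝ) * W *
        (((s + t) * s) * ((l + t ^ 2) * l)) := by ring
    _ ≤ _ := by
        refine mul_le_mul_of_nonneg_left hreal ?_
        have := Real.sqrt_nonneg C0
        positivity

/-- keep this signature -/
theorem thm_TIIF (h : St_LSF) : St_TIIF := by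
  intro η hη ε hε
  obtain ⟨C0, hC0, hLS⟩ := h
  have hLS' : TiifLS C0 := hLS
  obtain ⟨g, hg, hsep⟩ := tiif_sep η hη
  obtain ⟨C₁, hC₁⟩ := Pool.Agent.Helper88.MD.divisorBound (4 * ε) (by positivity)
  set CD : ℝ := max C₁ 1 with hCDdef
  have hCD : 0 < CD := by positivity
  have hdiv : ∀ n : ℕ, 1 ≤ n → (n.divisors.card : ℝ) ≤ CD * (n : ℝ) ^ (4 * ε) := fun n hn =>
    (hC₁ n hn).trans (mul_le_mul_of_nonneg_right (le_max_left _ _) (by positivity))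
  set C2 : ℝ := 2 * C0 ^ (1 / 4 : ℝ) * Real.sqrt C0 * (CD ^ (1 / 4 : ℝ) * 4 ^ ε) with hC2
  have hC20 : 0 < C2 := by
    have h1 : 0 < C0 ^ (1 / 4 : ℝ) := Real.rpow_pos_of_pos hC0 _
    have h2 : 0 < Real.sqrt C0 := Real.sqrt_pos.2 hC0
    have h3 : 0 < CD ^ (1 / 4 : ℝ) := Real.rpow_pos_of_pos hCD _
    have h4 : (0 : ℝ) < 4 ^ ε := Real.rpow_pos_of_pos (by norm_num) _
    positivity
  have hgn : 0 ≤ ∫ ξ, ‖g ξ‖ := integral_nonneg fun ξ => norm_nonneg _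
  refine ⟨C2 * ((∫ ξ, ‖g ξ‖) + 1), by positivity, ?_⟩
  intro X K M V U hX hK hM hU hUV hUVX a b ha hb J hJ
  have hV : 1 ≤ V := hU.trans hUV
  have hXpos : (0 : ℝ) < X := by exact_mod_cast hX
  set W := (Fam K M (fun k χ ψ => J k χ ψ ^ 4)) ^ (1 / 4 : ℝ) with hW
  set E : ℝ := X + X * (M * (K : ℝ) ^ 2) ^ (1 / 4 : ℝ) / Real.sqrt U +
        (X : ℝ) ^ (3 / 4 : ℝ) * (M * (K : ℝ) ^ 2) ^ (1 / 2 : ℝ) +
        (X : ℝ) ^ (1 / 2 : ℝ) * (M * (K : ℝ) ^ 2) ^ (3 / 4 : ℝ) with hE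
  have hW0 : 0 ≤ W := Real.rpow_nonneg (fam_nonneg fun k χ ψ => by positivity) _
  have hE0 : 0 ≤ E := by positivity
  -- the two factors
  set A : (k : ℕ) → DirichletCharacter ℂ k → DirichletCharacter ℂ M → ℝ → ℂ := fun k χ ψ ξ =>
    ∑ l ∈ Ioc V (2 * V), (a l * tiif_e ξ (Real.log l)) * (χ (l : ZMod k) * ψ (l : ZMod M)) with hA
  set B : (k : ℕ) → DirichletCharacter ℂ k → DirichletCharacter ℂ M → ℝ → ℂ := fun k χ ψ ξ =>
    ∑ j ∈ Ioc 0 (X / V), (b j * tiif_e ξ (Real.log j)) * (χ (j : ZMod k) * ψ (j : ZMod M)) with hB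
  set F : (k : ℕ) → DirichletCharacter ℂ k → DirichletCharacter ℂ M → ℝ → ℂ := fun k χ ψ ξ =>
    ∑ l ∈ Ioc V (2 * V), ∑ j ∈ Ioc 0 (X / V), (a l * b j * (χ ((l * j : ℕ) : ZMod k) *
      ψ ((l * j : ℕ) : ZMod M))) * (tiif_e ξ (Real.log (((l * j : ℕ) : ℝ) / X)) * g ξ) with hF
  have hFi : ∀ k (χ : DirichletCharacter ℂ k) (ψ : DirichletCharacter ℂ M),
      Integrable (F k χ ψ) := by
    intro k χ ψ
    exact integrable_finsetSum _ fun l _ => integrable_finsetSum _ fun j _ =>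
      (tiif_int hg _).const_mul _
  have hFAB : ∀ k (χ : DirichletCharacter ℂ k) (ψ : DirichletCharacter ℂ M) ξ,
      ‖F k χ ψ ξ‖ = ‖g ξ‖ * (‖A k χ ψ ξ‖ * ‖B k χ ψ ξ‖) := by
    intro k χ ψ ξ
    have e1 : F k χ ψ ξ = (g ξ * tiif_e ξ (-Real.log X)) * (A k χ ψ ξ * B k χ ψ ξ) := by
      simp only [hF, hA, hB]
      rw [Finset.sum_mul_sum, Finset.mul_sum]
      refine Finset.sum_congr rfl fun l hl => ?_
      rw [Finset.mul_sum]
      refine Finset.sum_congr rfl fun j hj => ?_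
      have hl' : (0 : ℝ) < l := by
        have := (Finset.mem_Ioc.1 hl).1
        exact_mod_cast (by omega : 0 < l)
      have hj' : (0 : ℝ) < j := by
        have := (Finset.mem_Ioc.1 hj).1
        exact_mod_cast this
      have e2 : Real.log (((l * j : ℕ) : ℝ) / X) =
          Real.log l + Real.log j + -Real.log X := by
        rw [Nat.cast_mul, Real.log_div (by positivity) (by positivity),
          Real.log_mul hl'.ne' hj'.ne', sub_eq_add_neg]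
      rw [e2, tiif_e_add, tiif_e_add, Nat.cast_mul, Nat.cast_mul, map_mul, map_mul]
      ring
    rw [e1, norm_mul, norm_mul, norm_mul, tiif_e_norm, mul_one]
  -- the sums as integrals
  have hS : ∀ k (χ : DirichletCharacter ℂ k) (ψ : DirichletCharacter ℂ M),
      ∑ l ∈ Ioc V (2 * V), ∑ j ∈ Icc 1 (X / l), a l * b j *
        ((χ ((l * j : ℕ) : ZMod k) * ψ ((l * j : ℕ) : ZMod M)) *
          ((η (((l * j : ℕ) : ℝ) / X) : ℝ) : ℂ)) = ∫ ξ, F k χ ψ ξ := by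
    intro k χ ψ
    have e1 : ∫ ξ, F k χ ψ ξ = ∑ l ∈ Ioc V (2 * V), ∑ j ∈ Ioc 0 (X / V),
        (a l * b j * (χ ((l * j : ℕ) : ZMod k) * ψ ((l * j : ℕ) : ZMod M))) *
          ((η (((l * j : ℕ) : ℝ) / X) : ℝ) : ℂ) := by
      simp only [hF]
      rw [integral_finsetSum _ fun l _ => integrable_finsetSum _ fun j _ =>
        (tiif_int hg _).const_mul _]
      refine Finset.sum_congr rfl fun l hl => ?_
      rw [integral_finsetSum _ fun j _ => (tiif_int hg _).const_mul _]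
      refine Finset.sum_congr rfl fun j hj => ?_
      have hl' : 0 < l := by
        have := (Finset.mem_Ioc.1 hl).1
        omega
      have hj' : 0 < j := (Finset.mem_Ioc.1 hj).1
      have hx : (0 : ℝ) < ((l * j : ℕ) : ℝ) / X := by
        have : (0 : ℝ) < ((l * j : ℕ) : ℝ) := by exact_mod_cast Nat.mul_pos hl' hj'
        positivity
      rw [integral_const_mul, hsep _ hx]
      rfl
    rw [e1]
    refine Finset.sum_congr rfl fun l hl => ?_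
    obtain ⟨hl1, hl2⟩ := Finset.mem_Ioc.1 hl
    have hsub : Icc 1 (X / l) ⊆ Ioc 0 (X / V) := by
      intro j hj
      rw [Finset.mem_Icc] at hj
      rw [Finset.mem_Ioc]
      exact ⟨by omega, hj.2.trans (Nat.div_le_div_left hl1.le (by omega))⟩
    have e2 : ∀ j ∈ Icc 1 (X / l), a l * b j *
        ((χ ((l * j : ℕ) : ZMod k) * ψ ((l * j : ℕ) : ZMod M)) *
          ((η (((l * j : ℕ) : ℝ) / X) : ℝ) : ℂ)) =
        (a l * b j * (χ ((l * j : ℕ) : ZMod k) * ψ ((l * j : ℕ) : ZMod M))) *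
          ((η (((l * j : ℕ) : ℝ) / X) : ℝ) : ℂ) :=
      fun j _ => by ring
    rw [Finset.sum_congr rfl e2]
    refine Finset.sum_subset hsub fun j hj hj' => ?_
    have h1 : X / l < j := by
      by_contra h
      exact hj' (Finset.mem_Icc.2 ⟨(Finset.mem_Ioc.1 hj).1, not_lt.1 h⟩)
    have h2 : X < l * j := by
      have := (Nat.div_lt_iff_lt_mul (by omega : 0 < l)).1 h1
      rwa [mul_comm] at this
    have h3 : η (((l * j : ℕ) : ℝ) / X) = 0 := by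
      by_contra h
      have h4 := (hη.supp _ h).2
      rw [div_lt_iff₀ hXpos] at h4
      have h5 : (X : ℝ) < ((l * j : ℕ) : ℝ) := by exact_mod_cast h2
      linarith
    rw [h3]
    simp
  -- one frequency
  set D : ℝ := CD * ((4 * X : ℕ) : ℝ) ^ (4 * ε) with hDdef
  have hD0 : 0 ≤ D := by positivity
  have hD : ∀ y, 1 ≤ y → y ≤ 4 * X → (y.divisors.card : ℝ) ≤ D := by
    intro y hy1 hy2
    refine (hdiv y hy1).trans (mul_le_mul_of_nonneg_left ?_ hCD.le)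
    exact Real.rpow_le_rpow (Nat.cast_nonneg _) (by exact_mod_cast hy2) (by positivity)
  have hD4 : D ^ (1 / 4 : ℝ) = CD ^ (1 / 4 : ℝ) * 4 ^ ε * (X : ℝ) ^ ε := by
    rw [hDdef, Real.mul_rpow hCD.le (by positivity), ← Real.rpow_mul (Nat.cast_nonneg _),
      show 4 * ε * (1 / 4 : ℝ) = ε by ring, Nat.cast_mul, Real.mul_rpow (by norm_num) hXpos.le]
    push_cast
    ring
  have hne : ∀ (c : ℕ → ℂ), (∀ x, ‖c x‖ ≤ 1) → ∀ ξ x, ‖c x * tiif_e ξ (Real.log x)‖ ≤ 1 := by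
    intro c hc ξ x
    rw [norm_mul, tiif_e_norm, mul_one]
    exact hc x
  have hVX : V * (X / V) ≤ X := Nat.mul_div_le X V
  have hUXV : U ≤ X / V := (Nat.le_div_iff_mul_le (by omega)).2 hUVX
  have hone : ∀ ξ, Fam K M (fun k χ ψ => ‖A k χ ψ ξ‖ * ‖B k χ ψ ξ‖ * J k χ ψ) ≤
      C2 * (X : ℝ) ^ ε * W * E := by
    intro ξ
    have hfin : 2 * C0 ^ (1 / 4 : ℝ) * Real.sqrt C0 * D ^ (1 / 4 : ℝ) * W * E =
        C2 * (X : ℝ) ^ ε * W * E := by
      rw [hD4, hC2]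
      ring
    rw [← hfin]
    rcases le_total V (X / V) with hc | hc
    · have := tiif_core hC0 hLS' (X := X) (S := V) (L := X / V) (U := U) (u := V) (v := 2 * V)
        (u' := 0) (v' := X / V) hK hM hU hc hVX ((Nat.mul_le_mul_right _ hUV).trans hVX) le_rfl
        (Nat.zero_le _) (by omega) hD hD0 (fun l => a l * tiif_e ξ (Real.log l))
        (fun j => b j * tiif_e ξ (Real.log j)) (hne a ha ξ) (hne b hb ξ) J hJ
      exact this
    · have := tiif_core hC0 hLS' (X := X) (S := X / V) (L := V) (U := U) (u := 0) (v := X / V)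
        (u' := V) (v' := 2 * V) hK hM hU hc (by rw [mul_comm]; exact hVX) hUVX (by omega)
        (by omega) (by omega) hD hD0 (fun j => b j * tiif_e ξ (Real.log j))
        (fun l => a l * tiif_e ξ (Real.log l)) (hne b hb ξ) (hne a ha ξ) J hJ
      refine le_trans (le_of_eq ?_) this
      congr 1
      funext k χ ψ
      rw [mul_comm ‖A k χ ψ ξ‖]
  calc Fam K M (fun k χ ψ => ‖∑ l ∈ Ioc V (2 * V), ∑ j ∈ Icc 1 (X / l), a l * b j *
      ((χ ((l * j : ℕ) : ZMod k) * ψ ((l * j : ℕ) : ZMod M)) *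
        ((η (((l * j : ℕ) : ℝ) / X) : ℝ) : ℂ))‖ * J k χ ψ)
      = Fam K M (fun k χ ψ => ‖∫ ξ, F k χ ψ ξ‖ * J k χ ψ) := by
        congr 1
        funext k χ ψ
        rw [hS]
    _ ≤ Fam K M (fun k χ ψ => ∫ ξ, ‖F k χ ψ ξ‖ * J k χ ψ) := by
        refine fam_mono fun k _ _ _ χ _ ψ => ?_
        rw [integral_mul_const]
        exact mul_le_mul_of_nonneg_right (norm_integral_le_integral_norm _) (hJ _ _ _)
    _ = ∫ ξ, Fam K M (fun k χ ψ => ‖F k χ ψ ξ‖ * J k χ ψ) := by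
        simp only [fam_eq]
        rw [integral_finsetSum _ fun i _ => (hFi _ _ _).norm.mul_const _]
    _ ≤ ∫ ξ, ‖g ξ‖ * (C2 * (X : ℝ) ^ ε * W * E) := by
        refine integral_mono ?_ (hg.norm.mul_const _) fun ξ => ?_
        · simp only [fam_eq]
          exact integrable_finsetSum _ fun i _ => (hFi _ _ _).norm.mul_const _
        · simp only [hFAB]
          have e3 : (fun (k : ℕ) (χ : DirichletCharacter ℂ k) (ψ : DirichletCharacter ℂ M) =>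
              ‖g ξ‖ * (‖A k χ ψ ξ‖ * ‖B k χ ψ ξ‖) * J k χ ψ) = fun k χ ψ =>
              ‖g ξ‖ * (‖A k χ ψ ξ‖ * ‖B k χ ψ ξ‖ * J k χ ψ) := by
            funext k χ ψ
            ring
          rw [e3, fam_mul_left]
          exact mul_le_mul_of_nonneg_left (hone ξ) (norm_nonneg _)
    _ = (∫ ξ, ‖g ξ‖) * (C2 * (X : ℝ) ^ ε * W * E) := integral_mul_const _ _
    _ ≤ ((∫ ξ, ‖g ξ‖) + 1) * (C2 * (X : ℝ) ^ ε * W * E) :=
        mul_le_mul_of_nonneg_right (by linarith) (by positivity)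
    _ = C2 * ((∫ ξ, ‖g ξ‖) + 1) * (X : ℝ) ^ ε * W * E := by ring

end Pool.Agent.CV
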