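import Mathlib
import Pool.Agent.CV.Stmts
import Pool.Agent.CU.TRed
import Pool.Agent.CH.ABV

set_option autoImplicit false

/-!
# CV / ZA

x = n - m q - r, j = n - r (natural numbers; eta(q/N) <> 0 only for N/8 < q < 7N/8, then x >= 1 and j = x + m q).  d | q iff d | m q ((d,m) = 1) iff x % d = j % d.  TZ g c d = sum_{q = c (g)} eta sum_r lam(x) [x = j (d)].  Pairs with (x,d) = (j,d) = 1: [x = j (d)] = (1/phi(d)) sum_{k | d} Ps k x j by St_ZId; other pairs do not occur in TG; in TZ they have x = j (d), so (x,d) > 1 (equivalent to (j,d) > 1):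
x determines (q,r), total <= sum_{x <= n, (x,d) > 1} lam x <= omega(d) log n <= 2 (1+log n)^2 (CU/TRed.lean and CH/ABV.lean have this for prime powers).
-/

namespace Pool.Agent.CV

open Finset Filter Pool.Agent.MT Pool.Agent.CH Pool.Agent.CU

theorem ZA_lam_nonneg (x : ℕ) : 0 ≤ lam x := ArithmeticFunction.vonMangoldt_nonneg

/-- the sum over all tiles of the part not coprime to the modulus -/
theorem ZA_non (N m n d : ℕ) (hn : 2 ≤ n) (hd : 1 ≤ d) (hdn : d ≤ n) (hmn : m * N ≤ n) :
    ∑ q ∈ range N, ∑ r ∈ range m,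
      (if ¬ (n - (m * q + r)).Coprime d then lam (n - (m * q + r)) else 0) ≤
      2 * Real.log n ^ 2 := by
  rw [← TRed_blocks m (fun y => if ¬ (n - y).Coprime d then lam (n - y) else 0) N]
  refine le_trans ?_ (noncoprime_part n d hn hd hdn)
  have h1 : ∑ y ∈ range (m * N), (if ¬ (n - y).Coprime d then lam (n - y) else 0) ≤
      ∑ y ∈ range (n + 1), (if ¬ (n - y).Coprime d then lam (n - y) else 0) := by
    refine sum_le_sum_of_subset_of_nonneg ?_ ?_
    · intro y hy
      rw [mem_range] at hy ⊢
      omega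
    · intro y _ _
      split_ifs
      · exact le_refl 0
      · exact ZA_lam_nonneg _
  refine h1.trans (le_of_eq ?_)
  have h2 := sum_range_reflect (fun x => if ¬ x.Coprime d then lam x else 0) (n + 1)
  rw [sum_filter]
  rw [Nat.add_sub_cancel] at h2
  exact h2

/-- the difference of the two weights at one pair -/
theorem ZA_term (η : ℝ → ℝ) (hη : IsWt η) (N m n d q r : ℕ) (hN : 1 ≤ N)
    (hmn : m * N ≤ n) (hd : d.Coprime m) (hq : q < N + 1) (hr : r < m) :
    |(if d ∣ q then η ((q : ℝ) / N) * lam (n - m * q - r) else 0) -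
      (if (n - m * q - r).Coprime d ∧ (n - r).Coprime d then
        η ((q : ℝ) / N) * (lam (n - m * q - r) *
          (if (n - m * q - r) % d = (n - r) % d then 1 else 0)) else 0)| ≤
      if q < N then (if ¬ (n - (m * q + r)).Coprime d then lam (n - (m * q + r)) else 0)
        else 0 := by
  by_cases hqN : q < N
  · rw [if_pos hqN]
    have e1 : n - m * q - r = n - (m * q + r) := Nat.sub_sub _ _ _
    rw [e1]
    have h1 : m * q + r < n := by
      have h2 : m * (q + 1) ≤ m * N := Nat.mul_le_mul_left m hqN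
      rw [Nat.mul_succ] at h2
      omega
    set x := n - (m * q + r) with hx
    have hj : n - r = x + m * q := by omega
    have hl := ZA_lam_nonneg x
    have he0 := hη.nonneg ((q : ℝ) / N)
    have he1 := hη.le_one ((q : ℝ) / N)
    have hdq : x % d = (n - r) % d ↔ d ∣ q := by
      rw [hj]
      constructor
      · intro h
        have h3 : d ∣ x + m * q - x := (Nat.modEq_iff_dvd' (Nat.le_add_right x (m * q))).1 h
        rw [Nat.add_sub_cancel_left] at h3
        exact hd.dvd_of_dvd_mul_left h3
      · intro h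
        have h3 : d ∣ m * q := Dvd.dvd.mul_left h m
        exact (Nat.modEq_iff_dvd' (Nat.le_add_right x (m * q))).2
          (by rw [Nat.add_sub_cancel_left]; exact h3)
    have hcop : d ∣ q → ((n - r).Coprime d ↔ x.Coprime d) := by
      intro h
      have h3 : d ∣ m * q := Dvd.dvd.mul_left h m
      obtain ⟨t, ht⟩ := h3
      rw [hj, ht]
      exact Nat.coprime_add_mul_left_left x d t
    by_cases h : d ∣ q
    · rw [if_pos h, if_pos (hdq.2 h)]
      by_cases hc : x.Coprime d
      · rw [if_pos ⟨hc, (hcop h).2 hc⟩, if_neg (not_not.2 hc), mul_one, sub_self, abs_zero]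
      · rw [if_neg (fun h' => hc h'.1), if_pos hc, sub_zero, abs_of_nonneg (mul_nonneg he0 hl)]
        calc η ((q : ℝ) / N) * lam x ≤ 1 * lam x := mul_le_mul_of_nonneg_right he1 hl
          _ = lam x := one_mul _
    · rw [if_neg h, if_neg (fun h' => h (hdq.1 h'))]
      rw [mul_zero, mul_zero, ite_self, sub_zero, abs_zero]
      split_ifs
      · exact le_refl 0
      · exact hl
  · rw [if_neg hqN]
    have hqe : q = N := by omega
    have hNR : (N : ℝ) ≠ 0 := by exact_mod_cast (by omega : N ≠ 0)
    have h0 : η ((q : ℝ) / N) = 0 := by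
      by_contra hne
      have h2 := (hη.supp _ hne).2
      rw [hqe, div_self hNR] at h2
      norm_num at h2
    rw [h0, zero_mul, zero_mul, ite_self, ite_self, sub_self, abs_zero]

/-- the sum over the conductors -/
theorem ZA_sum (h : St_ZId) (η : ℝ → ℝ) (N m n g c d : ℕ) (hd : 1 ≤ d) :
    1 / (d.totient : ℂ) * ∑ k ∈ d.divisors, TG η N m n g c d k =
      ((∑ q ∈ (range (N + 1)).filter (fun q => q % g = c % g), ∑ r ∈ range m,
        (if (n - m * q - r).Coprime d ∧ (n - r).Coprime d then
          η ((q : ℝ) / N) * (lam (n - m * q - r) *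
            (if (n - m * q - r) % d = (n - r) % d then 1 else 0)) else 0) : ℝ) : ℂ) := by
  have hφ : (d.totient : ℂ) ≠ 0 := by
    exact_mod_cast (Nat.totient_pos.mpr (by omega)).ne'
  have h1 : ∑ k ∈ d.divisors, TG η N m n g c d k =
      ∑ q ∈ (range (N + 1)).filter (fun q => q % g = c % g), ((η ((q : ℝ) / N) : ℝ) : ℂ) *
        ∑ r ∈ (range m).filter (fun r => (n - m * q - r).Coprime d ∧ (n - r).Coprime d),
          ((lam (n - m * q - r) : ℝ) : ℂ) *
            (if (n - m * q - r) % d = (n - r) % d then (d.totient : ℂ) else 0) := by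
    unfold TG
    rw [sum_comm]
    refine sum_congr rfl fun q _ => ?_
    rw [← mul_sum, sum_comm]
    congr 1
    refine sum_congr rfl fun r hr => ?_
    rw [mem_filter] at hr
    rw [← mul_sum, h.1 d _ _ hd hr.2.1 hr.2.2]
  rw [h1, mul_sum, Complex.ofReal_sum]
  refine sum_congr rfl fun q _ => ?_
  rw [Complex.ofReal_sum, sum_filter, mul_sum, mul_sum]
  refine sum_congr rfl fun r _ => ?_
  by_cases h2 : (n - m * q - r).Coprime d ∧ (n - r).Coprime d
  · rw [if_pos h2, if_pos h2]
    by_cases h3 : (n - m * q - r) % d = (n - r) % d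
    · rw [if_pos h3, if_pos h3]
      push_cast
      field_simp
    · rw [if_neg h3, if_neg h3]
      push_cast
      ring
  · rw [if_neg h2, if_neg h2]
    push_cast
    ring

/-- keep this signature -/
theorem thm_ZA (h : St_ZId) : St_ZA := by
  intro η hη
  refine ⟨2, by norm_num, ?_⟩
  intro N m n g c d w hN hT hg hgN hc hdZ
  obtain ⟨hm, h1, h2⟩ := hT
  unfold ZD at hdZ
  rw [mem_filter, mem_Icc] at hdZ
  obtain ⟨⟨hd1, hdN⟩, -, hdm, -⟩ := hdZ
  have hdm' : d.Coprime m := hdm.coprime_mul_right_right
  have hNn : N ≤ n := le_trans (Nat.le_mul_of_pos_left N hm) h1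
  rw [ZA_sum h η N m n g c d hd1, ← Complex.ofReal_sub, Complex.norm_real, Real.norm_eq_abs]
  have h3 : TZ η N m n g c d = ∑ q ∈ (range (N + 1)).filter (fun q => q % g = c % g),
      ∑ r ∈ range m, (if d ∣ q then η ((q : ℝ) / N) * lam (n - m * q - r) else 0) := by
    unfold TZ
    rw [← filter_filter, sum_filter]
    refine sum_congr rfl fun q _ => ?_
    by_cases h4 : d ∣ q
    · rw [if_pos h4]
      unfold tl
      rw [mul_sum]
      refine sum_congr rfl fun r _ => ?_
      rw [if_pos h4]
    · rw [if_neg h4]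
      symm
      refine sum_eq_zero fun r _ => ?_
      rw [if_neg h4]
  rw [h3, ← sum_sub_distrib]
  have h5 : |∑ q ∈ (range (N + 1)).filter (fun q => q % g = c % g),
      (∑ r ∈ range m, (if d ∣ q then η ((q : ℝ) / N) * lam (n - m * q - r) else 0) -
        ∑ r ∈ range m, (if (n - m * q - r).Coprime d ∧ (n - r).Coprime d then
          η ((q : ℝ) / N) * (lam (n - m * q - r) *
            (if (n - m * q - r) % d = (n - r) % d then 1 else 0)) else 0))| ≤
      ∑ q ∈ range N, ∑ r ∈ range m,
        (if ¬ (n - (m * q + r)).Coprime d then lam (n - (m * q + r)) else 0) := by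
    refine (abs_sum_le_sum_abs _ _).trans ?_
    have h6 : ∀ q ∈ (range (N + 1)).filter (fun q => q % g = c % g),
        |∑ r ∈ range m, (if d ∣ q then η ((q : ℝ) / N) * lam (n - m * q - r) else 0) -
        ∑ r ∈ range m, (if (n - m * q - r).Coprime d ∧ (n - r).Coprime d then
          η ((q : ℝ) / N) * (lam (n - m * q - r) *
            (if (n - m * q - r) % d = (n - r) % d then 1 else 0)) else 0)| ≤
        if q < N then ∑ r ∈ range m,
          (if ¬ (n - (m * q + r)).Coprime d then lam (n - (m * q + r)) else 0) else 0 := by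
      intro q hq
      rw [mem_filter, mem_range] at hq
      rw [← sum_sub_distrib]
      refine (abs_sum_le_sum_abs _ _).trans ?_
      refine (sum_le_sum fun r hr => ZA_term η hη N m n d q r (by omega) h1 hdm' hq.1
        (mem_range.1 hr)).trans ?_
      by_cases h7 : q < N
      · simp only [if_pos h7]
        exact le_refl _
      · simp only [if_neg h7]
        rw [sum_const_zero]
    refine (sum_le_sum h6).trans ?_
    have h8 : ∀ q : ℕ, 0 ≤ ∑ r ∈ range m,
        (if ¬ (n - (m * q + r)).Coprime d then lam (n - (m * q + r)) else 0) := by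
      intro q
      refine sum_nonneg fun r _ => ?_
      split_ifs
      · exact le_refl 0
      · exact ZA_lam_nonneg _
    rw [← sum_filter]
    refine sum_le_sum_of_subset_of_nonneg ?_ fun q _ _ => h8 q
    intro q hq
    rw [mem_filter] at hq
    exact mem_range.2 hq.2
  refine h5.trans ((ZA_non N m n d (by omega) hd1 (hdN.trans hNn) h1).trans ?_)
  have hlog : 0 ≤ Real.log n := Real.log_natCast_nonneg n
  nlinarith

end Pool.Agent.CV
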