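import Mathlib
import Pool.Agent.CV.Stmts
import Pool.Agent.CU.TRed
import Pool.Agent.CH.ABV

set_option autoImplicit false

/-!
# CV / ZB

As in ZA with x = n - m q - r, j = n - r.  For (x,d) = (j,d) = 1, k | d: Ps k x j = sum_{k1 | k} mu(k/k1) phi(k1) [x = j (k1)] (St_ZId), and [x = j (k1)] iff k1 | q.  So TG k = sum_{k1 | k} mu(k/k1) phi(k1) (TZ g c k1 - R(k1)), R(k1) = contribution of the pairs with k1 | q and ((x,d) > 1 or (j,d) > 1).
(x,d) > 1: <= sum_{x <= n, (x,d)>1} lam x <= 2(1+log n)^2.  (j,d) > 1: some prime l | d, l > w divides j = n - r: at most m/w + 1 values r for each l; for each r the q satisfy q = c (g), k1 | q: at most N/(g k1) + 1 values (one class modulo g k1, (k1,g) = 1), lam <= log n: <= omega(d) (m/w+1) (N/(g k1) + 1) log n, and phi(k1) times this is <= omega(d) (m/w+1)(n/(m g) + phi(k)) log n (m N <= n).  2^omega(k) values k1.  omega(d) <= 2 log n.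
-/

namespace Pool.Agent.CV

open Finset Filter Pool.Agent.MT Pool.Agent.CH Pool.Agent.CU

theorem zb_lam_nonneg (x : ℕ) : 0 ≤ lam x := ArithmeticFunction.vonMangoldt_nonneg

theorem zb_omega (d n : ℕ) (hd : 1 ≤ d) (hdn : d ≤ n) :
    (d.primeFactors.card : ℝ) ≤ 2 * Real.log n := by
  have h7 : 2 ^ d.primeFactors.card ≤ d := by
    calc 2 ^ d.primeFactors.card ≤ ∏ p ∈ d.primeFactors, p := by
          rw [← prod_const]
          apply prod_le_prod'
          intro p hp
          exact (Nat.prime_of_mem_primeFactors hp).two_le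
      _ ≤ d := Nat.le_of_dvd (by omega) (Nat.prod_primeFactors_dvd d)
  have h8 : (d.primeFactors.card : ℝ) * Real.log 2 ≤ Real.log n := by
    rw [← Real.log_pow]
    apply Real.log_le_log (by positivity)
    exact_mod_cast h7.trans hdn
  have hl2 : 0.6931471803 < Real.log 2 := Real.log_two_gt_d9
  have h9 : (0 : ℝ) ≤ d.primeFactors.card := by positivity
  nlinarith

/-- pairs with `x` not coprime to `d` -/
theorem zb_x (N m n d : ℕ) (hT : Tile N m n) (hn : 2 ≤ n) (hd : 1 ≤ d) (hdn : d ≤ n) :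
    ∑ q ∈ range (N + 1), ∑ r ∈ (range m).filter (fun r => ¬ (n - m * q - r).Coprime d),
      lam (n - m * q - r) ≤ 2 * Real.log n ^ 2 := by
  obtain ⟨hm, h1, h2⟩ := hT
  have e1 : ∑ q ∈ range (N + 1), ∑ r ∈ (range m).filter (fun r => ¬ (n - m * q - r).Coprime d),
      lam (n - m * q - r) = ∑ y ∈ range (m * (N + 1)),
        if ¬ (n - y).Coprime d then lam (n - y) else 0 := by
    rw [TRed_blocks]
    refine sum_congr rfl fun q _ => ?_
    rw [sum_filter]
    refine sum_congr rfl fun r _ => ?_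
    rw [Nat.sub_sub]
  have e2 : ∑ y ∈ range (n + 1), (if ¬ (n - y).Coprime d then lam (n - y) else 0) =
      ∑ y ∈ range (m * (N + 1)), if ¬ (n - y).Coprime d then lam (n - y) else 0 := by
    apply sum_subset
    · intro y hy
      rw [mem_range] at hy ⊢
      omega
    · intro y _ hy2
      rw [mem_range, not_lt] at hy2
      have h3 : n - y = 0 := by omega
      rw [h3]
      simp [lam]
  have e3 : ∑ y ∈ range (n + 1), (if ¬ (n - y).Coprime d then lam (n - y) else 0) =
      ∑ x ∈ (range (n + 1)).filter (fun x => ¬ x.Coprime d), ArithmeticFunction.vonMangoldt x := by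
    rw [sum_filter, ← sum_range_reflect]
    refine sum_congr rfl fun y hy => ?_
    rw [mem_range] at hy
    have h4 : n - (n + 1 - 1 - y) = y := by omega
    rw [h4]
    rfl
  rw [e1, ← e2, e3]
  exact noncoprime_part n d hn hd hdn

theorem zb_cnt (M l c : ℕ) :
    ((range M).filter (fun r => r % l = c)).card ≤ M / l + 1 := by
  rw [← card_range (M / l + 1)]
  apply card_le_card_of_injOn (fun q => q / l)
  · intro q hq
    rw [mem_coe, mem_filter, mem_range] at hq
    rw [mem_coe, mem_range]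
    exact Nat.lt_succ_of_le (Nat.div_le_div_right (by omega))
  · intro a ha b hb hab
    rw [mem_coe, mem_filter] at ha hb
    have h3 := Nat.div_add_mod a l
    have h4 := Nat.div_add_mod b l
    have hab' : a / l = b / l := hab
    rw [ha.2] at h3
    rw [hb.2, ← hab'] at h4
    omega

/-- the number of `q` -/
theorem zb_q (N g c k : ℕ) (hgk : g.Coprime k) :
    (((range (N + 1)).filter (fun q => q % g = c % g ∧ k ∣ q)).card : ℝ) ≤ N / (g * k) + 1 := by
  have h1 : ((range (N + 1)).filter (fun q => q % g = c % g ∧ k ∣ q)).card ≤ N / (g * k) + 1 := by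
    rw [← card_range (N / (g * k) + 1)]
    apply card_le_card_of_injOn (fun q => q / (g * k))
    · intro q hq
      rw [mem_coe, mem_filter, mem_range] at hq
      rw [mem_coe, mem_range]
      exact Nat.lt_succ_of_le (Nat.div_le_div_right (by omega))
    · intro a ha b hb hab
      rw [mem_coe, mem_filter] at ha hb
      have h3 := Nat.div_add_mod a (g * k)
      have h4 := Nat.div_add_mod b (g * k)
      have hab' : a / (g * k) = b / (g * k) := hab
      have h5 : a ≡ b [MOD g * k] := by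
        rw [← Nat.modEq_and_modEq_iff_modEq_mul hgk]
        refine ⟨ha.2.1.trans hb.2.1.symm, ?_⟩
        exact (Nat.modEq_zero_iff_dvd.2 ha.2.2).trans (Nat.modEq_zero_iff_dvd.2 hb.2.2).symm
      have h6 : a % (g * k) = b % (g * k) := h5
      rw [hab', h6] at h3
      omega
  have h2 : (((range (N + 1)).filter (fun q => q % g = c % g ∧ k ∣ q)).card : ℝ) ≤
      ((N / (g * k) : ℕ) : ℝ) + 1 := by exact_mod_cast h1
  have h3 := @Nat.cast_div_le ℝ _ _ _ N (g * k)
  rw [Nat.cast_mul] at h3
  linarith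

/-- the number of `r` with `n - r` not coprime to `d` -/
theorem zb_r (m n d w : ℕ) (hmn : m ≤ n) (hw : 1 ≤ w) (hd : ∀ l ∈ d.primeFactors, w < l)
    (hd0 : d ≠ 0) :
    (((range m).filter (fun r => ¬ (n - r).Coprime d)).card : ℝ) ≤
      d.primeFactors.card * ((m : ℝ) / w + 1) := by
  have h1 : (range m).filter (fun r => ¬ (n - r).Coprime d) ⊆
      d.primeFactors.biUnion (fun l => (range m).filter (fun r => r % l = n % l)) := by
    intro r hr
    rw [mem_filter, mem_range] at hr
    obtain ⟨l, hl, hl1, hl2⟩ := Nat.Prime.not_coprime_iff_dvd.1 hr.2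
    rw [mem_biUnion]
    refine ⟨l, Nat.mem_primeFactors.2 ⟨hl, hl2, hd0⟩, ?_⟩
    rw [mem_filter, mem_range]
    refine ⟨hr.1, ?_⟩
    have h2 : r ≡ n [MOD l] := (Nat.modEq_iff_dvd' (by omega)).2 hl1
    exact h2
  have h3 : (((range m).filter (fun r => ¬ (n - r).Coprime d)).card : ℝ) ≤
      ∑ l ∈ d.primeFactors, (((range m).filter (fun r => r % l = n % l)).card : ℝ) := by
    have h4 := (card_le_card h1).trans card_biUnion_le
    exact_mod_cast h4
  refine h3.trans ?_
  have hwR : (0 : ℝ) < w := by exact_mod_cast hw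
  calc ∑ l ∈ d.primeFactors, (((range m).filter (fun r => r % l = n % l)).card : ℝ)
      ≤ ∑ l ∈ d.primeFactors, ((m : ℝ) / w + 1) := by
        refine sum_le_sum fun l hl => ?_
        have h5 : (((range m).filter (fun r => r % l = n % l)).card : ℝ) ≤
            ((m / l : ℕ) : ℝ) + 1 := by
          exact_mod_cast zb_cnt m l (n % l)
        have h6 := @Nat.cast_div_le ℝ _ _ _ m l
        have h7 : (w : ℝ) ≤ l := by exact_mod_cast (hd l hl).le
        have h8 : (m : ℝ) / l ≤ m / w := div_le_div_of_nonneg_left (by positivity) hwR h7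
        linarith
    _ = _ := by rw [sum_const, nsmul_eq_mul]

/-- divisors of a squarefree number -/
theorem zb_div (k : ℕ) (hk : Squarefree k) : k.divisors.card = 2 ^ k.primeFactors.card := by
  rw [Nat.card_divisors hk.ne_zero, ← prod_const]
  refine prod_congr rfl fun p hp => ?_
  rw [Nat.factorization_eq_one_of_squarefree hk (Nat.prime_of_mem_primeFactors hp)
    (Nat.dvd_of_mem_primeFactors hp)]

/-- the truncation does not matter -/
theorem zb_eta (η : ℝ → ℝ) (hη : IsWt η) (N q : ℕ) (hN : 1 ≤ N) (h : η ((q : ℝ) / N) ≠ 0) :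
    q + 1 ≤ N := by
  have h1 := (hη.supp _ h).2
  have hNR : (0 : ℝ) < N := by exact_mod_cast hN
  rw [div_lt_iff₀ hNR] at h1
  have h2 : (q : ℝ) < N := by linarith
  have h3 : q < N := by exact_mod_cast h2
  omega

/-- the class of `x` -/
theorem zb_mod (x j q m k : ℕ) (hj : x + m * q = j) (hk : k.Coprime m) :
    x % k = j % k ↔ k ∣ q := by
  rw [← hj]
  constructor
  · intro h
    have h1 : x + 0 ≡ x + m * q [MOD k] := h
    have h2 : 0 ≡ m * q [MOD k] := Nat.ModEq.add_left_cancel' x h1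
    have h3 : k ∣ m * q := (Nat.modEq_zero_iff_dvd).1 h2.symm
    exact hk.dvd_of_dvd_mul_left h3
  · rintro ⟨t, rfl⟩
    have : x + m * (k * t) = x + k * (m * t) := by ring
    rw [this, Nat.add_mul_mod_self_left]

/-- the sum over the pairs in the class -/
noncomputable def zbA (η : ℝ → ℝ) (N m n g c d k : ℕ) : ℝ :=
  ∑ q ∈ (range (N + 1)).filter (fun q => q % g = c % g), η ((q : ℝ) / N) *
    ∑ r ∈ (range m).filter (fun r => (n - m * q - r).Coprime d ∧ (n - r).Coprime d),
      lam (n - m * q - r) * (if (n - m * q - r) % k = (n - r) % k then (k.totient : ℝ) else 0)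

theorem zb_TG (h : St_ZId) (η : ℝ → ℝ) (N m n g c d k : ℕ) (hk : 1 ≤ k) (hkd : k ∣ d) :
    TG η N m n g c d k = ((∑ k₁ ∈ k.divisors,
      ((ArithmeticFunction.moebius (k / k₁) : ℤ) : ℝ) * zbA η N m n g c d k₁ : ℝ) : ℂ) := by
  unfold TG zbA
  push_cast
  simp only [mul_sum]
  rw [sum_comm]
  refine sum_congr rfl fun q _ => ?_
  rw [sum_comm]
  refine sum_congr rfl fun r hr => ?_
  rw [mem_filter] at hr
  rw [h.2 k _ _ hk (Nat.Coprime.coprime_dvd_right hkd hr.2.1)
    (Nat.Coprime.coprime_dvd_right hkd hr.2.2), mul_sum, mul_sum]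
  refine sum_congr rfl fun k₁ _ => ?_
  by_cases hh : (n - m * q - r) % k₁ = (n - r) % k₁
  · rw [if_pos hh, if_pos hh, Complex.ofReal_natCast]
    ring
  · rw [if_neg hh, if_neg hh, Complex.ofReal_zero]
    ring

theorem zb_A (η : ℝ → ℝ) (hη : IsWt η) (N m n g c d k : ℕ) (hN : 1 ≤ N) (hT : Tile N m n)
    (hkm : k.Coprime m) :
    k.totient * TZ η N m n g c k - zbA η N m n g c d k =
      ∑ q ∈ (range (N + 1)).filter (fun q => q % g = c % g ∧ k ∣ q), k.totient *
        (η ((q : ℝ) / N) * ∑ r ∈ (range m).filter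
          (fun r => ¬ ((n - m * q - r).Coprime d ∧ (n - r).Coprime d)), lam (n - m * q - r)) := by
  obtain ⟨hm, h1, h2⟩ := hT
  have e1 : zbA η N m n g c d k =
      ∑ q ∈ (range (N + 1)).filter (fun q => q % g = c % g ∧ k ∣ q), k.totient *
        (η ((q : ℝ) / N) * ∑ r ∈ (range m).filter
          (fun r => (n - m * q - r).Coprime d ∧ (n - r).Coprime d), lam (n - m * q - r)) := by
    unfold zbA
    rw [← filter_filter, sum_filter (p := fun q => k ∣ q)]
    refine sum_congr rfl fun q _ => ?_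
    by_cases h0 : η ((q : ℝ) / N) = 0
    · rw [h0]
      simp
    have h3 := zb_eta η hη N q hN h0
    have h4 : m * (q + 1) ≤ m * N := Nat.mul_le_mul_left m h3
    have h5 : ∀ r ∈ (range m).filter (fun r => (n - m * q - r).Coprime d ∧ (n - r).Coprime d),
        lam (n - m * q - r) * (if (n - m * q - r) % k = (n - r) % k then (k.totient : ℝ) else 0) =
        lam (n - m * q - r) * (if k ∣ q then (k.totient : ℝ) else 0) := by
      intro r hr
      rw [mem_filter, mem_range] at hr
      have h6 : n - m * q - r + m * q = n - r := by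
        rw [Nat.mul_succ] at h4
        omega
      have h7 := zb_mod (n - m * q - r) (n - r) q m k h6 hkm
      by_cases h8 : k ∣ q
      · rw [if_pos h8, if_pos (h7.2 h8)]
      · rw [if_neg h8, if_neg (fun h9 => h8 (h7.1 h9))]
    rw [sum_congr rfl h5, ← sum_mul]
    by_cases h8 : k ∣ q
    · rw [if_pos h8, if_pos h8]
      ring
    · rw [if_neg h8, if_neg h8]
      ring
  rw [e1, TZ, mul_sum, ← sum_sub_distrib]
  refine sum_congr rfl fun q _ => ?_
  rw [tl, ← mul_sub, ← mul_sub, ← sum_filter_add_sum_filter_not (range m)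
    (fun r => (n - m * q - r).Coprime d ∧ (n - r).Coprime d)]
  ring

theorem zb_R (η : ℝ → ℝ) (hη : IsWt η) (N m n g c d k w : ℕ) (hT : Tile N m n)
    (hn : 2 ≤ n) (hd : 1 ≤ d) (hdn : d ≤ n) (hmn : m ≤ n) (hw : 1 ≤ w)
    (hlw : ∀ l ∈ d.primeFactors, w < l) (hgk : g.Coprime k) :
    ∑ q ∈ (range (N + 1)).filter (fun q => q % g = c % g ∧ k ∣ q), k.totient *
        (η ((q : ℝ) / N) * ∑ r ∈ (range m).filter
          (fun r => ¬ ((n - m * q - r).Coprime d ∧ (n - r).Coprime d)), lam (n - m * q - r)) ≤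
      k.totient * (2 * Real.log n ^ 2 + ((N : ℝ) / (g * k) + 1) *
        ((2 * Real.log n * ((m : ℝ) / w + 1)) * Real.log n)) := by
  have hL : 0 ≤ Real.log n := Real.log_natCast_nonneg n
  rw [← mul_sum]
  apply mul_le_mul_of_nonneg_left _ (Nat.cast_nonneg _)
  have h1 : ∀ q ∈ (range (N + 1)).filter (fun q => q % g = c % g ∧ k ∣ q),
      η ((q : ℝ) / N) * ∑ r ∈ (range m).filter
          (fun r => ¬ ((n - m * q - r).Coprime d ∧ (n - r).Coprime d)), lam (n - m * q - r) ≤
      ∑ r ∈ (range m).filter (fun r => ¬ (n - m * q - r).Coprime d), lam (n - m * q - r) +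
        (2 * Real.log n * ((m : ℝ) / w + 1)) * Real.log n := by
    intro q _
    have a0 : 0 ≤ ∑ r ∈ (range m).filter
        (fun r => ¬ ((n - m * q - r).Coprime d ∧ (n - r).Coprime d)), lam (n - m * q - r) :=
      sum_nonneg fun r _ => zb_lam_nonneg _
    have a1 : η ((q : ℝ) / N) * ∑ r ∈ (range m).filter
          (fun r => ¬ ((n - m * q - r).Coprime d ∧ (n - r).Coprime d)), lam (n - m * q - r) ≤
        ∑ r ∈ (range m).filter
          (fun r => ¬ ((n - m * q - r).Coprime d ∧ (n - r).Coprime d)), lam (n - m * q - r) :=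
      mul_le_of_le_one_left a0 (hη.le_one _)
    refine a1.trans ?_
    have a2 : ∑ r ∈ (range m).filter
          (fun r => ¬ ((n - m * q - r).Coprime d ∧ (n - r).Coprime d)), lam (n - m * q - r) ≤
        ∑ r ∈ (range m).filter (fun r => ¬ (n - m * q - r).Coprime d), lam (n - m * q - r) +
        ∑ r ∈ (range m).filter (fun r => ¬ (n - r).Coprime d), Real.log n := by
      rw [sum_filter, sum_filter, sum_filter, ← sum_add_distrib]
      refine sum_le_sum fun r _ => ?_
      have b1 := zb_lam_nonneg (n - m * q - r)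
      have b2 := TRed_lam_le (n - m * q - r) n (by omega)
      by_cases c1 : (n - m * q - r).Coprime d
      · by_cases c2 : (n - r).Coprime d
        · simp [c1, c2]
        · rw [if_pos (fun hh => c2 hh.2), if_neg (not_not.2 c1), if_pos c2, zero_add]
          exact b2
      · by_cases c2 : (n - r).Coprime d
        · simp [c1, c2]
        · rw [if_pos (fun hh => c2 hh.2), if_pos c1, if_pos c2]
          linarith
    refine a2.trans ?_
    rw [sum_const, nsmul_eq_mul]
    have a3 := zb_r m n d w hmn hw hlw (by omega)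
    have a4 := zb_omega d n hd hdn
    have a5 : (0 : ℝ) ≤ (m : ℝ) / w + 1 := by positivity
    have a6 : (((range m).filter (fun r => ¬ (n - r).Coprime d)).card : ℝ) ≤
        2 * Real.log n * ((m : ℝ) / w + 1) :=
      a3.trans (mul_le_mul_of_nonneg_right a4 a5)
    have a7 := mul_le_mul_of_nonneg_right a6 hL
    linarith
  refine (sum_le_sum h1).trans ?_
  rw [sum_add_distrib, sum_const, nsmul_eq_mul]
  have h2 : ∑ q ∈ (range (N + 1)).filter (fun q => q % g = c % g ∧ k ∣ q),
      ∑ r ∈ (range m).filter (fun r => ¬ (n - m * q - r).Coprime d), lam (n - m * q - r) ≤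
      2 * Real.log n ^ 2 := by
    refine le_trans ?_ (zb_x N m n d hT hn hd hdn)
    exact sum_le_sum_of_subset_of_nonneg (filter_subset _ _)
      fun q _ _ => sum_nonneg fun r _ => zb_lam_nonneg _
  have h3 := zb_q N g c k hgk
  have h4 : 0 ≤ (2 * Real.log n * ((m : ℝ) / w + 1)) * Real.log n := by positivity
  have h5 := mul_le_mul_of_nonneg_right h3 h4
  linarith

/-- keep this signature -/
theorem thm_ZB (h : St_ZId) : St_ZB := by
  intro η hη
  refine ⟨4, by norm_num, ?_⟩
  intro N m n g c d w k hN hT hw hg hgN hc hd hkd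
  have hT' := hT
  obtain ⟨hm, h1, h2⟩ := hT'
  rw [ZD, mem_filter, mem_Icc] at hd
  obtain ⟨⟨hd1, hdN⟩, hsq, hcop, hlw⟩ := hd
  have hNn : N ≤ n := le_trans (Nat.le_mul_of_pos_left N hm) h1
  have hdn : d ≤ n := hdN.trans hNn
  have hmn : m ≤ n := le_trans (Nat.le_mul_of_pos_right m (by omega)) h1
  have hk1 : 1 ≤ k := Nat.pos_of_dvd_of_pos hkd (by omega)
  have hksq : Squarefree k := hsq.squarefree_of_dvd hkd
  have hL : 0 ≤ Real.log n := Real.log_natCast_nonneg n
  have hmR : (0 : ℝ) < m := by exact_mod_cast hm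
  have hgR : (0 : ℝ) < g := by exact_mod_cast hg
  have hwR : (0 : ℝ) < w := by exact_mod_cast hw
  have hφk : (0 : ℝ) ≤ k.totient := Nat.cast_nonneg _
  set B : ℝ := 4 * (1 + Real.log n) ^ 2 * (((m : ℝ) / w + 1) * (n / (m * g) + k.totient)) with hB
  have key : ∀ k₁ ∈ k.divisors,
      |zbA η N m n g c d k₁ - k₁.totient * TZ η N m n g c k₁| ≤ B := by
    intro k₁ hk₁
    have hk₁k : k₁ ∣ k := Nat.dvd_of_mem_divisors hk₁
    have hk₁1 : 1 ≤ k₁ := Nat.pos_of_dvd_of_pos hk₁k hk1
    have hk₁R : (0 : ℝ) < k₁ := by exact_mod_cast hk₁1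
    have c1 : k₁.Coprime (m * g) := Nat.Coprime.coprime_dvd_left (hk₁k.trans hkd) hcop
    have c2 : k₁.Coprime m := Nat.Coprime.coprime_dvd_right (dvd_mul_right _ _) c1
    have c3 : k₁.Coprime g := Nat.Coprime.coprime_dvd_right (dvd_mul_left _ _) c1
    have e1 := zb_A η hη N m n g c d k₁ (by omega) hT c2
    have e2 := zb_R η hη N m n g c d k₁ w hT (by omega) hd1 hdn hmn hw hlw c3.symm
    rw [← e1] at e2
    have e3 : 0 ≤ k₁.totient * TZ η N m n g c k₁ - zbA η N m n g c d k₁ := by
      rw [e1]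
      refine sum_nonneg fun q _ => mul_nonneg (Nat.cast_nonneg _) (mul_nonneg (hη.nonneg _)
        (sum_nonneg fun r _ => zb_lam_nonneg _))
    rw [abs_sub_comm, abs_of_nonneg e3]
    refine e2.trans ?_
    have f1 : (k₁.totient : ℝ) ≤ k.totient := by
      exact_mod_cast Nat.le_of_dvd (Nat.totient_pos.2 (by omega)) (Nat.totient_dvd_of_dvd hk₁k)
    have f2 : (k₁.totient : ℝ) ≤ k₁ := by exact_mod_cast Nat.totient_le k₁
    have f3 : (k₁.totient : ℝ) * ((N : ℝ) / (g * k₁) + 1) ≤ n / (m * g) + k.totient := by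
      have g1 : (k₁.totient : ℝ) * ((N : ℝ) / (g * k₁)) ≤ n / (m * g) := by
        calc (k₁.totient : ℝ) * ((N : ℝ) / (g * k₁)) ≤ k₁ * ((N : ℝ) / (g * k₁)) := by gcongr
          _ = N / g := by field_simp
          _ ≤ n / (m * g) := by
            rw [div_le_div_iff₀ hgR (by positivity)]
            have g2 : (m : ℝ) * N ≤ n := by exact_mod_cast h1
            nlinarith
      linarith
    have f4 : (0 : ℝ) ≤ (m : ℝ) / w := by positivity
    have f5 : (0 : ℝ) ≤ n / (m * g) := by positivity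
    have f6 : (k₁.totient : ℝ) ≤ ((m : ℝ) / w + 1) * (n / (m * g) + k.totient) := by
      have : (0 : ℝ) ≤ (m : ℝ) / w * (n / (m * g) + k.totient) := by positivity
      linarith
    have f7 : 0 ≤ ((m : ℝ) / w + 1) * (n / (m * g) + k.totient) := by positivity
    have f8 : Real.log n ^ 2 ≤ (1 + Real.log n) ^ 2 := by nlinarith
    have f9 : 0 ≤ Real.log n ^ 2 := sq_nonneg _
    calc (k₁.totient : ℝ) * (2 * Real.log n ^ 2 + ((N : ℝ) / (g * k₁) + 1) *
          ((2 * Real.log n * ((m : ℝ) / w + 1)) * Real.log n)) =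
          2 * Real.log n ^ 2 * k₁.totient + 2 * Real.log n ^ 2 * (((m : ℝ) / w + 1) *
            (k₁.totient * ((N : ℝ) / (g * k₁) + 1))) := by ring
      _ ≤ 2 * Real.log n ^ 2 * (((m : ℝ) / w + 1) * (n / (m * g) + k.totient)) +
          2 * Real.log n ^ 2 * (((m : ℝ) / w + 1) * (n / (m * g) + k.totient)) := by gcongr
      _ = 4 * Real.log n ^ 2 * (((m : ℝ) / w + 1) * (n / (m * g) + k.totient)) := by ring
      _ ≤ B := by
        rw [hB]
        gcongr
  rw [zb_TG h η N m n g c d k hk1 hkd, ← Complex.ofReal_sub, Complex.norm_real, Real.norm_eq_abs,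
    ← sum_sub_distrib]
  refine (abs_sum_le_sum_abs _ _).trans ?_
  have hfin : ∀ k₁ ∈ k.divisors,
      |((ArithmeticFunction.moebius (k / k₁) : ℤ) : ℝ) * zbA η N m n g c d k₁ -
        ((ArithmeticFunction.moebius (k / k₁) : ℤ) : ℝ) * k₁.totient * TZ η N m n g c k₁| ≤ B := by
    intro k₁ hk₁
    have g1 : ((ArithmeticFunction.moebius (k / k₁) : ℤ) : ℝ) * zbA η N m n g c d k₁ -
        ((ArithmeticFunction.moebius (k / k₁) : ℤ) : ℝ) * k₁.totient * TZ η N m n g c k₁ =
        ((ArithmeticFunction.moebius (k / k₁) : ℤ) : ℝ) *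
          (zbA η N m n g c d k₁ - k₁.totient * TZ η N m n g c k₁) := by ring
    rw [g1, abs_mul]
    have g2 : |((ArithmeticFunction.moebius (k / k₁) : ℤ) : ℝ)| ≤ 1 := by
      have := ArithmeticFunction.abs_moebius_le_one (n := k / k₁)
      exact_mod_cast this
    calc |((ArithmeticFunction.moebius (k / k₁) : ℤ) : ℝ)| *
          |zbA η N m n g c d k₁ - k₁.totient * TZ η N m n g c k₁| ≤
          1 * |zbA η N m n g c d k₁ - k₁.totient * TZ η N m n g c k₁| := by gcongr
      _ ≤ B := by
        rw [one_mul]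
        exact key k₁ hk₁
  refine (sum_le_sum hfin).trans ?_
  rw [sum_const, nsmul_eq_mul, zb_div k hksq, hB]
  push_cast
  exact le_of_eq (by ring)

end Pool.Agent.CV
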