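import Mathlib
import Pool.Agent.CV.Stmts
import Pool.Agent.CU.TRed
import Pool.Agent.CH.ABV
import Pool.Agent.MT.Wt

set_option autoImplicit false

/-!
# CV / ZC

k <> 1, k | d: Ps k x j = sum_{chi in prim k} chi(x) conj chi(j).  (1) Replace eta(q/N) by
etaR eta (x/X) = eta(1 - x/X), X = m N.  (2) remove the condition (x,d) = 1.  (3) for each j
(coprime to d) the class x = j - m c mod m g is detected by all characters modulo m g.
-/

namespace Pool.Agent.CV

open Finset Filter Pool.Agent.MT Pool.Agent.CH Pool.Agent.CU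

/-- sums over blocks -/
theorem ZC_blocks (m : ℕ) (F : ℕ → ℂ) (M : ℕ) :
    ∑ y ∈ range (m * M), F y = ∑ q ∈ range M, ∑ r ∈ range m, F (m * q + r) := by
  induction M with
  | zero => simp
  | succ M ih =>
    rw [sum_range_succ, ← ih, Nat.mul_succ, sum_range_add]

/-- trivial bound -/
theorem ZC_Ps_le (k x j : ℕ) (hk : 1 ≤ k) (hk1 : k ≠ 1) : ‖Ps k x j‖ ≤ (k.totient : ℝ) := by
  classical
  have : NeZero k := ⟨by omega⟩
  unfold Ps
  rw [if_neg hk1, zero_add]
  refine (norm_sum_le _ _).trans ?_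
  have h1 : ∀ χ ∈ prim k, ‖χ (x : ZMod k) * (starRingEnd ℂ) (χ (j : ZMod k))‖ ≤ 1 := by
    intro χ _
    rw [norm_mul, RCLike.norm_conj]
    exact mul_le_one₀ (χ.norm_le_one _) (norm_nonneg _) (χ.norm_le_one _)
  refine (sum_le_sum h1).trans ?_
  rw [sum_const, nsmul_eq_mul, mul_one]
  have h2 : (prim k).card ≤ k.totient := by
    refine (card_le_univ _).trans ?_
    rw [← Nat.card_eq_fintype_card, DirichletCharacter.card_eq_totient_of_hasEnoughRootsOfUnity ℂ k]
  exact_mod_cast h2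

/-- the sum in terms of `y = n - x` -/
theorem ZC_TG (η : ℝ → ℝ) (N m n g c d k : ℕ) (hm : 1 ≤ m) (hc : c < g) :
    TG η N m n g c d k = ∑ y ∈ range (m * (N + 1)),
      if (y / m) % g = c ∧ (n - y).Coprime d ∧ (n - y % m).Coprime d then
        ((η (((y / m : ℕ) : ℝ) / N) : ℝ) : ℂ) *
          (((lam (n - y) : ℝ) : ℂ) * Ps k (n - y) (n - y % m)) else 0 := by
  rw [ZC_blocks, TG, sum_filter, Nat.mod_eq_of_lt hc]
  apply sum_congr rfl
  intro q _
  have hq : ∀ r ∈ range m, (m * q + r) / m = q := fun r hr => by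
    rw [Nat.mul_add_div (by omega), Nat.div_eq_of_lt (mem_range.1 hr), add_zero]
  have hq2 : ∀ r ∈ range m, (m * q + r) % m = r := fun r hr => by
    rw [Nat.mul_add_mod, Nat.mod_eq_of_lt (mem_range.1 hr)]
  by_cases hqc : q % g = c
  · rw [if_pos hqc, mul_sum, sum_filter]
    apply sum_congr rfl
    intro r hr
    rw [hq r hr, hq2 r hr, Nat.sub_sub]
    by_cases hcop : (n - (m * q + r)).Coprime d ∧ (n - r).Coprime d
    · rw [if_pos hcop, if_pos ⟨hqc, hcop⟩]
    · rw [if_neg hcop, if_neg (fun h => hcop h.2)]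
  · rw [if_neg hqc]
    symm
    apply sum_eq_zero
    intro r hr
    rw [hq r hr, if_neg (fun h => hqc h.1)]

/-- the smooth weight as a function of `x` -/
theorem ZC_wt (η : ℝ → ℝ) (L : ℝ) (hL0 : 0 < L)
    (hL : ∀ x y : ℝ, |η x - η y| ≤ L * |x - y|) (N m n y : ℕ) (hN : 1 ≤ N) (hm : 1 ≤ m)
    (h1 : m * N ≤ n) (h2 : n < m * (N + 1)) (hyn : y ≤ n) :
    |η (((y / m : ℕ) : ℝ) / N) - etaR η (((n - y : ℕ) : ℝ) / ((m * N : ℕ) : ℝ))| ≤ L / N := by
  have hmR : (0 : ℝ) < m := by exact_mod_cast hm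
  have hNR : (0 : ℝ) < N := by exact_mod_cast hN
  unfold etaR
  refine (hL _ _).trans ?_
  have h3 : (y : ℝ) = m * ((y / m : ℕ) : ℝ) + ((y % m : ℕ) : ℝ) := by
    exact_mod_cast (Nat.div_add_mod y m).symm
  have h4 : (((y / m : ℕ) : ℝ) / N) - (1 - ((n - y : ℕ) : ℝ) / ((m * N : ℕ) : ℝ)) =
      (((n : ℝ) - m * N) - ((y % m : ℕ) : ℝ)) / (m * N) := by
    rw [Nat.cast_sub hyn, h3]
    push_cast
    field_simp
    ring
  rw [h4]
  have h5 : 0 ≤ ((n : ℝ) - m * N) := by
    have : ((m * N : ℕ) : ℝ) ≤ (n : ℝ) := by exact_mod_cast h1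
    push_cast at this
    linarith
  have h6 : ((n : ℝ) - m * N) ≤ m := by
    have : (n : ℝ) < ((m * (N + 1) : ℕ) : ℝ) := by exact_mod_cast h2
    push_cast at this
    linarith
  have h7 : (((y % m : ℕ) : ℝ)) ≤ m := by
    exact_mod_cast (Nat.mod_lt y (by omega)).le
  have h8 : (0 : ℝ) ≤ ((y % m : ℕ) : ℝ) := Nat.cast_nonneg _
  have h9 : |((n : ℝ) - m * N) - ((y % m : ℕ) : ℝ)| ≤ m := by
    rw [abs_le]
    constructor <;> linarith
  rw [abs_div, abs_of_pos (show (0 : ℝ) < m * N by positivity)]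
  have h10 : |((n : ℝ) - m * N) - ((y % m : ℕ) : ℝ)| / (m * N) ≤ 1 / N := by
    rw [div_le_div_iff₀ (by positivity) hNR]
    nlinarith
  calc L * (|((n : ℝ) - m * N) - ((y % m : ℕ) : ℝ)| / (m * N)) ≤ L * (1 / N) :=
        mul_le_mul_of_nonneg_left h10 hL0.le
    _ = L / N := by ring

/-- number of `y` with `y / m` in a class, weighted -/
theorem ZC_count (N m g c : ℕ) (hm : 1 ≤ m) (hg : 1 ≤ g) (hgN : g ≤ N) (B : ℝ) (hB : 0 ≤ B) :
    ∑ y ∈ range (m * (N + 1)), (if (y / m) % g = c then B else 0) ≤ 2 * (N : ℝ) * (m * B) := by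
  rw [TRed_blocks m (fun y => if (y / m) % g = c then B else 0) (N + 1)]
  have e1 : ∀ q ∈ range (N + 1), ∑ r ∈ range m,
      (if ((m * q + r) / m) % g = c then B else 0) =
      if q % g = c then m * B else 0 := by
    intro q _
    have hq : ∀ r ∈ range m, (if ((m * q + r) / m) % g = c then B else 0) =
        if q % g = c then B else 0 := fun r hr => by
      rw [Nat.mul_add_div (by omega), Nat.div_eq_of_lt (mem_range.1 hr), add_zero]
    rw [sum_congr rfl hq, sum_const, card_range, nsmul_eq_mul]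
    split_ifs
    · rfl
    · rw [mul_zero]
  rw [sum_congr rfl e1, ← sum_filter, sum_const, nsmul_eq_mul]
  have hgR : (1 : ℝ) ≤ g := by exact_mod_cast hg
  have h1 : 2 * (N : ℝ) / g ≤ 2 * N := div_le_self (by positivity) hgR
  exact mul_le_mul_of_nonneg_right ((TRed_count N g c hg hgN).trans h1) (by positivity)

/-- the arguments which are not coprime to `d` -/
theorem ZC_noncop (n M d : ℕ) (hn : 2 ≤ n) (hd : 1 ≤ d) (hdn : d ≤ n) :
    ∑ y ∈ range M, (if ¬ (n - y).Coprime d then lam (n - y) else 0) ≤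
      2 * Real.log n ^ 2 + 0 := by
  rw [add_zero]
  refine le_trans ?_ (noncoprime_part n d hn hd hdn)
  have h0 : ∀ y, 0 ≤ (if ¬ (n - y).Coprime d then lam (n - y) else 0) := by
    intro y
    split_ifs
    · exact le_refl 0
    · exact ArithmeticFunction.vonMangoldt_nonneg
  have h1 : ∑ y ∈ range M, (if ¬ (n - y).Coprime d then lam (n - y) else 0) ≤
      ∑ y ∈ range (n + 1), (if ¬ (n - y).Coprime d then lam (n - y) else 0) := by
    have h2 : ∑ y ∈ range M, (if ¬ (n - y).Coprime d then lam (n - y) else 0) ≤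
        ∑ y ∈ range (max M (n + 1)), (if ¬ (n - y).Coprime d then lam (n - y) else 0) :=
      sum_le_sum_of_subset_of_nonneg
        (range_subset_range.2 (le_max_left _ _)) (fun y _ _ => h0 y)
    refine h2.trans (le_of_eq ?_)
    symm
    apply sum_subset (range_subset_range.2 (le_max_right _ _))
    intro y _ hy
    rw [mem_range, not_lt] at hy
    have h3 : n - y = 0 := by omega
    rw [h3]
    simp [lam]
  refine h1.trans (le_of_eq ?_)
  rw [← sum_range_reflect, sum_filter]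
  apply sum_congr rfl
  intro y hy
  rw [mem_range] at hy
  have h3 : n - (n + 1 - 1 - y) = y := by omega
  rw [h3]
  rfl

/-- the change of variables and the removal of the condition `(x, d) = 1` -/
theorem ZC_change (η : ℝ → ℝ) (hη : IsWt η) (L : ℝ) (hL0 : 0 < L)
    (hL : ∀ x y : ℝ, |η x - η y| ≤ L * |x - y|) (N m n g c d k : ℕ) (hN : 2 ≤ N) (hm : 1 ≤ m)
    (hg : 1 ≤ g) (hc : c < g) (hgN : g ≤ N) (h1 : m * N ≤ n) (h2 : n < m * (N + 1))
    (hd : 1 ≤ d) (hdN : d ≤ N) (hk : 1 ≤ k) (hk1 : k ≠ 1) :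
    ‖TG η N m n g c d k - ∑ y ∈ range (m * (N + 1)),
      if (y / m) % g = c ∧ (n - y % m).Coprime d then
        ((etaR η (((n - y : ℕ) : ℝ) / ((m * N : ℕ) : ℝ)) : ℝ) : ℂ) *
          (((lam (n - y) : ℝ) : ℂ) * Ps k (n - y) (n - y % m)) else 0‖ ≤
      (k.totient : ℝ) * (2 * L * (m * Real.log n) + 2 * Real.log n ^ 2) := by
  rw [ZC_TG η N m n g c d k hm hc, ← sum_sub_distrib]
  have hmR : (0 : ℝ) < m := by exact_mod_cast hm
  have hNR : (0 : ℝ) < N := by exact_mod_cast (by omega : 0 < N)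
  have hNn : N ≤ n := le_trans (Nat.le_mul_of_pos_left N (by omega)) h1
  have hlog : 0 ≤ Real.log n := Real.log_natCast_nonneg n
  have hB : 0 ≤ Real.log n * (L / N) := by positivity
  have hφ : (0 : ℝ) ≤ k.totient := Nat.cast_nonneg _
  have hW := abv_wt η hη
  refine (norm_sum_le _ _).trans ?_
  have hterm : ∀ y ∈ range (m * (N + 1)),
      ‖(if (y / m) % g = c ∧ (n - y).Coprime d ∧ (n - y % m).Coprime d then
        ((η (((y / m : ℕ) : ℝ) / N) : ℝ) : ℂ) *
          (((lam (n - y) : ℝ) : ℂ) * Ps k (n - y) (n - y % m)) else 0) -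
        (if (y / m) % g = c ∧ (n - y % m).Coprime d then
        ((etaR η (((n - y : ℕ) : ℝ) / ((m * N : ℕ) : ℝ)) : ℝ) : ℂ) *
          (((lam (n - y) : ℝ) : ℂ) * Ps k (n - y) (n - y % m)) else 0)‖ ≤
      (k.totient : ℝ) * ((if (y / m) % g = c then Real.log n * (L / N) else 0) +
        (if ¬ (n - y).Coprime d then lam (n - y) else 0)) := by
    intro y hy
    have hl0 : 0 ≤ lam (n - y) := ArithmeticFunction.vonMangoldt_nonneg
    have hPs := ZC_Ps_le k (n - y) (n - y % m) hk hk1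
    by_cases hA : (y / m) % g = c
    · by_cases hC : (n - y % m).Coprime d
      · by_cases hD : (n - y).Coprime d
        · rw [if_pos ⟨hA, hD, hC⟩, if_pos ⟨hA, hC⟩, if_pos hA, if_neg (not_not.2 hD), add_zero,
            ← sub_mul, norm_mul, norm_mul, ← Complex.ofReal_sub, Complex.norm_real,
            Complex.norm_real, Real.norm_eq_abs, Real.norm_of_nonneg hl0]
          rcases le_or_gt y n with hyn | hyn
          · have h3 := ZC_wt η L hL0 hL N m n y (by omega) hm h1 h2 hyn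
            have h4 := TRed_lam_le (n - y) n (Nat.sub_le _ _)
            calc |η (((y / m : ℕ) : ℝ) / N) - etaR η (((n - y : ℕ) : ℝ) / ((m * N : ℕ) : ℝ))| *
                  (lam (n - y) * ‖Ps k (n - y) (n - y % m)‖) ≤
                  (L / N) * (Real.log n * (k.totient : ℝ)) := by
                  apply mul_le_mul h3 _ (by positivity) (by positivity)
                  exact mul_le_mul h4 hPs (norm_nonneg _) hlog
              _ = (k.totient : ℝ) * (Real.log n * (L / N)) := by ring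
          · have h3 : n - y = 0 := by omega
            have h4 : lam (n - y) = 0 := by rw [h3]; simp [lam]
            rw [h4, zero_mul, mul_zero]
            exact mul_nonneg hφ hB
        · rw [if_neg (fun h => hD h.2.1), if_pos ⟨hA, hC⟩, if_pos hA, if_pos hD, zero_sub,
            norm_neg, norm_mul, norm_mul, Complex.norm_real, Complex.norm_real,
            Real.norm_of_nonneg hl0, Real.norm_of_nonneg (hW.nonneg _)]
          have h3 := hW.le_one (((n - y : ℕ) : ℝ) / ((m * N : ℕ) : ℝ))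
          calc etaR η (((n - y : ℕ) : ℝ) / ((m * N : ℕ) : ℝ)) *
                (lam (n - y) * ‖Ps k (n - y) (n - y % m)‖) ≤
                1 * (lam (n - y) * (k.totient : ℝ)) := by
                apply mul_le_mul h3 _ (by positivity) zero_le_one
                exact mul_le_mul_of_nonneg_left hPs hl0
            _ = (k.totient : ℝ) * lam (n - y) := by ring
            _ ≤ (k.totient : ℝ) * (Real.log n * (L / N) + lam (n - y)) := by
                apply mul_le_mul_of_nonneg_left _ hφ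
                linarith
      · rw [if_neg (fun h => hC h.2.2), if_neg (fun h => hC h.2), sub_zero, norm_zero]
        apply mul_nonneg hφ
        apply add_nonneg
        · split_ifs
          exact hB
        · split_ifs
          · exact le_refl 0
          · exact hl0
    · rw [if_neg (fun h => hA h.1), if_neg (fun h => hA h.1), sub_zero, norm_zero]
      apply mul_nonneg hφ
      apply add_nonneg
      · rw [if_neg hA]
      · split_ifs
        · exact le_refl 0
        · exact hl0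
  refine (sum_le_sum hterm).trans ?_
  rw [← mul_sum, sum_add_distrib]
  apply mul_le_mul_of_nonneg_left _ hφ
  have h3 := ZC_count N m g c hm hg hgN (Real.log n * (L / N)) hB
  have h4 := ZC_noncop n (m * (N + 1)) d (by omega) hd (by omega)
  rw [add_zero] at h4
  have h5 : 2 * (N : ℝ) * (m * (Real.log n * (L / N))) = 2 * L * (m * Real.log n) := by
    field_simp
  rw [h5] at h3
  exact add_le_add h3 h4

/-- the class of `x` in terms of `q` -/
theorem ZC_key {m n g c x j : ℕ} (hm : 1 ≤ m) (hmn : m ≤ n) (hc : c < g) (hx : x ≤ n)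
    (hj : j ∈ Ioc (n - m) n) :
    (x : ZMod (m * g)) = (j : ZMod (m * g)) - ((m * c : ℕ) : ZMod (m * g)) ↔
      (j = n - (n - x) % m ∧ ((n - x) / m) % g = c) := by
  rw [mem_Ioc] at hj
  have h0 : (x : ZMod (m * g)) = (j : ZMod (m * g)) - ((m * c : ℕ) : ZMod (m * g)) ↔
      m * c + (n - j) ≡ (n - x) [MOD m * g] := by
    rw [← ZMod.natCast_eq_natCast_iff, eq_sub_iff_add_eq]
    have hj' : ((n - j : ℕ) : ZMod (m * g)) = (n : ZMod (m * g)) - (j : ZMod (m * g)) :=
      Nat.cast_sub hj.2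
    have hx' : ((n - x : ℕ) : ZMod (m * g)) = (n : ZMod (m * g)) - (x : ZMod (m * g)) :=
      Nat.cast_sub hx
    rw [Nat.cast_add, hj', hx']
    constructor
    · intro h
      rw [← h]
      ring
    · intro h
      linear_combination h
  rw [h0]
  have hdm := Nat.div_add_mod (n - x) m
  constructor
  · intro h
    have h1 : n - j = (n - x) % m := by
      have h2 : m * c + (n - j) ≡ n - x [MOD m] := h.of_mul_right g
      have h3 : (m * c + (n - j)) % m = (n - x) % m := h2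
      rwa [Nat.mul_add_mod, Nat.mod_eq_of_lt (by omega : n - j < m)] at h3
    refine ⟨by omega, ?_⟩
    have h4 : m * c + (n - x) % m ≡ m * ((n - x) / m) + (n - x) % m [MOD m * g] := by
      rw [← h1]
      rw [← h1] at hdm
      rw [hdm]
      exact h
    have h5 : m * c ≡ m * ((n - x) / m) [MOD m * g] := Nat.ModEq.add_right_cancel' _ h4
    have h6 : c ≡ (n - x) / m [MOD g] := Nat.ModEq.mul_left_cancel' (by omega) h5
    have h7 : c % g = ((n - x) / m) % g := h6
    rw [← h7, Nat.mod_eq_of_lt hc]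
  · rintro ⟨h1, h2⟩
    have hlt := Nat.mod_lt (n - x) (show 0 < m by omega)
    have h3 : n - j = (n - x) % m := by omega
    rw [h3]
    have h4 : m * c + (n - x) % m ≡ m * ((n - x) / m) + (n - x) % m [MOD m * g] := by
      apply Nat.ModEq.add_right
      apply Nat.ModEq.mul_left'
      change c % g = ((n - x) / m) % g
      rw [h2, Nat.mod_eq_of_lt hc]
    rwa [hdm] at h4

/-- the sum over `j` for fixed `x` -/
theorem ZC_sumj {m n g c d x : ℕ} (hm : 1 ≤ m) (hmn : m ≤ n) (hc : c < g) (hx : x ≤ n)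
    (F : ℕ → ℂ) :
    ∑ j ∈ (Ioc (n - m) n).filter (fun j => j.Coprime d),
      (if (x : ZMod (m * g)) = (j : ZMod (m * g)) - ((m * c : ℕ) : ZMod (m * g)) then F j
        else 0) =
      if ((n - x) / m) % g = c ∧ (n - (n - x) % m).Coprime d then F (n - (n - x) % m) else 0 := by
  have hlt := Nat.mod_lt (n - x) (show 0 < m by omega)
  have hj0 : n - (n - x) % m ∈ Ioc (n - m) n := by
    rw [mem_Ioc]
    constructor <;> omega
  by_cases h : ((n - x) / m) % g = c ∧ (n - (n - x) % m).Coprime d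
  · rw [if_pos h, sum_eq_single (n - (n - x) % m)]
    · rw [if_pos ((ZC_key hm hmn hc hx hj0).2 ⟨rfl, h.1⟩)]
    · intro j hj hne
      rw [mem_filter] at hj
      rw [if_neg]
      intro h1
      exact hne ((ZC_key hm hmn hc hx hj.1).1 h1).1
    · intro h1
      exact absurd (mem_filter.2 ⟨hj0, h.2⟩) h1
  · rw [if_neg h]
    apply sum_eq_zero
    intro j hj
    rw [mem_filter] at hj
    rw [if_neg]
    intro h1
    obtain ⟨h2, h3⟩ := (ZC_key hm hmn hc hx hj.1).1 h1
    apply h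
    rw [← h2]
    exact ⟨h3, hj.2⟩

/-- the change of summation -/
theorem ZC_swap (η : ℝ → ℝ) (hη : IsWt η) (N m n g c d k : ℕ) (hN : 1 ≤ N) (hm : 1 ≤ m)
    (hc : c < g) (h1 : m * N ≤ n) (h2 : n < m * (N + 1)) :
    ∑ y ∈ range (m * (N + 1)), (if (y / m) % g = c ∧ (n - y % m).Coprime d then
        ((etaR η (((n - y : ℕ) : ℝ) / ((m * N : ℕ) : ℝ)) : ℝ) : ℂ) *
          (((lam (n - y) : ℝ) : ℂ) * Ps k (n - y) (n - y % m)) else 0) =
    ∑ j ∈ (Ioc (n - m) n).filter (fun j => j.Coprime d), ∑ x ∈ range (m * N + 1),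
      (if (x : ZMod (m * g)) = (j : ZMod (m * g)) - ((m * c : ℕ) : ZMod (m * g)) then
        ((etaR η ((x : ℝ) / ((m * N : ℕ) : ℝ)) : ℝ) : ℂ) *
          (((lam x : ℝ) : ℂ) * Ps k x j) else 0) := by
  have hX : 0 < m * N := Nat.mul_pos hm hN
  have hmn : m ≤ n := (Nat.le_mul_of_pos_right m (by omega)).trans h1
  have hW := abv_wt η hη
  rw [sum_comm]
  have e1 : ∑ x ∈ range (m * N + 1), ∑ j ∈ (Ioc (n - m) n).filter (fun j => j.Coprime d),
      (if (x : ZMod (m * g)) = (j : ZMod (m * g)) - ((m * c : ℕ) : ZMod (m * g)) then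
        ((etaR η ((x : ℝ) / ((m * N : ℕ) : ℝ)) : ℝ) : ℂ) *
          (((lam x : ℝ) : ℂ) * Ps k x j) else 0) =
      ∑ x ∈ range (m * N + 1),
        (if ((n - x) / m) % g = c ∧ (n - (n - x) % m).Coprime d then
          ((etaR η ((x : ℝ) / ((m * N : ℕ) : ℝ)) : ℝ) : ℂ) *
          (((lam x : ℝ) : ℂ) * Ps k x (n - (n - x) % m)) else 0) := by
    apply sum_congr rfl
    intro x hx
    rw [mem_range] at hx
    exact ZC_sumj hm hmn hc (by omega) _
  rw [e1]
  have e2 : ∑ x ∈ range (m * N + 1),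
        (if ((n - x) / m) % g = c ∧ (n - (n - x) % m).Coprime d then
          ((etaR η ((x : ℝ) / ((m * N : ℕ) : ℝ)) : ℝ) : ℂ) *
          (((lam x : ℝ) : ℂ) * Ps k x (n - (n - x) % m)) else 0) =
      ∑ x ∈ range (n + 1),
        (if ((n - x) / m) % g = c ∧ (n - (n - x) % m).Coprime d then
          ((etaR η ((x : ℝ) / ((m * N : ℕ) : ℝ)) : ℝ) : ℂ) *
          (((lam x : ℝ) : ℂ) * Ps k x (n - (n - x) % m)) else 0) := by
    apply sum_subset
    · intro x hx
      rw [mem_range] at hx ⊢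
      omega
    · intro x _ hx2
      rw [mem_range, not_lt] at hx2
      have h3 : etaR η ((x : ℝ) / ((m * N : ℕ) : ℝ)) = 0 := by
        apply wt_zero_of_large _ hW
        have h4 : (0 : ℝ) < ((m * N : ℕ) : ℝ) := by exact_mod_cast hX
        have h5 : ((m * N : ℕ) : ℝ) ≤ x := by exact_mod_cast (by omega : m * N ≤ x)
        rw [le_div_iff₀ h4]
        linarith
      rw [h3, Complex.ofReal_zero, zero_mul, ite_self]
  rw [e2]
  symm
  rw [← sum_range_reflect]
  have e3 : ∑ y ∈ range (n + 1),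
      (if ((n - (n + 1 - 1 - y)) / m) % g = c ∧ (n - (n - (n + 1 - 1 - y)) % m).Coprime d then
          ((etaR η (((n + 1 - 1 - y : ℕ) : ℝ) / ((m * N : ℕ) : ℝ)) : ℝ) : ℂ) *
          (((lam (n + 1 - 1 - y) : ℝ) : ℂ) *
            Ps k (n + 1 - 1 - y) (n - (n - (n + 1 - 1 - y)) % m)) else 0) =
      ∑ y ∈ range (n + 1), (if (y / m) % g = c ∧ (n - y % m).Coprime d then
        ((etaR η (((n - y : ℕ) : ℝ) / ((m * N : ℕ) : ℝ)) : ℝ) : ℂ) *
          (((lam (n - y) : ℝ) : ℂ) * Ps k (n - y) (n - y % m)) else 0) := by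
    apply sum_congr rfl
    intro y hy
    rw [mem_range] at hy
    have h3 : n + 1 - 1 - y = n - y := by omega
    have h4 : n - (n - y) = y := by omega
    rw [h3, h4]
  rw [e3]
  apply sum_subset
  · intro y hy
    rw [mem_range] at hy ⊢
    omega
  · intro y _ hy2
    rw [mem_range, not_lt] at hy2
    have h3 : n - y = 0 := by omega
    rw [h3]
    simp [lam]

/-- detection of the class by characters, weighted sums -/
theorem ZC_orth (M X : ℕ) (hX : 2 ≤ X) (hM : 1 ≤ M) (hMX : M ≤ X) (u : ZMod M) (a : ℕ → ℂ) (B : ℝ)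
    (hB : 0 ≤ B) (ha : ∀ x, ‖a x‖ ≤ B * lam x) :
    ‖(∑ x ∈ range (X + 1), if (x : ZMod M) = u then a x else 0) -
      1 / (M.totient : ℂ) * ∑ ψ : DirichletCharacter ℂ M, (starRingEnd ℂ) (ψ u) *
        ∑ x ∈ range (X + 1), a x * ψ (x : ZMod M)‖ ≤ B * (2 * Real.log X ^ 2) := by
  classical
  have : NeZero M := ⟨by omega⟩
  have hφ : (M.totient : ℂ) ≠ 0 := by
    have : 0 < M.totient := Nat.totient_pos.mpr (by omega)
    exact_mod_cast this.ne'
  by_cases hu : IsUnit u
  · have h1 : ∀ ψ : DirichletCharacter ℂ M, (starRingEnd ℂ) (ψ u) = ψ (u⁻¹) := by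
      intro ψ
      have h4 : ‖ψ u‖ = 1 := by
        obtain ⟨v, hv⟩ := hu
        rw [← hv]
        exact ψ.unit_norm_eq_one v
      rw [← Complex.inv_eq_conj h4]
      symm
      apply eq_inv_of_mul_eq_one_left
      rw [← map_mul, ZMod.inv_mul_of_unit _ hu, map_one]
    have h2 : ∑ ψ : DirichletCharacter ℂ M, (starRingEnd ℂ) (ψ u) *
        ∑ x ∈ range (X + 1), a x * ψ (x : ZMod M) =
        (M.totient : ℂ) * ∑ x ∈ range (X + 1), (if (x : ZMod M) = u then a x else 0) := by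
      have e1 : ∀ ψ : DirichletCharacter ℂ M, (starRingEnd ℂ) (ψ u) *
          ∑ x ∈ range (X + 1), a x * ψ (x : ZMod M) =
          ∑ x ∈ range (X + 1), (ψ (u⁻¹) * ψ (x : ZMod M)) * a x := by
        intro ψ
        rw [h1, mul_sum]
        exact sum_congr rfl fun x _ => by ring
      rw [sum_congr rfl fun ψ _ => e1 ψ, sum_comm, mul_sum]
      apply sum_congr rfl
      intro x _
      rw [← sum_mul, DirichletCharacter.sum_char_inv_mul_char_eq ℂ hu]
      by_cases hx : (x : ZMod M) = u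
      · rw [if_pos hx.symm, if_pos hx]
      · rw [if_neg (fun h => hx h.symm), if_neg hx, zero_mul, mul_zero]
    rw [h2, ← mul_assoc, one_div, inv_mul_cancel₀ hφ, one_mul, sub_self, norm_zero]
    positivity
  · have h1 : ∀ ψ : DirichletCharacter ℂ M, ψ u = 0 := fun ψ => MulChar.map_nonunit ψ hu
    have h2 : ∑ ψ : DirichletCharacter ℂ M, (starRingEnd ℂ) (ψ u) *
        ∑ x ∈ range (X + 1), a x * ψ (x : ZMod M) = 0 := by
      apply sum_eq_zero
      intro ψ _
      rw [h1, map_zero, zero_mul]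
    rw [h2, mul_zero, sub_zero]
    refine (norm_sum_le _ _).trans ?_
    have h3 := noncoprime_part X M hX hM hMX
    refine le_trans ?_ (mul_le_mul_of_nonneg_left h3 hB)
    rw [mul_sum, sum_filter]
    apply sum_le_sum
    intro x _
    by_cases hx : (x : ZMod M) = u
    · rw [if_pos hx]
      have h4 : ¬ x.Coprime M := by
        intro h5
        exact hu (hx ▸ (ZMod.isUnit_iff_coprime x M).mpr h5)
      rw [if_pos h4]
      exact ha x
    · rw [if_neg hx, norm_zero]
      split_ifs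
      · exact le_refl 0
      · exact mul_nonneg hB ArithmeticFunction.vonMangoldt_nonneg

/-- the condition modulo `k` is automatic -/
theorem ZC_JZ (n m g c d k : ℕ) (hkd : k ∣ d) (χ : DirichletCharacter ℂ k)
    (ψ : DirichletCharacter ℂ (m * g)) :
    ∑ j ∈ (Ioc (n - m) n).filter (fun j => j.Coprime d),
      χ (j : ZMod k) * ψ ((j : ZMod (m * g)) - ((m * c : ℕ) : ZMod (m * g))) =
      JZ n m g c (d / k) χ ψ := by
  unfold JZ
  rw [sum_filter, sum_filter]
  apply sum_congr rfl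
  intro j _
  have hd : d = k * (d / k) := (Nat.mul_div_cancel' hkd).symm
  by_cases h1 : j.Coprime k
  · by_cases h2 : j.Coprime (d / k)
    · rw [if_pos h2, if_pos]
      rw [hd]
      exact Nat.Coprime.mul_right h1 h2
    · rw [if_neg h2, if_neg]
      intro h3
      exact h2 (Nat.Coprime.coprime_dvd_right (Nat.div_dvd_of_dvd hkd) h3)
  · have h2 : χ (j : ZMod k) = 0 :=
      MulChar.map_nonunit χ fun h => h1 ((ZMod.isUnit_iff_coprime j k).mp h)
    rw [h2, zero_mul, ite_self, ite_self]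

/-- the main term -/
theorem ZC_main (η : ℝ → ℝ) (N m n g c d k : ℕ) (hkd : k ∣ d) (hk1 : k ≠ 1) :
    ∑ j ∈ (Ioc (n - m) n).filter (fun j => j.Coprime d),
      1 / ((m * g).totient : ℂ) * ∑ ψ : DirichletCharacter ℂ (m * g),
        (starRingEnd ℂ) (ψ ((j : ZMod (m * g)) - ((m * c : ℕ) : ZMod (m * g)))) *
        ∑ x ∈ range (m * N + 1), (((etaR η ((x : ℝ) / ((m * N : ℕ) : ℝ)) : ℝ) : ℂ) *
          (((lam x : ℝ) : ℂ) * Ps k x j)) * ψ (x : ZMod (m * g)) =
      1 / ((m * g).totient : ℂ) * ∑ χ ∈ prim k, ∑ ψ : DirichletCharacter ℂ (m * g),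
        PZ (etaR η) (m * N) χ ψ * (starRingEnd ℂ) (JZ n m g c (d / k) χ ψ) := by
  rw [← mul_sum]
  congr 1
  rw [sum_comm]
  rw [sum_comm (s := prim k)]
  apply sum_congr rfl
  intro ψ _
  have e1 : ∀ χ : DirichletCharacter ℂ k,
      PZ (etaR η) (m * N) χ ψ * (starRingEnd ℂ) (JZ n m g c (d / k) χ ψ) =
      ∑ j ∈ (Ioc (n - m) n).filter (fun j => j.Coprime d),
        (starRingEnd ℂ) (ψ ((j : ZMod (m * g)) - ((m * c : ℕ) : ZMod (m * g)))) *
        ((starRingEnd ℂ) (χ (j : ZMod k)) * PZ (etaR η) (m * N) χ ψ) := by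
    intro χ
    rw [← ZC_JZ n m g c d k hkd χ ψ, map_sum, mul_sum]
    apply sum_congr rfl
    intro j _
    rw [map_mul]
    ring
  rw [sum_congr rfl fun χ _ => e1 χ, sum_comm]
  apply sum_congr rfl
  intro j _
  rw [← mul_sum]
  congr 1
  unfold PZ
  have e2 : ∀ x ∈ range (m * N + 1), (((etaR η ((x : ℝ) / ((m * N : ℕ) : ℝ)) : ℝ) : ℂ) *
          (((lam x : ℝ) : ℂ) * Ps k x j)) * ψ (x : ZMod (m * g)) =
      ∑ χ ∈ prim k, (starRingEnd ℂ) (χ (j : ZMod k)) *
        (((lam x * etaR η ((x : ℝ) / ((m * N : ℕ) : ℝ)) : ℝ) : ℂ) *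
          (χ (x : ZMod k) * ψ (x : ZMod (m * g)))) := by
    intro x _
    unfold Ps
    rw [if_neg hk1, zero_add, mul_sum, mul_sum, sum_mul]
    apply sum_congr rfl
    intro χ _
    rw [Complex.ofReal_mul]
    ring
  rw [sum_congr rfl e2, sum_comm]
  apply sum_congr rfl
  intro χ _
  rw [mul_sum]

/-- keep this signature -/
theorem thm_ZC : St_ZC := by
  intro η hη
  obtain ⟨L, hL0, hL⟩ := wt_lipschitz η hη
  refine ⟨2 * L + 4, by positivity, ?_⟩
  intro N m n g c d w k hN hT hg hgN hc hd hkd hk1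
  obtain ⟨hm, h1, h2⟩ := hT
  unfold ZD at hd
  rw [mem_filter, mem_Icc] at hd
  obtain ⟨⟨hd1, hdN⟩, -, -, -⟩ := hd
  have hk : 1 ≤ k := Nat.pos_of_dvd_of_pos hkd hd1
  have hX : 2 ≤ m * N := by nlinarith
  have hM : 1 ≤ m * g := Nat.mul_pos hm hg
  have hMX : m * g ≤ m * N := Nat.mul_le_mul_left m hgN
  have hmn : m ≤ n := (Nat.le_mul_of_pos_right m (by omega)).trans h1
  have hmR : (1 : ℝ) ≤ m := by exact_mod_cast hm
  have hW := abv_wt η hη
  have hφ : (0 : ℝ) ≤ k.totient := Nat.cast_nonneg _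
  have a1 := ZC_change η hη L hL0 hL N m n g c d k (by omega) hm hg hc hgN h1 h2 hd1 hdN hk hk1
  rw [ZC_swap η hη N m n g c d k (by omega) hm hc h1 h2] at a1
  have a2 : ‖(∑ j ∈ (Ioc (n - m) n).filter (fun j => j.Coprime d), ∑ x ∈ range (m * N + 1),
      (if (x : ZMod (m * g)) = (j : ZMod (m * g)) - ((m * c : ℕ) : ZMod (m * g)) then
        ((etaR η ((x : ℝ) / ((m * N : ℕ) : ℝ)) : ℝ) : ℂ) *
          (((lam x : ℝ) : ℂ) * Ps k x j) else 0)) -
      ∑ j ∈ (Ioc (n - m) n).filter (fun j => j.Coprime d),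
      1 / ((m * g).totient : ℂ) * ∑ ψ : DirichletCharacter ℂ (m * g),
        (starRingEnd ℂ) (ψ ((j : ZMod (m * g)) - ((m * c : ℕ) : ZMod (m * g)))) *
        ∑ x ∈ range (m * N + 1), (((etaR η ((x : ℝ) / ((m * N : ℕ) : ℝ)) : ℝ) : ℂ) *
          (((lam x : ℝ) : ℂ) * Ps k x j)) * ψ (x : ZMod (m * g))‖ ≤
      m * ((k.totient : ℝ) * (2 * Real.log ((m * N : ℕ) : ℝ) ^ 2)) := by
    rw [← sum_sub_distrib]
    refine (norm_sum_le _ _).trans ?_
    have h3 : ∀ j ∈ (Ioc (n - m) n).filter (fun j => j.Coprime d),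
        ‖(∑ x ∈ range (m * N + 1),
      (if (x : ZMod (m * g)) = (j : ZMod (m * g)) - ((m * c : ℕ) : ZMod (m * g)) then
        ((etaR η ((x : ℝ) / ((m * N : ℕ) : ℝ)) : ℝ) : ℂ) *
          (((lam x : ℝ) : ℂ) * Ps k x j) else 0)) -
      1 / ((m * g).totient : ℂ) * ∑ ψ : DirichletCharacter ℂ (m * g),
        (starRingEnd ℂ) (ψ ((j : ZMod (m * g)) - ((m * c : ℕ) : ZMod (m * g)))) *
        ∑ x ∈ range (m * N + 1), (((etaR η ((x : ℝ) / ((m * N : ℕ) : ℝ)) : ℝ) : ℂ) *
          (((lam x : ℝ) : ℂ) * Ps k x j)) * ψ (x : ZMod (m * g))‖ ≤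
        (k.totient : ℝ) * (2 * Real.log ((m * N : ℕ) : ℝ) ^ 2) := by
      intro j _
      apply ZC_orth (m * g) (m * N) hX hM hMX _ _ _ hφ
      intro x
      have hl0 : 0 ≤ lam x := ArithmeticFunction.vonMangoldt_nonneg
      rw [norm_mul, norm_mul, Complex.norm_real, Complex.norm_real,
        Real.norm_of_nonneg hl0, Real.norm_of_nonneg (hW.nonneg _)]
      calc etaR η ((x : ℝ) / ((m * N : ℕ) : ℝ)) * (lam x * ‖Ps k x j‖) ≤
            1 * (lam x * (k.totient : ℝ)) := by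
            apply mul_le_mul (hW.le_one _) _ (by positivity) zero_le_one
            exact mul_le_mul_of_nonneg_left (ZC_Ps_le k x j hk hk1) hl0
        _ = (k.totient : ℝ) * lam x := by ring
    refine (sum_le_sum h3).trans ?_
    rw [sum_const, nsmul_eq_mul]
    apply mul_le_mul_of_nonneg_right _ (by positivity)
    have h4 := card_filter_le (Ioc (n - m) n) (fun j => j.Coprime d)
    rw [Nat.card_Ioc] at h4
    exact_mod_cast (by omega : ((Ioc (n - m) n).filter (fun j => j.Coprime d)).card ≤ m)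
  rw [ZC_main η N m n g c d k hkd hk1] at a2
  have a3 : ‖1 / ((m * g).totient : ℂ) * ∑ χ ∈ prim k, ∑ ψ : DirichletCharacter ℂ (m * g),
        PZ (etaR η) (m * N) χ ψ * (starRingEnd ℂ) (JZ n m g c (d / k) χ ψ)‖ ≤
      1 / ((m * g).totient : ℝ) * ∑ χ ∈ prim k, ∑ ψ : DirichletCharacter ℂ (m * g),
      ‖PZ (etaR η) (m * N) χ ψ‖ * ‖JZ n m g c (d / k) χ ψ‖ := by
    rw [norm_mul, norm_div, norm_one, Complex.norm_natCast]
    apply mul_le_mul_of_nonneg_left _ (by positivity)
    refine (norm_sum_le _ _).trans (sum_le_sum fun χ _ => ?_)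
    refine (norm_sum_le _ _).trans (sum_le_sum fun ψ _ => ?_)
    rw [norm_mul, RCLike.norm_conj]
  have b0 : 0 ≤ Real.log n := Real.log_natCast_nonneg n
  have b1 : Real.log ((m * N : ℕ) : ℝ) ≤ Real.log n :=
    Real.log_le_log (by exact_mod_cast (by omega : 0 < m * N)) (by exact_mod_cast h1)
  have b2 : 0 ≤ Real.log ((m * N : ℕ) : ℝ) := Real.log_natCast_nonneg _
  have b3 : Real.log ((m * N : ℕ) : ℝ) ^ 2 ≤ (1 + Real.log n) ^ 2 :=
    pow_le_pow_left₀ b2 (by linarith) 2
  have b4 : Real.log n ≤ (1 + Real.log n) ^ 2 := by nlinarith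
  have b5 : Real.log n ^ 2 ≤ (1 + Real.log n) ^ 2 := pow_le_pow_left₀ b0 (by linarith) 2
  have b6 : (0 : ℝ) ≤ (1 + Real.log n) ^ 2 := by positivity
  have c1 : 2 * L * (m * Real.log n) ≤ 2 * L * (m * (1 + Real.log n) ^ 2) := by gcongr
  have c2 : 2 * Real.log n ^ 2 ≤ 2 * (m * (1 + Real.log n) ^ 2) := by
    nlinarith
  have c3 : (k.totient : ℝ) * (2 * L * (m * Real.log n) + 2 * Real.log n ^ 2) ≤
      (k.totient : ℝ) * (2 * L * (m * (1 + Real.log n) ^ 2) +
        2 * (m * (1 + Real.log n) ^ 2)) := by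
    apply mul_le_mul_of_nonneg_left _ hφ
    linarith
  have c4 : m * ((k.totient : ℝ) * (2 * Real.log ((m * N : ℕ) : ℝ) ^ 2)) ≤
      m * ((k.totient : ℝ) * (2 * (1 + Real.log n) ^ 2)) := by gcongr
  generalize (∑ j ∈ (Ioc (n - m) n).filter (fun j => j.Coprime d), ∑ x ∈ range (m * N + 1),
      (if (x : ZMod (m * g)) = (j : ZMod (m * g)) - ((m * c : ℕ) : ZMod (m * g)) then
        ((etaR η ((x : ℝ) / ((m * N : ℕ) : ℝ)) : ℝ) : ℂ) *
          (((lam x : ℝ) : ℂ) * Ps k x j) else 0)) = A at a1 a2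
  generalize 1 / ((m * g).totient : ℂ) * ∑ χ ∈ prim k, ∑ ψ : DirichletCharacter ℂ (m * g),
        PZ (etaR η) (m * N) χ ψ * (starRingEnd ℂ) (JZ n m g c (d / k) χ ψ) = B at a2 a3
  have h5 : ‖TG η N m n g c d k‖ ≤ ‖TG η N m n g c d k - A‖ + (‖A - B‖ + ‖B‖) := by
    have e : TG η N m n g c d k = (TG η N m n g c d k - A) + ((A - B) + B) := by ring
    calc ‖TG η N m n g c d k‖ = ‖(TG η N m n g c d k - A) + ((A - B) + B)‖ := by rw [← e]
      _ ≤ _ := (norm_add_le _ _).trans (add_le_add le_rfl (norm_add_le _ _))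
  refine h5.trans ?_
  have h6 : (2 * L + 4) * (1 + Real.log n) ^ 2 * ((k.totient : ℝ) * m) =
      (k.totient : ℝ) * (2 * L * (m * (1 + Real.log n) ^ 2) + 2 * (m * (1 + Real.log n) ^ 2)) +
      m * ((k.totient : ℝ) * (2 * (1 + Real.log n) ^ 2)) := by ring
  rw [h6]
  linarith

end Pool.Agent.CV
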