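import Mathlib
import Pool.Agent.CV.Stmts
import Pool.Agent.MT.Reduce
import Pool.Agent.CU.TRed

set_option autoImplicit false

/-!
# CV / ZId

First part: sum over k | d and the primitive characters modulo k = sum over all characters modulo d (for x, j coprime to d the values agree), orthogonality.  MT/Reduce.lean (Reduce.prim_sum, Reduce.orth) and CU/TRed.lean (TRed_prim_sum) contain the correspondence of characters mod d and primitive characters mod k | d; k = 1 is the principal character.  Second part: Moebius inversion of the first part over the divisors of k (ArithmeticFunction.sum_eq_iff_sum_mul_moebius_eq over the divisors, x and j coprime to k).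
-/

namespace Pool.Agent.CV

open Finset Filter Pool.Agent.MT Pool.Agent.CH Pool.Agent.CU

/-- pairs (modulus, character) inducing the same character are equal -/
theorem ZId_pair {d : ℕ} [NeZero d] {k k' : ℕ} (hk : k ∣ d) (hk' : k' ∣ d)
    (χ : DirichletCharacter ℂ k) (χ' : DirichletCharacter ℂ k') (h : k' = k)
    (he : DirichletCharacter.changeLevel hk' χ' = DirichletCharacter.changeLevel hk χ) :
    (⟨k', χ'⟩ : Σ r : ℕ, DirichletCharacter ℂ r) = ⟨k, χ⟩ := by
  subst h
  rw [DirichletCharacter.changeLevel_injective hk he]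

/-- the non-principal characters modulo `d` and the primitive characters modulo `k ∣ d` -/
theorem ZId_prim (G : ∀ r : ℕ, DirichletCharacter ℂ r → ℂ) (d : ℕ) (hd : 1 ≤ d) [NeZero d]
    [DecidableEq (DirichletCharacter ℂ d)] :
    ∑ χ ∈ (univ : Finset (DirichletCharacter ℂ d)).erase 1,
      G χ.conductor χ.primitiveCharacter = ∑ r ∈ d.divisors, ∑ χ ∈ prim r, G r χ := by
  classical
  set f : DirichletCharacter ℂ d → (Σ r : ℕ, DirichletCharacter ℂ r) :=
    fun χ => ⟨χ.conductor, χ.primitiveCharacter⟩ with hf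
  have hinj : Function.Injective f := by
    have hl : Function.LeftInverse
        (fun x : (Σ r : ℕ, DirichletCharacter ℂ r) =>
          if h : x.1 ∣ d then DirichletCharacter.changeLevel h x.2 else 1) f := by
      intro χ
      have h0 : (f χ).1 ∣ d := χ.conductor_dvd_level
      simp only
      rw [dif_pos h0]
      exact χ.changeLevel_primitiveCharacter
    exact hl.injective
  have e1 : ∑ r ∈ d.divisors, ∑ χ ∈ prim r, G r χ =
      ∑ x ∈ (d.divisors).sigma prim, G x.1 x.2 := by
    rw [sum_sigma]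
  rw [e1]
  have e2 : ∑ χ ∈ (univ : Finset (DirichletCharacter ℂ d)).erase 1,
      G χ.conductor χ.primitiveCharacter =
      ∑ x ∈ ((univ : Finset (DirichletCharacter ℂ d)).erase 1).image f,
        G x.1 x.2 := by
    rw [sum_image fun x _ y _ h => hinj h]
  rw [e2]
  refine sum_congr ?_ fun _ _ => rfl
  ext ⟨k, χ⟩
  constructor
  · intro hx
    rw [mem_image] at hx
    obtain ⟨χ', hχ', hx⟩ := hx
    rw [← hx]
    rw [mem_erase] at hχ'
    rw [mem_sigma, Nat.mem_divisors, mem_prim]
    refine ⟨⟨χ'.conductor_dvd_level, by omega⟩, χ'.primitiveCharacter_isPrimitive,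
      fun h => hχ'.1 ?_⟩
    rw [← χ'.changeLevel_primitiveCharacter]
    have h' : χ'.primitiveCharacter = 1 := h
    rw [h', DirichletCharacter.changeLevel_one]
  · intro hx
    rw [mem_sigma, Nat.mem_divisors, mem_prim] at hx
    obtain ⟨⟨hk, _⟩, hp, h1⟩ := hx
    have hk' : k ∣ d := hk
    rw [mem_image]
    refine ⟨DirichletCharacter.changeLevel hk' χ, ?_, ?_⟩
    · rw [mem_erase]
      refine ⟨fun h => h1 ?_, mem_univ _⟩
      exact (DirichletCharacter.changeLevel_eq_one_iff hk').1 h
    · have hc : (DirichletCharacter.changeLevel hk' χ).conductor = k := by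
        rw [DirichletCharacter.conductor_changeLevel]
        exact (DirichletCharacter.isPrimitive_def χ).1 hp
      exact ZId_pair hk' (DirichletCharacter.changeLevel hk' χ).conductor_dvd_level χ _ hc
        (DirichletCharacter.changeLevel_primitiveCharacter _)

/-- the value of the primitive character -/
theorem ZId_val {d : ℕ} (χ : DirichletCharacter ℂ d) {x : ℕ} (hx : x.Coprime d) :
    χ.primitiveCharacter (x : ZMod χ.conductor) = χ (x : ZMod d) := by
  have h2 := χ.primitiveCharacter_apply_of_isCoprime (a := (x : ℤ))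
    (by exact_mod_cast Nat.isCoprime_iff_coprime.mpr hx)
  simpa using h2

/-- orthogonality -/
theorem ZId_orth {d : ℕ} [NeZero d] {x j : ℕ} (hj : j.Coprime d) :
    ∑ χ : DirichletCharacter ℂ d, χ (x : ZMod d) * (starRingEnd ℂ) (χ (j : ZMod d)) =
      if x % d = j % d then (d.totient : ℂ) else 0 := by
  have hu : IsUnit (j : ZMod d) := (ZMod.isUnit_iff_coprime j d).mpr hj
  have h1 : ∀ χ : DirichletCharacter ℂ d,
      χ (x : ZMod d) * (starRingEnd ℂ) (χ (j : ZMod d)) =
        χ ((j : ZMod d)⁻¹) * χ (x : ZMod d) := by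
    intro χ
    have h4 : ‖χ (j : ZMod d)‖ = 1 := by
      obtain ⟨v, hv⟩ := hu
      rw [← hv]
      exact χ.unit_norm_eq_one v
    have h5 : χ ((j : ZMod d)⁻¹) = (starRingEnd ℂ) (χ (j : ZMod d)) := by
      rw [← Complex.inv_eq_conj h4]
      apply eq_inv_of_mul_eq_one_left
      rw [← map_mul, ZMod.inv_mul_of_unit _ hu, map_one]
    rw [h5, mul_comm]
  rw [sum_congr rfl fun χ _ => h1 χ, DirichletCharacter.sum_char_inv_mul_char_eq ℂ hu]
  by_cases hn : x % d = j % d
  · rw [if_pos hn, if_pos ((ZMod.natCast_eq_natCast_iff' j x d).mpr hn.symm)]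
  · rw [if_neg hn, if_neg (fun h => hn ((ZMod.natCast_eq_natCast_iff' j x d).mp h).symm)]

theorem ZId_first (d x j : ℕ) (hd : 1 ≤ d) (hx : x.Coprime d) (hj : j.Coprime d) :
    ∑ k ∈ d.divisors, Ps k x j = if x % d = j % d then (d.totient : ℂ) else 0 := by
  classical
  have : NeZero d := ⟨by omega⟩
  have h1 : ∑ k ∈ d.divisors, Ps k x j = 1 + ∑ k ∈ d.divisors, ∑ χ ∈ prim k,
      χ (x : ZMod k) * (starRingEnd ℂ) (χ (j : ZMod k)) := by
    unfold Ps
    rw [sum_add_distrib, sum_ite_eq' d.divisors 1 (fun _ => (1 : ℂ)),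
      if_pos (Nat.one_mem_divisors.2 (by omega))]
  rw [h1, ← ZId_prim (fun r χ => χ (x : ZMod r) * (starRingEnd ℂ) (χ (j : ZMod r))) d hd,
    ← ZId_orth (x := x) hj,
    ← add_sum_erase (univ : Finset (DirichletCharacter ℂ d)) _ (mem_univ 1)]
  have h2 : ((1 : DirichletCharacter ℂ d) (x : ZMod d)) *
      (starRingEnd ℂ) ((1 : DirichletCharacter ℂ d) (j : ZMod d)) = 1 := by
    rw [MulChar.one_apply ((ZMod.isUnit_iff_coprime x d).mpr hx),
      MulChar.one_apply ((ZMod.isUnit_iff_coprime j d).mpr hj), map_one, mul_one]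
  rw [h2]
  refine congrArg (fun t => 1 + t) (sum_congr rfl fun χ _ => ?_)
  rw [ZId_val χ hx, ZId_val χ hj]

/-- keep this signature -/
theorem thm_ZId : St_ZId := by
  refine ⟨ZId_first, ?_⟩
  intro k x j hk hx hj
  set s : Set ℕ := {n | x.Coprime n ∧ j.Coprime n} with hs
  have hs1 : ∀ m n, m ∣ n → n ∈ s → m ∈ s := fun m n hmn hn =>
    ⟨hn.1.coprime_dvd_right hmn, hn.2.coprime_dvd_right hmn⟩
  have h1 := (ArithmeticFunction.sum_eq_iff_sum_mul_moebius_eq_on (R := ℂ)
    (f := fun k => Ps k x j)
    (g := fun d => if x % d = j % d then (d.totient : ℂ) else 0) s hs1).1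
    (fun n hn hns => ZId_first n x j hn hns.1 hns.2) k (by omega) ⟨hx, hj⟩
  rw [← h1]
  rw [Nat.sum_divisorsAntidiagonal' (fun a b => ((ArithmeticFunction.moebius a : ℤ) : ℂ) *
    (if x % b = j % b then (b.totient : ℂ) else 0))]

end Pool.Agent.CV
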