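import Mathlib
import Pool.Agent.CV.Stmts
import Pool.Agent.CU.TRed

set_option autoImplicit false

/-!
# CV / ZRed

One modulus: small conductors, large conductors.
-/

namespace Pool.Agent.CV

open Finset Filter Pool.Agent.MT Pool.Agent.CH Pool.Agent.CU

theorem zred_mob1 (d : ℕ) (hd : 0 < d) :
    ∑ k ∈ d.divisors, ((ArithmeticFunction.moebius k : ℤ) : ℝ) / (k : ℝ) =
      (d.totient : ℝ) / d := by
  have h1 : ∀ n : ℕ, n > 0 → ∑ i ∈ n.divisors, ((i.totient : ℕ) : ℝ) = (n : ℝ) := by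
    intro n _
    have h2 := Nat.sum_totient n
    exact_mod_cast h2
  have h2 := (ArithmeticFunction.sum_eq_iff_sum_mul_moebius_eq
    (f := fun i : ℕ => ((i.totient : ℕ) : ℝ)) (g := fun n : ℕ => (n : ℝ))).1 h1 d hd
  rw [Nat.sum_divisorsAntidiagonal
    (f := fun a b : ℕ => ((ArithmeticFunction.moebius a : ℤ) : ℝ) * (b : ℝ))] at h2
  have hdR : (d : ℝ) ≠ 0 := by exact_mod_cast hd.ne'
  rw [eq_div_iff hdR, ← h2, sum_mul]
  refine sum_congr rfl fun k hk => ?_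
  have hkd := Nat.dvd_of_mem_divisors hk
  have hk0 : (k : ℝ) ≠ 0 := by
    have := Nat.pos_of_mem_divisors hk
    exact_mod_cast this.ne'
  rw [Nat.cast_div hkd hk0]
  ring

theorem zred_mob2 (k : ℕ) (hk : 0 < k) :
    ∑ k₁ ∈ k.divisors, ((ArithmeticFunction.moebius (k / k₁) : ℤ) : ℝ) *
      ((k₁.totient : ℝ) / (k₁ : ℝ)) = ((ArithmeticFunction.moebius k : ℤ) : ℝ) / (k : ℝ) := by
  have h2 := (ArithmeticFunction.sum_eq_iff_sum_mul_moebius_eq
    (f := fun i : ℕ => ((ArithmeticFunction.moebius i : ℤ) : ℝ) / (i : ℝ))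
    (g := fun n : ℕ => ((n.totient : ℕ) : ℝ) / (n : ℝ))).1 (fun n hn => zred_mob1 n hn) k hk
  rw [Nat.sum_divisorsAntidiagonal' (f := fun a b : ℕ =>
    ((ArithmeticFunction.moebius a : ℤ) : ℝ) * (((b.totient : ℕ) : ℝ) / (b : ℝ)))] at h2
  exact h2

theorem zred_card {q : ℕ} (hq : Squarefree q) :
    q.divisors.card = 2 ^ q.primeFactors.card := by
  rw [Nat.card_divisors hq.ne_zero, prod_congr rfl (g := fun _ => 2), prod_const]
  intro p hp
  have h1 := (Nat.squarefree_iff_factorization_le_one hq.ne_zero).1 hq p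
  have h2 : 0 < q.factorization p :=
    (Nat.prime_of_mem_primeFactors hp).factorization_pos_of_dvd hq.ne_zero
      (Nat.dvd_of_mem_primeFactors hp)
  omega

theorem zred_mu_le (k : ℕ) : |((ArithmeticFunction.moebius k : ℤ) : ℝ)| ≤ 1 := by
  have h := ArithmeticFunction.abs_moebius_le_one (n := k)
  exact_mod_cast h

theorem zred_small (d K₀ g : ℕ) (hd : Squarefree d) (hK : 1 ≤ K₀) (hg : 1 ≤ g) (T : ℕ → ℝ)
    (Ψ : ℝ) (hΨ : 0 ≤ Ψ) :
    |1 / (d.totient : ℝ) * ∑ k ∈ d.divisors.filter (fun k => k ≤ K₀), ∑ k₁ ∈ k.divisors,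
      ((ArithmeticFunction.moebius (k / k₁) : ℤ) : ℝ) * k₁.totient * T k₁ - Ψ / (g * d)| ≤
    2 ^ d.primeFactors.card / (d.totient : ℝ) *
      ∑ k ∈ d.divisors.filter (fun k => k ≤ K₀), (k.totient : ℝ) * |T k - Ψ / (g * k)| +
    Ψ * 2 ^ d.primeFactors.card / ((d.totient : ℝ) * K₀) := by
  have hd0 : 0 < d := Nat.pos_of_ne_zero hd.ne_zero
  have hdR : (0 : ℝ) < d := by exact_mod_cast hd0
  have hφ : (0 : ℝ) < (d.totient : ℝ) := by exact_mod_cast Nat.totient_pos.mpr hd0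
  have hgR : (1 : ℝ) ≤ g := by exact_mod_cast hg
  have hg0 : (g : ℝ) ≠ 0 := by linarith
  have hKR : (1 : ℝ) ≤ K₀ := by exact_mod_cast hK
  -- one `k`
  have e1 : ∀ k ∈ d.divisors.filter (fun k => k ≤ K₀), ∑ k₁ ∈ k.divisors,
      ((ArithmeticFunction.moebius (k / k₁) : ℤ) : ℝ) * k₁.totient * T k₁ =
      ∑ k₁ ∈ k.divisors, ((ArithmeticFunction.moebius (k / k₁) : ℤ) : ℝ) * k₁.totient *
        (T k₁ - Ψ / (g * k₁)) +
      Ψ / g * (((ArithmeticFunction.moebius k : ℤ) : ℝ) / (k : ℝ)) := by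
    intro k hk
    have hk0 := Nat.pos_of_mem_divisors (mem_filter.1 hk).1
    rw [← zred_mob2 k hk0, mul_sum, ← sum_add_distrib]
    refine sum_congr rfl fun k₁ hk₁ => ?_
    have h1 : (k₁ : ℝ) ≠ 0 := by
      have := Nat.pos_of_mem_divisors hk₁
      exact_mod_cast this.ne'
    field_simp
    ring
  have e2 : ∑ k ∈ d.divisors.filter (fun k => k ≤ K₀),
      ((ArithmeticFunction.moebius k : ℤ) : ℝ) / (k : ℝ) = (d.totient : ℝ) / d -
      ∑ k ∈ d.divisors.filter (fun k => ¬ k ≤ K₀),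
        ((ArithmeticFunction.moebius k : ℤ) : ℝ) / (k : ℝ) := by
    rw [← zred_mob1 d hd0, ← sum_filter_add_sum_filter_not d.divisors (fun k => k ≤ K₀)]
    ring
  rw [sum_congr rfl e1, sum_add_distrib, ← mul_sum, e2]
  set A : ℝ := ∑ k ∈ d.divisors.filter (fun k => k ≤ K₀), ∑ k₁ ∈ k.divisors,
    ((ArithmeticFunction.moebius (k / k₁) : ℤ) : ℝ) * k₁.totient * (T k₁ - Ψ / (g * k₁)) with hA
  set B : ℝ := ∑ k ∈ d.divisors.filter (fun k => ¬ k ≤ K₀),
    ((ArithmeticFunction.moebius k : ℤ) : ℝ) / (k : ℝ) with hB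
  have e3 : 1 / (d.totient : ℝ) * (A + Ψ / g * ((d.totient : ℝ) / d - B)) - Ψ / (g * d) =
      1 / (d.totient : ℝ) * A - 1 / (d.totient : ℝ) * (Ψ / g * B) := by
    field_simp
    ring
  rw [e3]
  -- bound for `A`
  have hAb : |A| ≤ 2 ^ d.primeFactors.card *
      ∑ k ∈ d.divisors.filter (fun k => k ≤ K₀), (k.totient : ℝ) * |T k - Ψ / (g * k)| := by
    have h1 : |A| ≤ ∑ k ∈ d.divisors.filter (fun k => k ≤ K₀),
        ∑ k₁ ∈ d.divisors.filter (fun k => k ≤ K₀), (k₁.totient : ℝ) * |T k₁ - Ψ / (g * k₁)| := by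
      rw [hA]
      refine (abs_sum_le_sum_abs _ _).trans (sum_le_sum fun k hk => ?_)
      refine (abs_sum_le_sum_abs _ _).trans ?_
      have h2 : ∀ k₁ ∈ k.divisors, |((ArithmeticFunction.moebius (k / k₁) : ℤ) : ℝ) *
          k₁.totient * (T k₁ - Ψ / (g * k₁))| ≤ (k₁.totient : ℝ) * |T k₁ - Ψ / (g * k₁)| := by
        intro k₁ _
        rw [abs_mul, abs_mul, Nat.abs_cast]
        refine mul_le_mul_of_nonneg_right ?_ (abs_nonneg _)
        exact mul_le_of_le_one_left (Nat.cast_nonneg _) (zred_mu_le _)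
      refine (sum_le_sum h2).trans ?_
      refine sum_le_sum_of_subset_of_nonneg ?_ fun i _ _ => by positivity
      intro k₁ hk₁
      rw [mem_filter] at hk
      have h3 := Nat.dvd_of_mem_divisors hk₁
      have h4 := Nat.dvd_of_mem_divisors hk.1
      have h5 := Nat.pos_of_mem_divisors hk.1
      rw [mem_filter, Nat.mem_divisors]
      exact ⟨⟨h3.trans h4, hd0.ne'⟩, (Nat.le_of_dvd h5 h3).trans hk.2⟩
    refine h1.trans ?_
    rw [sum_const, nsmul_eq_mul]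
    refine mul_le_mul_of_nonneg_right ?_ (sum_nonneg fun i _ => by positivity)
    have h6 : (d.divisors.filter (fun k => k ≤ K₀)).card ≤ 2 ^ d.primeFactors.card := by
      rw [← zred_card hd]
      exact card_le_card (filter_subset _ _)
    exact_mod_cast h6
  -- bound for `B`
  have hBb : |B| ≤ 2 ^ d.primeFactors.card / K₀ := by
    have h1 : |B| ≤ ∑ k ∈ d.divisors.filter (fun k => ¬ k ≤ K₀), 1 / (K₀ : ℝ) := by
      rw [hB]
      refine (abs_sum_le_sum_abs _ _).trans (sum_le_sum fun k hk => ?_)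
      rw [mem_filter] at hk
      have hk0 : (K₀ : ℝ) < k := by
        have := not_le.1 hk.2
        exact_mod_cast this
      rw [abs_div, Nat.abs_cast]
      calc |((ArithmeticFunction.moebius k : ℤ) : ℝ)| / (k : ℝ) ≤ 1 / (k : ℝ) :=
            div_le_div_of_nonneg_right (zred_mu_le k) (by linarith)
        _ ≤ 1 / (K₀ : ℝ) := one_div_le_one_div_of_le (by linarith) hk0.le
    refine h1.trans ?_
    rw [sum_const, nsmul_eq_mul, mul_one_div]
    refine div_le_div_of_nonneg_right ?_ (by linarith)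
    have h6 : (d.divisors.filter (fun k => ¬ k ≤ K₀)).card ≤ 2 ^ d.primeFactors.card := by
      rw [← zred_card hd]
      exact card_le_card (filter_subset _ _)
    exact_mod_cast h6
  have h7 : |1 / (d.totient : ℝ) * A - 1 / (d.totient : ℝ) * (Ψ / g * B)| ≤
      1 / (d.totient : ℝ) * |A| + 1 / (d.totient : ℝ) * (Ψ / g * |B|) := by
    refine (abs_sub _ _).trans ?_
    rw [abs_mul, abs_mul, abs_mul, abs_of_nonneg (by positivity : 0 ≤ 1 / (d.totient : ℝ)),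
      abs_of_nonneg (by positivity : 0 ≤ Ψ / (g : ℝ))]
  refine h7.trans (add_le_add ?_ ?_)
  · calc 1 / (d.totient : ℝ) * |A| ≤ 1 / (d.totient : ℝ) * (2 ^ d.primeFactors.card *
        ∑ k ∈ d.divisors.filter (fun k => k ≤ K₀), (k.totient : ℝ) * |T k - Ψ / (g * k)|) :=
          mul_le_mul_of_nonneg_left hAb (by positivity)
      _ = _ := by ring
  · have h8 : Ψ / g ≤ Ψ := div_le_self hΨ hgR
    calc 1 / (d.totient : ℝ) * (Ψ / g * |B|) ≤
        1 / (d.totient : ℝ) * (Ψ * (2 ^ d.primeFactors.card / K₀)) := by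
          refine mul_le_mul_of_nonneg_left ?_ (by positivity)
          exact mul_le_mul h8 hBb (abs_nonneg _) hΨ
      _ = _ := by
          field_simp

/-- keep this signature -/
theorem thm_ZRed (h1 : St_ZA) (h2 : St_ZB) (h3 : St_ZC) : St_ZRed := by
  intro η hη
  obtain ⟨Ca, hCa, ha⟩ := h1 η hη
  obtain ⟨Cb, hCb, hb⟩ := h2 η hη
  obtain ⟨Cc, hCc, hc⟩ := h3 η hη
  refine ⟨Ca + Cb + Cc + 6, by positivity, ?_⟩
  intro N m n g c d w K₀ hN hT hw hK hg hgN hcg hdZ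
  have hT' := hT
  obtain ⟨hm, hmN, -⟩ := hT'
  have hdZ' := hdZ
  unfold ZD at hdZ'
  rw [mem_filter, mem_Icc] at hdZ'
  obtain ⟨⟨hd1, -⟩, hsq, -, -⟩ := hdZ'
  have hd0 : 0 < d := hd1
  have hφ : (1 : ℝ) ≤ (d.totient : ℝ) := by
    exact_mod_cast Nat.totient_pos.mpr hd0
  have hφ0 : (0 : ℝ) < (d.totient : ℝ) := by linarith
  have hmR : (1 : ℝ) ≤ m := by exact_mod_cast hm
  have hgR : (1 : ℝ) ≤ g := by exact_mod_cast hg
  have hwR : (1 : ℝ) ≤ w := by exact_mod_cast hw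
  have hKR : (1 : ℝ) ≤ K₀ := by exact_mod_cast hK
  have hlog : 0 ≤ Real.log n := Real.log_natCast_nonneg n
  set Lg : ℝ := 1 + Real.log n with hLg
  have hLg1 : 1 ≤ Lg := by rw [hLg]; linarith
  have hLg2 : Lg ^ 2 ≤ Lg ^ 3 := pow_le_pow_right₀ hLg1 (by norm_num)
  have hLg3 : 1 ≤ Lg ^ 3 := one_le_pow₀ hLg1
  set Ψ : ℝ := psi0 (etaR η) (m * N) with hΨ
  have hW := abv_wt η hη
  have hΨ0 : 0 ≤ Ψ :=
    sum_nonneg fun x _ => mul_nonneg ArithmeticFunction.vonMangoldt_nonneg (hW.nonneg _)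
  have hΨ1 : Ψ ≤ 6 * (m * N) := by
    have h := psi0_upper (etaR η) hW (m * N)
    push_cast at h
    exact h
  set s : ℕ := d.primeFactors.card with hs
  have h2s : (1 : ℝ) ≤ 2 ^ s := one_le_pow₀ (by norm_num)
  have h4s : (2 : ℝ) ^ s ≤ 4 ^ s := pow_le_pow_left₀ (by norm_num) (by norm_num) s
  have h4s1 : (1 : ℝ) ≤ 4 ^ s := one_le_pow₀ (by norm_num)
  have hcardd : (d.divisors.card : ℝ) = 2 ^ s := by
    rw [zred_card hsq]; push_cast; rfl
  -- the three parts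
  set S1 := d.divisors.filter (fun k => k ≤ K₀) with hS1
  set S2 := d.divisors.filter (fun k => K₀ < k) with hS2
  let a : ℕ → ℝ := fun k => ∑ k₁ ∈ k.divisors,
    ((ArithmeticFunction.moebius (k / k₁) : ℤ) : ℝ) * k₁.totient * TZ η N m n g c k₁
  have hsplit : ∑ k ∈ d.divisors, TG η N m n g c d k =
      ∑ k ∈ S1, TG η N m n g c d k + ∑ k ∈ S2, TG η N m n g c d k := by
    rw [← sum_filter_add_sum_filter_not d.divisors (fun k => k ≤ K₀)]
    simp only [not_le, hS1, hS2]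
  have hkey : ((TZ η N m n g c d - Ψ / (g * d) : ℝ) : ℂ) =
      (((TZ η N m n g c d : ℝ) : ℂ) -
        1 / (d.totient : ℂ) * ∑ k ∈ d.divisors, TG η N m n g c d k) +
      1 / (d.totient : ℂ) * ∑ k ∈ S1, (TG η N m n g c d k - ((a k : ℝ) : ℂ)) +
      1 / (d.totient : ℂ) * ∑ k ∈ S2, TG η N m n g c d k +
      ((1 / (d.totient : ℝ) * ∑ k ∈ S1, a k - Ψ / (g * d) : ℝ) : ℂ) := by
    rw [hsplit, sum_sub_distrib]
    push_cast
    ring
  have hEZ : EZ η N m n g c d = ‖((TZ η N m n g c d - Ψ / (g * d) : ℝ) : ℂ)‖ := by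
    rw [Complex.norm_real, Real.norm_eq_abs]
    rfl
  rw [hEZ, hkey]
  have hnφ : ‖(1 / (d.totient : ℂ))‖ = 1 / (d.totient : ℝ) := by
    rw [norm_div, norm_one, Complex.norm_natCast]
  have b1 := ha N m n g c d w hN hT hg hgN hcg hdZ
  -- totients
  have htot : ∀ k ∈ d.divisors, (k.totient : ℝ) / (d.totient : ℝ) ≤ 1 := by
    intro k hk
    rw [div_le_one hφ0]
    exact_mod_cast Nat.le_of_dvd (Nat.totient_pos.mpr hd0)
      (Nat.totient_dvd_of_dvd (Nat.dvd_of_mem_divisors hk))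
  -- small conductors
  have b2 : ‖1 / (d.totient : ℂ) * ∑ k ∈ S1, (TG η N m n g c d k - ((a k : ℝ) : ℂ))‖ ≤
      Cb * 4 ^ s * Lg ^ 2 * (((m : ℝ) / w + 1) * (n / (m * g * (d.totient : ℝ)) + 1)) := by
    rw [norm_mul, hnφ]
    have h5 : ‖∑ k ∈ S1, (TG η N m n g c d k - ((a k : ℝ) : ℂ))‖ ≤
        ∑ k ∈ S1, Cb * 2 ^ s * Lg ^ 2 * (((m : ℝ) / w + 1) * (n / (m * g) + k.totient)) := by
      refine (norm_sum_le _ _).trans (sum_le_sum fun k hk => ?_)
      rw [hS1, mem_filter] at hk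
      have hkd := Nat.dvd_of_mem_divisors hk.1
      refine (hb N m n g c d w k hN hT hw hg hgN hcg hdZ hkd).trans ?_
      have h6 : (2 : ℝ) ^ k.primeFactors.card ≤ 2 ^ s :=
        pow_le_pow_right₀ (by norm_num) (card_le_card (Nat.primeFactors_mono hkd hd0.ne'))
      have h7 : 0 ≤ Lg ^ 2 * (((m : ℝ) / w + 1) * (n / (m * g) + k.totient)) := by positivity
      calc Cb * 2 ^ k.primeFactors.card * Lg ^ 2 *
            (((m : ℝ) / w + 1) * (n / (m * g) + k.totient)) =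
            (Cb * 2 ^ k.primeFactors.card) *
              (Lg ^ 2 * (((m : ℝ) / w + 1) * (n / (m * g) + k.totient))) := by ring
        _ ≤ (Cb * 2 ^ s) * (Lg ^ 2 * (((m : ℝ) / w + 1) * (n / (m * g) + k.totient))) := by
            refine mul_le_mul_of_nonneg_right ?_ h7
            exact mul_le_mul_of_nonneg_left h6 hCb.le
        _ = _ := by ring
    have h8 : ∀ k ∈ S1, 1 / (d.totient : ℝ) * (Cb * 2 ^ s * Lg ^ 2 *
        (((m : ℝ) / w + 1) * (n / (m * g) + k.totient))) ≤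
        Cb * 2 ^ s * Lg ^ 2 * (((m : ℝ) / w + 1) * (n / (m * g * (d.totient : ℝ)) + 1)) := by
      intro k hk
      rw [hS1, mem_filter] at hk
      have h9 := htot k hk.1
      have h10 : 1 / (d.totient : ℝ) * (Cb * 2 ^ s * Lg ^ 2 *
        (((m : ℝ) / w + 1) * (n / (m * g) + k.totient))) =
        Cb * 2 ^ s * Lg ^ 2 * (((m : ℝ) / w + 1) * (n / (m * g * (d.totient : ℝ)) +
          (k.totient : ℝ) / (d.totient : ℝ))) := by
        field_simp
      rw [h10]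
      refine mul_le_mul_of_nonneg_left ?_ (by positivity)
      refine mul_le_mul_of_nonneg_left ?_ (by positivity)
      linarith
    calc 1 / (d.totient : ℝ) * ‖∑ k ∈ S1, (TG η N m n g c d k - ((a k : ℝ) : ℂ))‖ ≤
        1 / (d.totient : ℝ) * ∑ k ∈ S1, Cb * 2 ^ s * Lg ^ 2 *
          (((m : ℝ) / w + 1) * (n / (m * g) + k.totient)) :=
          mul_le_mul_of_nonneg_left h5 (by positivity)
      _ = ∑ k ∈ S1, 1 / (d.totient : ℝ) * (Cb * 2 ^ s * Lg ^ 2 *
          (((m : ℝ) / w + 1) * (n / (m * g) + k.totient))) := by rw [mul_sum]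
      _ ≤ ∑ _k ∈ S1, Cb * 2 ^ s * Lg ^ 2 *
          (((m : ℝ) / w + 1) * (n / (m * g * (d.totient : ℝ)) + 1)) := sum_le_sum h8
      _ = (S1.card : ℝ) * (Cb * 2 ^ s * Lg ^ 2 *
          (((m : ℝ) / w + 1) * (n / (m * g * (d.totient : ℝ)) + 1))) := by
          rw [sum_const, nsmul_eq_mul]
      _ ≤ 2 ^ s * (Cb * 2 ^ s * Lg ^ 2 *
          (((m : ℝ) / w + 1) * (n / (m * g * (d.totient : ℝ)) + 1))) := by
          refine mul_le_mul_of_nonneg_right ?_ (by positivity)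
          rw [← hcardd]
          exact_mod_cast card_le_card (filter_subset _ _)
      _ = _ := by
          have h11 : (4 : ℝ) ^ s = 2 ^ s * 2 ^ s := by rw [← mul_pow]; norm_num
          rw [h11]
          ring
  -- large conductors
  have b3 : ‖1 / (d.totient : ℂ) * ∑ k ∈ S2, TG η N m n g c d k‖ ≤
      Cc * 2 ^ s * Lg ^ 2 * m + 1 / ((d.totient : ℝ) * ((m * g).totient : ℝ)) *
      ∑ k ∈ S2, ∑ χ ∈ prim k, ∑ ψ : DirichletCharacter ℂ (m * g),
        ‖PZ (etaR η) (m * N) χ ψ‖ * ‖JZ n m g c (d / k) χ ψ‖ := by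
    rw [norm_mul, hnφ]
    have h5 : ‖∑ k ∈ S2, TG η N m n g c d k‖ ≤ ∑ k ∈ S2, (Cc * Lg ^ 2 * (k.totient * m) +
        1 / ((m * g).totient : ℝ) * ∑ χ ∈ prim k, ∑ ψ : DirichletCharacter ℂ (m * g),
          ‖PZ (etaR η) (m * N) χ ψ‖ * ‖JZ n m g c (d / k) χ ψ‖) := by
      refine (norm_sum_le _ _).trans (sum_le_sum fun k hk => ?_)
      rw [hS2, mem_filter] at hk
      exact hc N m n g c d w k hN hT hg hgN hcg hdZ (Nat.dvd_of_mem_divisors hk.1) (by omega)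
    refine (mul_le_mul_of_nonneg_left h5 (by positivity)).trans ?_
    rw [sum_add_distrib, mul_add, ← mul_sum]
    refine add_le_add ?_ (le_of_eq ?_)
    · calc 1 / (d.totient : ℝ) * (Cc * Lg ^ 2 * ∑ k ∈ S2, ((k.totient : ℝ) * m)) =
          Cc * Lg ^ 2 * m * ∑ k ∈ S2, (k.totient : ℝ) / (d.totient : ℝ) := by
            rw [← sum_mul, ← sum_div]
            ring
        _ ≤ Cc * Lg ^ 2 * m * ∑ _k ∈ S2, (1 : ℝ) := by
            refine mul_le_mul_of_nonneg_left ?_ (by positivity)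
            refine sum_le_sum fun k hk => ?_
            rw [hS2, mem_filter] at hk
            exact htot k hk.1
        _ ≤ Cc * Lg ^ 2 * m * 2 ^ s := by
            refine mul_le_mul_of_nonneg_left ?_ (by positivity)
            rw [sum_const, nsmul_eq_mul, mul_one, ← hcardd]
            exact_mod_cast card_le_card (filter_subset _ _)
        _ = _ := by ring
    · rw [← mul_sum, ← mul_assoc]
      congr 1
      field_simp
  -- main term
  have b4 := zred_small d K₀ g hsq hK hg (TZ η N m n g c) Ψ hΨ0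
  have b4' : ‖((1 / (d.totient : ℝ) * ∑ k ∈ S1, a k - Ψ / (g * d) : ℝ) : ℂ)‖ ≤
      2 ^ s / (d.totient : ℝ) * ∑ k ∈ S1, (k.totient : ℝ) * EZ η N m n g c k +
      6 * 4 ^ s * Lg ^ 3 * (m * N / ((d.totient : ℝ) * K₀)) := by
    rw [Complex.norm_real, Real.norm_eq_abs]
    refine b4.trans (add_le_add le_rfl ?_)
    have h5 : Ψ * 2 ^ s ≤ 6 * 4 ^ s * Lg ^ 3 * (m * N) := by
      calc Ψ * 2 ^ s ≤ (6 * (m * N)) * 4 ^ s := mul_le_mul hΨ1 h4s (by positivity) (by positivity)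
        _ = 6 * 4 ^ s * 1 * (m * N) := by ring
        _ ≤ _ := by
            refine mul_le_mul_of_nonneg_right ?_ (by positivity)
            exact mul_le_mul_of_nonneg_left hLg3 (by positivity)
    calc Ψ * 2 ^ s / ((d.totient : ℝ) * K₀) ≤
        6 * 4 ^ s * Lg ^ 3 * (m * N) / ((d.totient : ℝ) * K₀) :=
          div_le_div_of_nonneg_right h5 (by positivity)
      _ = _ := by ring
  refine (norm_add_le _ _).trans ?_
  refine (add_le_add ((norm_add_le _ _).trans (add_le_add ((norm_add_le _ _).trans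
    (add_le_add b1 b2)) b3)) b4').trans ?_
  -- collecting
  set X1 : ℝ := ((m : ℝ) / w + 1) * (n / (m * g * (d.totient : ℝ)) + 1) with hX1
  set X2 : ℝ := m * N / ((d.totient : ℝ) * K₀) with hX2
  have hX1p : 0 ≤ X1 := by positivity
  have hX2p : 0 ≤ X2 := by positivity
  have c1 : Ca * Lg ^ 2 ≤ Ca * 4 ^ s * Lg ^ 3 * m := by
    have h5 : Lg ^ 2 ≤ Lg ^ 3 * m := hLg2.trans (le_mul_of_one_le_right (by positivity) hmR)
    have h6 : Lg ^ 3 * m ≤ 4 ^ s * (Lg ^ 3 * m) := le_mul_of_one_le_left (by positivity) h4s1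
    calc Ca * Lg ^ 2 ≤ Ca * (4 ^ s * (Lg ^ 3 * m)) :=
          mul_le_mul_of_nonneg_left (h5.trans h6) hCa.le
      _ = _ := by ring
  have c2 : Cb * 4 ^ s * Lg ^ 2 * X1 ≤ Cb * 4 ^ s * Lg ^ 3 * X1 := by
    refine mul_le_mul_of_nonneg_right ?_ hX1p
    exact mul_le_mul_of_nonneg_left hLg2 (by positivity)
  have c3 : Cc * 2 ^ s * Lg ^ 2 * m ≤ Cc * 4 ^ s * Lg ^ 3 * m := by
    refine mul_le_mul_of_nonneg_right ?_ (by positivity)
    exact mul_le_mul (mul_le_mul_of_nonneg_left h4s hCc.le) hLg2 (by positivity) (by positivity)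
  have hY : 0 ≤ 4 ^ s * Lg ^ 3 := by positivity
  have hsum : Ca * 4 ^ s * Lg ^ 3 * m + Cb * 4 ^ s * Lg ^ 3 * X1 + Cc * 4 ^ s * Lg ^ 3 * m +
      6 * 4 ^ s * Lg ^ 3 * X2 ≤ (Ca + Cb + Cc + 6) * 4 ^ s * Lg ^ 3 * (m + X1 + X2) := by
    have e0 : (Ca + Cb + Cc + 6) * 4 ^ s * Lg ^ 3 * (m + X1 + X2) -
        (Ca * 4 ^ s * Lg ^ 3 * m + Cb * 4 ^ s * Lg ^ 3 * X1 + Cc * 4 ^ s * Lg ^ 3 * m +
        6 * 4 ^ s * Lg ^ 3 * X2) = (4 ^ s * Lg ^ 3) * (Cb * m + 6 * m + (Ca + Cc + 6) * X1 +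
        (Ca + Cb + Cc) * X2) := by ring
    have e4 : 0 ≤ (4 ^ s * Lg ^ 3) * (Cb * m + 6 * m + (Ca + Cc + 6) * X1 +
        (Ca + Cb + Cc) * X2) := by positivity
    linarith
  linarith

end Pool.Agent.CV
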