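import Mathlib
import Pool.Agent.CV.Stmts
import Pool.Agent.CH.SA
import Pool.Agent.GBQ.Crt
import Pool.Agent.GBQ.Div

set_option autoImplicit false

/-!
# CV / ZSA

Lower bound for the sifted sum over the tiles, level `1/2` for `q` divisible by `d`, from the
linear sieve (`s = 4`).
-/

namespace Pool.Agent.CV

open Finset Filter Pool.Agent.MT Pool.Agent.CH Pool.Agent.CU

/-- number of classes modulo `g` -/
theorem zsa_card (h4 : St_DensT) (w g : ℕ) (hg : Squarefree g) :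
    (((range g).filter (fun a => ∀ l ∈ g.primeFactors, a % l ∈ OmT w l)).card : ℝ) ≤
      3 ^ g.primeFactors.card := by
  classical
  have h1 := Pool.Agent.GBQ.thm_Crt g.primeFactors (OmT w)
    (fun p hp => Nat.prime_of_mem_primeFactors hp) (fun p _ => Finset.filter_subset _ _)
  rw [Nat.prod_primeFactors_of_squarefree hg] at h1
  rw [h1]
  push_cast
  rw [← Finset.prod_const]
  apply Finset.prod_le_prod (fun _ _ => by positivity)
  intro p hp
  exact_mod_cast (h4.1 w p (Nat.prime_of_mem_primeFactors hp)).1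

theorem zsa_gZ0 (w m l : ℕ) (h : w < l ∧ l ∣ m) : gZ w m l = 0 := by
  unfold gZ OmZ
  rw [if_pos h]
  simp

theorem zsa_gZT (w m l : ℕ) (h : ¬ (w < l ∧ l ∣ m)) : gZ w m l = gT w l := by
  unfold gZ OmZ gT
  rw [if_neg h]

theorem zsa_gZ (h4 : St_DensT) (w m l : ℕ) (hl : l.Prime) :
    0 ≤ gZ w m l ∧ gZ w m l ≤ 1 / 2 ∧ gZ w m l ≤ 4 / (l : ℝ) := by
  by_cases h : w < l ∧ l ∣ m
  · rw [zsa_gZ0 w m l h]
    have h2 : (0 : ℝ) < l := by exact_mod_cast hl.pos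
    refine ⟨le_rfl, by norm_num, by positivity⟩
  · rw [zsa_gZT w m l h]
    exact ⟨(h4.1 w l hl).2.1, (h4.1 w l hl).2.2.1, (h4.1 w l hl).2.2.2.1⟩

/-- the density satisfies the hypotheses of the sieve -/
theorem zsa_dns (h4 : St_DensT) (N m z : ℕ) (δ : ℝ) (hδ : 0 < δ) (hN : 2 ≤ N) (hm : 1 ≤ m)
    (hmN : (m : ℝ) ≤ (N : ℝ) ^ 2) :
    DnsG ⌊(N : ℝ) ^ δ⌋₊ z ⌈2 / δ⌉₊ (gZ (wN δ N) m) := by
  classical
  refine ⟨fun l hl => zsa_gZ h4 (wN δ N) m l hl, ?_, ?_⟩
  · intro l hl hwl _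
    by_cases h : l ∣ m
    · exact Or.inl (zsa_gZ0 _ _ _ ⟨hwl, h⟩)
    · right
      rw [zsa_gZT _ _ _ (fun h' => h h'.2), (h4.1 (wN δ N) l hl).2.2.2.2 hwl]
      have h2 : (2 : ℝ) ≤ l := by exact_mod_cast hl.two_le
      refine ⟨le_rfl, ?_⟩
      apply one_div_le_one_div_of_le
      · linarith
      · linarith
  · apply sa_count N m δ hδ hN hm hmN
    · intro l hl
      rw [Finset.mem_filter] at hl
      have hlp : l.Prime := by
        have := hl.1
        unfold pr at this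
        exact (Finset.mem_filter.1 this).2
      refine ⟨hlp, ?_⟩
      by_contra hcon
      have h5 := (h4.1 (wN δ N) l hlp).2.2.2.2 hl.2.1
      rw [← zsa_gZT (wN δ N) m l (fun h' => hcon h'.2), hl.2.2] at h5
      have h6 : (0 : ℝ) < 1 / (l : ℝ) := one_div_pos.2 (by exact_mod_cast hlp.pos)
      linarith
    · intro l hl
      rw [Finset.mem_filter] at hl
      have h5 := Nat.lt_floor_add_one ((N : ℝ) ^ δ)
      have h6 : ((wN δ N : ℕ) : ℝ) + 1 ≤ l := by exact_mod_cast hl.2.1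
      unfold wN at h6
      linarith

/-- the sum over the classes modulo `g` -/
theorem zsa_classes (h4 : St_DensT) (w G : ℕ) (hG : 1 ≤ G) (A B : ℝ) (hA : 0 ≤ A) (hB : 0 ≤ B)
    (Ef : ℕ → ℕ → ℝ) (hE : ∀ g a, 1 ≤ g → g ≤ G → a < g → Ef g a ≤ A + B / g) :
    ∑ g ∈ (Icc 1 G).filter Squarefree,
      ∑ a ∈ (range g).filter (fun a => ∀ l ∈ g.primeFactors, a % l ∈ OmT w l), Ef g a ≤
    (G : ℝ) ^ 2 * A + B * (1 + Real.log G) ^ 3 := by
  classical
  have h1 : ∀ g ∈ (Icc 1 G).filter Squarefree,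
      ∑ a ∈ (range g).filter (fun a => ∀ l ∈ g.primeFactors, a % l ∈ OmT w l), Ef g a ≤
        (G : ℝ) * A + B * (((3 : ℕ) : ℝ) ^ g.primeFactors.card / g) := by
    intro g hg
    rw [Finset.mem_filter, Finset.mem_Icc] at hg
    have hg0 : (0 : ℝ) < g := by exact_mod_cast hg.1.1
    have h2 : ∑ a ∈ (range g).filter (fun a => ∀ l ∈ g.primeFactors, a % l ∈ OmT w l), Ef g a ≤
        ∑ a ∈ (range g).filter (fun a => ∀ l ∈ g.primeFactors, a % l ∈ OmT w l),
          (A + B / g) := by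
      apply Finset.sum_le_sum
      intro a ha
      rw [Finset.mem_filter, Finset.mem_range] at ha
      exact hE g a hg.1.1 hg.1.2 ha.1
    rw [Finset.sum_const, nsmul_eq_mul] at h2
    refine h2.trans ?_
    have h3 := zsa_card h4 w g hg.2
    have h5 : (((range g).filter (fun a => ∀ l ∈ g.primeFactors, a % l ∈ OmT w l)).card : ℝ) ≤
        G := by
      have h6 := Finset.card_filter_le (range g)
        (fun a => ∀ l ∈ g.primeFactors, a % l ∈ OmT w l)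
      rw [Finset.card_range] at h6
      exact_mod_cast h6.trans hg.1.2
    rw [mul_add]
    apply add_le_add
    · exact mul_le_mul_of_nonneg_right h5 hA
    · calc (((range g).filter (fun a => ∀ l ∈ g.primeFactors, a % l ∈ OmT w l)).card : ℝ) *
            (B / g) ≤ 3 ^ g.primeFactors.card * (B / g) :=
            mul_le_mul_of_nonneg_right h3 (by positivity)
        _ = B * (((3 : ℕ) : ℝ) ^ g.primeFactors.card / g) := by
            push_cast
            ring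
  refine (Finset.sum_le_sum h1).trans ?_
  rw [Finset.sum_add_distrib, ← Finset.mul_sum, ← Finset.mul_sum]
  apply add_le_add
  · rw [Finset.sum_const, nsmul_eq_mul]
    have h6 : (((Icc 1 G).filter Squarefree).card : ℝ) ≤ G := by
      have h7 := Finset.card_filter_le (Icc 1 G) Squarefree
      rw [Nat.card_Icc] at h7
      exact_mod_cast h7.trans (by omega)
    calc (G : ℝ) * ((((Icc 1 G).filter Squarefree).card : ℝ) * A) ≤ G * ((G : ℝ) * A) := by
          gcongr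
      _ = (G : ℝ) ^ 2 * A := by ring
  · apply mul_le_mul_of_nonneg_left _ hB
    refine le_trans (Finset.sum_le_sum_of_subset_of_nonneg (Finset.filter_subset _ _) ?_)
      (Pool.Agent.GBQ.thm_Div 3 G hG)
    intro g _ _
    positivity

/-- `N` is large -/
theorem zsa_N : ∀ᶠ n : ℕ in atTop, ∀ m N : ℕ, Tile N m n →
    (m : ℝ) ≤ (n : ℝ) ^ (1 / 3 + 1 / 100 : ℝ) → (n : ℝ) ^ (1 / 2 : ℝ) ≤ N := by
  have h1 : Tendsto (fun n : ℕ => (n : ℝ) ^ (1 / 10 : ℝ)) atTop atTop :=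
    (tendsto_rpow_atTop (by norm_num)).comp tendsto_natCast_atTop_atTop
  filter_upwards [h1.eventually_ge_atTop 2, eventually_ge_atTop 1] with n hn hn1 m N hT hm
  obtain ⟨hm1, hmn1, hmn2⟩ := hT
  have hnR : (1 : ℝ) ≤ n := by exact_mod_cast hn1
  have hn0 : (0 : ℝ) < n := by linarith
  have h2 : (n : ℝ) ≤ m * (N + 1) := by exact_mod_cast hmn2.le
  have h3 : (n : ℝ) ≤ (n : ℝ) ^ (1 / 3 + 1 / 100 : ℝ) * (N + 1) :=
    h2.trans (mul_le_mul_of_nonneg_right hm (by positivity))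
  have h4 : (n : ℝ) = (n : ℝ) ^ (1 / 3 + 1 / 100 : ℝ) * (n : ℝ) ^ (1 - (1 / 3 + 1 / 100) : ℝ) := by
    rw [← Real.rpow_add hn0]
    norm_num
  have h5 : (n : ℝ) ^ (1 - (1 / 3 + 1 / 100) : ℝ) ≤ N + 1 := by
    have h6 : 0 < (n : ℝ) ^ (1 / 3 + 1 / 100 : ℝ) := by positivity
    rw [h4] at h3
    nth_rewrite 2 [← h4] at h3
    exact le_of_mul_le_mul_left h3 h6
  have h7 : (n : ℝ) ^ (1 / 2 : ℝ) * (n : ℝ) ^ (1 / 10 : ℝ) ≤
      (n : ℝ) ^ (1 - (1 / 3 + 1 / 100) : ℝ) := by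
    rw [← Real.rpow_add hn0]
    exact Real.rpow_le_rpow_of_exponent_le hnR (by norm_num)
  have h8 : 1 ≤ (n : ℝ) ^ (1 / 2 : ℝ) := Real.one_le_rpow hnR (by norm_num)
  nlinarith

/-- transfer of statements about large `N` -/
theorem zsa_ev (P : ℕ → Prop) (h : ∀ᶠ N : ℕ in atTop, P N) : ∀ᶠ n : ℕ in atTop, ∀ N : ℕ,
    (n : ℝ) ^ (1 / 2 : ℝ) ≤ N → P N := by
  rw [eventually_atTop] at h
  obtain ⟨N0, hN0⟩ := h
  have h1 : Tendsto (fun n : ℕ => (n : ℝ) ^ (1 / 2 : ℝ)) atTop atTop :=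
    (tendsto_rpow_atTop (by norm_num)).comp tendsto_natCast_atTop_atTop
  filter_upwards [h1.eventually_ge_atTop (N0 : ℝ)] with n hn N hN
  exact hN0 N (by exact_mod_cast hn.trans hN)

/-- the error terms are small -/
theorem zsa_real (c₁ δ e₀ : ℝ) (hc₁ : 0 < c₁) (hδ : 0 < δ) (he : 0 < e₀) (C k : ℕ) :
    ∀ᶠ n : ℕ in atTop, 3 * (n : ℝ) ^ (1 - 2 * c₁) +
      6 * C * (1 + Real.log n) ^ (C + 3) * (n : ℝ) ^ (1 - δ / 2) ≤ e₀ * n / Real.log n ^ k := by
  filter_upwards [sa_log_pow k (2 * c₁) (6 / e₀) (by positivity) (by positivity),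
    sa_log_pow (C + 3 + k) (δ / 2) (12 * (C + 1) * 2 ^ (C + 3) / e₀) (by positivity)
      (by positivity), sa_log_large 1, eventually_ge_atTop 1] with n h1 h2 h3 hn1
  have hnR : (1 : ℝ) ≤ n := by exact_mod_cast hn1
  have hn0 : (0 : ℝ) < n := by linarith
  set L := Real.log n with hL
  have hL0 : 0 < L := by linarith
  have hLk : 0 < L ^ k := by positivity
  have e1 : (n : ℝ) ^ (1 - 2 * c₁) * (n : ℝ) ^ (2 * c₁) = n := by
    rw [← Real.rpow_add hn0]
    norm_num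
  have e2 : (n : ℝ) ^ (1 - δ / 2) * (n : ℝ) ^ (δ / 2) = n := by
    rw [← Real.rpow_add hn0]
    norm_num
  have a1 : 3 * (n : ℝ) ^ (1 - 2 * c₁) ≤ e₀ * n / L ^ k / 2 := by
    rw [div_div, le_div_iff₀ (by positivity)]
    have h4 : 6 * L ^ k ≤ e₀ * (n : ℝ) ^ (2 * c₁) := by
      rw [div_mul_eq_mul_div, div_le_iff₀ he] at h1
      linarith
    calc 3 * (n : ℝ) ^ (1 - 2 * c₁) * (L ^ k * 2) = (n : ℝ) ^ (1 - 2 * c₁) * (6 * L ^ k) := by
          ring
      _ ≤ (n : ℝ) ^ (1 - 2 * c₁) * (e₀ * (n : ℝ) ^ (2 * c₁)) := by gcongr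
      _ = e₀ * ((n : ℝ) ^ (1 - 2 * c₁) * (n : ℝ) ^ (2 * c₁)) := by ring
      _ = e₀ * n := by rw [e1]
  have a2 : 6 * C * (1 + L) ^ (C + 3) * (n : ℝ) ^ (1 - δ / 2) ≤ e₀ * n / L ^ k / 2 := by
    rw [div_div, le_div_iff₀ (by positivity)]
    have h4 : 12 * (C + 1) * 2 ^ (C + 3) * L ^ (C + 3 + k) ≤ e₀ * (n : ℝ) ^ (δ / 2) := by
      rw [div_mul_eq_mul_div, div_le_iff₀ he] at h2
      linarith
    have h5 : (1 + L) ^ (C + 3) ≤ 2 ^ (C + 3) * L ^ (C + 3) := by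
      rw [← mul_pow]
      exact pow_le_pow_left₀ (by linarith) (by linarith) _
    calc 6 * C * (1 + L) ^ (C + 3) * (n : ℝ) ^ (1 - δ / 2) * (L ^ k * 2) ≤
          6 * (C + 1) * (2 ^ (C + 3) * L ^ (C + 3)) * (n : ℝ) ^ (1 - δ / 2) * (L ^ k * 2) := by
          gcongr
          linarith
      _ = (n : ℝ) ^ (1 - δ / 2) * (12 * (C + 1) * 2 ^ (C + 3) * L ^ (C + 3 + k)) := by ring
      _ ≤ (n : ℝ) ^ (1 - δ / 2) * (e₀ * (n : ℝ) ^ (δ / 2)) := by gcongr
      _ = e₀ * ((n : ℝ) ^ (1 - δ / 2) * (n : ℝ) ^ (δ / 2)) := by ring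
      _ = e₀ * n := by rw [e2]
  linarith

/-- keep this signature -/
theorem thm_ZSA (A0 : ℝ) (hA0 : 0 < A0) (h0 : St_LRL A0) (h1 : St_LevZ) (h2 : St_GenZ) (h3 : St_VLow) (h4 : St_DensT) (h5 : St_P1) : St_ZSA A0 := by
  classical
  intro η hη ε hε
  set τ : ℝ := min (1 / 16) (ε / (16 * (A0 + 1))) with hτdef
  have hA1 : 0 < A0 + 1 := by linarith
  have hτ0 : 0 < τ := lt_min (by norm_num) (by positivity)
  have hτ1 : τ ≤ 1 / 16 := min_le_left _ _
  have hτ2 : τ ≤ ε / (16 * (A0 + 1)) := min_le_right _ _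
  set ε₁ : ℝ := ε / (16 * (A0 + 1)) with hε₁def
  have hε₁0 : 0 < ε₁ := by positivity
  set ε₂ : ℝ := ε / 8 with hε₂def
  have hε₂0 : 0 < ε₂ := by positivity
  obtain ⟨hI1, hI2, hI3⟩ := sa_int η hη
  set I := ∫ t in (0 : ℝ)..1, η t with hIdef
  obtain ⟨ρL, hρL, hLev⟩ := h1 η hη (1 / 2 - τ / 2) (by linarith) (by linarith)
  refine ⟨min ρL (1 / 100), lt_min hρL (by norm_num), ?_⟩
  intro κ hκ
  obtain ⟨c₁, hc₁, hLev⟩ := hLev κ hκ
  set ε' : ℝ := min (min (τ / 2) (ε / 4)) c₁ with hε'def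
  have hε'0 : 0 < ε' := lt_min (lt_min (by positivity) (by positivity)) hc₁
  have hε'1 : ε' ≤ τ / 2 := (min_le_left _ _).trans (min_le_left _ _)
  have hε'2 : ε' ≤ ε / 4 := (min_le_left _ _).trans (min_le_right _ _)
  have hε'3 : ε' ≤ c₁ := min_le_right _ _
  obtain ⟨δ₀, hδ₀, hL⟩ := h0 ε' hε'0
  obtain ⟨cV, kV, hcV, hV⟩ := h3
  refine ⟨min δ₀ (1 / 8), lt_min hδ₀ (by norm_num), ?_⟩
  intro δ hδ hδ1
  have hδ2 : δ ≤ δ₀ := hδ1.trans (min_le_left _ _)
  have hδ3 : δ ≤ 1 / 8 := hδ1.trans (min_le_right _ _)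
  have hLδ := hL δ hδ hδ2 ⌈2 / δ⌉₊
  obtain ⟨C, hLev⟩ := hLev δ hδ
  have hP := h5 (etaR η) (sa_wt η hη) ε₁ hε₁0
  rw [hI3] at hP
  rw [eventually_atTop] at hP
  obtain ⟨N1, hN1⟩ := hP
  filter_upwards [hLev, zsa_N, zsa_ev _ hLδ, zsa_ev _ (eventually_ge_atTop (max N1 256)),
    zsa_ev _ (sa_floor (1 / 20) (1 / 8) (by norm_num) (by norm_num)),
    zsa_ev _ (sa_floor ((1 / 2 - τ) / 4) (1 / 8) (by linarith) (by linarith)),
    zsa_real c₁ δ (ε₂ * cV / 4) hc₁ hδ (by positivity) C kV,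
    eventually_ge_atTop 256] with n hLevn hNn hLn hNlarge hz1n hz2n hreal hn256
  intro m N hTile hmκ hmρ
  have hnR : (256 : ℝ) ≤ n := by exact_mod_cast hn256
  have hn0 : (0 : ℝ) < n := by linarith
  have hmρ1 : (m : ℝ) ≤ (n : ℝ) ^ (1 / 3 + ρL) :=
    hmρ.trans (Real.rpow_le_rpow_of_exponent_le (by linarith) (by linarith [min_le_left ρL (1 / 100)]))
  have hmρ2 : (m : ℝ) ≤ (n : ℝ) ^ (1 / 3 + 1 / 100 : ℝ) :=
    hmρ.trans (Real.rpow_le_rpow_of_exponent_le (by linarith)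
      (by linarith [min_le_right ρL (1 / 100)]))
  have hNhalf := hNn m N hTile hmρ2
  have hLN := hLn N hNhalf
  have hN := hNlarge N hNhalf
  have hz1 := hz1n N hNhalf
  have hz2 := hz2n N hNhalf
  have hNN1 : N1 ≤ N := (le_max_left _ _).trans hN
  have hN256 : 256 ≤ N := (le_max_right _ _).trans hN
  have hNR : (256 : ℝ) ≤ N := by exact_mod_cast hN256
  have hNpos : (0 : ℝ) < N := by linarith
  obtain ⟨hm, hmn1, hmn2⟩ := id hTile
  have hmR : (0 : ℝ) < m := by exact_mod_cast hm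
  have hmN : N ≤ m * N := Nat.le_mul_of_pos_left N hm
  have hNn' : N ≤ n := hmN.trans hmn1
  have hNnR : (N : ℝ) ≤ n := by exact_mod_cast hNn'
  have hmn : m ≤ n := le_trans (Nat.le_mul_of_pos_right m (by omega)) hmn1
  have hnN2 : (n : ℝ) ≤ (N : ℝ) ^ 2 := by
    have h6 : ((n : ℝ) ^ (1 / 2 : ℝ)) ^ 2 = n := by
      rw [← Real.rpow_natCast, ← Real.rpow_mul hn0.le]
      norm_num
    rw [← h6]
    gcongr
  have hmN2 : (m : ℝ) ≤ (N : ℝ) ^ 2 := le_trans (by exact_mod_cast hmn) hnN2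
  have hdns := zsa_dns h4 N m (zN N) δ hδ (by omega) hm hmN2
  have hwz : wN δ N ≤ zN N := by
    apply Nat.floor_le_floor
    apply Real.rpow_le_rpow_of_exponent_le (by linarith) hδ3
  -- the parameters of the sieve
  set z := zN N with hzdef
  have hz1' : (N : ℝ) ^ (1 / 20 : ℝ) ≤ z := hz1
  have hz2' : (N : ℝ) ^ ((1 / 2 - τ) / 4) ≤ z := hz2
  have hzup : (z : ℝ) ≤ (N : ℝ) ^ (1 / 8 : ℝ) := Nat.floor_le (by positivity)
  have hzone : (1 : ℝ) ≤ z := by
    have h6 : 1 ≤ (N : ℝ) ^ (1 / 20 : ℝ) := Real.one_le_rpow (by linarith) (by norm_num)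
    linarith
  set D := (N : ℝ) ^ (1 / 2 - τ) with hDdef
  have hDz2 : (z : ℝ) ^ 2 ≤ D := by
    calc (z : ℝ) ^ 2 ≤ ((N : ℝ) ^ (1 / 8 : ℝ)) ^ 2 := by gcongr
      _ = (N : ℝ) ^ (1 / 4 : ℝ) := by
          rw [← Real.rpow_natCast, ← Real.rpow_mul hNpos.le]
          norm_num
      _ ≤ D := Real.rpow_le_rpow_of_exponent_le (by linarith) (by linarith)
  have hDz4 : D ≤ (z : ℝ) ^ 4 := by
    calc D = ((N : ℝ) ^ ((1 / 2 - τ) / 4)) ^ 4 := by
          rw [← Real.rpow_natCast, ← Real.rpow_mul hNpos.le, hDdef]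
          congr 1
          push_cast
          ring
      _ ≤ (z : ℝ) ^ 4 := by gcongr
  have hDN : D ≤ N := by
    calc D ≤ (N : ℝ) ^ (1 : ℝ) := Real.rpow_le_rpow_of_exponent_le (by linarith) (by linarith)
      _ = N := Real.rpow_one _
  obtain ⟨c, hc1, hc2, hc3, hc4⟩ := hLN z D hz1' hDz2 hDz4 hDN (gZ (wN δ N) m) hdns
  -- logarithms
  set L := Real.log N with hLdef
  have hL0 : 0 < L := Real.log_pos (by linarith)
  have hlogD : Real.log D = (1 / 2 - τ) * L := by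
    rw [hDdef, Real.log_rpow hNpos]
  have hlz1 : Real.log z ≤ L / 8 := by
    calc Real.log z ≤ Real.log ((N : ℝ) ^ (1 / 8 : ℝ)) := Real.log_le_log (by linarith) hzup
      _ = L / 8 := by rw [Real.log_rpow hNpos]; ring
  have hlz2 : (1 / 2 - τ) * L ≤ 4 * Real.log z := by
    rw [← hlogD]
    calc Real.log D ≤ Real.log ((z : ℝ) ^ 4) := Real.log_le_log (by positivity) hDz4
      _ = 4 * Real.log z := by rw [Real.log_pow]; push_cast; ring
  obtain ⟨hf1, hf2, hf3⟩ := sa_sieve L (Real.log z) τ hL0 hτ0.le hτ1 hlz1 hlz2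
  rw [hlogD] at hc3
  -- support of the weights
  set Fl : ℕ := ⌊(N : ℝ) ^ (1 / 2 - τ / 2)⌋₊ with hFl
  set G : ℕ := ⌊(N : ℝ) ^ ε'⌋₊ with hG
  have hcsupp : ∀ d, c d ≠ 0 → d ≤ Fl := by
    intro d hd
    apply Nat.le_floor
    refine (hc1 d hd).2.2.1.trans ?_
    rw [hDdef, ← Real.rpow_add hNpos]
    exact Real.rpow_le_rpow_of_exponent_le (by linarith) (by linarith)
  have hFN : Fl ≤ N := by
    have h6 : (Fl : ℝ) ≤ N := by
      refine (Nat.floor_le (by positivity)).trans ?_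
      calc (N : ℝ) ^ (1 / 2 - τ / 2) ≤ (N : ℝ) ^ (1 : ℝ) :=
            Real.rpow_le_rpow_of_exponent_le (by linarith) (by linarith)
        _ = N := Real.rpow_one _
    exact_mod_cast h6
  have hG1 : 1 ≤ G := by
    apply Nat.le_floor
    rw [Nat.cast_one]
    exact Real.one_le_rpow (by linarith) hε'0.le
  have hGn : (G : ℝ) ≤ (n : ℝ) ^ c₁ := by
    calc (G : ℝ) ≤ (N : ℝ) ^ ε' := Nat.floor_le (by positivity)
      _ ≤ (n : ℝ) ^ ε' := Real.rpow_le_rpow hNpos.le hNnR hε'0.le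
      _ ≤ (n : ℝ) ^ c₁ := Real.rpow_le_rpow_of_exponent_le (by linarith) hε'3
  have hw1 : 1 ≤ wN δ N := by
    apply Nat.le_floor
    rw [Nat.cast_one]
    exact Real.one_le_rpow (by linarith) hδ.le
  have hwR : (0 : ℝ) < (wN δ N : ℝ) := by exact_mod_cast hw1
  have hϖ0 : ∀ q, 0 ≤ tl η N m n q := fun q =>
    mul_nonneg (hη.nonneg _)
      (Finset.sum_nonneg fun r _ => ArithmeticFunction.vonMangoldt_nonneg)
  have hgen := h2 η N m n (wN δ N) z Fl G 1 c (Or.inl rfl) hwz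
    (fun d hd => ⟨(hc1 d hd).1, (hc1 d hd).2.1, hcsupp d hd,
      Nat.le_floor (hc1 d hd).2.2.2⟩) hc2
  rw [Finset.filter_true_of_mem (s := range (N + 1)) (p := fun q => 1 ∣ q)
    (fun q _ => one_dvd q)] at hgen
  rw [Nat.cast_one, div_one] at hgen
  -- the error
  have hlogn : 0 ≤ Real.log n := Real.log_nonneg (by linarith)
  set A : ℝ := (n : ℝ) ^ (1 - 4 * c₁) with hA
  set B : ℝ := C * (1 + Real.log n) ^ C * n / (wN δ N) with hB
  have hA0' : 0 ≤ A := by positivity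
  have hB0' : 0 ≤ B := by positivity
  have hcl := zsa_classes h4 (wN δ N) G hG1 A B hA0' hB0'
    (fun g a => ∑ d ∈ (ZD (m * g) (wN δ N) Fl).filter (fun d => ∀ l ∈ d.primeFactors, l ≤ z),
      EZ η N m n g a (1 * d)) (by
    intro g a hg1 hg2 ha
    have hgn : (g : ℝ) ≤ (n : ℝ) ^ c₁ := le_trans (by exact_mod_cast hg2) hGn
    have h6 := hLevn m N g a hTile hmκ hmρ1 hg1 hgn ha
    have h7 : ∑ d ∈ (ZD (m * g) (wN δ N) Fl).filter (fun d => ∀ l ∈ d.primeFactors, l ≤ z),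
        EZ η N m n g a (1 * d) ≤ ∑ d ∈ ZD (m * g) (wN δ N) Fl, EZ η N m n g a d := by
      simp only [one_mul]
      apply Finset.sum_le_sum_of_subset_of_nonneg (Finset.filter_subset _ _)
      intro d _ _
      exact abs_nonneg _
    refine h7.trans (h6.trans (le_of_eq ?_))
    rw [hA, hB, div_div, mul_comm (wN δ N : ℝ) (g : ℝ)])
  have hErr1 : 3 * ((G : ℝ) ^ 2 * A + B * (1 + Real.log G) ^ 3) ≤
      (ε₂ * cV / 4) * n / Real.log n ^ kV := by
    refine le_trans ?_ hreal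
    have h6 : (G : ℝ) ^ 2 * A ≤ (n : ℝ) ^ (1 - 2 * c₁) := by
      calc (G : ℝ) ^ 2 * A ≤ ((n : ℝ) ^ c₁) ^ 2 * A := by gcongr
        _ = (n : ℝ) ^ (1 - 2 * c₁) := by
            rw [hA, ← Real.rpow_natCast, ← Real.rpow_mul hn0.le, ← Real.rpow_add hn0]
            congr 1
            push_cast
            ring
    have hlogG : 1 + Real.log G ≤ 1 + Real.log n := by
      have h7 : (G : ℝ) ≤ n := by
        calc (G : ℝ) ≤ (N : ℝ) ^ ε' := Nat.floor_le (by positivity)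
          _ ≤ (N : ℝ) ^ (1 : ℝ) :=
              Real.rpow_le_rpow_of_exponent_le (by linarith) (by linarith)
          _ = N := Real.rpow_one _
          _ ≤ n := hNnR
      have h8 : (0 : ℝ) < G := by exact_mod_cast hG1
      linarith [Real.log_le_log h8 h7]
    have hlogG0 : 0 ≤ 1 + Real.log G := by
      have : 0 ≤ Real.log G := Real.log_nonneg (by exact_mod_cast hG1)
      linarith
    have hwlow : (n : ℝ) ^ (δ / 2) / 2 ≤ (wN δ N : ℝ) := by
      have h7 : (n : ℝ) ^ (δ / 2) ≤ (N : ℝ) ^ δ := by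
        calc (n : ℝ) ^ (δ / 2) = ((n : ℝ) ^ (1 / 2 : ℝ)) ^ δ := by
              rw [← Real.rpow_mul hn0.le]
              congr 1
              ring
          _ ≤ (N : ℝ) ^ δ := Real.rpow_le_rpow (by positivity) hNhalf hδ.le
      have h8 := Nat.lt_floor_add_one ((N : ℝ) ^ δ)
      have h9 : (1 : ℝ) ≤ (wN δ N : ℝ) := by exact_mod_cast hw1
      have h10 : (wN δ N : ℝ) = (⌊(N : ℝ) ^ δ⌋₊ : ℝ) := rfl
      rw [← h10] at h8
      linarith
    have h11 : B * (1 + Real.log G) ^ 3 ≤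
        2 * C * (1 + Real.log n) ^ (C + 3) * (n : ℝ) ^ (1 - δ / 2) := by
      have h12 : (n : ℝ) / (wN δ N) ≤ 2 * (n : ℝ) ^ (1 - δ / 2) := by
        rw [div_le_iff₀ hwR]
        calc (n : ℝ) = 2 * ((n : ℝ) ^ (1 - δ / 2) * ((n : ℝ) ^ (δ / 2) / 2)) := by
              rw [← mul_div_assoc, ← Real.rpow_add hn0]
              norm_num
              ring
          _ ≤ 2 * ((n : ℝ) ^ (1 - δ / 2) * (wN δ N)) := by gcongr
          _ = 2 * (n : ℝ) ^ (1 - δ / 2) * (wN δ N) := by ring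
      calc B * (1 + Real.log G) ^ 3 ≤ B * (1 + Real.log n) ^ 3 := by gcongr
        _ = C * (1 + Real.log n) ^ (C + 3) * ((n : ℝ) / (wN δ N)) := by
            rw [hB, pow_add]
            ring
        _ ≤ C * (1 + Real.log n) ^ (C + 3) * (2 * (n : ℝ) ^ (1 - δ / 2)) := by gcongr
        _ = 2 * C * (1 + Real.log n) ^ (C + 3) * (n : ℝ) ^ (1 - δ / 2) := by ring
    linarith
  -- the main term
  have hmain : ∑ d ∈ Icc 1 Fl, c d * ∏ l ∈ d.primeFactors, gZ (wN δ N) m l =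
      ∑ d ∈ Icc 1 (N ^ 2), c d * ∏ p ∈ d.primeFactors, gZ (wN δ N) m p := by
    apply Finset.sum_subset
    · intro d hd
      rw [Finset.mem_Icc] at hd ⊢
      exact ⟨hd.1, hd.2.trans (hFN.trans (Nat.le_self_pow (by norm_num) N))⟩
    · intro d hd hd'
      have : c d = 0 := by
        by_contra hcon
        apply hd'
        rw [Finset.mem_Icc] at hd ⊢
        exact ⟨hd.1, hcsupp d hcon⟩
      rw [this, zero_mul]
  have hsift := sa_sift (fun q => tl η N m n q) c hϖ0 (fun l => OmZ (wN δ N) m l) z N hc4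
  have hVpos : 0 ≤ VV (gZ (wN δ N) m) z := by
    unfold VV
    apply Finset.prod_nonneg
    intro l hl
    have hlp : l.Prime := by unfold pr at hl; exact (Finset.mem_filter.1 hl).2
    have := (zsa_gZ h4 (wN δ N) m l hlp).2.1
    linarith
  have hpsi0 : 0 ≤ psi0 (etaR η) (m * N) := by
    unfold psi0
    apply Finset.sum_nonneg
    intro q _
    exact mul_nonneg ArithmeticFunction.vonMangoldt_nonneg (hη.nonneg _)
  have hlow : psi0 (etaR η) (m * N) * VV (gZ (wN δ N) m) z *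
      (A0 * (Real.log ((1 / 2 - τ) * L / Real.log z - 1) * Real.log z / ((1 / 2 - τ) * L)) - ε') ≤
      psi0 (etaR η) (m * N) *
        ∑ d ∈ Icc 1 (N ^ 2), c d * ∏ p ∈ d.primeFactors, gZ (wN δ N) m p := by
    have h6 := mul_le_mul_of_nonneg_left hc3 hpsi0
    refine le_trans (le_of_eq ?_) h6
    ring
  have hgen2 := (abs_sub_le_iff.1 hgen).2
  rw [hmain] at hgen2
  have hmNpos : (0 : ℝ) < m * N := by positivity
  have hErrUU : (ε₂ * cV / 4) * n / Real.log n ^ kV ≤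
      ε₂ * (I * (m * N) * VV (gZ (wN δ N) m) z) := by
    have hz2n' : 2 ≤ z := by
      have h6 : (256 : ℝ) ^ (1 / 8 : ℝ) = 2 := by
        have h7 : (256 : ℝ) = 2 ^ (8 : ℝ) := by norm_num
        rw [h7, ← Real.rpow_mul (by norm_num)]
        norm_num
      have h7 : (2 : ℝ) ≤ (N : ℝ) ^ (1 / 8 : ℝ) := by
        rw [← h6]
        exact Real.rpow_le_rpow (by norm_num) hNR (by norm_num)
      exact Nat.le_floor h7
    have h6 := hV z (gZ (wN δ N) m) hz2n' (fun l hl => zsa_gZ h4 (wN δ N) m l hl)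
    have hlz0 : 0 < Real.log z := Real.log_pos (by exact_mod_cast hz2n')
    have hlogn1 : 0 < Real.log n := Real.log_pos (by linarith)
    have hLn' : L ≤ Real.log n := Real.log_le_log hNpos hNnR
    have h7 : cV / Real.log n ^ kV ≤ VV (gZ (wN δ N) m) z := by
      refine le_trans ?_ h6
      apply div_le_div_of_nonneg_left hcV.le (by positivity)
      apply pow_le_pow_left₀ hlz0.le
      linarith
    have h8 : (n : ℝ) / 2 ≤ m * N := by
      have h9 : (n : ℝ) ≤ m * (N + 1) := by exact_mod_cast hmn2.le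
      have h10 : (m : ℝ) * (N + 1) ≤ m * (2 * N) := by
        apply mul_le_mul_of_nonneg_left _ hmR.le
        linarith
      linarith
    have h11 : 0 ≤ cV / Real.log n ^ kV := by positivity
    calc (ε₂ * cV / 4) * n / Real.log n ^ kV =
          ε₂ * (1 / 2 * ((n : ℝ) / 2) * (cV / Real.log n ^ kV)) := by ring
      _ ≤ ε₂ * (I * (m * N) * VV (gZ (wN δ N) m) z) := by gcongr
  have hUU : UZ η δ N m = I * (m * N) * VV (gZ (wN δ N) m) z := rfl
  rw [hUU]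
  have hPm := hN1 (m * N) (hNN1.trans hmN)
  have hPm' : |psi0 (etaR η) (m * N) - 1 * (m * N) * I| ≤ ε₁ * (1 * (m * N)) := by
    have h6 := hPm
    push_cast at h6
    rw [one_mul]
    exact h6
  refine sa_final A0 ε τ ε' ε₁ ε₂ I (m * N) (VV (gZ (wN δ N) m) z) (psi0 (etaR η) (m * N)) 1
    (A0 * (Real.log ((1 / 2 - τ) * L / Real.log z - 1) * Real.log z / ((1 / 2 - τ) * L)) - ε')
    (Real.log ((1 / 2 - τ) * L / Real.log z - 1) * Real.log z / ((1 / 2 - τ) * L))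
    ((ε₂ * cV / 4) * n / Real.log n ^ kV) _ hA0 hI1 hmNpos hVpos one_pos hPm' rfl hf1 hf2 hf3
    hε'0.le (by linarith) hε₁0.le ?_ hErrUU ?_
  · have h6 : 4 * A0 * τ ≤ ε / 4 := by
      have h7 : τ * (16 * (A0 + 1)) ≤ ε := by
        rw [le_div_iff₀ (by positivity)] at hτ2
        exact hτ2
      have h9 : τ * (16 * (A0 + 1)) = 4 * (4 * A0 * τ) + 16 * τ := by ring
      linarith only [h7, h9, hτ0]
    have h8 : 2 * ε₁ * (A0 + 1) = ε / 8 := by
      rw [hε₁def]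
      field_simp
      norm_num
    rw [h8, hε₂def]
    linarith
  · have h7 : ∑ q ∈ range (N + 1), tl η N m n q *
      ∑ T ∈ ((pr z).filter (fun l => q % l ∈ OmZ (wN δ N) m l)).powerset, c (∏ l ∈ T, l) ≤
      SSZ η (wN δ N) z N m n := hsift
    rw [div_one]
    have h8 := hlow.trans (sub_le_iff_le_add.1 hgen2)
    have h9 : 3 * ∑ g ∈ (Icc 1 G).filter Squarefree,
      ∑ a ∈ (range g).filter (fun a => ∀ l ∈ g.primeFactors, a % l ∈ OmT (wN δ N) l),
        ∑ d ∈ (ZD (m * g) (wN δ N) Fl).filter (fun d => ∀ l ∈ d.primeFactors, l ≤ z),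
          EZ η N m n g a (1 * d) ≤ (ε₂ * cV / 4) * n / Real.log n ^ kV :=
      (mul_le_mul_of_nonneg_left hcl (by norm_num)).trans hErr1
    linarith

end Pool.Agent.CV
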