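import Mathlib
import Pool.Agent.CV.Stmts
import Pool.Agent.GBQ.Crt

set_option autoImplicit false

/-!
# CV / ZSB

The switched sum: the upper bound sieve with the weights of `St_LRU` for the pairs `(q, x)`,
evaluated by `St_GenB`; the errors by `St_LevB` and `St_PBVW`.
-/

namespace Pool.Agent.CV

open Finset Filter Pool.Agent.MT Pool.Agent.CH Pool.Agent.CU

private lemma zsb_bt (z y q : ℕ) : 0 ≤ bt z y q := by
  unfold bt
  split_ifs <;> norm_num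

private lemma zsb_B0 (η : ℝ → ℝ) (hη : IsWt η) (N z y : ℕ) : 0 ≤ B0 η N z y :=
  Finset.sum_nonneg fun q _ => mul_nonneg (zsb_bt z y q) (hη.nonneg _)

/-- the sieve -/
private lemma zsb_sieve (h3 : St_GenB) (η : ℝ → ℝ) (hη : IsWt η) (N m n w z y y' F G : ℕ)
    (c : ℕ → ℝ) (hwz : w ≤ z) (hwy : w ≤ y')
    (c1 : ∀ d, c d ≠ 0 → Squarefree d ∧ (∀ l ∈ d.primeFactors, l ≤ y') ∧ d ≤ F ∧ smp w d ≤ G)
    (c2 : ∀ d, |c d| ≤ 3)
    (c4 : ∀ S : Finset ℕ, S ⊆ pr y' → (if S = ∅ then (1 : ℝ) else 0) ≤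
      ∑ T ∈ S.powerset, c (∏ l ∈ T, l)) :
    SBZ η w z y y' N m n ≤ m * B0 η N z y * ∑ d ∈ Icc 1 F, c d * ∏ l ∈ d.primeFactors, gT w l +
      3 * ∑ g ∈ (Icc 1 G).filter Squarefree,
      ∑ a ∈ (range g).filter (fun a => a.Coprime g ∧ (a ^ 2) % g = 2 % g),
        ((∑ h ∈ (Icc 1 F).filter Squarefree,
            |RB η N z y m n g a h - (m : ℝ) / h * BAP η N z y g a|) +
          m * (1 + Real.log F) * |BAP η N z y g a - B0 η N z y / (g.totient : ℝ)|) := by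
  have hG := (abs_le.mp (h3 η hη N m n w z y y' F G c hwz hwy c1 c2)).2
  rw [sub_le_iff_le_add'] at hG
  refine le_trans ?_ hG
  unfold SBZ
  rw [Finset.sum_filter]
  refine Finset.sum_le_sum fun q _ => ?_
  have hb : 0 ≤ bt z y q * η ((q : ℝ) / N) := mul_nonneg (zsb_bt z y q) (hη.nonneg _)
  have hS : ∀ r, (if (∀ l ∈ pr w, (q ^ 2) % l ≠ 2 % l) ∧ (∀ l ∈ pr y', ¬ l ∣ n - m * q - r)
      then (1 : ℝ) else 0) ≤ ∑ T ∈ ((pr y').filter (fun l => (l ≤ w ∧ (q ^ 2) % l = 2 % l) ∨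
        l ∣ n - m * q - r)).powerset, c (∏ l ∈ T, l) := by
    intro r
    refine le_trans ?_ (c4 _ (Finset.filter_subset _ _))
    by_cases h5 : (∀ l ∈ pr w, (q ^ 2) % l ≠ 2 % l) ∧ (∀ l ∈ pr y', ¬ l ∣ n - m * q - r)
    · have h6 : (pr y').filter (fun l => (l ≤ w ∧ (q ^ 2) % l = 2 % l) ∨
          l ∣ n - m * q - r) = ∅ := by
        refine Finset.filter_eq_empty_iff.2 fun l hl => ?_
        rintro (⟨h7, h8⟩ | h7)
        · refine h5.1 l ?_ h8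
          unfold pr
          rw [Finset.mem_filter, Finset.mem_range]
          exact ⟨by omega, (Finset.mem_filter.1 hl).2⟩
        · exact h5.2 l hl h7
      rw [if_pos h5, if_pos h6]
    · rw [if_neg h5]
      split_ifs <;> norm_num
  have hS0 : ∀ r, 0 ≤ ∑ T ∈ ((pr y').filter (fun l => (l ≤ w ∧ (q ^ 2) % l = 2 % l) ∨
        l ∣ n - m * q - r)).powerset, c (∏ l ∈ T, l) := fun r => by
    refine le_trans ?_ (hS r)
    split_ifs <;> norm_num
  split_ifs with hq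
  · refine mul_le_mul_of_nonneg_left ?_ hb
    rw [Finset.card_filter]
    push_cast
    refine Finset.sum_le_sum fun r _ => ?_
    by_cases h5 : ∀ l ∈ pr y', ¬ l ∣ n - m * q - r
    · rw [if_pos h5]
      have h6 := hS r
      rwa [if_pos ⟨hq, h5⟩] at h6
    · rw [if_neg h5]
      exact hS0 r
  · exact mul_nonneg hb (Finset.sum_nonneg fun r _ => hS0 r)

/-- number of roots of `2` modulo `g` -/
private lemma zsb_roots (h4 : St_DensT) (g : ℕ) (hg : Squarefree g) :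
    (((range g).filter (fun a => a.Coprime g ∧ (a ^ 2) % g = 2 % g)).card : ℝ) ≤
      3 ^ g.primeFactors.card := by
  have h1 := Pool.Agent.GBQ.thm_Crt g.primeFactors (OmT g)
    (fun p hp => Nat.prime_of_mem_primeFactors hp) (fun p _ => Finset.filter_subset _ _)
  rw [Nat.prod_primeFactors_of_squarefree hg] at h1
  have h2 : ((range g).filter (fun a => a.Coprime g ∧ (a ^ 2) % g = 2 % g)) ⊆
      (range g).filter (fun a => ∀ p ∈ g.primeFactors, a % p ∈ OmT g p) := by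
    intro a ha
    rw [Finset.mem_filter] at ha ⊢
    refine ⟨ha.1, fun p hp => ?_⟩
    have hpp := Nat.prime_of_mem_primeFactors hp
    have hpg := Nat.dvd_of_mem_primeFactors hp
    unfold OmT
    rw [Finset.mem_filter, Finset.mem_range]
    refine ⟨Nat.mod_lt _ hpp.pos, Or.inr ⟨Nat.le_of_dvd (Nat.pos_of_ne_zero hg.ne_zero) hpg, ?_⟩⟩
    have h3 : a ^ 2 ≡ 2 [MOD p] := (show a ^ 2 ≡ 2 [MOD g] from ha.2.2).of_dvd hpg
    rw [← Nat.pow_mod]
    exact h3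
  have h3 : ∏ p ∈ g.primeFactors, (OmT g p).card ≤ 3 ^ g.primeFactors.card := by
    rw [← Finset.prod_const]
    exact Finset.prod_le_prod' fun p hp => (h4.1 g p (Nat.prime_of_mem_primeFactors hp)).1
  have h5 := (Finset.card_le_card h2).trans (h1.le.trans h3)
  exact_mod_cast h5

private lemma zsb_roots' (g : ℕ) :
    (((range g).filter (fun a => a.Coprime g ∧ (a ^ 2) % g = 2 % g)).card : ℝ) ≤ g := by
  have h := Finset.card_filter_le (range g) (fun a => a.Coprime g ∧ (a ^ 2) % g = 2 % g)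
  rw [Finset.card_range] at h
  exact_mod_cast h

/-- the errors -/
private lemma zsb_err (h4 : St_DensT) (η : ℝ → ℝ) (N z y m n F G : ℕ) (E : ℕ → ℝ) (T1 T2 : ℝ)
    (hT1 : 0 ≤ T1) (hN : 1 ≤ N) (hGG : (G : ℝ) ≤ (N : ℝ) ^ (1 / 4 : ℝ))
    (hLev : ∀ g a : ℕ, 1 ≤ g → a < g → ∑ h ∈ (Icc 1 F).filter Squarefree,
      |RB η N z y m n g a h - (m : ℝ) / h * BAP η N z y g a| ≤ T1)
    (E1 : ∀ q, 0 ≤ E q)
    (E2 : ∀ q b : ℕ, 1 ≤ q → (q : ℝ) ≤ (N : ℝ) ^ (1 / 4 : ℝ) → b.Coprime q →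
      |BAP η N z y q b - B0 η N z y / (q.totient : ℝ)| ≤ E q)
    (E3 : ∑ q ∈ (Icc 1 N).filter (fun q : ℕ => (q : ℝ) ≤ (N : ℝ) ^ (1 / 4 : ℝ)),
      ((3 : ℕ) : ℝ) ^ q.primeFactors.card * E q ≤ T2) :
    ∑ g ∈ (Icc 1 G).filter Squarefree,
      ∑ a ∈ (range g).filter (fun a => a.Coprime g ∧ (a ^ 2) % g = 2 % g),
        ((∑ h ∈ (Icc 1 F).filter Squarefree,
            |RB η N z y m n g a h - (m : ℝ) / h * BAP η N z y g a|) +
          m * (1 + Real.log F) * |BAP η N z y g a - B0 η N z y / (g.totient : ℝ)|) ≤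
      (G : ℝ) ^ 2 * T1 + m * (1 + Real.log F) * T2 := by
  have hlF : 0 ≤ 1 + Real.log F := by
    have := Real.log_natCast_nonneg F
    linarith
  have hN1 : (1 : ℝ) ≤ N := by exact_mod_cast hN
  have hGN : G ≤ N := by
    have h1 : (N : ℝ) ^ (1 / 4 : ℝ) ≤ N := by
      calc (N : ℝ) ^ (1 / 4 : ℝ) ≤ (N : ℝ) ^ (1 : ℝ) :=
            Real.rpow_le_rpow_of_exponent_le hN1 (by norm_num)
        _ = N := Real.rpow_one _
    exact_mod_cast hGG.trans h1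
  have h5 : ∀ g ∈ (Icc 1 G).filter Squarefree,
      ∑ a ∈ (range g).filter (fun a => a.Coprime g ∧ (a ^ 2) % g = 2 % g),
        ((∑ h ∈ (Icc 1 F).filter Squarefree,
            |RB η N z y m n g a h - (m : ℝ) / h * BAP η N z y g a|) +
          m * (1 + Real.log F) * |BAP η N z y g a - B0 η N z y / (g.totient : ℝ)|) ≤
        G * T1 + m * (1 + Real.log F) * (3 ^ g.primeFactors.card * E g) := by
    intro g hg
    rw [Finset.mem_filter, Finset.mem_Icc] at hg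
    have hgG : (g : ℝ) ≤ G := by exact_mod_cast hg.1.2
    have h6 : ∀ a ∈ (range g).filter (fun a => a.Coprime g ∧ (a ^ 2) % g = 2 % g),
        ((∑ h ∈ (Icc 1 F).filter Squarefree,
            |RB η N z y m n g a h - (m : ℝ) / h * BAP η N z y g a|) +
          m * (1 + Real.log F) * |BAP η N z y g a - B0 η N z y / (g.totient : ℝ)|) ≤
        T1 + m * (1 + Real.log F) * E g := by
      intro a ha
      rw [Finset.mem_filter, Finset.mem_range] at ha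
      exact add_le_add (hLev g a hg.1.1 ha.1) (mul_le_mul_of_nonneg_left
        (E2 g a hg.1.1 (hgG.trans hGG) ha.2.1) (by positivity))
    refine (Finset.sum_le_sum h6).trans ?_
    rw [Finset.sum_const, nsmul_eq_mul, mul_add]
    refine add_le_add (mul_le_mul_of_nonneg_right ((zsb_roots' g).trans hgG) hT1) ?_
    have h7 := mul_le_mul_of_nonneg_right (zsb_roots h4 g hg.2)
      (mul_nonneg (mul_nonneg (Nat.cast_nonneg m) hlF) (E1 g) : 0 ≤ (m : ℝ) * (1 + Real.log F) * E g)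
    refine h7.trans (le_of_eq ?_)
    ring
  refine (Finset.sum_le_sum h5).trans ?_
  rw [Finset.sum_add_distrib, Finset.sum_const, nsmul_eq_mul, ← Finset.mul_sum]
  refine add_le_add ?_ (mul_le_mul_of_nonneg_left (le_trans ?_ E3) (by positivity))
  · have h8 : (((Icc 1 G).filter Squarefree).card : ℝ) ≤ G := by
      have := Finset.card_filter_le (Icc 1 G) Squarefree
      rw [Nat.card_Icc, Nat.add_sub_cancel] at this
      exact_mod_cast this
    calc (((Icc 1 G).filter Squarefree).card : ℝ) * (G * T1) ≤ G * (G * T1) :=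
          mul_le_mul_of_nonneg_right h8 (by positivity)
      _ = (G : ℝ) ^ 2 * T1 := by ring
  · have h9 : ∑ g ∈ (Icc 1 G).filter Squarefree, (3 : ℝ) ^ g.primeFactors.card * E g ≤
        ∑ g ∈ (Icc 1 N).filter (fun q : ℕ => (q : ℝ) ≤ (N : ℝ) ^ (1 / 4 : ℝ)),
          (3 : ℝ) ^ g.primeFactors.card * E g := by
      apply Finset.sum_le_sum_of_subset_of_nonneg
      · intro g hg
        rw [Finset.mem_filter, Finset.mem_Icc] at hg ⊢
        have hgG : (g : ℝ) ≤ G := by exact_mod_cast hg.1.2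
        exact ⟨⟨hg.1.1, hg.1.2.trans hGN⟩, hgG.trans hGG⟩
      · intro g _ _
        exact mul_nonneg (by positivity) (E1 g)
    simpa using h9

private lemma zsb_int (η : ℝ → ℝ) (hη : IsWt η) : 1 / 2 ≤ ∫ t in (0 : ℝ)..1, η t := by
  have hc : Continuous η := hη.smooth.continuous
  have h1 : ∫ t in (0 : ℝ)..1, η t = (∫ t in (0 : ℝ)..(1 / 4), η t) +
      (∫ t in (1 / 4 : ℝ)..(3 / 4), η t) + ∫ t in (3 / 4 : ℝ)..1, η t := by
    rw [intervalIntegral.integral_add_adjacent_intervals (hc.intervalIntegrable _ _)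
      (hc.intervalIntegrable _ _), intervalIntegral.integral_add_adjacent_intervals
      (hc.intervalIntegrable _ _) (hc.intervalIntegrable _ _)]
  have h2 : 0 ≤ ∫ t in (0 : ℝ)..(1 / 4), η t :=
    intervalIntegral.integral_nonneg (by norm_num) (fun x _ => hη.nonneg x)
  have h3 : 0 ≤ ∫ t in (3 / 4 : ℝ)..1, η t :=
    intervalIntegral.integral_nonneg (by norm_num) (fun x _ => hη.nonneg x)
  have h4 : ∫ t in (1 / 4 : ℝ)..(3 / 4), η t = 1 / 2 := by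
    have : ∫ t in (1 / 4 : ℝ)..(3 / 4), η t = ∫ t in (1 / 4 : ℝ)..(3 / 4), (1 : ℝ) := by
      apply intervalIntegral.integral_congr
      intro x hx
      rw [Set.uIcc_of_le (by norm_num)] at hx
      exact hη.one x hx.1 hx.2
    rw [this, intervalIntegral.integral_const]
    norm_num
  linarith

private lemma zsb_VV_pos (g : ℕ → ℝ) (z : ℕ) (h : ∀ l : ℕ, l.Prime → g l ≤ 1 / 2) :
    0 < VV g z := by
  unfold VV
  apply Finset.prod_pos
  intro l hl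
  have hp : l.Prime := (Finset.mem_filter.mp hl).2
  have := h l hp
  linarith

private lemma zsb_choose (A0 ε : ℝ) (hε : 0 < ε) : ∃ t : ℝ, 0 < t ∧ t ≤ 1 ∧
    (cB + t) * (3 / 8 + t) * (A0 * (2 / 3 + t) + t) ≤ A0 * (cB / 4) + ε / 2 := by
  have hf : Continuous (fun t : ℝ => (cB + t) * (3 / 8 + t) * (A0 * (2 / 3 + t) + t)) := by
    fun_prop
  have h0 : (fun t : ℝ => (cB + t) * (3 / 8 + t) * (A0 * (2 / 3 + t) + t)) 0 <
      A0 * (cB / 4) + ε / 2 := by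
    show (cB + 0) * (3 / 8 + 0) * (A0 * (2 / 3 + 0) + 0) < A0 * (cB / 4) + ε / 2
    linarith
  have h1 : ∀ᶠ t in nhds (0 : ℝ), (fun t : ℝ => (cB + t) * (3 / 8 + t) *
      (A0 * (2 / 3 + t) + t)) t < A0 * (cB / 4) + ε / 2 :=
    hf.continuousAt.eventually_lt continuousAt_const h0
  have h2 : ∀ᶠ t in nhdsWithin (0 : ℝ) (Set.Ioi 0), 0 < t ∧ t < 1 :=
    Ioo_mem_nhdsGT (by norm_num)
  obtain ⟨t, ht1, ht2⟩ := ((h1.filter_mono nhdsWithin_le_nhds).and h2).exists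
  exact ⟨t, ht2.1, ht2.2.le, ht1.le⟩

private lemma zsb_rpow_large (a c : ℝ) (ha : 0 < a) : ∀ᶠ N : ℕ in atTop, c ≤ (N : ℝ) ^ a :=
  tendsto_natCast_atTop_atTop.eventually ((tendsto_rpow_atTop ha).eventually_ge_atTop c)

private lemma zsb_log_large (c : ℝ) : ∀ᶠ N : ℕ in atTop, c ≤ Real.log N :=
  tendsto_natCast_atTop_atTop.eventually (Real.tendsto_log_atTop.eventually_ge_atTop c)

private lemma zsb_num : ∀ᶠ N : ℕ in atTop, Par N (zN N) (yN N) ∧ 2 ≤ zN N ∧ 16 ≤ N := by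
  filter_upwards [zsb_rpow_large (1 / 40) 2 (by norm_num), zsb_rpow_large (1 / 15) 2 (by norm_num),
    zsb_rpow_large (1 / 10) 2 (by norm_num), eventually_ge_atTop 16] with N e1 e2 e3 hN
  have hN0 : (0 : ℝ) < N := by exact_mod_cast (by omega : 0 < N)
  have hz : (N : ℝ) ^ (1 / 10 : ℝ) ≤ zN N := by
    have h1 : (N : ℝ) ^ (1 / 8 : ℝ) = (N : ℝ) ^ (1 / 40 : ℝ) * (N : ℝ) ^ (1 / 10 : ℝ) := by
      rw [← Real.rpow_add hN0]
      norm_num
    have h2 : (N : ℝ) ^ (1 / 8 : ℝ) < zN N + 1 := Nat.lt_floor_add_one _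
    nlinarith [mul_le_mul_of_nonneg_right e1 (by positivity : (0 : ℝ) ≤ (N : ℝ) ^ (1 / 10 : ℝ))]
  have hy1 : (yN N : ℝ) ≤ 2 * (N : ℝ) ^ (1 / 3 : ℝ) := by
    have h1 : (yN N : ℝ) < (N : ℝ) ^ (1 / 3 : ℝ) + 1 := Nat.ceil_lt_add_one (by positivity)
    have h2 : (1 : ℝ) ≤ (N : ℝ) ^ (1 / 3 : ℝ) :=
      Real.one_le_rpow (by exact_mod_cast (by omega : 1 ≤ N)) (by norm_num)
    linarith
  refine ⟨⟨hz, ?_⟩, ?_, hN⟩
  · have h1 : (N : ℝ) ^ (2 / 5 : ℝ) = (N : ℝ) ^ (1 / 15 : ℝ) * (N : ℝ) ^ (1 / 3 : ℝ) := by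
      rw [← Real.rpow_add hN0]
      norm_num
    rw [h1]
    refine hy1.trans ?_
    exact mul_le_mul_of_nonneg_right e2 (by positivity)
  · have : (2 : ℝ) ≤ zN N := e3.trans hz
    exact_mod_cast this

/-- the main term -/
private lemma zsb_m1 (Q I m N l L Vy Vz F A0 t ε : ℝ) (hA0 : 0 < A0) (ht : 0 < t)
    (hft : (cB + t) * (3 / 8 + t) * (A0 * (2 / 3 + t) + t) ≤ A0 * (cB / 4) + ε / 2)
    (hQ : 0 ≤ Q) (g3 : Q ≤ (cB + t) * I * N / l) (hVy : 0 < Vy)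
    (hyz : Vy ≤ (3 / 8 * (l / L) + t / 2) * Vz) (hF : F ≤ A0 * (2 / 3 + t) + t) (hl : 0 < l)
    (hlL : L ≤ 2 * l) (hL : 0 < L) (hVz : 0 < Vz) (hm : 0 < m) (hI : 0 < I) (hN : 0 < N) :
    m * Q * (Vy * F) ≤ (A0 * (cB / 4) + ε / 2) * (I * (m * N) * Vz) / L := by
  have hF' : 0 ≤ A0 * (2 / 3 + t) + t := by positivity
  have b0 : 3 / 8 * (l / L) + t / 2 ≤ (3 / 8 + t) * (l / L) := by
    have : 1 / 2 ≤ l / L := by
      rw [le_div_iff₀ hL]
      linarith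
    nlinarith
  have b1 : Vy * F ≤ (3 / 8 + t) * (l / L) * Vz * (A0 * (2 / 3 + t) + t) := by
    calc Vy * F ≤ Vy * (A0 * (2 / 3 + t) + t) := mul_le_mul_of_nonneg_left hF hVy.le
      _ ≤ ((3 / 8 * (l / L) + t / 2) * Vz) * (A0 * (2 / 3 + t) + t) :=
          mul_le_mul_of_nonneg_right hyz hF'
      _ ≤ (3 / 8 + t) * (l / L) * Vz * (A0 * (2 / 3 + t) + t) :=
          mul_le_mul_of_nonneg_right (mul_le_mul_of_nonneg_right b0 hVz.le) hF'
  have b2 : 0 ≤ (3 / 8 + t) * (l / L) * Vz * (A0 * (2 / 3 + t) + t) := by positivity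
  calc m * Q * (Vy * F) ≤ m * Q * ((3 / 8 + t) * (l / L) * Vz * (A0 * (2 / 3 + t) + t)) :=
        mul_le_mul_of_nonneg_left b1 (by positivity)
    _ ≤ m * ((cB + t) * I * N / l) * ((3 / 8 + t) * (l / L) * Vz * (A0 * (2 / 3 + t) + t)) :=
        mul_le_mul_of_nonneg_right (mul_le_mul_of_nonneg_left g3 hm.le) b2
    _ = ((cB + t) * (3 / 8 + t) * (A0 * (2 / 3 + t) + t)) * (I * (m * N) * Vz / L) := by
        field_simp
    _ ≤ (A0 * (cB / 4) + ε / 2) * (I * (m * N) * Vz / L) :=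
        mul_le_mul_of_nonneg_right hft (by positivity)
    _ = (A0 * (cB / 4) + ε / 2) * (I * (m * N) * Vz) / L := by ring

private lemma zsb_F (n y A0 t e : ℝ) (hA0 : 0 < A0) (ht : 0 < t) (ht1 : t ≤ 1) (hn : 1 < n)
    (hy0 : 0 < y) (y2 : y ≤ n ^ (1 / 3 : ℝ)) (he : e ≤ t / 24) :
    A0 * Real.log y / Real.log (n ^ (1 / 2 - t / 12 : ℝ)) + e ≤ A0 * (2 / 3 + t) + t := by
  have hn0 : 0 < n := by linarith
  have hLpos : 0 < Real.log n := Real.log_pos hn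
  have b1 : A0 * Real.log y / Real.log (n ^ (1 / 2 - t / 12 : ℝ)) ≤ A0 * (2 / 3 + t) := by
    rw [Real.log_rpow hn0]
    have hpos : 0 < (1 / 2 - t / 12) * Real.log n := mul_pos (by linarith) hLpos
    rw [div_le_iff₀ hpos]
    have b2 : Real.log y ≤ (1 / 3) * Real.log n := by
      have := Real.log_le_log hy0 y2
      rwa [Real.log_rpow hn0] at this
    have b3 : (1 / 3) ≤ (2 / 3 + t) * (1 / 2 - t / 12) := by nlinarith
    have b4 : (1 / 3) * Real.log n ≤ (2 / 3 + t) * (1 / 2 - t / 12) * Real.log n :=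
      mul_le_mul_of_nonneg_right b3 hLpos.le
    calc A0 * Real.log y ≤ A0 * ((2 / 3 + t) * (1 / 2 - t / 12) * Real.log n) :=
          mul_le_mul_of_nonneg_left (b2.trans b4) hA0.le
      _ = A0 * (2 / 3 + t) * ((1 / 2 - t / 12) * Real.log n) := by ring
  linarith

/-- first error -/
private lemma zsb_e1 (I m N n l L V c₀ ε c₁ G : ℝ) (k : ℕ) (hI : 1 / 2 ≤ I) (hm : 0 < m)
    (hN : 0 < N) (hn : 0 < n) (hl : 1 ≤ l) (hlL : l ≤ L) (hε : 0 < ε) (hc₀ : 0 < c₀)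
    (v1 : c₀ / l ^ k ≤ V) (hG0 : 0 ≤ G) (hG : G ≤ n ^ c₁) (hmN : n / 2 ≤ m * N)
    (w1 : L ^ (k + 1) ≤ (ε * c₀ / 48) * n ^ (2 * c₁)) :
    3 * (G ^ 2 * n ^ (1 - 4 * c₁)) ≤ (ε / 4) * (I * (m * N) * V) / L := by
  have hL0 : 0 < L := by linarith
  have hl0 : 0 < l := by linarith
  have h1 : G ^ 2 * n ^ (1 - 4 * c₁) ≤ n ^ (1 - 2 * c₁) := by
    have h2 : G ^ 2 ≤ n ^ (2 * c₁) := by
      calc G ^ 2 ≤ (n ^ c₁) ^ 2 := pow_le_pow_left₀ hG0 hG 2
        _ = n ^ (2 * c₁) := by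
          rw [← Real.rpow_natCast, ← Real.rpow_mul hn.le]
          congr 1
          push_cast
          ring
    calc G ^ 2 * n ^ (1 - 4 * c₁) ≤ n ^ (2 * c₁) * n ^ (1 - 4 * c₁) :=
          mul_le_mul_of_nonneg_right h2 (by positivity)
      _ = n ^ (1 - 2 * c₁) := by
        rw [← Real.rpow_add hn]
        congr 1
        ring
  have h3 : c₀ / L ^ k ≤ V := by
    refine le_trans ?_ v1
    apply div_le_div_of_nonneg_left hc₀.le (by positivity)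
    exact pow_le_pow_left₀ hl0.le hlL k
  have h4 : (ε / 4) * (1 / 2 * (n / 2) * (c₀ / L ^ k)) / L ≤ (ε / 4) * (I * (m * N) * V) / L := by
    apply div_le_div_of_nonneg_right _ hL0.le
    apply mul_le_mul_of_nonneg_left _ (by positivity)
    apply mul_le_mul _ h3 (by positivity) (by positivity)
    exact mul_le_mul hI hmN (by positivity) (by linarith)
  refine le_trans ?_ h4
  have h5 : (ε / 4) * (1 / 2 * (n / 2) * (c₀ / L ^ k)) / L = (ε * c₀ / 16) * n / L ^ (k + 1) := by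
    rw [pow_succ]
    field_simp
    norm_num
  rw [h5, le_div_iff₀ (by positivity)]
  calc 3 * (G ^ 2 * n ^ (1 - 4 * c₁)) * L ^ (k + 1) ≤
      3 * n ^ (1 - 2 * c₁) * ((ε * c₀ / 48) * n ^ (2 * c₁)) := by
        apply mul_le_mul _ w1 (by positivity) (by positivity)
        linarith
    _ = (ε * c₀ / 16) * (n ^ (1 - 2 * c₁) * n ^ (2 * c₁)) := by ring
    _ = (ε * c₀ / 16) * n := by
        rw [← Real.rpow_add hn]
        norm_num

/-- second error -/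
private lemma zsb_e2 (I m N l L f V c₀ ε : ℝ) (k : ℕ) (hI : 1 / 2 ≤ I) (hm : 0 < m)
    (hN : 0 < N) (hl : 1 ≤ l) (hlL : l ≤ L) (hL2 : L ≤ 2 * l) (hf : f ≤ L) (hε : 0 < ε)
    (hc₀ : 0 < c₀) (v1 : c₀ / l ^ k ≤ V) (w1 : 144 / (ε * c₀) ≤ l) :
    3 * (m * (1 + f) * (N / l ^ (k + 3))) ≤ (ε / 4) * (I * (m * N) * V) / L := by
  have hL0 : 0 < L := by linarith
  have hl0 : 0 < l := by linarith
  have h1 : 3 * (m * (1 + f) * (N / l ^ (k + 3))) ≤ 9 * (m * N) / l ^ (k + 2) := by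
    have h2 : 1 + f ≤ 3 * l := by linarith
    calc 3 * (m * (1 + f) * (N / l ^ (k + 3))) ≤ 3 * (m * (3 * l) * (N / l ^ (k + 3))) := by
          apply mul_le_mul_of_nonneg_left _ (by norm_num)
          apply mul_le_mul_of_nonneg_right _ (by positivity)
          exact mul_le_mul_of_nonneg_left h2 hm.le
      _ = 9 * (m * N) / l ^ (k + 2) := by
          rw [show k + 3 = (k + 2) + 1 from rfl, pow_succ]
          field_simp
          norm_num
  refine h1.trans ?_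
  have h4 : (ε / 4) * (1 / 2 * (m * N) * (c₀ / l ^ k)) / (2 * l) ≤
      (ε / 4) * (I * (m * N) * V) / L := by
    apply div_le_div₀ _ _ hL0 hL2
    · have : 0 ≤ V := le_trans (by positivity) v1
      have : 0 ≤ I := by linarith
      positivity
    apply mul_le_mul_of_nonneg_left _ (by positivity)
    apply mul_le_mul _ v1 (by positivity) (by positivity)
    exact mul_le_mul_of_nonneg_right hI (by positivity)
  refine le_trans ?_ h4
  have h5 : (ε / 4) * (1 / 2 * (m * N) * (c₀ / l ^ k)) / (2 * l) =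
      (ε * c₀ / 16) * l * (m * N) / l ^ (k + 2) := by
    rw [pow_add]
    field_simp
    norm_num
  rw [h5]
  apply div_le_div_of_nonneg_right _ (by positivity)
  apply mul_le_mul_of_nonneg_right _ (by positivity)
  rw [div_le_iff₀ (by positivity)] at w1
  linarith

private lemma zsb_Dns (h4 : St_DensT) (N z : ℕ) (δ : ℝ) :
    DnsG ⌊(N : ℝ) ^ δ⌋₊ z 0 (gT (wN δ N)) := by
  refine ⟨fun l hl => ⟨(h4.1 _ l hl).2.1, (h4.1 _ l hl).2.2.1, (h4.1 _ l hl).2.2.2.1⟩, ?_, ?_⟩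
  · intro l hl hw _
    right
    rw [(h4.1 (wN δ N) l hl).2.2.2.2 hw]
    refine ⟨le_rfl, ?_⟩
    have h2 : (2 : ℝ) ≤ l := by exact_mod_cast hl.two_le
    exact one_div_le_one_div_of_le (by linarith) (by linarith)
  · have : (pr z).filter (fun l => ⌊(N : ℝ) ^ δ⌋₊ < l ∧ gT (wN δ N) l = 0) = ∅ := by
      refine Finset.filter_eq_empty_iff.2 fun l hl => ?_
      rintro ⟨h1, h2⟩
      have hlp : l.Prime := (Finset.mem_filter.1 hl).2
      rw [(h4.1 (wN δ N) l hlp).2.2.2.2 h1] at h2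
      have : (0 : ℝ) < l := by exact_mod_cast hlp.pos
      have : (0 : ℝ) < 1 / (l : ℝ) := by positivity
      linarith
    rw [this]
    simp

/-- sizes -/
private lemma zsb_sizes : ∀ᶠ n : ℕ in atTop, 16 ≤ n ∧ ∀ m N : ℕ, Tile N m n →
    (m : ℝ) ≤ (n : ℝ) ^ (2 / 5 : ℝ) → (n : ℝ) ^ (3 / 5 : ℝ) / 2 ≤ N ∧
    (n : ℝ) ^ (1 / 2 : ℝ) ≤ N ∧ N ≤ n ∧ n ≤ N ^ 2 ∧ (n : ℝ) / 2 ≤ m * N ∧
    (N : ℝ) ^ (1 / 20 : ℝ) ≤ y3 n ∧ (y3 n : ℝ) ≤ (n : ℝ) ^ (1 / 3 : ℝ) ∧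
    (n : ℝ) ^ (1 / 2 : ℝ) ≤ (y3 n : ℝ) ^ 3 := by
  filter_upwards [zsb_rpow_large (1 / 10) 2 (by norm_num), zsb_rpow_large (1 / 5) 4 (by norm_num),
    zsb_rpow_large (17 / 60) 2 (by norm_num), zsb_rpow_large (1 / 2) 8 (by norm_num),
    zsb_rpow_large (3 / 5) 2 (by norm_num), zsb_rpow_large (1 / 3) 2 (by norm_num),
    eventually_ge_atTop 16] with n e1 e2 e3 e4 e5 e6 hn16
  refine ⟨hn16, ?_⟩
  intro m N hT hm
  obtain ⟨s1, s2, s3⟩ := hT
  have hn0 : (0 : ℝ) < n := by exact_mod_cast (by omega : 0 < n)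
  have hn1 : (1 : ℝ) ≤ n := by exact_mod_cast (by omega : 1 ≤ n)
  have hm1 : (1 : ℝ) ≤ m := by exact_mod_cast s1
  have s2' : (m : ℝ) * N ≤ n := by exact_mod_cast s2
  have s3' : (n : ℝ) < m * (N + 1) := by exact_mod_cast s3
  have a1 : (n : ℝ) = (n : ℝ) ^ (2 / 5 : ℝ) * (n : ℝ) ^ (3 / 5 : ℝ) := by
    rw [← Real.rpow_add hn0]
    norm_num
  have a2 : (n : ℝ) ^ (3 / 5 : ℝ) < N + 1 := by
    have h1 : (n : ℝ) < (n : ℝ) ^ (2 / 5 : ℝ) * (N + 1) :=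
      s3'.trans_le (mul_le_mul_of_nonneg_right hm (by positivity))
    nth_rewrite 1 [a1] at h1
    exact lt_of_mul_lt_mul_left h1 (by positivity)
  have a3 : (n : ℝ) ^ (3 / 5 : ℝ) / 2 ≤ N := by linarith
  have a4 : (n : ℝ) ^ (1 / 2 : ℝ) ≤ N := by
    refine le_trans ?_ a3
    have h1 : (n : ℝ) ^ (3 / 5 : ℝ) = (n : ℝ) ^ (1 / 10 : ℝ) * (n : ℝ) ^ (1 / 2 : ℝ) := by
      rw [← Real.rpow_add hn0]
      norm_num
    rw [h1]
    nlinarith [mul_le_mul_of_nonneg_right e1 (by positivity : (0 : ℝ) ≤ (n : ℝ) ^ (1 / 2 : ℝ))]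
  have a5 : N ≤ n := by
    have : 1 * N ≤ m * N := Nat.mul_le_mul_right N s1
    omega
  have a6 : n ≤ N ^ 2 := by
    have h1 : (n : ℝ) ≤ (N : ℝ) ^ 2 := by
      have h2 : ((n : ℝ) ^ (1 / 2 : ℝ)) ^ 2 ≤ (N : ℝ) ^ 2 := pow_le_pow_left₀ (by positivity) a4 2
      rwa [← Real.rpow_natCast ((n : ℝ) ^ (1 / 2 : ℝ)) 2, ← Real.rpow_mul hn0.le,
        show (1 / 2 : ℝ) * ((2 : ℕ) : ℝ) = 1 by norm_num, Real.rpow_one] at h2
    exact_mod_cast h1
  have a7 : (n : ℝ) / 2 ≤ m * N := by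
    have h1 : (n : ℝ) ^ (2 / 5 : ℝ) ≤ n / 2 := by
      have h2 := mul_le_mul_of_nonneg_left e5 (by positivity : (0 : ℝ) ≤ (n : ℝ) ^ (2 / 5 : ℝ))
      rw [← a1] at h2
      linarith
    nlinarith
  have b1 : (n : ℝ) ^ (1 / 3 : ℝ) < y3 n + 1 := Nat.lt_floor_add_one _
  have b2 : (n : ℝ) ^ (1 / 3 : ℝ) / 2 ≤ y3 n := by linarith
  refine ⟨a3, a4, a5, a6, a7, ?_, Nat.floor_le (by positivity), ?_⟩
  · have a5' : (N : ℝ) ≤ n := by exact_mod_cast a5
    refine le_trans (Real.rpow_le_rpow (by positivity) a5' (by norm_num)) (le_trans ?_ b2)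
    have h1 : (n : ℝ) ^ (1 / 3 : ℝ) = (n : ℝ) ^ (17 / 60 : ℝ) * (n : ℝ) ^ (1 / 20 : ℝ) := by
      rw [← Real.rpow_add hn0]
      norm_num
    rw [h1]
    nlinarith [mul_le_mul_of_nonneg_right e3 (by positivity : (0 : ℝ) ≤ (n : ℝ) ^ (1 / 20 : ℝ))]
  · have h1 : ((n : ℝ) ^ (1 / 3 : ℝ) / 2) ^ 3 ≤ (y3 n : ℝ) ^ 3 :=
      pow_le_pow_left₀ (by positivity) b2 3
    refine le_trans ?_ h1
    have h2 : ((n : ℝ) ^ (1 / 3 : ℝ) / 2) ^ 3 = n / 8 := by
      rw [div_pow, ← Real.rpow_natCast, ← Real.rpow_mul hn0.le]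
      norm_num
    rw [h2]
    have h3 : (n : ℝ) = (n : ℝ) ^ (1 / 2 : ℝ) * (n : ℝ) ^ (1 / 2 : ℝ) := by
      rw [← Real.rpow_add hn0]
      norm_num
    have h4 := mul_le_mul_of_nonneg_left e4 (by positivity : (0 : ℝ) ≤ (n : ℝ) ^ (1 / 2 : ℝ))
    rw [← h3] at h4
    linarith

private lemma zsb_logpow (c s : ℝ) (k : ℕ) (hc : 0 < c) (hs : 0 < s) :
    ∀ᶠ n : ℕ in atTop, Real.log n ^ k ≤ c * (n : ℝ) ^ s := by
  have h := ((isLittleO_log_rpow_rpow_atTop (k : ℝ) hs).bound hc)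
  have h2 := tendsto_natCast_atTop_atTop.eventually h
  filter_upwards [h2, eventually_ge_atTop 1] with n hn hn1
  have hl : 0 ≤ Real.log n := Real.log_natCast_nonneg n
  rw [Real.rpow_natCast, Real.norm_of_nonneg (by positivity),
    Real.norm_of_nonneg (by positivity)] at hn
  exact hn

/-- keep this signature -/
theorem thm_ZSB (A0 : ℝ) (hA0 : 0 < A0) (h0 : St_LRU A0) (h1 : St_PBVW) (h2 : St_LevB) (h3 : St_GenB) (h4 : St_VLow) (h5 : St_DensT) (h6 : St_BMass) (h7 : St_VRn) : St_ZSB A0 := by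
  intro η hη ε κ hε hκ
  obtain ⟨t, ht, ht1, hft⟩ := zsb_choose A0 ε hε
  obtain ⟨c₀, k, hc₀, hV⟩ := h4
  obtain ⟨c₁, hc₁, hLev⟩ := h2 η hη (1 / 2 - t / 24) (min κ (1 / 2)) (by linarith) (by linarith)
    (by positivity)
  obtain ⟨e, he⟩ : ∃ e, e = min (t / 24) c₁ := ⟨_, rfl⟩
  have he0 : 0 < e := by rw [he]; positivity
  have he1 : e ≤ t / 24 := by rw [he]; exact min_le_left _ _
  have he2 : e ≤ c₁ := by rw [he]; exact min_le_right _ _
  obtain ⟨δ₀, hδ₀, hL⟩ := h0 e he0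
  have hI := zsb_int η hη
  set I := ∫ t in (0 : ℝ)..1, η t with hIdef
  have hIpos : 0 < I := by linarith
  refine ⟨min δ₀ (1 / 16), by positivity, ?_⟩
  intro δ hδ hδ1
  have hδa : δ ≤ δ₀ := hδ1.trans (min_le_left _ _)
  have hδb : δ ≤ 1 / 16 := hδ1.trans (min_le_right _ _)
  have hev := (hL δ hδ hδa 0).and ((h1 η hη (1 / 4) (by norm_num) (by norm_num) (k + 3) 3).and
    ((h6 η hη t ht).and ((h7 δ (t / 2) hδ (by linarith) (by linarith)).and (zsb_num.and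
    ((zsb_log_large 1).and (zsb_log_large (144 / (ε * c₀))))))))
  obtain ⟨N₀, hN₀⟩ := eventually_atTop.1 hev
  filter_upwards [hLev, zsb_sizes, zsb_rpow_large (3 / 5) (2 * N₀) (by norm_num),
    zsb_logpow (ε * c₀ / 48) (2 * c₁) (k + 1) (by positivity) (by positivity)] with n f1 f2 f3 f4
  intro m N hT hκm hm25
  obtain ⟨hn16, f2⟩ := f2
  obtain ⟨a3, a4, a5, a6, a7, y1, y2, y4⟩ := f2 m N hT hm25
  have hNN : N₀ ≤ N := by
    have : (N₀ : ℝ) ≤ N := by linarith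
    exact_mod_cast this
  obtain ⟨g1, g2, g3, g4, ⟨hPar, hz2, hN16⟩, g6, g7⟩ := hN₀ N hNN
  have hn0 : (0 : ℝ) < n := by exact_mod_cast (by omega : 0 < n)
  have hn1 : (1 : ℝ) < n := by exact_mod_cast (by omega : 1 < n)
  have hN0 : (0 : ℝ) < N := by exact_mod_cast (by omega : 0 < N)
  have hN1 : (1 : ℝ) < N := by exact_mod_cast (by omega : 1 < N)
  have hm0 : (0 : ℝ) < m := by exact_mod_cast (by have := hT.1; omega : 0 < m)
  have hNnR : (N : ℝ) ≤ n := by exact_mod_cast a5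
  have hlL : Real.log N ≤ Real.log n := Real.log_le_log hN0 hNnR
  have hL2 : Real.log n ≤ 2 * Real.log N := by
    have : Real.log n ≤ Real.log ((N : ℝ) ^ 2) := Real.log_le_log hn0 (by exact_mod_cast a6)
    rwa [Real.log_pow, Nat.cast_ofNat] at this
  have hLpos : 0 < Real.log n := by linarith
  have hlpos : 0 < Real.log N := by linarith
  have hDns := zsb_Dns h5 N (y3 n) δ
  -- the linear sieve
  have hD1 : (y3 n : ℝ) ≤ (n : ℝ) ^ (1 / 2 - t / 12 : ℝ) :=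
    y2.trans (Real.rpow_le_rpow_of_exponent_le hn1.le (by linarith))
  have hDh : (n : ℝ) ^ (1 / 2 - t / 12 : ℝ) ≤ (n : ℝ) ^ (1 / 2 : ℝ) :=
    Real.rpow_le_rpow_of_exponent_le hn1.le (by linarith)
  obtain ⟨c, c1, c2, c3, c4⟩ := g1 (y3 n) _ y1 hD1 (hDh.trans y4) (hDh.trans a4) _ hDns
  obtain ⟨E, E1, E2, E3⟩ := g2 (zN N) (yN N) hPar
  have hNe : (N : ℝ) ^ e ≤ (n : ℝ) ^ e := Real.rpow_le_rpow hN0.le hNnR he0.le
  have hDθ : (n : ℝ) ^ (1 / 2 - t / 12 : ℝ) * (N : ℝ) ^ e ≤ (n : ℝ) ^ (1 / 2 - t / 24 : ℝ) := by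
    calc (n : ℝ) ^ (1 / 2 - t / 12 : ℝ) * (N : ℝ) ^ e ≤
        (n : ℝ) ^ (1 / 2 - t / 12 : ℝ) * (n : ℝ) ^ e := mul_le_mul_of_nonneg_left hNe (by positivity)
      _ = (n : ℝ) ^ (1 / 2 - t / 12 + e : ℝ) := by rw [← Real.rpow_add hn0]
      _ ≤ (n : ℝ) ^ (1 / 2 - t / 24 : ℝ) :=
        Real.rpow_le_rpow_of_exponent_le hn1.le (by linarith)
  obtain ⟨F, hF⟩ : ∃ F, F = ⌊(n : ℝ) ^ (1 / 2 - t / 24 : ℝ)⌋₊ := ⟨_, rfl⟩
  obtain ⟨G, hG⟩ : ∃ G, G = ⌊(N : ℝ) ^ e⌋₊ := ⟨_, rfl⟩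
  have hGe : (G : ℝ) ≤ (N : ℝ) ^ e := by rw [hG]; exact Nat.floor_le (by positivity)
  have hFn : F ≤ n := by
    rw [hF]
    refine Nat.floor_le_of_le ?_
    calc (n : ℝ) ^ (1 / 2 - t / 24 : ℝ) ≤ (n : ℝ) ^ (1 : ℝ) :=
          Real.rpow_le_rpow_of_exponent_le hn1.le (by linarith)
      _ = n := Real.rpow_one _
  have hwz : wN δ N ≤ zN N := by
    unfold wN zN
    apply Nat.floor_le_floor
    exact Real.rpow_le_rpow_of_exponent_le hN1.le (by linarith)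
  have hwy : wN δ N ≤ y3 n := by
    unfold wN y3
    apply Nat.floor_le_floor
    refine le_trans (Real.rpow_le_rpow hN0.le hNnR hδ.le) ?_
    exact Real.rpow_le_rpow_of_exponent_le hn1.le (by linarith)
  have c1' : ∀ d, c d ≠ 0 → Squarefree d ∧ (∀ l ∈ d.primeFactors, l ≤ y3 n) ∧ d ≤ F ∧
      smp (wN δ N) d ≤ G := by
    intro d hd
    obtain ⟨d1, d2, d3, d4⟩ := c1 d hd
    refine ⟨d1, d2, ?_, ?_⟩
    · rw [hF]
      exact Nat.le_floor (d3.trans hDθ)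
    · rw [hG]
      exact Nat.le_floor d4
  have hS := zsb_sieve h3 η hη N m n (wN δ N) (zN N) (yN N) (y3 n) F G c hwz hwy c1' c2 c4
  -- the main term
  have hsum : ∑ d ∈ Icc 1 F, c d * ∏ l ∈ d.primeFactors, gT (wN δ N) l ≤
      VV (gT (wN δ N)) (y3 n) * (A0 * Real.log (y3 n) / Real.log ((n : ℝ) ^ (1 / 2 - t / 12 : ℝ)) +
        e) := by
    refine le_trans (le_of_eq ?_) c3
    apply Finset.sum_subset (Finset.Icc_subset_Icc_right (hFn.trans a6))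
    intro d hd hd2
    rw [Finset.mem_Icc] at hd hd2
    by_cases hc : c d = 0
    · rw [hc, zero_mul]
    · exact absurd ⟨hd.1, (c1' d hc).2.2.1⟩ hd2
  have hVz : 0 < VV (gT (wN δ N)) (zN N) :=
    zsb_VV_pos _ _ (fun l hl => (h5.1 (wN δ N) l hl).2.2.1)
  have hVy : 0 < VV (gT (wN δ N)) (y3 n) :=
    zsb_VV_pos _ _ (fun l hl => (h5.1 (wN δ N) l hl).2.2.1)
  have hyz := g4 n a5 a6 _ hDns
  have hy0 : (0 : ℝ) < y3 n := lt_of_lt_of_le (by positivity) y1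
  have hFm := zsb_F n (y3 n) A0 t e hA0 ht ht1 hn1 hy0 y2 he1
  have hB0 := zsb_B0 η hη N (zN N) (yN N)
  have m1 : (m : ℝ) * B0 η N (zN N) (yN N) *
      ∑ d ∈ Icc 1 F, c d * ∏ l ∈ d.primeFactors, gT (wN δ N) l ≤
      (A0 * (cB / 4) + ε / 2) * (I * (m * N) * VV (gT (wN δ N)) (zN N)) / Real.log n := by
    refine (mul_le_mul_of_nonneg_left hsum (by positivity)).trans ?_
    exact zsb_m1 _ I m N (Real.log N) (Real.log n) _ _ _ A0 t ε hA0 ht hft hB0 g3 hVy hyz hFm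
      hlpos hL2 hLpos hVz hm0 hIpos hN0
  -- the errors
  have hErr := zsb_err h5 η N (zN N) (yN N) m n F G E ((n : ℝ) ^ (1 - 4 * c₁))
    (N / Real.log N ^ (k + 3)) (by positivity) (by omega)
    (hGe.trans (Real.rpow_le_rpow_of_exponent_le hN1.le (by linarith)))
    (fun g a hg ha => by
      rw [hF]
      refine f1 m N (zN N) (yN N) g a hT ?_ ?_ hPar hg ha
      · exact (Real.rpow_le_rpow_of_exponent_le hn1.le (min_le_left _ _)).trans hκm
      · exact (Real.rpow_le_rpow_of_exponent_le hn1.le (min_le_right _ _)).trans a4) E1 E2 E3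
  have v1 : c₀ / Real.log N ^ k ≤ VV (gT (wN δ N)) (zN N) := by
    refine le_trans ?_ (hV (zN N) (gT (wN δ N)) hz2
      (fun l hl => ⟨(h5.1 (wN δ N) l hl).2.1, (h5.1 (wN δ N) l hl).2.2.1,
        (h5.1 (wN δ N) l hl).2.2.2.1⟩))
    have hzp : (1 : ℝ) < zN N := by exact_mod_cast (by omega : 1 < zN N)
    have hzl : 0 < Real.log (zN N) := Real.log_pos hzp
    apply div_le_div_of_nonneg_left hc₀.le (by positivity)
    apply pow_le_pow_left₀ hzl.le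
    apply Real.log_le_log (by linarith)
    have : (zN N : ℝ) ≤ (N : ℝ) ^ (1 / 8 : ℝ) := Nat.floor_le (by positivity)
    refine this.trans ?_
    calc (N : ℝ) ^ (1 / 8 : ℝ) ≤ (N : ℝ) ^ (1 : ℝ) :=
          Real.rpow_le_rpow_of_exponent_le hN1.le (by norm_num)
      _ = N := Real.rpow_one _
  have m2 : 3 * ((G : ℝ) ^ 2 * (n : ℝ) ^ (1 - 4 * c₁)) ≤
      (ε / 4) * (I * (m * N) * VV (gT (wN δ N)) (zN N)) / Real.log n :=
    zsb_e1 I m N n (Real.log N) (Real.log n) _ c₀ ε c₁ G k hI hm0 hN0 hn0 g6 hlL hε hc₀ v1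
      (by positivity) (hGe.trans (hNe.trans (Real.rpow_le_rpow_of_exponent_le hn1.le he2))) a7 f4
  have m3 : 3 * ((m : ℝ) * (1 + Real.log F) * (N / Real.log N ^ (k + 3))) ≤
      (ε / 4) * (I * (m * N) * VV (gT (wN δ N)) (zN N)) / Real.log n := by
    refine zsb_e2 I m N (Real.log N) (Real.log n) (Real.log F) _ c₀ ε k hI hm0 hN0 g6 hlL hL2 ?_
      hε hc₀ v1 g7
    rcases Nat.eq_zero_or_pos F with hF0 | hF0
    · rw [hF0, Nat.cast_zero, Real.log_zero]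
      exact hLpos.le
    · exact Real.log_le_log (by exact_mod_cast hF0) (by exact_mod_cast hFn)
  refine hS.trans ?_
  unfold UT
  rw [← hIdef]
  have e1 : (A0 * (cB / 4) + ε) * (I * (m * N) * VV (gT (wN δ N)) (zN N)) / Real.log n =
      (A0 * (cB / 4) + ε / 2) * (I * (m * N) * VV (gT (wN δ N)) (zN N)) / Real.log n +
      ((ε / 4) * (I * (m * N) * VV (gT (wN δ N)) (zN N)) / Real.log n +
      (ε / 4) * (I * (m * N) * VV (gT (wN δ N)) (zN N)) / Real.log n) := by ring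
  rw [e1]
  refine add_le_add m1 ?_
  refine (mul_le_mul_of_nonneg_left hErr (by norm_num)).trans ?_
  rw [mul_add]
  exact add_le_add m2 m3

end Pool.Agent.CV
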