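import Mathlib
import Pool.Agent.CV.LSF
import Pool.Agent.CV.J4
import Pool.Agent.CV.PVF
import Pool.Agent.CV.TIIF
import Pool.Agent.CV.PsiF
import Pool.Agent.CV.FamB
import Pool.Agent.CV.TBV3P
import Pool.Agent.CV.LevS
import Pool.Agent.CV.ZId
import Pool.Agent.CV.ZA
import Pool.Agent.CV.ZB
import Pool.Agent.CV.ZC
import Pool.Agent.CV.ZRed
import Pool.Agent.CV.LevZ
import Pool.Agent.CV.LR
import Pool.Agent.CV.GenZ
import Pool.Agent.CV.ZSA
import Pool.Agent.CV.ZSP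
import Pool.Agent.CV.RedB
import Pool.Agent.CV.LevB
import Pool.Agent.CV.GenB
import Pool.Agent.CV.ZSB
import Pool.Agent.CV.VRn
import Pool.Agent.CV.ZFin
import Pool.Agent.CH.Asm
import Pool.Agent.CU.Asm

set_option autoImplicit false

/-!
# CV: assembly
-/

namespace Pool.Agent.CV

open Finset Filter Pool.Agent.MT Pool.Agent.CH Pool.Agent.CU

theorem levZ : St_LevZ :=
  thm_LevZ (thm_ZRed (thm_ZA thm_ZId) (thm_ZB thm_ZId) thm_ZC)
    (thm_LevS (thm_TBV3P thm_TRed (thm_JB thm_PV) thm_TSum (thm_LCm thm_PV (thm_TIIm thm_LSm))))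
    (thm_FamB thm_J4 (thm_PsiF (thm_PVF thm_PV) (thm_TIIF thm_LSF)))

theorem zfin : St_ZFin := by
  obtain ⟨A0, hA0, hU, hL⟩ := thm_LR
  have hPBVW := thm_PBVW (thm_PBV thm_PRed thm_PLC thm_PSW)
  exact thm_ZFin ⟨A0, hA0, thm_ZSA A0 hA0 hL levZ thm_GenZ thm_VLow thm_DensT thm_P1,
    thm_ZSP A0 hA0 hU levZ thm_GenZ thm_VLow thm_DensT thm_P1 (thm_ASum thm_MR),
    thm_ZSB A0 hA0 hU hPBVW (thm_LevB thm_RedB thm_PV thm_LSm) (thm_GenB thm_DensT) thm_VLow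
      thm_DensT (thm_BMass thm_MR thm_P2) thm_VRn⟩ thm_cB thm_Wt thm_VLow thm_DensT

end Pool.Agent.CV
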