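import Mathlib
import Pool.Agent.CV.Stmts
import Pool.Agent.CU.Final
import Pool.Agent.SI.Stmts

set_option autoImplicit false

/-!
# CV: all ranges of `m` together
-/

namespace Pool.Agent.CV

open Finset Filter Pool.Agent.MT Pool.Agent.CH Pool.Agent.CU

/-- the conclusion for the pair `(m, n)` -/
def Con (k R m n : ℕ) : Prop :=
  ∃ p : ℕ, p.Prime ∧ p < n ∧ 2 ≤ (n - p) / m ∧ Nat.IsAtMostAlmostPrime k ((n - p) / m) ∧
    Nat.IsAtMostAlmostPrime R (((n - p) / m) ^ 2 - 2)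

theorem Con.mono {k k' R R' m n : ℕ} (h : Con k R m n) (hk : k ≤ k') (hR : R ≤ R') :
    Con k' R' m n := by
  obtain ⟨p, h1, h2, h3, h4, h5⟩ := h
  exact ⟨p, h1, h2, h3, final_mono hk h4, final_mono hR h5⟩

/-- up to `n^{1/3}` -/
theorem final_third (hT : St_FinT) (hC : St_Chen) (hZ : St_ZFin) :
    ∃ (R : ℕ) (ρ : ℝ), 0 < ρ ∧ ∀ᶠ n : ℕ in atTop, ∀ m : ℕ, Admissible m n →
      (m : ℝ) ≤ (n : ℝ) ^ (1 / 3 + ρ) → Con 2 R m n := by
  obtain ⟨R2, B2, κ, hκ, hT⟩ := hT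
  obtain ⟨R3, hC⟩ := hC
  obtain ⟨ρ, hρ, hZ⟩ := hZ
  obtain ⟨R4, hZ⟩ := hZ κ hκ
  refine ⟨R2 + R3 + R4, ρ, hρ, ?_⟩
  filter_upwards [hT, hC B2, hZ] with n hT hC hZ m hm hmle
  have hm1 : 1 ≤ m := hm.1
  have htile : Tile (n / m) m n := by
    refine ⟨hm1, Nat.mul_div_le n m, ?_⟩
    exact Nat.lt_mul_div_succ n (by omega)
  rcases le_or_gt (m : ℝ) (Real.log n ^ B2) with hs | hs
  · obtain ⟨p, hp, hpn, h2, h3⟩ := hC m hm hs
    have hq : 2 ≤ (n - p) / m := by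
      by_contra hlt
      have h5 : (n - p) / m ≤ 1 := by omega
      have h6 : ((n - p) / m) ^ 2 - 2 = 0 := by
        have : ((n - p) / m) ^ 2 ≤ 1 ^ 2 := Nat.pow_le_pow_left h5 2
        omega
      exact h3.1 h6
    exact ⟨p, hp, hpn, hq, h2, final_mono (by omega) h3⟩
  rcases le_or_gt (m : ℝ) ((n : ℝ) ^ κ) with hk | hk
  · obtain ⟨p, hp, hpn, hq, h2, h3⟩ := hT m (n / m) htile hs.le hk
    exact ⟨p, hp, hpn, hq, h2, final_mono (by omega) h3⟩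
  · obtain ⟨p, hp, hpn, hq, h2, h3⟩ := hZ m (n / m) htile hk.le hmle
    exact ⟨p, hp, hpn, hq, h2, final_mono (by omega) h3⟩

/-- all but finitely many admissible pairs -/
theorem final_all2 (hT : St_FinT) (hC : St_Chen) (hZ : St_ZFin) (h4 : Pool.Agent.SI.St_T4) :
    ∃ R : ℕ, ∀ᶠ n : ℕ in atTop, ∀ m : ℕ, Admissible m n → Con 2 R m n := by
  obtain ⟨R, ρ, hρ, h⟩ := final_third hT hC hZ
  obtain ⟨n₀, hn₀⟩ := h4 (1 / 12) (by norm_num)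
  refine ⟨R + 5, ?_⟩
  filter_upwards [h, eventually_ge_atTop n₀, eventually_ge_atTop 1] with n h hn hn1 m hm
  rcases le_or_gt (m : ℝ) ((n : ℝ) ^ (1 / 3 + ρ)) with hs | hs
  · exact (h m hm hs).mono le_rfl (by omega)
  · have hn1' : (1 : ℝ) ≤ n := by exact_mod_cast hn1
    have h1 : (n : ℝ) ^ (1 / 4 + 1 / 12 : ℝ) ≤ m :=
      (Real.rpow_le_rpow_of_exponent_le hn1' (by linarith)).trans hs.le
    obtain ⟨P, ⟨p, hp⟩, hP, -⟩ := hn₀ n m hn h1 hm.2.1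
    obtain ⟨h2, h3, h4, h5⟩ := hP p hp
    refine ⟨p, h2, h3, h4.two_le, ⟨h4.ne_zero, ?_⟩, final_mono (by omega) h5⟩
    rw [ArithmeticFunction.cardFactors_apply_prime h4]
    norm_num

end Pool.Agent.CV
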