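import Mathlib
import Pool.Agent.CV.Asm
import Pool.Agent.CV.Final
import Pool.Agent.CU.Main
import Pool.Agent.SI.Final

set_option autoImplicit false

/-!
# CV: Chen's theorem for all but finitely many admissible pairs
-/

namespace Pool.Agent.CV

open Finset Filter Pool.Agent.MT Pool.Agent.CH Pool.Agent.CU

theorem finTT : St_FinT := finT (thm_LinG Pool.Agent.LIN.sve Pool.Agent.LIN.thm_Cv2).1

theorem main : ∃ R : ℕ, ∀ᶠ n : ℕ in atTop, ∀ m : ℕ, Admissible m n → Con 2 R m n :=
  final_all2 finTT chen zfin Pool.Agent.SI.final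

end Pool.Agent.CV
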