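import Mathlib
import Pool.Agent.CV.Stmts
import Pool.Agent.CU.TSP
import Pool.Agent.GBQ.Crt
import Pool.Agent.GBQ.Div

set_option autoImplicit false

/-!
# CV / ZSP

The upper bound for the sum over the primes `p` in `(zN, yN]`, `p` not dividing `m`, of the sifted
sums over the `q` divisible by `p`.
-/

namespace Pool.Agent.CV

open Finset Filter Pool.Agent.MT Pool.Agent.CH Pool.Agent.CU

/-- the sieve bound for one prime `p` -/
theorem ZSP_one (h2 : St_GenZ) {η : ℝ → ℝ} (hη : IsWt η) (N m n w z F G p : ℕ) (c : ℕ → ℝ)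
    (hp : p.Prime) (hzp : z < p) (hwz : w ≤ z)
    (c1 : ∀ d, c d ≠ 0 → Squarefree d ∧ (∀ l ∈ d.primeFactors, l ≤ z) ∧ d ≤ F ∧ smp w d ≤ G)
    (c2 : ∀ d, |c d| ≤ 3)
    (c4 : ∀ S : Finset ℕ, S ⊆ pr z → (if S = ∅ then (1 : ℝ) else 0) ≤
      ∑ T ∈ S.powerset, c (∏ l ∈ T, l))
    {V : ℝ} (c3 : ∑ d ∈ Icc 1 F, c d * ∏ l ∈ d.primeFactors, gZ w m l ≤ V) :
    SSZp η w z p N m n ≤ psi0 (etaR η) (m * N) / p * V +
      3 * ∑ g ∈ (Icc 1 G).filter Squarefree,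
        ∑ a ∈ (range g).filter (fun a => ∀ l ∈ g.primeFactors, a % l ∈ OmT w l),
          ∑ d ∈ (ZD (m * g) w F).filter (fun d => ∀ l ∈ d.primeFactors, l ≤ z),
            EZ η N m n g a (p * d) := by
  have hG := (abs_le.mp (h2 η N m n w z F G p c (Or.inr ⟨hp, hzp⟩) hwz c1 c2)).2
  rw [sub_le_iff_le_add'] at hG
  have hp1 : (0 : ℝ) < (p : ℝ) := by exact_mod_cast hp.pos
  have hcoef : 0 ≤ psi0 (etaR η) (m * N) / (p : ℝ) := div_nonneg (SP_psi0_nonneg hη _) hp1.le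
  refine le_trans ?_ (hG.trans (add_le_add (mul_le_mul_of_nonneg_left c3 hcoef) le_rfl))
  unfold SSZp
  rw [sum_filter, sum_filter]
  refine sum_le_sum fun q _ => ?_
  have hS := c4 ((pr z).filter (fun l => q % l ∈ OmZ w m l)) (filter_subset _ _)
  have ht := T4P_tl_nonneg hη N m n q
  by_cases hpq : p ∣ q
  · rw [if_pos hpq]
    by_cases h3 : ∀ l ∈ pr z, q % l ∉ OmZ w m l
    · rw [if_pos ⟨h3, hpq⟩]
      rw [if_pos (filter_eq_empty_iff.2 h3)] at hS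
      exact le_mul_of_one_le_right ht hS
    · rw [if_neg (fun h => h3 h.1)]
      refine mul_nonneg ht (le_trans ?_ hS)
      split_ifs <;> norm_num
  · rw [if_neg hpq, if_neg (fun h => hpq h.2)]

/-- the moduli `p d` are different -/
theorem ZSP_inj (m g w z Θ : ℕ) (Q : Finset ℕ) (F : ℕ → ℕ) (E : ℕ → ℝ) (hE : ∀ f, 0 ≤ E f)
    (hg : 1 ≤ g) (hgz : g ≤ z) (hwz : w ≤ z) (hQ : ∀ p ∈ Q, p.Prime ∧ z < p ∧ ¬ p ∣ m)
    (hF : ∀ p ∈ Q, p * F p ≤ Θ) :
    ∑ p ∈ Q, ∑ d ∈ (ZD (m * g) w (F p)).filter (fun d => ∀ l ∈ d.primeFactors, l ≤ z),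
      E (p * d) ≤ ∑ f ∈ ZD (m * g) w Θ, E f := by
  classical
  rw [sum_sigma']
  have hinj : Set.InjOn (fun x : (_ : ℕ) × ℕ => x.1 * x.2)
      (Q.sigma fun p => (ZD (m * g) w (F p)).filter
        (fun d => ∀ l ∈ d.primeFactors, l ≤ z) : Finset ((_ : ℕ) × ℕ)) := by
    rintro ⟨p, d⟩ hx ⟨p', d'⟩ hx' h
    rw [mem_coe, mem_sigma, mem_filter] at hx hx'
    simp only at hx hx' h
    obtain ⟨h1, h2, h3⟩ := hx
    obtain ⟨h1', h2', h3'⟩ := hx'
    unfold ZD at h2 h2'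
    rw [mem_filter, mem_Icc] at h2 h2'
    have hpp := (hQ p h1).1
    have hd' : d' ≠ 0 := by omega
    have h4 : p ∣ p' * d' := by
      rw [← h]
      exact dvd_mul_right p d
    rcases (Nat.Prime.dvd_mul hpp).1 h4 with h5 | h5
    · have h6 : p = p' := (Nat.prime_dvd_prime_iff_eq hpp (hQ p' h1').1).1 h5
      subst h6
      have h7 : d = d' := Nat.eq_of_mul_eq_mul_left hpp.pos h
      rw [h7]
    · have h6 := h3' p (Nat.mem_primeFactors.2 ⟨hpp, h5, hd'⟩)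
      have := (hQ p h1).2.1
      omega
  rw [← sum_image (g := fun x : (_ : ℕ) × ℕ => x.1 * x.2) (f := E) hinj]
  apply sum_le_sum_of_subset_of_nonneg
  · intro f hf
    rw [mem_image] at hf
    obtain ⟨⟨p, d⟩, hx, rfl⟩ := hf
    rw [mem_sigma, mem_filter] at hx
    simp only at hx ⊢
    obtain ⟨h1, h2, h3⟩ := hx
    unfold ZD at h2 ⊢
    rw [mem_filter, mem_Icc] at h2 ⊢
    obtain ⟨⟨h4, h5⟩, h6, h7, h8⟩ := h2
    obtain ⟨hpp, hzp, hpm⟩ := hQ p h1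
    have hpd : ¬ p ∣ d := fun h => by
      have := h3 p (Nat.mem_primeFactors.2 ⟨hpp, h, by omega⟩)
      omega
    have hpg : ¬ p ∣ g := fun h => by
      have := Nat.le_of_dvd (by omega) h
      omega
    have hpc : p.Coprime d := (Nat.Prime.coprime_iff_not_dvd hpp).2 hpd
    refine ⟨⟨Nat.mul_pos hpp.pos h4, ?_⟩, ?_, ?_, ?_⟩
    · exact (Nat.mul_le_mul_left p h5).trans (hF p h1)
    · exact (Nat.squarefree_mul hpc).2 ⟨hpp.prime.squarefree, h6⟩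
    · refine Nat.Coprime.mul_left ?_ h7
      rw [Nat.Prime.coprime_iff_not_dvd hpp, Nat.Prime.dvd_mul hpp]
      rintro (h | h)
      · exact hpm h
      · exact hpg h
    · intro l hl
      rw [Nat.mem_primeFactors] at hl
      rcases (Nat.Prime.dvd_mul hl.1).1 hl.2.1 with h | h
      · have := (Nat.prime_dvd_prime_iff_eq hl.1 hpp).1 h
        omega
      · exact h8 l (Nat.mem_primeFactors.2 ⟨hl.1, h, by omega⟩)
  · intro f _ _
    exact hE f

/-- number of classes -/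
theorem ZSP_roots (h4 : St_DensT) (w g : ℕ) (hg : Squarefree g) :
    (((range g).filter (fun a => ∀ l ∈ g.primeFactors, a % l ∈ OmT w l)).card : ℝ) ≤
      3 ^ g.primeFactors.card := by
  have h1 := Pool.Agent.GBQ.thm_Crt g.primeFactors (OmT w)
    (fun p hp => Nat.prime_of_mem_primeFactors hp) (fun p _ => filter_subset _ _)
  rw [Nat.prod_primeFactors_of_squarefree hg] at h1
  have h3 : ∏ p ∈ g.primeFactors, (OmT w p).card ≤ 3 ^ g.primeFactors.card := by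
    rw [← prod_const]
    exact prod_le_prod' fun p hp => (h4.1 w p (Nat.prime_of_mem_primeFactors hp)).1
  exact_mod_cast h1.le.trans h3

/-- summation of the bound of `St_LevZ` over the classes -/
theorem ZSP_lev (h4 : St_DensT) (w G : ℕ) (hG : 1 ≤ G) (T K : ℝ) (hT : 0 ≤ T) (hK : 0 ≤ K)
    (D : ℕ → ℕ → ℝ) (hD : ∀ g a, 1 ≤ g → g ≤ G → a < g → D g a ≤ T + K / g) :
    ∑ g ∈ (Icc 1 G).filter Squarefree,
      ∑ a ∈ (range g).filter (fun a => ∀ l ∈ g.primeFactors, a % l ∈ OmT w l), D g a ≤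
      (G : ℝ) ^ 2 * T + K * (1 + Real.log G) ^ 3 := by
  have h1 : ∀ g ∈ (Icc 1 G).filter Squarefree,
      ∑ a ∈ (range g).filter (fun a => ∀ l ∈ g.primeFactors, a % l ∈ OmT w l), D g a ≤
      G * T + K * (((3 : ℕ) : ℝ) ^ g.primeFactors.card / g) := by
    intro g hg
    rw [mem_filter, mem_Icc] at hg
    have hg0 : (0 : ℝ) < g := by exact_mod_cast hg.1.1
    have h2 : ∀ a ∈ (range g).filter (fun a => ∀ l ∈ g.primeFactors, a % l ∈ OmT w l),
        D g a ≤ T + K / g := by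
      intro a ha
      rw [mem_filter, mem_range] at ha
      exact hD g a hg.1.1 hg.1.2 ha.1
    refine (sum_le_sum h2).trans ?_
    rw [sum_const, nsmul_eq_mul, mul_add]
    refine add_le_add ?_ ?_
    · apply mul_le_mul_of_nonneg_right _ hT
      have h5 := card_filter_le (range g) (fun a => ∀ l ∈ g.primeFactors, a % l ∈ OmT w l)
      rw [card_range] at h5
      exact_mod_cast h5.trans hg.1.2
    · have h6 := mul_le_mul_of_nonneg_right (ZSP_roots h4 w g hg.2)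
        (by positivity : 0 ≤ K / (g : ℝ))
      refine h6.trans (le_of_eq ?_)
      push_cast
      ring
  refine (sum_le_sum h1).trans ?_
  rw [sum_add_distrib, sum_const, nsmul_eq_mul, ← mul_sum]
  refine add_le_add ?_ (mul_le_mul_of_nonneg_left ?_ hK)
  · have h8 : (((Icc 1 G).filter Squarefree).card : ℝ) ≤ G := by
      have := card_filter_le (Icc 1 G) Squarefree
      rw [Nat.card_Icc, Nat.add_sub_cancel] at this
      exact_mod_cast this
    calc (((Icc 1 G).filter Squarefree).card : ℝ) * (G * T) ≤ G * (G * T) :=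
          mul_le_mul_of_nonneg_right h8 (by positivity)
      _ = (G : ℝ) ^ 2 * T := by ring
  · refine le_trans ?_ (Pool.Agent.GBQ.thm_Div 3 G hG)
    apply sum_le_sum_of_subset_of_nonneg (filter_subset _ _)
    intro g _ _
    positivity

/-- properties of the density -/
theorem ZSP_gZ (h4 : St_DensT) (w m l : ℕ) (hl : l.Prime) :
    0 ≤ gZ w m l ∧ gZ w m l ≤ 1 / 2 ∧ gZ w m l ≤ 4 / (l : ℝ) ∧
      (w < l → ¬ l ∣ m → gZ w m l = 1 / (l : ℝ)) ∧ (w < l → l ∣ m → gZ w m l = 0) := by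
  obtain ⟨-, e1, e2, e3, e4⟩ := h4.1 w l hl
  have hl0 : (0 : ℝ) < l := by exact_mod_cast hl.pos
  by_cases h : w < l ∧ l ∣ m
  · have h0 : gZ w m l = 0 := by
      unfold gZ OmZ
      rw [if_pos h]
      simp
    rw [h0]
    refine ⟨le_rfl, by norm_num, by positivity, fun _ h' => absurd h.2 h', fun _ _ => rfl⟩
  · have h0 : gZ w m l = gT w l := by
      unfold gZ OmZ gT
      rw [if_neg h]
    rw [h0]
    exact ⟨e1, e2, e3, fun h1 _ => e4 h1, fun h1 h2 => absurd ⟨h1, h2⟩ h⟩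

/-- the density is admissible for the sieve -/
theorem ZSP_Dns (h4 : St_DensT) {N m z : ℕ} {δ : ℝ} (hδ : 0 < δ) (hN : 2 ≤ N) (hm : 1 ≤ m)
    (hn2 : (m : ℝ) ≤ (N : ℝ) ^ 2) :
    DnsG ⌊(N : ℝ) ^ δ⌋₊ z ⌈2 / δ⌉₊ (gZ (wN δ N) m) := by
  refine ⟨fun l hl => ?_, fun l hl hwl _ => ?_, ?_⟩
  · obtain ⟨e1, e2, e3, -, -⟩ := ZSP_gZ h4 (wN δ N) m l hl
    exact ⟨e1, e2, e3⟩
  · obtain ⟨-, -, -, e4, e5⟩ := ZSP_gZ h4 (wN δ N) m l hl
    by_cases h : l ∣ m
    · exact Or.inl (e5 hwl h)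
    · refine Or.inr ⟨(e4 hwl h).ge, ?_⟩
      rw [e4 hwl h]
      have : (2 : ℝ) ≤ l := by exact_mod_cast hl.two_le
      exact one_div_le_one_div_of_le (by linarith) (by linarith)
  · set T := (pr z).filter (fun l => ⌊(N : ℝ) ^ δ⌋₊ < l ∧ gZ (wN δ N) m l = 0) with hT
    have hN1 : (1 : ℝ) < N := by exact_mod_cast (by omega : 1 < N)
    have hTp : ∀ l ∈ T, l.Prime ∧ (N : ℝ) ^ δ < l ∧ l ∣ m := by
      intro l hl
      obtain ⟨f1, f2, f3⟩ := mem_filter.1 hl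
      have hlp : l.Prime := (mem_filter.1 f1).2
      have hlN : (N : ℝ) ^ δ < l := (Nat.floor_lt (by positivity)).1 f2
      refine ⟨hlp, hlN, ?_⟩
      by_contra h
      obtain ⟨-, -, -, e4, -⟩ := ZSP_gZ h4 (wN δ N) m l hlp
      rw [e4 f2 h] at f3
      have : (0 : ℝ) < l := by exact_mod_cast hlp.pos
      have h5 : (0 : ℝ) < 1 / (l : ℝ) := by positivity
      linarith
    have hprod : ∏ l ∈ T, l ≤ m := by
      refine Nat.le_of_dvd hm ?_
      exact Finset.prod_primes_dvd _ (fun l hl => (hTp l hl).1.prime) fun l hl => (hTp l hl).2.2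
    have hlow : ((N : ℝ) ^ δ) ^ T.card ≤ ((∏ l ∈ T, l : ℕ) : ℝ) := by
      rw [Nat.cast_prod, ← prod_const]
      exact prod_le_prod (fun _ _ => by positivity) fun l hl => (hTp l hl).2.1.le
    have h5 : ((N : ℝ) ^ δ) ^ T.card ≤ (N : ℝ) ^ 2 :=
      hlow.trans (le_trans (by exact_mod_cast hprod) hn2)
    rw [← Real.rpow_natCast, ← Real.rpow_natCast, ← Real.rpow_mul (by positivity),
      Real.rpow_le_rpow_left_iff hN1] at h5
    have h6 : (T.card : ℝ) ≤ 2 / δ := by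
      rw [le_div_iff₀ hδ, mul_comm]
      exact_mod_cast h5
    exact Nat.cast_le.1 (h6.trans (Nat.le_ceil _))

/-- sizes -/
theorem ZSP_sizes : ∀ᶠ n : ℕ in atTop, 16 ≤ n ∧ ∀ m N : ℕ, Tile N m n →
    (m : ℝ) ≤ (n : ℝ) ^ (2 / 5 : ℝ) → (n : ℝ) ^ (3 / 5 : ℝ) / 2 ≤ N ∧
    (n : ℝ) ^ (1 / 2 : ℝ) ≤ N ∧ N ≤ n ∧ n ≤ N ^ 2 ∧ (n : ℝ) / 2 ≤ m * N := by
  have hlarge : ∀ a c : ℝ, 0 < a → ∀ᶠ N : ℕ in atTop, c ≤ (N : ℝ) ^ a := fun a c ha =>
    tendsto_natCast_atTop_atTop.eventually ((tendsto_rpow_atTop ha).eventually_ge_atTop c)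
  filter_upwards [hlarge (1 / 10) 2 (by norm_num), hlarge (1 / 5) 4 (by norm_num),
    hlarge (3 / 5) 2 (by norm_num), eventually_ge_atTop 16] with n e1 e2 e5 hn16
  refine ⟨hn16, ?_⟩
  intro m N hT hm
  obtain ⟨s1, s2, s3⟩ := hT
  have hn0 : (0 : ℝ) < n := by exact_mod_cast (by omega : 0 < n)
  have hm1 : (1 : ℝ) ≤ m := by exact_mod_cast s1
  have s2' : (m : ℝ) * N ≤ n := by exact_mod_cast s2
  have s3' : (n : ℝ) < m * (N + 1) := by exact_mod_cast s3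
  have a1 : (n : ℝ) = (n : ℝ) ^ (2 / 5 : ℝ) * (n : ℝ) ^ (3 / 5 : ℝ) := by
    rw [← Real.rpow_add hn0]
    norm_num
  have a2 : (n : ℝ) ^ (3 / 5 : ℝ) < N + 1 := by
    have h1 : (n : ℝ) < (n : ℝ) ^ (2 / 5 : ℝ) * (N + 1) :=
      s3'.trans_le (mul_le_mul_of_nonneg_right hm (by positivity))
    nth_rewrite 1 [a1] at h1
    exact lt_of_mul_lt_mul_left h1 (by positivity)
  have a3 : (n : ℝ) ^ (3 / 5 : ℝ) / 2 ≤ N := by linarith
  have a4 : (n : ℝ) ^ (1 / 2 : ℝ) ≤ N := by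
    refine le_trans ?_ a3
    have h1 : (n : ℝ) ^ (3 / 5 : ℝ) = (n : ℝ) ^ (1 / 10 : ℝ) * (n : ℝ) ^ (1 / 2 : ℝ) := by
      rw [← Real.rpow_add hn0]
      norm_num
    rw [h1]
    nlinarith [mul_le_mul_of_nonneg_right e1 (by positivity : (0 : ℝ) ≤ (n : ℝ) ^ (1 / 2 : ℝ))]
  have a5 : N ≤ n := by
    have : 1 * N ≤ m * N := Nat.mul_le_mul_right N s1
    omega
  have a6 : n ≤ N ^ 2 := by
    have h1 : (n : ℝ) ≤ (N : ℝ) ^ 2 := by
      have h2 : ((n : ℝ) ^ (1 / 2 : ℝ)) ^ 2 ≤ (N : ℝ) ^ 2 := pow_le_pow_left₀ (by positivity) a4 2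
      rwa [← Real.rpow_natCast ((n : ℝ) ^ (1 / 2 : ℝ)) 2, ← Real.rpow_mul hn0.le,
        show (1 / 2 : ℝ) * ((2 : ℕ) : ℝ) = 1 by norm_num, Real.rpow_one] at h2
    exact_mod_cast h1
  have a7 : (n : ℝ) / 2 ≤ m * N := by
    have h1 : (n : ℝ) ^ (2 / 5 : ℝ) ≤ n / 2 := by
      have h2 := mul_le_mul_of_nonneg_left e5 (by positivity : (0 : ℝ) ≤ (n : ℝ) ^ (2 / 5 : ℝ))
      rw [← a1] at h2
      linarith
    nlinarith
  exact ⟨a3, a4, a5, a6, a7⟩

theorem ZSP_logpow (c s : ℝ) (k : ℕ) (hc : 0 < c) (hs : 0 < s) :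
    ∀ᶠ n : ℕ in atTop, Real.log n ^ k ≤ c * (n : ℝ) ^ s := by
  have h := ((isLittleO_log_rpow_rpow_atTop (k : ℝ) hs).bound hc)
  have h2 := tendsto_natCast_atTop_atTop.eventually h
  filter_upwards [h2] with n hn
  have hl : 0 ≤ Real.log n := Real.log_natCast_nonneg n
  rw [Real.rpow_natCast, Real.norm_of_nonneg (by positivity),
    Real.norm_of_nonneg (by positivity)] at hn
  exact hn

/-- first error -/
theorem ZSP_e1 (n L U c₀ ε c₁ G : ℝ) (k : ℕ) (hn : 0 < n) (hL : 0 < L) (hε : 0 < ε)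
    (hU : 1 / 2 * (n / 2) * (c₀ / L ^ k) ≤ U) (hG0 : 0 ≤ G)
    (hG : G ≤ n ^ c₁) (w1 : L ^ k ≤ (ε * c₀ / 48) * n ^ (2 * c₁)) :
    3 * (G ^ 2 * n ^ (1 - 4 * c₁)) ≤ (ε / 4) * U := by
  have h1 : G ^ 2 * n ^ (1 - 4 * c₁) ≤ n ^ (1 - 2 * c₁) := by
    have h2 : G ^ 2 ≤ n ^ (2 * c₁) := by
      calc G ^ 2 ≤ (n ^ c₁) ^ 2 := pow_le_pow_left₀ hG0 hG 2
        _ = n ^ (2 * c₁) := by
          rw [← Real.rpow_natCast, ← Real.rpow_mul hn.le]
          congr 1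
          push_cast
          ring
    calc G ^ 2 * n ^ (1 - 4 * c₁) ≤ n ^ (2 * c₁) * n ^ (1 - 4 * c₁) :=
          mul_le_mul_of_nonneg_right h2 (by positivity)
      _ = n ^ (1 - 2 * c₁) := by
        rw [← Real.rpow_add hn]
        congr 1
        ring
  refine le_trans ?_ (mul_le_mul_of_nonneg_left hU (by positivity))
  have h5 : (ε / 4) * (1 / 2 * (n / 2) * (c₀ / L ^ k)) = (ε * c₀ / 16) * n / L ^ k := by
    ring
  rw [h5, le_div_iff₀ (by positivity)]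
  calc 3 * (G ^ 2 * n ^ (1 - 4 * c₁)) * L ^ k ≤
      3 * n ^ (1 - 2 * c₁) * ((ε * c₀ / 48) * n ^ (2 * c₁)) := by
        apply mul_le_mul _ w1 (by positivity) (by positivity)
        linarith
    _ = (ε * c₀ / 16) * (n ^ (1 - 2 * c₁) * n ^ (2 * c₁)) := by ring
    _ = (ε * c₀ / 16) * n := by
        rw [← Real.rpow_add hn]
        norm_num

/-- second error -/
theorem ZSP_e2 (n L U c₀ ε w W lG : ℝ) (k C : ℕ) (hn : 0 < n) (hL : 1 ≤ L) (hε : 0 < ε)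
    (hU : 1 / 2 * (n / 2) * (c₀ / L ^ k) ≤ U) (hlG0 : 0 ≤ lG)
    (hlG : lG ≤ L) (hW : 0 < W) (hw : W / 2 ≤ w)
    (w1 : 96 * C * 2 ^ (C + 3) * L ^ (C + 3 + k) ≤ ε * c₀ * W) :
    3 * (C * (1 + L) ^ C * n / w * (1 + lG) ^ 3) ≤ (ε / 4) * U := by
  have hL0 : 0 < L := by linarith
  have hw0 : 0 < w := by linarith
  refine le_trans ?_ (mul_le_mul_of_nonneg_left hU (by positivity))
  have h5 : (ε / 4) * (1 / 2 * (n / 2) * (c₀ / L ^ k)) = (ε * c₀ / 16) * n / L ^ k := by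
    ring
  rw [h5]
  have h1 : (1 + L) ^ C ≤ 2 ^ C * L ^ C := by
    rw [← mul_pow]
    exact pow_le_pow_left₀ (by linarith) (by linarith) C
  have h2 : (1 + lG) ^ 3 ≤ 2 ^ 3 * L ^ 3 := by
    rw [← mul_pow]
    exact pow_le_pow_left₀ (by linarith) (by linarith) 3
  have h3 : 3 * (C * (1 + L) ^ C * n / w * (1 + lG) ^ 3) ≤
      3 * (C * (2 ^ C * L ^ C) * n / (W / 2) * (2 ^ 3 * L ^ 3)) := by
    apply mul_le_mul_of_nonneg_left _ (by norm_num)
    apply mul_le_mul _ h2 (by positivity) (by positivity)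
    apply div_le_div₀ (by positivity) _ (by positivity) hw
    apply mul_le_mul_of_nonneg_right _ hn.le
    exact mul_le_mul_of_nonneg_left h1 (Nat.cast_nonneg C)
  refine h3.trans ?_
  rw [le_div_iff₀ (by positivity)]
  have h6 : 3 * (C * (2 ^ C * L ^ C) * n / (W / 2) * (2 ^ 3 * L ^ 3)) * L ^ k =
      (96 * C * 2 ^ (C + 3) * L ^ (C + 3 + k)) * (n / (16 * W)) := by
    rw [pow_add L (C + 3) k, pow_add L C 3, pow_add (2 : ℝ) C 3]
    field_simp
    ring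
  rw [h6]
  calc (96 * C * 2 ^ (C + 3) * L ^ (C + 3 + k)) * (n / (16 * W)) ≤ (ε * c₀ * W) * (n / (16 * W)) :=
        mul_le_mul_of_nonneg_right w1 (by positivity)
    _ = (ε * c₀ / 16) * n := by field_simp

/-- the sum over `p` -/
theorem ZSP_sum {t τ : ℝ} (hτ : 0 < τ) (hτ1 : τ ≤ 1 / 100)
    (hASum : ∀ᶠ N : ℕ in atTop,
      ∑ p ∈ (pr (yN N)).filter (fun p => zN N < p), 1 / (((p : ℝ) - 1) *
        (8 * (1 / 2 - τ - Real.log p / Real.log N))) ≤ Real.log 6 / 4 + t) :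
    ∀ᶠ N : ℕ in atTop, (∀ p ∈ (pr (yN N)).filter (fun p => zN N < p),
      0 < 1 / 2 - τ - Real.log p / Real.log N ∧
      1 / 2 - τ - Real.log p / Real.log N ≤ 3 * (1 / 8) ∧
      Real.log ((N : ℝ) ^ (1 / 2 - τ) / p) =
        Real.log N * (1 / 2 - τ - Real.log p / Real.log N)) ∧
    ∀ Q : Finset ℕ, Q ⊆ (pr (yN N)).filter (fun p => zN N < p) →
      ∑ p ∈ Q, (1 / (p : ℝ) * (1 / 8 / (1 / 2 - τ - Real.log p / Real.log N))) ≤
        Real.log 6 / 4 + t := by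
  filter_upwards [hASum, TSP_sizes hτ hτ1, eventually_ge_atTop 3] with N hN hsz hN3
  obtain ⟨-, s3, s4, -, s5⟩ := hsz
  have hN1 : (1 : ℝ) < N := by exact_mod_cast (by omega : 1 < N)
  have hN0 : (0 : ℝ) < N := by linarith
  have hlogN : 0 < Real.log N := Real.log_pos hN1
  have hz2 : (2 : ℝ) ≤ zN N := by exact_mod_cast s3
  have hzpos : (0 : ℝ) < zN N := by linarith
  have hlogz0 : 0 < Real.log (zN N) := Real.log_pos (by linarith)
  have hlogz : Real.log (zN N) ≤ 1 / 8 * Real.log N := by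
    have a1 := Real.log_le_log hzpos s4
    rwa [Real.log_rpow hN0] at a1
  have hupos : ∀ p ∈ (pr (yN N)).filter (fun p => zN N < p),
      0 < 1 / 2 - τ - Real.log p / Real.log N ∧
      1 / 2 - τ - Real.log p / Real.log N ≤ 3 * (1 / 8) ∧
      Real.log ((N : ℝ) ^ (1 / 2 - τ) / p) =
        Real.log N * (1 / 2 - τ - Real.log p / Real.log N) := by
    intro p hp
    obtain ⟨b3, b4, b5, -, -⟩ := s5 p hp
    have hpp : p.Prime := (mem_filter.1 (mem_filter.1 hp).1).2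
    have hu : Real.log ((N : ℝ) ^ (1 / 2 - τ) / p) =
        Real.log N * (1 / 2 - τ - Real.log p / Real.log N) := by
      have b0 : (p : ℝ) ≠ 0 := by exact_mod_cast hpp.ne_zero
      rw [Real.log_div (by positivity) b0, Real.log_rpow hN0]
      field_simp
    have e2 : 0 < Real.log ((N : ℝ) ^ (1 / 2 - τ) / p) :=
      lt_of_lt_of_le hlogz0 (Real.log_le_log hzpos b3)
    have e3 : Real.log ((N : ℝ) ^ (1 / 2 - τ) / p) ≤ 3 * (1 / 8 * Real.log N) := by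
      have b6 := Real.log_le_log (lt_of_lt_of_le hzpos b3) b4
      rw [Real.log_pow] at b6
      push_cast at b6
      linarith
    rw [hu] at e2 e3
    refine ⟨(mul_pos_iff_of_pos_left hlogN).1 e2, ?_, hu⟩
    have e4 : Real.log N * (1 / 2 - τ - Real.log p / Real.log N) ≤
        Real.log N * (3 * (1 / 8)) := by linarith
    exact le_of_mul_le_mul_left e4 hlogN
  refine ⟨hupos, fun Q hQ => ?_⟩
  refine le_trans ?_ hN
  refine le_trans (sum_le_sum_of_subset_of_nonneg hQ fun p hp _ => ?_)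
    (sum_le_sum fun p hp => ?_)
  · have := (hupos p hp).1
    positivity
  · have hpp : p.Prime := (mem_filter.1 (mem_filter.1 hp).1).2
    have hp2 : (2 : ℝ) ≤ p := by exact_mod_cast hpp.two_le
    have e3 := (hupos p hp).1
    set u : ℝ := 1 / 2 - τ - Real.log p / Real.log N with hudef
    rw [← one_div_mul_one_div]
    have e4 : (1 : ℝ) / 8 / u = 1 / (8 * u) := by rw [div_div]
    rw [e4]
    exact mul_le_mul_of_nonneg_right (one_div_le_one_div_of_le (by linarith) (by linarith))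
      (by positivity)

/-- the main term of one prime -/
theorem ZSP_key (A0 z l u t e1 : ℝ) (hA0 : 0 < A0) (hl : 0 < l) (hu0 : 0 < u)
    (hu1 : u ≤ 3 * (1 / 8)) (hz : z ≤ 1 / 8 * l) (he : e1 ≤ t) (ht : 0 ≤ t) :
    A0 * z / (l * u) + e1 ≤ (A0 + 3 * t) * (1 / 8 / u) := by
  have e2 : A0 * z / (l * u) ≤ A0 * (1 / 8 / u) := by
    rw [← mul_div_assoc, div_le_div_iff₀ (by positivity) (by positivity)]
    have : A0 * z ≤ A0 * (1 / 8 * l) := mul_le_mul_of_nonneg_left hz hA0.le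
    nlinarith
  have e3 : e1 ≤ 3 * t * (1 / 8 / u) := by
    rw [← mul_div_assoc, le_div_iff₀ (by positivity)]
    nlinarith
  linarith [add_mul A0 (3 * t) (1 / 8 / u)]

/-- keep this signature -/
theorem thm_ZSP (A0 : ℝ) (hA0 : 0 < A0) (h0 : St_LRU A0) (h1 : St_LevZ) (h2 : St_GenZ) (h3 : St_VLow) (h4 : St_DensT) (h5 : St_P1) (h6 : St_ASum) : St_ZSP A0 := by
  classical
  intro η hη ε hε
  obtain ⟨L0, L1⟩ := SP_log6
  have ht0 : 0 < min (1 / 2) (ε / (6 * A0 + 12)) := lt_min (by norm_num) (by positivity)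
  have ht3 : min (1 / 2) (ε / (6 * A0 + 12)) * (6 * A0 + 12) ≤ ε := by
    have : min (1 / 2) (ε / (6 * A0 + 12)) ≤ ε / (6 * A0 + 12) := min_le_right _ _
    rwa [le_div_iff₀ (by positivity)] at this
  obtain ⟨t, ht⟩ : ∃ t, t = min (1 / 2) (ε / (6 * A0 + 12)) := ⟨_, rfl⟩
  rw [← ht] at ht0 ht3
  have ht2 : t ≤ 1 / 2 := by rw [ht]; exact min_le_left _ _
  obtain ⟨L, hL⟩ : ∃ L, L = Real.log 6 / 4 := ⟨_, rfl⟩
  rw [← hL] at L0 L1
  obtain ⟨τ₀, hτ₀, hτall⟩ := h6 t ht0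
  obtain ⟨τ, hτd⟩ : ∃ τ, τ = min τ₀ (1 / 100) := ⟨_, rfl⟩
  have hτ : 0 < τ := by rw [hτd]; exact lt_min hτ₀ (by norm_num)
  have hτ1 : τ ≤ 1 / 100 := by rw [hτd]; exact min_le_right _ _
  have hτ2 : τ ≤ τ₀ := by rw [hτd]; exact min_le_left _ _
  have hsum := ZSP_sum hτ hτ1 (hτall τ hτ.le hτ2)
  obtain ⟨ρ₁, hρ₁, hLZ⟩ := h1 η hη (1 / 2 - τ / 2) (by linarith) (by linarith)
  refine ⟨min ρ₁ (1 / 100), lt_min hρ₁ (by norm_num), fun κ hκ => ?_⟩
  obtain ⟨c₁, hc₁, hLZ⟩ := hLZ κ hκ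
  obtain ⟨e1, he1⟩ : ∃ e1, e1 = min (min t (τ / 2)) c₁ := ⟨_, rfl⟩
  have he0 : 0 < e1 := by rw [he1]; positivity
  have het : e1 ≤ t := by rw [he1]; exact (min_le_left _ _).trans (min_le_left _ _)
  have heτ : e1 ≤ τ / 2 := by rw [he1]; exact (min_le_left _ _).trans (min_le_right _ _)
  have hec : e1 ≤ c₁ := by rw [he1]; exact min_le_right _ _
  obtain ⟨δ₀, hδ₀, hLin⟩ := h0 e1 he0
  obtain ⟨c0, k, hc0, hVL⟩ := h3
  refine ⟨min δ₀ (1 / 16), by positivity, fun δ hδ hδ1 => ?_⟩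
  have hδa : δ ≤ δ₀ := hδ1.trans (min_le_left _ _)
  have hδb : δ ≤ 1 / 16 := hδ1.trans (min_le_right _ _)
  obtain ⟨C, hLZ⟩ := hLZ δ hδ
  have hI := SP_int_ge hη
  have hP1 := h5 (etaR η) (SP_etaR hη) t ht0
  rw [SP_int_etaR] at hP1
  obtain ⟨I, hIdef⟩ : ∃ I, I = ∫ u in (0 : ℝ)..1, η u := ⟨_, rfl⟩
  rw [← hIdef] at hI hP1
  obtain ⟨M₀, hM₀⟩ := eventually_atTop.1 hP1
  have hev := (TSP_sizes hτ hτ1).and (hsum.and ((hLin δ hδ hδa ⌈2 / δ⌉₊).and
    ((eventually_ge_atTop M₀).and ((SP_logdiv 1).and ((eventually_ge_atTop 3).and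
    (SP_log 2 0 hδ))))))
  obtain ⟨N₀, hN₀⟩ := eventually_atTop.1 hev
  filter_upwards [hLZ, ZSP_sizes,
    tendsto_natCast_atTop_atTop.eventually ((tendsto_rpow_atTop
      (by norm_num : (0 : ℝ) < 3 / 5)).eventually_ge_atTop (2 * (N₀ : ℝ))),
    ZSP_logpow (ε * c0 / 48) (2 * c₁) k (by positivity) (by positivity),
    ZSP_logpow (ε * c0 / (96 * (C + 1) * 2 ^ (C + 3))) (δ / 2) (C + 3 + k) (by positivity)
      (by positivity)] with n hLZ f2 f3 f4 f5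
  intro m N hT hκm hm
  obtain ⟨hn16, f2⟩ := f2
  have hn0 : (0 : ℝ) < n := by exact_mod_cast (by omega : 0 < n)
  have hn1 : (1 : ℝ) < n := by exact_mod_cast (by omega : 1 < n)
  have hm25 : (m : ℝ) ≤ (n : ℝ) ^ (2 / 5 : ℝ) :=
    hm.trans (Real.rpow_le_rpow_of_exponent_le hn1.le
      (by linarith [min_le_right ρ₁ (1 / 100)]))
  have hmρ : (m : ℝ) ≤ (n : ℝ) ^ (1 / 3 + ρ₁) :=
    hm.trans (Real.rpow_le_rpow_of_exponent_le hn1.le
      (by linarith [min_le_left ρ₁ (1 / 100)]))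
  obtain ⟨a3, a4, a5, a6, a7⟩ := f2 m N hT hm25
  have hNN : N₀ ≤ N := by
    have : (N₀ : ℝ) ≤ N := by linarith
    exact_mod_cast this
  obtain ⟨⟨s2, s3, s4, s4', s5⟩, ⟨hupos, hS⟩, hLU, hNM, hf3, hN3, hNδ⟩ := hN₀ N hNN
  rw [pow_zero, mul_one] at hNδ
  have hm1 : 1 ≤ m := hT.1
  have hN1 : (1 : ℝ) < N := by exact_mod_cast (by omega : 1 < N)
  have hN0 : (0 : ℝ) < N := by linarith
  have hlogN : 0 < Real.log N := by linarith
  have hm0 : (0 : ℝ) < m := by exact_mod_cast hm1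
  have hmN0 : 0 < (m : ℝ) * N := mul_pos hm0 hN0
  have hNnR : (N : ℝ) ≤ n := by exact_mod_cast a5
  have hlL : Real.log N ≤ Real.log n := Real.log_le_log hN0 hNnR
  have hLpos : 0 < Real.log n := by linarith
  have hm2 : (m : ℝ) ≤ (N : ℝ) ^ 2 := by
    have b1 : m ≤ n := by
      have : m * 1 ≤ m * N := Nat.mul_le_mul_left m (by omega)
      have := hT.2.1
      omega
    exact_mod_cast b1.trans a6
  have hwz : wN δ N ≤ zN N := by
    unfold wN zN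
    apply Nat.floor_le_floor
    exact Real.rpow_le_rpow_of_exponent_le hN1.le (by linarith)
  have hDns := ZSP_Dns h4 (z := zN N) hδ (by omega : 2 ≤ N) hm1 hm2
  obtain ⟨zz, hz⟩ : ∃ zz, zz = zN N := ⟨_, rfl⟩
  obtain ⟨w, hw⟩ : ∃ w, w = wN δ N := ⟨_, rfl⟩
  rw [← hz] at s2 s3 s4 s4' s5 hupos hS hwz hDns
  rw [← hw] at hwz hDns
  obtain ⟨Q, hQ⟩ : ∃ Q, Q = (pr (yN N)).filter (fun p => zz < p ∧ ¬ p ∣ m) := ⟨_, rfl⟩
  have hQsub : Q ⊆ (pr (yN N)).filter (fun p => zz < p) := by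
    rw [hQ]
    intro p hp
    rw [mem_filter] at hp ⊢
    exact ⟨hp.1, hp.2.1⟩
  have hQp : ∀ p ∈ Q, p.Prime ∧ zz < p ∧ ¬ p ∣ m := by
    intro p hp
    rw [hQ] at hp
    obtain ⟨a1, a2⟩ := mem_filter.1 hp
    obtain ⟨b3, b4⟩ := mem_filter.1 a1
    exact ⟨b4, a2⟩
  have hz2 : (2 : ℝ) ≤ zz := by exact_mod_cast s3
  have hzpos : (0 : ℝ) < zz := by linarith
  have hlogz0 : 0 < Real.log zz := Real.log_pos (by linarith)
  have hlogz : Real.log zz ≤ 1 / 8 * Real.log N := by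
    have a1 := Real.log_le_log hzpos s4
    rwa [Real.log_rpow hN0] at a1
  obtain ⟨G, hG⟩ : ∃ G, G = ⌊(N : ℝ) ^ e1⌋₊ := ⟨_, rfl⟩
  have hGe : (G : ℝ) ≤ (N : ℝ) ^ e1 := by rw [hG]; exact Nat.floor_le (by positivity)
  have hG1 : 1 ≤ G := by
    rw [hG]
    exact Nat.le_floor (by
      rw [Nat.cast_one]
      exact Real.one_le_rpow hN1.le he0.le)
  have hGz : G ≤ zz := by
    have b1 : (G : ℝ) ≤ zz := by
      refine hGe.trans (le_trans ?_ s2)
      exact Real.rpow_le_rpow_of_exponent_le hN1.le (by linarith)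
    exact_mod_cast b1
  have hGn : (G : ℝ) ≤ (n : ℝ) ^ c₁ := by
    refine hGe.trans ((Real.rpow_le_rpow hN0.le hNnR he0.le).trans ?_)
    exact Real.rpow_le_rpow_of_exponent_le hn1.le hec
  obtain ⟨F, hF⟩ : ∃ F : ℕ → ℕ, F = fun p : ℕ => ⌊(N : ℝ) ^ (1 / 2 - τ) / p * (N : ℝ) ^ e1⌋₊ :=
    ⟨_, rfl⟩
  obtain ⟨Θ, hΘ⟩ : ∃ Θ, Θ = ⌊(N : ℝ) ^ (1 / 2 - τ / 2)⌋₊ := ⟨_, rfl⟩
  have hFΘ : ∀ p ∈ Q, p * F p ≤ Θ := by
    intro p hp
    have b0 : (0 : ℝ) < p := by exact_mod_cast (hQp p hp).1.pos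
    rw [hΘ]
    refine Nat.le_floor ?_
    have b1 : (F p : ℝ) ≤ (N : ℝ) ^ (1 / 2 - τ) / p * (N : ℝ) ^ e1 := by
      rw [hF]
      exact Nat.floor_le (by positivity)
    push_cast
    calc (p : ℝ) * F p ≤ p * ((N : ℝ) ^ (1 / 2 - τ) / p * (N : ℝ) ^ e1) :=
          mul_le_mul_of_nonneg_left b1 b0.le
      _ = (N : ℝ) ^ (1 / 2 - τ) * (N : ℝ) ^ e1 := by
          field_simp
      _ = (N : ℝ) ^ (1 / 2 - τ + e1) := (Real.rpow_add hN0 _ _).symm
      _ ≤ (N : ℝ) ^ (1 / 2 - τ / 2) :=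
          Real.rpow_le_rpow_of_exponent_le hN1.le (by linarith)
  have hFN : ∀ p ∈ Q, F p ≤ N ^ 2 := by
    intro p hp
    have b1 : F p ≤ p * F p := Nat.le_mul_of_pos_left _ (hQp p hp).1.pos
    have b2 : Θ ≤ N := by
      rw [hΘ]
      refine Nat.floor_le_of_le ?_
      calc (N : ℝ) ^ (1 / 2 - τ / 2) ≤ (N : ℝ) ^ (1 : ℝ) :=
            Real.rpow_le_rpow_of_exponent_le hN1.le (by linarith)
        _ = N := Real.rpow_one _
    have b3 := hFΘ p hp
    nlinarith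
  have hVB : ∀ l : ℕ, l.Prime → 0 ≤ gZ w m l ∧ gZ w m l ≤ 1 / 2 ∧ gZ w m l ≤ 4 / (l : ℝ) :=
    fun l hl => ⟨(ZSP_gZ h4 w m l hl).1, (ZSP_gZ h4 w m l hl).2.1, (ZSP_gZ h4 w m l hl).2.2.1⟩
  have hVB0 : c0 / Real.log n ^ k ≤ VV (gZ w m) zz := by
    refine le_trans ?_ (hVL zz (gZ w m) s3 hVB)
    have a2 : Real.log zz ≤ Real.log n := (Real.log_le_log hzpos s4').trans hlL
    exact div_le_div_of_nonneg_left hc0.le (pow_pos hlogz0 k) (pow_le_pow_left₀ hlogz0.le a2 k)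
  have hVBpos : 0 < VV (gZ w m) zz := lt_of_lt_of_le (by positivity) hVB0
  have hψ := SP_psi0_nonneg hη (m * N)
  -- one prime
  have hgood : ∀ p ∈ Q, SSZp η w zz p N m n ≤
      psi0 (etaR η) (m * N) * VV (gZ w m) zz * ((A0 + 3 * t) * (1 / (p : ℝ) *
          (1 / 8 / (1 / 2 - τ - Real.log p / Real.log N)))) +
        3 * ∑ g ∈ (Icc 1 G).filter Squarefree,
        ∑ a ∈ (range g).filter (fun a => ∀ l ∈ g.primeFactors, a % l ∈ OmT w l),
          ∑ d ∈ (ZD (m * g) w (F p)).filter (fun d => ∀ l ∈ d.primeFactors, l ≤ zz),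
            EZ η N m n g a (p * d) := by
    intro p hpQ
    obtain ⟨a1, a2, -⟩ := hQp p hpQ
    obtain ⟨b3, b4, b5, -, -⟩ := s5 p (hQsub hpQ)
    obtain ⟨hu0, hu1, hu⟩ := hupos p (hQsub hpQ)
    obtain ⟨c, c1, c2, c3, c4⟩ := hLU zz ((N : ℝ) ^ (1 / 2 - τ) / p) s2 b3 b4 b5 (gZ w m) hDns
    have c1' : ∀ d, c d ≠ 0 → Squarefree d ∧ (∀ l ∈ d.primeFactors, l ≤ zz) ∧ d ≤ F p ∧
        smp w d ≤ G := by
      intro d hd
      obtain ⟨d1, d2, d3, d4⟩ := c1 d hd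
      refine ⟨d1, d2, ?_, ?_⟩
      · rw [hF]
        exact Nat.le_floor d3
      · rw [hG, hw]
        exact Nat.le_floor d4
    have c3' : ∑ d ∈ Icc 1 (F p), c d * ∏ l ∈ d.primeFactors, gZ w m l ≤
        VV (gZ w m) zz * (A0 * Real.log zz / Real.log ((N : ℝ) ^ (1 / 2 - τ) / p) + e1) := by
      refine le_trans (le_of_eq ?_) c3
      apply sum_subset (Icc_subset_Icc_right (hFN p hpQ))
      intro d hd hd2
      rw [mem_Icc] at hd hd2
      by_cases hc : c d = 0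
      · rw [hc, zero_mul]
      · exact absurd ⟨hd.1, (c1' d hc).2.2.1⟩ hd2
    have hone := ZSP_one h2 hη N m n w zz (F p) G p c a1 a2 hwz c1' c2 c4 c3'
    refine hone.trans (add_le_add ?_ le_rfl)
    rw [hu]
    have hkey := ZSP_key A0 (Real.log zz) (Real.log N) _ t e1 hA0 hlogN hu0 hu1 hlogz het ht0.le
    have hcoef : 0 ≤ psi0 (etaR η) (m * N) / (p : ℝ) * VV (gZ w m) zz :=
      mul_nonneg (div_nonneg hψ (Nat.cast_nonneg _)) hVBpos.le
    refine le_trans (le_of_eq ?_) (le_trans (mul_le_mul_of_nonneg_left hkey hcoef) (le_of_eq ?_))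
    · ring
    · ring
  -- the errors
  have hswap : ∑ p ∈ Q, 3 * ∑ g ∈ (Icc 1 G).filter Squarefree,
        ∑ a ∈ (range g).filter (fun a => ∀ l ∈ g.primeFactors, a % l ∈ OmT w l),
          ∑ d ∈ (ZD (m * g) w (F p)).filter (fun d => ∀ l ∈ d.primeFactors, l ≤ zz),
            EZ η N m n g a (p * d) ≤
      3 * ∑ g ∈ (Icc 1 G).filter Squarefree,
        ∑ a ∈ (range g).filter (fun a => ∀ l ∈ g.primeFactors, a % l ∈ OmT w l),
          ∑ f ∈ ZD (m * g) w Θ, EZ η N m n g a f := by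
    rw [← mul_sum]
    apply mul_le_mul_of_nonneg_left _ (by norm_num)
    rw [sum_comm]
    refine sum_le_sum fun g hg => ?_
    rw [sum_comm]
    refine sum_le_sum fun a _ => ?_
    rw [mem_filter, mem_Icc] at hg
    exact ZSP_inj m g w zz Θ Q F (fun f => EZ η N m n g a f) (fun f => abs_nonneg _) hg.1.1
      (hg.1.2.trans hGz) hwz hQp hFΘ
  obtain ⟨K, hK⟩ : ∃ K : ℝ, K = C * (1 + Real.log n) ^ C * n / w := ⟨_, rfl⟩
  have hK0 : 0 ≤ K := by rw [hK]; positivity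
  have hlev := ZSP_lev h4 w G hG1 ((n : ℝ) ^ (1 - 4 * c₁)) K (by positivity) hK0
    (fun g a => ∑ f ∈ ZD (m * g) w Θ, EZ η N m n g a f) (fun g a hg hgG ha => by
      have b1 : (g : ℝ) ≤ (n : ℝ) ^ c₁ := le_trans (by exact_mod_cast hgG) hGn
      have b2 := hLZ m N g a hT hκm hmρ hg b1 ha
      rw [← hw, ← hΘ] at b2
      refine b2.trans (le_of_eq ?_)
      rw [hK, div_div, mul_comm (w : ℝ) g])
  have hsplit : ∑ p ∈ Q, SSZp η w zz p N m n ≤
      psi0 (etaR η) (m * N) * VV (gZ w m) zz * ((A0 + 3 * t) * (L + t)) +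
        3 * ((G : ℝ) ^ 2 * (n : ℝ) ^ (1 - 4 * c₁) + K * (1 + Real.log G) ^ 3) := by
    refine (sum_le_sum hgood).trans ?_
    rw [sum_add_distrib]
    refine add_le_add ?_ (hswap.trans (mul_le_mul_of_nonneg_left hlev (by norm_num)))
    rw [← mul_sum, ← mul_sum]
    refine mul_le_mul_of_nonneg_left ?_ (mul_nonneg hψ hVBpos.le)
    refine mul_le_mul_of_nonneg_left ?_ (by positivity)
    rw [hL]
    exact hS Q hQsub
  have hUU : UZ η δ N m = I * (m * N) * VV (gZ w m) zz := by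
    unfold UZ
    rw [hIdef, hw, hz]
  rw [← hw, ← hz, ← hQ, ← hL]
  refine hsplit.trans ?_
  -- the main term
  have hpsi : psi0 (etaR η) (m * N) ≤ (1 + 2 * t) * (I * (m * N)) := by
    have a1 : M₀ ≤ m * N := hNM.trans (Nat.le_mul_of_pos_left N hm1)
    have a2 := (abs_le.1 (hM₀ (m * N) a1)).2
    push_cast at a2
    have a4 : t * ((m : ℝ) * N) ≤ 2 * t * (I * (m * N)) := by
      have : t * ((m : ℝ) * N) * (1 / 2) ≤ t * ((m : ℝ) * N) * I :=
        mul_le_mul_of_nonneg_left hI (by positivity)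
      linarith
    linarith
  have hUU0 : 0 < UZ η δ N m := by
    rw [hUU]
    have : 0 < I := by linarith
    positivity
  have hmain : psi0 (etaR η) (m * N) * VV (gZ w m) zz * ((A0 + 3 * t) * (L + t)) ≤
      (A0 * L + ε / 2) * UZ η δ N m := by
    have a3 : psi0 (etaR η) (m * N) * VV (gZ w m) zz ≤ (1 + 2 * t) * UZ η δ N m := by
      rw [hUU]
      calc psi0 (etaR η) (m * N) * VV (gZ w m) zz ≤
            (1 + 2 * t) * (I * (m * N)) * VV (gZ w m) zz :=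
            mul_le_mul_of_nonneg_right hpsi hVBpos.le
        _ = _ := by ring
    have a4 : 0 ≤ (A0 + 3 * t) * (L + t) := by positivity
    calc psi0 (etaR η) (m * N) * VV (gZ w m) zz *
          ((A0 + 3 * t) * (L + t)) ≤ (1 + 2 * t) * UZ η δ N m * ((A0 + 3 * t) * (L + t)) :=
          mul_le_mul_of_nonneg_right a3 a4
      _ = (1 + 2 * t) * ((A0 + 3 * t) * (L + t)) * UZ η δ N m := by ring
      _ ≤ _ := mul_le_mul_of_nonneg_right (SP_num hA0 L0 L1 ht0.le ht2 ht3) hUU0.le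
  -- the error term
  have hUlow : 1 / 2 * (n / 2) * (c0 / Real.log n ^ k) ≤ UZ η δ N m := by
    rw [hUU]
    exact mul_le_mul (mul_le_mul hI a7 (by positivity) (by linarith)) hVB0 (by positivity)
      (mul_nonneg (by linarith) hmN0.le)
  have herr1 := ZSP_e1 n (Real.log n) (UZ η δ N m) c0 ε c₁ G k hn0 hLpos hε hUlow
    (Nat.cast_nonneg _) hGn f4
  have herr2 : 3 * (K * (1 + Real.log G) ^ 3) ≤ (ε / 4) * UZ η δ N m := by
    rw [hK]
    have hlG : Real.log G ≤ Real.log n := by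
      apply Real.log_le_log (by exact_mod_cast hG1)
      have : (G : ℝ) ≤ zz := by exact_mod_cast hGz
      linarith
    refine ZSP_e2 n (Real.log n) (UZ η δ N m) c0 ε w ((n : ℝ) ^ (δ / 2)) (Real.log G) k C hn0
      (by linarith) hε hUlow (Real.log_natCast_nonneg G) hlG (by positivity) ?_ ?_
    · have b1 : (N : ℝ) ^ δ < w + 1 := by rw [hw]; exact Nat.lt_floor_add_one _
      have b2 : (n : ℝ) ^ (δ / 2) ≤ (N : ℝ) ^ δ := by
        have b3 : (n : ℝ) ^ (δ / 2) = ((n : ℝ) ^ (1 / 2 : ℝ)) ^ δ := by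
          rw [← Real.rpow_mul hn0.le]
          congr 1
          ring
        rw [b3]
        exact Real.rpow_le_rpow (by positivity) a4 hδ.le
      linarith
    · have b1 : (0 : ℝ) < 96 * (C + 1) * 2 ^ (C + 3) := by positivity
      have b2 : 96 * (C + 1) * 2 ^ (C + 3) * Real.log n ^ (C + 3 + k) ≤
          ε * c0 * (n : ℝ) ^ (δ / 2) := by
        have b3 := mul_le_mul_of_nonneg_left f5 b1.le
        refine b3.trans (le_of_eq ?_)
        field_simp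
      refine le_trans ?_ b2
      apply mul_le_mul_of_nonneg_right _ (by positivity)
      apply mul_le_mul_of_nonneg_right _ (by positivity)
      linarith
  have hfin : (A0 * L + ε / 2) * UZ η δ N m + ((ε / 4) * UZ η δ N m + (ε / 4) * UZ η δ N m) =
      (A0 * L + ε) * UZ η δ N m := by ring
  rw [mul_add 3, ← hfin]
  exact add_le_add hmain (add_le_add herr1 herr2)

end Pool.Agent.CV
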